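import Mathlib

/-!
# From finite subsets to the cardinality of a set
-/

set_option autoImplicit false

namespace UBC

/-- a set all of whose finite subsets have at most `B` elements has at most `B` elements -/
theorem encard_le_of_finset {α : Type*} {S : Set α} {B : ℕ}
    (h : ∀ P : Finset α, (∀ x ∈ P, x ∈ S) → P.card ≤ B) : S.encard ≤ B := by
  by_contra hcon
  push Not at hcon
  obtain ⟨T, hTS, hT⟩ := Set.exists_subset_encard_eq (s := S) (k := (B + 1 : ℕ))
    (by
      have := Order.add_one_le_of_lt hcon
      exact_mod_cast this)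
  have hTf : T.Finite := Set.finite_of_encard_eq_coe hT
  have h1 := h hTf.toFinset (fun x hx => hTS (hTf.mem_toFinset.1 hx))
  have h2 : (hTf.toFinset.card : ℕ∞) = ((B + 1 : ℕ) : ℕ∞) := by
    rw [← hT, hTf.encard_eq_coe_toFinset_card]
  have h3 : hTf.toFinset.card = B + 1 := by exact_mod_cast h2
  omega

end UBC
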