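import Pool.Agent.UBC.Defs2

/-!
# Heights from local inequalities
-/

set_option autoImplicit false

namespace UBC

open Height AdmissibleAbsValues

namespace LocGlobAux

open Function

theorem fms_max {L : Type*} [Field L] [AdmissibleAbsValues L] (x : L) :
    (fun v : nonarchAbsVal (K := L) ↦ max (v.val x) 1).HasFiniteMulSupport := by
  rcases eq_or_ne x 0 with rfl | hx
  · simp [HasFiniteMulSupport]
  · have h := hasFiniteMulSupport hx
    refine h.subset ?_
    intro v hv
    simp only [mem_mulSupport, ne_eq] at hv ⊢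
    intro h1
    apply hv
    rw [h1]
    simp

theorem fms_B {L : Type*} [Field L] [AdmissibleAbsValues L]
    (B : AbsoluteValue L ℝ → ℝ) (hB : Ok L B) :
    (fun v : nonarchAbsVal (K := L) ↦ B v.val).HasFiniteMulSupport := by
  have h := hB.2
  unfold HasFiniteMulSupport
  have h2 : (Subtype.val '' (mulSupport fun v : nonarchAbsVal (K := L) ↦ B v.val)).Finite := by
    refine h.subset ?_
    rintro _ ⟨v, hv, rfl⟩
    exact ⟨v.2, hv⟩
  exact Set.Finite.of_finite_image h2 (Set.injOn_of_injective Subtype.val_injective)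

end LocGlobAux

/-- V1. -/
theorem height_le_of_local (L : Type*) [Field L] [AdmissibleAbsValues L]
    (B : AbsoluteValue L ℝ → ℝ) (hB : Ok L B) :
    ∃ C : ℝ, ∀ (ι : Type) [Fintype ι] (c : L) (ξ : ι → L) (k : ℕ),
      (∀ v, IsPl L v → max (v c) 1 ≤ B v * ∏ i, max (v (ξ i)) 1 ^ k) →
      logHeight₁ c ≤ k * ∑ i, logHeight₁ (ξ i) + C := by
  classical
  obtain ⟨PA, hPA⟩ : ∃ PA : ℝ, PA = ((archAbsVal (K := L)).map B).prod := ⟨_, rfl⟩
  obtain ⟨PN, hPN⟩ : ∃ PN : ℝ, PN = ∏ᶠ v : nonarchAbsVal (K := L), B v.val := ⟨_, rfl⟩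
  have hPA1 : 1 ≤ PA := by
    rw [hPA]
    exact Multiset.one_le_prod_map fun v _ ↦ hB.1 v
  have hPN1 : 1 ≤ PN := by
    rw [hPN]
    exact one_le_finprod fun v ↦ hB.1 v.val
  refine ⟨Real.log (PA * PN), ?_⟩
  intro ι _ c ξ k h
  have hkey : mulHeight₁ c ≤ (PA * PN) * ∏ i, mulHeight₁ (ξ i) ^ k := by
    have e1 : ∏ i, mulHeight₁ (ξ i) ^ k =
        ((archAbsVal (K := L)).map fun v ↦ ∏ i, max (v (ξ i)) 1 ^ k).prod *
          ∏ᶠ v : nonarchAbsVal (K := L), ∏ i, max (v.val (ξ i)) 1 ^ k := by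
      rw [Multiset.prod_map_prod, finprod_prod_comm, ← Finset.prod_mul_distrib]
      · refine Finset.prod_congr rfl fun i _ ↦ ?_
        rw [Multiset.prod_map_pow, ← finprod_pow (LocGlobAux.fms_max (ξ i)), ← mul_pow,
          mulHeight₁_eq]
      · intro i _
        exact (LocGlobAux.fms_max (ξ i)).pow k
    rw [e1, mulHeight₁_eq, hPA, hPN, mul_mul_mul_comm, ← Multiset.prod_map_mul,
      ← finprod_mul_distrib (LocGlobAux.fms_B B hB)]
    · refine mul_le_mul ?_ ?_ ?_ ?_
      · refine Multiset.prod_map_le_prod_map₀ _ _ (fun v _ ↦ by positivity) fun v hv ↦ ?_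
        exact h v (Or.inl hv)
      · refine finprod_le_finprod (LocGlobAux.fms_max c) (fun v ↦ by positivity) ?_ fun v ↦ ?_
        · refine (LocGlobAux.fms_B B hB).mul ?_
          exact Function.HasFiniteMulSupport.prod (fun i ↦ (LocGlobAux.fms_max (ξ i)).pow k) Finset.univ
        · exact h v.val (Or.inr v.2)
      · exact finprod_nonneg fun v ↦ by positivity
      · refine Multiset.prod_map_nonneg fun v _ ↦ ?_
        have := hB.1 v
        positivity
    · exact Function.HasFiniteMulSupport.prod (fun i ↦ (LocGlobAux.fms_max (ξ i)).pow k) Finset.univ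
  have hpos : ∀ i, 0 < mulHeight₁ (ξ i) := fun i ↦ mulHeight₁_pos _
  have h2 := Real.log_le_log (mulHeight₁_pos c) hkey
  have hPP : PA * PN ≠ 0 := by positivity
  have hQQ : ∏ i, mulHeight₁ (ξ i) ^ k ≠ 0 :=
    Finset.prod_ne_zero_iff.mpr fun i _ ↦ pow_ne_zero _ (hpos i).ne'
  rw [Real.log_mul hPP hQQ, Real.log_prod (fun i _ ↦ pow_ne_zero _ (hpos i).ne')] at h2
  simp only [Real.log_pow] at h2
  rw [← Finset.mul_sum] at h2
  simp only [logHeight₁_eq_log_mulHeight₁]
  linarith

end UBC
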