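import Pool.Agent.UBC.Defs2

/-!
# Local inequality behind `locO`
-/

set_option autoImplicit false

namespace UBC

variable {L : Type*} [Field L]

/-- the relations between `x = x(P)`, `x' = x(P')`, `z = x(P - P')` on `y ^ 2 = x ^ 3 + a x ^ 2 + b x + c` -/
def Rel (a b c x x' z : L) : Prop :=
  (x ≠ x' ∧ ∃ z' : L, (z + z') * (x - x') ^ 2 =
      2 * ((x * x' + b) * (x + x') + 2 * a * x * x' + 2 * c) ∧
    z * z' * (x - x') ^ 2 = (x * x' - b) ^ 2 - 4 * c * (x + x' + a)) ∨
  (x = x' ∧ z * (4 * (x ^ 3 + a * x ^ 2 + b * x + c)) = (x ^ 2 - b) ^ 2 - 4 * c * (2 * x + a))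

namespace LocOLocAux

lemma rel_symm {a b c x x' z : L} (h : Rel a b c x x' z) : Rel a b c x' x z := by
  rcases h with ⟨h1, z', h2, h3⟩ | ⟨h1, h2⟩
  · refine Or.inl ⟨h1.symm, z', ?_, ?_⟩
    · linear_combination h2
    · linear_combination h3
  · subst h1
    exact Or.inr ⟨rfl, h2⟩

lemma sub_le' (v : AbsoluteValue L ℝ) (p q : L) : v (p - q) ≤ v p + v q := by
  rw [sub_eq_add_neg]
  exact (v.add_le p (-q)).trans (by rw [v.map_neg])

lemma two_le (v : AbsoluteValue L ℝ) : v 2 ≤ 2 := by
  have h : (2 : L) = 1 + 1 := by norm_num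
  rw [h]
  refine (v.add_le 1 1).trans ?_
  rw [v.map_one]; norm_num

lemma four_le (v : AbsoluteValue L ℝ) : v 4 ≤ 4 := by
  have h : (4 : L) = 2 * 2 := by norm_num
  rw [h, v.map_mul]
  nlinarith [two_le v, v.nonneg 2]

/-! ### nonarchimedean -/

lemma na_sub (v : AbsoluteValue L ℝ) (hv : IsNonarchimedean v) (p q : L) :
    v (p - q) ≤ max (v p) (v q) := by
  rw [sub_eq_add_neg]
  have := hv p (-q)
  rwa [v.map_neg] at this

lemma na_two (v : AbsoluteValue L ℝ) (hv : IsNonarchimedean v) : v 2 ≤ 1 := by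
  have h : (2 : L) = 1 + 1 := by norm_num
  have h1 := hv 1 1
  rw [v.map_one, max_self] at h1
  rwa [← h] at h1

lemma na_four (v : AbsoluteValue L ℝ) (hv : IsNonarchimedean v) : v 4 ≤ 1 := by
  have h : (4 : L) = 2 * 2 := by norm_num
  rw [h, v.map_mul]
  exact mul_le_one₀ (na_two v hv) (v.nonneg 2) (na_two v hv)

/-- lower bound for a difference -/
lemma na_lower (v : AbsoluteValue L ℝ) (hv : IsNonarchimedean v) {p q : L} {t : ℝ}
    (hp : t ≤ v p) (hq : v q < t) : t ≤ v (p - q) := by
  by_contra h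
  push Not at h
  have h1 := hv (p - q) q
  rw [sub_add_cancel] at h1
  exact absurd (hp.trans h1) (not_le.2 (max_lt h hq))

lemma na_main (v : AbsoluteValue L ℝ) (hv : IsNonarchimedean v) {a b c : L}
    (ha : v a ≤ 1) (hb : v b ≤ 1) (hc : v c ≤ 1) {x x' z : L} (h : Rel a b c x x' z)
    (hX : 1 < v x) (hXX : v x ≤ v x') : v x ≤ v z := by
  have h2 := na_two v hv
  have h4 := na_four v hv
  have hX' : 1 < v x' := hX.trans_le hXX
  have hX0 : 0 < v x := zero_lt_one.trans hX
  have hX'0 : 0 < v x' := zero_lt_one.trans hX'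
  rcases h with ⟨hne, z', e1, e2⟩ | ⟨he, e1⟩
  · by_contra hz
    push Not at hz
    have hδ : v (x - x') ≤ v x' := (na_sub v hv _ _).trans (max_le hXX le_rfl)
    -- lower bound for the product
    have p1 : v x * v x' ≤ v (x * x' - b) := by
      apply na_lower v hv (by rw [v.map_mul])
      calc v b ≤ 1 := hb
        _ < v x * v x' := by nlinarith
    have p2 : (v x * v x') ^ 2 ≤ v ((x * x' - b) ^ 2 - 4 * c * (x + x' + a)) := by
      apply na_lower v hv
      · rw [v.map_pow]
        exact pow_le_pow_left₀ (by positivity) p1 2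
      · have q1 : v (x + x' + a) ≤ v x' := by
          refine (hv _ _).trans (max_le ((hv _ _).trans (max_le hXX le_rfl)) ?_)
          exact ha.trans hX'.le
        rw [v.map_mul, v.map_mul]
        calc v 4 * v c * v (x + x' + a) ≤ 1 * 1 * v x' := by
              apply mul_le_mul (mul_le_mul h4 hc (v.nonneg _) zero_le_one) q1 (v.nonneg _)
              norm_num
          _ = v x' := by ring
          _ < (v x * v x') ^ 2 := by
              have : 1 < v x ^ 2 * v x' := by nlinarith [mul_pos hX0 hX0]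
              nlinarith
    rw [← e2] at p2
    -- upper bound for the sum
    have s1 : v (2 * ((x * x' + b) * (x + x') + 2 * a * x * x' + 2 * c)) ≤
        v x * v x' * v x' := by
      have q1 : v (x * x' + b) ≤ v x * v x' := by
        refine (hv _ _).trans (max_le (by rw [v.map_mul]) ?_)
        nlinarith
      have q2 : v (x + x') ≤ v x' := (hv _ _).trans (max_le hXX le_rfl)
      have q3 : v ((x * x' + b) * (x + x')) ≤ v x * v x' * v x' := by
        rw [v.map_mul]
        exact mul_le_mul q1 q2 (v.nonneg _) (by positivity)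
      have q4 : v (2 * a * x * x') ≤ v x * v x' * v x' := by
        rw [v.map_mul, v.map_mul, v.map_mul]
        have r1 : v 2 * v a ≤ 1 := mul_le_one₀ h2 (v.nonneg _) ha
        calc v 2 * v a * v x * v x' = (v 2 * v a) * (v x * v x') := by ring
          _ ≤ 1 * (v x * v x') := mul_le_mul_of_nonneg_right r1 (by positivity)
          _ = v x * v x' * 1 := by ring
          _ ≤ v x * v x' * v x' := mul_le_mul_of_nonneg_left hX'.le (by positivity)
      have q5 : v (2 * c) ≤ v x * v x' * v x' := by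
        rw [v.map_mul]
        have r1 : v 2 * v c ≤ 1 := mul_le_one₀ h2 (v.nonneg _) hc
        have r2 : 1 ≤ v x * v x' := by nlinarith
        nlinarith
      rw [v.map_mul]
      have q6 : v ((x * x' + b) * (x + x') + 2 * a * x * x' + 2 * c) ≤ v x * v x' * v x' :=
        (hv _ _).trans (max_le ((hv _ _).trans (max_le q3 q4)) q5)
      calc v 2 * _ ≤ 1 * (v x * v x' * v x') :=
            mul_le_mul h2 q6 (v.nonneg _) zero_le_one
        _ = _ := one_mul _
    rw [← e1] at s1
    -- z' (x - x')^2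
    have t1 : v (z' * (x - x') ^ 2) ≤ v x * v x' * v x' := by
      have e3 : z' * (x - x') ^ 2 = (z + z') * (x - x') ^ 2 - z * (x - x') ^ 2 := by ring
      rw [e3]
      refine (na_sub v hv _ _).trans (max_le s1 ?_)
      rw [v.map_mul, v.map_pow]
      calc v z * v (x - x') ^ 2 ≤ v x * v x' ^ 2 :=
            mul_le_mul hz.le (pow_le_pow_left₀ (v.nonneg _) hδ 2) (by positivity) hX0.le
        _ = _ := by ring
    have t2 : v (z * z' * (x - x') ^ 2) ≤ v z * (v x * v x' * v x') := by
      rw [mul_assoc, v.map_mul]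
      exact mul_le_mul_of_nonneg_left t1 (v.nonneg _)
    have t3 : v z * (v x * v x' * v x') < (v x * v x') ^ 2 := by
      have : 0 < v x * v x' * v x' := by positivity
      calc v z * (v x * v x' * v x') < v x * (v x * v x' * v x') :=
            mul_lt_mul_of_pos_right hz this
        _ = _ := by ring
    exact absurd (p2.trans t2) (not_le.2 t3)
  · subst he
    have p1 : v x ^ 2 ≤ v (x ^ 2 - b) := by
      apply na_lower v hv (by rw [v.map_pow])
      calc v b ≤ 1 := hb
        _ < v x ^ 2 := by nlinarith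
    have p2 : v x ^ 4 ≤ v ((x ^ 2 - b) ^ 2 - 4 * c * (2 * x + a)) := by
      apply na_lower v hv
      · rw [v.map_pow]
        calc v x ^ 4 = (v x ^ 2) ^ 2 := by ring
          _ ≤ _ := pow_le_pow_left₀ (by positivity) p1 2
      · have q1 : v (2 * x + a) ≤ v x := by
          refine (hv _ _).trans (max_le ?_ (ha.trans hX.le))
          rw [v.map_mul]
          nlinarith
        rw [v.map_mul, v.map_mul]
        calc v 4 * v c * v (2 * x + a) ≤ 1 * 1 * v x := by
              apply mul_le_mul (mul_le_mul h4 hc (v.nonneg _) zero_le_one) q1 (v.nonneg _)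
              norm_num
          _ = v x := by ring
          _ < v x ^ 4 := by
              have : 1 < v x ^ 3 := one_lt_pow₀ hX (by norm_num)
              nlinarith
    rw [← e1] at p2
    have q2 : v (4 * (x ^ 3 + a * x ^ 2 + b * x + c)) ≤ v x ^ 3 := by
      have hx3 : v x ≤ v x ^ 3 := by
        calc v x = v x ^ 1 := (pow_one _).symm
          _ ≤ v x ^ 3 := pow_le_pow_right₀ hX.le (by norm_num)
      have hx23 : v x ^ 2 ≤ v x ^ 3 := pow_le_pow_right₀ hX.le (by norm_num)
      have r1 : v (x ^ 3 + a * x ^ 2 + b * x + c) ≤ v x ^ 3 := by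
        refine (hv _ _).trans (max_le ((hv _ _).trans (max_le ((hv _ _).trans (max_le ?_ ?_)) ?_)) ?_)
        · rw [v.map_pow]
        · rw [v.map_mul, v.map_pow]
          calc v a * v x ^ 2 ≤ 1 * v x ^ 2 := mul_le_mul_of_nonneg_right ha (by positivity)
            _ = v x ^ 2 := one_mul _
            _ ≤ _ := hx23
        · rw [v.map_mul]
          calc v b * v x ≤ 1 * v x := mul_le_mul_of_nonneg_right hb (by positivity)
            _ = v x := one_mul _
            _ ≤ _ := hx3
        · exact hc.trans (hX.le.trans hx3)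
      rw [v.map_mul]
      calc v 4 * _ ≤ 1 * v x ^ 3 := mul_le_mul h4 r1 (v.nonneg _) zero_le_one
        _ = _ := one_mul _
    rw [v.map_mul] at p2
    have p3 : v x ^ 4 ≤ v z * v x ^ 3 := p2.trans (mul_le_mul_of_nonneg_left q2 (v.nonneg _))
    have hx3 : 0 < v x ^ 3 := by positivity
    have e3 : v x ^ 4 = v x * v x ^ 3 := by ring
    rw [e3] at p3
    exact le_of_mul_le_mul_right p3 hx3

/-! ### any absolute value -/

lemma any_main (v : AbsoluteValue L ℝ) {a b c x x' z : L} (h : Rel a b c x x' z)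
    (hX : 1 ≤ v x) (ha : 100 * v a ≤ v x) (hb : 100 * v b ≤ v x) (hc : 100 * v c ≤ v x)
    (hXX : v x ≤ v x') : v x ≤ 16 * v z := by
  have h2 := two_le v
  have h4 := four_le v
  have hX' : 1 ≤ v x' := hX.trans hXX
  have hX0 : 0 < v x := zero_lt_one.trans_le hX
  have hX'0 : 0 < v x' := zero_lt_one.trans_le hX'
  have ha0 := v.nonneg a
  have hb0 := v.nonneg b
  have hc0 := v.nonneg c
  rcases h with ⟨hne, z', e1, e2⟩ | ⟨he, e1⟩
  · by_contra hz
    push Not at hz
    obtain ⟨X, hXd⟩ : ∃ X, v x = X := ⟨_, rfl⟩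
    obtain ⟨Y, hYd⟩ : ∃ Y, v x' = Y := ⟨_, rfl⟩
    obtain ⟨A, hAd⟩ : ∃ A, v a = A := ⟨_, rfl⟩
    obtain ⟨B, hBd⟩ : ∃ B, v b = B := ⟨_, rfl⟩
    obtain ⟨C, hCd⟩ : ∃ C, v c = C := ⟨_, rfl⟩
    rw [hXd] at hX ha hb hc hXX hX0 hz
    rw [hYd] at hXX hX' hX'0
    rw [hAd] at ha ha0
    rw [hBd] at hb hb0
    rw [hCd] at hc hc0
    have hXY : 1 ≤ X * Y := by nlinarith
    have hδ : v (x - x') ≤ 2 * Y := by
      refine (sub_le' v _ _).trans ?_
      rw [hXd, hYd]; linarith
    -- lower bound for the product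
    have p1 : 99 / 100 * (X * Y) ≤ v (x * x' - b) := by
      have q := v.le_sub (x * x') b
      rw [v.map_mul, hXd, hYd, hBd] at q
      nlinarith
    have q1 : v (x + x' + a) ≤ 3 * Y := by
      refine (v.add_le _ _).trans ?_
      have := v.add_le x x'
      rw [hXd, hYd] at this
      rw [hAd]; linarith
    have q2 : v (4 * c * (x + x' + a)) ≤ 12 / 100 * (X * Y) ^ 2 := by
      rw [v.map_mul, v.map_mul, hCd]
      have r1 : v 4 * C ≤ 4 * (X / 100) := mul_le_mul h4 (by linarith) hc0 (by norm_num)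
      calc v 4 * C * v (x + x' + a) ≤ 4 * (X / 100) * (3 * Y) :=
            mul_le_mul r1 q1 (v.nonneg _) (by positivity)
        _ = 12 / 100 * (X * Y) := by ring
        _ ≤ 12 / 100 * (X * Y) ^ 2 := by nlinarith
    have p2 : 1 / 2 * (X * Y) ^ 2 ≤ v (z * z' * (x - x') ^ 2) := by
      rw [e2]
      have q := v.le_sub ((x * x' - b) ^ 2) (4 * c * (x + x' + a))
      rw [v.map_pow] at q
      have r1 : (99 / 100 * (X * Y)) ^ 2 ≤ v (x * x' - b) ^ 2 :=
        pow_le_pow_left₀ (by positivity) p1 2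
      have r2 : 0 ≤ (X * Y) ^ 2 := by positivity
      nlinarith
    -- upper bound for the sum
    have s1 : v ((z + z') * (x - x') ^ 2) ≤ 5 * (X * Y * Y) := by
      rw [e1]
      have t1 : v (x * x' + b) ≤ 101 / 100 * (X * Y) := by
        refine (v.add_le _ _).trans ?_
        rw [v.map_mul, hXd, hYd, hBd]
        nlinarith
      have t2 : v (x + x') ≤ 2 * Y := by
        refine (v.add_le _ _).trans ?_
        rw [hXd, hYd]; linarith
      have t3 : v ((x * x' + b) * (x + x')) ≤ 202 / 100 * (X * Y * Y) := by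
        rw [v.map_mul]
        calc _ ≤ 101 / 100 * (X * Y) * (2 * Y) := mul_le_mul t1 t2 (v.nonneg _) (by positivity)
          _ = _ := by ring
      have t4 : v (2 * a * x * x') ≤ 2 / 100 * (X * Y * Y) := by
        rw [v.map_mul, v.map_mul, v.map_mul, hAd, hXd, hYd]
        have r1 : v 2 * A ≤ 2 * (X / 100) := mul_le_mul h2 (by linarith) ha0 (by norm_num)
        have r2 : v 2 * A ≤ 2 * (Y / 100) := r1.trans (by linarith)
        calc v 2 * A * X * Y = (v 2 * A) * (X * Y) := by ring
          _ ≤ (2 * (Y / 100)) * (X * Y) := mul_le_mul_of_nonneg_right r2 (by positivity)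
          _ = _ := by ring
      have t5 : v (2 * c) ≤ 2 / 100 * (X * Y * Y) := by
        rw [v.map_mul, hCd]
        have r1 : v 2 * C ≤ 2 * (X / 100) := mul_le_mul h2 (by linarith) hc0 (by norm_num)
        have r2 : X ≤ X * Y * Y := by nlinarith
        linarith
      have t6 : v ((x * x' + b) * (x + x') + 2 * a * x * x' + 2 * c) ≤
          206 / 100 * (X * Y * Y) := by
        refine (v.add_le _ _).trans ?_
        have := v.add_le ((x * x' + b) * (x + x')) (2 * a * x * x')
        linarith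
      rw [v.map_mul]
      have t7 : 0 ≤ X * Y * Y := by positivity
      calc v 2 * _ ≤ 2 * (206 / 100 * (X * Y * Y)) :=
            mul_le_mul h2 t6 (v.nonneg _) (by norm_num)
        _ ≤ _ := by linarith
    have hz16 : v z ≤ X / 16 := by linarith
    have t1 : v (z' * (x - x') ^ 2) ≤ 6 * (X * Y * Y) := by
      have e3 : z' * (x - x') ^ 2 = (z + z') * (x - x') ^ 2 - z * (x - x') ^ 2 := by ring
      rw [e3]
      refine (sub_le' v _ _).trans ?_
      have r1 : v (z * (x - x') ^ 2) ≤ X / 16 * (2 * Y) ^ 2 := by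
        rw [v.map_mul, v.map_pow]
        exact mul_le_mul hz16 (pow_le_pow_left₀ (v.nonneg _) hδ 2) (by positivity) (by positivity)
      have r2 : X / 16 * (2 * Y) ^ 2 = 1 / 4 * (X * Y * Y) := by ring
      have t7 : 0 ≤ X * Y * Y := by positivity
      linarith
    have t2 : v (z * z' * (x - x') ^ 2) ≤ X / 16 * (6 * (X * Y * Y)) := by
      rw [mul_assoc, v.map_mul]
      exact mul_le_mul hz16 t1 (v.nonneg _) (by positivity)
    have t3 : X / 16 * (6 * (X * Y * Y)) = 6 / 16 * (X * Y) ^ 2 := by ring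
    rw [t3] at t2
    have t4 : 0 < (X * Y) ^ 2 := by positivity
    linarith [p2.trans t2]
  · subst he
    obtain ⟨X, hXd⟩ : ∃ X, v x = X := ⟨_, rfl⟩
    obtain ⟨A, hAd⟩ : ∃ A, v a = A := ⟨_, rfl⟩
    obtain ⟨B, hBd⟩ : ∃ B, v b = B := ⟨_, rfl⟩
    obtain ⟨C, hCd⟩ : ∃ C, v c = C := ⟨_, rfl⟩
    rw [hXd] at hX ha hb hc hX0
    rw [hAd] at ha ha0
    rw [hBd] at hb hb0
    rw [hCd] at hc hc0
    rw [hXd]
    have hX2 : X ≤ X ^ 2 := by nlinarith
    have hX23 : X ^ 2 ≤ X ^ 3 := pow_le_pow_right₀ hX (by norm_num)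
    have hX34 : X ^ 3 ≤ X ^ 4 := pow_le_pow_right₀ hX (by norm_num)
    have p1 : 99 / 100 * X ^ 2 ≤ v (x ^ 2 - b) := by
      have q := v.le_sub (x ^ 2) b
      rw [v.map_pow, hXd, hBd] at q
      linarith
    have q1 : v (2 * x + a) ≤ 3 * X := by
      refine (v.add_le _ _).trans ?_
      rw [v.map_mul, hXd, hAd]
      nlinarith
    have q2 : v (4 * c * (2 * x + a)) ≤ 12 / 100 * X ^ 4 := by
      rw [v.map_mul, v.map_mul, hCd]
      have r1 : v 4 * C ≤ 4 * (X / 100) := mul_le_mul h4 (by linarith) hc0 (by norm_num)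
      calc v 4 * C * v (2 * x + a) ≤ 4 * (X / 100) * (3 * X) :=
            mul_le_mul r1 q1 (v.nonneg _) (by positivity)
        _ = 12 / 100 * X ^ 2 := by ring
        _ ≤ 12 / 100 * X ^ 4 := by linarith
    have p2 : 1 / 2 * X ^ 4 ≤ v (z * (4 * (x ^ 3 + a * x ^ 2 + b * x + c))) := by
      rw [e1]
      have q := v.le_sub ((x ^ 2 - b) ^ 2) (4 * c * (2 * x + a))
      rw [v.map_pow] at q
      have r1 : (99 / 100 * X ^ 2) ^ 2 ≤ v (x ^ 2 - b) ^ 2 :=
        pow_le_pow_left₀ (by positivity) p1 2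
      have r2 : (99 / 100 * X ^ 2) ^ 2 = 9801 / 10000 * X ^ 4 := by ring
      have r3 : 0 ≤ X ^ 4 := by positivity
      linarith
    have s1 : v (4 * (x ^ 3 + a * x ^ 2 + b * x + c)) ≤ 8 * X ^ 3 := by
      have t1 : v (x ^ 3 + a * x ^ 2 + b * x + c) ≤ 2 * X ^ 3 := by
        have u1 := v.add_le (x ^ 3 + a * x ^ 2 + b * x) c
        have u2 := v.add_le (x ^ 3 + a * x ^ 2) (b * x)
        have u3 := v.add_le (x ^ 3) (a * x ^ 2)
        rw [v.map_mul, hBd, hXd] at u2
        rw [v.map_mul, v.map_pow, v.map_pow, hAd, hXd] at u3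
        rw [hCd] at u1
        have w1 : A * X ^ 2 ≤ X / 100 * X ^ 2 :=
          mul_le_mul_of_nonneg_right (by linarith) (by positivity)
        have w2 : B * X ≤ X / 100 * X := mul_le_mul_of_nonneg_right (by linarith) hX0.le
        have w3 : X / 100 * X ^ 2 = 1 / 100 * X ^ 3 := by ring
        have w4 : X / 100 * X = 1 / 100 * X ^ 2 := by ring
        linarith
      rw [v.map_mul]
      calc v 4 * _ ≤ 4 * (2 * X ^ 3) := mul_le_mul h4 t1 (v.nonneg _) (by norm_num)
        _ = _ := by ring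
    rw [v.map_mul] at p2
    have p3 : 1 / 2 * X ^ 4 ≤ v z * (8 * X ^ 3) :=
      p2.trans (mul_le_mul_of_nonneg_left s1 (v.nonneg _))
    have hx3 : 0 < X ^ 3 := by positivity
    have e3 : X * X ^ 3 ≤ (16 * v z) * X ^ 3 := by nlinarith
    exact le_of_mul_le_mul_right e3 hx3

end LocOLocAux

open LocOLocAux

/-- V7b. (If `|z| < |x| ≤ |x'|` then `|z'|` would be too large for the first relation.) -/
theorem rel_nonarch (v : AbsoluteValue L ℝ) (hv : IsNonarchimedean v) {a b c : L}
    (ha : v a ≤ 1) (hb : v b ≤ 1) (hc : v c ≤ 1) {x x' z : L} (h : Rel a b c x x' z) :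
    min (max (v x) 1) (max (v x') 1) ≤ max (v z) 1 := by
  have key : ∀ {x x' : L}, Rel a b c x x' z → v x ≤ v x' →
      min (max (v x) 1) (max (v x') 1) ≤ max (v z) 1 := by
    intro x x' h hXX
    rcases le_or_gt (v x) 1 with h1 | h1
    · exact (min_le_left _ _).trans (max_le (h1.trans (le_max_right _ _)) (le_max_right _ _))
    · have h2 := na_main v hv ha hb hc h h1 hXX
      exact (min_le_left _ _).trans (max_le (h2.trans (le_max_left _ _)) (le_max_right _ _))
  rcases le_total (v x) (v x') with hle | hle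
  · exact key h hle
  · rw [min_comm]
    exact key (rel_symm h) hle

/-- V7c. (With `R` large: if `R ≤ |x| ≤ |x'|` and `|z| < |x| / 16` then `|z'|` would be too large for
the first relation.) -/
theorem rel_any [CharZero L] (v : AbsoluteValue L ℝ) (a b c : L) :
    ∃ B : ℝ, 1 ≤ B ∧ ∀ x x' z : L, Rel a b c x x' z →
      min (max (v x) 1) (max (v x') 1) ≤ B * max (v z) 1 := by
  have ha0 := v.nonneg a
  have hb0 := v.nonneg b
  have hc0 := v.nonneg c
  refine ⟨16 + (1 + 100 * (v a + v b + v c)), by linarith, ?_⟩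
  intro x x' z h
  have key : ∀ {x x' : L}, Rel a b c x x' z → v x ≤ v x' →
      min (max (v x) 1) (max (v x') 1) ≤
        (16 + (1 + 100 * (v a + v b + v c))) * max (v z) 1 := by
    intro x x' h hXX
    have hz1 : 1 ≤ max (v z) 1 := le_max_right _ _
    have hz0 : v z ≤ max (v z) 1 := le_max_left _ _
    refine (min_le_left _ _).trans ?_
    rcases le_or_gt (v x) (1 + 100 * (v a + v b + v c)) with h1 | h1
    · refine max_le ?_ ?_ <;> nlinarith
    · have h2 := any_main v h (by linarith) (by linarith) (by linarith) (by linarith) hXX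
      refine max_le ?_ ?_ <;> nlinarith
  rcases le_total (v x) (v x') with hle | hle
  · exact key h hle
  · rw [min_comm]
    exact key (rel_symm h) hle

end UBC
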