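import Pool.Agent.UBC.LocOAlg
import Pool.Agent.UBC.LocOLoc

/-!
# Differences of points close to the point at infinity
-/

set_option autoImplicit false

namespace UBC

open Height AdmissibleAbsValues

namespace LocOAux

/-- almost all nonarchimedean absolute values of `a` are at most one -/
theorem finite_bad (L : Type*) [Field L] [AdmissibleAbsValues L] (a : L) :
    {v : AbsoluteValue L ℝ | v ∈ nonarchAbsVal (K := L) ∧ ¬ v a ≤ 1}.Finite := by
  by_cases ha : a = 0
  · refine Set.Finite.subset Set.finite_empty ?_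
    rintro v ⟨_, hv⟩
    exact absurd (by rw [ha, map_zero]; exact zero_le_one) hv
  · have h := (AdmissibleAbsValues.hasFiniteMulSupport (K := L) ha)
    have h2 : (Subtype.val '' (Function.mulSupport
        (fun v : nonarchAbsVal (K := L) => v.val a))).Finite := Set.Finite.image _ h
    refine Set.Finite.subset h2 ?_
    rintro v ⟨hv1, hv2⟩
    refine ⟨⟨v, hv1⟩, ?_, rfl⟩
    rw [Function.mem_mulSupport]
    intro hcon
    exact hv2 (le_of_eq hcon)

/-- `x`-coordinate of an affine point -/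
theorem xc_some {L : Type*} [Field L] {W : WeierstrassCurve.Affine L} {x y : L}
    (h : W.Nonsingular x y) : xc (WeierstrassCurve.Affine.Point.some x y h) = x := by
  simp [xc]

/-- the relation between the `x`-coordinates -/
theorem rel_points {L : Type*} [Field L] [CharZero L] [DecidableEq L] (e : Fin 3 → L)
    {a b c : L} (ha : a = -(e 0 + e 1 + e 2)) (hb : b = e 0 * e 1 + e 1 * e 2 + e 2 * e 0)
    (hc : c = -(e 0 * e 1 * e 2)) {x y x' y' : L} (h : (EC e).Nonsingular x y)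
    (h' : (EC e).Nonsingular x' y')
    (hne : (WeierstrassCurve.Affine.Point.some x y h : (EC e).Point) ≠
      WeierstrassCurve.Affine.Point.some x' y' h') :
    Rel a b c x x' (xc (WeierstrassCurve.Affine.Point.some x y h -
      WeierstrassCurve.Affine.Point.some x' y' h' : (EC e).Point)) := by
  rcases sub_coord e ha hb hc h h' hne with h1 | ⟨h1, _, h2⟩
  · exact Or.inl h1
  · refine Or.inr ⟨h1, ?_⟩
    have hy : y ^ 2 = x ^ 3 + a * x ^ 2 + b * x + c := by
      have h3 := (WeierstrassCurve.Affine.equation_iff _ _).1 h.1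
      simp only [EC] at h3
      rw [ha, hb, hc]
      linear_combination h3
    rw [← hy]
    exact h2

end LocOAux

/-- V7. (`LocOAlg`, `LocOLoc`; `P = 0` is excluded, so both points are `Point.some`.) -/
theorem locO (L : Type*) [Field L] [NumberField L] [DecidableEq L] (e : Fin 3 → L)
    (he : Function.Injective e) :
    ∃ B : AbsoluteValue L ℝ → ℝ, Ok L B ∧ ∀ v, IsPl L v → ∀ P P' : (EC e).Point,
      P ≠ 0 → P' ≠ 0 → P ≠ P' →
      min (max (v (xc P)) 1) (max (v (xc P')) 1) ≤ B v * max (v (xc (P - P'))) 1 := by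
  obtain ⟨a, ha⟩ : ∃ a : L, a = -(e 0 + e 1 + e 2) := ⟨_, rfl⟩
  obtain ⟨b, hb⟩ : ∃ b : L, b = e 0 * e 1 + e 1 * e 2 + e 2 * e 0 := ⟨_, rfl⟩
  obtain ⟨c, hc⟩ : ∃ c : L, c = -(e 0 * e 1 * e 2) := ⟨_, rfl⟩
  have hany : ∀ v : AbsoluteValue L ℝ, ∃ B : ℝ, 1 ≤ B ∧ ∀ x x' z : L, Rel a b c x x' z →
      min (max (v x) 1) (max (v x') 1) ≤ B * max (v z) 1 := fun v => rel_any v a b c
  choose B0 hB1 hB2 using hany
  obtain ⟨B, hBg, hBb⟩ : ∃ B : AbsoluteValue L ℝ → ℝ,
      (∀ v, (v ∈ nonarchAbsVal (K := L) ∧ v a ≤ 1 ∧ v b ≤ 1 ∧ v c ≤ 1) → B v = 1) ∧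
      (∀ v, ¬ (v ∈ nonarchAbsVal (K := L) ∧ v a ≤ 1 ∧ v b ≤ 1 ∧ v c ≤ 1) → B v = B0 v) := by
    classical
    exact ⟨fun v => if v ∈ nonarchAbsVal (K := L) ∧ v a ≤ 1 ∧ v b ≤ 1 ∧ v c ≤ 1 then 1 else B0 v,
      fun v hv => if_pos hv, fun v hv => if_neg hv⟩
  refine ⟨B, ⟨?_, ?_⟩, ?_⟩
  · intro v
    by_cases hv : v ∈ nonarchAbsVal (K := L) ∧ v a ≤ 1 ∧ v b ≤ 1 ∧ v c ≤ 1
    · rw [hBg v hv]
    · rw [hBb v hv]
      exact hB1 v
  · refine Set.Finite.subset (((LocOAux.finite_bad L a).union (LocOAux.finite_bad L b)).union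
      (LocOAux.finite_bad L c)) ?_
    rintro v ⟨hv1, hv2⟩
    by_contra hcon
    apply hv2
    apply hBg v
    simp only [Set.mem_union, Set.mem_ofPred_eq, not_or, not_and, not_not] at hcon
    exact ⟨hv1, hcon.1.1 hv1, hcon.1.2 hv1, hcon.2 hv1⟩
  · intro v _ P P' hP hP' hPP'
    obtain ⟨x, y, h, rfl⟩ : ∃ x y, ∃ h, P = WeierstrassCurve.Affine.Point.some x y h := by
      cases P with
      | zero => exact absurd rfl hP
      | some x y h => exact ⟨x, y, h, rfl⟩
    obtain ⟨x', y', h', rfl⟩ : ∃ x y, ∃ h, P' = WeierstrassCurve.Affine.Point.some x y h := by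
      cases P' with
      | zero => exact absurd rfl hP'
      | some x y h => exact ⟨x, y, h, rfl⟩
    have hr := LocOAux.rel_points e ha hb hc h h' hPP'
    rw [LocOAux.xc_some, LocOAux.xc_some]
    by_cases hv : v ∈ nonarchAbsVal (K := L) ∧ v a ≤ 1 ∧ v b ≤ 1 ∧ v c ≤ 1
    · rw [hBg v hv, one_mul]
      exact rel_nonarch v (AdmissibleAbsValues.isNonarchimedean v hv.1) hv.2.1 hv.2.2.1 hv.2.2.2 hr
    · rw [hBb v hv]
      exact hB2 v x x' _ hr

end UBC
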