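import Pool.Agent.UBC.Defs

/-!
# Northcott property on an elliptic curve
-/

set_option autoImplicit false

namespace UBC

open Height NumberField

variable {L : Type*} [Field L] [NumberField L]

lemma hE_nonneg {W : WeierstrassCurve.Affine L} (P : W.Point) : 0 ≤ hE P :=
  logHeight_nonneg _

lemma hE_zero {W : WeierstrassCurve.Affine L} : hE (0 : W.Point) = 0 := by
  rw [hE, WeierstrassCurve.Affine.Point.xRep_zero, logHeight_swap, ← logHeight₁_eq_logHeight,
    logHeight₁_zero]

lemma hE_some {W : WeierstrassCurve.Affine L} {x y : L} (h : W.Nonsingular x y) :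
    hE (WeierstrassCurve.Affine.Point.some x y h) = logHeight₁ x := by
  rw [hE, WeierstrassCurve.Affine.Point.xRep_some, logHeight₁_eq_logHeight]

/-- U3. Northcott property -/
theorem northcott_E (W : WeierstrassCurve.Affine L) (B : ℝ) :
    {P : W.Point | hE P ≤ B}.Finite := by
  refine Set.Finite.of_finite_fibers (f := fun P : W.Point => P.xRep) ?_ ?_
  · refine Set.Finite.subset
      (((NumberField.finite_setOfPred_logHeight₁_le L B).image (fun x => ![x, 1])).insert ![1, 0]) ?_
    rintro _ ⟨P, hP, rfl⟩
    cases P with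
    | zero => exact Or.inl rfl
    | some x y h =>
      refine Or.inr ⟨x, ?_, rfl⟩
      have h1 : hE (WeierstrassCurve.Affine.Point.some x y h) ≤ B := hP
      rw [hE_some] at h1
      exact h1
  · intro v _
    by_cases hv : ∃ P : W.Point, P.xRep = v
    · obtain ⟨P, rfl⟩ := hv
      refine Set.Finite.subset (Set.toFinite {P, -P}) ?_
      rintro Q ⟨_, hQ⟩
      exact WeierstrassCurve.Affine.Point.eq_or_eq_neg_of_xRep_eq_xRep hQ
    · refine Set.Finite.subset Set.finite_empty ?_
      rintro Q ⟨_, hQ⟩
      exact absurd ⟨Q, hQ⟩ hv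

end UBC
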