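import Pool.Agent.UBC.Defs

/-!
# Parallelogram law and Northcott property on an elliptic curve
-/

set_option autoImplicit false

namespace UBC

open Height NumberField

variable {L : Type*} [Field L] [NumberField L] [DecidableEq L]

namespace ParAux

open WeierstrassCurve MvPolynomial

variable {F : Type*} [Field F]

lemma addSub_eval (W : WeierstrassCurve F) (x : Fin 3 → F) :
    (fun i ↦ (addSubMap W i).eval x) =
      ![x 0 ^ 2 - W.b₄ * x 0 * x 2 - W.b₆ * x 1 * x 2 - W.b₈ * x 2 ^ 2,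
        2 * x 1 * x 0 + W.b₂ * x 0 * x 2 + W.b₄ * x 1 * x 2 + W.b₆ * x 2 ^ 2,
        x 1 ^ 2 - 4 * x 0 * x 2] := by
  ext i
  fin_cases i <;> simp [addSubMap]

lemma isElliptic [CharZero F] (e : Fin 3 → F) (he : Function.Injective e) : (EC e).IsElliptic := by
  have h01 : e 0 - e 1 ≠ 0 := sub_ne_zero.mpr (fun h => by simpa using he h)
  have h12 : e 1 - e 2 ≠ 0 := sub_ne_zero.mpr (fun h => by simpa using he h)
  have h20 : e 2 - e 0 ≠ 0 := sub_ne_zero.mpr (fun h => by simpa using he h)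
  refine ⟨?_⟩
  have : (EC e).Δ = 16 * ((e 0 - e 1) * (e 1 - e 2) * (e 2 - e 0)) ^ 2 := by
    simp only [WeierstrassCurve.Δ, WeierstrassCurve.b₂, WeierstrassCurve.b₄, WeierstrassCurve.b₆,
      WeierstrassCurve.b₈, EC]
    ring
  rw [this]
  apply IsUnit.mk0
  have h16 : (16 : F) ≠ 0 := by norm_num
  exact mul_ne_zero h16 (pow_ne_zero _ (mul_ne_zero (mul_ne_zero h01 h12) h20))

lemma alg_double [CharZero F] {A B C x y : F} (hy : y ≠ 0)
    (h : y ^ 2 = x ^ 3 + A * x ^ 2 + B * x + C) :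
    (x * x) ^ 2 - 2 * B * (x * x) - 4 * C * (x + x) - (4 * A * C - B ^ 2) =
      (2 * y) ^ 2 * (((3 * x ^ 2 + 2 * A * x + B) / (2 * y)) ^ 2 - A - x - x) := by
  have h2 : (2 * y) ≠ 0 := mul_ne_zero two_ne_zero hy
  have h3 : (2 * y) ^ 2 * (((3 * x ^ 2 + 2 * A * x + B) / (2 * y)) ^ 2 - A - x - x) =
      (3 * x ^ 2 + 2 * A * x + B) ^ 2 - (2 * y) ^ 2 * (A + x + x) := by
    field_simp
    ring
  rw [h3]
  linear_combination (4 * (A + 2 * x)) * h

lemma alg_sum {A B C x₁ y₁ x₂ y₂ : F} (hx : x₁ - x₂ ≠ 0)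
    (h₁ : y₁ ^ 2 = x₁ ^ 3 + A * x₁ ^ 2 + B * x₁ + C)
    (h₂ : y₂ ^ 2 = x₂ ^ 3 + A * x₂ ^ 2 + B * x₂ + C) :
    2 * (x₁ + x₂) * (x₁ * x₂) + 4 * A * (x₁ * x₂) + 2 * B * (x₁ + x₂) + 4 * C =
      (x₁ - x₂) ^ 2 * ((((y₁ - y₂) / (x₁ - x₂)) ^ 2 - A - x₁ - x₂) +
        (((y₁ + y₂) / (x₁ - x₂)) ^ 2 - A - x₁ - x₂)) := by
  have h3 : (x₁ - x₂) ^ 2 * ((((y₁ - y₂) / (x₁ - x₂)) ^ 2 - A - x₁ - x₂) +
        (((y₁ + y₂) / (x₁ - x₂)) ^ 2 - A - x₁ - x₂)) =
      (y₁ - y₂) ^ 2 + (y₁ + y₂) ^ 2 - 2 * (x₁ - x₂) ^ 2 * (A + x₁ + x₂) := by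
    field_simp
    ring
  rw [h3]
  linear_combination (-2) * h₁ - 2 * h₂

lemma alg_prod {A B C x₁ y₁ x₂ y₂ : F} (hx : x₁ - x₂ ≠ 0)
    (h₁ : y₁ ^ 2 = x₁ ^ 3 + A * x₁ ^ 2 + B * x₁ + C)
    (h₂ : y₂ ^ 2 = x₂ ^ 3 + A * x₂ ^ 2 + B * x₂ + C) :
    (x₁ * x₂) ^ 2 - 2 * B * (x₁ * x₂) - 4 * C * (x₁ + x₂) - (4 * A * C - B ^ 2) =
      (x₁ - x₂) ^ 2 * ((((y₁ - y₂) / (x₁ - x₂)) ^ 2 - A - x₁ - x₂) *
        (((y₁ + y₂) / (x₁ - x₂)) ^ 2 - A - x₁ - x₂)) := by
  set d := x₁ - x₂ with hd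
  set g := x₁ ^ 2 + x₁ * x₂ + x₂ ^ 2 + A * (x₁ + x₂) + B with hg
  have hgd : (y₁ - y₂) * (y₁ + y₂) = d * g := by
    rw [hd, hg]
    linear_combination h₁ - h₂
  have hl : ((y₁ - y₂) / d) * ((y₁ + y₂) / d) * d = g := by
    field_simp
    rw [hgd]
  have hl1 : ((y₁ - y₂) / d) ^ 2 * d ^ 2 = (y₁ - y₂) ^ 2 := by field_simp
  have hl2 : ((y₁ + y₂) / d) ^ 2 * d ^ 2 = (y₁ + y₂) ^ 2 := by field_simp
  generalize (y₁ - y₂) / d = l at *
  generalize (y₁ + y₂) / d = m at *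
  have e1 : d ^ 2 * ((l ^ 2 - A - x₁ - x₂) * (m ^ 2 - A - x₁ - x₂)) =
      (l * m * d) ^ 2 - (A + x₁ + x₂) * (l ^ 2 * d ^ 2 + m ^ 2 * d ^ 2) +
        (A + x₁ + x₂) ^ 2 * d ^ 2 := by ring
  rw [e1, hl, hl1, hl2, hg, hd]
  linear_combination (2 * (A + x₁ + x₂)) * h₁ + (2 * (A + x₁ + x₂)) * h₂

lemma b_vals (e : Fin 3 → F) : (EC e).b₂ = 4 * (EC e).a₂ ∧ (EC e).b₄ = 2 * (EC e).a₄ ∧
    (EC e).b₆ = 4 * (EC e).a₆ ∧ (EC e).b₈ = 4 * (EC e).a₂ * (EC e).a₆ - (EC e).a₄ ^ 2 ∧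
    (EC e).a₁ = 0 ∧ (EC e).a₃ = 0 := by
  refine ⟨?_, ?_, ?_, ?_, rfl, rfl⟩ <;>
    simp [WeierstrassCurve.b₂, WeierstrassCurve.b₄, WeierstrassCurve.b₆,
      WeierstrassCurve.b₈, EC]

lemma curve_eq {e : Fin 3 → F} {x y : F} (h : (EC e).Equation x y) :
    y ^ 2 = x ^ 3 + (EC e).a₂ * x ^ 2 + (EC e).a₄ * x + (EC e).a₆ := by
  have := (Affine.equation_iff _ _).mp h
  obtain ⟨-, -, -, -, h1, h3⟩ := b_vals e
  rw [h1, h3] at this
  linear_combination this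

lemma negY_eq (e : Fin 3 → F) (x y : F) : (EC e).negY x y = -y := by
  obtain ⟨-, -, -, -, h1, h3⟩ := b_vals e
  rw [Affine.negY, h1, h3]
  ring

lemma addX_eq (e : Fin 3 → F) (x x' l : F) :
    (EC e).addX x x' l = l ^ 2 - (EC e).a₂ - x - x' := by
  obtain ⟨-, -, -, -, h1, h3⟩ := b_vals e
  rw [Affine.addX, h1]
  ring

variable [DecidableEq F]

/-- `P = Q` (doubling) -/
lemma key_double [CharZero F] (e : Fin 3 → F) (he : Function.Injective e) (P : (EC e).Point) :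
    ∃ c : F, c ≠ 0 ∧ (fun i ↦ (addSubMap (EC e) i).eval (P.sym2x P)) =
      c • (P + P).sym2x 0 := by
  have hell := isElliptic e he
  rcases P with _ | ⟨x, y, h⟩
  · refine ⟨1, one_ne_zero, ?_⟩
    rw [addSub_eval, ← Affine.Point.zero_def]
    simp
  · have heq := curve_eq h.1
    obtain ⟨hb2, hb4, hb6, hb8, ha1, ha3⟩ := b_vals e
    by_cases hy : y = 0
    · have hn : y = (EC e).negY x y := by
        rw [negY_eq, hy, neg_zero]
      have h0 : Affine.Point.some x y h + Affine.Point.some x y h = 0 :=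
        Affine.Point.add_self_of_Y_eq hn
      rw [h0]
      have hne : (fun i ↦ (addSubMap (EC e) i).eval
          ((Affine.Point.some x y h).sym2x (Affine.Point.some x y h))) ≠ 0 :=
        addSubMap_ne_zero (EC e) (Affine.Point.sym2x_ne_zero _ _)
      rw [addSub_eval] at hne ⊢
      simp only [Affine.Point.sym2x_some_some, Affine.Point.sym2x_zero_zero,
        Matrix.cons_val_zero, Matrix.cons_val_one, Matrix.cons_val] at hne ⊢
      have e1 : 2 * (x + x) * (x * x) + (EC e).b₂ * (x * x) * 1 +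
          (EC e).b₄ * (x + x) * 1 + (EC e).b₆ * 1 ^ 2 = 0 := by
        rw [hb2, hb4, hb6]
        rw [hy] at heq
        linear_combination (-4) * heq
      have e2 : (x + x) ^ 2 - 4 * (x * x) * 1 = 0 := by ring
      rw [e1, e2] at hne ⊢
      generalize (x * x) ^ 2 - (EC e).b₄ * (x * x) * 1 - (EC e).b₆ * (x + x) * 1 -
        (EC e).b₈ * 1 ^ 2 = z at hne ⊢
      refine ⟨z, ?_, ?_⟩
      · rintro rfl
        apply hne
        ext i
        fin_cases i <;> simp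
      · ext i
        fin_cases i <;> simp
    · have hn : y ≠ (EC e).negY x y := by
        rw [negY_eq]
        intro h'
        apply hy
        have : 2 * y = 0 := by linear_combination h'
        simpa using this
      rw [Affine.Point.add_self_of_Y_ne hn]
      refine ⟨(2 * y) ^ 2, pow_ne_zero _ (mul_ne_zero two_ne_zero hy), ?_⟩
      rw [addSub_eval]
      simp only [Affine.Point.sym2x_some_some, Affine.Point.sym2x_some_zero,
        Matrix.cons_val_zero, Matrix.cons_val_one, Matrix.cons_val]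
      rw [Affine.slope_of_Y_ne rfl hn, addX_eq, negY_eq, ha1, hb2, hb4, hb6, hb8]
      have h2 : y - -y = 2 * y := by ring
      have hk := alg_double hy heq
      rw [h2]
      ext i
      fin_cases i
      · simp only [Fin.zero_eta, Matrix.cons_val_zero, Pi.smul_apply, smul_eq_mul]
        rw [show 3 * x ^ 2 + 2 * (EC e).a₂ * x + (EC e).a₄ - 0 * y =
          3 * x ^ 2 + 2 * (EC e).a₂ * x + (EC e).a₄ by ring, ← hk]
        ring
      · simp only [Fin.mk_one, Matrix.cons_val_one, Matrix.cons_val_zero, Pi.smul_apply,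
          smul_eq_mul]
        linear_combination (-4) * heq
      · simp
        ring

lemma key [CharZero F] (e : Fin 3 → F) (he : Function.Injective e) (P Q : (EC e).Point) :
    ∃ c : F, c ≠ 0 ∧ (fun i ↦ (addSubMap (EC e) i).eval (P.sym2x Q)) =
      c • (P + Q).sym2x (P - Q) := by
  by_cases hPQ : P = Q
  · subst hPQ
    rw [sub_self]
    exact key_double e he P
  by_cases hPQ' : P = -Q
  · subst hPQ'
    obtain ⟨c, hc, h⟩ := key_double e he Q
    refine ⟨c, hc, ?_⟩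
    rw [Affine.Point.sym2x_neg_left, h, neg_add_cancel, Affine.Point.sym2x_comm 0,
      show -Q - Q = -(Q + Q) by abel, Affine.Point.sym2x_neg_left]
  rcases P with _ | ⟨x₁, y₁, h₁⟩
  · refine ⟨1, one_ne_zero, ?_⟩
    rw [← Affine.Point.zero_def, zero_add, zero_sub, Affine.Point.sym2x_neg_right]
    rcases Q with _ | ⟨x₂, y₂, h₂⟩
    · rw [addSub_eval, ← Affine.Point.zero_def]
      simp
    · rw [addSub_eval]
      ext i
      fin_cases i <;> simp <;> ring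
  rcases Q with _ | ⟨x₂, y₂, h₂⟩
  · refine ⟨1, one_ne_zero, ?_⟩
    rw [← Affine.Point.zero_def, add_zero, sub_zero, addSub_eval]
    ext i
    fin_cases i <;> simp <;> ring
  have hx : x₁ ≠ x₂ := by
    intro hx
    have := (Affine.Point.xRep_eq_xRep_iff (P := Affine.Point.some x₁ y₁ h₁)
      (Q := Affine.Point.some x₂ y₂ h₂)).mp (by simp [hx])
    tauto
  have hx' : x₁ - x₂ ≠ 0 := sub_ne_zero.mpr hx
  have heq₁ := curve_eq h₁.1
  have heq₂ := curve_eq h₂.1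
  obtain ⟨hb2, hb4, hb6, hb8, ha1, ha3⟩ := b_vals e
  refine ⟨(x₁ - x₂) ^ 2, pow_ne_zero _ hx', ?_⟩
  rw [sub_eq_add_neg (Affine.Point.some x₁ y₁ h₁), Affine.Point.neg_some,
    Affine.Point.add_of_X_ne hx, Affine.Point.add_of_X_ne hx, addSub_eval]
  simp only [Affine.Point.sym2x_some_some, Matrix.cons_val_zero, Matrix.cons_val_one,
    Matrix.cons_val]
  rw [Affine.slope_of_X_ne hx, Affine.slope_of_X_ne hx, addX_eq, addX_eq, negY_eq, hb2, hb4,
    hb6, hb8, sub_neg_eq_add]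
  have k1 := alg_sum hx' heq₁ heq₂
  have k2 := alg_prod hx' heq₁ heq₂
  ext i
  fin_cases i
  · simp only [Fin.zero_eta, Matrix.cons_val_zero, Pi.smul_apply, smul_eq_mul]
    rw [← k2]
    ring
  · simp only [Fin.mk_one, Matrix.cons_val_one, Matrix.cons_val_zero, Pi.smul_apply,
      smul_eq_mul]
    rw [← k1]
    ring
  · simp
    ring

end ParAux

/-- U2. approximate parallelogram law -/
theorem parallelogram (e : Fin 3 → L) (he : Function.Injective e) :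
    ∃ C : ℝ, ∀ P Q : (EC e).Point, |hE (P + Q) + hE (P - Q) - 2 * (hE P + hE Q)| ≤ C := by
  have hell := ParAux.isElliptic e he
  obtain ⟨C₁, hC₁⟩ := WeierstrassCurve.abs_logHeight_addSubMap_sub_two_mul_logHeight_le (EC e)
  obtain ⟨C₂, hC₂⟩ := abs_logHeight_sym2_sub_le L
  have hsym : ∀ P Q : (EC e).Point, |logHeight (P.sym2x Q) - (hE P + hE Q)| ≤ C₂ := by
    intro P Q
    have hP : P.xRep = ![P.xRep 0, P.xRep 1] := by ext i; fin_cases i <;> rfl
    have hQ : Q.xRep = ![Q.xRep 0, Q.xRep 1] := by ext i; fin_cases i <;> rfl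
    have := hC₂ (a := P.xRep 0) (b := P.xRep 1) (c := Q.xRep 0) (d := Q.xRep 1)
      (by rw [← hP]; exact P.xRep_ne_zero) (by rw [← hQ]; exact Q.xRep_ne_zero)
    rw [← hP, ← hQ] at this
    exact this
  refine ⟨3 * C₂ + C₁, fun P Q => ?_⟩
  obtain ⟨c, hc, h⟩ := ParAux.key e he P Q
  have h1 := hC₁ (P.sym2x Q)
  rw [h, logHeight_smul_eq_logHeight _ hc] at h1
  have h2 := hsym P Q
  have h3 := hsym (P + Q) (P - Q)
  rw [abs_le] at h1 h2 h3 ⊢
  constructor <;> linarith [h1.1, h1.2, h2.1, h2.2, h3.1, h3.2]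

end UBC
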