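import Pool.Agent.UBC.Defs

/-!
# The `x`-coordinate of a difference
-/

set_option autoImplicit false

namespace UBC

open WeierstrassCurve.Affine

variable {L : Type*} [Field L] [CharZero L] [DecidableEq L]

omit [CharZero L] [DecidableEq L] in
theorem DiffSqAux.eq_of_nonsingular (e : Fin 3 → L) {x y : L} (h : (EC e).Nonsingular x y) :
    y ^ 2 = (x - e 0) * (x - e 1) * (x - e 2) := by
  have h1 := (equation_iff ..).mp h.left
  simp only [EC] at h1
  linear_combination h1

omit [CharZero L] [DecidableEq L] in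
/-- the identity, for one choice of the order of the roots -/
theorem DiffSqAux.key {a b c x y x' y' : L} (h : y ^ 2 = (x - a) * (x - b) * (x - c))
    (h' : y' ^ 2 = (x' - a) * (x' - b) * (x' - c)) (hx : x ≠ x') :
    (((y + y') / (x - x')) ^ 2 + (a + b + c) - x - x' - a) * ((x - a) * (x' - a) * (x - x') ^ 2) =
      ((x - a) * y' + (x' - a) * y) ^ 2 := by
  have h0 : x - x' ≠ 0 := sub_ne_zero.mpr hx
  have h1 : ((y + y') / (x - x')) ^ 2 * (x - x') ^ 2 = (y + y') ^ 2 := by
    rw [div_pow, div_mul_cancel₀]
    exact pow_ne_zero 2 h0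
  linear_combination (x - a) * (x' - a) * h1 + (x' - a) * (x - x') * h - (x - a) * (x - x') * h'

/-- U5. the `x`-coordinate of a difference, and a square -/
theorem sub_some (e : Fin 3 → L) {x y x' y' : L}
    (h : (EC e).Nonsingular x y) (h' : (EC e).Nonsingular x' y') (hx : x ≠ x') :
    ∃ (X Y : L) (h'' : (EC e).Nonsingular X Y),
      (Point.some x y h - Point.some x' y' h' : (EC e).Point) = Point.some X Y h'' ∧
      X = ((y + y') / (x - x')) ^ 2 + (e 0 + e 1 + e 2) - x - x' ∧
      ∀ j, (X - e j) * ((x - e j) * (x' - e j) * (x - x') ^ 2) =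
        ((x - e j) * y' + (x' - e j) * y) ^ 2 := by
  have hX : (EC e).addX x x' ((EC e).slope x x' y ((EC e).negY x' y')) =
      ((y + y') / (x - x')) ^ 2 + (e 0 + e 1 + e 2) - x - x' := by
    rw [slope_of_X_ne hx]
    simp only [addX, negY, EC]
    ring
  have hy := DiffSqAux.eq_of_nonsingular e h
  have hy' := DiffSqAux.eq_of_nonsingular e h'
  refine ⟨_, _, nonsingular_add h ((nonsingular_neg ..).mpr h') (fun hxy => hx hxy.left), ?_, hX, ?_⟩
  · rw [sub_eq_add_neg, Point.neg_some, Point.add_of_X_ne hx]
  · rw [hX]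
    intro j
    fin_cases j
    · simp only [Fin.zero_eta]
      exact DiffSqAux.key hy hy' hx
    · have := DiffSqAux.key (a := e 1) (b := e 0) (c := e 2) (x := x) (y := y) (x' := x') (y' := y')
        (by rw [hy]; ring) (by rw [hy']; ring) hx
      simp only [Fin.mk_one]
      rw [← this]; ring
    · have := DiffSqAux.key (a := e 2) (b := e 0) (c := e 1) (x := x) (y := y) (x' := x') (y' := y')
        (by rw [hy]; ring) (by rw [hy']; ring) hx
      simp only [Fin.reduceFinMk]
      rw [← this]; ring

end UBC
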