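import Pool.Agent.UBC.Halve
import Pool.Agent.UBC.DiffSq
import Pool.Agent.PowCyc.Selmer

/-!
# Weak Mordell-Weil theorem for curves with full 2-torsion
-/

set_option autoImplicit false

namespace UBC

open NumberField WeierstrassCurve.Affine

namespace WeakMWAux

open IsDedekindDomain WithZero

/-- the values of the factors are squares -/
lemma sq_val {K Γ : Type*} [Field K] [LinearOrderedCommGroupWithZero Γ] (v : Valuation K Γ)
    (e : Fin 3 → K) (h1 : ∀ i, v (e i) ≤ 1) (h2 : ∀ i j, i ≠ j → v (e i - e j) = 1) (x y : K)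
    (h : y ^ 2 = ∏ i, (x - e i)) (j : Fin 3) : ∃ γ : Γ, v (x - e j) = γ ^ 2 := by
  have hv : v y ^ 2 = ∏ i, v (x - e i) := by
    rw [← map_pow, h, map_prod]
  by_cases hx : 1 < v x
  · have h3 : ∀ i, v (x - e i) = v x := fun i => v.map_sub_eq_of_lt_left ((h1 i).trans_lt hx)
    have hx0 : v x ≠ 0 := (zero_lt_one.trans hx).ne'
    simp_rw [h3] at hv
    rw [Finset.prod_const, Finset.card_univ, Fintype.card_fin] at hv
    refine ⟨v y / v x, ?_⟩
    rw [h3, div_pow, hv, pow_succ (v x) 2, mul_div_cancel_left₀ _ (pow_ne_zero 2 hx0)]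
  · rw [not_lt] at hx
    have h3 : ∀ i, v (x - e i) ≤ 1 := fun i => (v.map_sub x (e i)).trans (max_le hx (h1 i))
    rcases (h3 j).lt_or_eq with h4 | h4
    · refine ⟨v y, ?_⟩
      rw [hv, Finset.prod_eq_single j]
      · intro i _ hij
        have h5 : x - e i = (x - e j) + (e j - e i) := by ring
        rw [h5, v.map_add_eq_of_lt_right (by rw [h2 j i hij.symm]; exact h4), h2 j i hij.symm]
      · intro hj
        exact absurd (Finset.mem_univ j) hj
    · exact ⟨1, by rw [h4, one_pow]⟩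

/-- the bad places of a non-zero element -/
lemma finite_ne {L : Type*} [Field L] [NumberField L] {a : L} (ha : a ≠ 0) :
    {v : HeightOneSpectrum (𝓞 L) | v.valuation L a ≠ 1}.Finite := by
  refine ((HeightOneSpectrum.Support.finite (𝓞 L) a).union
    (HeightOneSpectrum.Support.finite (𝓞 L) a⁻¹)).subset fun v hv => ?_
  rcases lt_or_gt_of_ne (show v.valuation L a ≠ 1 from hv) with h | h
  · right
    change 1 < v.valuation L a⁻¹
    rw [map_inv₀]
    exact (one_lt_inv₀ (by rw [zero_lt_iff]; exact (v.valuation L).ne_zero_iff.mpr ha)).mpr h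
  · left
    exact h

/-- the classes of `x - e j` modulo squares lie in a finite set -/
lemma classes {L : Type*} [Field L] [NumberField L] (e : Fin 3 → L) (he : Function.Injective e) :
    ∃ T : Finset L, (∀ κ ∈ T, κ ≠ 0) ∧ ∀ x y : L, y ≠ 0 → y ^ 2 = ∏ i, (x - e i) →
      ∀ j, ∃ κ ∈ T, ∃ z : L, z ≠ 0 ∧ x - e j = κ * z ^ 2 := by
  set S : Set (HeightOneSpectrum (𝓞 L)) :=
    (⋃ i, HeightOneSpectrum.Support (𝓞 L) (e i)) ∪
      ⋃ i, ⋃ j, {v | i ≠ j ∧ v.valuation L (e i - e j) ≠ 1} with hS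
  have hSf : S.Finite := by
    refine (Set.finite_iUnion fun i => HeightOneSpectrum.Support.finite (𝓞 L) (e i)).union
      (Set.finite_iUnion fun i => Set.finite_iUnion fun j => ?_)
    by_cases hij : i = j
    · refine Set.Finite.subset Set.finite_empty fun v hv => ?_
      exact absurd hij hv.1
    · exact (finite_ne (sub_ne_zero.mpr (he.ne hij))).subset fun v hv => hv.2
  obtain ⟨T, hT0, hT⟩ := PowCyc.selmer_finite L 2 (by norm_num) S hSf
  refine ⟨T, hT0, fun x y hy h j => ?_⟩
  have hj0 : x - e j ≠ 0 := by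
    intro h0
    apply hy
    have h1 : ∏ i, (x - e i) = 0 := Finset.prod_eq_zero (Finset.mem_univ j) h0
    rw [h1] at h
    exact pow_eq_zero_iff (by norm_num) |>.mp h
  refine hT (x - e j) hj0 fun v hv => ?_
  refine sq_val (v.valuation L) e (fun i => ?_) (fun i k hik => ?_) x y h j
  · by_contra hcon
    rw [not_le] at hcon
    exact hv (Or.inl (Set.mem_iUnion.mpr ⟨i, hcon⟩))
  · by_contra hcon
    exact hv (Or.inr (Set.mem_iUnion.mpr ⟨i, Set.mem_iUnion.mpr ⟨k, hik, hcon⟩⟩))

/-- the point has the class `κ` -/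
def Cl {L : Type*} [Field L] (e : Fin 3 → L) (κ : Fin 3 → L) (P : (EC e).Point) : Prop :=
  ∃ (x y : L) (h : (EC e).Nonsingular x y), P = Point.some x y h ∧
    ∀ j, ∃ z : L, z ≠ 0 ∧ x - e j = κ j * z ^ 2

lemma class_diff {L : Type*} [Field L] [CharZero L] [DecidableEq L] (e : Fin 3 → L)
    (he : Function.Injective e) (κ : Fin 3 → L) (hκ : ∀ j, κ j ≠ 0) (P g : (EC e).Point)
    (hP : Cl e κ P) (hg : Cl e κ g) : ∃ Q : (EC e).Point, P = g + (Q + Q) := by
  obtain ⟨x, y, h, rfl, hz⟩ := hP
  obtain ⟨x', y', h', rfl, hz'⟩ := hg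
  by_cases hx : x = x'
  · rcases (Point.X_eq_iff (h₁ := h) (h₂ := h')).mp hx with hPg | hPg
    · refine ⟨0, ?_⟩
      rw [hPg, add_zero, add_zero]
    · refine ⟨-(Point.some x' y' h'), ?_⟩
      rw [hPg]
      abel
  · obtain ⟨X, Y, h'', e1, _, e3⟩ := sub_some e h h' hx
    have hsq : ∀ j, IsSquare (X - e j) := by
      intro j
      obtain ⟨z, hz0, hz1⟩ := hz j
      obtain ⟨z', hz0', hz1'⟩ := hz' j
      have h3 := e3 j
      have hne : κ j * z * z' * (x - x') ≠ 0 :=
        mul_ne_zero (mul_ne_zero (mul_ne_zero (hκ j) hz0) hz0') (sub_ne_zero.mpr hx)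
      refine ⟨((x - e j) * y' + (x' - e j) * y) / (κ j * z * z' * (x - x')), ?_⟩
      rw [← sq, div_pow, eq_div_iff (pow_ne_zero 2 hne), ← h3, hz1, hz1']
      ring
    obtain ⟨Q, hQ⟩ := exists_half e he X Y h'' hsq
    refine ⟨Q, ?_⟩
    rw [hQ, ← e1]
    abel

end WeakMWAux

open WeakMWAux

variable {L : Type*} [Field L] [NumberField L] [DecidableEq L]

/-- U6. `E(L) / 2 E(L)` is finite.
(For `y ≠ 0` the valuations of `x - e j` are squares outside the finite set of places where some `e i`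
is not integral or some `e i - e j` is not a unit; use `PowCyc.selmer_finite` with `n = 2`; for each of
the finitely many classes of `(x - e 0, x - e 1, x - e 2)` modulo squares fix one point `g`; then
`P = ± g` or `P - g` is divisible by 2 by `sub_some` and `exists_half`.) -/
theorem weak_mw (e : Fin 3 → L) (he : Function.Injective e) :
    ∃ R : Set (EC e).Point, R.Finite ∧ ∀ P : (EC e).Point, ∃ g ∈ R, ∃ Q : (EC e).Point,
      P = g + (Q + Q) := by
  classical
  obtain ⟨T, hT0, hT⟩ := classes e he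
  have hprod : ∀ x : L, ∏ i, (x - e i) = (x - e 0) * (x - e 1) * (x - e 2) := fun x => by
    rw [Fin.prod_univ_three]
  have hns : ∀ j : Fin 3, (EC e).Nonsingular (e j) 0 := by
    intro j
    refine EC_nonsingular e he (e j) 0 ?_
    fin_cases j <;> simp
  set pick : (Fin 3 → L) → (EC e).Point :=
    fun κ => if h : ∃ P, Cl e κ P then h.choose else 0 with hpick
  have hpickCl : ∀ κ P, Cl e κ P → Cl e κ (pick κ) := by
    intro κ P hP
    have h : ∃ P, Cl e κ P := ⟨P, hP⟩
    have h1 : pick κ = h.choose := by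
      rw [hpick]
      exact dif_pos h
    rw [h1]
    exact h.choose_spec
  refine ⟨{0} ∪ Set.range (fun j : Fin 3 => Point.some (e j) 0 (hns j)) ∪
    pick '' ((Fintype.piFinset fun _ : Fin 3 => T : Finset (Fin 3 → L)) : Set (Fin 3 → L)), ?_, ?_⟩
  · exact ((Set.finite_singleton _).union (Set.finite_range _)).union
      ((Finset.finite_toSet _).image _)
  · intro P
    match P with
    | .zero => exact ⟨0, Or.inl (Or.inl rfl), 0, by rw [add_zero, add_zero]; rfl⟩
    | .some x y h =>
      have heq := (EC_equation_iff e x y).mp h.1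
      by_cases hy : y = 0
      · subst hy
        have h0 : ∏ i, (x - e i) = 0 := by
          rw [hprod, ← heq]
          ring
        obtain ⟨j, _, hj⟩ := Finset.prod_eq_zero_iff.mp h0
        have hxj : x = e j := sub_eq_zero.mp hj
        subst hxj
        exact ⟨_, Or.inl (Or.inr ⟨j, rfl⟩), 0, by rw [add_zero, add_zero]⟩
      · choose κ hκT hκ using hT x y hy (by rw [heq, hprod])
        have hCl : Cl e κ (Point.some x y h) := ⟨x, y, h, rfl, hκ⟩
        obtain ⟨Q, hQ⟩ := class_diff e he κ (fun j => hT0 _ (hκT j)) _ _ hCl (hpickCl κ _ hCl)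
        exact ⟨pick κ, Or.inr ⟨κ, by simpa using hκT, rfl⟩, Q, hQ⟩

end UBC
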