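import Pool.Agent.UBC.Cluster
import Pool.Agent.UBC.LocGlob
import Pool.Agent.UBC.LocO
import Pool.Agent.UBC.Par
import Pool.Agent.UBC.NorthE
import Pool.Agent.UBC.WeakMW

/-!
# Points of an elliptic curve which are close to a finite set at the same places
-/

set_option autoImplicit false

namespace UBC

open Height AdmissibleAbsValues

namespace AgreeGenAux

/-- the height of the affine coordinate -/
lemma logHeight_xc_le {L : Type*} [Field L] [NumberField L] {W : WeierstrassCurve.Affine L}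
    (P : W.Point) : logHeight₁ (xc P) ≤ hE P := by
  cases P with
  | zero =>
    have h1 : xc (WeierstrassCurve.Affine.Point.zero : W.Point) = 0 := by
      rw [xc, ← WeierstrassCurve.Affine.Point.zero_def,
        WeierstrassCurve.Affine.Point.xRep_zero]
      simp
    rw [h1, logHeight₁_zero]
    exact hE_nonneg _
  | some x y h =>
    have h1 : xc (WeierstrassCurve.Affine.Point.some x y h) = x := by
      rw [xc, WeierstrassCurve.Affine.Point.xRep_some]
      simp
    rw [h1, hE_some]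

/-- the combined constant -/
lemma ok_mul_pow {L : Type*} [Field L] [AdmissibleAbsValues L] {B B' : AbsoluteValue L ℝ → ℝ}
    (hB : Ok L B) (hB' : Ok L B') (k : ℕ) : Ok L (fun v => B v * B' v ^ k) := by
  refine ⟨fun v => one_le_mul_of_one_le_of_one_le (hB.1 v) (one_le_pow₀ (hB'.1 v)), ?_⟩
  refine (hB.2.union hB'.2).subset ?_
  rintro v ⟨hv, hne⟩
  by_contra hcon
  have h1 : B v = 1 := by
    by_contra h
    exact hcon (Or.inl ⟨hv, h⟩)
  have h2 : B' v = 1 := by
    by_contra h
    exact hcon (Or.inr ⟨hv, h⟩)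
  exact hne (by simp [h1, h2])

end AgreeGenAux

open AgreeGenAux

/-- V8. -/
theorem agree_gen (L : Type*) [Field L] [NumberField L] [DecidableEq L] (e : Fin 3 → L)
    (he : Function.Injective e) (F : Finset (EC e).Point) (κ : ℝ) (k : ℕ)
    (B : AbsoluteValue L ℝ → ℝ) (hB : Ok L B) :
    ∃ (N : ℕ) (C1 : ℝ), ∀ lam : L, C1 ≤ logHeight₁ lam → ∀ A : Finset (EC e).Point,
      (∀ Q ∈ A, Q ∉ F ∧ hE Q ≤ κ * logHeight₁ lam ∧
        ∀ v, IsPl L v → ∃ T ∈ F, max (v lam) 1 ≤ B v * max (v (xc (Q - T))) 1 ^ k) →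
      A.card ≤ N := by
  obtain ⟨Cp, hCp⟩ := parallelogram e he
  obtain ⟨R, hRf, hR⟩ := weak_mw e he
  obtain ⟨B', hB', hloc⟩ := locO L e he
  obtain ⟨C, hC⟩ := height_le_of_local L (fun v => B v * B' v ^ k) (ok_mul_pow hB hB' k)
  set M : ℕ := F.card + 1 with hM
  set ε : ℝ := 1 / (2 * k * M ^ 2 + 1) with hε
  have hden : (0 : ℝ) < 2 * k * M ^ 2 + 1 := by positivity
  have hεpos : 0 < ε := by rw [hε]; positivity
  obtain ⟨N, H0, hN⟩ := cluster (G := (EC e).Point) hE Cp hCp (fun x => hE_nonneg x)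
    (fun b => northcott_E (EC e) b) R hRf
    (fun x => by obtain ⟨g, hg, y, hy⟩ := hR x; exact ⟨g, hg, y, hy⟩) M κ ε hεpos
  refine ⟨N, max (max H0 (2 * C + 1)) 0, ?_⟩
  intro lam hlam A hA
  by_contra hcard
  rw [not_le] at hcard
  have hH0 : H0 ≤ logHeight₁ lam := (le_max_left _ _).trans ((le_max_left _ _).trans hlam)
  have hHC : 2 * C + 1 ≤ logHeight₁ lam := (le_max_right _ _).trans ((le_max_left _ _).trans hlam)
  have hHnn : 0 ≤ logHeight₁ lam := (le_max_right _ _).trans hlam
  obtain ⟨f, hf, hfA, hfd⟩ := hN (logHeight₁ lam) hH0 A (fun a ha => (hA a ha).2.1) hcard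
  -- local inequality
  have hlocal : ∀ v, IsPl L v → max (v lam) 1 ≤ (B v * B' v ^ k) *
      ∏ p : Fin M × Fin M, max (v (xc (f p.1 - f p.2))) 1 ^ k := by
    intro v hv
    choose! T hTF hT using fun i : Fin M => (hA (f i) (hfA i)).2.2 v hv
    have hpig : ∃ i j : Fin M, i ≠ j ∧ T i = T j := by
      have hcard' : F.card < (Finset.univ : Finset (Fin M)).card := by
        rw [Finset.card_univ, Fintype.card_fin]; omega
      obtain ⟨i, _, j, _, hij, h⟩ := Finset.exists_ne_map_eq_of_card_lt_of_maps_to hcard'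
        (fun i _ => hTF i)
      exact ⟨i, j, hij, h⟩
    obtain ⟨i, j, hij, hTij⟩ := hpig
    have hP : f i - T i ≠ 0 := fun h =>
      (hA (f i) (hfA i)).1 (by rw [sub_eq_zero.mp h]; exact hTF i)
    have hP' : f j - T i ≠ 0 := fun h =>
      (hA (f j) (hfA j)).1 (by rw [sub_eq_zero.mp h]; exact hTF i)
    have hne : f i - T i ≠ f j - T i := fun h => hij (hf (sub_left_injective h))
    have h1 := hloc v hv (f i - T i) (f j - T i) hP hP' hne
    rw [sub_sub_sub_cancel_right] at h1
    have h2 := hT i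
    have h3 := hT j
    rw [← hTij] at h3
    set a := max (v (xc (f i - T i))) 1 with ha
    set b := max (v (xc (f j - T i))) 1 with hb
    set c := max (v (xc (f i - f j))) 1 with hc
    have hc1 : 1 ≤ c := le_max_right _ _
    have hmin : max (v lam) 1 ≤ B v * (min a b) ^ k := by
      rcases le_total a b with hab | hab
      · rw [min_eq_left hab]; exact h2
      · rw [min_eq_right hab]; exact h3
    have hBv : 0 ≤ B v := zero_le_one.trans (hB.1 v)
    have hBv' : 0 ≤ B' v := zero_le_one.trans (hB'.1 v)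
    have hmin0 : 0 ≤ min a b := le_min (zero_le_one.trans (le_max_right _ _))
      (zero_le_one.trans (le_max_right _ _))
    have h4 : (min a b) ^ k ≤ (B' v * c) ^ k := pow_le_pow_left₀ hmin0 h1 k
    have h5 : c ^ k ≤ ∏ p : Fin M × Fin M, max (v (xc (f p.1 - f p.2))) 1 ^ k := by
      rw [← Finset.mul_prod_erase Finset.univ
        (fun p : Fin M × Fin M => max (v (xc (f p.1 - f p.2))) 1 ^ k) (Finset.mem_univ (i, j))]
      refine le_mul_of_one_le_right (pow_nonneg (zero_le_one.trans hc1) k) ?_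
      calc (1 : ℝ) = ∏ _p ∈ Finset.univ.erase ((i, j) : Fin M × Fin M), (1 : ℝ) := by
            rw [Finset.prod_const_one]
        _ ≤ _ := Finset.prod_le_prod (fun _ _ => zero_le_one)
            (fun p _ => one_le_pow₀ (le_max_right _ _))
    calc max (v lam) 1 ≤ B v * (min a b) ^ k := hmin
      _ ≤ B v * (B' v * c) ^ k := mul_le_mul_of_nonneg_left h4 hBv
      _ = (B v * B' v ^ k) * c ^ k := by rw [mul_pow]; ring
      _ ≤ _ := mul_le_mul_of_nonneg_left h5 (mul_nonneg hBv (pow_nonneg hBv' k))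
  have h8 := hC (Fin M × Fin M) lam (fun p => xc (f p.1 - f p.2)) k hlocal
  have h9 : ∑ p : Fin M × Fin M, logHeight₁ (xc (f p.1 - f p.2)) ≤
      M ^ 2 * (ε * logHeight₁ lam) := by
    calc ∑ p : Fin M × Fin M, logHeight₁ (xc (f p.1 - f p.2))
        ≤ ∑ _p : Fin M × Fin M, ε * logHeight₁ lam :=
          Finset.sum_le_sum fun p _ => (logHeight_xc_le _).trans (hfd p.1 p.2)
      _ = M ^ 2 * (ε * logHeight₁ lam) := by
          rw [Finset.sum_const, Finset.card_univ, Fintype.card_prod, Fintype.card_fin]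
          simp [sq]
  have h10 : (k : ℝ) * ∑ p : Fin M × Fin M, logHeight₁ (xc (f p.1 - f p.2)) ≤
      k * (M ^ 2 * (ε * logHeight₁ lam)) := mul_le_mul_of_nonneg_left h9 (Nat.cast_nonneg k)
  have h11 : (k : ℝ) * M ^ 2 * ε ≤ 1 / 2 := by
    rw [hε, mul_one_div, div_le_iff₀ hden]
    linarith
  have h12 : (k : ℝ) * (M ^ 2 * (ε * logHeight₁ lam)) ≤ 1 / 2 * logHeight₁ lam := by
    have := mul_le_mul_of_nonneg_right h11 hHnn
    calc (k : ℝ) * (M ^ 2 * (ε * logHeight₁ lam)) = k * M ^ 2 * ε * logHeight₁ lam := by ring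
      _ ≤ _ := this
  linarith

end UBC
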