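import Pool.Agent.UBC.Defs

/-!
# Heights under fractional linear maps; transfer of the gap property
-/

set_option autoImplicit false

namespace UBC

open Height NumberField

/-- U9a. transfer of the gap property along a map with small fibres -/
theorem Gap.transfer {ι ι' : Type*} {h : ι → ℝ} {h' : ι' → ℝ} {T : Set ι} {T' : Set ι'}
    (hT' : Gap h' T') (φ : ι → ι') (k : ℕ) (c1 c2 C : ℝ) (hc1 : 0 < c1)
    (hφ : ∀ t ∈ T, φ t ∈ T') (hlo : ∀ t ∈ T, c1 * h t - C ≤ h' (φ t))
    (hhi : ∀ t ∈ T, h' (φ t) ≤ c2 * h t + C)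
    (hfib : ∀ (A : Finset ι) (u : ι'), (∀ t ∈ A, t ∈ T ∧ φ t = u) → A.card ≤ k) : Gap h T := by
  classical
  intro lam
  have hc2 : 0 ≤ |c2| * |lam| := by positivity
  obtain ⟨N, H0, hN⟩ := hT' (2 * (|c2| * |lam| + c1) / c1)
  refine ⟨k * N, max 0 (max (2 * |C| / c1) (2 * H0 / c1)), fun H hH A hA => ?_⟩
  have hH1 : 0 ≤ H := le_trans (le_max_left _ _) hH
  have hH2 : 2 * |C| / c1 ≤ H := le_trans (le_trans (le_max_left _ _) (le_max_right _ _)) hH
  have hH3 : 2 * H0 / c1 ≤ H := le_trans (le_trans (le_max_right _ _) (le_max_right _ _)) hH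
  rw [div_le_iff₀ hc1] at hH2 hH3
  have hC := le_abs_self C
  have himg : (A.image φ).card ≤ N := by
    refine hN (c1 * H / 2) (by linarith) _ ?_
    intro u hu
    obtain ⟨t, ht, rfl⟩ := Finset.mem_image.mp hu
    obtain ⟨htT, ht1, ht2⟩ := hA t ht
    refine ⟨hφ t htT, ?_, ?_⟩
    · have h1 := hlo t htT
      have h2 : c1 * H ≤ c1 * h t := by gcongr
      linarith
    · have h1 := hhi t htT
      have h2 : c2 * h t ≤ |c2| * |lam| * H := by
        have h3 : 0 ≤ h t := hH1.trans ht1
        have h4 : lam * H ≤ |lam| * H := by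
          have := le_abs_self lam
          gcongr
        calc c2 * h t ≤ |c2| * h t := by
              have := le_abs_self c2
              gcongr
          _ ≤ |c2| * (|lam| * H) := by
              have : h t ≤ |lam| * H := ht2.trans h4
              gcongr
          _ = _ := by ring
      have h5 : 2 * (|c2| * |lam| + c1) / c1 * (c1 * H / 2) = (|c2| * |lam| + c1) * H := by
        field_simp
      rw [h5]
      nlinarith
  have hcard : A.card ≤ k * (A.image φ).card := by
    refine Finset.card_le_mul_card_image A k ?_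
    intro u _
    refine hfib _ u ?_
    intro t ht
    rw [Finset.mem_filter] at ht
    exact ⟨(hA t ht.1).1, ht.2⟩
  exact hcard.trans (Nat.mul_le_mul_left k himg)

/-- U9b. a bounded change: it is enough to know the gap property above a height -/
theorem Gap.of_large {ι : Type*} {h : ι → ℝ} {T : Set ι} (B : ℝ)
    (hT : Gap h {t | t ∈ T ∧ B ≤ h t}) : Gap h T := by
  intro lam
  obtain ⟨N, H0, hN⟩ := hT lam
  refine ⟨N, max H0 B, fun H hH A hA => ?_⟩
  refine hN H ((le_max_left _ _).trans hH) A fun t ht => ?_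
  obtain ⟨h1, h2, h3⟩ := hA t ht
  exact ⟨⟨h1, ((le_max_right _ _).trans hH).trans h2⟩, h2, h3⟩

variable {L : Type*} [Field L] [NumberField L]

namespace MobiusAux

/-- the matrix as a tuple -/
def tup (a b c d : L) : Fin 2 × Fin 2 → L := fun p => (!![a, b; c, d] : Matrix (Fin 2) (Fin 2) L) p.1 p.2

lemma upper (a b c d t : L) :
    logHeight₁ ((a * t + b) / (c * t + d)) ≤
      totalWeight L * Real.log 2 + logHeight (tup a b c d) + logHeight₁ t := by
  rw [logHeight₁_div_eq_logHeight, logHeight₁_eq_logHeight t]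
  have h := logHeight_linearMap_apply_le (tup a b c d) ![t, 1]
  have e : (fun j => ∑ i, tup a b c d (j, i) * (![t, 1] : Fin 2 → L) i) = ![a * t + b, c * t + d] := by
    funext j
    fin_cases j <;> simp [tup, Fin.sum_univ_two]
  rw [e] at h
  simpa using h

end MobiusAux

/-- U9c. heights under a fractional linear map -/
theorem height_mobius (a b c d : L) (hdet : a * d - b * c ≠ 0) :
    ∃ C : ℝ, ∀ t : L, c * t + d ≠ 0 →
      |logHeight₁ ((a * t + b) / (c * t + d)) - logHeight₁ t| ≤ C := by
  refine ⟨max (totalWeight L * Real.log 2 + logHeight (MobiusAux.tup a b c d))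
    (totalWeight L * Real.log 2 + logHeight (MobiusAux.tup d (-b) (-c) a)), fun t ht => ?_⟩
  have h1 := MobiusAux.upper a b c d t
  have h2 := MobiusAux.upper d (-b) (-c) a ((a * t + b) / (c * t + d))
  have hu : (a * t + b) / (c * t + d) * (c * t + d) = a * t + b := div_mul_cancel₀ _ ht
  have e1 : -c * ((a * t + b) / (c * t + d)) + a = (a * d - b * c) / (c * t + d) := by
    rw [eq_div_iff ht]
    linear_combination (-c) * hu
  have e2 : d * ((a * t + b) / (c * t + d)) + -b = (a * d - b * c) * t / (c * t + d) := by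
    rw [eq_div_iff ht]
    linear_combination d * hu
  have e3 : (d * ((a * t + b) / (c * t + d)) + -b) / (-c * ((a * t + b) / (c * t + d)) + a) = t := by
    rw [e1, e2, div_div_div_cancel_right₀ ht, mul_div_cancel_left₀ _ hdet]
  rw [e3] at h2
  rw [abs_le]
  constructor
  · have := le_max_right (totalWeight L * Real.log 2 + logHeight (MobiusAux.tup a b c d))
      (totalWeight L * Real.log 2 + logHeight (MobiusAux.tup d (-b) (-c) a))
    linarith
  · have := le_max_left (totalWeight L * Real.log 2 + logHeight (MobiusAux.tup a b c d))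
      (totalWeight L * Real.log 2 + logHeight (MobiusAux.tup d (-b) (-c) a))
    linarith

end UBC
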