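import Pool.Agent.UBC.Close2
import Pool.Agent.UBC.AgreeGen
import Pool.Agent.UBC.Mobius

/-!
# `Few` for `d = 5`
-/

set_option autoImplicit false

namespace UBC

open Height AdmissibleAbsValues WeierstrassCurve.Affine

namespace Agree2Aux

/-- the factorisation of `t ^ 5 - 1` -/
theorem five_factor {L : Type*} [Field L] {ζ : L} (hζ : IsPrimitiveRoot ζ 5) (t : L) :
    t ^ 5 - 1 = (t - 1) * ((t - ζ) * (t - ζ ^ 2) * (t - ζ ^ 3)) * (t - ζ ^ 4) := by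
  have h5 : ζ ^ 5 = 1 := hζ.pow_eq_one
  have hsum : 1 + ζ + ζ ^ 2 + ζ ^ 3 + ζ ^ 4 = 0 := by
    have h1 : (ζ - 1) * (1 + ζ + ζ ^ 2 + ζ ^ 3 + ζ ^ 4) = 0 := by
      linear_combination h5
    rcases mul_eq_zero.1 h1 with h | h
    · exact absurd (sub_eq_zero.1 h) (hζ.ne_one (by norm_num))
    · exact h
  linear_combination (-1 + ζ - ζ ^ 5 + ζ ^ 6 - t * ζ ^ 6 + t ^ 2 * ζ ^ 3 + t ^ 2 * ζ ^ 5 - t ^ 3 * ζ -
    t ^ 3 * ζ ^ 3 + t ^ 4) * hsum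

/-- almost all nonarchimedean absolute values of a nonzero element are `1` -/
theorem fin_ne_one {L : Type*} [Field L] [AdmissibleAbsValues L] {x : L} (hx : x ≠ 0) :
    {v : AbsoluteValue L ℝ | v ∈ nonarchAbsVal (K := L) ∧ v x ≠ 1}.Finite := by
  have h := hasFiniteMulSupport hx
  unfold Function.HasFiniteMulSupport at h
  refine (h.image Subtype.val).subset ?_
  rintro v ⟨hv, hne⟩
  exact ⟨⟨v, hv⟩, hne, rfl⟩

theorem recip_sub {L : Type*} [Field L] {t e e' : L} (ht : t - e' ≠ 0) (he : e - e' ≠ 0) :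
    1 / (t - e') - 1 / (e - e') = (t - e) / ((t - e') * (e' - e)) := by
  have he2 : e' - e ≠ 0 := by
    rw [← neg_sub]; exact neg_ne_zero.2 he
  rw [div_sub_div _ _ ht he, div_eq_div_iff (mul_ne_zero ht he) (mul_ne_zero ht he2)]
  ring

theorem inv_factor {L : Type*} [Field L] {t e e0 e1 e2 : L} (h : t - e ≠ 0) (h1 : t - 1 ≠ 0) (h2 : e - 1 ≠ 0)
    (ht0 : t - e0 ≠ 0) (ht1 : t - e1 ≠ 0) (ht2 : t - e2 ≠ 0) (he0 : e - e0 ≠ 0) (he1 : e - e1 ≠ 0)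
    (he2 : e - e2 ≠ 0) :
    ((t - 1) * ((t - e0) * (t - e1) * (t - e2)) * (t - e))⁻¹ =
      ((e - 1) * ((e - e0) * (e - e1) * (e - e2)))⁻¹ * ((1 / (t - e)) ^ 5 /
        ((t - 1) / ((t - e) * (e - 1)) * ((t - e0) / ((t - e) * (e - e0)) * ((t - e1) / ((t - e) * (e - e1))) *
          ((t - e2) / ((t - e) * (e - e2)))))) := by
  field_simp

theorem xc_some {L : Type*} [Field L] {W : WeierstrassCurve.Affine L} {x y : L} (h : W.Nonsingular x y) :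
    xc (Point.some _ _ h : W.Point) = x := by
  unfold xc
  rw [Point.xRep_some]
  simp

end Agree2Aux

open Agree2Aux

/-- V13.  `e j = ζ ^ (j + 1)` for `j < 3`, `e' = ζ ^ 4`, `s = 1 / (t - e')`, `r j = 1 / (e j - e')`,
`s₁ = 1 / (1 - e')`:  `s - r j = (t - e j) / ((t - e') (e' - e j))` and
`t ^ 5 - 1 = (e' - 1) (s - s₁) ∏ (e' - e j) (s - r j) / s ^ 5`. -/
theorem agree2 (L : Type*) [Field L] [NumberField L] {ζ : L} (hζ : IsPrimitiveRoot ζ 5) {y₁ : L}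
    (hy₁ : y₁ ^ 2 = (1 / (1 - ζ ^ 4) - 1 / (ζ - ζ ^ 4)) * (1 / (1 - ζ ^ 4) - 1 / (ζ ^ 2 - ζ ^ 4)) *
      (1 / (1 - ζ ^ 4) - 1 / (ζ ^ 3 - ζ ^ 4))) :
    Few 5 L {t : L | t ≠ ζ ^ 4 ∧ ∃ y : L,
      y ^ 2 = (1 / (t - ζ ^ 4) - 1 / (ζ - ζ ^ 4)) * (1 / (t - ζ ^ 4) - 1 / (ζ ^ 2 - ζ ^ 4)) *
        (1 / (t - ζ ^ 4) - 1 / (ζ ^ 3 - ζ ^ 4))} := by
  classical
  have hpow : ∀ i j : ℕ, i < 5 → j < 5 → ζ ^ i = ζ ^ j → i = j := fun i j hi hj h => hζ.pow_inj hi hj h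
  have h1ne : (1 : L) - ζ ^ 4 ≠ 0 := by
    intro h
    have := hpow 0 4 (by norm_num) (by norm_num) (by rw [pow_zero]; exact sub_eq_zero.1 h)
    omega
  have hne : ∀ i : ℕ, i < 4 → ζ ^ i - ζ ^ 4 ≠ 0 := by
    intro i hi h
    have := hpow i 4 (by omega) (by norm_num) (sub_eq_zero.1 h)
    omega
  have hz1 : ζ - ζ ^ 4 ≠ 0 := by
    have := hne 1 (by norm_num)
    rwa [pow_one] at this
  have hz2 := hne 2 (by norm_num)
  have hz3 := hne 3 (by norm_num)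
  obtain ⟨r, hrdef⟩ : ∃ r : Fin 3 → L, r = fun (j : Fin 3) => 1 / (ζ ^ ((j : ℕ) + 1) - ζ ^ 4) :=
    ⟨fun (j : Fin 3) => 1 / (ζ ^ ((j : ℕ) + 1) - ζ ^ 4), rfl⟩
  have hr0 : r 0 = 1 / (ζ - ζ ^ 4) := by rw [hrdef]; simp
  have hr1 : r 1 = 1 / (ζ ^ 2 - ζ ^ 4) := by rw [hrdef]; simp
  have hr2 : r 2 = 1 / (ζ ^ 3 - ζ ^ 4) := by rw [hrdef]; simp
  have hr : Function.Injective r := by
    intro i j h
    rw [hrdef] at h
    simp only [one_div, inv_inj, sub_left_inj] at h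
    have := hpow ((i : ℕ) + 1) ((j : ℕ) + 1) (by omega) (by omega) h
    exact Fin.ext (by omega)
  have hsr' : ∀ t : L, t - ζ ^ 4 ≠ 0 → (∀ i : ℕ, i < 4 → t ≠ ζ ^ i) → ∀ j, 1 / (t - ζ ^ 4) ≠ r j := by
    intro t ht hti j h
    rw [hrdef] at h
    simp only [one_div, inv_inj, sub_left_inj] at h
    exact hti ((j : ℕ) + 1) (by omega) h
  have hsr : ∀ j, 1 / (1 - ζ ^ 4) ≠ r j := by
    intro j h
    rw [hrdef] at h
    simp only [one_div, inv_inj, sub_left_inj] at h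
    have := hpow 0 ((j : ℕ) + 1) (by norm_num) (by omega) (by rw [pow_zero]; exact h)
    omega
  have hy₁' : y₁ ^ 2 = (1 / (1 - ζ ^ 4) - r 0) * (1 / (1 - ζ ^ 4) - r 1) * (1 / (1 - ζ ^ 4) - r 2) := by
    rw [hr0, hr1, hr2]; exact hy₁
  obtain ⟨F, B, hB, hF⟩ := close2 L hr hsr hy₁'
  obtain ⟨κ0, hκ0⟩ : ∃ κ0 : L, κ0 = (ζ ^ 4 - 1) * ((ζ ^ 4 - ζ) * (ζ ^ 4 - ζ ^ 2) * (ζ ^ 4 - ζ ^ 3)) :=
    ⟨(ζ ^ 4 - 1) * ((ζ ^ 4 - ζ) * (ζ ^ 4 - ζ ^ 2) * (ζ ^ 4 - ζ ^ 3)), rfl⟩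
  have hn1 : ζ ^ 4 - 1 ≠ 0 := by rw [← neg_sub]; exact neg_ne_zero.2 h1ne
  have hnz1 : ζ ^ 4 - ζ ≠ 0 := by rw [← neg_sub]; exact neg_ne_zero.2 hz1
  have hnz2 : ζ ^ 4 - ζ ^ 2 ≠ 0 := by rw [← neg_sub]; exact neg_ne_zero.2 hz2
  have hnz3 : ζ ^ 4 - ζ ^ 3 ≠ 0 := by rw [← neg_sub]; exact neg_ne_zero.2 hz3
  have hκ0ne : κ0 ≠ 0 := by
    rw [hκ0]
    exact mul_ne_zero hn1 (mul_ne_zero (mul_ne_zero hnz1 hnz2) hnz3)
  obtain ⟨B', hB'def⟩ : ∃ B' : AbsoluteValue L ℝ → ℝ, B' = fun v =>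
      (if v ∈ nonarchAbsVal (K := L) then (1 : ℝ) else 2 * 4 ^ 5) * (max (v κ0⁻¹) 1 * B v) ^ 5 := ⟨_, rfl⟩
  have hm1 : ∀ v : AbsoluteValue L ℝ, 1 ≤ max (v κ0⁻¹) 1 * B v := fun v =>
    one_le_mul_of_one_le_of_one_le (le_max_right _ _) (hB.1 v)
  have hB' : Ok L B' := by
    constructor
    · intro v
      rw [hB'def]
      refine one_le_mul_of_one_le_of_one_le ?_ (one_le_pow₀ (hm1 v))
      split_ifs <;> norm_num
    · refine ((fin_ne_one (inv_ne_zero hκ0ne)).union hB.2).subset ?_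
      rintro v ⟨hv, hne'⟩
      by_cases h1 : v κ0⁻¹ = 1
      · right
        refine ⟨hv, fun h2 => hne' ?_⟩
        rw [hB'def]
        simp only [hv, if_true, h1, h2, max_self, one_mul, one_pow]
      · exact Or.inl ⟨hv, h1⟩
  obtain ⟨C, hC⟩ := height_mobius (0 : L) 1 1 (-ζ ^ 4) (by simp)
  intro κ
  obtain ⟨N, C1, hN⟩ := agree_gen L r hr F (|κ| + |C|) 5 B' hB'
  refine ⟨N, max C1 1, fun lam hlam A hA => ?_⟩
  have hlam1 : 1 ≤ logHeight₁ lam := (le_max_right _ _).trans hlam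
  have key : ∀ t ∈ A, ∃ Q : (EC r).Point, (Q ∉ F ∧ hE Q ≤ (|κ| + |C|) * logHeight₁ lam ∧
      ∀ v, IsPl L v → ∃ T ∈ F, max (v lam) 1 ≤ B' v * max (v (xc (Q - T))) 1 ^ 5) ∧
      xc Q = 1 / (t - ζ ^ 4) := by
    intro t ht
    obtain ⟨⟨htne, y, hy⟩, ht5, hth, hnear⟩ := hA t ht
    have hte : t - ζ ^ 4 ≠ 0 := sub_ne_zero.2 htne
    have hti : ∀ i : ℕ, i < 4 → t ≠ ζ ^ i := by
      intro i _ h
      apply ht5
      rw [h, ← pow_mul, mul_comm, pow_mul, hζ.pow_eq_one, one_pow]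
    have ht1 : t - 1 ≠ 0 := by
      have := hti 0 (by norm_num)
      rw [pow_zero] at this
      exact sub_ne_zero.2 this
    have hs1 : 1 / (t - ζ ^ 4) ≠ 1 / (1 - ζ ^ 4) := by
      intro h
      simp only [one_div, inv_inj, sub_left_inj] at h
      exact ht1 (sub_eq_zero.2 h)
    have hy' : y ^ 2 = (1 / (t - ζ ^ 4) - r 0) * (1 / (t - ζ ^ 4) - r 1) * (1 / (t - ζ ^ 4) - r 2) := by
      rw [hr0, hr1, hr2]; exact hy
    obtain ⟨hns, hnF, hclose⟩ := hF (1 / (t - ζ ^ 4)) y hy' (hsr' t hte hti) hs1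
    have hx : t - ζ ≠ 0 := by
      have := hti 1 (by norm_num)
      rw [pow_one] at this
      exact sub_ne_zero.2 this
    have hx2 : t - ζ ^ 2 ≠ 0 := sub_ne_zero.2 (hti 2 (by norm_num))
    have hx3 : t - ζ ^ 3 ≠ 0 := sub_ne_zero.2 (hti 3 (by norm_num))
    have hinv : (t ^ 5 - 1)⁻¹ = κ0⁻¹ * ((1 / (t - ζ ^ 4)) ^ 5 / ((1 / (t - ζ ^ 4) - 1 / (1 - ζ ^ 4)) *
        ((1 / (t - ζ ^ 4) - r 0) * (1 / (t - ζ ^ 4) - r 1) * (1 / (t - ζ ^ 4) - r 2)))) := by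
      rw [hr0, hr1, hr2, recip_sub hte h1ne, recip_sub hte hz1, recip_sub hte hz2, recip_sub hte hz3,
        five_factor hζ t, hκ0]
      exact inv_factor hte ht1 hn1 hx hx2 hx3 hnz1 hnz2 hnz3
    refine ⟨Point.some _ _ hns, ⟨hnF, ?_, ?_⟩, xc_some hns⟩
    · rw [hE, Point.xRep_some, ← logHeight₁_eq_logHeight]
      have h1 := hC t (by rw [one_mul, ← sub_eq_add_neg]; exact hte)
      have h2 : (0 * t + 1) / (1 * t + -ζ ^ 4) = 1 / (t - ζ ^ 4) := by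
        rw [zero_mul, zero_add, one_mul, ← sub_eq_add_neg]
      rw [h2] at h1
      have h3 := (abs_le.1 h1).2
      have h4 : κ * logHeight₁ lam ≤ |κ| * logHeight₁ lam :=
        mul_le_mul_of_nonneg_right (le_abs_self κ) (by linarith)
      have h5 : |C| ≤ |C| * logHeight₁ lam := le_mul_of_one_le_right (abs_nonneg C) hlam1
      have h6 := le_abs_self C
      rw [add_mul]
      linarith
    · intro v hv
      obtain ⟨T, hT, hTv⟩ := hclose v hv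
      refine ⟨T, hT, ?_⟩
      have hBv : 0 ≤ B v := zero_le_one.trans (hB.1 v)
      have h1 : max (v (t ^ 5 - 1)⁻¹) 1 ≤ (max (v κ0⁻¹) 1 * B v) *
          max (v (xc (Point.some _ _ hns - T : (EC r).Point))) 1 := by
        refine max_le ?_ ?_
        · rw [hinv, map_mul]
          have h2 : v ((1 / (t - ζ ^ 4)) ^ 5 / ((1 / (t - ζ ^ 4) - 1 / (1 - ζ ^ 4)) *
              ((1 / (t - ζ ^ 4) - r 0) * (1 / (t - ζ ^ 4) - r 1) * (1 / (t - ζ ^ 4) - r 2)))) ≤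
              B v * max (v (xc (Point.some _ _ hns - T : (EC r).Point))) 1 := (le_max_left _ _).trans hTv
          have h2' := mul_le_mul (le_max_left (v κ0⁻¹) 1) h2 (v.nonneg _) (zero_le_one.trans (le_max_right (v κ0⁻¹) 1))
          rw [← mul_assoc (max (v κ0⁻¹) 1)] at h2'
          exact h2'
        · exact one_le_mul_of_one_le_of_one_le (hm1 v) (le_max_right _ _)
      have h0 : (0 : ℝ) ≤ max (v (t ^ 5 - 1)⁻¹) 1 := zero_le_one.trans (le_max_right _ _)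
      have h3 : max (v (t ^ 5 - 1)⁻¹) 1 ^ 5 ≤ (max (v κ0⁻¹) 1 * B v) ^ 5 *
          max (v (xc (Point.some _ _ hns - T : (EC r).Point))) 1 ^ 5 := by
        rw [← mul_pow]
        exact pow_le_pow_left₀ h0 h1 5
      rw [hB'def]
      by_cases hn : v ∈ nonarchAbsVal (K := L)
      · simp only [hn, if_true, one_mul]
        exact (hnear.2 v hn).trans h3
      · simp only [hn, if_false]
        have ha : v ∈ archAbsVal (K := L) := hv.resolve_right hn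
        refine (hnear.1 v ha).trans ?_
        rw [mul_assoc (2 * 4 ^ 5 : ℝ)]
        exact mul_le_mul_of_nonneg_left h3 (by norm_num)
  choose f hf using key
  have hcard : (A.attach.image fun t => f t.1 t.2).card ≤ N := by
    refine hN lam ((le_max_left _ _).trans hlam) _ ?_
    intro Q hQ
    obtain ⟨t, _, rfl⟩ := Finset.mem_image.1 hQ
    exact (hf t.1 t.2).1
  rw [Finset.card_image_of_injective, Finset.card_attach] at hcard
  · exact hcard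
  · intro t t' h
    have h1 : xc (f t.1 t.2) = xc (f t'.1 t'.2) := congrArg xc h
    rw [(hf t.1 t.2).2, (hf t'.1 t'.2).2] at h1
    simp only [one_div, inv_inj, sub_left_inj] at h1
    exact Subtype.ext h1

end UBC
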