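import Pool.Agent.UBC.Close3
import Pool.Agent.UBC.AgreeGen
import Pool.Agent.UBC.Mobius

/-!
# `Few` for `d = 4`
-/

set_option autoImplicit false

namespace UBC

open Height AdmissibleAbsValues WeierstrassCurve.Affine

namespace Agree3Aux

/-- the coordinate `x` -/
noncomputable def xt {L : Type*} [Field L] (I t : L) : L := -I * (t - I) / (t + I)

section alg

variable {L : Type*} [Field L] {I : L}

lemma xt_mul (t : L) (ht : t + I ≠ 0) : xt I t * (t + I) = -I * (t - I) := by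
  unfold xt
  exact div_mul_cancel₀ _ ht

lemma xt_add (hI : I ^ 2 = -1) (t : L) (ht : t + I ≠ 0) : (xt I t + I) * (t + I) = -2 := by
  have h := xt_mul t ht
  linear_combination h + 2 * hI

lemma xt_ne_zero (hI : I ^ 2 = -1) (t : L) (ht : t + I ≠ 0) (h4 : t ^ 4 ≠ 1) :
    xt I t ≠ 0 := by
  intro h0
  have h := xt_mul t ht
  rw [h0, zero_mul] at h
  have hI0 : I ≠ 0 := by
    rintro rfl
    norm_num at hI
  have h1 : t - I = 0 := by
    rcases mul_eq_zero.1 h.symm with h2 | h2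
    · exact absurd (neg_eq_zero.1 h2) hI0
    · exact h2
  apply h4
  have h2 : t = I := by linear_combination h1
  rw [h2]
  linear_combination (I ^ 2 - 1) * hI

lemma one_add_ne (h2 : (2 : L) ≠ 0) (hI : I ^ 2 = -1) : 1 + I ≠ 0 := by
  intro h
  apply h2
  linear_combination (1 - I) * h + hI

lemma xt_ne_one (h2 : (2 : L) ≠ 0) (hI : I ^ 2 = -1) (t : L) (ht : t + I ≠ 0)
    (h4 : t ^ 4 ≠ 1) : xt I t ≠ 1 := by
  intro h0
  have h := xt_mul t ht
  rw [h0, one_mul] at h
  have h1 : (1 + I) * (t + 1) = 0 := by linear_combination h + hI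
  rcases mul_eq_zero.1 h1 with h3 | h3
  · exact one_add_ne h2 hI h3
  · apply h4
    have : t = -1 := by linear_combination h3
    rw [this]; norm_num

lemma xt_ne_neg_one (h2 : (2 : L) ≠ 0) (hI : I ^ 2 = -1) (t : L) (ht : t + I ≠ 0)
    (h4 : t ^ 4 ≠ 1) : xt I t ≠ -1 := by
  intro h0
  have h := xt_mul t ht
  rw [h0] at h
  have h1 : (1 + I) * (t - 1) = 0 := by
    linear_combination (-I) * h + (t - 1 - I) * hI
  rcases mul_eq_zero.1 h1 with h3 | h3
  · exact one_add_ne h2 hI h3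
  · apply h4
    have : t = 1 := by linear_combination h3
    rw [this]; norm_num

lemma key_id (h2 : (2 : L) ≠ 0) (hI : I ^ 2 = -1) (t : L) (ht : t + I ≠ 0)
    (h4 : t ^ 4 ≠ 1) :
    (xt I t + I) ^ 4 / (8 * I * (xt I t - xt I t ^ 3)) = (t ^ 4 - 1)⁻¹ := by
  have hx := xt_mul t ht
  have ha := xt_add hI t ht
  obtain ⟨x, hxx⟩ : ∃ x, x = xt I t := ⟨_, rfl⟩
  rw [← hxx] at hx ha ⊢
  have h16 : (16 : L) ≠ 0 := by
    have : (16 : L) = 2 ^ 4 := by norm_num
    rw [this]; exact pow_ne_zero _ h2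
  have e1 : (x + I) ^ 4 * (t + I) ^ 4 = 16 := by
    have : (x + I) ^ 4 * (t + I) ^ 4 = ((x + I) * (t + I)) ^ 4 := by ring
    rw [this, ha]; norm_num
  have e2 : 8 * I * (x - x ^ 3) * (t + I) ^ 3 = 16 * (t - I) * (t ^ 2 - 1) := by
    have h3 : 8 * I * (x - x ^ 3) * (t + I) ^ 3 =
        8 * I * ((x * (t + I)) * (t + I) ^ 2 - (x * (t + I)) ^ 3) := by ring
    rw [h3, hx]
    linear_combination (t - I) * (8 * t ^ 2 * (I ^ 2 - 2) - 16 * I * t * I ^ 2 +
      8 * (I ^ 4 - 2 * I ^ 2 + 2)) * hI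
  have e3 : (t ^ 2 + 1) = (t - I) * (t + I) := by linear_combination hI
  have ht4 : t ^ 4 - 1 ≠ 0 := sub_ne_zero.2 h4
  have e4 : t ^ 4 - 1 = (t - I) * (t ^ 2 - 1) * (t + I) := by
    linear_combination (t ^ 2 - 1) * e3
  have hne : (t - I) * (t ^ 2 - 1) ≠ 0 := by
    intro h; apply ht4; rw [e4, h, zero_mul]
  have e5 : 8 * I * (x - x ^ 3) ≠ 0 := by
    intro h
    rw [h, zero_mul] at e2
    have : (16 : L) * ((t - I) * (t ^ 2 - 1)) = 0 := by rw [← mul_assoc]; exact e2.symm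
    rcases mul_eq_zero.1 this with h | h
    · exact h16 h
    · exact hne h
  rw [div_eq_iff e5, inv_mul_eq_div, eq_div_iff ht4]
  have h5 : (t + I) ^ 4 ≠ 0 := pow_ne_zero _ ht
  apply mul_right_cancel₀ h5
  have e6 : 8 * I * (x - x ^ 3) * (t + I) ^ 4 = 16 * (t ^ 4 - 1) := by
    rw [e4]
    linear_combination (t + I) * e2
  rw [e6]
  linear_combination (t ^ 4 - 1) * e1

end alg

section ht

variable {L : Type*} [Field L] [NumberField L]

lemma ht_bound {I : L} (hI : I ^ 2 = -1) : ∃ C : ℝ, ∀ t A : L, t + I ≠ 0 →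
    A ^ 3 = xt I t * (1 - xt I t) →
    logHeight₁ (-4 * A) ≤ logHeight₁ t + C := by
  have hdet : (-I) * I - (-1) * 1 ≠ (0 : L) := by
    have : (-I) * I - (-1) * 1 = (2 : L) := by linear_combination -hI
    rw [this]
    exact two_ne_zero
  obtain ⟨C, hC⟩ := height_mobius (-I) (-1) 1 I hdet
  refine ⟨logHeight₁ (-4 : L) + |C| + |totalWeight L * Real.log 2|, ?_⟩
  intro t A ht hA
  have h1 := hC t (by simpa using ht)
  have e1 : (-I * t + -1) / (1 * t + I) = xt I t := by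
    unfold xt
    rw [one_mul]
    congr 1
    linear_combination -hI
  rw [e1] at h1
  have h2 := (abs_le.1 h1).2
  have h3 : logHeight₁ (A ^ 3) = 3 * logHeight₁ A := by
    rw [logHeight₁_pow]; norm_num
  have h4 : logHeight₁ (A ^ 3) ≤ logHeight₁ (xt I t) +
      (totalWeight L * Real.log 2 + logHeight₁ (1 : L) + logHeight₁ (xt I t)) := by
    rw [hA]
    exact (logHeight₁_mul_le _ _).trans (by
      have := logHeight₁_sub_le (1 : L) (xt I t)
      linarith)
  rw [logHeight₁_one] at h4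
  have h5 := logHeight₁_mul_le (-4 : L) A
  have h6 := le_abs_self C
  have h7 := le_abs_self (totalWeight L * Real.log 2)
  have h8 : 0 ≤ logHeight₁ t := zero_le_logHeight₁ _
  have h9 := abs_nonneg C
  have h10 := abs_nonneg (totalWeight L * Real.log 2)
  linarith

end ht

end Agree3Aux

open Agree3Aux in
/-- V10.  `x = -I (t - I) / (t + I)`, so `t ^ 4 - 1 = 8 I (x - x ^ 3) / (x + I) ^ 4`; the point
`(-4 A, 4 (1 - 2 x))` determines `t`; its height is at most `h(A) + C`, `3 h(A) ≤ 2 h(x) + C`. -/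
theorem agree3 (L : Type*) [Field L] [NumberField L] {I ω β : L}
    (hI : I ^ 2 = -1) (hω : IsPrimitiveRoot ω 3) (hβ : β ^ 3 = -2) :
    Few 4 L {t : L | t ≠ -I ∧
      ∃ A : L, A ^ 3 = (-I * (t - I) / (t + I)) * (1 - (-I * (t - I) / (t + I)))} := by
  classical
  have h2 : (2 : L) ≠ 0 := two_ne_zero
  intro κ
  obtain ⟨F, B, hB, hF⟩ := close3 L hI hω hβ
  obtain ⟨C, hC⟩ := ht_bound hI
  -- constants for the places
  obtain ⟨B', hB'⟩ : ∃ B' : AbsoluteValue L ℝ → ℝ,
      B' = fun v => (if v ∈ nonarchAbsVal (K := L) then 1 else 2 * 4 ^ 4) * B v ^ 4 :=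
    ⟨_, rfl⟩
  have hOk : Ok L B' := by
    refine ⟨?_, ?_⟩
    · intro v
      rw [hB']
      have h1 : 1 ≤ B v ^ 4 := one_le_pow₀ (hB.1 v)
      by_cases hv : v ∈ nonarchAbsVal (K := L)
      · simp only [hv, if_true, one_mul]; exact h1
      · simp only [hv, if_false]
        linarith
    · refine hB.2.subset ?_
      rintro v ⟨hv, hne⟩
      refine ⟨hv, fun h => hne ?_⟩
      rw [hB']
      simp [hv, h]
  obtain ⟨N, C1, hN⟩ := agree_gen L (e3 β ω) (e3_inj hω hβ) F (|κ| + |C|) 8 B' hOk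
  refine ⟨N, max C1 1, ?_⟩
  intro lam hlam A hA
  have hlam1 : C1 ≤ logHeight₁ lam := (le_max_left _ _).trans hlam
  have hlam2 : 1 ≤ logHeight₁ lam := (le_max_right _ _).trans hlam
  have key : ∀ t : L, t ∈ A → ∃ Q : (EC (e3 β ω)).Point,
      (∃ (a : L) (h : (EC (e3 β ω)).Nonsingular (-4 * a) (4 * (1 - 2 * xt I t))),
        Q = Point.some _ _ h) ∧
      (Q ∉ F ∧ hE Q ≤ (|κ| + |C|) * logHeight₁ lam ∧
        ∀ v, IsPl L v → ∃ T ∈ F, max (v lam) 1 ≤ B' v * max (v (xc (Q - T))) 1 ^ 8) := by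
    intro t ht
    obtain ⟨⟨htI, a, ha⟩, ht4, hth, hnear⟩ := hA t ht
    have hti : t + I ≠ 0 := fun h => htI (by linear_combination h)
    have ha' : a ^ 3 = xt I t * (1 - xt I t) := ha
    obtain ⟨h, hnF, hcl⟩ := hF (xt I t) a ha' (xt_ne_zero hI t hti ht4)
      (xt_ne_one h2 hI t hti ht4) (xt_ne_neg_one h2 hI t hti ht4)
    refine ⟨Point.some _ _ h, ⟨a, h, rfl⟩, hnF, ?_, ?_⟩
    · have h3 : hE (Point.some _ _ h : (EC (e3 β ω)).Point) = logHeight₁ (-4 * a) := by
        unfold hE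
        rw [Point.xRep_some, logHeight₁_eq_logHeight]
      rw [h3]
      have h4 := hC t a hti ha'
      have h5 := le_abs_self κ
      have h6 := le_abs_self C
      have h7 := abs_nonneg C
      have h8 : κ * logHeight₁ lam ≤ |κ| * logHeight₁ lam := by gcongr
      have h9 : |C| * 1 ≤ |C| * logHeight₁ lam := by gcongr
      linarith
    · intro v hv
      obtain ⟨T, hT, hTv⟩ := hcl v hv
      rw [key_id h2 hI t hti ht4] at hTv
      refine ⟨T, hT, ?_⟩
      have hpow : max (v (t ^ 4 - 1)⁻¹) 1 ^ 4 ≤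
          B v ^ 4 * max (v (xc (Point.some _ _ h - T : (EC (e3 β ω)).Point))) 1 ^ 8 := by
        have h3 : (0 : ℝ) ≤ max (v (t ^ 4 - 1)⁻¹) 1 := le_trans zero_le_one (le_max_right _ _)
        calc max (v (t ^ 4 - 1)⁻¹) 1 ^ 4 ≤
            (B v * max (v (xc (Point.some _ _ h - T : (EC (e3 β ω)).Point))) 1 ^ 2) ^ 4 := by
              gcongr
          _ = _ := by ring
      rw [hB']
      by_cases hvn : v ∈ nonarchAbsVal (K := L)
      · simp only [hvn, if_true, one_mul]
        exact (hnear.2 v hvn).trans hpow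
      · have hva : v ∈ archAbsVal (K := L) := hv.resolve_right hvn
        simp only [hvn, if_false]
        refine (hnear.1 v hva).trans ?_
        calc (2 * 4 ^ 4 : ℝ) * max (v (t ^ 4 - 1)⁻¹) 1 ^ 4 ≤ 2 * 4 ^ 4 *
            (B v ^ 4 * max (v (xc (Point.some _ _ h - T : (EC (e3 β ω)).Point))) 1 ^ 8) := by
              gcongr
          _ = _ := by ring
  choose! Q hQ using key
  have hinj : Set.InjOn Q A := by
    intro s hs t ht hst
    obtain ⟨⟨a, ha, hQa⟩, -⟩ := hQ s hs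
    obtain ⟨⟨b, hb, hQb⟩, -⟩ := hQ t ht
    rw [hQa, hQb] at hst
    have h4 : (4 : L) * (1 - 2 * xt I s) = 4 * (1 - 2 * xt I t) := by
      injection hst with _ h4
    obtain ⟨⟨hsI, -⟩, -⟩ := hA s hs
    obtain ⟨⟨htI, -⟩, -⟩ := hA t ht
    have hsi : s + I ≠ 0 := fun h => hsI (by linear_combination h)
    have hti : t + I ≠ 0 := fun h => htI (by linear_combination h)
    have h5 : xt I s = xt I t := by
      have h8 : (8 : L) ≠ 0 := by
        have : (8 : L) = 2 ^ 3 := by norm_num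
        rw [this]; exact pow_ne_zero _ h2
      apply mul_left_cancel₀ h8
      linear_combination -h4
    have h6 := xt_add hI s hsi
    have h7 := xt_add hI t hti
    rw [h5] at h6
    have h8 : (xt I t + I) * (s - t) = 0 := by linear_combination h6 - h7
    rcases mul_eq_zero.1 h8 with h9 | h9
    · rw [h9, zero_mul] at h7
      exact absurd h7.symm (neg_ne_zero.2 h2)
    · linear_combination h9
  rw [← Finset.card_image_of_injOn hinj]
  refine hN lam hlam1 _ ?_
  intro P hP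
  obtain ⟨t, ht, rfl⟩ := Finset.mem_image.1 hP
  exact (hQ t ht).2

end UBC
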