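import Pool.Agent.UBC.Residue

set_option autoImplicit false
set_option linter.unusedSectionVars false

/-!
# The residue field of an ultrametric norm on a number field of bounded degree
-/

namespace Pool.Agent.UBC

variable (K : Type*) [NormedField K] [IsUltrametricDist K]

/-- The unit ball as a subring. -/
def unitBall : Subring K where
  carrier := {x | ‖x‖ ≤ 1}
  mul_mem' := by
    intro a b ha hb
    simp only [Set.mem_setOf_eq] at *
    rw [norm_mul]
    nlinarith [norm_nonneg a, norm_nonneg b]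
  one_mem' := by simp
  add_mem' := by
    intro a b ha hb
    exact (IsUltrametricDist.norm_add_le_max a b).trans (max_le ha hb)
  zero_mem' := by simp
  neg_mem' := by
    intro a ha
    simpa using ha

theorem mem_unitBall {x : K} : x ∈ unitBall K ↔ ‖x‖ ≤ 1 := Iff.rfl

/-- The open unit ball as an ideal. -/
def openIdeal : Ideal (unitBall K) where
  carrier := {x | ‖(x : K)‖ < 1}
  add_mem' := by
    intro a b ha hb
    exact lt_of_le_of_lt (IsUltrametricDist.norm_add_le_max (a : K) (b : K)) (max_lt ha hb)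
  zero_mem' := by simp
  smul_mem' := by
    intro c x hx
    simp only [Set.mem_setOf_eq, smul_eq_mul, Subring.coe_mul, norm_mul] at *
    have hc : ‖(c : K)‖ ≤ 1 := c.2
    nlinarith [norm_nonneg (c : K), norm_nonneg (x : K)]

theorem mem_openIdeal {x : unitBall K} : x ∈ openIdeal K ↔ ‖(x : K)‖ < 1 := Iff.rfl

instance openIdeal_isMaximal : (openIdeal K).IsMaximal := by
  rw [Ideal.isMaximal_iff]
  constructor
  · rw [mem_openIdeal]; simp
  · intro J x hJ hx hxJ
    rw [mem_openIdeal, not_lt] at hx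
    have hx1 : ‖(x : K)‖ = 1 := le_antisymm x.2 hx
    have hinv : ((x : K)⁻¹) ∈ unitBall K := by
      rw [mem_unitBall, norm_inv, hx1, inv_one]
    have hx0 : (x : K) ≠ 0 := by
      intro h; rw [h, norm_zero] at hx1; exact zero_ne_one hx1
    have : (⟨(x : K)⁻¹, hinv⟩ : unitBall K) * x = 1 := by
      apply Subtype.ext
      simp [hx0]
    rw [← this]
    exact J.mul_mem_left _ hxJ

/-- The residue field. -/
abbrev ResField : Type _ := unitBall K ⧸ openIdeal K

noncomputable instance : Field (ResField K) := Ideal.Quotient.field (openIdeal K)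

variable {K}

/-- The residue class of an element of the unit ball. -/
def res (x : K) (hx : ‖x‖ ≤ 1) : ResField K := Ideal.Quotient.mk (openIdeal K) ⟨x, hx⟩

theorem res_eq_iff {x y : K} (hx : ‖x‖ ≤ 1) (hy : ‖y‖ ≤ 1) :
    res x hx = res y hy ↔ ‖x - y‖ < 1 := by
  unfold res
  rw [Ideal.Quotient.eq, mem_openIdeal]
  rfl

theorem res_surj (z : ResField K) : ∃ (x : K) (hx : ‖x‖ ≤ 1), res x hx = z := by
  obtain ⟨⟨x, hx⟩, rfl⟩ := Ideal.Quotient.mk_surjective z
  exact ⟨x, hx, rfl⟩

theorem res_finite_card [CharZero K] [Algebra ℚ K] [FiniteDimensional ℚ K] {p : ℕ} (hp : p.Prime)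
    (hlt : ‖(p : K)‖ < 1) {D : ℕ} (hD : Module.finrank ℚ K ≤ D) :
    ∃ f : ℕ, 1 ≤ f ∧ f ≤ D ∧ Nat.card (ResField K) = p ^ f := by
  classical
  obtain ⟨r, hr, y, hy, hgen⟩ := exists_gen (K := K) hp hlt
  -- surjection from (Fin r → Fin p)
  have hb : ∀ a : Fin r → Fin p, ‖∑ i, ((a i : ℕ) : K) * y i‖ ≤ 1 := by
    intro a
    apply IsUltrametricDist.norm_sum_le_of_forall_le_of_nonneg (by norm_num)
    intro i _
    rw [norm_mul]
    exact mul_le_one₀ (norm_nat_le_one _) (norm_nonneg _) (hy i)
  let φ : (Fin r → Fin p) → ResField K := fun a => res (∑ i, ((a i : ℕ) : K) * y i) (hb a)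
  have hφ : Function.Surjective φ := by
    intro z
    obtain ⟨x, hx, rfl⟩ := res_surj z
    obtain ⟨a, ha⟩ := hgen x hx
    refine ⟨a, ?_⟩
    rw [res_eq_iff, norm_sub_rev]
    exact lt_of_le_of_lt ha hlt
  have hfin : Finite (ResField K) := Finite.of_surjective φ hφ
  have hcardle : Nat.card (ResField K) ≤ p ^ r := by
    have := Nat.card_le_card_of_surjective φ hφ
    simpa using this
  haveI : Fintype (ResField K) := Fintype.ofFinite _
  haveI : CharP (ResField K) p := by
    have h0 : ((p : ℕ) : ResField K) = 0 := by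
      have : ((p : ℕ) : ResField K) = Ideal.Quotient.mk (openIdeal K) ((p : ℕ) : unitBall K) := by
        simp
      rw [this, Ideal.Quotient.eq_zero_iff_mem, mem_openIdeal]
      simpa using hlt
    exact (CharP.charP_iff_prime_eq_zero hp).mpr h0
  obtain ⟨n, _, hn⟩ := FiniteField.card (ResField K) p
  refine ⟨n, n.2, ?_, ?_⟩
  · rw [Nat.card_eq_fintype_card, hn] at hcardle
    have : (n : ℕ) ≤ r := (Nat.pow_le_pow_iff_right hp.one_lt).mp hcardle
    omega
  · rw [Nat.card_eq_fintype_card, hn]

/-- `1 + ρ + … + ρ ^ (m-1)` is a unit for every unit `ρ` when `m` is prime to `p (q - 1)`; in the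
form needed below. -/
theorem norm_pow_sub_one {p : ℕ} {m : ℕ} (hm : ‖(m : K)‖ = 1)
    (hcop : Nat.Coprime m (Nat.card (ResField K) - 1)) [Finite (ResField K)]
    {ρ : K} (hρ : ‖ρ‖ = 1) : ‖ρ ^ m - 1‖ = ‖ρ - 1‖ := by
  classical
  have hle : ‖ρ - 1‖ ≤ 1 := by
    have := norm_sub_le_max' ρ 0 1
    simpa [hρ] using this
  have hsum : ρ ^ m - 1 = (∑ i ∈ Finset.range m, ρ ^ i) * (ρ - 1) := (geom_sum_mul ρ m).symm
  rcases lt_or_eq_of_le hle with hlt | heq
  · -- ρ ≡ 1
    have h1 : ‖(∑ i ∈ Finset.range m, ρ ^ i) - (m : K)‖ < 1 := by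
      have e : (∑ i ∈ Finset.range m, ρ ^ i) - (m : K) =
          ∑ i ∈ Finset.range m, (ρ ^ i - 1) := by
        rw [Finset.sum_sub_distrib]; simp
      rw [e]
      refine lt_of_le_of_lt (IsUltrametricDist.norm_sum_le_of_forall_le_of_nonneg
        (norm_nonneg (ρ - 1)) ?_) hlt
      intro i _
      exact pow_near_one (norm_nonneg _) hρ le_rfl i
    have h2 : ‖∑ i ∈ Finset.range m, ρ ^ i‖ = 1 := by
      have h3 : ‖(m : K) - ∑ i ∈ Finset.range m, ρ ^ i‖ < ‖(m : K) - 0‖ := by
        rw [norm_sub_rev, sub_zero, hm]; exact h1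
      have := norm_sub_eq_of_lt h3
      rw [sub_zero, sub_zero, hm] at this
      exact this
    rw [hsum, norm_mul, h2, one_mul]
  · -- ρ ≢ 1
    rw [heq]
    have hle' : ‖ρ ^ m - 1‖ ≤ 1 := by
      have := norm_sub_le_max' (ρ ^ m) 0 1
      simpa [hρ] using this
    rcases lt_or_eq_of_le hle' with hlt | h
    · exfalso
      haveI : Fintype (ResField K) := Fintype.ofFinite _
      have hρ1 : ‖ρ‖ ≤ 1 := hρ.le
      set z := res ρ hρ1 with hz
      have hz1 : z ≠ 1 := by
        intro h
        have h1 : (1 : ResField K) = res (1 : K) (by simp) := by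
          unfold res; exact (map_one (Ideal.Quotient.mk (openIdeal K))).symm
        rw [h1, hz, res_eq_iff, heq] at h
        exact lt_irrefl _ h
      have hz0 : z ≠ 0 := by
        intro h
        have h1 : (0 : ResField K) = res (0 : K) (by simp) := by
          unfold res; exact (map_zero (Ideal.Quotient.mk (openIdeal K))).symm
        rw [h1, hz, res_eq_iff, sub_zero, hρ] at h
        exact lt_irrefl _ h
      have hzm : z ^ m = 1 := by
        have h1 : (1 : ResField K) = res (1 : K) (by simp) := by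
          unfold res; exact (map_one (Ideal.Quotient.mk (openIdeal K))).symm
        have h2 : z ^ m = res (ρ ^ m) (by rw [norm_pow, hρ, one_pow]) := by
          rw [hz]; unfold res
          rw [← map_pow]; rfl
        rw [h1, h2, res_eq_iff]
        exact hlt
      have hzq : z ^ (Nat.card (ResField K) - 1) = 1 := by
        rw [Nat.card_eq_fintype_card]
        exact FiniteField.pow_card_sub_one_eq_one z hz0
      have := Nat.dvd_gcd (orderOf_dvd_of_pow_eq_one hzm) (orderOf_dvd_of_pow_eq_one hzq)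
      rw [hcop] at this
      have h1 : orderOf z = 1 := Nat.dvd_one.mp this
      exact hz1 (orderOf_eq_one_iff.mp h1)
    · exact h

end Pool.Agent.UBC
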