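import Mathlib
import Pool.Agent.UBC.ResField

set_option autoImplicit false
set_option linter.unusedSectionVars false

/-!
# Places of a number field above a prime with a suitable residue degree
-/

namespace Pool.Agent.UBC

open NumberField Ideal

/-- There is a prime above `p` whose residue degree is not in a given submonoid that does not contain
the degree of the field. -/
theorem exists_prime_inertia (K : Type*) [Field K] [NumberField K] {p : ℕ} (hp : p.Prime)
    (A : AddSubmonoid ℕ) (hA : Module.finrank ℚ K ∉ A) :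
    ∃ P : Ideal (𝓞 K), P.IsMaximal ∧ P.LiesOver (Ideal.span {(p : ℤ)}) ∧
      ∃ f : ℕ, Nat.card (𝓞 K ⧸ P) = p ^ f ∧ f ∉ A := by
  classical
  have hpz : Prime (p : ℤ) := Nat.prime_iff_prime_int.mp hp
  have hp0 : Ideal.span {(p : ℤ)} ≠ ⊥ := by
    rw [Ne, Ideal.span_singleton_eq_bot]
    exact hpz.ne_zero
  have hpp : (Ideal.span {(p : ℤ)}).IsPrime := by
    rwa [Ideal.span_singleton_prime hpz.ne_zero]
  have hpm : (Ideal.span {(p : ℤ)}).IsMaximal := hpp.isMaximal hp0
  have hsum := Ideal.sum_ramification_inertia (R := ℤ) (𝓞 K) ℚ K (p := Ideal.span {(p : ℤ)}) hp0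
  by_contra hcon
  push Not at hcon
  apply hA
  rw [← hsum]
  apply AddSubmonoid.sum_mem
  intro P hP
  have hP' := (IsDedekindDomain.mem_primesOverFinset_iff hp0 (𝓞 K)).mp hP
  have h1 : P.IsPrime := hP'.1
  have h2 : P.LiesOver (Ideal.span {(p : ℤ)}) := hP'.2
  have hPm : P.IsMaximal := Ideal.IsMaximal.of_liesOver_isMaximal P (Ideal.span {(p : ℤ)})
  have h3 := Ideal.absNorm_eq_pow_inertiaDeg' P hp
  have h4 : Nat.card (𝓞 K ⧸ P) = p ^ ((Ideal.span {(p : ℤ)}).inertiaDeg' P) := by
    rw [← h3, Ideal.absNorm_apply, Submodule.cardQuot_apply]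
  have h5 := hcon P hPm h2 _ h4
  rw [← smul_eq_mul]
  exact AddSubmonoid.nsmul_mem A h5 _

end Pool.Agent.UBC
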