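import Mathlib
import Pool.Agent.UBC.Place

set_option autoImplicit false
set_option linter.unusedSectionVars false

/-!
# The embedding of a number field into the closure of the `p`-adic numbers given by a prime ideal
-/

namespace Pool.Agent.UBC

open NumberField Ideal
open scoped Pointwise

section emb
variable {p : ℕ} [Fact p.Prime]

theorem norm_integral_le_one {F : Type*} [Field F] [NumberField F] (τ : F →+* PadicAlgCl p)
    (x : 𝓞 F) : ‖τ (x : F)‖ ≤ 1 := by
  have h1 : IsIntegral ℤ (x : F) := x.2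
  have h2 : IsIntegral ℤ (τ (x : F)) := h1.map τ.toIntAlgHom
  have h3 : IsIntegral (unitBall (PadicAlgCl p)) (τ (x : F)) := h2.tower_top
  obtain ⟨f, hf, hev⟩ := h3
  by_contra hcon
  push Not at hcon
  set y := τ (x : F) with hy
  -- ‖y ^ n‖ ≤ ‖y‖ ^ (n - 1)
  have hdeg : f.natDegree ≠ 0 := by
    intro h
    have : f = 1 := hf.natDegree_eq_zero.mp h
    rw [this] at hev
    simp at hev
  obtain ⟨n, hn⟩ := Nat.exists_eq_succ_of_ne_zero hdeg
  rw [Polynomial.eval₂_eq_sum_range, hn, Finset.sum_range_succ] at hev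
  have hlead : f.coeff n.succ = 1 := by rw [← hn]; exact hf.coeff_natDegree
  rw [hlead, map_one, one_mul] at hev
  have hle : ‖∑ i ∈ Finset.range n.succ, (algebraMap (unitBall (PadicAlgCl p)) (PadicAlgCl p))
      (f.coeff i) * y ^ i‖ ≤ ‖y‖ ^ n := by
    apply IsUltrametricDist.norm_sum_le_of_forall_le_of_nonneg (by positivity)
    intro i hi
    rw [Finset.mem_range] at hi
    rw [norm_mul, norm_pow]
    have h5 : ‖(algebraMap (unitBall (PadicAlgCl p)) (PadicAlgCl p)) (f.coeff i)‖ ≤ 1 :=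
      (f.coeff i).2
    have h6 : ‖y‖ ^ i ≤ ‖y‖ ^ n := pow_le_pow_right₀ hcon.le (by omega)
    calc _ ≤ 1 * ‖y‖ ^ n := mul_le_mul h5 h6 (by positivity) (by norm_num)
      _ = _ := one_mul _
  have h7 : y ^ n.succ = -(∑ i ∈ Finset.range n.succ,
      (algebraMap (unitBall (PadicAlgCl p)) (PadicAlgCl p)) (f.coeff i) * y ^ i) :=
    eq_neg_of_add_eq_zero_right hev
  have h8 : ‖y‖ ^ n.succ ≤ ‖y‖ ^ n := by
    rw [← norm_pow, h7, norm_neg]; exact hle
  have h9 : ‖y‖ ^ n < ‖y‖ ^ n.succ := pow_lt_pow_right₀ hcon (by omega)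
  exact absurd h8 (not_le.mpr h9)

/-- The prime ideal of an embedding. -/
def idealOf {F : Type*} [Field F] [NumberField F] (τ : F →+* PadicAlgCl p) : Ideal (𝓞 F) where
  carrier := {x | ‖τ (x : F)‖ < 1}
  add_mem' := by
    intro a b ha hb
    simp only [Set.mem_setOf_eq] at *
    have : τ ((a + b : 𝓞 F) : F) = τ (a : F) + τ (b : F) := by
      rw [← map_add]; rfl
    rw [this]
    exact lt_of_le_of_lt (IsUltrametricDist.norm_add_le_max _ _) (max_lt ha hb)
  zero_mem' := by simp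
  smul_mem' := by
    intro c x hx
    simp only [Set.mem_setOf_eq, smul_eq_mul] at *
    have : τ ((c * x : 𝓞 F) : F) = τ (c : F) * τ (x : F) := by
      rw [← map_mul]; rfl
    rw [this, norm_mul]
    have hc := norm_integral_le_one τ c
    nlinarith [norm_nonneg (τ (c : F)), norm_nonneg (τ (x : F))]

theorem mem_idealOf {F : Type*} [Field F] [NumberField F] (τ : F →+* PadicAlgCl p) (x : 𝓞 F) :
    x ∈ idealOf τ ↔ ‖τ (x : F)‖ < 1 := Iff.rfl

instance idealOf_isPrime {F : Type*} [Field F] [NumberField F] (τ : F →+* PadicAlgCl p) :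
    (idealOf τ).IsPrime := by
  refine Ideal.isPrime_iff.mpr ⟨?_, ?_⟩
  · rw [Ne, Ideal.eq_top_iff_one, mem_idealOf]
    simp
  · intro x y hxy
    by_contra hcon
    push Not at hcon
    rw [mem_idealOf] at *
    have : τ ((x * y : 𝓞 F) : F) = τ (x : F) * τ (y : F) := by
      rw [← map_mul]; rfl
    rw [this, norm_mul] at hxy
    have h1 : 1 ≤ ‖τ (x : F)‖ := not_lt.mp hcon.1
    have h2 : 1 ≤ ‖τ (y : F)‖ := not_lt.mp hcon.2
    nlinarith

theorem norm_p_lt_one' {F : Type*} [Field F] (τ : F →+* PadicAlgCl p) : ‖τ (p : F)‖ < 1 := by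
  rw [map_natCast]
  have h1 : ‖((p : ℚ_[p]) : PadicAlgCl p)‖ = ‖(p : ℚ_[p])‖ := PadicAlgCl.norm_extends p _
  have h2 : ((p : ℚ_[p]) : PadicAlgCl p) = (p : PadicAlgCl p) := map_natCast _ _
  rw [h2] at h1
  rw [h1, Padic.norm_p]
  exact inv_lt_one_of_one_lt₀ (by exact_mod_cast (Fact.out : p.Prime).one_lt)

theorem idealOf_under {F : Type*} [Field F] [NumberField F] (τ : F →+* PadicAlgCl p) :
    (idealOf τ).under ℤ = Ideal.span {(p : ℤ)} := by
  have hp : p.Prime := Fact.out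
  have hpz : Prime (p : ℤ) := Nat.prime_iff_prime_int.mp hp
  have hp0 : Ideal.span {(p : ℤ)} ≠ ⊥ := by
    rw [Ne, Ideal.span_singleton_eq_bot]
    exact hpz.ne_zero
  have hpp : (Ideal.span {(p : ℤ)}).IsPrime := by
    rwa [Ideal.span_singleton_prime hpz.ne_zero]
  have hpm : (Ideal.span {(p : ℤ)}).IsMaximal := hpp.isMaximal hp0
  symm
  apply hpm.eq_of_le
  · exact (inferInstance : ((idealOf τ).under ℤ).IsPrime).ne_top
  · rw [Ideal.span_le, Set.singleton_subset_iff, SetLike.mem_coe, Ideal.mem_comap, mem_idealOf]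
    have : τ (((algebraMap ℤ (𝓞 F)) (p : ℤ) : 𝓞 F) : F) = τ (p : F) := by
      simp
    rw [this]
    exact norm_p_lt_one' τ

/-- Every prime ideal above `p` comes from an embedding into the closure of the `p`-adic
numbers. -/
theorem exists_embedding (K : Type) [Field K] [NumberField K] (P : Ideal (𝓞 K))
    (hPm : P.IsMaximal) (hP : P.LiesOver (Ideal.span {(p : ℤ)})) :
    ∃ σ : K →+* PadicAlgCl p, ∀ x : 𝓞 K, ‖σ (x : K)‖ < 1 ↔ x ∈ P := by
  classical
  let E := IntermediateField.normalClosure ℚ K (AlgebraicClosure K)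
  have : NumberField E := {
    to_charZero := inferInstance
    to_finiteDimensional := inferInstance }
  have : Algebra.IsAlgebraic ℚ (AlgebraicClosure K) := Algebra.IsAlgebraic.trans ℚ K _
  have : IsAlgClosure ℚ (AlgebraicClosure K) := ⟨inferInstance, inferInstance⟩
  have : Normal ℚ (AlgebraicClosure K) := IsAlgClosure.normal ℚ (AlgebraicClosure K)
  have : Normal ℚ E := normalClosure.normal ℚ K (AlgebraicClosure K)
  have : IsGalois ℚ E := IsGalois.mk
  obtain ⟨τ0⟩ : Nonempty (E →+* PadicAlgCl p) :=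
    ⟨(IsAlgClosed.lift (R := ℚ) (S := E) (M := PadicAlgCl p)).toRingHom⟩
  obtain ⟨Q, hQm, hQ⟩ := Ideal.exists_maximal_ideal_liesOver_of_isIntegral (S := 𝓞 E) P
  have hst : IsScalarTower ℤ (𝓞 K) (𝓞 E) := IsScalarTower.of_algebraMap_eq (fun x => by simp)
  have hQ' : Q.under ℤ = Ideal.span {(p : ℤ)} := by
    have h1 : Q.under (𝓞 K) = P := hQ.over.symm
    have h2 : P.under ℤ = Ideal.span {(p : ℤ)} := hP.over.symm
    rw [← h2, ← h1, Ideal.under_under]
  have hQp : Q.IsPrime := hQm.isPrime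
  obtain ⟨g, hg⟩ := Algebra.IsInvariant.exists_smul_of_under_eq ℤ (𝓞 E) Gal(E/ℚ) Q (idealOf τ0)
    (hQ'.trans (idealOf_under τ0).symm)
  refine ⟨(τ0.comp (g : E →+* E)).comp (algebraMap K E), ?_⟩
  intro x
  have e : ((τ0.comp (g : E →+* E)).comp (algebraMap K E)) (x : K) =
      τ0 ((g • (algebraMap (𝓞 K) (𝓞 E) x) : 𝓞 E) : E) := rfl
  rw [e, ← mem_idealOf, hg, Ideal.smul_mem_pointwise_smul_iff]
  have h1 : P = Q.under (𝓞 K) := hQ.over
  rw [h1]
  rfl

end emb

end Pool.Agent.UBC
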