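import Mathlib
import Pool.Agent.UBC.Embed

set_option autoImplicit false
set_option linter.unusedSectionVars false

/-!
# The residue field of the norm given by a prime ideal
-/

namespace Pool.Agent.UBC

open NumberField Ideal

theorem quot_or (K : Type*) [Field K] [NumberField K] (P : Ideal (𝓞 K)) (hP0 : P ≠ ⊥)
    [hPp : P.IsPrime] (x : K) :
    ∃ a s : 𝓞 K, s ∉ P ∧ (x = (a : K) * (s : K)⁻¹ ∨ x⁻¹ = (a : K) * (s : K)⁻¹) := by
  let R := Localization.subalgebra.ofField K P.primeCompl (Ideal.primeCompl_le_nonZeroDivisors P)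
  have hloc : IsLocalization.AtPrime R P :=
    Localization.subalgebra.isLocalization_ofField K P.primeCompl
      (Ideal.primeCompl_le_nonZeroDivisors P)
  have hdvr : IsDiscreteValuationRing R :=
    IsLocalization.AtPrime.isDiscreteValuationRing_of_dedekind_domain (𝓞 K) hP0 R
  have hfr : IsFractionRing R K := inferInstance
  have hmem : ∀ y : R, ∃ a s : 𝓞 K, s ∉ P ∧ (y : K) = (a : K) * (s : K)⁻¹ := by
    intro y
    obtain ⟨a, s, hs, h⟩ := y.2
    exact ⟨a, s, hs, h⟩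
  rcases ValuationRing.isInteger_or_isInteger R x with h | h
  · obtain ⟨y, hy⟩ := h
    obtain ⟨a, s, hs, h⟩ := hmem y
    exact ⟨a, s, hs, Or.inl (by rw [← h]; exact hy.symm)⟩
  · obtain ⟨y, hy⟩ := h
    obtain ⟨a, s, hs, h⟩ := hmem y
    exact ⟨a, s, hs, Or.inr (by rw [← h]; exact hy.symm)⟩

section
variable {K : Type*} [NormedField K] [IsUltrametricDist K] [NumberField K]

theorem quot_of_norm_le (P : Ideal (𝓞 K)) (hP0 : P ≠ ⊥) [hPp : P.IsPrime]
    (hle : ∀ x : 𝓞 K, ‖(x : K)‖ ≤ 1) (h : ∀ x : 𝓞 K, ‖(x : K)‖ < 1 ↔ x ∈ P) {x : K}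
    (hx : ‖x‖ ≤ 1) : ∃ a s : 𝓞 K, s ∉ P ∧ x = (a : K) * (s : K)⁻¹ := by
  have hone : ∀ s : 𝓞 K, s ∉ P → ‖(s : K)‖ = 1 := by
    intro s hs
    refine le_antisymm (hle s) ?_
    by_contra hcon
    exact hs ((h s).mp (not_le.mp hcon))
  by_cases hx0 : x = 0
  · refine ⟨0, 1, ?_, by simp [hx0]⟩
    exact fun h1 => hPp.ne_top ((Ideal.eq_top_iff_one P).mpr h1)
  obtain ⟨a, s, hs, h1 | h1⟩ := quot_or K P hP0 x
  · exact ⟨a, s, hs, h1⟩
  · refine ⟨s, a, ?_, ?_⟩
    · intro ha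
      have h2 := (h a).mpr ha
      have h3 : ‖x⁻¹‖ < 1 := by
        rw [h1, norm_mul, norm_inv, hone s hs]
        simpa using h2
      rw [norm_inv] at h3
      have h4 : 0 < ‖x‖ := norm_pos_iff.mpr hx0
      have h5 : 1 ≤ ‖x‖⁻¹ := (one_le_inv₀ h4).mpr hx
      linarith
    · have : x = ((a : K) * (s : K)⁻¹)⁻¹ := by rw [← h1, inv_inv]
      rw [this, mul_inv, inv_inv, mul_comm]

/-- The ring of integers maps to the unit ball. -/
noncomputable def toBall (hle : ∀ x : 𝓞 K, ‖(x : K)‖ ≤ 1) : 𝓞 K →+* unitBall K where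
  toFun x := ⟨(x : K), hle x⟩
  map_one' := by apply Subtype.ext; simp
  map_mul' := by intro x y; apply Subtype.ext; simp
  map_zero' := by apply Subtype.ext; simp
  map_add' := by intro x y; apply Subtype.ext; simp

theorem card_resField (P : Ideal (𝓞 K)) (hP0 : P ≠ ⊥) (hPm : P.IsMaximal)
    (hle : ∀ x : 𝓞 K, ‖(x : K)‖ ≤ 1) (h : ∀ x : 𝓞 K, ‖(x : K)‖ < 1 ↔ x ∈ P) :
    Nat.card (ResField K) = Nat.card (𝓞 K ⧸ P) := by
  have hPp : P.IsPrime := hPm.isPrime
  let φ : 𝓞 K →+* ResField K := (Ideal.Quotient.mk (openIdeal K)).comp (toBall hle)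
  have hker : RingHom.ker φ = P := by
    ext x
    rw [RingHom.mem_ker, ← h x]
    simp only [φ, RingHom.comp_apply]
    rw [Ideal.Quotient.eq_zero_iff_mem, mem_openIdeal]
    rfl
  have hsurj : Function.Surjective φ := by
    intro z
    obtain ⟨x, hx, rfl⟩ := res_surj z
    obtain ⟨a, s, hs, hxs⟩ := quot_of_norm_le P hP0 hle h hx
    have hsK : (s : K) ≠ 0 := by
      intro h0
      apply hs
      have : s = 0 := by exact_mod_cast h0
      rw [this]; exact P.zero_mem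
    obtain ⟨t, ht⟩ : ∃ t : 𝓞 K, 1 - s * t ∈ P := by
      obtain ⟨y, i, hi, e⟩ := hPm.exists_inv hs
      refine ⟨y, ?_⟩
      have : 1 - s * y = i := by rw [← e]; ring
      rw [this]; exact hi
    refine ⟨a * t, ?_⟩
    have e : φ (a * t) = res (((a * t : 𝓞 K)) : K) (hle _) := rfl
    rw [e, res_eq_iff]
    have e2 : ((a * t : 𝓞 K) : K) - x = -(x * ((1 - s * t : 𝓞 K) : K)) := by
      rw [hxs]
      push_cast
      field_simp
      ring
    rw [e2, norm_neg, norm_mul]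
    have h3 := (h _).mpr ht
    nlinarith [norm_nonneg x, norm_nonneg (((1 - s * t : 𝓞 K)) : K)]
  have e1 : ResField K ≃+* 𝓞 K ⧸ RingHom.ker φ :=
    (RingHom.quotientKerEquivOfSurjective hsurj).symm
  rw [hker] at e1
  exact Nat.card_congr e1.toEquiv

end

end Pool.Agent.UBC
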