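import Pool.Agent.UBC.GoodMaps

set_option autoImplicit false

/-!
# Good maps of number fields of bounded degree
-/

namespace Pool.Agent.UBC

section prime

/-- There is a prime `p` which is a primitive root modulo every prime factor of `d`. -/
theorem exists_prime_order {d : ℕ} (hd : 0 < d) : ∃ p : ℕ, p.Prime ∧
    ∀ ℓ : ℕ, ℓ.Prime → ℓ ∣ d → ℓ ≠ p ∧ ∀ f : ℕ, 0 < f → ℓ ∣ p ^ f - 1 → ℓ - 1 ≤ f := by
  classical
  -- primitive roots
  have hprim : ∀ ℓ : ℕ, ∃ g : ℕ, ℓ.Prime → (∀ f : ℕ, 0 < f → ((g : ZMod ℓ)) ^ f = 1 → ℓ - 1 ≤ f) ∧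
      ((g : ZMod ℓ)) ≠ 0 := by
    intro ℓ
    by_cases hℓ : ℓ.Prime
    · have : Fact ℓ.Prime := ⟨hℓ⟩
      obtain ⟨g, hg⟩ := IsCyclic.exists_generator (α := (ZMod ℓ)ˣ)
      refine ⟨(g : ZMod ℓ).val, fun _ => ?_⟩
      have e : (((g : ZMod ℓ).val : ℕ) : ZMod ℓ) = (g : ZMod ℓ) := ZMod.natCast_zmod_val _
      constructor
      · intro f hf h
        rw [e] at h
        have h1 : g ^ f = 1 := by
          apply Units.ext
          simpa using h
        have h2 : orderOf g = ℓ - 1 := by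
          rw [orderOf_eq_card_of_forall_mem_zpowers hg, Nat.card_eq_fintype_card,
            ZMod.card_units_eq_totient, Nat.totient_prime hℓ]
        have h3 := orderOf_dvd_of_pow_eq_one h1
        rw [h2] at h3
        exact Nat.le_of_dvd hf h3
      · rw [e]; exact Units.ne_zero g
    · exact ⟨0, fun h => absurd h hℓ⟩
  choose g hg using hprim
  set S := d.primeFactors with hS
  have hSp : ∀ ℓ ∈ S, ℓ.Prime := fun ℓ h => Nat.prime_of_mem_primeFactors h
  obtain ⟨a, ha⟩ := Nat.chineseRemainderOfFinset g id S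
    (fun ℓ hℓ => (hSp ℓ hℓ).ne_zero)
    (fun i hi j hj hij => (Nat.coprime_primes (hSp i hi) (hSp j hj)).mpr hij)
  have hcop : Nat.Coprime a (∏ ℓ ∈ S, ℓ) := by
    apply Nat.Coprime.prod_right
    intro ℓ hℓ
    have hp := hSp ℓ hℓ
    rw [Nat.coprime_comm, Nat.Prime.coprime_iff_not_dvd hp]
    intro hdvd
    have h1 := ha ℓ hℓ
    have h2 : ((a : ℕ) : ZMod ℓ) = ((g ℓ : ℕ) : ZMod ℓ) :=
      (ZMod.natCast_eq_natCast_iff _ _ _).mpr h1
    have h3 : ((a : ℕ) : ZMod ℓ) = 0 := (ZMod.natCast_eq_zero_iff a ℓ).mpr hdvd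
    exact (hg ℓ hp).2 (by rw [← h2, h3])
  set n := ∏ ℓ ∈ S, ℓ with hn
  have hn0 : n ≠ 0 := Finset.prod_ne_zero_iff.mpr (fun ℓ hℓ => (hSp ℓ hℓ).ne_zero)
  have : NeZero n := ⟨hn0⟩
  have hunit : IsUnit ((a : ℕ) : ZMod n) := (ZMod.isUnit_iff_coprime a n).mpr hcop
  obtain ⟨p, hpd, hp, hpa⟩ := Nat.forall_exists_prime_gt_and_eq_mod hunit d
  refine ⟨p, hp, ?_⟩
  intro ℓ hℓ hℓd
  have hℓS : ℓ ∈ S := by
    rw [hS, Nat.mem_primeFactors]; exact ⟨hℓ, hℓd, hd.ne'⟩
  refine ⟨?_, ?_⟩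
  · have := Nat.le_of_dvd hd hℓd
    omega
  · intro f hf hdiv
    have hℓn : ℓ ∣ n := Finset.dvd_prod_of_mem _ hℓS
    have h1 : ((p : ℕ) : ZMod ℓ) = ((a : ℕ) : ZMod ℓ) := by
      rw [ZMod.natCast_eq_natCast_iff]
      have : p ≡ a [MOD n] := (ZMod.natCast_eq_natCast_iff _ _ _).mp hpa
      exact this.of_dvd hℓn
    have h2 : ((a : ℕ) : ZMod ℓ) = ((g ℓ : ℕ) : ZMod ℓ) :=
      (ZMod.natCast_eq_natCast_iff _ _ _).mpr (ha ℓ hℓS)
    apply (hg ℓ hℓ).1 f hf
    rw [← h2, ← h1]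
    have h3 : ((p ^ f - 1 : ℕ) : ZMod ℓ) = 0 := (ZMod.natCast_eq_zero_iff _ _).mpr hdiv
    have h4 : 1 ≤ p ^ f := Nat.one_le_pow _ _ hp.pos
    rw [Nat.cast_sub h4] at h3
    push_cast at h3
    exact sub_eq_zero.mp h3

/-- The form in which the choice of the prime is used. -/
theorem exists_prime_coprime {d : ℕ} (hd : 0 < d) : ∃ p : ℕ, p.Prime ∧
    ∀ B : ℕ, ∀ m : ℕ, m ∣ d → (∀ ℓ : ℕ, ℓ.Prime → ℓ ∣ m → B + 1 < ℓ) →
      ∀ f : ℕ, 1 ≤ f → f ≤ B → Nat.Coprime m (p * (p ^ f - 1)) := by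
  obtain ⟨p, hp, h⟩ := exists_prime_order hd
  refine ⟨p, hp, ?_⟩
  intro B m hmd hB f hf1 hfB
  by_contra hcon
  obtain ⟨ℓ, hℓ, hℓm, hℓp⟩ := Nat.Prime.not_coprime_iff_dvd.mp hcon
  obtain ⟨h1, h2⟩ := h ℓ hℓ (hℓm.trans hmd)
  have hBℓ := hB ℓ hℓ hℓm
  rcases (Nat.Prime.dvd_mul hℓ).mp hℓp with h3 | h3
  · exact h1 ((Nat.prime_dvd_prime_iff_eq hℓ hp).mp h3)
  · have := h2 f hf1 h3
    omega

end prime

theorem card_ne_zero_of_coprime {p m : ℕ} (hp : p.Prime) {f : ℕ}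
    (h : Nat.Coprime m (p * (p ^ f - 1))) : ¬ p ∣ m := by
  intro hd
  have h1 : p ∣ Nat.gcd m (p * (p ^ f - 1)) := Nat.dvd_gcd hd (Dvd.intro _ rfl)
  rw [h] at h1
  exact hp.one_lt.ne' (Nat.dvd_one.mp h1)

/-- For a number field `K` of degree at most `D` and a prime `p` there is a class `G` of self-maps
of `K`, closed under composition, containing the affine maps, the power maps and the Dickson maps
of suitable degrees, such that preperiodic points of maps in `G` are periodic with period dividing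
a number depending on `p` and `D` only. -/
theorem exists_class {p : ℕ} (hp : p.Prime) (D : ℕ) (K : Type) [Field K] [NumberField K]
    (hD : Module.finrank ℚ K ≤ D) :
    ∃ G : Set (K → K), id ∈ G ∧ (∀ f ∈ G, ∀ g ∈ G, f ∘ g ∈ G) ∧
      (∀ f ∈ G, ∀ t : K, ∀ a b : ℕ, a < b → f^[b] t = f^[a] t →
        f^[(p ^ (2 * D)).factorial * (p ^ (2 * D)).factorial] t = t) ∧
      (∀ α c : K, α ≠ 0 → (fun x => α * x + c) ∈ G) ∧
      (∀ m : ℕ, 1 ≤ m → (∀ f : ℕ, 1 ≤ f → f ≤ D → Nat.Coprime m (p * (p ^ f - 1))) →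
        (fun x => x ^ m) ∈ G) ∧
      (∀ m : ℕ, 1 ≤ m → (∀ f : ℕ, 1 ≤ f → f ≤ 2 * D → Nat.Coprime m (p * (p ^ f - 1))) →
        ∀ h : K, (fun x => dk h m x) ∈ G) := by
  classical
  have : Fact p.Prime := ⟨hp⟩
  obtain ⟨σ⟩ : Nonempty (K →+* PadicAlgCl p) :=
    ⟨(IsAlgClosed.lift (R := ℚ) (S := K) (M := PadicAlgCl p)).toRingHom⟩
  letI nf : NormedField K := NormedField.induced K (PadicAlgCl p) σ σ.injective
  have hnorm : ∀ x : K, ‖x‖ = ‖σ x‖ := fun x => rfl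
  have hult : IsUltrametricDist K := by
    apply IsUltrametricDist.isUltrametricDist_of_forall_norm_add_le_max_norm
    intro x y
    rw [hnorm, hnorm, hnorm, map_add]
    exact IsUltrametricDist.norm_add_le_max _ _
  have hpn : ‖(p : K)‖ < 1 := by
    rw [hnorm, map_natCast]
    have h1 : ‖((p : ℚ_[p]) : PadicAlgCl p)‖ = ‖(p : ℚ_[p])‖ := PadicAlgCl.norm_extends p _
    have h2 : ((p : ℚ_[p]) : PadicAlgCl p) = (p : PadicAlgCl p) := map_natCast _ _
    rw [h2] at h1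
    rw [h1, Padic.norm_p]
    exact inv_lt_one_of_one_lt₀ (by exact_mod_cast hp.one_lt)
  have hQ := fewClasses (K := K) hp hpn hD
  have hε0 : 0 ≤ ‖(p : K)‖ ^ 2 := by positivity
  have hε1 : ‖(p : K)‖ ^ 2 < 1 := by nlinarith [norm_nonneg (p : K)]
  obtain ⟨f0, hf1, hfD, hcard⟩ := res_finite_card (K := K) hp hpn hD
  have hfin : Finite (ResField K) := by
    apply Nat.finite_of_card_ne_zero
    rw [hcard]
    exact pow_ne_zero _ hp.ne_zero
  have hunit : ∀ m : ℕ, ¬ p ∣ m → ‖(m : K)‖ = 1 := by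
    intro m hm
    have := norm_int_eq_one (K := K) hp hpn (a := (m : ℤ)) (fun h => hm (by exact_mod_cast h))
    simpa using this
  refine ⟨{f | Good f}, good_id, fun f hf g hg => Good.comp hf hg, ?_, ?_, ?_, ?_⟩
  · intro f hf t a b hab h
    exact Good.preperiodic hf hε0 hε1 hQ (fun ℓ hℓ => prime_gt hp hpn hℓ) hab h
  · intro α c hα
    exact good_affine hα
  · intro m hm hcop
    obtain ⟨k, rfl⟩ : ∃ k, m = k + 1 := ⟨m - 1, by omega⟩
    have hc := hcop f0 hf1 hfD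
    have hm1 := hunit _ (card_ne_zero_of_coprime hp hc)
    have hc' : Nat.Coprime (k + 1) (Nat.card (ResField K) - 1) := by
      rw [hcard]; exact Nat.Coprime.coprime_mul_left_right hc
    have hgood : Good (fun x : K => dk (0 : K) (k + 1) x) := by
      apply good_dk
      intro x y hxy
      exact norm_dd_zero_param (fun ρ hρ => norm_pow_sub_one (p := p) hm1 hc' hρ) hxy
    have e : (fun x : K => x ^ (k + 1)) = (fun x : K => dk (0 : K) (k + 1) x) := by
      funext x; rw [dk_zero_param]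
    rw [e]
    exact hgood
  · intro m hm hcop h
    have hc1 := hcop f0 hf1 (by omega)
    have hc2 := hcop (2 * f0) (by omega) (by omega)
    have hm1 := hunit _ (card_ne_zero_of_coprime hp hc1)
    have hc' : Nat.Coprime m (Nat.card (ResField K) ^ 2 - 1) := by
      rw [hcard, ← pow_mul, Nat.mul_comm f0 2]; exact Nat.Coprime.coprime_mul_left_right hc2
    have hodd : Odd m := by
      rw [← Nat.not_even_iff_odd]
      intro hev
      have h2 : 2 ∣ m := hev.two_dvd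
      have h3 : 2 ∣ p * (p ^ f0 - 1) := by
        rcases hp.eq_two_or_odd' with h2p | hodd
        · rw [h2p]; exact Dvd.intro _ rfl
        · have : Odd (p ^ f0) := hodd.pow
          obtain ⟨c, hc⟩ := this
          have : p ^ f0 - 1 = 2 * c := by omega
          rw [this]
          exact Dvd.intro_left (p * c) (by ring)
      have h4 := Nat.dvd_gcd h2 h3
      rw [hc1] at h4
      exact absurd (Nat.dvd_one.mp h4) (by norm_num)
    obtain ⟨j, hj⟩ := hodd
    subst hj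
    exact good_dk (fun x y hxy => norm_dd_eq hm1 hc' hxy)

end Pool.Agent.UBC
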