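import Mathlib
import Pool.Agent.UBC.CardRes
import Pool.Agent.UBC.NumField

set_option autoImplicit false

/-!
# Primes that are primitive roots, and coprimality from a submonoid condition
-/

namespace Pool.Agent.UBC

/-- There are arbitrarily large primes which are primitive roots modulo all prime factors of
`d`. -/
theorem exists_prime_prim {d : ℕ} (hd : 0 < d) (N : ℕ) : ∃ p : ℕ, p.Prime ∧ N < p ∧
    ∀ ℓ : ℕ, ℓ.Prime → ℓ ∣ d → ℓ ≠ p ∧ ∀ f : ℕ, ℓ ∣ p ^ f - 1 → ℓ - 1 ∣ f := by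
  classical
  -- primitive roots
  have hprim : ∀ ℓ : ℕ, ∃ g : ℕ, ℓ.Prime → (∀ f : ℕ, ((g : ZMod ℓ)) ^ f = 1 → ℓ - 1 ∣ f) ∧
      ((g : ZMod ℓ)) ≠ 0 := by
    intro ℓ
    by_cases hℓ : ℓ.Prime
    · have : Fact ℓ.Prime := ⟨hℓ⟩
      obtain ⟨g, hg⟩ := IsCyclic.exists_generator (α := (ZMod ℓ)ˣ)
      refine ⟨(g : ZMod ℓ).val, fun _ => ?_⟩
      have e : (((g : ZMod ℓ).val : ℕ) : ZMod ℓ) = (g : ZMod ℓ) := ZMod.natCast_zmod_val _
      constructor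
      · intro f h
        rw [e] at h
        have h1 : g ^ f = 1 := by
          apply Units.ext
          simpa using h
        have h2 : orderOf g = ℓ - 1 := by
          rw [orderOf_eq_card_of_forall_mem_zpowers hg, Nat.card_eq_fintype_card,
            ZMod.card_units_eq_totient, Nat.totient_prime hℓ]
        have h3 := orderOf_dvd_of_pow_eq_one h1
        rwa [h2] at h3
      · rw [e]; exact Units.ne_zero g
    · exact ⟨0, fun h => absurd h hℓ⟩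
  choose g hg using hprim
  set S := d.primeFactors with hS
  have hSp : ∀ ℓ ∈ S, ℓ.Prime := fun ℓ h => Nat.prime_of_mem_primeFactors h
  obtain ⟨a, ha⟩ := Nat.chineseRemainderOfFinset g id S
    (fun ℓ hℓ => (hSp ℓ hℓ).ne_zero)
    (fun i hi j hj hij => (Nat.coprime_primes (hSp i hi) (hSp j hj)).mpr hij)
  have hcop : Nat.Coprime a (∏ ℓ ∈ S, ℓ) := by
    apply Nat.Coprime.prod_right
    intro ℓ hℓ
    have hp := hSp ℓ hℓ
    rw [Nat.coprime_comm, Nat.Prime.coprime_iff_not_dvd hp]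
    intro hdvd
    have h1 := ha ℓ hℓ
    have h2 : ((a : ℕ) : ZMod ℓ) = ((g ℓ : ℕ) : ZMod ℓ) :=
      (ZMod.natCast_eq_natCast_iff _ _ _).mpr h1
    have h3 : ((a : ℕ) : ZMod ℓ) = 0 := (ZMod.natCast_eq_zero_iff a ℓ).mpr hdvd
    exact (hg ℓ hp).2 (by rw [← h2, h3])
  set n := ∏ ℓ ∈ S, ℓ with hn
  have hn0 : n ≠ 0 := Finset.prod_ne_zero_iff.mpr (fun ℓ hℓ => (hSp ℓ hℓ).ne_zero)
  have : NeZero n := ⟨hn0⟩
  have hunit : IsUnit ((a : ℕ) : ZMod n) := (ZMod.isUnit_iff_coprime a n).mpr hcop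
  obtain ⟨p, hpd, hp, hpa⟩ := Nat.forall_exists_prime_gt_and_eq_mod hunit (max d N)
  refine ⟨p, hp, lt_of_le_of_lt (le_max_right _ _) hpd, ?_⟩
  intro ℓ hℓ hℓd
  have hℓS : ℓ ∈ S := by
    rw [hS, Nat.mem_primeFactors]; exact ⟨hℓ, hℓd, hd.ne'⟩
  refine ⟨?_, ?_⟩
  · have h1 := Nat.le_of_dvd hd hℓd
    have h2 := lt_of_le_of_lt (le_max_left d N) hpd
    omega
  · intro f hdiv
    have hℓn : ℓ ∣ n := Finset.dvd_prod_of_mem _ hℓS
    have h1 : ((p : ℕ) : ZMod ℓ) = ((a : ℕ) : ZMod ℓ) := by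
      rw [ZMod.natCast_eq_natCast_iff]
      have : p ≡ a [MOD n] := (ZMod.natCast_eq_natCast_iff _ _ _).mp hpa
      exact this.of_dvd hℓn
    have h2 : ((a : ℕ) : ZMod ℓ) = ((g ℓ : ℕ) : ZMod ℓ) :=
      (ZMod.natCast_eq_natCast_iff _ _ _).mpr (ha ℓ hℓS)
    apply (hg ℓ hℓ).1 f
    rw [← h2, ← h1]
    have h3 : ((p ^ f - 1 : ℕ) : ZMod ℓ) = 0 := (ZMod.natCast_eq_zero_iff _ _).mpr hdiv
    have h4 : 1 ≤ p ^ f := Nat.one_le_pow _ _ hp.pos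
    rw [Nat.cast_sub h4] at h3
    push_cast at h3
    exact sub_eq_zero.mp h3

/-- The property of the prime `p` with respect to `d` which is used. -/
def Prim (p d : ℕ) : Prop :=
  ∀ ℓ : ℕ, ℓ.Prime → ℓ ∣ d → ℓ ≠ p ∧ ∀ f : ℕ, ℓ ∣ p ^ f - 1 → ℓ - 1 ∣ f

theorem Prim.coprime_power {p d : ℕ} (hp : p.Prime) (h : Prim p d) {A : AddSubmonoid ℕ} {f : ℕ}
    (hf : f ∉ A) {m : ℕ} (hm : m ∣ d) (hA : ∀ ℓ : ℕ, ℓ.Prime → ℓ ∣ m → ℓ - 1 ∈ A) :
    Nat.Coprime m (p * (p ^ f - 1)) := by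
  by_contra hcon
  obtain ⟨ℓ, hℓ, hℓm, hℓp⟩ := Nat.Prime.not_coprime_iff_dvd.mp hcon
  obtain ⟨h1, h2⟩ := h ℓ hℓ (hℓm.trans hm)
  rcases (Nat.Prime.dvd_mul hℓ).mp hℓp with h3 | h3
  · exact h1 ((Nat.prime_dvd_prime_iff_eq hℓ hp).mp h3)
  · obtain ⟨k, hk⟩ := h2 f h3
    apply hf
    rw [hk, Nat.mul_comm, ← smul_eq_mul]
    exact AddSubmonoid.nsmul_mem A (hA ℓ hℓ hℓm) k

theorem Prim.coprime_dickson {p d : ℕ} (hp : p.Prime) (h : Prim p d) {A : AddSubmonoid ℕ} {f : ℕ}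
    (hf : f ∉ A) {m : ℕ} (hm : m ∣ d)
    (hA : ∀ ℓ : ℕ, ℓ.Prime → ℓ ∣ m → ℓ ≠ 2 ∧ (ℓ - 1) / 2 ∈ A) :
    Nat.Coprime m (p * (p ^ (2 * f) - 1)) := by
  by_contra hcon
  obtain ⟨ℓ, hℓ, hℓm, hℓp⟩ := Nat.Prime.not_coprime_iff_dvd.mp hcon
  obtain ⟨h1, h2⟩ := h ℓ hℓ (hℓm.trans hm)
  rcases (Nat.Prime.dvd_mul hℓ).mp hℓp with h3 | h3
  · exact h1 ((Nat.prime_dvd_prime_iff_eq hℓ hp).mp h3)
  · obtain ⟨k, hk⟩ := h2 _ h3
    obtain ⟨h4, h5⟩ := hA ℓ hℓ hℓm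
    have hodd : Odd ℓ := hℓ.odd_of_ne_two h4
    obtain ⟨c, hc⟩ := hodd
    have h6 : (ℓ - 1) / 2 = c := by omega
    rw [h6] at h5
    have h7 : ℓ - 1 = 2 * c := by omega
    rw [h7, Nat.mul_assoc] at hk
    have h8 : f = k * c := by
      have := Nat.eq_of_mul_eq_mul_left (by norm_num : 0 < 2) hk
      rw [this]; ring
    apply hf
    rw [h8, ← smul_eq_mul]
    exact AddSubmonoid.nsmul_mem A h5 k

/-- The embedding of `K` with residue degree outside `A`. -/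
theorem exists_place {p : ℕ} [Fact p.Prime] (K : Type) [Field K] [NumberField K]
    (A : AddSubmonoid ℕ) (hA : Module.finrank ℚ K ∉ A) :
    ∃ σ : K →+* PadicAlgCl p, ∃ f : ℕ, f ∉ A ∧ ∃ P : Ideal (NumberField.RingOfIntegers K),
      P ≠ ⊥ ∧ P.IsMaximal ∧ Nat.card (NumberField.RingOfIntegers K ⧸ P) = p ^ f ∧
      ∀ x : NumberField.RingOfIntegers K, ‖σ (x : K)‖ < 1 ↔ x ∈ P := by
  obtain ⟨P, hPm, hPl, f, hcard, hf⟩ := exists_prime_inertia K (Fact.out : p.Prime) A hA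
  obtain ⟨σ, hσ⟩ := exists_embedding (p := p) K P hPm hPl
  refine ⟨σ, f, hf, P, ?_, hPm, hcard, hσ⟩
  intro h
  have h1 : (Ideal.span {(p : ℤ)} : Ideal ℤ) = P.under ℤ := hPl.over
  rw [h] at h1
  have h2 : (⊥ : Ideal (NumberField.RingOfIntegers K)).under ℤ = ⊥ := Ideal.under_bot _ _
  rw [h2, Ideal.span_singleton_eq_bot] at h1
  exact (Fact.out : p.Prime).ne_zero (by exact_mod_cast h1)

theorem exists_place_card {p : ℕ} [Fact p.Prime] (K : Type) [Field K] [NumberField K]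
    (A : AddSubmonoid ℕ) (hA : Module.finrank ℚ K ∉ A) :
    ∃ σ : K →+* PadicAlgCl p, ∃ f : ℕ, f ∉ A ∧
      letI _nf : NormedField K := NormedField.induced K (PadicAlgCl p) σ σ.injective
      ∀ (_ : IsUltrametricDist K), Nat.card (ResField K) = p ^ f := by
  obtain ⟨σ, f, hf, P, hP0, hPm, hcard, hσ⟩ := exists_place (p := p) K A hA
  refine ⟨σ, f, hf, ?_⟩
  let nf : NormedField K := NormedField.induced K (PadicAlgCl p) σ σ.injective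
  intro hult
  rw [← hcard]
  exact card_resField P hP0 hPm (fun x => norm_integral_le_one σ x) (fun x => hσ x)

end Pool.Agent.UBC
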