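import Mathlib
import Pool.Agent.UBC.Choice

set_option autoImplicit false

/-!
# The class of good maps of a number field whose degree is not in a submonoid `A`
-/

namespace Pool.Agent.UBC

theorem exists_classA {p : ℕ} (hp : p.Prime) (D d : ℕ) (hprim : Prim p d)
    (K : Type) [Field K] [NumberField K] (hD : Module.finrank ℚ K ≤ D) (A : AddSubmonoid ℕ)
    (hA : Module.finrank ℚ K ∉ A) :
    ∃ G : Set (K → K), id ∈ G ∧ (∀ f ∈ G, ∀ g ∈ G, f ∘ g ∈ G) ∧
      (∀ f ∈ G, ∀ t : K, ∀ a b : ℕ, a < b → f^[b] t = f^[a] t →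
        f^[(p ^ (2 * D)).factorial * (p ^ (2 * D)).factorial] t = t) ∧
      (∀ α c : K, α ≠ 0 → (fun x => α * x + c) ∈ G) ∧
      (∀ m : ℕ, 1 ≤ m → m ∣ d → (∀ ℓ : ℕ, ℓ.Prime → ℓ ∣ m → ℓ - 1 ∈ A) →
        (fun x => x ^ m) ∈ G) ∧
      (∀ m : ℕ, 1 ≤ m → m ∣ d → (∀ ℓ : ℕ, ℓ.Prime → ℓ ∣ m → ℓ ≠ 2 ∧ (ℓ - 1) / 2 ∈ A) →
        ∀ h : K, (fun x => dk h m x) ∈ G) := by
  classical
  have : Fact p.Prime := ⟨hp⟩
  obtain ⟨σ, f0, hf0, hcard'⟩ := exists_place_card (p := p) K A hA
  letI nf : NormedField K := NormedField.induced K (PadicAlgCl p) σ σ.injective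
  have hnorm : ∀ x : K, ‖x‖ = ‖σ x‖ := fun x => rfl
  have hult : IsUltrametricDist K := by
    apply IsUltrametricDist.isUltrametricDist_of_forall_norm_add_le_max_norm
    intro x y
    rw [hnorm, hnorm, hnorm, map_add]
    exact IsUltrametricDist.norm_add_le_max _ _
  have hcard : Nat.card (ResField K) = p ^ f0 := hcard' hult
  have hpn : ‖(p : K)‖ < 1 := by
    rw [hnorm]
    exact norm_p_lt_one' σ
  have hQ := fewClasses (K := K) hp hpn hD
  have hε0 : 0 ≤ ‖(p : K)‖ ^ 2 := by positivity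
  have hε1 : ‖(p : K)‖ ^ 2 < 1 := by nlinarith [norm_nonneg (p : K)]
  have hfin : Finite (ResField K) := by
    apply Nat.finite_of_card_ne_zero
    rw [hcard]
    exact pow_ne_zero _ hp.ne_zero
  have hunit : ∀ m : ℕ, ¬ p ∣ m → ‖(m : K)‖ = 1 := by
    intro m hm
    have := norm_int_eq_one (K := K) hp hpn (a := (m : ℤ)) (fun h => hm (by exact_mod_cast h))
    simpa using this
  refine ⟨{f | Good f}, good_id, fun f hf g hg => Good.comp hf hg, ?_, ?_, ?_, ?_⟩
  · intro f hf t a b hab h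
    exact Good.preperiodic hf hε0 hε1 hQ (fun ℓ hℓ => prime_gt hp hpn hℓ) hab h
  · intro α c hα
    exact good_affine hα
  · intro m hm hmd hmA
    have hc := hprim.coprime_power hp hf0 hmd hmA
    obtain ⟨k, rfl⟩ : ∃ k, m = k + 1 := ⟨m - 1, by omega⟩
    have hm1 := hunit _ (card_ne_zero_of_coprime hp hc)
    have hc' : Nat.Coprime (k + 1) (Nat.card (ResField K) - 1) := by
      rw [hcard]; exact Nat.Coprime.coprime_mul_left_right hc
    have hgood : Good (fun x : K => dk (0 : K) (k + 1) x) := by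
      apply good_dk
      intro x y hxy
      exact norm_dd_zero_param (fun ρ hρ => norm_pow_sub_one (p := p) hm1 hc' hρ) hxy
    have e : (fun x : K => x ^ (k + 1)) = (fun x : K => dk (0 : K) (k + 1) x) := by
      funext x; rw [dk_zero_param]
    rw [e]
    exact hgood
  · intro m hm hmd hmA h
    have hc2 := hprim.coprime_dickson hp hf0 hmd hmA
    have hm1 := hunit _ (card_ne_zero_of_coprime hp hc2)
    have hc' : Nat.Coprime m (Nat.card (ResField K) ^ 2 - 1) := by
      rw [hcard, ← pow_mul, Nat.mul_comm f0 2]; exact Nat.Coprime.coprime_mul_left_right hc2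
    have hodd : Odd m := by
      rw [← Nat.not_even_iff_odd]
      intro hev
      exact (hmA 2 Nat.prime_two hev.two_dvd).1 rfl
    obtain ⟨j, hj⟩ := hodd
    subst hj
    exact good_dk (fun x y hxy => norm_dd_eq hm1 hc' hxy)

end Pool.Agent.UBC
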