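import Pool.Agent.UBC.Defs2

/-!
# Local analysis for `d = 5`: arbitrary places, with a constant
-/

set_option autoImplicit false

namespace UBC

namespace Close2AnyAux

/-- the elementary inequality behind all cases -/
theorem aux {a K C ε X ρ B : ℝ} (ha : 0 < a) (hK : 1 ≤ K) (hC : 0 < C) (hε : 0 < ε)
    (hX : a / ε - K ≤ X) (hρ : ρ ≤ C / ε) (hB : 2 * C * K / a ≤ B) (hB1 : 1 ≤ B) :
    max ρ 1 ≤ B * max X 1 := by
  have hB0 : 0 < B := by linarith
  have h1 : 1 ≤ max X 1 := le_max_right _ _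
  refine max_le ?_ (by nlinarith)
  rcases le_or_gt (2 * K) (a / ε) with h | h
  · have h2 : a / (2 * ε) ≤ X := by
      have : a / (2 * ε) = a / ε / 2 := by rw [div_div, mul_comm]
      rw [this]; linarith
    have h3 : a / (2 * ε) ≤ max X 1 := h2.trans (le_max_left _ _)
    have h4 : C / ε ≤ 2 * C * K / a * (a / (2 * ε)) := by
      have : 2 * C * K / a * (a / (2 * ε)) = K * (C / ε) := by
        field_simp
      rw [this]
      have : 0 < C / ε := by positivity
      nlinarith
    calc ρ ≤ C / ε := hρ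
      _ ≤ 2 * C * K / a * (a / (2 * ε)) := h4
      _ ≤ B * max X 1 := mul_le_mul hB h3 (by positivity) hB0.le
  · have h2 : C / ε ≤ 2 * C * K / a := by
      rw [le_div_iff₀ ha]
      have : C / ε * a = C * (a / ε) := by ring
      rw [this]
      nlinarith
    calc ρ ≤ C / ε := hρ
      _ ≤ 2 * C * K / a := h2
      _ ≤ B := hB
      _ ≤ B * max X 1 := le_mul_of_one_le_right hB0.le h1

/-- a positive lower bound for finitely many positive numbers -/
theorem exists_lower {ι : Type*} [Finite ι] (f : ι → ℝ) (hf : ∀ i, 0 < f i) :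
    ∃ δ : ℝ, 0 < δ ∧ ∀ i, δ ≤ f i := by
  rcases isEmpty_or_nonempty ι with h | h
  · exact ⟨1, one_pos, fun i => (h.false i).elim⟩
  · obtain ⟨i0, hi0⟩ := Finite.exists_min f
    exact ⟨f i0, hf i0, hi0⟩

/-- separation of the four points -/
theorem exists_sep {L : Type*} [Field L] (v : AbsoluteValue L ℝ) {r : Fin 3 → L}
    (hr : Function.Injective r) {s₁ : L} (hsr : ∀ j, s₁ ≠ r j) :
    ∃ δ : ℝ, 0 < δ ∧ (∀ i j, i ≠ j → 2 * δ ≤ v (r i - r j)) ∧ ∀ j, 2 * δ ≤ v (s₁ - r j) := by
  obtain ⟨δ₁, h1, h1'⟩ := exists_lower (ι := {p : Fin 3 × Fin 3 // p.1 ≠ p.2})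
    (fun p => v (r p.1.1 - r p.1.2)) (fun p => v.pos (sub_ne_zero.2 (fun h => p.2 (hr h))))
  obtain ⟨δ₂, h2, h2'⟩ := exists_lower (ι := Fin 3)
    (fun j => v (s₁ - r j)) (fun j => v.pos (sub_ne_zero.2 (hsr j)))
  have hm : 0 < min δ₁ δ₂ := lt_min h1 h2
  refine ⟨min δ₁ δ₂ / 2, by positivity, fun i j hij => ?_, fun j => ?_⟩
  · have := h1' ⟨(i, j), hij⟩
    have h3 := min_le_left δ₁ δ₂
    simp only at this
    linarith
  · have := h2' j
    have h3 := min_le_right δ₁ δ₂
    linarith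

theorem sub_lower {L : Type*} [Field L] (v : AbsoluteValue L ℝ) (x y : L) :
    v x - v y ≤ v (x - y) := by
  have := v.sub_le x y 0
  have h2 : v x ≤ v (x - y) + v y := by
    have h3 := v.add_le (x - y) y
    rwa [sub_add_cancel] at h3
  linarith

theorem three {L : Type*} [Field L] (v : AbsoluteValue L ℝ) (a b c d e : L) :
    v (a + b + c - d - e) ≤ v a + v b + v c + v d + v e := by
  have h1 := v.add_le (a + b) c
  have h2 := v.add_le a b
  have h3 := v.add_le (a + b + c - d) (-e)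
  have h4 := v.add_le (a + b + c) (-d)
  rw [v.map_neg, ← sub_eq_add_neg] at h3
  rw [v.map_neg, ← sub_eq_add_neg] at h4
  linarith

theorem lower_sq {L : Type*} [Field L] (v : AbsoluteValue L ℝ) {z u x : L} (hx : x = z + u)
    {q K : ℝ} (hz : q ≤ v z) (hu : v u ≤ K) : q - K ≤ v x := by
  have h := sub_lower v z (-u)
  rw [sub_neg_eq_add, v.map_neg, ← hx] at h
  linarith

end Close2AnyAux

open Close2AnyAux

variable {L : Type*} [Field L] [CharZero L]

/-- V12b.  The same as V12a with a constant. -/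
theorem close2_any (v : AbsoluteValue L ℝ) {r : Fin 3 → L} (hr : Function.Injective r)
    {s₁ y₁ : L} (hsr : ∀ j, s₁ ≠ r j) (hy₁ : y₁ ^ 2 = (s₁ - r 0) * (s₁ - r 1) * (s₁ - r 2)) :
    ∃ B : ℝ, 1 ≤ B ∧ ∀ s y : L, y ^ 2 = (s - r 0) * (s - r 1) * (s - r 2) → (∀ j, s ≠ r j) →
      s ≠ s₁ →
    max (v (s ^ 5 / ((s - s₁) * ((s - r 0) * (s - r 1) * (s - r 2))))) 1 ≤ B * max (v s) 1 ∨
    (∃ j, max (v (s ^ 5 / ((s - s₁) * ((s - r 0) * (s - r 1) * (s - r 2))))) 1 ≤
      B * max (v ((y / (s - r j)) ^ 2 + (r 0 + r 1 + r 2) - s - r j)) 1) ∨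
    max (v (s ^ 5 / ((s - s₁) * ((s - r 0) * (s - r 1) * (s - r 2))))) 1 ≤
      B * max (v (((y + y₁) / (s - s₁)) ^ 2 + (r 0 + r 1 + r 2) - s - s₁)) 1 ∨
    max (v (s ^ 5 / ((s - s₁) * ((s - r 0) * (s - r 1) * (s - r 2))))) 1 ≤
      B * max (v (((y - y₁) / (s - s₁)) ^ 2 + (r 0 + r 1 + r 2) - s - s₁)) 1 := by
  obtain ⟨δ, hδ, hrr, hs₁⟩ := exists_sep v hr hsr
  obtain ⟨M, hM⟩ : ∃ M, M = 1 + v (r 0) + v (r 1) + v (r 2) + v s₁ := ⟨_, rfl⟩
  have hM1 : 1 ≤ M := by
    have h0 := v.nonneg (r 0)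
    have h1 := v.nonneg (r 1)
    have h2 := v.nonneg (r 2)
    have h3 := v.nonneg s₁
    linarith
  have hMr : ∀ j, v (r j) ≤ M := by
    have h0 := v.nonneg (r 0)
    have h1 := v.nonneg (r 1)
    have h2 := v.nonneg (r 2)
    have h3 := v.nonneg s₁
    intro j
    fin_cases j
    · show v (r 0) ≤ M
      linarith
    · show v (r 1) ≤ M
      linarith
    · show v (r 2) ≤ M
      linarith
  have hMs : v s₁ ≤ M := by
    have h0 := v.nonneg (r 0)
    have h1 := v.nonneg (r 1)
    have h2 := v.nonneg (r 2)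
    linarith
  have hMsum : v (r 0) + v (r 1) + v (r 2) ≤ M := by
    have h3 := v.nonneg s₁
    linarith
  have hy₁0 : y₁ ≠ 0 := by
    intro h
    rw [h] at hy₁
    have : (s₁ - r 0) * (s₁ - r 1) * (s₁ - r 2) ≠ 0 :=
      mul_ne_zero (mul_ne_zero (sub_ne_zero.2 (hsr 0)) (sub_ne_zero.2 (hsr 1)))
        (sub_ne_zero.2 (hsr 2))
    apply this
    rw [← hy₁]
    ring
  have hb0 : 0 < v (2 * y₁) := v.pos (mul_ne_zero two_ne_zero hy₁0)
  obtain ⟨b, hb⟩ : ∃ b, b = v (2 * y₁) / 2 := ⟨_, rfl⟩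
  have hbp : 0 < b := by rw [hb]; positivity
  obtain ⟨R, hR⟩ : ∃ R, R = 2 * M := ⟨_, rfl⟩
  have hR1 : 1 ≤ R := by linarith
  have hR0 : 0 < R := by linarith
  obtain ⟨C, hC⟩ : ∃ C, C = R ^ 5 / δ ^ 3 := ⟨_, rfl⟩
  have hC0 : 0 < C := by rw [hC]; positivity
  obtain ⟨K, hK⟩ : ∃ K, K = 2 * R := ⟨_, rfl⟩
  have hK1 : 1 ≤ K := by linarith
  have hK0 : 0 < K := by linarith
  have t1 : 0 < R ^ 5 / δ ^ 4 := by positivity
  have t2 : 0 < 2 * C * K / δ ^ 2 := by positivity
  have t3 : 0 < 2 * C * K / (b ^ 2 / δ) := by positivity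
  obtain ⟨B, hB⟩ : ∃ B, B = 16 + R ^ 5 / δ ^ 4 + 2 * C * K / δ ^ 2 + 2 * C * K / (b ^ 2 / δ) :=
    ⟨_, rfl⟩
  have hB1 : 1 ≤ B := by linarith
  have hB0 : 0 ≤ B := by linarith
  have hB16 : 16 ≤ B := by linarith
  have hBa : R ^ 5 / δ ^ 4 ≤ B := by linarith
  have hBb : 2 * C * K / δ ^ 2 ≤ B := by linarith
  have hBc : 2 * C * K / (b ^ 2 / δ) ≤ B := by linarith
  refine ⟨B, hB1, fun s y hy hs hss => ?_⟩
  have hd : ∀ j, 0 < v (s - r j) := fun j => v.pos (sub_ne_zero.2 (hs j))
  have he : 0 < v (s - s₁) := v.pos (sub_ne_zero.2 hss)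
  have hρ : v (s ^ 5 / ((s - s₁) * ((s - r 0) * (s - r 1) * (s - r 2)))) =
      v s ^ 5 / (v (s - s₁) * (v (s - r 0) * v (s - r 1) * v (s - r 2))) := by
    simp only [map_div₀, map_mul, map_pow]
  have hvy : v y ^ 2 = v (s - r 0) * v (s - r 1) * v (s - r 2) := by
    rw [← map_pow, hy, map_mul, map_mul]
  have hvs : 0 ≤ v s := v.nonneg s
  have hd0 := hd 0
  have hd1 := hd 1
  have hd2 := hd 2
  rcases le_or_gt R (v s) with hRs | hRs
  · -- large `s`
    left
    have hge : ∀ c : L, v c ≤ M → v s / 2 ≤ v (s - c) := by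
      intro c hc
      have := sub_lower v s c
      linarith
    have h0 := hge _ (hMr 0)
    have h1 := hge _ (hMr 1)
    have h2 := hge _ (hMr 2)
    have h3 := hge _ hMs
    have hs0 : 0 < v s := by linarith
    have hh : 0 < v s / 2 := by linarith
    have hprod : (v s / 2) * ((v s / 2) * (v s / 2) * (v s / 2)) ≤
        v (s - s₁) * (v (s - r 0) * v (s - r 1) * v (s - r 2)) := by
      gcongr
    have hρ2 : v s ^ 5 / (v (s - s₁) * (v (s - r 0) * v (s - r 1) * v (s - r 2))) ≤ 16 * v s := by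
      rw [div_le_iff₀ (by positivity)]
      calc v s ^ 5 = 16 * v s * ((v s / 2) * ((v s / 2) * (v s / 2) * (v s / 2))) := by ring
        _ ≤ _ := by gcongr
    rw [hρ]
    refine max_le ?_ ?_
    · calc _ ≤ 16 * v s := hρ2
        _ ≤ B * max (v s) 1 := by
          have := le_max_left (v s) 1
          gcongr
    · have := le_max_right (v s) 1
      nlinarith
  · -- bounded `s`
    have hs5 : v s ^ 5 ≤ R ^ 5 := by gcongr
    by_cases hj : ∃ j, v (s - r j) < δ
    · -- close to `r j`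
      obtain ⟨j, hj⟩ := hj
      right; left
      refine ⟨j, ?_⟩
      have hk : ∀ k, k ≠ j → δ ≤ v (s - r k) := by
        intro k hk
        have h1 := hrr j k (Ne.symm hk)
        have h2 : r j - r k = (s - r k) - (s - r j) := by ring
        have h3 := v.add_le (s - r k) (-(s - r j))
        rw [v.map_neg, ← sub_eq_add_neg, ← h2] at h3
        linarith
      have hes : δ ≤ v (s - s₁) := by
        have h1 := hs₁ j
        have h2 : s₁ - r j = (s - r j) - (s - s₁) := by ring
        have h3 := v.add_le (s - r j) (-(s - s₁))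
        rw [v.map_neg, ← sub_eq_add_neg, ← h2] at h3
        linarith
      have hP : δ ^ 2 * v (s - r j) ≤ v (s - r 0) * v (s - r 1) * v (s - r 2) := by
        fin_cases j
        · have h1 := hk 1 (by decide)
          have h2 := hk 2 (by decide)
          show δ ^ 2 * v (s - r 0) ≤ v (s - r 0) * v (s - r 1) * v (s - r 2)
          have : δ * δ ≤ v (s - r 1) * v (s - r 2) := by gcongr
          nlinarith
        · have h1 := hk 0 (by decide)
          have h2 := hk 2 (by decide)
          show δ ^ 2 * v (s - r 1) ≤ v (s - r 0) * v (s - r 1) * v (s - r 2)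
          have : δ * δ ≤ v (s - r 0) * v (s - r 2) := by gcongr
          nlinarith
        · have h1 := hk 0 (by decide)
          have h2 := hk 1 (by decide)
          show δ ^ 2 * v (s - r 2) ≤ v (s - r 0) * v (s - r 1) * v (s - r 2)
          have : δ * δ ≤ v (s - r 0) * v (s - r 1) := by gcongr
          nlinarith
      have hdj := hd j
      refine aux (a := δ ^ 2) (K := K) (C := C) (ε := v (s - r j)) (by positivity) hK1 hC0 hdj
        ?_ ?_ hBb hB1
      · refine lower_sq v (z := (y / (s - r j)) ^ 2) (u := r 0 + r 1 + r 2 - s - r j) (by ring) ?_ ?_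
        · rw [map_pow, map_div₀, div_pow, hvy, div_le_div_iff₀ hdj (by positivity)]
          calc δ ^ 2 * v (s - r j) ^ 2 = δ ^ 2 * v (s - r j) * v (s - r j) := by ring
            _ ≤ _ := by gcongr
        · have := three v (r 0) (r 1) (r 2) s (r j)
          have h2 := hMr j
          linarith
      · rw [hρ, hC, div_div]
        have : δ ^ 3 * v (s - r j) ≤ v (s - s₁) * (v (s - r 0) * v (s - r 1) * v (s - r 2)) := by
          calc δ ^ 3 * v (s - r j) = δ * (δ ^ 2 * v (s - r j)) := by ring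
            _ ≤ _ := by gcongr
        gcongr
    · push Not at hj
      rcases le_or_gt δ (v (s - s₁)) with hes | hes
      · -- far from all the points
        left
        have h0 := hj 0
        have h1 := hj 1
        have h2 := hj 2
        have hprod : δ ^ 4 ≤ v (s - s₁) * (v (s - r 0) * v (s - r 1) * v (s - r 2)) := by
          calc δ ^ 4 = δ * (δ * δ * δ) := by ring
            _ ≤ _ := by gcongr
        have hρ2 : v s ^ 5 / (v (s - s₁) * (v (s - r 0) * v (s - r 1) * v (s - r 2))) ≤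
            R ^ 5 / δ ^ 4 := by gcongr
        rw [hρ]
        have h3 := le_max_right (v s) 1
        refine max_le ?_ (by nlinarith)
        calc _ ≤ R ^ 5 / δ ^ 4 := hρ2
          _ ≤ B := hBa
          _ ≤ B * max (v s) 1 := le_mul_of_one_le_right hB0 h3
      · -- close to `s₁`
        right; right
        have h0 := hj 0
        have h1 := hj 1
        have h2 := hj 2
        have hρ2 : v (s ^ 5 / ((s - s₁) * ((s - r 0) * (s - r 1) * (s - r 2)))) ≤
            C / v (s - s₁) := by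
          rw [hρ, hC, div_div]
          have : δ ^ 3 * v (s - s₁) ≤
              v (s - s₁) * (v (s - r 0) * v (s - r 1) * v (s - r 2)) := by
            calc δ ^ 3 * v (s - s₁) = v (s - s₁) * (δ * δ * δ) := by ring
              _ ≤ _ := by gcongr
          gcongr
        have key : ∀ w : L, b ≤ v w →
            max (v (s ^ 5 / ((s - s₁) * ((s - r 0) * (s - r 1) * (s - r 2))))) 1 ≤
              B * max (v ((w / (s - s₁)) ^ 2 + (r 0 + r 1 + r 2) - s - s₁)) 1 := by
          intro w hw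
          refine aux (a := b ^ 2 / δ) (K := K) (C := C) (ε := v (s - s₁)) (by positivity) hK1 hC0
            he ?_ hρ2 hBc hB1
          refine lower_sq v (z := (w / (s - s₁)) ^ 2) (u := r 0 + r 1 + r 2 - s - s₁) (by ring)
            ?_ ?_
          · rw [map_pow, map_div₀, div_pow, div_div]
            have h3 : v (s - s₁) ^ 2 ≤ δ * v (s - s₁) := by nlinarith
            have h4 : b ^ 2 ≤ v w ^ 2 := by gcongr
            gcongr
          · have := three v (r 0) (r 1) (r 2) s s₁
            linarith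
        have hsum : 2 * b ≤ v (y + y₁) + v (y - y₁) := by
          have h3 : 2 * y₁ = (y + y₁) - (y - y₁) := by ring
          have h4 := v.add_le (y + y₁) (-(y - y₁))
          rw [v.map_neg, ← sub_eq_add_neg, ← h3] at h4
          rw [hb]
          linarith
        rcases le_or_gt b (v (y + y₁)) with h3 | h3
        · exact Or.inl (key _ h3)
        · exact Or.inr (key _ (by linarith))

end UBC
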