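import Pool.Agent.UBC.Close2Loc
import Pool.Agent.UBC.Close2Any
import Pool.Agent.UBC.DiffSq
import Pool.Agent.UBC.LocGlob

/-!
# Points of `Y ^ 2 = ∏ (X - r j)` close to six fixed points
-/

set_option autoImplicit false

namespace UBC

open Height AdmissibleAbsValues WeierstrassCurve.Affine

namespace Close2Aux

theorem fin_ne {L : Type*} [Field L] [AdmissibleAbsValues L] {x : L} (hx : x ≠ 0) :
    {v : AbsoluteValue L ℝ | v ∈ nonarchAbsVal (K := L) ∧ v x ≠ 1}.Finite := by
  have h := hasFiniteMulSupport hx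
  have h2 := Set.Finite.image (fun v : nonarchAbsVal (K := L) => (v : AbsoluteValue L ℝ)) h
  refine h2.subset ?_
  rintro v ⟨hv, hvx⟩
  exact ⟨⟨v, hv⟩, hvx, rfl⟩

theorem fin_gt {L : Type*} [Field L] [AdmissibleAbsValues L] (x : L) :
    {v : AbsoluteValue L ℝ | v ∈ nonarchAbsVal (K := L) ∧ ¬ v x ≤ 1}.Finite := by
  by_cases hx : x = 0
  · refine Set.finite_empty.subset ?_
    rintro v ⟨hv, hvx⟩
    exact hvx (by rw [hx, map_zero]; exact zero_le_one)
  · refine (fin_ne hx).subset ?_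
    rintro v ⟨hv, hvx⟩
    exact ⟨hv, fun h => hvx h.le⟩

theorem nons {L : Type*} [Field L] [CharZero L] {r : Fin 3 → L} (hr : Function.Injective r)
    {x y : L} (h : y ^ 2 = (x - r 0) * (x - r 1) * (x - r 2)) : (EC r).Nonsingular x y := by
  have heq : (EC r).Equation x y := by
    rw [equation_iff]
    simp only [EC]
    linear_combination h
  rw [nonsingular_iff]
  refine ⟨heq, ?_⟩
  by_cases hy : y = 0
  · left
    have h01 : r 0 - r 1 ≠ 0 := sub_ne_zero.mpr fun h => absurd (hr h) (by decide)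
    have h02 : r 0 - r 2 ≠ 0 := sub_ne_zero.mpr fun h => absurd (hr h) (by decide)
    have h12 : r 1 - r 2 ≠ 0 := sub_ne_zero.mpr fun h => absurd (hr h) (by decide)
    rw [hy] at h
    have h0 : (x - r 0) * (x - r 1) * (x - r 2) = 0 := by rw [← h]; ring
    simp only [EC, zero_mul]
    intro h3
    rcases mul_eq_zero.mp h0 with h0 | h0
    · rcases mul_eq_zero.mp h0 with h0 | h0
      · have : (r 0 - r 1) * (r 0 - r 2) = 0 := by
          rw [sub_eq_zero.mp h0] at h3
          linear_combination -h3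
        exact (mul_ne_zero h01 h02) this
      · have : (r 0 - r 1) * (r 1 - r 2) = 0 := by
          rw [sub_eq_zero.mp h0] at h3
          linear_combination h3
        exact (mul_ne_zero h01 h12) this
    · have : (r 0 - r 2) * (r 1 - r 2) = 0 := by
        rw [sub_eq_zero.mp h0] at h3
        linear_combination -h3
      exact (mul_ne_zero h02 h12) this
  · right
    simp only [EC, zero_mul, sub_zero]
    intro h3
    have : 2 * y = 0 := by linear_combination h3
    rcases mul_eq_zero.mp this with h4 | h4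
    · exact two_ne_zero h4
    · exact hy h4

theorem xc_zero {L : Type*} [Field L] {W : WeierstrassCurve.Affine L} {x y : L}
    (h : W.Nonsingular x y) : xc (Point.some x y h : W.Point) = x := by
  simp [xc, Point.xRep_some]

end Close2Aux

open Close2Aux

/-- V12.  `F = {0, (r j, 0), (s₁, y₁), (s₁, -y₁)}`, `Q = (s, y)`; `x`-coordinates of `Q - T` by
`sub_some`. -/
theorem close2 (L : Type*) [Field L] [NumberField L] [DecidableEq L] {r : Fin 3 → L}
    (hr : Function.Injective r) {s₁ y₁ : L} (hsr : ∀ j, s₁ ≠ r j)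
    (hy₁ : y₁ ^ 2 = (s₁ - r 0) * (s₁ - r 1) * (s₁ - r 2)) :
    ∃ (F : Finset (EC r).Point) (B : AbsoluteValue L ℝ → ℝ), Ok L B ∧
      ∀ s y : L, y ^ 2 = (s - r 0) * (s - r 1) * (s - r 2) → (∀ j, s ≠ r j) → s ≠ s₁ →
      ∃ h : (EC r).Nonsingular s y, (Point.some _ _ h : (EC r).Point) ∉ F ∧
        ∀ v, IsPl L v → ∃ T ∈ F,
          max (v (s ^ 5 / ((s - s₁) * ((s - r 0) * (s - r 1) * (s - r 2))))) 1 ≤
          B v * max (v (xc (Point.some _ _ h - T : (EC r).Point))) 1 := by
  classical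
  have hrj : ∀ j, (EC r).Nonsingular (r j) 0 := fun j => nons hr (by fin_cases j <;> simp)
  have h1p : (EC r).Nonsingular s₁ y₁ := nons hr hy₁
  have h1m : (EC r).Nonsingular s₁ (-y₁) := nons hr (by rw [neg_sq]; exact hy₁)
  let F : Finset (EC r).Point := {0, Point.some _ _ h1p, Point.some _ _ h1m} ∪
    Finset.univ.image (fun j => (Point.some _ _ (hrj j) : (EC r).Point))
  let good : AbsoluteValue L ℝ → Prop := fun v => v ∈ nonarchAbsVal (K := L) ∧ v 2 = 1 ∧
    (∀ j, v (r j) ≤ 1) ∧ (∀ i j, i ≠ j → v (r i - r j) = 1) ∧ v s₁ ≤ 1 ∧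
    (∀ j, v (s₁ - r j) = 1)
  let B : AbsoluteValue L ℝ → ℝ := fun v =>
    if good v then 1 else (close2_any v hr hsr hy₁).choose
  refine ⟨F, B, ⟨fun v => ?_, ?_⟩, fun s y hy hs hss => ⟨nons hr hy, ?_, fun v hv => ?_⟩⟩
  · by_cases hg : good v
    · simp [B, hg]
    · simp only [B, hg, if_false]
      exact (close2_any v hr hsr hy₁).choose_spec.1
  · have hsub : {v : AbsoluteValue L ℝ | v ∈ nonarchAbsVal (K := L) ∧ B v ≠ 1} ⊆
        {v : AbsoluteValue L ℝ | v ∈ nonarchAbsVal (K := L) ∧ v 2 ≠ 1} ∪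
        (⋃ j, {v : AbsoluteValue L ℝ | v ∈ nonarchAbsVal (K := L) ∧ ¬ v (r j) ≤ 1}) ∪
        (⋃ i, ⋃ j, ⋃ (_ : i ≠ j),
          {v : AbsoluteValue L ℝ | v ∈ nonarchAbsVal (K := L) ∧ v (r i - r j) ≠ 1}) ∪
        {v : AbsoluteValue L ℝ | v ∈ nonarchAbsVal (K := L) ∧ ¬ v s₁ ≤ 1} ∪
        (⋃ j, {v : AbsoluteValue L ℝ | v ∈ nonarchAbsVal (K := L) ∧ v (s₁ - r j) ≠ 1}) := by
      rintro v ⟨hv, hB⟩
      by_contra hcon
      simp only [Set.mem_union, Set.mem_iUnion, Set.mem_ofPred_eq, not_or, not_exists, not_and,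
        not_not] at hcon
      obtain ⟨⟨⟨⟨c1, c2⟩, c3⟩, c4⟩, c5⟩ := hcon
      refine hB ?_
      have hg : good v := ⟨hv, c1 hv, fun j => c2 j hv, fun i j hij => c3 i j hij hv, c4 hv,
        fun j => c5 j hv⟩
      simp [B, hg]
    refine Set.Finite.subset ?_ hsub
    refine Set.Finite.union (Set.Finite.union (Set.Finite.union (Set.Finite.union ?_ ?_) ?_) ?_) ?_
    · exact fin_ne two_ne_zero
    · exact Set.finite_iUnion fun j => fin_gt _
    · exact Set.finite_iUnion fun i => Set.finite_iUnion fun j => Set.finite_iUnion fun hij =>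
        fin_ne (sub_ne_zero.mpr fun h => hij (hr h))
    · exact fin_gt _
    · exact Set.finite_iUnion fun j => fin_ne (sub_ne_zero.mpr (hsr j))
  · intro hF
    simp only [F, Finset.mem_union, Finset.mem_insert, Finset.mem_singleton, Finset.mem_image,
      Finset.mem_univ, true_and] at hF
    rcases hF with (hF | hF | hF) | ⟨j, hF⟩
    · exact Point.some_ne_zero _ hF
    · exact hss (Point.some.inj hF).1
    · exact hss (Point.some.inj hF).1
    · exact hs j (Point.some.inj hF).1.symm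
  · have hx0 : xc (Point.some _ _ (nons hr hy) - 0 : (EC r).Point) = s := by
      rw [sub_zero, xc_zero]
    have hxj : ∀ j, xc (Point.some _ _ (nons hr hy) - Point.some _ _ (hrj j) : (EC r).Point) =
        (y / (s - r j)) ^ 2 + (r 0 + r 1 + r 2) - s - r j := by
      intro j
      obtain ⟨X, Y, h'', e1, e2, -⟩ := sub_some r (nons hr hy) (hrj j) (hs j)
      rw [e1, xc_zero, e2, add_zero]
    have hxp : xc (Point.some _ _ (nons hr hy) - Point.some _ _ h1p : (EC r).Point) =
        ((y + y₁) / (s - s₁)) ^ 2 + (r 0 + r 1 + r 2) - s - s₁ := by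
      obtain ⟨X, Y, h'', e1, e2, -⟩ := sub_some r (nons hr hy) h1p hss
      rw [e1, xc_zero, e2]
    have hxm : xc (Point.some _ _ (nons hr hy) - Point.some _ _ h1m : (EC r).Point) =
        ((y - y₁) / (s - s₁)) ^ 2 + (r 0 + r 1 + r 2) - s - s₁ := by
      obtain ⟨X, Y, h'', e1, e2, -⟩ := sub_some r (nons hr hy) h1m hss
      rw [e1, xc_zero, e2, ← sub_eq_add_neg]
    have m0 : (0 : (EC r).Point) ∈ F := by simp [F]
    have mp : (Point.some _ _ h1p : (EC r).Point) ∈ F := by simp [F]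
    have mm : (Point.some _ _ h1m : (EC r).Point) ∈ F := by simp [F]
    have mj : ∀ j, (Point.some _ _ (hrj j) : (EC r).Point) ∈ F := fun j => by
      simp only [F, Finset.mem_union, Finset.mem_image, Finset.mem_univ, true_and]
      exact Or.inr ⟨j, rfl⟩
    by_cases hg : good v
    · have hB : B v = 1 := by simp [B, hg]
      obtain ⟨g0, g1, g2, g3, g4, g5⟩ := hg
      rw [hB]
      rcases close2_nonarch v (AdmissibleAbsValues.isNonarchimedean v g0) g1 g2 g3 g4 g5 hy₁ hy hs
        hss with h | ⟨j, h⟩ | h | h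
      · exact ⟨0, m0, by rw [hx0, one_mul]; exact h⟩
      · exact ⟨_, mj j, by rw [hxj, one_mul]; exact h⟩
      · exact ⟨_, mp, by rw [hxp, one_mul]; exact h⟩
      · exact ⟨_, mm, by rw [hxm, one_mul]; exact h⟩
    · have hB : B v = (close2_any v hr hsr hy₁).choose := by simp only [B, hg, if_false]
      rw [hB]
      rcases (close2_any v hr hsr hy₁).choose_spec.2 s y hy hs hss with h | ⟨j, h⟩ | h | h
      · exact ⟨0, m0, by rw [hx0]; exact h⟩
      · exact ⟨_, mj j, by rw [hxj]; exact h⟩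
      · exact ⟨_, mp, by rw [hxp]; exact h⟩
      · exact ⟨_, mm, by rw [hxm]; exact h⟩

end UBC
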