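import Pool.Agent.UBC.Defs2

/-!
# Local analysis for `d = 5`: nonarchimedean places of good type
-/

set_option autoImplicit false

namespace UBC

namespace Close2LocAux

variable {L : Type*} [Field L]

theorem v_add_eq (v : AbsoluteValue L ℝ) (hv : IsNonarchimedean v) {a b : L} (h : v b < v a) :
    v (a + b) = v a := by
  apply le_antisymm
  · exact (hv a b).trans (by rw [max_eq_left h.le])
  · by_contra hlt
    push Not at hlt
    have h1 : v a ≤ max (v (a + b)) (v (-b)) := by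
      have := hv (a + b) (-b)
      rwa [add_neg_cancel_right] at this
    rw [v.map_neg] at h1
    exact absurd h1 (not_le.mpr (max_lt hlt h))

theorem v_sub_le (v : AbsoluteValue L ℝ) (hv : IsNonarchimedean v) {a b : L} {c : ℝ}
    (ha : v a ≤ c) (hb : v b ≤ c) : v (a - b) ≤ c := by
  rw [sub_eq_add_neg]
  refine (hv a (-b)).trans ?_
  rw [v.map_neg]
  exact max_le ha hb

theorem v_add_le (v : AbsoluteValue L ℝ) (hv : IsNonarchimedean v) {a b : L} {c : ℝ}
    (ha : v a ≤ c) (hb : v b ≤ c) : v (a + b) ≤ c :=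
  (hv a b).trans (max_le ha hb)

/-- if `v (s - a) < 1` and `v (a - b) = 1` then `v (s - b) = 1` -/
theorem v_far (v : AbsoluteValue L ℝ) (hv : IsNonarchimedean v) {s a b : L} (h : v (s - a) < 1)
    (hab : v (a - b) = 1) : v (s - b) = 1 := by
  have h1 : s - b = (a - b) + (s - a) := by ring
  rw [h1, v_add_eq v hv (by rw [hab]; exact h), hab]

theorem near_root (v : AbsoluteValue L ℝ) (hv : IsNonarchimedean v) {a b c s y t : L} {ρ : ℝ}
    (hy : y ^ 2 = (s - a) * (s - b) * (s - c)) (ha0 : s ≠ a) (ha : v (s - a) < 1)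
    (hb : v (s - b) = 1) (hc : v (s - c) = 1) (ht : v t ≤ 1) (hρ : ρ ≤ (v (s - a))⁻¹) :
    max ρ 1 ≤ max (v ((y / (s - a)) ^ 2 + t)) 1 := by
  have h0 : 0 < v (s - a) := v.pos (sub_ne_zero.mpr ha0)
  have h1 : v ((y / (s - a)) ^ 2) = (v (s - a))⁻¹ := by
    rw [div_pow, hy, map_div₀, map_mul, map_mul, map_pow, hb, hc, mul_one, mul_one]
    field_simp
  have h2 : 1 < (v (s - a))⁻¹ := (one_lt_inv₀ h0).mpr ha
  have h3 : v ((y / (s - a)) ^ 2 + t) = (v (s - a))⁻¹ := by
    rw [v_add_eq v hv (by rw [h1]; linarith), h1]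
  rw [h3]
  exact max_le_max hρ le_rfl

theorem near_pt (v : AbsoluteValue L ℝ) (hv : IsNonarchimedean v) {s s₁ z t : L} {ρ : ℝ}
    (h0 : s ≠ s₁) (h1 : v (s - s₁) < 1) (hz : v z = 1) (ht : v t ≤ 1)
    (hρ : ρ ≤ (v (s - s₁))⁻¹) : max ρ 1 ≤ max (v ((z / (s - s₁)) ^ 2 + t)) 1 := by
  have hp : 0 < v (s - s₁) := v.pos (sub_ne_zero.mpr h0)
  have h2 : 1 < (v (s - s₁))⁻¹ := (one_lt_inv₀ hp).mpr h1
  have h3 : v ((z / (s - s₁)) ^ 2) = (v (s - s₁))⁻¹ ^ 2 := by
    rw [map_pow, map_div₀, hz, one_div]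
  have h4 : (v (s - s₁))⁻¹ ≤ (v (s - s₁))⁻¹ ^ 2 := by nlinarith
  have h5 : v ((z / (s - s₁)) ^ 2 + t) = (v (s - s₁))⁻¹ ^ 2 := by
    rw [v_add_eq v hv (by rw [h3]; linarith), h3]
  rw [h5]
  exact max_le_max (hρ.trans h4) le_rfl

end Close2LocAux

variable {L : Type*} [Field L]

open Close2LocAux in
/-- V12a.  `y ^ 2 = ∏ (s - r j)`.  If `|s| > 1` use `s`; otherwise `ρ > 1` forces exactly one of
`s - r j`, `s - s₁` to be small (`≤ ρ⁻¹`); in the last case one of `y ± y₁` is a unit. -/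
theorem close2_nonarch (v : AbsoluteValue L ℝ) (hv : IsNonarchimedean v) (h2 : v 2 = 1)
    {r : Fin 3 → L} {s₁ y₁ : L} (hr : ∀ j, v (r j) ≤ 1) (hrr : ∀ i j, i ≠ j → v (r i - r j) = 1)
    (hs₁ : v s₁ ≤ 1) (hsr : ∀ j, v (s₁ - r j) = 1)
    (hy₁ : y₁ ^ 2 = (s₁ - r 0) * (s₁ - r 1) * (s₁ - r 2)) {s y : L}
    (hy : y ^ 2 = (s - r 0) * (s - r 1) * (s - r 2)) (hs : ∀ j, s ≠ r j) (hss : s ≠ s₁) :
    max (v (s ^ 5 / ((s - s₁) * ((s - r 0) * (s - r 1) * (s - r 2))))) 1 ≤ max (v s) 1 ∨
    (∃ j, max (v (s ^ 5 / ((s - s₁) * ((s - r 0) * (s - r 1) * (s - r 2))))) 1 ≤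
      max (v ((y / (s - r j)) ^ 2 + (r 0 + r 1 + r 2) - s - r j)) 1) ∨
    max (v (s ^ 5 / ((s - s₁) * ((s - r 0) * (s - r 1) * (s - r 2))))) 1 ≤
      max (v (((y + y₁) / (s - s₁)) ^ 2 + (r 0 + r 1 + r 2) - s - s₁)) 1 ∨
    max (v (s ^ 5 / ((s - s₁) * ((s - r 0) * (s - r 1) * (s - r 2))))) 1 ≤
      max (v (((y - y₁) / (s - s₁)) ^ 2 + (r 0 + r 1 + r 2) - s - s₁)) 1 := by
  have hP : ∀ j, 0 < v (s - r j) := fun j => v.pos (sub_ne_zero.mpr (hs j))
  have hP1 : 0 < v (s - s₁) := v.pos (sub_ne_zero.mpr hss)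
  have hρ : v (s ^ 5 / ((s - s₁) * ((s - r 0) * (s - r 1) * (s - r 2)))) =
      v s ^ 5 / (v (s - s₁) * (v (s - r 0) * v (s - r 1) * v (s - r 2))) := by
    rw [map_div₀, map_pow, map_mul, map_mul, map_mul]
  rcases lt_or_ge 1 (v s) with h | h
  · -- `s` is large
    left
    have e1 : v (s - s₁) = v s := by
      rw [sub_eq_add_neg]
      exact v_add_eq v hv (by rw [v.map_neg]; linarith)
    have e2 : ∀ j, v (s - r j) = v s := by
      intro j
      rw [sub_eq_add_neg]
      exact v_add_eq v hv (by rw [v.map_neg]; linarith [hr j])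
    have hs0 : v s ≠ 0 := by linarith
    have e3 : v (s ^ 5 / ((s - s₁) * ((s - r 0) * (s - r 1) * (s - r 2)))) = v s := by
      rw [hρ, e1, e2, e2, e2]
      field_simp
    rw [e3]
  · have hs1 : v (s - s₁) ≤ 1 := v_sub_le v hv h hs₁
    have hrj : ∀ j, v (s - r j) ≤ 1 := fun j => v_sub_le v hv h (hr j)
    have hs5 : v s ^ 5 ≤ 1 := pow_le_one₀ (v.nonneg s) h
    have hσ : v (r 0 + r 1 + r 2) ≤ 1 :=
      v_add_le v hv (v_add_le v hv (hr 0) (hr 1)) (hr 2)
    by_cases hnear : v (s - s₁) < 1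
    · -- near the point `s₁`
      have e2 : ∀ j, v (s - r j) = 1 := fun j => v_far v hv hnear (hsr j)
      have hρ1 : v (s ^ 5 / ((s - s₁) * ((s - r 0) * (s - r 1) * (s - r 2)))) ≤
          (v (s - s₁))⁻¹ := by
        rw [hρ, e2, e2, e2, mul_one, mul_one, mul_one, div_eq_mul_inv]
        exact mul_le_of_le_one_left (inv_nonneg.mpr hP1.le) hs5
      have ht : v ((r 0 + r 1 + r 2) - s - s₁) ≤ 1 := v_sub_le v hv (v_sub_le v hv hσ h) hs₁
      have hvy : v y = 1 := by
        have h6 : v y ^ 2 = 1 := by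
          rw [← map_pow, hy, map_mul, map_mul, e2, e2, e2]; norm_num
        have h7 := v.nonneg y
        nlinarith
      have hvy1 : v y₁ = 1 := by
        have h6 : v y₁ ^ 2 = 1 := by
          rw [← map_pow, hy₁, map_mul, map_mul, hsr, hsr, hsr]; norm_num
        have h7 := v.nonneg y₁
        nlinarith
      by_cases hyy : v (y + y₁) = 1
      · right; right; left
        have := near_pt v hv hss hnear hyy ht hρ1
        rwa [← add_sub_assoc, ← add_sub_assoc] at this
      · right; right; right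
        have h8 : v (y + y₁) < 1 := lt_of_le_of_ne (v_add_le v hv hvy.le hvy1.le) hyy
        have h9 : v (y - y₁) = 1 := by
          have h10 : y - y₁ = -(2 * y₁) + (y + y₁) := by ring
          have h11 : v (-(2 * y₁)) = 1 := by rw [v.map_neg, map_mul, h2, hvy1, one_mul]
          rw [h10, v_add_eq v hv (by rw [h11]; exact h8), h11]
        have := near_pt v hv hss hnear h9 ht hρ1
        rwa [← add_sub_assoc, ← add_sub_assoc] at this
    · have e1 : v (s - s₁) = 1 := le_antisymm hs1 (not_lt.mp hnear)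
      by_cases hj : ∃ j, v (s - r j) < 1
      · obtain ⟨j, hj⟩ := hj
        have e2 : ∀ i, j ≠ i → v (s - r i) = 1 := fun i hi => v_far v hv hj (hrr j i hi)
        have ht : v ((r 0 + r 1 + r 2) - s - r j) ≤ 1 :=
          v_sub_le v hv (v_sub_le v hv hσ h) (hr j)
        right; left
        refine ⟨j, ?_⟩
        have hρ1 : v (s ^ 5 / ((s - s₁) * ((s - r 0) * (s - r 1) * (s - r 2)))) ≤
            (v (s - r j))⁻¹ := by
          have e5 : v (s - r 0) * v (s - r 1) * v (s - r 2) = v (s - r j) := by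
            fin_cases j
            · have a1 := e2 1 (by decide)
              have a2 := e2 2 (by decide)
              rw [a1, a2, mul_one, mul_one]; rfl
            · have a1 := e2 0 (by decide)
              have a2 := e2 2 (by decide)
              rw [a1, a2, mul_one, one_mul]; rfl
            · have a1 := e2 0 (by decide)
              have a2 := e2 1 (by decide)
              rw [a1, a2, one_mul, one_mul]; rfl
          rw [hρ, e1, one_mul, e5, div_eq_mul_inv]
          exact mul_le_of_le_one_left (inv_nonneg.mpr (hP j).le) hs5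
        have key : ∀ b c : L, y ^ 2 = (s - r j) * (s - b) * (s - c) → v (s - b) = 1 →
            v (s - c) = 1 →
            max (v (s ^ 5 / ((s - s₁) * ((s - r 0) * (s - r 1) * (s - r 2))))) 1 ≤
              max (v ((y / (s - r j)) ^ 2 + (r 0 + r 1 + r 2) - s - r j)) 1 := by
          intro b c hbc hb hc
          have := near_root v hv hbc (hs j) hj hb hc ht hρ1
          rwa [← add_sub_assoc, ← add_sub_assoc] at this
        fin_cases j
        · exact key (r 1) (r 2) hy (e2 1 (by decide)) (e2 2 (by decide))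
        · exact key (r 0) (r 2) (by rw [hy]; simp only [Fin.mk_one]; ring) (e2 0 (by decide))
            (e2 2 (by decide))
        · exact key (r 0) (r 1) (by rw [hy]; simp only [Fin.reduceFinMk]; ring)
            (e2 0 (by decide)) (e2 1 (by decide))
      · push Not at hj
        have e2 : ∀ j, v (s - r j) = 1 := fun j => le_antisymm (hrj j) (hj j)
        left
        rw [hρ, e1, e2, e2, e2]
        have : v s ^ 5 / (1 * (1 * 1 * 1)) ≤ 1 := by simpa using hs5
        exact (max_le this le_rfl).trans (le_max_right _ _)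

end UBC
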