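import Pool.Agent.UBC.Defs2

/-!
# Local analysis for `d = 4`: arbitrary places, with a constant
-/

set_option autoImplicit false

namespace UBC

variable {L : Type*} [Field L] [CharZero L]

namespace Close3AnyAux

/-- conclusion from an estimate with a smaller constant -/
lemma fin {D E B B' : ℝ} (hB : 1 ≤ B) (hBB : B' ≤ B) (h : D ≤ B' * max E 1 ^ 2) :
    max D 1 ≤ B * max E 1 ^ 2 := by
  have h1 : 1 ≤ max E 1 := le_max_right _ _
  have h2 : 1 ≤ max E 1 ^ 2 := one_le_pow₀ h1
  refine max_le ?_ ?_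
  · exact h.trans (mul_le_mul_of_nonneg_right hBB (by positivity))
  · nlinarith

/-- conclusion from a constant bound -/
lemma fin_const {D E B : ℝ} (hB : 1 ≤ B) (h : D ≤ B) :
    max D 1 ≤ B * max E 1 ^ 2 := by
  have h1 : 1 ≤ max E 1 := le_max_right _ _
  have h2 : 1 ≤ max E 1 ^ 2 := one_le_pow₀ h1
  refine max_le ?_ ?_
  · nlinarith
  · nlinarith

/-- a bound `c ≤ X * E ^ 2` gives `1 / X ≤ (1 / c) * max E 1 ^ 2` -/
lemma inv_le {X E c K : ℝ} (hX : 0 < X) (hc : 0 < c) (hK : 0 ≤ K) (h : c ≤ X * E ^ 2) (hE : 0 ≤ E) :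
    K / X ≤ K / c * max E 1 ^ 2 := by
  have h1 : E ^ 2 ≤ max E 1 ^ 2 := pow_le_pow_left₀ hE (le_max_left _ _) 2
  have h2 : c ≤ X * max E 1 ^ 2 := h.trans (mul_le_mul_of_nonneg_left h1 hX.le)
  rw [div_mul_eq_mul_div, div_le_div_iff₀ hX hc]
  calc K * c ≤ K * (X * max E 1 ^ 2) := mul_le_mul_of_nonneg_left h2 hK
    _ = K * max E 1 ^ 2 * X := by ring

/-- compare cubes -/
lemma cube_le {a b : ℝ} (hb : 0 ≤ b) (h : a ^ 3 ≤ b ^ 3) : a ≤ b :=
  le_of_pow_le_pow_left₀ (by norm_num) hb h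

lemma aux1 {X W : ℝ} (h : 2 ≤ X) (h1 : X ^ 2 - 1 ≤ W) : 3 / 4 * X ^ 2 ≤ W := by nlinarith

lemma aux2 {X w : ℝ} (hX : 0 < X) (hw : 0 < w) :
    (3 / 2 * X) ^ 4 * w ≤ 7 * X * (w * (X * (3 / 4 * X ^ 2))) := by
  have h : 0 < w * X ^ 4 := by positivity
  have e1 : (3 / 2 * X) ^ 4 * w = 81 / 16 * (w * X ^ 4) := by ring
  have e2 : 7 * X * (w * (X * (3 / 4 * X ^ 2))) = 21 / 4 * (w * X ^ 4) := by ring
  rw [e1, e2]
  linarith

lemma aux3 {X : ℝ} (h : 2 ≤ X) : (X / 2) ^ 3 ≤ (X * (X / 2)) ^ 2 := by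
  have h1 : 0 < X ^ 3 := by positivity
  have e1 : (X / 2) ^ 3 = 1 / 8 * X ^ 3 := by ring
  have e2 : (X * (X / 2)) ^ 2 = X / 4 * X ^ 3 := by ring
  rw [e1, e2]
  exact mul_le_mul_of_nonneg_right (by linarith) h1.le

lemma aux4 {X Y : ℝ} (h : X ≤ 1 / 2) (h' : 1 / 2 ≤ Y) : X / 8 ≤ Y ^ 2 := by nlinarith

lemma aux5 {X Y : ℝ} (hX : X ≤ 2) (hY : Y ≤ 3) (hY0 : 0 ≤ Y) : X * Y ≤ 2 ^ 3 := by
  have : X * Y ≤ 2 * 3 := mul_le_mul hX hY hY0 (by norm_num)
  linarith

lemma aux6 {M Z a : ℝ} (hM : 0 ≤ M) (h : (a ^ 2) ^ 2 ≤ Z * 4) : M / 4 * (a ^ 2) ^ 2 ≤ Z * M := by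
  calc M / 4 * (a ^ 2) ^ 2 ≤ M / 4 * (Z * 4) := mul_le_mul_of_nonneg_left h (by positivity)
    _ = Z * M := by ring

omit [CharZero L] in
lemma v_unit (v : AbsoluteValue L ℝ) {I : L} (hI : I ^ 2 = -1) : v I = 1 := by
  have h : v I ^ 2 = 1 := by rw [← map_pow, hI, AbsoluteValue.map_neg, AbsoluteValue.map_one]
  have h0 : 0 ≤ v I := v.nonneg I
  nlinarith [sq_nonneg (v I - 1), sq_nonneg (v I + 1)]

end Close3AnyAux

open Close3AnyAux

/-- V9b.  The same as V9a with a constant.  Small `ρ` is trivial (`B` large).  For `|x| ≥ R` use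
`-4 A`; for `|x| ≤ R` one of `x, 1 - x, 1 + x` is at most `C / ρ`. -/
theorem close3_any (v : AbsoluteValue L ℝ)
    {I ω β : L} (hI : I ^ 2 = -1) (hω : IsPrimitiveRoot ω 3) (hβ : β ^ 3 = -2) :
    ∃ B : ℝ, 1 ≤ B ∧ ∀ x A : L, A ^ 3 = x * (1 - x) → x ≠ 0 → x ≠ 1 → x ≠ -1 →
    max (v ((x + I) ^ 4 / (8 * I * (x - x ^ 3)))) 1 ≤ B * max (v (-4 * A)) 1 ^ 2 ∨
    max (v ((x + I) ^ 4 / (8 * I * (x - x ^ 3)))) 1 ≤ B * max (v (4 * (1 - x) / A ^ 2)) 1 ^ 2 ∨
    max (v ((x + I) ^ 4 / (8 * I * (x - x ^ 3)))) 1 ≤ B * max (v (4 * x / A ^ 2)) 1 ^ 2 ∨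
    ∃ j : Fin 3, A ≠ β * ω ^ (j : ℕ) ∧ max (v ((x + I) ^ 4 / (8 * I * (x - x ^ 3)))) 1 ≤
      B * max (v (4 * (2 - 3 * x - A * (β * ω ^ (j : ℕ)) * (A + β * ω ^ (j : ℕ))) /
        (A - β * ω ^ (j : ℕ)) ^ 2)) 1 ^ 2 := by
  -- constants
  have hvI : v I = 1 := v_unit v hI
  have h1 : v 1 = 1 := v.map_one
  have h2 : v 2 ≤ 2 := by
    have := v.add_le 1 1
    rw [one_add_one_eq_two, h1] at this
    linarith
  have h3 : v 3 ≤ 3 := by
    have := v.add_le 1 2
    have e : (1:L) + 2 = 3 := by norm_num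
    rw [e, h1] at this
    linarith
  have p2 : 0 < v 2 := v.pos (by norm_num)
  have p4 : 0 < v 4 := v.pos (by norm_num)
  have p8 : 0 < v 8 := v.pos (by norm_num)
  have p9 : 0 < v 9 := v.pos (by norm_num)
  have q9 : v 9 ≤ 9 := by
    have e : (9:L) = 3 * 3 := by norm_num
    rw [e, v.map_mul]
    nlinarith [v.nonneg 3]
  set e := min 1 (v 2) with he
  have e0 : 0 < e := lt_min one_pos p2
  have e1 : e ≤ 1 := min_le_left _ _
  have e2 : e ≤ v 2 := min_le_right _ _
  -- `δ`
  set η := v 9 / 48 with hη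
  have η0 : 0 < η := by positivity
  have η1 : η < 1 := by rw [hη]; linarith
  set δ := min (e / 2) (η ^ 3 / 4) with hδ
  have δ0 : 0 < δ := lt_min (by positivity) (by positivity)
  have δe : δ ≤ e / 2 := min_le_left _ _
  have δη : δ ≤ η ^ 3 / 4 := min_le_right _ _
  have δ1 : δ ≤ 1 / 2 := by linarith
  -- the constants of the cases
  set c1 := v 4 ^ 2 / 2 with hc1
  have c10 : 0 < c1 := by positivity
  set B1 := 7 / v 8 / c1 with hB1
  set K := 81 / (v 8 * δ ^ 2) with hK
  have K0 : 0 < K := by positivity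
  set B2 := K / c1 with hB2
  set c4 := (v 4 * v 9 / 2) ^ 2 / 4 with hc4
  have c40 : 0 < c4 := by positivity
  set B4 := K / c4 with hB4
  set B5 := K / δ with hB5
  set B6 := v ((2 + I) ^ 4 / (8 * I * (2 - 2 ^ 3))) with hB6
  have B10 : 0 ≤ B1 := by positivity
  have B20 : 0 ≤ B2 := by positivity
  have B40 : 0 ≤ B4 := by positivity
  have B50 : 0 ≤ B5 := by positivity
  have B60 : 0 ≤ B6 := v.nonneg _
  refine ⟨1 + B1 + B2 + B4 + B5 + B6, by linarith, ?_⟩
  set B := 1 + B1 + B2 + B4 + B5 + B6 with hB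
  have hB1' : 1 ≤ B := by linarith
  intro x A hA hx0 hx1 hxm
  set D := v ((x + I) ^ 4 / (8 * I * (x - x ^ 3))) with hD
  have hX0 : 0 < v x := v.pos hx0
  have hY0 : 0 < v (1 - x) := v.pos (sub_ne_zero.2 (Ne.symm hx1))
  have hZ0 : 0 < v (1 + x) := v.pos (by
    intro h
    exact hxm (by linear_combination h))
  have ha3 : v A ^ 3 = v x * v (1 - x) := by rw [← map_pow, hA, v.map_mul]
  have ha0 : 0 ≤ v A := v.nonneg A
  have hDeq : D = v (x + I) ^ 4 / (v 8 * (v x * v (1 - x) * v (1 + x))) := by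
    rw [hD, map_div₀, map_pow]
    have e : 8 * I * (x - x ^ 3) = 8 * I * (x * (1 - x) * (1 + x)) := by ring
    rw [e, v.map_mul, v.map_mul, v.map_mul, v.map_mul, hvI, mul_one]
  by_cases hbig : 2 ≤ v x
  · -- `x` large
    left
    refine fin hB1' (by linarith : B1 ≤ B) ?_
    have hn : v (x + I) ≤ 3 / 2 * v x := by
      have := v.add_le x I
      rw [hvI] at this
      linarith
    have hy : v x / 2 ≤ v (1 - x) := by
      have := v.le_sub x 1
      rw [h1, v.map_sub x 1] at this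
      linarith
    have hz : v x / 2 ≤ v (1 + x) := by
      have := v.le_add x 1
      rw [h1, add_comm x 1] at this
      linarith
    have hyz : 3 / 4 * v x ^ 2 ≤ v (1 - x) * v (1 + x) := by
      rw [← v.map_mul]
      have e : (1 - x) * (1 + x) = 1 - x ^ 2 := by ring
      rw [e, v.map_sub]
      have := v.le_sub (x ^ 2) 1
      rw [h1, map_pow] at this
      exact aux1 hbig this
    have hD1 : D ≤ 7 / v 8 * v x := by
      rw [hDeq, div_mul_eq_mul_div, div_le_div_iff₀ (by positivity) p8]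
      have hn4 : v (x + I) ^ 4 ≤ (3 / 2 * v x) ^ 4 := pow_le_pow_left₀ (v.nonneg _) hn 4
      calc v (x + I) ^ 4 * v 8 ≤ (3 / 2 * v x) ^ 4 * v 8 := by gcongr
        _ ≤ 7 * v x * (v 8 * (v x * (3 / 4 * v x ^ 2))) := aux2 hX0 p8
        _ ≤ 7 * v x * (v 8 * (v x * (v (1 - x) * v (1 + x)))) := by gcongr
        _ = _ := by ring
    have ha : v x / 2 ≤ v A ^ 2 := by
      apply cube_le (by positivity)
      have e : (v A ^ 2) ^ 3 = (v x * v (1 - x)) ^ 2 := by rw [← ha3]; ring
      rw [e]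
      have h5 : v x * (v x / 2) ≤ v x * v (1 - x) := by gcongr
      calc (v x / 2) ^ 3 ≤ (v x * (v x / 2)) ^ 2 := aux3 hbig
        _ ≤ _ := pow_le_pow_left₀ (by positivity) h5 2
    have h6 : v (-4 * A) = v 4 * v A := by
      rw [v.map_mul, v.map_neg]
    have h7 : (v 4 * v A) ^ 2 ≤ max (v (-4 * A)) 1 ^ 2 := by
      rw [h6]
      exact pow_le_pow_left₀ (by positivity) (le_max_left _ _) 2
    calc D ≤ 7 / v 8 * v x := hD1
      _ = B1 * (c1 * v x) := by rw [hB1]; field_simp
      _ ≤ B1 * (v 4 * v A) ^ 2 := by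
          refine mul_le_mul_of_nonneg_left ?_ B10
          rw [hc1, mul_pow]
          calc v 4 ^ 2 / 2 * v x = v 4 ^ 2 * (v x / 2) := by ring
            _ ≤ _ := mul_le_mul_of_nonneg_left ha (by positivity)
      _ ≤ _ := mul_le_mul_of_nonneg_left h7 B10
  · push Not at hbig
    have hn : v (x + I) ^ 4 ≤ 81 := by
      have := v.add_le x I
      rw [hvI] at this
      have h5 : v (x + I) ≤ 3 := by linarith
      calc v (x + I) ^ 4 ≤ 3 ^ 4 := pow_le_pow_left₀ (v.nonneg _) h5 4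
        _ = 81 := by norm_num
    have hY3 : v (1 - x) ≤ 3 := by
      have := v.add_le 1 (-x)
      rw [h1, v.map_neg, ← sub_eq_add_neg] at this
      linarith
    have hZ3 : v (1 + x) ≤ 3 := by
      have := v.add_le 1 x
      rw [h1] at this
      linarith
    have hXY : 1 ≤ v x + v (1 - x) := by
      have := v.add_le x (1 - x)
      rw [add_sub_cancel, h1] at this
      linarith
    have hXZ : 1 ≤ v x + v (1 + x) := by
      have := v.add_le (1 + x) (-x)
      have e : 1 + x + -x = 1 := by ring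
      rw [e, h1, v.map_neg] at this
      linarith
    have hYZ : v 2 ≤ v (1 - x) + v (1 + x) := by
      have := v.add_le (1 - x) (1 + x)
      have e : 1 - x + (1 + x) = 2 := by ring
      rw [e] at this
      linarith
    -- the bound of `D` if two of the three factors are at least `δ`
    have hDb : ∀ P Q R : ℝ, v x * v (1 - x) * v (1 + x) = P * (Q * R) → 0 < P → δ ≤ Q → δ ≤ R →
        D ≤ K / P := by
      intro P Q R h hP hQ hR
      rw [hDeq, h, hK, div_div]
      have hQR : δ ^ 2 ≤ Q * R := by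
        calc δ ^ 2 = δ * δ := by ring
          _ ≤ Q * R := mul_le_mul hQ hR δ0.le (δ0.le.trans hQ)
      apply div_le_div₀ (by norm_num) hn (by positivity)
      calc v 8 * δ ^ 2 * P = v 8 * (P * δ ^ 2) := by ring
        _ ≤ v 8 * (P * (Q * R)) := by gcongr
    by_cases hXs : v x ≤ δ
    · -- `x` near `0`
      right; left
      have hY2 : 1 / 2 ≤ v (1 - x) := by linarith
      have hZ2 : 1 / 2 ≤ v (1 + x) := by linarith
      refine fin hB1' (by linarith : B2 ≤ B) ?_
      have hb := hDb (v x) (v (1 - x)) (v (1 + x)) (by ring) hX0 (by linarith) (by linarith)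
      refine hb.trans (inv_le hX0 c10 K0.le ?_ (v.nonneg _))
      rw [map_div₀, v.map_mul, map_pow]
      have hA0 : 0 < v A := by
        rcases ha0.lt_or_eq with h | h
        · exact h
        · rw [← h] at ha3
          have : 0 < v x * v (1 - x) := by positivity
          norm_num at ha3
          rcases ha3 with h | h
          · exact absurd h hx0
          · exact absurd h (Ne.symm hx1)
      have e : v x * (v 4 * v (1 - x) / v A ^ 2) ^ 2 = (v 4 ^ 2 * v (1 - x) ^ 2 * v x) / v A ^ 4 := by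
        field_simp
      rw [e, le_div_iff₀ (by positivity)]
      apply cube_le (by positivity)
      have e2 : (c1 * v A ^ 4) ^ 3 = c1 ^ 3 * (v x * v (1 - x)) ^ 4 := by rw [← ha3]; ring
      rw [e2, hc1]
      have e3 : (v 4 ^ 2 / 2) ^ 3 * (v x * v (1 - x)) ^ 4 =
          (v 4 ^ 6 * v x ^ 3 * v (1 - x) ^ 4) * (v x / 8) := by ring
      have e4 : (v 4 ^ 2 * v (1 - x) ^ 2 * v x) ^ 3 =
          (v 4 ^ 6 * v x ^ 3 * v (1 - x) ^ 4) * v (1 - x) ^ 2 := by ring
      rw [e3, e4]
      exact mul_le_mul_of_nonneg_left (aux4 (by linarith) hY2) (by positivity)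
    push Not at hXs
    by_cases hYs : v (1 - x) ≤ δ
    · -- `x` near `1`
      right; right; left
      have hX2 : 1 / 2 ≤ v x := by linarith
      have hZ2 : δ ≤ v (1 + x) := by linarith
      refine fin hB1' (by linarith : B2 ≤ B) ?_
      have hb := hDb (v (1 - x)) (v x) (v (1 + x)) (by ring) hY0 (by linarith) hZ2
      refine hb.trans (inv_le hY0 c10 K0.le ?_ (v.nonneg _))
      rw [map_div₀, v.map_mul, map_pow]
      have hA0 : 0 < v A := by
        rcases ha0.lt_or_eq with h | h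
        · exact h
        · rw [← h] at ha3
          norm_num at ha3
          rcases ha3 with h | h
          · exact absurd h hx0
          · exact absurd h (Ne.symm hx1)
      have e : v (1 - x) * (v 4 * v x / v A ^ 2) ^ 2 = (v 4 ^ 2 * v x ^ 2 * v (1 - x)) / v A ^ 4 := by
        field_simp
      rw [e, le_div_iff₀ (by positivity)]
      apply cube_le (by positivity)
      have e2 : (c1 * v A ^ 4) ^ 3 = c1 ^ 3 * (v x * v (1 - x)) ^ 4 := by rw [← ha3]; ring
      rw [e2, hc1]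
      have e3 : (v 4 ^ 2 / 2) ^ 3 * (v x * v (1 - x)) ^ 4 =
          (v 4 ^ 6 * v x ^ 4 * v (1 - x) ^ 3) * (v (1 - x) / 8) := by ring
      have e4 : (v 4 ^ 2 * v x ^ 2 * v (1 - x)) ^ 3 =
          (v 4 ^ 6 * v x ^ 4 * v (1 - x) ^ 3) * v x ^ 2 := by ring
      rw [e3, e4]
      exact mul_le_mul_of_nonneg_left (aux4 (by linarith) hX2) (by positivity)
    push Not at hYs
    by_cases hZs : v (1 + x) ≤ δ
    swap
    · -- nothing small
      push Not at hZs
      left
      refine fin_const hB1' ?_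
      have hb := hDb (v x) (v (1 - x)) (v (1 + x)) (by ring) hX0 hYs.le hZs.le
      have h5 : K / v x ≤ B5 := by
        rw [hB5]
        exact div_le_div_of_nonneg_left K0.le δ0 hXs.le
      linarith
    by_cases hx2 : x = 2
    · left
      refine fin_const hB1' ?_
      have : D = B6 := by rw [hD, hB6, hx2]
      linarith
    -- `x` near `-1`
    right; right; right
    have hω3 : ω ^ 3 = 1 := hω.pow_eq_one
    have hω1 : ω ≠ 1 := hω.ne_one (by norm_num)
    have hωs : ω ^ 2 + ω + 1 = 0 := by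
      have : (ω - 1) * (ω ^ 2 + ω + 1) = 0 := by linear_combination hω3
      rcases mul_eq_zero.1 this with h | h
      · exact absurd (sub_eq_zero.1 h) hω1
      · exact h
    have hprod : ∏ j : Fin 3, v (A - β * ω ^ (j : ℕ)) = v (1 + x) * v (2 - x) := by
      rw [← map_prod, ← v.map_mul]
      congr 1
      rw [Fin.prod_univ_three]
      simp only [Fin.val_zero, Fin.val_one, Fin.val_two, pow_zero, pow_one, mul_one]
      have e : (A - β) * (A - β * ω) * (A - β * ω ^ 2) = A ^ 3 - β ^ 3 := by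
        linear_combination (-(A ^ 2 * β) + A * β ^ 2 * ω) * hωs + (-β ^ 3) * hω3
      rw [e, hA, hβ]
      ring
    have hW : v (2 - x) ≤ 4 := by
      have := v.add_le 2 (-x)
      rw [v.map_neg, ← sub_eq_add_neg] at this
      linarith
    have hW0 : 0 < v (2 - x) := v.pos (sub_ne_zero.2 (Ne.symm hx2))
    obtain ⟨j, -, hj⟩ := Finset.exists_min_image (Finset.univ : Finset (Fin 3))
      (fun j => v (A - β * ω ^ (j : ℕ))) ⟨0, Finset.mem_univ _⟩
    set b := β * ω ^ (j : ℕ) with hb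
    set a := v (A - b) with ha
    have haj0 : 0 ≤ a := v.nonneg _
    have hacube : a ^ 3 ≤ v (1 + x) * v (2 - x) := by
      rw [← hprod]
      calc a ^ 3 = ∏ _j : Fin 3, a := by simp
        _ ≤ _ := Finset.prod_le_prod (fun _ _ => haj0) (fun i _ => hj i (Finset.mem_univ _))
    have hapos : 0 < a := by
      apply v.pos
      intro h
      have h5 : ∏ j : Fin 3, v (A - β * ω ^ (j : ℕ)) = 0 :=
        Finset.prod_eq_zero (Finset.mem_univ j) (by rw [← hb, h, map_zero])
      rw [hprod] at h5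
      have : 0 < v (1 + x) * v (2 - x) := by positivity
      linarith
    have hab : A ≠ b := by
      intro h
      rw [ha, h, sub_self, map_zero] at hapos
      exact lt_irrefl _ hapos
    have haη : a ≤ η := by
      apply cube_le η0.le
      calc a ^ 3 ≤ v (1 + x) * v (2 - x) := hacube
        _ ≤ δ * 4 := mul_le_mul hZs hW hW0.le δ0.le
        _ ≤ η ^ 3 / 4 * 4 := by gcongr
        _ = η ^ 3 := by ring
    refine ⟨j, hab, ?_⟩
    have hb3 : b ^ 3 = -2 := by
      rw [hb, mul_pow, hβ, ← pow_mul, mul_comm (j : ℕ) 3, pow_mul, hω3, one_pow, mul_one]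
    have hvb : v b ≤ 2 := by
      apply cube_le (by norm_num)
      rw [← map_pow, hb3, v.map_neg]
      linarith
    have hvA : v A ≤ 2 := by
      apply cube_le (by norm_num)
      rw [ha3]
      exact aux5 hbig.le hY3 hY0.le
    have hN : v 9 / 2 ≤ v (2 - 3 * x - A * b * (A + b)) := by
      have e : (9 : L) = (2 - 3 * x - A * b * (A + b)) + (3 * (1 + x) + b * (A - b) * (A + 2 * b)) := by
        linear_combination (2 : L) * hb3
      have h5 := v.add_le (2 - 3 * x - A * b * (A + b)) (3 * (1 + x) + b * (A - b) * (A + 2 * b))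
      rw [← e] at h5
      have h6 := v.add_le (3 * (1 + x)) (b * (A - b) * (A + 2 * b))
      rw [v.map_mul, v.map_mul, v.map_mul, ← ha] at h6
      have h7 : v (A + 2 * b) ≤ 6 := by
        have := v.add_le A (2 * b)
        rw [v.map_mul] at this
        have : v 2 * v b ≤ 2 * 2 := mul_le_mul h2 hvb (v.nonneg _) (by norm_num)
        linarith
      have h8 : v b * a * v (A + 2 * b) ≤ 2 * η * 6 := by
        apply mul_le_mul _ h7 (v.nonneg _) (by positivity)
        exact mul_le_mul hvb haη haj0 (by norm_num)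
      have h9 : v 3 * v (1 + x) ≤ 3 * δ := mul_le_mul h3 hZs hZ0.le (by norm_num)
      have h10 : δ ≤ η / 4 := by
        have : η ^ 3 ≤ η := by
          have := pow_le_of_le_one η0.le η1.le (n := 3) (by norm_num)
          exact this
        linarith
      have h11 : v 9 = 48 * η := by rw [hη]; ring
      linarith
    refine fin hB1' (by linarith : B4 ≤ B) ?_
    have hb' := hDb (v (1 + x)) (v x) (v (1 - x)) (by ring) hZ0 hXs.le hYs.le
    refine hb'.trans (inv_le hZ0 c40 K0.le ?_ (v.nonneg _))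
    rw [map_div₀, v.map_mul, map_pow, ← ha]
    have h12 : (v 4 * v 9 / 2) / a ^ 2 ≤ v 4 * v (2 - 3 * x - A * b * (A + b)) / a ^ 2 := by
      apply div_le_div_of_nonneg_right _ (by positivity)
      rw [mul_div_assoc]
      exact mul_le_mul_of_nonneg_left hN p4.le
    calc c4 ≤ v (1 + x) * ((v 4 * v 9 / 2) / a ^ 2) ^ 2 := by
          rw [div_pow, ← mul_div_assoc, le_div_iff₀ (by positivity), hc4]
          have h13 : (a ^ 2) ^ 2 ≤ v (1 + x) * 4 := by
            calc (a ^ 2) ^ 2 = a ^ 3 * a := by ring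
              _ ≤ (v (1 + x) * v (2 - x)) * 1 := by
                  apply mul_le_mul hacube (haη.trans η1.le) haj0 (by positivity)
              _ ≤ (v (1 + x) * 4) * 1 := by gcongr
              _ = _ := by ring
          exact aux6 (by positivity) h13
      _ ≤ _ := by
          apply mul_le_mul_of_nonneg_left _ hZ0.le
          exact pow_le_pow_left₀ (by positivity) h12 2

end UBC
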