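import Pool.Agent.UBC.Close3Loc
import Pool.Agent.UBC.Close3Any
import Pool.Agent.UBC.DiffSq
import Pool.Agent.UBC.LocGlob
import Pool.Agent.UBC.Close2

/-!
# Points of `Y ^ 2 = X ^ 3 + 16` close to six fixed points
-/

set_option autoImplicit false

namespace UBC

open Height AdmissibleAbsValues WeierstrassCurve.Affine

theorem e3_inj {L : Type*} [Field L] [CharZero L] {ω β : L} (hω : IsPrimitiveRoot ω 3)
    (hβ : β ^ 3 = -2) : Function.Injective (e3 β ω) := by
  have hβ0 : β ≠ 0 := by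
    rintro rfl
    norm_num at hβ
  intro i j hij
  simp only [e3] at hij
  have h1 := mul_left_cancel₀ (mul_ne_zero two_ne_zero hβ0) hij
  exact Fin.ext (hω.pow_inj i.2 j.2 h1)

namespace Close3Aux

variable {L : Type*} [Field L] [CharZero L]

theorem prod_eq {ω β : L} (hω : IsPrimitiveRoot ω 3) (hβ : β ^ 3 = -2) (X : L) :
    (X - e3 β ω 0) * (X - e3 β ω 1) * (X - e3 β ω 2) = X ^ 3 + 16 := by
  have h3 : ω ^ 3 = 1 := hω.pow_eq_one
  have h1 : ω ≠ 1 := hω.ne_one (by norm_num)
  have h2 : 1 + ω + ω ^ 2 = 0 := by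
    have : (ω - 1) * (1 + ω + ω ^ 2) = 0 := by linear_combination h3
    exact (mul_eq_zero.mp this).resolve_left (sub_ne_zero.mpr h1)
  simp only [e3, Fin.val_zero, Fin.val_one, Fin.val_two, pow_zero, pow_one, mul_one]
  linear_combination (-2 * β * X ^ 2 + 4 * β ^ 2 * X * ω) * h2 - 8 * ω ^ 3 * hβ + 16 * h3

theorem sum_eq {ω β : L} (hω : IsPrimitiveRoot ω 3) : e3 β ω 0 + e3 β ω 1 + e3 β ω 2 = 0 := by
  have h3 : ω ^ 3 = 1 := hω.pow_eq_one
  have h1 : ω ≠ 1 := hω.ne_one (by norm_num)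
  have h2 : 1 + ω + ω ^ 2 = 0 := by
    have : (ω - 1) * (1 + ω + ω ^ 2) = 0 := by linear_combination h3
    exact (mul_eq_zero.mp this).resolve_left (sub_ne_zero.mpr h1)
  simp only [e3, Fin.val_zero, Fin.val_one, Fin.val_two, pow_zero, pow_one, mul_one]
  linear_combination 2 * β * h2

end Close3Aux

open Close2Aux Close3Aux

/-- V9.  `F = {0, (0, 4), (0, -4), (-4 β ω ^ j, 12)}`, `Q = (-4 A, 4 (1 - 2 x))`.  The
`x`-coordinates of `Q - T` are `-4 A`, `4 (1 - x) / A ^ 2`, `4 x / A ^ 2`,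
`4 (2 - 3 x - A b (A + b)) / (A - b) ^ 2` with `b = β ω ^ j` (`sub_some`, if `A ≠ 0`, `A ≠ b`). -/
theorem close3 (L : Type*) [Field L] [NumberField L] [DecidableEq L] {I ω β : L}
    (hI : I ^ 2 = -1) (hω : IsPrimitiveRoot ω 3) (hβ : β ^ 3 = -2) :
    ∃ (F : Finset (EC (e3 β ω)).Point) (B : AbsoluteValue L ℝ → ℝ), Ok L B ∧
      ∀ x A : L, A ^ 3 = x * (1 - x) → x ≠ 0 → x ≠ 1 → x ≠ -1 →
      ∃ h : (EC (e3 β ω)).Nonsingular (-4 * A) (4 * (1 - 2 * x)),
        (Point.some _ _ h : (EC (e3 β ω)).Point) ∉ F ∧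
        ∀ v, IsPl L v → ∃ T ∈ F, max (v ((x + I) ^ 4 / (8 * I * (x - x ^ 3)))) 1 ≤
          B v * max (v (xc (Point.some _ _ h - T : (EC (e3 β ω)).Point))) 1 ^ 2 := by
  classical
  have hr := e3_inj hω hβ
  have hω3 : ω ^ 3 = 1 := hω.pow_eq_one
  have hbj : ∀ j : ℕ, (β * ω ^ j) ^ 3 = -2 := fun j => by
    rw [mul_pow, hβ, ← pow_mul, mul_comm j 3, pow_mul, hω3, one_pow, mul_one]
  have h1p : (EC (e3 β ω)).Nonsingular 0 4 := nons hr (by rw [prod_eq hω hβ]; norm_num)
  have h1m : (EC (e3 β ω)).Nonsingular 0 (-4) := nons hr (by rw [prod_eq hω hβ]; norm_num)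
  have hj : ∀ j : Fin 3, (EC (e3 β ω)).Nonsingular (-4 * (β * ω ^ (j : ℕ))) 12 := fun j =>
    nons hr (by rw [prod_eq hω hβ]; linear_combination 64 * hbj (j : ℕ))
  let F : Finset (EC (e3 β ω)).Point := {0, Point.some _ _ h1p, Point.some _ _ h1m} ∪
    Finset.univ.image (fun j : Fin 3 => (Point.some _ _ (hj j) : (EC (e3 β ω)).Point))
  let good : AbsoluteValue L ℝ → Prop := fun v => v ∈ nonarchAbsVal (K := L) ∧ v 6 = 1
  let B : AbsoluteValue L ℝ → ℝ := fun v =>
    if good v then 1 else (close3_any v hI hω hβ).choose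
  have hQ : ∀ x A : L, A ^ 3 = x * (1 - x) →
      (EC (e3 β ω)).Nonsingular (-4 * A) (4 * (1 - 2 * x)) := fun x A hA =>
    nons hr (by rw [prod_eq hω hβ]; linear_combination 64 * hA)
  refine ⟨F, B, ⟨fun v => ?_, ?_⟩, fun x A hA hx0 hx1 hx2 => ⟨hQ x A hA, ?_, fun v hv => ?_⟩⟩
  · by_cases hg : good v
    · simp [B, hg]
    · simp only [B, hg, if_false]
      exact (close3_any v hI hω hβ).choose_spec.1
  · refine (fin_ne (L := L) (x := 6) (by norm_num)).subset ?_
    rintro v ⟨hv, hB⟩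
    refine ⟨hv, fun h6 => hB ?_⟩
    have hg : good v := ⟨hv, h6⟩
    simp [B, hg]
  · intro hF
    simp only [F, Finset.mem_union, Finset.mem_insert, Finset.mem_singleton, Finset.mem_image,
      Finset.mem_univ, true_and] at hF
    rcases hF with (hF | hF | hF) | ⟨j, hF⟩
    · exact Point.some_ne_zero _ hF
    · have h := (Point.some.inj hF).2
      apply hx0
      linear_combination -(1 / 8 : L) * h
    · have h := (Point.some.inj hF).2
      apply hx1
      linear_combination -(1 / 8 : L) * h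
    · have h := (Point.some.inj hF).2
      apply hx2
      linear_combination (1 / 8 : L) * h
  · have hA0 : A ≠ 0 := by
      rintro rfl
      have h0 : x * (1 - x) = 0 := by rw [← hA]; ring
      rcases mul_eq_zero.mp h0 with h | h
      · exact hx0 h
      · exact hx1 (sub_eq_zero.mp h).symm
    have hsum := sum_eq (L := L) (β := β) hω
    have hxz : xc (Point.some _ _ (hQ x A hA) - 0 : (EC (e3 β ω)).Point) = -4 * A := by
      rw [sub_zero, xc_zero]
    have hxp : xc (Point.some _ _ (hQ x A hA) - Point.some _ _ h1p : (EC (e3 β ω)).Point) =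
        4 * (1 - x) / A ^ 2 := by
      obtain ⟨X, Y, h'', e1, e2, -⟩ := sub_some (e3 β ω) (hQ x A hA) h1p
        (mul_ne_zero (by norm_num) hA0)
      rw [e1, xc_zero, e2, hsum, eq_div_iff (pow_ne_zero 2 hA0)]
      have e : (4 * (1 - 2 * x) + 4) / (-4 * A - 0) = -(2 * (1 - x)) / A := by
        field_simp
        ring
      have e' : (-(2 * (1 - x)) / A) ^ 2 * A ^ 2 = 4 * (1 - x) ^ 2 := by
        field_simp
        ring
      rw [e]
      linear_combination e' + 4 * hA
    have hxm : xc (Point.some _ _ (hQ x A hA) - Point.some _ _ h1m : (EC (e3 β ω)).Point) =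
        4 * x / A ^ 2 := by
      obtain ⟨X, Y, h'', e1, e2, -⟩ := sub_some (e3 β ω) (hQ x A hA) h1m
        (mul_ne_zero (by norm_num) hA0)
      rw [e1, xc_zero, e2, hsum, eq_div_iff (pow_ne_zero 2 hA0)]
      have e : (4 * (1 - 2 * x) + -4) / (-4 * A - 0) = 2 * x / A := by
        field_simp
        ring
      have e' : (2 * x / A) ^ 2 * A ^ 2 = 4 * x ^ 2 := by
        field_simp
        ring
      rw [e]
      linear_combination e' + 4 * hA
    have hxj : ∀ j : Fin 3, A ≠ β * ω ^ (j : ℕ) →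
        xc (Point.some _ _ (hQ x A hA) - Point.some _ _ (hj j) : (EC (e3 β ω)).Point) =
        4 * (2 - 3 * x - A * (β * ω ^ (j : ℕ)) * (A + β * ω ^ (j : ℕ))) /
          (A - β * ω ^ (j : ℕ)) ^ 2 := by
      intro j hne
      have hb := hbj (j : ℕ)
      have hne2 : -4 * A ≠ -4 * (β * ω ^ (j : ℕ)) := fun h =>
        hne (mul_left_cancel₀ (by norm_num) h)
      obtain ⟨X, Y, h'', e1, e2, -⟩ := sub_some (e3 β ω) (hQ x A hA) (hj j) hne2
      rw [e1, xc_zero, e2, hsum]
      clear e1 e2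
      generalize β * ω ^ (j : ℕ) = b at hb hne
      have hne' : A - b ≠ 0 := sub_ne_zero.mpr hne
      rw [eq_div_iff (pow_ne_zero 2 hne')]
      have e : (4 * (1 - 2 * x) + 12) / (-4 * A - -4 * b) = -(2 * (2 - x)) / (A - b) := by
        rw [div_eq_div_iff (by
          intro h
          apply hne'
          linear_combination -(1 / 4 : L) * h) hne']
        ring
      have e' : (-(2 * (2 - x)) / (A - b)) ^ 2 * (A - b) ^ 2 = 4 * (2 - x) ^ 2 := by
        field_simp
        ring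
      rw [e]
      linear_combination e' + 4 * hA + 4 * hb
    have m0 : (0 : (EC (e3 β ω)).Point) ∈ F := by simp [F]
    have mp : (Point.some _ _ h1p : (EC (e3 β ω)).Point) ∈ F := by simp [F]
    have mm : (Point.some _ _ h1m : (EC (e3 β ω)).Point) ∈ F := by simp [F]
    have mj : ∀ j, (Point.some _ _ (hj j) : (EC (e3 β ω)).Point) ∈ F := fun j => by
      simp only [F, Finset.mem_union, Finset.mem_image, Finset.mem_univ, true_and]
      exact Or.inr ⟨j, rfl⟩
    by_cases hg : good v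
    · have hB : B v = 1 := by simp [B, hg]
      obtain ⟨g0, g1⟩ := hg
      rw [hB]
      rcases close3_nonarch v (AdmissibleAbsValues.isNonarchimedean v g0) g1 hI hω hβ hA hx0 hx1
        hx2 with h | h | h | ⟨j, hne, h⟩
      · exact ⟨0, m0, by rw [hxz, one_mul]; exact h⟩
      · exact ⟨_, mp, by rw [hxp, one_mul]; exact h⟩
      · exact ⟨_, mm, by rw [hxm, one_mul]; exact h⟩
      · exact ⟨_, mj j, by rw [hxj j hne, one_mul]; exact h⟩
    · have hB : B v = (close3_any v hI hω hβ).choose := by simp only [B, hg, if_false]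
      rw [hB]
      rcases (close3_any v hI hω hβ).choose_spec.2 x A hA hx0 hx1 hx2 with h | h | h | ⟨j, hne, h⟩
      · exact ⟨0, m0, by rw [hxz]; exact h⟩
      · exact ⟨_, mp, by rw [hxp]; exact h⟩
      · exact ⟨_, mm, by rw [hxm]; exact h⟩
      · exact ⟨_, mj j, by rw [hxj j hne]; exact h⟩

end UBC
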