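import Pool.Agent.UBC.Defs2

/-!
# Local analysis for `d = 4`: nonarchimedean places of good type
-/

set_option autoImplicit false

namespace UBC

variable {L : Type*} [Field L]

namespace Close3LocAux

theorem add_eq {v : AbsoluteValue L ℝ} (hv : IsNonarchimedean v) {a b : L} (h : v a < v b) :
    v (a + b) = v b := by
  apply le_antisymm
  · exact (hv a b).trans (max_le h.le le_rfl)
  · have h1 := hv (a + b) (-a)
    have h2 : a + b + -a = b := by ring
    rw [h2, map_neg_eq_map] at h1
    rcases le_max_iff.1 h1 with h3 | h3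
    · exact h3
    · exact absurd h3 (not_le.2 h)

theorem add_le {v : AbsoluteValue L ℝ} (hv : IsNonarchimedean v) {a b : L} {c : ℝ}
    (ha : v a ≤ c) (hb : v b ≤ c) : v (a + b) ≤ c :=
  (hv a b).trans (max_le ha hb)

theorem add_lt {v : AbsoluteValue L ℝ} (hv : IsNonarchimedean v) {a b : L} {c : ℝ}
    (ha : v a < c) (hb : v b < c) : v (a + b) < c :=
  (hv a b).trans_lt (max_lt ha hb)

theorem sub_eq {v : AbsoluteValue L ℝ} (hv : IsNonarchimedean v) {a b : L} (h : v a < v b) :
    v (b - a) = v b := by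
  have h1 : b - a = -a + b := by ring
  rw [h1]
  apply add_eq hv
  rw [map_neg_eq_map]
  exact h

theorem sub_le {v : AbsoluteValue L ℝ} (hv : IsNonarchimedean v) {a b : L} {c : ℝ}
    (ha : v a ≤ c) (hb : v b ≤ c) : v (a - b) ≤ c := by
  rw [sub_eq_add_neg]
  apply add_le hv ha
  rw [map_neg_eq_map]
  exact hb

theorem sub_lt {v : AbsoluteValue L ℝ} (hv : IsNonarchimedean v) {a b : L} {c : ℝ}
    (ha : v a < c) (hb : v b < c) : v (a - b) < c := by
  rw [sub_eq_add_neg]
  apply add_lt hv ha
  rw [map_neg_eq_map]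
  exact hb

/-- natural numbers have absolute value at most one -/
theorem nat_le {v : AbsoluteValue L ℝ} (hv : IsNonarchimedean v) (n : ℕ) : v (n : L) ≤ 1 := by
  induction n with
  | zero => simp
  | succ n ih =>
    rw [Nat.cast_succ]
    exact add_le hv ih (by simp)

theorem two_three {v : AbsoluteValue L ℝ} (hv : IsNonarchimedean v) (h6 : v 6 = 1) :
    v 2 = 1 ∧ v 3 = 1 := by
  have h2 : v 2 ≤ 1 := by
    have := nat_le hv 2
    simpa using this
  have h3 : v 3 ≤ 1 := by
    have := nat_le hv 3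
    simpa using this
  have h : v 2 * v 3 = 1 := by
    rw [← map_mul]
    have : (2 : L) * 3 = 6 := by norm_num
    rw [this, h6]
  have p2 := v.nonneg 2
  have p3 := v.nonneg 3
  constructor
  · nlinarith
  · nlinarith

theorem pow_eq_one {r : ℝ} (h0 : 0 ≤ r) {n : ℕ} (hn : n ≠ 0) (h : r ^ n = 1) : r = 1 :=
  (pow_eq_one_iff_of_nonneg h0 hn).1 h

/-- lower bound by a square -/
theorem le_sq_of {a r : ℝ} (h1 : 1 ≤ a) (h : r ≤ a ^ 2) : max r 1 ≤ max a 1 ^ 2 := by
  rw [max_eq_left h1]
  exact max_le h (one_le_pow₀ h1)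

/-- powers of a small number -/
theorem inv_bound {a r : ℝ} (ha : 0 < a) (ha1 : a ≤ 1) {n : ℕ} (hn : n ≤ 4)
    (hr : r ≤ (a ^ n)⁻¹) : max r 1 ≤ max (a ^ 2)⁻¹ 1 ^ 2 := by
  have h1 : 1 ≤ (a ^ 2)⁻¹ := (one_le_inv₀ (by positivity)).2 (pow_le_one₀ ha.le ha1)
  apply le_sq_of h1
  refine hr.trans ?_
  rw [inv_pow, ← pow_mul]
  apply inv_anti₀ (by positivity)
  exact pow_le_pow_of_le_one ha.le ha1 hn

/-- the key factorisation -/
theorem factor {ω β A : L} (hω : IsPrimitiveRoot ω 3) :
    A ^ 3 - β ^ 3 = (A - β) * (A - β * ω) * (A - β * ω ^ 2) := by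
  have h1 : ω ^ 2 + ω + 1 = 0 := by
    have h := hω.isRoot_cyclotomic (by norm_num)
    simpa [Polynomial.cyclotomic_three, Polynomial.IsRoot] using h
  have h3 : ω ^ 3 = 1 := hω.pow_eq_one
  linear_combination (A ^ 2 * β - A * β ^ 2 * ω) * h1 + β ^ 3 * h3

theorem omega {v : AbsoluteValue L ℝ} (hv : IsNonarchimedean v) (h3 : v 3 = 1) {ω : L}
    (hω : IsPrimitiveRoot ω 3) : v ω = 1 ∧ v (1 - ω) = 1 ∧ v (1 - ω ^ 2) = 1 := by
  have h1 : ω ^ 2 + ω + 1 = 0 := by
    have h := hω.isRoot_cyclotomic (by norm_num)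
    simpa [Polynomial.cyclotomic_three, Polynomial.IsRoot] using h
  have hc : ω ^ 3 = 1 := hω.pow_eq_one
  have hw : v ω = 1 := by
    apply pow_eq_one (v.nonneg _) (n := 3) (by norm_num)
    rw [← map_pow, hc, map_one]
  have ha : v (1 - ω) ≤ 1 := sub_le hv (by simp) hw.le
  have hb : v (1 - ω ^ 2) ≤ 1 := sub_le hv (by simp) (by rw [map_pow, hw]; norm_num)
  have hp : v (1 - ω) * v (1 - ω ^ 2) = 1 := by
    rw [← map_mul]
    have : (1 - ω) * (1 - ω ^ 2) = 3 := by
      linear_combination (-1) * h1 + hc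
    rw [this, h3]
  have p2 := v.nonneg (1 - ω)
  have p3 := v.nonneg (1 - ω ^ 2)
  refine ⟨hw, ?_, ?_⟩
  · nlinarith
  · nlinarith

/-- one of the three factors is small and the two others are units -/
theorem root {v : AbsoluteValue L ℝ} (hv : IsNonarchimedean v) (h3 : v 3 = 1) {ω β A : L}
    (hω : IsPrimitiveRoot ω 3) (hβ : v β = 1) (hA : v A = 1) {r : ℝ} (hr : r < 1)
    (h : v (A ^ 3 - β ^ 3) = r) : ∃ j : Fin 3, v (A - β * ω ^ (j : ℕ)) = r := by
  obtain ⟨hw, hw1, hw2⟩ := omega hv h3 hω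
  have e0 : v (A - β) ≤ 1 := sub_le hv hA.le hβ.le
  have e1 : v (A - β * ω) ≤ 1 := sub_le hv hA.le (by rw [map_mul, hβ, hw]; norm_num)
  have e2 : v (A - β * ω ^ 2) ≤ 1 :=
    sub_le hv hA.le (by rw [map_mul, map_pow, hβ, hw]; norm_num)
  have hp : v (A - β) * v (A - β * ω) * v (A - β * ω ^ 2) = r := by
    rw [← map_mul, ← map_mul, ← factor hω, h]
  have d01 : v (β * (1 - ω)) = 1 := by rw [map_mul, hβ, hw1]; norm_num
  have d02 : v (β * (1 - ω ^ 2)) = 1 := by rw [map_mul, hβ, hw2]; norm_num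
  have d12 : v (β * ω * (1 - ω)) = 1 := by rw [map_mul, map_mul, hβ, hw, hw1]; norm_num
  by_cases c0 : v (A - β) < 1
  · have f1 : v (A - β * ω) = 1 := by
      have : A - β * ω = (A - β) + β * (1 - ω) := by ring
      rw [this, add_eq hv (by rw [d01]; exact c0), d01]
    have f2 : v (A - β * ω ^ 2) = 1 := by
      have : A - β * ω ^ 2 = (A - β) + β * (1 - ω ^ 2) := by ring
      rw [this, add_eq hv (by rw [d02]; exact c0), d02]
    refine ⟨0, ?_⟩
    rw [f1, f2, mul_one, mul_one] at hp
    simpa using hp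
  · have g0 : v (A - β) = 1 := le_antisymm e0 (not_lt.1 c0)
    by_cases c1 : v (A - β * ω) < 1
    · have f2 : v (A - β * ω ^ 2) = 1 := by
        have : A - β * ω ^ 2 = (A - β * ω) + β * ω * (1 - ω) := by ring
        rw [this, add_eq hv (by rw [d12]; exact c1), d12]
      refine ⟨1, ?_⟩
      rw [g0, f2, one_mul, mul_one] at hp
      simpa using hp
    · have g1 : v (A - β * ω) = 1 := le_antisymm e1 (not_lt.1 c1)
      refine ⟨2, ?_⟩
      rw [g0, g1, one_mul, one_mul] at hp
      simpa using hp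

end Close3LocAux

open Close3LocAux in
/-- V9a.  `A ^ 3 = x (1 - x)`.  If `|x| > 1` use `-4 A`; otherwise `ρ > 1` forces exactly one of
`x, 1 - x, 1 + x` to be small (`≤ ρ⁻¹`); `1 + x` small gives `A ^ 3` close to `-2 = β ^ 3`. -/
theorem close3_nonarch (v : AbsoluteValue L ℝ) (hv : IsNonarchimedean v) (h6 : v 6 = 1)
    {I ω β : L} (hI : I ^ 2 = -1) (hω : IsPrimitiveRoot ω 3) (hβ : β ^ 3 = -2) {x A : L}
    (hA : A ^ 3 = x * (1 - x)) (hx0 : x ≠ 0) (hx1 : x ≠ 1) (hx2 : x ≠ -1) :
    max (v ((x + I) ^ 4 / (8 * I * (x - x ^ 3)))) 1 ≤ max (v (-4 * A)) 1 ^ 2 ∨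
    max (v ((x + I) ^ 4 / (8 * I * (x - x ^ 3)))) 1 ≤ max (v (4 * (1 - x) / A ^ 2)) 1 ^ 2 ∨
    max (v ((x + I) ^ 4 / (8 * I * (x - x ^ 3)))) 1 ≤ max (v (4 * x / A ^ 2)) 1 ^ 2 ∨
    ∃ j : Fin 3, A ≠ β * ω ^ (j : ℕ) ∧ max (v ((x + I) ^ 4 / (8 * I * (x - x ^ 3)))) 1 ≤
      max (v (4 * (2 - 3 * x - A * (β * ω ^ (j : ℕ)) * (A + β * ω ^ (j : ℕ))) /
        (A - β * ω ^ (j : ℕ)) ^ 2)) 1 ^ 2 := by
  obtain ⟨h2, h3⟩ := two_three hv h6
  have hI1 : v I = 1 := by
    apply pow_eq_one (v.nonneg _) (n := 2) (by norm_num)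
    rw [← map_pow, hI, map_neg_eq_map, map_one]
  have hβ1 : v β = 1 := by
    apply pow_eq_one (v.nonneg _) (n := 3) (by norm_num)
    rw [← map_pow, hβ, map_neg_eq_map, h2]
  have h4 : v 4 = 1 := by
    have : (4 : L) = 2 * 2 := by norm_num
    rw [this, map_mul, h2, one_mul]
  have h8 : v 8 = 1 := by
    have : (8 : L) = 4 * 2 := by norm_num
    rw [this, map_mul, h2, h4, one_mul]
  have h9 : v 9 = 1 := by
    have : (9 : L) = 3 * 3 := by norm_num
    rw [this, map_mul, h3, one_mul]
  have hρ : v ((x + I) ^ 4 / (8 * I * (x - x ^ 3))) =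
      v (x + I) ^ 4 / (v x * v (1 - x) * v (1 + x)) := by
    have : x - x ^ 3 = x * (1 - x) * (1 + x) := by ring
    rw [this]
    simp only [map_div₀, map_mul, map_pow, h8, hI1, one_mul]
  have hA3 : v A ^ 3 = v x * v (1 - x) := by rw [← map_pow, hA, map_mul]
  have px : 0 < v x := v.pos hx0
  have p1 : 0 < v (1 - x) := v.pos (sub_ne_zero.2 (Ne.symm hx1))
  have p2 : 0 < v (1 + x) := by
    apply v.pos
    intro h
    apply hx2
    linear_combination h
  have pA : 0 < v A := by
    have : 0 < v A ^ 3 := by rw [hA3]; positivity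
    by_contra hc
    have hz : v A = 0 := le_antisymm (not_lt.1 hc) (v.nonneg _)
    rw [hz] at this
    norm_num at this
  rw [hρ]
  by_cases hx : 1 < v x
  · -- large
    left
    have e1 : v (x + I) = v x := by
      rw [add_comm]; apply add_eq hv; rw [hI1]; exact hx
    have e2 : v (1 - x) = v x := by
      rw [← map_neg_eq_map v (1 - x), neg_sub]
      apply sub_eq hv; rw [map_one]; exact hx
    have e3 : v (1 + x) = v x := by
      apply add_eq hv; rw [map_one]; exact hx
    rw [e1, e2, e3]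
    have hr : v x ^ 4 / (v x * v x * v x) = v x := by field_simp
    rw [hr, map_mul, map_neg_eq_map, h4, one_mul]
    rw [e2] at hA3
    have hA1 : 1 ≤ v A := by
      by_contra hc
      have : v A ^ 3 < 1 := pow_lt_one₀ pA.le (not_le.1 hc) (by norm_num)
      nlinarith
    apply le_sq_of hA1
    by_contra hc
    have hc' := not_le.1 hc
    have : (v A ^ 2) ^ 3 < v x ^ 3 := pow_lt_pow_left₀ hc' (by positivity) (by norm_num)
    have e4 : (v A ^ 2) ^ 3 = v x ^ 4 := by
      calc (v A ^ 2) ^ 3 = (v A ^ 3) ^ 2 := by ring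
        _ = v x ^ 4 := by rw [hA3]; ring
    rw [e4] at this
    have : v x ^ 3 ≤ v x ^ 4 := pow_le_pow_right₀ hx.le (by norm_num)
    linarith
  · have hx' : v x ≤ 1 := not_lt.1 hx
    have q0 : v (x + I) ≤ 1 := add_le hv hx' hI1.le
    have q1 : v (1 - x) ≤ 1 := sub_le hv (by simp) hx'
    have q2 : v (1 + x) ≤ 1 := add_le hv (by simp) hx'
    have q4 : v (x + I) ^ 4 ≤ 1 := pow_le_one₀ (v.nonneg _) q0
    by_cases c0 : v x < 1
    · right; left
      have e1 : v (1 - x) = 1 := by
        rw [sub_eq hv (by rw [map_one]; exact c0), map_one]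
      have e2 : v (1 + x) = 1 := by
        rw [add_comm, add_eq hv (by rw [map_one]; exact c0), map_one]
      rw [map_div₀, map_mul, map_pow, h4, e1, e2, mul_one, mul_one, mul_one, one_div]
      rw [e1, mul_one] at hA3
      have hA1 : v A ≤ 1 := by
        by_contra hc
        have : 1 < v A ^ 3 := one_lt_pow₀ (not_le.1 hc) (by norm_num)
        linarith
      apply inv_bound pA hA1 (n := 3) (by norm_num)
      rw [hA3, div_eq_mul_inv]
      exact mul_le_of_le_one_left (by positivity) q4
    · have g0 : v x = 1 := le_antisymm hx' (not_lt.1 c0)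
      rw [g0, one_mul] at hA3 ⊢
      by_cases c1 : v (1 - x) < 1
      · right; right; left
        have e2 : v (1 + x) = 1 := by
          have : 1 + x = 2 - (1 - x) := by ring
          rw [this, sub_eq hv (by rw [h2]; exact c1), h2]
        rw [map_div₀, map_mul, map_pow, h4, g0, e2, mul_one, mul_one, one_div]
        have hA1 : v A ≤ 1 := by
          by_contra hc
          have : 1 < v A ^ 3 := one_lt_pow₀ (not_le.1 hc) (by norm_num)
          linarith
        apply inv_bound pA hA1 (n := 3) (by norm_num)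
        rw [hA3, div_eq_mul_inv]
        exact mul_le_of_le_one_left (by positivity) q4
      · have g1 : v (1 - x) = 1 := le_antisymm q1 (not_lt.1 c1)
        rw [g1] at hA3
        rw [g1, one_mul]
        have hA1 : v A = 1 := pow_eq_one pA.le (n := 3) (by norm_num) hA3
        by_cases c2 : v (1 + x) < 1
        · right; right; right
          have hcub : A ^ 3 - β ^ 3 = (1 + x) * (3 - (1 + x)) := by
            rw [hA, hβ]; ring
          have e3 : v (3 - (1 + x)) = 1 := by
            rw [sub_eq hv (by rw [h3]; exact c2), h3]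
          have hr : v (A ^ 3 - β ^ 3) = v (1 + x) := by
            rw [hcub, map_mul, e3, mul_one]
          obtain ⟨j, hj⟩ := root hv h3 hω hβ1 hA1 c2 hr
          refine ⟨j, ?_, ?_⟩
          · intro h
            rw [h, sub_self, map_zero] at hj
            exact p2.ne hj
          · obtain ⟨hw, -, -⟩ := omega hv h3 hω
            set b : L := β * ω ^ (j : ℕ) with hb
            have hb1 : v b = 1 := by rw [hb, map_mul, map_pow, hβ1, hw]; norm_num
            have hb3 : b ^ 3 = -2 := by
              rw [hb, mul_pow, hβ, ← pow_mul, mul_comm (j : ℕ) 3, pow_mul, hω.pow_eq_one,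
                one_pow, mul_one]
            have hN : 2 - 3 * x - A * b * (A + b) =
                9 - (3 * (1 + x) + (A - b) * (3 * b ^ 2 + b * (A - b))) := by
              linear_combination (-2) * hb3
            have hN1 : v (2 - 3 * x - A * b * (A + b)) = 1 := by
              rw [hN, sub_eq hv, h9]
              rw [h9]
              apply add_lt hv
              · rw [map_mul, h3, one_mul]; exact c2
              · rw [map_mul, hj]
                have : v (3 * b ^ 2 + b * (A - b)) ≤ 1 := by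
                  apply add_le hv
                  · rw [map_mul, map_pow, h3, hb1]; norm_num
                  · rw [map_mul, hb1, hj, one_mul]; exact c2.le
                calc v (1 + x) * v (3 * b ^ 2 + b * (A - b)) ≤ v (1 + x) * 1 :=
                      mul_le_mul_of_nonneg_left this p2.le
                  _ < 1 := by rw [mul_one]; exact c2
            rw [map_div₀, map_mul, map_pow, h4, hN1, hj, mul_one, one_div]
            apply inv_bound p2 c2.le (n := 1) (by norm_num)
            rw [pow_one, div_eq_mul_inv]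
            exact mul_le_of_le_one_left (by positivity) q4
        · have g2 : v (1 + x) = 1 := le_antisymm q2 (not_lt.1 c2)
          left
          rw [g2, div_one, max_eq_right q4]
          exact one_le_pow₀ (le_max_right _ _)

end UBC
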