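import Pool.Agent.UBC.GapGroup

/-!
# Clusters in an abelian group with a quadratic height
-/

set_option autoImplicit false

namespace UBC

/-- V6.  Many elements of height at most `lam * H` contain `M` with pairwise differences of height at
most `ε * H`. -/
theorem cluster {G : Type*} [AddCommGroup G] (h : G → ℝ) (C : ℝ)
    (hpar : ∀ x y, |h (x + y) + h (x - y) - 2 * (h x + h y)| ≤ C) (h0 : ∀ x, 0 ≤ h x)
    (hN : ∀ B : ℝ, {x | h x ≤ B}.Finite)
    (R : Set G) (hRf : R.Finite) (hR : ∀ x, ∃ g ∈ R, ∃ y, x = g + (y + y))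
    (M : ℕ) (lam ε : ℝ) (hε : 0 < ε) :
    ∃ (N : ℕ) (H0 : ℝ), ∀ H : ℝ, H0 ≤ H → ∀ A : Finset G, (∀ a ∈ A, h a ≤ lam * H) →
      N < A.card → ∃ f : Fin M → G, Function.Injective f ∧ (∀ i, f i ∈ A) ∧
        ∀ i j, h (f i - f j) ≤ ε * H := by
  classical
  have hC : 0 ≤ C := (abs_nonneg _).trans (hpar 0 0)
  have hz : h 0 ≤ C / 2 := by
    have h1 := (abs_le.mp (hpar 0 0)).1
    simp only [add_zero, sub_zero] at h1
    linarith
  have hsub : ∀ x y, h (x - y) ≤ 2 * h x + 2 * h y + C := fun x y => by
    have h1 := (abs_le.mp (hpar x y)).2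
    have h2 := h0 (x + y)
    linarith
  have hneg : ∀ x, h (-x) ≤ h x + 2 * C := fun x => by
    have h1 := (abs_le.mp (hpar 0 x)).2
    rw [zero_add, zero_sub] at h1
    linarith
  have hε8 : 0 < ε / 8 := by linarith
  obtain ⟨N0, H0, hg⟩ := gap_group h C hpar h0 hN R hRf hR lam (ε / 8) hε8
  refine ⟨N0 * M, max H0 (18 * C / ε), fun H hH A hA hcard => ?_⟩
  have hH0 : H0 ≤ H := (le_max_left _ _).trans hH
  have hHC : 18 * C ≤ ε * H := by
    have h1 : 18 * C / ε ≤ H := (le_max_right _ _).trans hH
    rw [div_le_iff₀ hε] at h1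
    linarith
  -- a maximal separated subset
  set P : Finset (Finset G) := A.powerset.filter
    (fun S => ∀ a ∈ S, ∀ b ∈ S, a ≠ b → ε / 8 * H ≤ h (a - b)) with hP
  have hPne : P.Nonempty := ⟨∅, by simp [hP]⟩
  obtain ⟨S, hSP, hSmax⟩ := P.exists_max_image Finset.card hPne
  have hSA : S ⊆ A := by
    rw [hP, Finset.mem_filter, Finset.mem_powerset] at hSP
    exact hSP.1
  have hSsep : ∀ a ∈ S, ∀ b ∈ S, a ≠ b → ε / 8 * H ≤ h (a - b) := by
    rw [hP, Finset.mem_filter, Finset.mem_powerset] at hSP
    exact hSP.2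
  have hScard : S.card ≤ N0 := by
    by_contra hlt
    rw [not_le] at hlt
    obtain ⟨a, ha, b, hb, hab, hlt'⟩ := hg H hH0 S (fun a ha => hA a (hSA ha)) hlt
    exact absurd (hSsep a ha b hb hab) (not_le.mpr hlt')
  have hnear : ∀ a ∈ A, ∃ s ∈ S, h (a - s) ≤ ε / 8 * H + 2 * C := by
    intro a ha
    by_contra hcon
    push Not at hcon
    have haS : a ∉ S := fun haS => by
      have h1 := hcon a haS
      rw [sub_self] at h1
      linarith
    have hins : insert a S ∈ P := by
      rw [hP, Finset.mem_filter, Finset.mem_powerset]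
      refine ⟨Finset.insert_subset ha hSA, ?_⟩
      intro x hx y hy hxy
      rw [Finset.mem_insert] at hx hy
      rcases hx with rfl | hx
      · rcases hy with rfl | hy
        · exact absurd rfl hxy
        · have h1 := hcon y hy
          linarith
      · rcases hy with rfl | hy
        · have h1 := hcon x hx
          have h2 := hneg (x - y)
          rw [neg_sub] at h2
          linarith
        · exact hSsep x hx y hy hxy
    have h1 := hSmax _ hins
    rw [Finset.card_insert_of_notMem haS] at h1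
    omega
  choose! g hgS hgh using hnear
  have hfib : ∃ s ∈ S, M ≤ (A.filter fun a => g a = s).card := by
    by_contra hcon
    push Not at hcon
    have h1 : A.card ≤ S.card * M := by
      rw [Finset.card_eq_sum_card_fiberwise (f := g) (t := S) (fun a ha => hgS a ha)]
      refine (Finset.sum_le_card_nsmul S _ M fun s hs => (hcon s hs).le).trans ?_
      rw [smul_eq_mul]
    have h2 : S.card * M ≤ N0 * M := Nat.mul_le_mul_right _ hScard
    omega
  obtain ⟨s, _, hs⟩ := hfib
  obtain ⟨T, hTsub, hTcard⟩ := Finset.exists_subset_card_eq hs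
  let e : Fin M ≃ T := (Fin.castOrderIso hTcard.symm).toEquiv.trans T.equivFin.symm
  refine ⟨fun i => (e i : G), ?_, ?_, ?_⟩
  · intro i j hij
    exact e.injective (Subtype.ext hij)
  · intro i
    have h1 := hTsub (e i).2
    rw [Finset.mem_filter] at h1
    exact h1.1
  · intro i j
    have h1 := hTsub (e i).2
    have h2 := hTsub (e j).2
    rw [Finset.mem_filter] at h1 h2
    have h3 := hgh _ h1.1
    have h4 := hgh _ h2.1
    rw [h1.2] at h3
    rw [h2.2] at h4
    have h5 := hsub ((e i : G) - s) ((e j : G) - s)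
    rw [sub_sub_sub_cancel_right] at h5
    show h ((e i : G) - (e j : G)) ≤ ε * H
    linarith

end UBC
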