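import Pool.Agent.UBC.GapBi
import Pool.Agent.UBC.Mobius

/-!
# Gap property for points where four linear forms are cubes
-/

set_option autoImplicit false
set_option linter.unusedSectionVars false

namespace UBC

open Height NumberField

namespace CubeGapAux

section Alg

variable {L : Type*} [Field L] [CharZero L]

lemma b_sq {e : Fin 4 → L} (he : Function.Injective e) {b : L}
    (hb : b = (4 * (e 0 * e 1 + e 2 * e 3) - 2 * (e 0 + e 1) * (e 2 + e 3)) /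
      ((e 0 - e 1) * (e 2 - e 3))) : b ^ 2 ≠ 4 := by
  have h01 : e 0 - e 1 ≠ 0 := sub_ne_zero.mpr (fun h => by simpa using he h)
  have h23 : e 2 - e 3 ≠ 0 := sub_ne_zero.mpr (fun h => by simpa using he h)
  have h02 : e 0 - e 2 ≠ 0 := sub_ne_zero.mpr (fun h => by simpa using he h)
  have h03 : e 0 - e 3 ≠ 0 := sub_ne_zero.mpr (fun h => by simpa using he h)
  have h12 : e 1 - e 2 ≠ 0 := sub_ne_zero.mpr (fun h => by simpa using he h)
  have h13 : e 1 - e 3 ≠ 0 := sub_ne_zero.mpr (fun h => by simpa using he h)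
  intro h
  have hD : (e 0 - e 1) * (e 2 - e 3) ≠ 0 := mul_ne_zero h01 h23
  rw [eq_div_iff hD] at hb
  have h1 : 16 * ((e 0 - e 2) * (e 0 - e 3) * ((e 1 - e 2) * (e 1 - e 3))) = 0 := by
    have h2 : (b * ((e 0 - e 1) * (e 2 - e 3))) ^ 2 =
        (4 * (e 0 * e 1 + e 2 * e 3) - 2 * (e 0 + e 1) * (e 2 + e 3)) ^ 2 := by rw [hb]
    rw [mul_pow, h] at h2
    linear_combination -h2
  have h16 : (16 : L) ≠ 0 := by norm_num
  exact mul_ne_zero h16 (mul_ne_zero (mul_ne_zero h02 h03) (mul_ne_zero h12 h13)) h1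

lemma prod3 {ω : L} (hω : ω ^ 2 + ω + 1 = 0) (x y : L) :
    (x + y) * (x + ω * y) * (x + ω ^ 2 * y) = x ^ 3 + y ^ 3 := by
  linear_combination (x ^ 2 * y + x * y ^ 2 * ω + y ^ 3 * (ω - 1)) * hω

/-- the roots -/
def rr (ω σ : L) : Fin 3 → L := fun i => ((ω ^ (i : ℕ) * σ - 1) / (ω ^ (i : ℕ) * σ + 1)) ^ 2

variable {ω σ b : L}

lemma om3 (hω : ω ^ 2 + ω + 1 = 0) : ω ^ 3 = 1 := by
  linear_combination (ω - 1) * hω

lemma sig_ne (hσ : σ ^ 6 + b * σ ^ 3 + 1 = 0) : σ ≠ 0 := by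
  rintro rfl
  norm_num at hσ

lemma sig3_one (hσ : σ ^ 6 + b * σ ^ 3 + 1 = 0) (hb : b ^ 2 ≠ 4) : σ ^ 3 ≠ 1 := by
  intro h
  apply hb
  have h1 : σ ^ 6 = 1 := by
    rw [show σ ^ 6 = (σ ^ 3) ^ 2 by ring, h, one_pow]
  rw [h1, h] at hσ
  linear_combination (b - 2) * hσ

lemma sig3_neg (hσ : σ ^ 6 + b * σ ^ 3 + 1 = 0) (hb : b ^ 2 ≠ 4) : σ ^ 3 ≠ -1 := by
  intro h
  apply hb
  have h1 : σ ^ 6 = 1 := by
    rw [show σ ^ 6 = (σ ^ 3) ^ 2 by ring, h]
    ring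
  rw [h1, h] at hσ
  linear_combination -(b + 2) * hσ

lemma a_cube (hω : ω ^ 2 + ω + 1 = 0) (i : Fin 3) : (ω ^ (i : ℕ) * σ) ^ 3 = σ ^ 3 := by
  rw [mul_pow, ← pow_mul, mul_comm (i : ℕ) 3, pow_mul, om3 hω, one_pow, one_mul]

lemma a_ne_neg (hω : ω ^ 2 + ω + 1 = 0) (hσ : σ ^ 6 + b * σ ^ 3 + 1 = 0) (hb : b ^ 2 ≠ 4)
    (i : Fin 3) : ω ^ (i : ℕ) * σ + 1 ≠ 0 := by
  intro h
  apply sig3_neg hσ hb
  rw [← a_cube hω i, eq_neg_of_add_eq_zero_left h]
  ring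

lemma a_ne_one (hω : ω ^ 2 + ω + 1 = 0) (hσ : σ ^ 6 + b * σ ^ 3 + 1 = 0) (hb : b ^ 2 ≠ 4)
    (i : Fin 3) : ω ^ (i : ℕ) * σ - 1 ≠ 0 := by
  intro h
  apply sig3_one hσ hb
  rw [← a_cube hω i, sub_eq_zero.mp h, one_pow]

lemma rr_ne (hω : ω ^ 2 + ω + 1 = 0) (hσ : σ ^ 6 + b * σ ^ 3 + 1 = 0) (hb : b ^ 2 ≠ 4)
    (i : Fin 3) : rr ω σ i ≠ 0 :=
  pow_ne_zero 2 (div_ne_zero (a_ne_one hω hσ hb i) (a_ne_neg hω hσ hb i))

lemma om_ne_one (hω : ω ^ 2 + ω + 1 = 0) : ω ≠ 1 := by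
  rintro rfl
  norm_num at hω

lemma om_ne_zero (hω : ω ^ 2 + ω + 1 = 0) : ω ≠ 0 := by
  rintro rfl
  norm_num at hω

lemma pow_inj (hω : ω ^ 2 + ω + 1 = 0) {i j : Fin 3} (h : ω ^ (i : ℕ) = ω ^ (j : ℕ)) : i = j := by
  have h1 := om_ne_one hω
  have h0 := om_ne_zero hω
  have h2 : ω ^ 2 ≠ 1 := by
    intro h3
    have h4 : ω = -2 := by linear_combination hω - h3
    rw [h4] at h3
    norm_num at h3
  have h3 : ω ^ 2 ≠ ω := by
    intro h3
    rw [pow_two] at h3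
    exact h1 (mul_right_cancel₀ h0 (by rw [h3, one_mul]))
  fin_cases i <;> fin_cases j <;> simp at h ⊢
  · exact h1 h.symm
  · exact h2 h.symm
  · exact h1 h
  · exact h3 h.symm
  · rcases h with h | h
    · exact h1 h
    · exact h2 (by rw [h]; ring)
  · exact h3 h

lemma rr_inj (hω : ω ^ 2 + ω + 1 = 0) (hσ : σ ^ 6 + b * σ ^ 3 + 1 = 0) (hb : b ^ 2 ≠ 4) :
    Function.Injective (rr ω σ) := by
  intro i j h
  have hi := a_ne_neg hω hσ hb i
  have hj := a_ne_neg hω hσ hb j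
  have h2 : (2 : L) ≠ 0 := two_ne_zero
  rcases sq_eq_sq_iff_eq_or_eq_neg.mp (show ((ω ^ (i : ℕ) * σ - 1) / (ω ^ (i : ℕ) * σ + 1)) ^ 2 =
    ((ω ^ (j : ℕ) * σ - 1) / (ω ^ (j : ℕ) * σ + 1)) ^ 2 from h) with h1 | h1
  · rw [div_eq_div_iff hi hj] at h1
    apply pow_inj hω
    apply mul_right_cancel₀ (sig_ne hσ)
    apply mul_left_cancel₀ h2
    linear_combination h1
  · exfalso
    rw [← neg_div, div_eq_div_iff hi hj] at h1
    have h3 : (ω ^ (i : ℕ) * σ) * (ω ^ (j : ℕ) * σ) = 1 := by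
      apply mul_left_cancel₀ h2
      linear_combination h1
    have h4 : σ ^ 3 * σ ^ 3 = 1 := by
      calc σ ^ 3 * σ ^ 3 = (ω ^ (i : ℕ) * σ) ^ 3 * (ω ^ (j : ℕ) * σ) ^ 3 := by
            rw [a_cube hω i, a_cube hω j]
        _ = ((ω ^ (i : ℕ) * σ) * (ω ^ (j : ℕ) * σ)) ^ 3 := (mul_pow _ _ _).symm
        _ = 1 := by rw [h3, one_pow]
    rcases mul_self_eq_one_iff.mp h4 with h5 | h5
    · exact sig3_one hσ hb h5
    · exact sig3_neg hσ hb h5

/-- the equation of the curve of genus two -/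
lemma key (hω : ω ^ 2 + ω + 1 = 0) (hσ : σ ^ 6 + b * σ ^ 3 + 1 = 0) (hb : b ^ 2 ≠ 4) (s : L) :
    (2 - b) * ((s ^ 2 - rr ω σ 0) * (s ^ 2 - rr ω σ 1) * (s ^ 2 - rr ω σ 2)) =
      (1 + s) ^ 6 + b * ((1 + s) ^ 3 * (1 - s) ^ 3) + (1 - s) ^ 6 := by
  have hf : ∀ i : Fin 3, (s ^ 2 - rr ω σ i) * (ω ^ (i : ℕ) * σ + 1) ^ 2 =
      ((1 + s) - ω ^ (i : ℕ) * σ * (1 - s)) * (ω ^ (i : ℕ) * σ * (1 + s) - (1 - s)) := by
    intro i
    have hi := a_ne_neg hω hσ hb i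
    unfold rr
    rw [sub_mul, ← mul_pow ((ω ^ (i : ℕ) * σ - 1) / (ω ^ (i : ℕ) * σ + 1)), div_mul_cancel₀ _ hi]
    ring
  have h0 := hf 0
  have h1 := hf 1
  have h2 := hf 2
  simp only [Fin.val_zero, Fin.val_one, Fin.val_two, pow_zero, pow_one, one_mul] at h0 h1 h2
  have hp1 := prod3 hω (1 + s) (-(σ * (1 - s)))
  have hp2 := prod3 hω (-(1 - s)) (σ * (1 + s))
  have hp3 := prod3 hω (1 : L) σ
  have hs := sig_ne hσ
  have h3 : (σ ^ 3) ≠ 0 := pow_ne_zero 3 hs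
  apply mul_left_cancel₀ h3
  have hq : σ ^ 3 * (2 - b) = ((1 + σ) * (1 + ω * σ) * (1 + ω ^ 2 * σ)) ^ 2 := by
    rw [hp3]
    linear_combination -hσ
  have e1 : ((1 + σ) * (1 + ω * σ) * (1 + ω ^ 2 * σ)) ^ 2 *
      ((s ^ 2 - rr ω σ 0) * (s ^ 2 - rr ω σ 1) * (s ^ 2 - rr ω σ 2)) =
      ((s ^ 2 - rr ω σ 0) * (σ + 1) ^ 2) * ((s ^ 2 - rr ω σ 1) * (ω * σ + 1) ^ 2) *
      ((s ^ 2 - rr ω σ 2) * (ω ^ 2 * σ + 1) ^ 2) := by ring
  have e2 : (((1 + s) - σ * (1 - s)) * (σ * (1 + s) - (1 - s))) *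
      (((1 + s) - ω * σ * (1 - s)) * (ω * σ * (1 + s) - (1 - s))) *
      (((1 + s) - ω ^ 2 * σ * (1 - s)) * (ω ^ 2 * σ * (1 + s) - (1 - s))) =
      ((1 + s + -(σ * (1 - s))) * (1 + s + ω * -(σ * (1 - s))) *
        (1 + s + ω ^ 2 * -(σ * (1 - s)))) *
      ((-(1 - s) + σ * (1 + s)) * (-(1 - s) + ω * (σ * (1 + s))) *
        (-(1 - s) + ω ^ 2 * (σ * (1 + s)))) := by ring
  rw [← mul_assoc, hq, e1, h0, h1, h2, e2, hp1, hp2]
  linear_combination (-(1 + s) ^ 3 * (1 - s) ^ 3) * hσ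

/-- the square -/
lemma disc {e : Fin 4 → L} {t V : L}
    (hV : V * ((t - e 2) * (t - e 3)) = (t - e 0) * (t - e 1)) :
    (2 * (1 - V) * t - (e 0 + e 1 - V * (e 2 + e 3))) ^ 2 =
      (e 2 - e 3) ^ 2 * V ^ 2 +
        (4 * (e 0 * e 1 + e 2 * e 3) - 2 * (e 0 + e 1) * (e 2 + e 3)) * V + (e 0 - e 1) ^ 2 := by
  linear_combination (-4 * (1 - V)) * hV

lemma disc' {e : Fin 4 → L} (h01 : e 0 - e 1 ≠ 0) (h23 : e 2 - e 3 ≠ 0) {ρ V u y : L}
    (hρ : ρ ^ 3 = (e 0 - e 1) / (e 2 - e 3))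
    (hb : b = (4 * (e 0 * e 1 + e 2 * e 3) - 2 * (e 0 + e 1) * (e 2 + e 3)) /
      ((e 0 - e 1) * (e 2 - e 3))) (hV : V = (u * ρ) ^ 3)
    (hd : y ^ 2 = (e 2 - e 3) ^ 2 * V ^ 2 +
        (4 * (e 0 * e 1 + e 2 * e 3) - 2 * (e 0 + e 1) * (e 2 + e 3)) * V + (e 0 - e 1) ^ 2) :
    u ^ 6 + b * u ^ 3 + 1 = (y / (e 0 - e 1)) ^ 2 := by
  rw [div_pow, hd, hV, mul_pow, hρ, hb]
  field_simp

end Alg

section Ht

variable {L : Type*} [Field L] [NumberField L]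

/-- height of a root of the quadratic equation -/
lemma ht_root (e : Fin 4 → L) : ∃ C : ℝ, ∀ t V : L, 1 - V ≠ 0 →
    V * ((t - e 2) * (t - e 3)) = (t - e 0) * (t - e 1) →
    logHeight₁ t ≤ (7 / 2) * logHeight₁ V + C := by
  set β : L := 4 * (e 0 * e 1 + e 2 * e 3) - 2 * (e 0 + e 1) * (e 2 + e 3) with hβ
  set c : ℝ := totalWeight L * Real.log 2 with hc
  refine ⟨(logHeight₁ ((e 2 - e 3) ^ 2) + logHeight₁ β + 2 * c + logHeight₁ ((e 0 - e 1) ^ 2)) / 2 +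
    c + (c + logHeight₁ (e 0 + e 1) + logHeight₁ (e 2 + e 3)) + logHeight₁ (2 : L) +
    (c + logHeight₁ (1 : L)), ?_⟩
  intro t V hV1 hV
  set w : L := e 0 + e 1 - V * (e 2 + e 3) with hw
  set y : L := 2 * (1 - V) * t - w with hy
  have hd := disc hV
  rw [← hβ, ← hw, ← hy] at hd
  have hyh : 2 * logHeight₁ y ≤ 3 * logHeight₁ V +
      (logHeight₁ ((e 2 - e 3) ^ 2) + logHeight₁ β + 2 * c + logHeight₁ ((e 0 - e 1) ^ 2)) := by
    have h1 : logHeight₁ (y ^ 2) = 2 * logHeight₁ y := by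
      rw [logHeight₁_pow]; push_cast; ring
    rw [← h1, hd]
    have h2 := logHeight₁_add_le ((e 2 - e 3) ^ 2 * V ^ 2 + β * V) ((e 0 - e 1) ^ 2)
    have h3 := logHeight₁_add_le ((e 2 - e 3) ^ 2 * V ^ 2) (β * V)
    have h4 := logHeight₁_mul_le ((e 2 - e 3) ^ 2) (V ^ 2)
    have h5 := logHeight₁_mul_le β V
    have h6 : logHeight₁ (V ^ 2) = 2 * logHeight₁ V := by
      rw [logHeight₁_pow]; push_cast; ring
    rw [h6] at h4
    linarith
  have hwh : logHeight₁ w ≤ logHeight₁ V +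
      (c + logHeight₁ (e 0 + e 1) + logHeight₁ (e 2 + e 3)) := by
    have h1 := logHeight₁_sub_le (e 0 + e 1) (V * (e 2 + e 3))
    have h2 := logHeight₁_mul_le V (e 2 + e 3)
    linarith
  have h2 : (2 : L) ≠ 0 := two_ne_zero
  have ht : t = (y + w) * (2 * (1 - V))⁻¹ := by
    rw [hy]
    field_simp
    ring
  have h3 : logHeight₁ t ≤ logHeight₁ (y + w) + logHeight₁ (2 * (1 - V)) := by
    conv_lhs => rw [ht]
    refine (logHeight₁_mul_le _ _).trans ?_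
    rw [logHeight₁_inv]
  have h4 := logHeight₁_add_le y w
  have h5 := logHeight₁_mul_le (2 : L) (1 - V)
  have h6 := logHeight₁_sub_le (1 : L) V
  linarith

end Ht

section Pol

open Polynomial

variable {L : Type*} [Field L]

/-- the first exceptional polynomial -/
noncomputable def p1 (e : Fin 4 → L) : L[X] :=
  C (e 2 - e 3) * ((X - C (e 0)) * (X - C (e 1))) + C (e 0 - e 1) * ((X - C (e 2)) * (X - C (e 3)))

/-- the second exceptional polynomial -/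
noncomputable def p2 (e : Fin 4 → L) (V : L) : L[X] :=
  (X - C (e 0)) * (X - C (e 1)) - C V * ((X - C (e 2)) * (X - C (e 3)))

lemma p1_eval (e : Fin 4 → L) (t : L) : (p1 e).eval t =
    (e 2 - e 3) * ((t - e 0) * (t - e 1)) + (e 0 - e 1) * ((t - e 2) * (t - e 3)) := by
  simp [p1]

lemma p2_eval (e : Fin 4 → L) (V t : L) : (p2 e V).eval t =
    (t - e 0) * (t - e 1) - V * ((t - e 2) * (t - e 3)) := by
  simp [p2]

lemma p1_ne {e : Fin 4 → L} (he : Function.Injective e) : p1 e ≠ 0 := by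
  intro h
  have h1 := p1_eval e (e 0)
  rw [h, eval_zero, sub_self, zero_mul, mul_zero, zero_add] at h1
  have h01 : e 0 - e 1 ≠ 0 := sub_ne_zero.mpr (fun h => by simpa using he h)
  have h02 : e 0 - e 2 ≠ 0 := sub_ne_zero.mpr (fun h => by simpa using he h)
  have h03 : e 0 - e 3 ≠ 0 := sub_ne_zero.mpr (fun h => by simpa using he h)
  exact mul_ne_zero h01 (mul_ne_zero h02 h03) h1.symm

lemma p2_ne {e : Fin 4 → L} (he : Function.Injective e) {V : L} (hV : V ≠ 0) : p2 e V ≠ 0 := by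
  intro h
  have h1 := p2_eval e V (e 0)
  rw [h, eval_zero, sub_self, zero_mul, zero_sub] at h1
  have h02 : e 0 - e 2 ≠ 0 := sub_ne_zero.mpr (fun h => by simpa using he h)
  have h03 : e 0 - e 3 ≠ 0 := sub_ne_zero.mpr (fun h => by simpa using he h)
  exact neg_ne_zero.mpr (mul_ne_zero hV (mul_ne_zero h02 h03)) h1.symm

lemma p2_deg (e : Fin 4 → L) (V : L) : (p2 e V).natDegree ≤ 2 := by
  unfold p2
  compute_degree

end Pol

section Main

variable {L : Type*} [Field L] [NumberField L]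

/-- an upper bound for the height of `V` -/
lemma ht_V {e : Fin 4 → L} (he : Function.Injective e) : ∃ C : ℝ, ∀ t : L, (∀ j, t ≠ e j) →
    logHeight₁ ((t - e 0) * (t - e 1) / ((t - e 2) * (t - e 3))) ≤ 2 * logHeight₁ t + C := by
  obtain ⟨C1, hC1⟩ := height_mobius (1 : L) (-e 0) 1 (-e 2) (by
    have h02 : e 0 - e 2 ≠ 0 := sub_ne_zero.mpr (fun h => by simpa using he h)
    intro h
    exact h02 (by linear_combination h))
  obtain ⟨C2, hC2⟩ := height_mobius (1 : L) (-e 1) 1 (-e 3) (by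
    have h13 : e 1 - e 3 ≠ 0 := sub_ne_zero.mpr (fun h => by simpa using he h)
    intro h
    exact h13 (by linear_combination h))
  refine ⟨C1 + C2, fun t ht => ?_⟩
  have h2 : (1 : L) * t + -e 2 ≠ 0 := by
    intro h
    exact ht 2 (by linear_combination h)
  have h3 : (1 : L) * t + -e 3 ≠ 0 := by
    intro h
    exact ht 3 (by linear_combination h)
  have h4 := hC1 t h2
  have h5 := hC2 t h3
  rw [abs_le] at h4 h5
  have h6 := logHeight₁_mul_le ((1 * t + -e 0) / (1 * t + -e 2)) ((1 * t + -e 1) / (1 * t + -e 3))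
  have h7 : (1 * t + -e 0) / (1 * t + -e 2) * ((1 * t + -e 1) / (1 * t + -e 3)) =
      (t - e 0) * (t - e 1) / ((t - e 2) * (t - e 3)) := by
    rw [div_mul_div_comm]
    simp only [one_mul, ← sub_eq_add_neg]
  rw [h7] at h6
  linarith [h4.2, h5.2]

end Main

end CubeGapAux

variable {L : Type*} [Field L] [NumberField L]

open CubeGapAux in
/-- U11. (`v = z 1 / (z 2 * z 3)`, `V = v ^ 3`, `v = ρ u`, `u = (1 + s) / (1 - s)`,
`κ = 2 - b`, `r i = ((ω ^ i * σ - 1) / (ω ^ i * σ + 1)) ^ 2`; see the paper proof.) -/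
theorem gap_cubes (e : Fin 4 → L) (he : Function.Injective e) (ω ρ σ b : L)
    (hω : ω ^ 2 + ω + 1 = 0) (hρ : ρ ^ 3 = (e 0 - e 1) / (e 2 - e 3))
    (hb : b = (4 * (e 0 * e 1 + e 2 * e 3) - 2 * (e 0 + e 1) * (e 2 + e 3)) /
      ((e 0 - e 1) * (e 2 - e 3)))
    (hσ : σ ^ 6 + b * σ ^ 3 + 1 = 0) :
    Gap (fun t : L => logHeight₁ t)
      {t : L | ∀ j, t ≠ e j ∧ ∃ z : L, z ^ 3 = (t - e j) / (t - e 0)} := by
  classical
  have h01 : e 0 - e 1 ≠ 0 := sub_ne_zero.mpr (fun h => by simpa using he h)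
  have h23 : e 2 - e 3 ≠ 0 := sub_ne_zero.mpr (fun h => by simpa using he h)
  have hb4 := b_sq he hb
  have hκ : 2 - b ≠ 0 := by
    intro h
    apply hb4
    rw [← sub_eq_zero.mp h]
    norm_num
  have hρ0 : ρ ≠ 0 := by
    rintro rfl
    rw [zero_pow three_ne_zero] at hρ
    exact div_ne_zero h01 h23 hρ.symm
  have h2 : (2 : L) ≠ 0 := two_ne_zero
  -- the exceptional points
  set E : Finset L := (p1 e).roots.toFinset ∪ (p2 e 1).roots.toFinset with hE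
  set B : ℝ := 1 + ∑ t ∈ E, logHeight₁ t with hB
  have hEB : ∀ t ∈ E, logHeight₁ t < B := by
    intro t ht
    have := Finset.single_le_sum (f := fun t : L => logHeight₁ t)
      (fun i _ => zero_le_logHeight₁ i) ht
    linarith
  apply Gap.of_large B
  -- the data of a point
  have hdata : ∀ t : L, ∃ v : L, (t ∈ {t : L | ∀ j, t ≠ e j ∧ ∃ z : L, z ^ 3 = (t - e j) / (t - e 0)}) →
      v ^ 3 = (t - e 0) * (t - e 1) / ((t - e 2) * (t - e 3)) := by
    intro t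
    by_cases ht : t ∈ {t : L | ∀ j, t ≠ e j ∧ ∃ z : L, z ^ 3 = (t - e j) / (t - e 0)}
    · obtain ⟨z1, hz1⟩ := (ht 1).2
      obtain ⟨z2, hz2⟩ := (ht 2).2
      obtain ⟨z3, hz3⟩ := (ht 3).2
      have ht0 : t - e 0 ≠ 0 := sub_ne_zero.mpr (ht 0).1
      have ht2 : t - e 2 ≠ 0 := sub_ne_zero.mpr (ht 2).1
      have ht3 : t - e 3 ≠ 0 := sub_ne_zero.mpr (ht 3).1
      refine ⟨z1 / (z2 * z3), fun _ => ?_⟩
      rw [div_pow, mul_pow, hz1, hz2, hz3]
      field_simp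
    · exact ⟨0, fun h => absurd h ht⟩
  choose v hv using hdata
  obtain ⟨C1, hC1⟩ := height_mobius (1 : L) (-1) 1 1 (by norm_num)
  obtain ⟨C2, hC2⟩ := ht_V he
  obtain ⟨C3, hC3⟩ := ht_root e
  set u : L → L := fun t => v t / ρ with hu
  -- facts on points
  have hfact : ∀ t ∈ {t | t ∈ {t : L | ∀ j, t ≠ e j ∧ ∃ z : L, z ^ 3 = (t - e j) / (t - e 0)} ∧
      B ≤ logHeight₁ t}, (∀ j, t ≠ e j) ∧ v t ^ 3 = (t - e 0) * (t - e 1) / ((t - e 2) * (t - e 3)) ∧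
      v t ^ 3 * ((t - e 2) * (t - e 3)) = (t - e 0) * (t - e 1) ∧
      u t + 1 ≠ 0 ∧ 1 - v t ^ 3 ≠ 0 ∧ v t ≠ 0 := by
    rintro t ⟨ht, htB⟩
    have htE : t ∉ E := fun h => absurd (hEB t h) (not_lt.mpr htB)
    have ht0 : t - e 0 ≠ 0 := sub_ne_zero.mpr (ht 0).1
    have ht1 : t - e 1 ≠ 0 := sub_ne_zero.mpr (ht 1).1
    have ht2 : t - e 2 ≠ 0 := sub_ne_zero.mpr (ht 2).1
    have ht3 : t - e 3 ≠ 0 := sub_ne_zero.mpr (ht 3).1
    have hV := hv t ht
    have hV' : v t ^ 3 * ((t - e 2) * (t - e 3)) = (t - e 0) * (t - e 1) := by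
      rw [hV, div_mul_cancel₀ _ (mul_ne_zero ht2 ht3)]
    refine ⟨fun j => (ht j).1, hV, hV', ?_, ?_, ?_⟩
    · intro h
      apply htE
      rw [hE, Finset.mem_union]
      left
      rw [Multiset.mem_toFinset, Polynomial.mem_roots (p1_ne he), Polynomial.IsRoot, p1_eval]
      have h1 : v t = -ρ := by
        have h3 : v t / ρ = -1 := eq_neg_of_add_eq_zero_left h
        rw [div_eq_iff hρ0] at h3
        rw [h3]; ring
      rw [h1, neg_pow, hρ] at hV'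
      have h4 : (-1 : L) ^ 3 = -1 := by norm_num
      rw [h4] at hV'
      rw [← hV']
      field_simp
      ring
    · intro h
      apply htE
      rw [hE, Finset.mem_union]
      right
      rw [Multiset.mem_toFinset, Polynomial.mem_roots (p2_ne he one_ne_zero), Polynomial.IsRoot,
        p2_eval]
      rw [← sub_eq_zero.mp h] at hV'
      rw [hV', sub_self]
    · intro h
      rw [h, zero_pow three_ne_zero] at hV
      exact div_ne_zero (mul_ne_zero ht0 ht1) (mul_ne_zero ht2 ht3) hV.symm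
  have hVu : ∀ t : L, v t = u t * ρ := fun t => (div_mul_cancel₀ _ hρ0).symm
  refine Gap.transfer (gap_bielliptic (2 - b) hκ (rr ω σ) (rr_inj hω hσ hb4) (rr_ne hω hσ hb4))
    (fun t => (u t - 1) / (u t + 1)) 2 (1 / 11) 1
    (|C1| + logHeight₁ ρ + |C2| + |C3|) (by norm_num) ?_ ?_ ?_ ?_
  · -- membership
    intro t ht
    obtain ⟨hte, hV, hV', hu1, hV1, hv0⟩ := hfact t ht
    show IsSquare _
    set s := (u t - 1) / (u t + 1) with hs
    rw [key hω hσ hb4]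
    have e1 : 1 + s = 2 * u t / (u t + 1) := by
      rw [hs]; field_simp; ring
    have e2 : 1 - s = 2 / (u t + 1) := by
      rw [hs]; field_simp; ring
    have hd := disc hV'
    set y := 2 * (1 - v t ^ 3) * t - (e 0 + e 1 - v t ^ 3 * (e 2 + e 3)) with hy
    have h4 : u t ^ 6 + b * u t ^ 3 + 1 = (y / (e 0 - e 1)) ^ 2 :=
      disc' h01 h23 hρ hb (by rw [← hVu t]) hd
    have h5 : (1 + s) ^ 6 + b * ((1 + s) ^ 3 * (1 - s) ^ 3) + (1 - s) ^ 6 =
        (2 / (u t + 1)) ^ 6 * (u t ^ 6 + b * u t ^ 3 + 1) := by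
      rw [e1, e2]
      ring
    rw [h5, h4]
    exact ⟨(2 / (u t + 1)) ^ 3 * (y / (e 0 - e 1)), by ring⟩
  · -- lower bound
    intro t ht
    obtain ⟨hte, hV, hV', hu1, hV1, hv0⟩ := hfact t ht
    have h3 := hC3 t (v t ^ 3) hV1 hV'
    have h4 : logHeight₁ (v t ^ 3) = 3 * logHeight₁ (v t) := by
      rw [logHeight₁_pow]; push_cast; ring
    have h5 : logHeight₁ (v t) ≤ logHeight₁ (u t) + logHeight₁ ρ := by
      rw [hVu t]
      exact logHeight₁_mul_le _ _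
    have h6 := hC1 (u t) (by rw [one_mul]; exact hu1)
    have h7 : (1 * u t + -1) / (1 * u t + 1) = (u t - 1) / (u t + 1) := by
      simp only [one_mul, ← sub_eq_add_neg]
    rw [h7, abs_le] at h6
    have h8 := zero_le_logHeight₁ ρ
    have h9 := zero_le_logHeight₁ ((u t - 1) / (u t + 1))
    have h10 := le_abs_self C1
    have h11 := le_abs_self C3
    have h12 := abs_nonneg C2
    have h13 := abs_nonneg C1
    have h14 := abs_nonneg C3
    linarith [h6.1]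
  · -- upper bound
    intro t ht
    obtain ⟨hte, hV, hV', hu1, hV1, hv0⟩ := hfact t ht
    have h3 := hC2 t hte
    have h4 : logHeight₁ (v t ^ 3) = 3 * logHeight₁ (v t) := by
      rw [logHeight₁_pow]; push_cast; ring
    rw [← hV, h4] at h3
    have h5 : logHeight₁ (u t) ≤ logHeight₁ (v t) + logHeight₁ ρ := by
      show logHeight₁ (v t / ρ) ≤ _
      rw [div_eq_mul_inv]
      refine (logHeight₁_mul_le _ _).trans ?_
      rw [logHeight₁_inv]
    have h6 := hC1 (u t) (by rw [one_mul]; exact hu1)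
    have h7 : (1 * u t + -1) / (1 * u t + 1) = (u t - 1) / (u t + 1) := by
      simp only [one_mul, ← sub_eq_add_neg]
    rw [h7, abs_le] at h6
    have h8 := zero_le_logHeight₁ ρ
    have h9 := zero_le_logHeight₁ t
    have h10 := le_abs_self C1
    have h11 := le_abs_self C2
    have h12 := abs_nonneg C2
    have h13 := abs_nonneg C1
    have h14 := abs_nonneg C3
    linarith [h6.2]
  · -- fibres
    intro A u0 hA
    rcases A.eq_empty_or_nonempty with hA0 | ⟨t0, ht0⟩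
    · rw [hA0]; simp
    have hV0 : ∀ t ∈ A, v t = ρ * ((1 + u0) / (1 - u0)) := by
      intro t ht
      obtain ⟨htT, htu⟩ := hA t ht
      obtain ⟨hte, hV, hV', hu1, hV1, hv0⟩ := hfact t htT
      have e2 : 1 - u0 = 2 / (u t + 1) := by
        rw [← htu]; field_simp; ring
      have e1 : 1 + u0 = 2 * u t / (u t + 1) := by
        rw [← htu]; field_simp; ring
      have h3 : (2 : L) / (u t + 1) ≠ 0 := div_ne_zero h2 hu1
      rw [e1, e2, hVu t]
      field_simp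
    set V0 := (ρ * ((1 + u0) / (1 - u0))) ^ 3 with hV0d
    have hV0ne : V0 ≠ 0 := by
      obtain ⟨hte, hV, hV', hu1, hV1, hv0⟩ := hfact t0 (hA t0 ht0).1
      rw [hV0d, ← hV0 t0 ht0]
      exact pow_ne_zero 3 hv0
    have hsub : A ⊆ (p2 e V0).roots.toFinset := by
      intro t ht
      obtain ⟨hte, hV, hV', hu1, hV1, hv0⟩ := hfact t (hA t ht).1
      rw [Multiset.mem_toFinset, Polynomial.mem_roots (p2_ne he hV0ne), Polynomial.IsRoot, p2_eval,
        hV0d, ← hV0 t ht, hV', sub_self]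
    exact (Finset.card_le_card hsub).trans ((Multiset.toFinset_card_le _).trans
      ((Polynomial.card_roots' _).trans (p2_deg e V0)))

end UBC
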