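import Pool.Agent.UBC.GapTwoFour

/-!
# Abstract cycles whose length is a power of an odd prime
-/

set_option autoImplicit false

universe u

namespace UBC

open Height NumberField IsDedekindDomain Polynomial WithZero

/-- Abstract form: `x` is injective on `[0, q ^ s)`, and quotients of differences with the same
greatest common divisor of the index difference with `q ^ s` are local `n`-th powers. -/
theorem cyc_odd_abs' (K : Type u) [Field K] [NumberField K] {n : ℕ} (hn : 4 ≤ n)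
    (S : Set (HeightOneSpectrum (𝓞 K))) (hS : S.Finite) :
    ∃ B : ℕ, ∀ (q s : ℕ), q.Prime → q ≠ 2 → ∀ x : ℕ → K,
      (∀ i j, i < q ^ s → j < q ^ s → x i = x j → i = j) →
      (∀ v : HeightOneSpectrum (𝓞 K), v ∉ S → ∀ i j i' j' : ℕ, i < q ^ s → j < q ^ s →
        i' < q ^ s → j' < q ^ s →
        Nat.gcd (Nat.dist i j) (q ^ s) = Nat.gcd (Nat.dist i' j') (q ^ s) →
        x i ≠ x j → x i' ≠ x j' →
        ∃ γ : ℤᵐ⁰, v.valuation K ((x i - x j) / (x i' - x j')) = γ ^ n) →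
      q ^ s ≤ B := by
  classical
  obtain ⟨L, i1, i2, i3, hgap⟩ := exists_gap_two' K hn S hS
  obtain ⟨B, hB⟩ := metric_bip K L _ hgap
  refine ⟨3 * B + 1, fun q s hq hq2 a hinj hval => ?_⟩
  have hne' : ∀ {i j : ℕ}, i ≠ j → i < q ^ s → j < q ^ s → a i ≠ a j := fun h hi hj h' =>
    h (hinj _ _ hi hj h')
  rcases Nat.eq_zero_or_pos s with rfl | hs
  · rw [pow_zero]
    omega
  obtain ⟨h, hqh⟩ : ∃ h, q = 2 * h + 1 := hq.odd_of_ne_two hq2
  have hh : 1 ≤ h := by
    rcases Nat.eq_zero_or_pos h with h0 | h0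
    · rw [h0] at hqh
      exact absurd hqh hq.one_lt.ne'
    · exact h0
  have hkq : q ^ s = q ^ (s - 1) * q := by
    rw [← pow_succ]
    congr 1
    omega
  -- index sets
  set f : ℕ × ℕ → ℕ := fun p => p.1 * q + p.2 with hf
  set IA : Finset (ℕ × ℕ) := Finset.range (q ^ (s - 1)) ×ˢ Finset.Icc 1 h with hIA
  set IC : Finset (ℕ × ℕ) := Finset.range (q ^ (s - 1)) ×ˢ Finset.Icc (h + 1) (2 * h) with hIC
  have hrange : ∀ p : ℕ × ℕ, p.1 < q ^ (s - 1) → p.2 < q → f p < q ^ s := by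
    intro p h1 h2
    have h3 : (p.1 + 1) * q ≤ q ^ (s - 1) * q := Nat.mul_le_mul_right q h1
    have h4 : (p.1 + 1) * q = p.1 * q + q := by ring
    rw [hkq]
    change p.1 * q + p.2 < _
    omega
  have hmod : ∀ p : ℕ × ℕ, p.2 < q → f p % q = p.2 := by
    intro p h2
    change (p.1 * q + p.2) % q = p.2
    rw [Nat.add_comm, Nat.add_mul_mod_self_right, Nat.mod_eq_of_lt h2]
  have hA1 : ∀ p ∈ IA, p.1 < q ^ (s - 1) ∧ 1 ≤ p.2 ∧ p.2 ≤ h := by
    intro p hp
    rw [hIA, Finset.mem_product, Finset.mem_range, Finset.mem_Icc] at hp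
    exact ⟨hp.1, hp.2.1, hp.2.2⟩
  have hC1 : ∀ p ∈ IC, p.1 < q ^ (s - 1) ∧ h + 1 ≤ p.2 ∧ p.2 ≤ 2 * h := by
    intro p hp
    rw [hIC, Finset.mem_product, Finset.mem_range, Finset.mem_Icc] at hp
    exact ⟨hp.1, hp.2.1, hp.2.2⟩
  -- coprimality
  have hcop : ∀ j : ℕ, ¬ q ∣ j → Nat.gcd j (q ^ s) = 1 := by
    intro j hj
    exact Nat.Coprime.pow_right s ((Nat.Prime.coprime_iff_not_dvd hq).2 hj).symm
  have hdist : ∀ i j : ℕ, i % q ≠ j % q → ¬ q ∣ Nat.dist i j := by
    intro i j hij hdvd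
    apply hij
    rcases le_total i j with h1 | h1
    · rw [Nat.dist_eq_sub_of_le h1] at hdvd
      exact (Nat.modEq_iff_dvd' h1).2 hdvd
    · rw [Nat.dist_eq_sub_of_le_right h1] at hdvd
      exact ((Nat.modEq_iff_dvd' h1).2 hdvd).symm
  -- the ratios are in the set with the gap property
  have hsel : ∀ i j i' j' : ℕ, i < q ^ s → j < q ^ s → i' < q ^ s → j' < q ^ s →
      i % q ≠ j % q → i' % q ≠ j' % q →
      Sel n S ((a i - a j) / (a i' - a j')) := by
    intro i j i' j' hi hj hi' hj' hij hij'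
    have h1 : a i ≠ a j := hne' (fun h => hij (by rw [h])) hi hj
    have h2 : a i' ≠ a j' := hne' (fun h => hij' (by rw [h])) hi' hj'
    refine ⟨div_ne_zero (sub_ne_zero.2 h1) (sub_ne_zero.2 h2), fun v hv => ?_⟩
    refine hval v hv i j i' j' hi hj hi' hj' ?_ h1 h2
    rw [hcop _ (hdist i j hij), hcop _ (hdist i' j' hij')]
  have hk0 : 0 < q ^ s := pow_pos hq.pos s
  have hz : (0 : ℕ) % q = 0 := Nat.zero_mod q
  -- the two sets
  set x : ℕ × ℕ → K := fun p => a (f p) - a 0 with hx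
  have hxinj : ∀ p p' : ℕ × ℕ, p.1 < q ^ (s - 1) → p.2 < q → p'.1 < q ^ (s - 1) → p'.2 < q →
      x p = x p' → p = p' := by
    intro p p' h1 h2 h1' h2' hpp
    have h3 : a (f p) = a (f p') := by
      have h4 : a (f p) - a 0 = a (f p') - a 0 := hpp
      exact sub_left_inj.1 h4
    have h5 : f p = f p' := by
      by_contra hne
      exact hne' hne (hrange p h1 h2) (hrange p' h1' h2') h3
    have h6 : p.2 = p'.2 := by
      rw [← hmod p h2, ← hmod p' h2', h5]
    have h7 : p.1 * q + p.2 = p'.1 * q + p'.2 := h5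
    rw [h6] at h7
    have h8 : p.1 = p'.1 := Nat.eq_of_mul_eq_mul_right hq.pos (by omega)
    exact Prod.ext h8 h6
  have hcard : ∀ I : Finset (ℕ × ℕ), (∀ p ∈ I, p.1 < q ^ (s - 1) ∧ p.2 < q) →
      (I.image x).card = I.card := by
    intro I hI
    refine Finset.card_image_of_injOn ?_
    intro p hp p' hp' hpp
    obtain ⟨h1, h2⟩ := hI p (Finset.mem_coe.1 hp)
    obtain ⟨h1', h2'⟩ := hI p' (Finset.mem_coe.1 hp')
    exact hxinj p p' h1 h2 h1' h2' hpp
  have hx0 : ∀ p : ℕ × ℕ, p.1 < q ^ (s - 1) → 1 ≤ p.2 → p.2 < q → x p ≠ 0 := by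
    intro p h1 h2 h3 h0
    have h4 : a (f p) ≠ a 0 := by
      refine hne' (fun h => ?_) (hrange p h1 h3) hk0
      have h5 := hmod p h3
      rw [h, hz] at h5
      omega
    exact h4 (sub_eq_zero.1 h0)
  have hmain := hB (IA.image x) (IC.image x) ?_ ?_ ?_
  · rw [hcard IA (fun p hp => ⟨(hA1 p hp).1, by have := (hA1 p hp).2.2; omega⟩),
      hcard IC (fun p hp => ⟨(hC1 p hp).1, by have := (hC1 p hp).2.2; omega⟩)] at hmain
    have hIAc : IA.card = q ^ (s - 1) * h := by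
      rw [hIA, Finset.card_product, Finset.card_range, Nat.card_Icc, Nat.add_sub_cancel]
    have hICc : IC.card = q ^ (s - 1) * h := by
      rw [hIC, Finset.card_product, Finset.card_range, Nat.card_Icc]
      congr 1
      omega
    rw [hIAc, hICc, or_self] at hmain
    have h1 : q ^ s ≤ 3 * (q ^ (s - 1) * h) := by
      rw [hkq]
      calc q ^ (s - 1) * q ≤ q ^ (s - 1) * (3 * h) := Nat.mul_le_mul_left _ (by omega)
        _ = 3 * (q ^ (s - 1) * h) := by ring
    omega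
  · intro y hy
    obtain ⟨p, hp, rfl⟩ := Finset.mem_image.1 hy
    obtain ⟨h1, h2, h3⟩ := hA1 p hp
    exact hx0 p h1 h2 (by omega)
  · intro y hy
    obtain ⟨p, hp, rfl⟩ := Finset.mem_image.1 hy
    obtain ⟨h1, h2, h3⟩ := hC1 p hp
    exact hx0 p h1 (by omega) (by omega)
  · intro y hy z hz'
    obtain ⟨p, hp, rfl⟩ := Finset.mem_image.1 hy
    obtain ⟨p', hp', rfl⟩ := Finset.mem_image.1 hz'
    obtain ⟨h1, h2, h3⟩ := hA1 p hp
    obtain ⟨h1', h2', h3'⟩ := hC1 p' hp'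
    have hm := hmod p (by omega)
    have hm' := hmod p' (by omega)
    have hr := hrange p h1 (by omega)
    have hr' := hrange p' h1' (by omega)
    constructor
    · exact hsel (f p) 0 (f p') 0 hr hk0 hr' hk0 (by rw [hm, hz]; omega)
        (by rw [hm', hz]; omega)
    · have e : x p / x p' - 1 = (a (f p) - a (f p')) / (a (f p') - a 0) := by
        have h5 : x p' ≠ 0 := hx0 p' h1' (by omega) (by omega)
        rw [div_sub_one h5]
        change (a (f p) - a 0 - (a (f p') - a 0)) /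
          (a (f p') - a 0) = _
        congr 1
        ring
      rw [e]
      exact hsel (f p) (f p') (f p') 0 hr hr' hr' hk0 (by rw [hm, hm']; omega)
        (by rw [hm', hz]; omega)

/-- the case `n ≥ 5` -/
theorem cyc_odd_abs (K : Type u) [Field K] [NumberField K] {n : ℕ} (hn : 5 ≤ n)
    (S : Set (HeightOneSpectrum (𝓞 K))) (hS : S.Finite) :
    ∃ B : ℕ, ∀ (q s : ℕ), q.Prime → q ≠ 2 → ∀ x : ℕ → K,
      (∀ i j, i < q ^ s → j < q ^ s → x i = x j → i = j) →
      (∀ v : HeightOneSpectrum (𝓞 K), v ∉ S → ∀ i j i' j' : ℕ, i < q ^ s → j < q ^ s →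
        i' < q ^ s → j' < q ^ s →
        Nat.gcd (Nat.dist i j) (q ^ s) = Nat.gcd (Nat.dist i' j') (q ^ s) →
        x i ≠ x j → x i' ≠ x j' →
        ∃ γ : ℤᵐ⁰, v.valuation K ((x i - x j) / (x i' - x j')) = γ ^ n) →
      q ^ s ≤ B :=
  cyc_odd_abs' K (by omega) S hS

end UBC
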