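import Pool.Agent.UBC.Defs
import Pool.Agent.PowCyc.Selmer

/-!
# A finite extension in which Selmer elements are powers
-/

set_option autoImplicit false

universe u

namespace UBC

open NumberField IsDedekindDomain Polynomial

/-- U13. (Splitting field over `K` of `P * ∏ κ ∈ T, (X ^ n - C κ)`, `T` from
`PowCyc.selmer_finite`.) -/
theorem exists_ext (K : Type u) [Field K] [NumberField K] (n : ℕ) (hn : 0 < n)
    (S : Set (HeightOneSpectrum (𝓞 K))) (hS : S.Finite) (P : K[X]) (hP : P ≠ 0) :
    ∃ (L : Type u) (_ : Field L) (_ : NumberField L) (_ : Algebra K L),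
      (∀ Q : K[X], Q ∣ P → Q.natDegree ≠ 0 → ∃ z : L, aeval z Q = 0) ∧
      ∀ a : K, Sel n S a → ∃ z : L, z ^ n = algebraMap K L a := by
  obtain ⟨T, hT0, hT⟩ := PowCyc.selmer_finite K n hn S hS
  set F : K[X] := P * ∏ κ ∈ T, (X ^ n - C κ) with hF
  have hF0 : F ≠ 0 := by
    refine mul_ne_zero hP (Finset.prod_ne_zero_iff.2 fun κ _ => ?_)
    exact X_pow_sub_C_ne_zero hn κ
  have hPF : P ∣ F := Dvd.intro _ hF.symm
  have hTF : ∀ κ ∈ T, (X ^ n - C κ : K[X]) ∣ F := by
    intro κ hκ
    have h1 : (X ^ n - C κ : K[X]) ∣ ∏ κ ∈ T, (X ^ n - C κ) :=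
      Finset.dvd_prod_of_mem (fun κ => (X ^ n - C κ : K[X])) hκ
    rw [hF]
    exact h1.mul_left P
  clear_value F
  have hchar : CharZero F.SplittingField := charZero_of_injective_algebraMap (algebraMap K _).injective
  have hfin : FiniteDimensional ℚ F.SplittingField :=
    Module.Finite.trans (R := ℚ) K F.SplittingField
  have hsp : Splits (F.map (algebraMap K F.SplittingField)) := SplittingField.splits F
  have hF0' : F.map (algebraMap K F.SplittingField) ≠ 0 := Polynomial.map_ne_zero hF0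
  have root : ∀ Q : K[X], Q ∣ F → Q.natDegree ≠ 0 → ∃ z : F.SplittingField, aeval z Q = 0 := by
    intro Q hQ hdeg
    have h1 : Splits (Q.map (algebraMap K F.SplittingField)) :=
      Splits.of_dvd hsp hF0' (Polynomial.map_dvd _ hQ)
    have h2 : (Q.map (algebraMap K F.SplittingField)).degree ≠ 0 := by
      rw [Polynomial.degree_map]
      intro h
      exact hdeg (natDegree_eq_zero_iff_degree_le_zero.2 h.le)
    obtain ⟨z, hz⟩ := h1.exists_eval_eq_zero h2
    exact ⟨z, by rw [aeval_def, ← eval_map]; exact hz⟩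
  refine ⟨F.SplittingField, inferInstance, ⟨⟩, inferInstance, ?_, ?_⟩
  · intro Q hQ hdeg
    exact root Q (hQ.trans hPF) hdeg
  · rintro a ⟨ha0, ha⟩
    obtain ⟨κ, hκ, z, -, rfl⟩ := hT a ha0 ha
    obtain ⟨y, hy⟩ := root (X ^ n - C κ) (hTF κ hκ) (by
        rw [natDegree_X_pow_sub_C]; exact hn.ne')
    refine ⟨y * algebraMap K F.SplittingField z, ?_⟩
    simp only [map_sub, map_pow, aeval_X, aeval_C] at hy
    rw [mul_pow, map_mul, map_pow, sub_eq_zero.1 hy]

/-- only finitely many places where a nonzero element is not a unit -/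
theorem finite_nonunit (K : Type u) [Field K] [NumberField K] (a : K) (ha : a ≠ 0) :
    {v : HeightOneSpectrum (𝓞 K) | v.valuation K a ≠ 1}.Finite := by
  refine ((HeightOneSpectrum.Support.finite (𝓞 K) a).union
    (HeightOneSpectrum.Support.finite (𝓞 K) a⁻¹)).subset ?_
  intro v hv
  rcases lt_or_gt_of_ne hv with h | h
  · right
    change 1 < v.valuation K a⁻¹
    rw [map_inv₀]
    exact (one_lt_inv₀ (zero_lt_iff.2 ((Valuation.ne_zero_iff _).mpr ha))).2 h
  · left
    exact h

end UBC
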