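import Pool.Agent.UBC.SqGap
import Pool.Agent.UBC.SelExt

/-!
# Existence of an extension with the gap property: fourth powers
-/

set_option autoImplicit false

universe u

namespace UBC

open Height NumberField IsDedekindDomain

namespace ExGapFourAux

open WithZero

/-- the valuation of `x - ρ` is a square -/
lemma sq_val {L : Type*} [Field L] (v : Valuation L ℤᵐ⁰) {z₁ z ρ κ : L} (hρ : v ρ = 1)
    (h2 : v 2 = 1) (hκ : v κ = 1) (h : (z₁ ^ 2) ^ 2 - ρ ^ 2 = κ * z ^ 4) :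
    ∃ γ : ℤᵐ⁰, v (z₁ ^ 2 - ρ) = γ ^ 2 := by
  rcases lt_or_ge 1 (v (z₁ ^ 2)) with hx | hx
  · refine ⟨v z₁, ?_⟩
    rw [Valuation.map_sub_eq_of_lt_left v (by rw [hρ]; exact hx), map_pow]
  · have h3 : v (z₁ ^ 2 - ρ) ≤ 1 := (v.map_sub _ _).trans (max_le hx hρ.le)
    have h4 : v (z₁ ^ 2 + ρ) ≤ 1 := (v.map_add _ _).trans (max_le hx hρ.le)
    have h5 : (1 : ℤᵐ⁰) ≤ max (v (z₁ ^ 2 + ρ)) (v (z₁ ^ 2 - ρ)) := by
      have h6 : v ((z₁ ^ 2 + ρ) - (z₁ ^ 2 - ρ)) = 1 := by
        have h7 : (z₁ ^ 2 + ρ) - (z₁ ^ 2 - ρ) = 2 * ρ := by ring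
        rw [h7, map_mul, h2, hρ, one_mul]
      rw [← h6]
      exact v.map_sub _ _
    rcases le_max_iff.mp h5 with h6 | h6
    · have h7 : v (z₁ ^ 2 + ρ) = 1 := le_antisymm h4 h6
      refine ⟨v z ^ 2, ?_⟩
      have h8 : (z₁ ^ 2 + ρ) * (z₁ ^ 2 - ρ) = κ * z ^ 4 := by rw [← h]; ring
      have h9 := congrArg v h8
      rw [map_mul, map_mul, h7, hκ, one_mul, one_mul, map_pow] at h9
      rw [h9, ← pow_mul]
    · exact ⟨1, by rw [one_pow]; exact le_antisymm h3 h6⟩

/-- the identity between the elements -/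
lemma ident {K : Type*} [Field K] {t a b c : K} (hta : t - a ≠ 0) (hca : c - a ≠ 0) :
    (t - b) / (t - a) - (c - b) / (c - a) = (b - a) / (c - a) * ((t - c) / (t - a)) := by
  field_simp
  ring

end ExGapFourAux

open ExGapFourAux Polynomial in
/-- U12, U14c. (Two extensions `K → La → Lb`; in `La` the elements are fourth powers `z j ^ 4` and
`r 2`, `r 3` are squares, `r j = (e j - e 1) / (e j - e 0)`; `x = z 1 ^ 2` and
`x ^ 2 - r j = ((e 1 - e 0) / (e j - e 0)) * z j ^ 4`; then `x - q ∈ Sel 2 Sa` for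
`q = √r₂, -√r₂, √r₃`, and in `Lb` these are squares; `gap_squares_inf`.) -/
theorem exists_gap_four (K : Type u) [Field K] [NumberField K]
    (S : Set (HeightOneSpectrum (𝓞 K))) (hS : S.Finite) (e : Fin 4 → K)
    (he : Function.Injective e) :
    ∃ (L : Type u) (_ : Field L) (_ : NumberField L) (_ : Algebra K L),
      Gap (fun t : K => logHeight₁ (algebraMap K L t))
        {t : K | ∀ j, t ≠ e j ∧ Sel 4 S ((t - e j) / (t - e 0))} := by
  classical
  have hne : ∀ i j, i ≠ j → e i - e j ≠ 0 := fun i j hij h => hij (he (sub_eq_zero.mp h))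
  have h10 : e 1 - e 0 ≠ 0 := hne 1 0 (by decide)
  have h20 : e 2 - e 0 ≠ 0 := hne 2 0 (by decide)
  have h30 : e 3 - e 0 ≠ 0 := hne 3 0 (by decide)
  have h21 : e 2 - e 1 ≠ 0 := hne 2 1 (by decide)
  have h31 : e 3 - e 1 ≠ 0 := hne 3 1 (by decide)
  have h23 : e 2 - e 3 ≠ 0 := hne 2 3 (by decide)
  obtain ⟨r2, hr2⟩ : ∃ r2, r2 = (e 2 - e 1) / (e 2 - e 0) := ⟨_, rfl⟩
  obtain ⟨r3, hr3⟩ : ∃ r3, r3 = (e 3 - e 1) / (e 3 - e 0) := ⟨_, rfl⟩
  obtain ⟨k2, hk2⟩ : ∃ k2, k2 = (e 1 - e 0) / (e 2 - e 0) := ⟨_, rfl⟩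
  obtain ⟨k3, hk3⟩ : ∃ k3, k3 = (e 1 - e 0) / (e 3 - e 0) := ⟨_, rfl⟩
  have hr2n : r2 ≠ 0 := hr2 ▸ div_ne_zero h21 h20
  have hr3n : r3 ≠ 0 := hr3 ▸ div_ne_zero h31 h30
  have hk2n : k2 ≠ 0 := hk2 ▸ div_ne_zero h10 h20
  have hk3n : k3 ≠ 0 := hk3 ▸ div_ne_zero h10 h30
  have hr23 : r2 ≠ r3 := by
    intro h
    rw [hr2, hr3, div_eq_div_iff h20 h30] at h
    have h1 : (e 1 - e 0) * (e 2 - e 3) = 0 := by linear_combination h
    exact (mul_ne_zero h10 h23) h1
  -- the first extension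
  have hPne : (X ^ 2 - C r2 : K[X]) * (X ^ 2 - C r3) ≠ 0 :=
    mul_ne_zero (X_pow_sub_C_ne_zero (by norm_num) _) (X_pow_sub_C_ne_zero (by norm_num) _)
  obtain ⟨La, fLa, nLa, aLa, hroots, hpow⟩ := exists_ext K 4 (by norm_num) S hS _ hPne
  obtain ⟨ρ2, hρ2⟩ := hroots (X ^ 2 - C r2) (dvd_mul_right _ _)
    (by rw [natDegree_X_pow_sub_C]; norm_num)
  obtain ⟨ρ3, hρ3⟩ := hroots (X ^ 2 - C r3) (dvd_mul_left _ _)
    (by rw [natDegree_X_pow_sub_C]; norm_num)
  have hρ2' : ρ2 ^ 2 = algebraMap K La r2 := by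
    rw [map_sub, map_pow, aeval_X, aeval_C, sub_eq_zero] at hρ2
    exact hρ2
  have hρ3' : ρ3 ^ 2 = algebraMap K La r3 := by
    rw [map_sub, map_pow, aeval_X, aeval_C, sub_eq_zero] at hρ3
    exact hρ3
  have hinja : Function.Injective (algebraMap K La) := (algebraMap K La).injective
  have hρ2n : ρ2 ≠ 0 := by
    rintro rfl
    rw [zero_pow two_ne_zero] at hρ2'
    exact hr2n (hinja (by rw [← hρ2', map_zero]))
  have hρ3n : ρ3 ≠ 0 := by
    rintro rfl
    rw [zero_pow two_ne_zero] at hρ3'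
    exact hr3n (hinja (by rw [← hρ3', map_zero]))
  have h2n : (2 : La) ≠ 0 := two_ne_zero
  have hka2 : algebraMap K La k2 ≠ 0 := by rw [Ne, map_eq_zero]; exact hk2n
  have hka3 : algebraMap K La k3 ≠ 0 := by rw [Ne, map_eq_zero]; exact hk3n
  obtain ⟨Sa, hSadef⟩ : ∃ Sa : Set (HeightOneSpectrum (𝓞 La)), Sa =
      ({v | v.valuation La ρ2 ≠ 1} ∪ {v | v.valuation La ρ3 ≠ 1}) ∪
      ({v | v.valuation La 2 ≠ 1} ∪ ({v | v.valuation La (algebraMap K La k2) ≠ 1} ∪
        {v | v.valuation La (algebraMap K La k3) ≠ 1})) := ⟨_, rfl⟩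
  have hSa : Sa.Finite := by
    rw [hSadef]
    exact ((finite_nonunit La ρ2 hρ2n).union (finite_nonunit La ρ3 hρ3n)).union
      ((finite_nonunit La 2 h2n).union ((finite_nonunit La _ hka2).union
        (finite_nonunit La _ hka3)))
  have hSaout : ∀ v : HeightOneSpectrum (𝓞 La), v ∉ Sa → v.valuation La ρ2 = 1 ∧
      v.valuation La ρ3 = 1 ∧ v.valuation La 2 = 1 ∧
      v.valuation La (algebraMap K La k2) = 1 ∧ v.valuation La (algebraMap K La k3) = 1 := by
    intro v hv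
    rw [hSadef] at hv
    simp only [Set.mem_union, Set.mem_ofPred_eq, not_or, not_not] at hv
    tauto
  -- the second extension
  obtain ⟨Lb, fLb, nLb, aLb, -, hpow2⟩ := exists_ext La 2 (by norm_num) Sa hSa 1 one_ne_zero
  letI algKLb : Algebra K Lb := ((algebraMap La Lb).comp (algebraMap K La)).toAlgebra
  have hcomp : ∀ a : K, algebraMap K Lb a = algebraMap La Lb (algebraMap K La a) := fun _ => rfl
  refine ⟨Lb, fLb, nLb, algKLb, ?_⟩
  have hinjb : Function.Injective (algebraMap La Lb) := (algebraMap La Lb).injective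
  have hinjKb : Function.Injective (algebraMap K Lb) := (algebraMap K Lb).injective
  -- the four points
  obtain ⟨e', he'⟩ : ∃ e' : Fin 4 → La, e' = ![0, ρ2, -ρ2, ρ3] := ⟨_, rfl⟩
  have hρ23 : ρ2 ≠ ρ3 := by
    rintro rfl
    exact hr23 (hinja (by rw [← hρ2', ← hρ3']))
  have hρ23' : -ρ2 ≠ ρ3 := by
    rintro rfl
    exact hr23 (hinja (by rw [← hρ2', ← hρ3', neg_sq]))
  have hρneg : ρ2 ≠ -ρ2 := by
    intro h
    have h1 : 2 * ρ2 = 0 := by linear_combination h
    exact (mul_ne_zero h2n hρ2n) h1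
  have he'inj : Function.Injective e' := by
    rw [he']
    intro i j hij
    fin_cases i <;> fin_cases j <;> simp at hij ⊢ <;>
      first
        | exact absurd hij.symm hρ2n
        | exact absurd hij hρ2n
        | exact absurd hij.symm hρ3n
        | exact absurd hij hρ3n
        | exact absurd hij hρ23
        | exact absurd hij.symm hρ23
        | exact absurd hij hρ23'
        | exact absurd hij.symm hρ23'
        | exact absurd hij hρneg
        | exact absurd hij.symm hρneg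
  -- the key construction
  have key : ∀ t : K, t ∈ {t : K | ∀ j, t ≠ e j ∧ Sel 4 S ((t - e j) / (t - e 0))} →
      ∃ x' : Lb, x' ^ 2 = algebraMap K Lb ((t - e 1) / (t - e 0)) ∧
        ∀ j, IsSquare ((1 : Lb) * (x' - algebraMap La Lb (e' j))) := by
    intro t ht
    have hte : ∀ j, t - e j ≠ 0 := fun j => sub_ne_zero.mpr (ht j).1
    obtain ⟨z₁, hz₁⟩ := hpow _ (ht 1).2
    obtain ⟨z₂, hz₂⟩ := hpow _ (ht 2).2
    obtain ⟨z₃, hz₃⟩ := hpow _ (ht 3).2
    have id2 : (z₁ ^ 2) ^ 2 - ρ2 ^ 2 = algebraMap K La k2 * z₂ ^ 4 := by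
      rw [← pow_mul, hz₁, hz₂, hρ2', ← map_sub, ← map_mul, hr2, hk2,
        ident (hte 0) h20]
    have id3 : (z₁ ^ 2) ^ 2 - ρ3 ^ 2 = algebraMap K La k3 * z₃ ^ 4 := by
      rw [← pow_mul, hz₁, hz₃, hρ3', ← map_sub, ← map_mul, hr3, hk3,
        ident (hte 0) h30]
    have hz₂n : z₂ ≠ 0 := by
      rintro rfl
      rw [zero_pow (by norm_num), eq_comm, map_eq_zero] at hz₂
      exact div_ne_zero (hte 2) (hte 0) hz₂
    have hz₃n : z₃ ≠ 0 := by
      rintro rfl
      rw [zero_pow (by norm_num), eq_comm, map_eq_zero] at hz₃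
      exact div_ne_zero (hte 3) (hte 0) hz₃
    have hsel2 : ∀ ρ : La, ρ ^ 2 = ρ2 ^ 2 → Sel 2 Sa (z₁ ^ 2 - ρ) := by
      intro ρ hρ
      have hid : (z₁ ^ 2) ^ 2 - ρ ^ 2 = algebraMap K La k2 * z₂ ^ 4 := by rw [hρ, id2]
      refine ⟨?_, fun v hv => ?_⟩
      · intro h
        have h1 : (z₁ ^ 2 - ρ) * (z₁ ^ 2 + ρ) = algebraMap K La k2 * z₂ ^ 4 := by
          rw [← hid]; ring
        rw [h, zero_mul] at h1
        exact mul_ne_zero hka2 (pow_ne_zero _ hz₂n) h1.symm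
      · obtain ⟨v1, v2, v3, v4, v5⟩ := hSaout v hv
        have hvρ : v.valuation La ρ = 1 := by
          have h1 := congrArg (v.valuation La) hρ
          rw [map_pow, map_pow, v1, one_pow] at h1
          exact (pow_eq_one_iff_of_nonneg zero_le two_ne_zero).mp h1
        exact sq_val (v.valuation La) hvρ v3 v4 hid
    have hsel3 : Sel 2 Sa (z₁ ^ 2 - ρ3) := by
      refine ⟨?_, fun v hv => ?_⟩
      · intro h
        have h1 : (z₁ ^ 2 - ρ3) * (z₁ ^ 2 + ρ3) = algebraMap K La k3 * z₃ ^ 4 := by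
          rw [← id3]; ring
        rw [h, zero_mul] at h1
        exact mul_ne_zero hka3 (pow_ne_zero _ hz₃n) h1.symm
      · obtain ⟨v1, v2, v3, v4, v5⟩ := hSaout v hv
        exact sq_val (v.valuation La) v2 v3 v5 id3
    refine ⟨algebraMap La Lb (z₁ ^ 2), ?_, ?_⟩
    · rw [hcomp, ← hz₁, ← map_pow, ← pow_mul]
    · intro j
      rw [one_mul, ← map_sub]
      have hsq : ∀ a : La, Sel 2 Sa a → IsSquare (algebraMap La Lb a) := by
        intro a ha
        obtain ⟨z, hz⟩ := hpow2 a ha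
        exact ⟨z, by rw [← hz, sq]⟩
      fin_cases j
      · have h0 : e' 0 = 0 := by rw [he']; rfl
        show IsSquare (algebraMap La Lb (z₁ ^ 2 - e' 0))
        rw [h0, sub_zero, map_pow]
        exact ⟨_, sq _⟩
      · have h0 : e' 1 = ρ2 := by rw [he']; rfl
        show IsSquare (algebraMap La Lb (z₁ ^ 2 - e' 1))
        rw [h0]
        exact hsq _ (hsel2 ρ2 rfl)
      · have h0 : e' 2 = -ρ2 := by rw [he']; rfl
        show IsSquare (algebraMap La Lb (z₁ ^ 2 - e' 2))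
        rw [h0]
        exact hsq _ (hsel2 (-ρ2) (neg_sq _))
      · have h0 : e' 3 = ρ3 := by rw [he']; rfl
        show IsSquare (algebraMap La Lb (z₁ ^ 2 - e' 3))
        rw [h0]
        exact hsq _ hsel3
  have hgap := gap_squares_inf (L := Lb) (fun j => algebraMap La Lb (e' j)) (fun _ => 1)
    (hinjb.comp he'inj) (fun _ => one_ne_zero)
  obtain ⟨C, hC⟩ := height_mobius (L := Lb) 1 (-(algebraMap K Lb (e 1))) 1
    (-(algebraMap K Lb (e 0))) (by
      rw [one_mul, mul_one, sub_neg_eq_add, add_comm, ← sub_eq_add_neg, ← map_sub, Ne,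
        map_eq_zero]
      exact h10)
  have hht : ∀ t : K, t ∈ {t : K | ∀ j, t ≠ e j ∧ Sel 4 S ((t - e j) / (t - e 0))} →
      ∀ x' : Lb, x' ^ 2 = algebraMap K Lb ((t - e 1) / (t - e 0)) →
        |2 * logHeight₁ x' - logHeight₁ (algebraMap K Lb t)| ≤ C := by
    intro t ht x' hx'
    have h1 := hC (algebraMap K Lb t) (by
      rw [one_mul, ← sub_eq_add_neg, ← map_sub, Ne, map_eq_zero, sub_eq_zero]
      exact (ht 0).1)
    have h2 : (1 * algebraMap K Lb t + -(algebraMap K Lb (e 1))) /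
        (1 * algebraMap K Lb t + -(algebraMap K Lb (e 0))) = x' ^ 2 := by
      rw [hx', map_div₀, map_sub, map_sub, one_mul, ← sub_eq_add_neg, ← sub_eq_add_neg]
    rw [h2, logHeight₁_pow] at h1
    exact_mod_cast h1
  refine hgap.transfer (fun t => if h : t ∈ {t : K | ∀ j, t ≠ e j ∧
      Sel 4 S ((t - e j) / (t - e 0))} then Classical.choose (key t h) else 0)
    1 (1 / 2) (1 / 2) (C / 2) (by norm_num) ?_ ?_ ?_ ?_
  · intro t ht
    simp only [dif_pos ht]
    exact (Classical.choose_spec (key t ht)).2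
  · intro t ht
    simp only [dif_pos ht]
    have h1 := (abs_le.mp (hht t ht _ (Classical.choose_spec (key t ht)).1)).1
    linarith
  · intro t ht
    simp only [dif_pos ht]
    have h1 := (abs_le.mp (hht t ht _ (Classical.choose_spec (key t ht)).1)).2
    linarith
  · intro A u hA
    apply Finset.card_le_one.mpr
    intro t ht t' ht'
    obtain ⟨h1, h2⟩ := hA t ht
    obtain ⟨h1', h2'⟩ := hA t' ht'
    simp only [dif_pos h1] at h2
    simp only [dif_pos h1'] at h2'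
    have h3 := (Classical.choose_spec (key t h1)).1
    have h4 := (Classical.choose_spec (key t' h1')).1
    rw [h2] at h3
    rw [h2'] at h4
    have h5 : (t - e 1) / (t - e 0) = (t' - e 1) / (t' - e 0) := hinjKb (h3.symm.trans h4)
    have h6 : t - e 0 ≠ 0 := sub_ne_zero.mpr (h1 0).1
    have h7 : t' - e 0 ≠ 0 := sub_ne_zero.mpr (h1' 0).1
    rw [div_eq_div_iff h6 h7] at h5
    have h8 : (e 1 - e 0) * (t - t') = 0 := by linear_combination h5
    rcases mul_eq_zero.mp h8 with h9 | h9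
    · exact absurd h9 h10
    · exact sub_eq_zero.mp h9

end UBC
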