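import Pool.Agent.UBC.MetricBip
import Pool.Agent.UBC.ExGapFour

/-!
# The gap property for `t` and `t - 1` locally fourth powers

`t = u ^ 4`, `t - 1 = w ^ 4`: the four factors of `u ^ 4 - 1` are locally fourth powers up to a
common factor, so the result for four linear forms can be used.
-/

set_option autoImplicit false

universe u

namespace UBC

open Height NumberField IsDedekindDomain Polynomial WithZero

namespace GapTwoFourAux

/-- one factor of `1 - y ^ n` has valuation an `m`-th power if the product is an `m`-th power -/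
lemma val_factor' {L : Type*} [Field L] (v : Valuation L ℤᵐ⁰) {n : ℕ} (hn : 2 ≤ n)
    (hvn : v (n : L) = 1) {y u : L} {m : ℕ} (h : v (1 - y ^ n) = v u ^ m) (hy : v y ≤ 1) :
    ∃ γ : ℤᵐ⁰, v (1 - y) = γ ^ m := by
  have h1 : v (1 - y) ≤ 1 := (Valuation.map_sub v _ _).trans (max_le (by simp) hy)
  rcases h1.eq_or_lt with h2 | h2
  · exact ⟨1, by rw [h2, one_pow]⟩
  · have h3 := PowCyc.Loc_close v hn hvn (x := 1) (y := y) (γ := 1) (by simp) one_ne_zero h2
    have h4 := PowCyc.G_mul n (1 : L) y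
    rw [one_pow] at h4
    have h5 := congrArg v h4
    rw [map_mul, h3, one_pow, one_mul, h] at h5
    exact ⟨v u, h5⟩

end GapTwoFourAux

open GapTwoFourAux

/-- gap property for `t` and `t - 1`, fourth powers -/
theorem exists_gap_two_four (K : Type u) [Field K] [NumberField K]
    (S : Set (HeightOneSpectrum (𝓞 K))) (hS : S.Finite) :
    ∃ (L : Type u) (_ : Field L) (_ : NumberField L) (_ : Algebra K L),
      Gap (fun t : K => logHeight₁ (algebraMap K L t)) {t : K | Sel 4 S t ∧ Sel 4 S (t - 1)} := by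
  classical
  obtain ⟨L, _, _, _, hL1, hL2⟩ := exists_ext K 4 (by norm_num) S hS (cyclotomic 4 K)
    (cyclotomic_ne_zero 4 K)
  obtain ⟨ζ, hζ⟩ := hL1 (cyclotomic 4 K) dvd_rfl (by
    rw [natDegree_cyclotomic]
    exact (Nat.totient_pos.mpr (by norm_num)).ne')
  have hζp : IsPrimitiveRoot ζ 4 := by
    have : NeZero ((4 : ℕ) : L) := ⟨by exact_mod_cast (by norm_num : (4 : ℕ) ≠ 0)⟩
    rw [← isRoot_cyclotomic_iff, IsRoot.def, ← map_cyclotomic 4 (algebraMap K L)]
    rw [eval_map_algebraMap]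
    exact hζ
  have hζn : ζ ^ 4 = 1 := hζp.pow_eq_one
  have hζ0 : ζ ≠ 0 := hζp.ne_zero (by norm_num)
  have h4n : ((4 : ℕ) : L) ≠ 0 := by norm_num
  have hS' := finite_nonunit L ((4 : ℕ) : L) h4n
  set S' : Set (HeightOneSpectrum (𝓞 L)) := {v | v.valuation L ((4 : ℕ) : L) ≠ 1} with hS'def
  set e' : Fin 4 → L := fun j => ζ ^ (j : ℕ) with he'def
  have he' : Function.Injective e' := by
    intro i j hij
    exact Fin.ext (hζp.pow_inj (by omega) (by omega) hij)
  obtain ⟨L', _, _, _, hgap⟩ := exists_gap_four L S' hS' e' he'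
  let φKL' : K →+* L' := (algebraMap L L').comp (algebraMap K L)
  let _ : Algebra K L' := φKL'.toAlgebra
  have hKL' : ∀ a : K, algebraMap K L' a = algebraMap L L' (algebraMap K L a) := fun a => rfl
  refine ⟨L', inferInstance, inferInstance, inferInstance, ?_⟩
  have hchoice : ∀ t : K, ∃ z : L, Sel 4 S t → z ^ 4 = algebraMap K L t := by
    intro t
    by_cases h : Sel 4 S t
    · obtain ⟨z, hz⟩ := hL2 _ h
      exact ⟨z, fun _ => hz⟩
    · exact ⟨0, fun h' => absurd h' h⟩
  choose U hU using hchoice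
  have hht : ∀ t : K, Sel 4 S t →
      logHeight₁ (algebraMap K L' t) = 4 * logHeight₁ (algebraMap L L' (U t)) := by
    intro t ht
    rw [hKL', ← hU t ht, map_pow, logHeight₁_pow]
    norm_num
  refine Gap.transfer hgap U 1 (1 / 4) (1 / 4) 0 (by norm_num) ?_ ?_ ?_ ?_
  · rintro t ⟨ht1, ht2⟩
    obtain ⟨w, hw⟩ := hL2 _ ht2
    have hu4 := hU t ht1
    set y := U t with hy
    have hw0 : w ≠ 0 := by
      rintro rfl
      rw [zero_pow (by norm_num)] at hw
      exact (_root_.map_ne_zero (algebraMap K L)).mpr ht2.1 hw.symm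
    have hpow : ∀ i : ℕ, (ζ ^ i) ^ 4 = 1 := fun i => by
      rw [← pow_mul, mul_comm, pow_mul, hζn, one_pow]
    have hprod : ∀ i : ℕ, 1 - ((ζ ^ i)⁻¹ * y) ^ 4 = -(w ^ 4) := by
      intro i
      rw [mul_pow, inv_pow, hpow, inv_one, one_mul, hu4, hw, map_sub, map_one]
      ring
    have hfac : ∀ i : ℕ, 1 - (ζ ^ i)⁻¹ * y ≠ 0 := by
      intro i h
      have h1 := hprod i
      rw [← sub_eq_zero.1 h, one_pow, sub_self] at h1
      exact neg_ne_zero.2 (pow_ne_zero 4 hw0) h1.symm
    have hdiff : ∀ i : ℕ, y - ζ ^ i = -(ζ ^ i) * (1 - (ζ ^ i)⁻¹ * y) := by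
      intro i
      have : ζ ^ i ≠ 0 := pow_ne_zero _ hζ0
      field_simp
      ring
    have hne : ∀ i : ℕ, y - ζ ^ i ≠ 0 := by
      intro i
      rw [hdiff i]
      exact mul_ne_zero (neg_ne_zero.2 (pow_ne_zero _ hζ0)) (hfac i)
    intro j
    refine ⟨sub_ne_zero.1 (hne j), div_ne_zero (hne j) (hne (0 : Fin 4)), fun v hv => ?_⟩
    have hv4 : v.valuation L ((4 : ℕ) : L) = 1 := by
      by_contra h
      exact hv h
    have hvζ : v.valuation L ζ = 1 := by
      have h1 := congrArg (v.valuation L) hζn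
      rw [map_pow, map_one] at h1
      exact (pow_eq_one_iff_of_nonneg zero_le (by norm_num)).mp h1
    have hvi : ∀ i : ℕ, v.valuation L (ζ ^ i) = 1 := fun i => by rw [map_pow, hvζ, one_pow]
    have hvd : ∀ i : ℕ, v.valuation L (y - ζ ^ i) = v.valuation L (1 - (ζ ^ i)⁻¹ * y) := by
      intro i
      rw [hdiff i, map_mul, Valuation.map_neg, hvi, one_mul]
    have hvy : ∀ i : ℕ, v.valuation L ((ζ ^ i)⁻¹ * y) = v.valuation L y := by
      intro i
      rw [map_mul, map_inv₀, hvi, inv_one, one_mul]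
    have hratio : v.valuation L ((y - e' j) / (y - e' 0)) =
        v.valuation L (1 - (ζ ^ (j : ℕ))⁻¹ * y) /
          v.valuation L (1 - (ζ ^ ((0 : Fin 4) : ℕ))⁻¹ * y) := by
      rw [map_div₀]
      simp only [he'def]
      rw [hvd, hvd]
    rw [hratio]
    rcases le_or_gt (v.valuation L y) 1 with hy1 | hy1
    · have h4 : ∀ i : ℕ, ∃ γ : ℤᵐ⁰, v.valuation L (1 - (ζ ^ i)⁻¹ * y) = γ ^ 4 := by
        intro i
        refine val_factor' (v.valuation L) (n := 4) (u := w) (m := 4) (by norm_num) hv4 ?_ ?_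
        · rw [hprod i, Valuation.map_neg, map_pow]
        · rw [hvy]
          exact hy1
      obtain ⟨γ, hγ⟩ := h4 j
      obtain ⟨γ', hγ'⟩ := h4 ((0 : Fin 4) : ℕ)
      exact ⟨γ / γ', by rw [hγ, hγ', div_pow]⟩
    · have hbig : ∀ i : ℕ, v.valuation L (1 - (ζ ^ i)⁻¹ * y) = v.valuation L y := by
        intro i
        rw [FermatGapAux.val_eq_of_big, hvy]
        rw [hvy]
        exact hy1
      refine ⟨1, ?_⟩
      rw [hbig, hbig, div_self (zero_lt_one.trans hy1).ne', one_pow]
  · rintro t ⟨ht1, -⟩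
    have h1 := hht t ht1
    linarith
  · rintro t ⟨ht1, -⟩
    have h1 := hht t ht1
    linarith
  · intro A w hA
    rw [Finset.card_le_one]
    intro a ha b hb
    obtain ⟨⟨h1, -⟩, h2⟩ := hA a ha
    obtain ⟨⟨h3, -⟩, h4⟩ := hA b hb
    have h5 := hU a h1
    have h6 := hU b h3
    rw [h2] at h5
    rw [h4] at h6
    exact (algebraMap K L).injective (h5.symm.trans h6)

/-- gap property for `t` and `t - 1`, all exponents at least four -/
theorem exists_gap_two' (K : Type u) [Field K] [NumberField K] {n : ℕ} (hn : 4 ≤ n)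
    (S : Set (HeightOneSpectrum (𝓞 K))) (hS : S.Finite) :
    ∃ (L : Type u) (_ : Field L) (_ : NumberField L) (_ : Algebra K L),
      Gap (fun t : K => logHeight₁ (algebraMap K L t)) {t : K | Sel n S t ∧ Sel n S (t - 1)} := by
  rcases Nat.lt_or_ge n 5 with h | h
  · obtain rfl : n = 4 := by omega
    exact exists_gap_two_four K S hS
  · exact exists_gap_two K h S hS

end UBC
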