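import Pool.Agent.UBC.LocCyc
import Pool.Agent.UBC.GapTwoFour

/-!
# The odd part of the length of a cycle
-/

set_option autoImplicit false

universe u

namespace UBC

open Height NumberField IsDedekindDomain Polynomial WithZero LocCycAux

/-- `a` is the orbit of a cycle of exact length `k` for the composition of the maps
`H i (z) + c i`, `i < ℓ` -/
structure IsCyc {K : Type*} [Field K] (H : ℕ → K[X]) (c : ℕ → K) (ℓ : ℕ) (a : ℕ → K)
    (k : ℕ) : Prop where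
  lpos : 0 < ℓ
  kpos : 0 < k
  hH : ∀ i, H (i + ℓ) = H i
  hc : ∀ i, c (i + ℓ) = c i
  ha : ∀ i, a (i + 1) = fam 1 (H i) (c i) (a i)
  hak : ∀ i, a (i + ℓ * k) = a i
  hne : ∀ j, 0 < j → j < k → a (ℓ * j) ≠ a 0

namespace IsCyc

variable {K : Type*} [Field K] {H : ℕ → K[X]} {c : ℕ → K} {ℓ : ℕ} {a : ℕ → K} {k : ℕ}

/-- the elements of the cycle are distinct -/
lemma ne (h : IsCyc H c ℓ a k) {m n : ℕ} (hmn : m < n) (hn : n < k) :
    a (ℓ * m) ≠ a (ℓ * n) := by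
  intro heq
  have h1 : ∀ i, a (i + ℓ * m) = a (i + ℓ * n) := by
    intro i
    induction i with
    | zero => rw [Nat.zero_add, Nat.zero_add, heq]
    | succ i ih =>
      rw [shift_rec h.hH h.hc h.ha m i, shift_rec h.hH h.hc h.ha n i, ih]
  have h2 := h1 (ℓ * (k - m))
  have e1 : ℓ * (k - m) + ℓ * m = 0 + ℓ * k := by
    rw [← Nat.mul_add, Nat.sub_add_cancel (by omega), Nat.zero_add]
  have e2 : ℓ * (k - m) + ℓ * n = ℓ * (n - m) + ℓ * k := by
    rw [← Nat.mul_add, ← Nat.mul_add]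
    congr 1
    omega
  rw [e1, e2, h.hak, h.hak] at h2
  exact h.hne (n - m) (by omega) (by omega) h2.symm

/-- the elements of the cycle are distinct -/
lemma ne' (h : IsCyc H c ℓ a k) {m n : ℕ} (hmn : m ≠ n) (hm : m < k) (hn : n < k) :
    a (ℓ * m) ≠ a (ℓ * n) := by
  rcases lt_or_gt_of_ne hmn with h1 | h1
  · exact h.ne h1 hn
  · exact (h.ne h1 hm).symm

/-- passing to a power of the composition -/
lemma sub (h : IsCyc H c ℓ a k) {u w : ℕ} (hk : k = u * w) : IsCyc H c (ℓ * u) a w := by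
  have hu : 0 < u := by
    rcases Nat.eq_zero_or_pos u with hu | hu
    · have := h.kpos
      rw [hk, hu, Nat.zero_mul] at this
      exact absurd this (lt_irrefl _)
    · exact hu
  have hw : 0 < w := by
    rcases Nat.eq_zero_or_pos w with hw | hw
    · have := h.kpos
      rw [hk, hw, Nat.mul_zero] at this
      exact absurd this (lt_irrefl _)
    · exact hw
  refine ⟨Nat.mul_pos h.lpos hu, hw, fun i => (shift_eq h.hH h.hc u i).1,
    fun i => (shift_eq h.hH h.hc u i).2, h.ha, fun i => ?_, fun j hj hjw => ?_⟩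
  · rw [mul_assoc, ← hk]
    exact h.hak i
  · rw [mul_assoc]
    refine h.hne (u * j) (Nat.mul_pos hu hj) ?_
    rw [hk]
    exact Nat.mul_lt_mul_of_pos_left hjw hu

/-- quotients of differences, symmetric form -/
lemma val (h : IsCyc H c ℓ a k) (v : Valuation K ℤᵐ⁰) {d : ℕ} (hd : 2 ≤ d)
    (hv : v (d : K) = 1) (hp : LocPure v d H c) {m n m' n' : ℕ}
    (hg : Nat.gcd (Nat.dist m n) k = Nat.gcd (Nat.dist m' n') k)
    (h1 : a (ℓ * m) ≠ a (ℓ * n)) (h2 : a (ℓ * m') ≠ a (ℓ * n')) :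
    ∃ γ : ℤᵐ⁰, v ((a (ℓ * m) - a (ℓ * n)) / (a (ℓ * m') - a (ℓ * n'))) = γ ^ (d - 1) := by
  have key := @cyc_val K _ v d hd hv H c hp ℓ h.lpos h.hH h.hc a h.ha k h.kpos h.hak
  rcases le_total m n with hmn | hmn <;> rcases le_total m' n' with hmn' | hmn'
  · rw [Nat.dist_eq_sub_of_le hmn, Nat.dist_eq_sub_of_le hmn'] at hg
    exact key hmn hmn' hg h1 h2
  · rw [Nat.dist_eq_sub_of_le hmn, Nat.dist_eq_sub_of_le_right hmn'] at hg
    obtain ⟨γ, hγ⟩ := key hmn hmn' hg h1 h2.symm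
    refine ⟨γ, ?_⟩
    rw [← hγ, map_div₀, map_div₀, Valuation.map_sub_swap v (a (ℓ * m')) (a (ℓ * n'))]
  · rw [Nat.dist_eq_sub_of_le_right hmn, Nat.dist_eq_sub_of_le hmn'] at hg
    obtain ⟨γ, hγ⟩ := key hmn hmn' hg h1.symm h2
    refine ⟨γ, ?_⟩
    rw [← hγ, map_div₀, map_div₀, Valuation.map_sub_swap v (a (ℓ * m)) (a (ℓ * n))]
  · rw [Nat.dist_eq_sub_of_le_right hmn, Nat.dist_eq_sub_of_le_right hmn'] at hg
    obtain ⟨γ, hγ⟩ := key hmn hmn' hg h1.symm h2.symm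
    refine ⟨γ, ?_⟩
    rw [← hγ, map_div₀, map_div₀, Valuation.map_sub_swap v (a (ℓ * m')) (a (ℓ * n')),
      Valuation.map_sub_swap v (a (ℓ * m)) (a (ℓ * n))]

end IsCyc

/-- cycles whose length is a power of an odd prime -/
theorem cyc_odd (K : Type u) [Field K] [NumberField K] {d : ℕ} (hd : 5 ≤ d)
    (S : Set (HeightOneSpectrum (𝓞 K))) (hS : S.Finite)
    (hdS : ∀ v : HeightOneSpectrum (𝓞 K), v ∉ S → v.valuation K ((d : ℕ) : K) = 1) :
    ∃ B : ℕ, ∀ (H : ℕ → K[X]) (c : ℕ → K),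
      (∀ v : HeightOneSpectrum (𝓞 K), v ∉ S → LocPure (v.valuation K) d H c) →
      ∀ (ℓ : ℕ) (a : ℕ → K) (q s : ℕ), q.Prime → q ≠ 2 → IsCyc H c ℓ a (q ^ s) →
        q ^ s ≤ B := by
  classical
  obtain ⟨L, i1, i2, i3, hgap⟩ := exists_gap_two' K (n := d - 1) (by omega) S hS
  obtain ⟨B, hB⟩ := metric_bip K L _ hgap
  refine ⟨3 * B + 1, fun H c hp ℓ a q s hq hq2 hcyc => ?_⟩
  rcases Nat.eq_zero_or_pos s with rfl | hs
  · rw [pow_zero]
    omega
  obtain ⟨h, hqh⟩ : ∃ h, q = 2 * h + 1 := hq.odd_of_ne_two hq2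
  have hh : 1 ≤ h := by
    rcases Nat.eq_zero_or_pos h with h0 | h0
    · rw [h0] at hqh
      exact absurd hqh hq.one_lt.ne'
    · exact h0
  have hkq : q ^ s = q ^ (s - 1) * q := by
    rw [← pow_succ]
    congr 1
    omega
  -- index sets
  set f : ℕ × ℕ → ℕ := fun p => p.1 * q + p.2 with hf
  set IA : Finset (ℕ × ℕ) := Finset.range (q ^ (s - 1)) ×ˢ Finset.Icc 1 h with hIA
  set IC : Finset (ℕ × ℕ) := Finset.range (q ^ (s - 1)) ×ˢ Finset.Icc (h + 1) (2 * h) with hIC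
  have hrange : ∀ p : ℕ × ℕ, p.1 < q ^ (s - 1) → p.2 < q → f p < q ^ s := by
    intro p h1 h2
    have h3 : (p.1 + 1) * q ≤ q ^ (s - 1) * q := Nat.mul_le_mul_right q h1
    have h4 : (p.1 + 1) * q = p.1 * q + q := by ring
    rw [hkq]
    change p.1 * q + p.2 < _
    omega
  have hmod : ∀ p : ℕ × ℕ, p.2 < q → f p % q = p.2 := by
    intro p h2
    change (p.1 * q + p.2) % q = p.2
    rw [Nat.add_comm, Nat.add_mul_mod_self_right, Nat.mod_eq_of_lt h2]
  have hA1 : ∀ p ∈ IA, p.1 < q ^ (s - 1) ∧ 1 ≤ p.2 ∧ p.2 ≤ h := by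
    intro p hp
    rw [hIA, Finset.mem_product, Finset.mem_range, Finset.mem_Icc] at hp
    exact ⟨hp.1, hp.2.1, hp.2.2⟩
  have hC1 : ∀ p ∈ IC, p.1 < q ^ (s - 1) ∧ h + 1 ≤ p.2 ∧ p.2 ≤ 2 * h := by
    intro p hp
    rw [hIC, Finset.mem_product, Finset.mem_range, Finset.mem_Icc] at hp
    exact ⟨hp.1, hp.2.1, hp.2.2⟩
  -- coprimality
  have hcop : ∀ j : ℕ, ¬ q ∣ j → Nat.gcd j (q ^ s) = 1 := by
    intro j hj
    exact Nat.Coprime.pow_right s ((Nat.Prime.coprime_iff_not_dvd hq).2 hj).symm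
  have hdist : ∀ i j : ℕ, i % q ≠ j % q → ¬ q ∣ Nat.dist i j := by
    intro i j hij hdvd
    apply hij
    rcases le_total i j with h1 | h1
    · rw [Nat.dist_eq_sub_of_le h1] at hdvd
      exact (Nat.modEq_iff_dvd' h1).2 hdvd
    · rw [Nat.dist_eq_sub_of_le_right h1] at hdvd
      exact ((Nat.modEq_iff_dvd' h1).2 hdvd).symm
  -- the ratios are in the set with the gap property
  have hsel : ∀ i j i' j' : ℕ, i < q ^ s → j < q ^ s → i' < q ^ s → j' < q ^ s →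
      i % q ≠ j % q → i' % q ≠ j' % q →
      Sel (d - 1) S ((a (ℓ * i) - a (ℓ * j)) / (a (ℓ * i') - a (ℓ * j'))) := by
    intro i j i' j' hi hj hi' hj' hij hij'
    have h1 : a (ℓ * i) ≠ a (ℓ * j) := hcyc.ne' (fun h => hij (by rw [h])) hi hj
    have h2 : a (ℓ * i') ≠ a (ℓ * j') := hcyc.ne' (fun h => hij' (by rw [h])) hi' hj'
    refine ⟨div_ne_zero (sub_ne_zero.2 h1) (sub_ne_zero.2 h2), fun v hv => ?_⟩
    refine hcyc.val (v.valuation K) (by omega) (hdS v hv) (hp v hv) ?_ h1 h2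
    rw [hcop _ (hdist i j hij), hcop _ (hdist i' j' hij')]
  have hk0 : 0 < q ^ s := pow_pos hq.pos s
  have hz : (0 : ℕ) % q = 0 := Nat.zero_mod q
  -- the two sets
  set x : ℕ × ℕ → K := fun p => a (ℓ * f p) - a (ℓ * 0) with hx
  have hxinj : ∀ p p' : ℕ × ℕ, p.1 < q ^ (s - 1) → p.2 < q → p'.1 < q ^ (s - 1) → p'.2 < q →
      x p = x p' → p = p' := by
    intro p p' h1 h2 h1' h2' hpp
    have h3 : a (ℓ * f p) = a (ℓ * f p') := by
      have h4 : a (ℓ * f p) - a (ℓ * 0) = a (ℓ * f p') - a (ℓ * 0) := hpp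
      exact sub_left_inj.1 h4
    have h5 : f p = f p' := by
      by_contra hne
      exact hcyc.ne' hne (hrange p h1 h2) (hrange p' h1' h2') h3
    have h6 : p.2 = p'.2 := by
      rw [← hmod p h2, ← hmod p' h2', h5]
    have h7 : p.1 * q + p.2 = p'.1 * q + p'.2 := h5
    rw [h6] at h7
    have h8 : p.1 = p'.1 := Nat.eq_of_mul_eq_mul_right hq.pos (by omega)
    exact Prod.ext h8 h6
  have hcard : ∀ I : Finset (ℕ × ℕ), (∀ p ∈ I, p.1 < q ^ (s - 1) ∧ p.2 < q) →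
      (I.image x).card = I.card := by
    intro I hI
    refine Finset.card_image_of_injOn ?_
    intro p hp p' hp' hpp
    obtain ⟨h1, h2⟩ := hI p (Finset.mem_coe.1 hp)
    obtain ⟨h1', h2'⟩ := hI p' (Finset.mem_coe.1 hp')
    exact hxinj p p' h1 h2 h1' h2' hpp
  have hx0 : ∀ p : ℕ × ℕ, p.1 < q ^ (s - 1) → 1 ≤ p.2 → p.2 < q → x p ≠ 0 := by
    intro p h1 h2 h3 h0
    have h4 : a (ℓ * f p) ≠ a (ℓ * 0) := by
      refine hcyc.ne' (fun h => ?_) (hrange p h1 h3) hk0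
      have h5 := hmod p h3
      rw [h, hz] at h5
      omega
    exact h4 (sub_eq_zero.1 h0)
  have hmain := hB (IA.image x) (IC.image x) ?_ ?_ ?_
  · rw [hcard IA (fun p hp => ⟨(hA1 p hp).1, by have := (hA1 p hp).2.2; omega⟩),
      hcard IC (fun p hp => ⟨(hC1 p hp).1, by have := (hC1 p hp).2.2; omega⟩)] at hmain
    have hIAc : IA.card = q ^ (s - 1) * h := by
      rw [hIA, Finset.card_product, Finset.card_range, Nat.card_Icc, Nat.add_sub_cancel]
    have hICc : IC.card = q ^ (s - 1) * h := by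
      rw [hIC, Finset.card_product, Finset.card_range, Nat.card_Icc]
      congr 1
      omega
    rw [hIAc, hICc, or_self] at hmain
    have h1 : q ^ s ≤ 3 * (q ^ (s - 1) * h) := by
      rw [hkq]
      calc q ^ (s - 1) * q ≤ q ^ (s - 1) * (3 * h) := Nat.mul_le_mul_left _ (by omega)
        _ = 3 * (q ^ (s - 1) * h) := by ring
    omega
  · intro y hy
    obtain ⟨p, hp, rfl⟩ := Finset.mem_image.1 hy
    obtain ⟨h1, h2, h3⟩ := hA1 p hp
    exact hx0 p h1 h2 (by omega)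
  · intro y hy
    obtain ⟨p, hp, rfl⟩ := Finset.mem_image.1 hy
    obtain ⟨h1, h2, h3⟩ := hC1 p hp
    exact hx0 p h1 (by omega) (by omega)
  · intro y hy z hz'
    obtain ⟨p, hp, rfl⟩ := Finset.mem_image.1 hy
    obtain ⟨p', hp', rfl⟩ := Finset.mem_image.1 hz'
    obtain ⟨h1, h2, h3⟩ := hA1 p hp
    obtain ⟨h1', h2', h3'⟩ := hC1 p' hp'
    have hm := hmod p (by omega)
    have hm' := hmod p' (by omega)
    have hr := hrange p h1 (by omega)
    have hr' := hrange p' h1' (by omega)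
    constructor
    · exact hsel (f p) 0 (f p') 0 hr hk0 hr' hk0 (by rw [hm, hz]; omega)
        (by rw [hm', hz]; omega)
    · have e : x p / x p' - 1 = (a (ℓ * f p) - a (ℓ * f p')) / (a (ℓ * f p') - a (ℓ * 0)) := by
        have h5 : x p' ≠ 0 := hx0 p' h1' (by omega) (by omega)
        rw [div_sub_one h5]
        change (a (ℓ * f p) - a (ℓ * 0) - (a (ℓ * f p') - a (ℓ * 0))) /
          (a (ℓ * f p') - a (ℓ * 0)) = _
        congr 1
        ring
      rw [e]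
      exact hsel (f p) (f p') (f p') 0 hr hr' hr' hk0 (by rw [hm, hm']; omega)
        (by rw [hm', hz]; omega)

/-- The odd part of the length of a cycle is bounded. -/
theorem cyc_oddpart (K : Type u) [Field K] [NumberField K] {d : ℕ} (hd : 5 ≤ d)
    (S : Set (HeightOneSpectrum (𝓞 K))) (hS : S.Finite)
    (hdS : ∀ v : HeightOneSpectrum (𝓞 K), v ∉ S → v.valuation K ((d : ℕ) : K) = 1) :
    ∃ B : ℕ, ∀ (H : ℕ → K[X]) (c : ℕ → K),
      (∀ v : HeightOneSpectrum (𝓞 K), v ∉ S → LocPure (v.valuation K) d H c) →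
      ∀ (ℓ : ℕ) (a : ℕ → K) (e m : ℕ), Odd m → IsCyc H c ℓ a (2 ^ e * m) → m ≤ B := by
  obtain ⟨B, hB⟩ := cyc_odd K hd S hS hdS
  refine ⟨B.factorial, fun H c hp ℓ a e m hm hcyc => ?_⟩
  refine Nat.le_of_dvd (Nat.factorial_pos B) ?_
  rw [Nat.dvd_iff_prime_pow_dvd_dvd]
  intro q s hq hqs
  rcases Nat.eq_zero_or_pos s with rfl | hs
  · rw [pow_zero]
    exact one_dvd _
  have hq2 : q ≠ 2 := by
    rintro rfl
    have h1 : 2 ∣ m := (dvd_pow_self 2 hs.ne').trans hqs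
    exact (Nat.not_even_iff_odd.2 hm) (even_iff_two_dvd.2 h1)
  obtain ⟨w, hw⟩ := hqs
  have h1 : IsCyc H c (ℓ * (2 ^ e * w)) a (q ^ s) := hcyc.sub (by rw [hw]; ring)
  exact Nat.dvd_factorial (pow_pos hq.pos s) (hB H c hp _ a q s hq hq2 h1)

end UBC
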