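import Mathlib

/-!
# Definitions for the uniform boundedness project
-/

set_option autoImplicit false

namespace UBC

open Height NumberField IsDedekindDomain WithZero

/-- Gap property of a subset `T` of a set with a height function `h`: for every `lam` there are `N`
and `H0` such that for every `H ≥ H0` at most `N` elements of `T` have height in `[H, lam * H]`. -/
def Gap {ι : Type*} (h : ι → ℝ) (T : Set ι) : Prop :=
  ∀ lam : ℝ, ∃ (N : ℕ) (H0 : ℝ), ∀ H : ℝ, H0 ≤ H → ∀ A : Finset ι,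
    (∀ t ∈ A, t ∈ T ∧ H ≤ h t ∧ h t ≤ lam * H) → A.card ≤ N

/-- the Weierstrass curve `y ^ 2 = (x - e 0) (x - e 1) (x - e 2)` -/
def EC {L : Type*} [Field L] (e : Fin 3 → L) : WeierstrassCurve.Affine L where
  a₁ := 0
  a₂ := -(e 0 + e 1 + e 2)
  a₃ := 0
  a₄ := e 0 * e 1 + e 1 * e 2 + e 2 * e 0
  a₆ := -(e 0 * e 1 * e 2)

/-- naive height of a point of a Weierstrass curve (height of the `x`-coordinate) -/
noncomputable def hE {L : Type*} [Field L] [NumberField L] {W : WeierstrassCurve.Affine L}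
    (P : W.Point) : ℝ := logHeight P.xRep

/-- `a ≠ 0` and all valuations of `a` outside `S` are `n`-th powers -/
def Sel {K : Type*} [Field K] [NumberField K] (n : ℕ) (S : Set (HeightOneSpectrum (𝓞 K)))
    (a : K) : Prop :=
  a ≠ 0 ∧ ∀ v : HeightOneSpectrum (𝓞 K), v ∉ S → ∃ γ : ℤᵐ⁰, v.valuation K a = γ ^ n

/-- the map `z ↦ H(z ^ r) + c` -/
noncomputable def fam {K : Type*} [Field K] (r : ℕ) (H : Polynomial K) (c : K) : K → K :=
  fun z => H.eval (z ^ r) + c

/-- `x` is periodic -/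
def PerPt {K : Type*} (g : K → K) (x : K) : Prop := ∃ k : ℕ, 0 < k ∧ g^[k] x = x

/-- first height coordinate of the difference of two points of `y ^ 2 = κ ∏ (s ^ 2 - r j)` -/
noncomputable def xi {L : Type*} [Field L] (κ : L) (r : Fin 3 → L) (s y s' y' : L) : L :=
  ((y + y') / (s ^ 2 - s' ^ 2)) ^ 2 / κ + (r 0 + r 1 + r 2) - s ^ 2 - s' ^ 2

/-- second height coordinate of the difference of two points of `y ^ 2 = κ ∏ (s ^ 2 - r j)` -/
noncomputable def eta {L : Type*} [Field L] (κ : L) (r : Fin 3 → L) (s y s' y' : L) : L :=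
  ((y / s ^ 3 + y' / s' ^ 3) / (1 / s ^ 2 - 1 / s' ^ 2)) ^ 2 / κ -
    (r 0 * r 1 * r 2) * (1 / r 0 + 1 / r 1 + 1 / r 2 - 1 / s ^ 2 - 1 / s' ^ 2)

end UBC
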