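import Pool.Agent.UBC.Defs

/-!
# Definitions for the family `z ↦ lam z ^ d + 1`
-/

set_option autoImplicit false

namespace UBC

open Height NumberField AdmissibleAbsValues

/-- the map `z ↦ lam z ^ d + 1` -/
def tw {K : Type*} [Field K] (d : ℕ) (lam : K) : K → K := fun z => lam * z ^ d + 1

/-- `x` has a finite forward orbit -/
def PrePt {K : Type*} (g : K → K) (x : K) : Prop := (Set.range fun k : ℕ => g^[k] x).Finite

/-- `v` is one of the absolute values used for heights -/
def IsPl (L : Type*) [Field L] [AdmissibleAbsValues L] (v : AbsoluteValue L ℝ) : Prop :=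
  v ∈ archAbsVal (K := L) ∨ v ∈ nonarchAbsVal (K := L)

/-- constants depending on the place, at least `1` and equal to `1` at almost all places -/
def Ok (L : Type*) [Field L] [AdmissibleAbsValues L] (B : AbsoluteValue L ℝ → ℝ) : Prop :=
  (∀ v, 1 ≤ B v) ∧ {v : AbsoluteValue L ℝ | v ∈ nonarchAbsVal (K := L) ∧ B v ≠ 1}.Finite

/-- `x`-coordinate of a point (`0` for the point at infinity) -/
noncomputable def xc {L : Type*} [Field L] {W : WeierstrassCurve.Affine L} (P : W.Point) : L :=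
  P.xRep 0 / P.xRep 1

/-- at every place `t ^ d` is as close to `1` as `lam` is large -/
def Near {L : Type*} [Field L] [AdmissibleAbsValues L] (d : ℕ) (lam t : L) : Prop :=
  (∀ v ∈ archAbsVal (K := L), max (v lam) 1 ≤ 2 * 4 ^ d * max (v (t ^ d - 1)⁻¹) 1 ^ d) ∧
  (∀ v ∈ nonarchAbsVal (K := L), max (v lam) 1 ≤ max (v (t ^ d - 1)⁻¹) 1 ^ d)

/-- a bounded number of elements of `D` are near `lam` and not much higher than `lam` -/
def Few (d : ℕ) (L : Type*) [Field L] [NumberField L] (D : Set L) : Prop :=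
  ∀ κ : ℝ, ∃ (N : ℕ) (C1 : ℝ), ∀ lam : L, C1 ≤ logHeight₁ lam → ∀ A : Finset L,
    (∀ t ∈ A, t ∈ D ∧ t ^ d ≠ 1 ∧ logHeight₁ t ≤ κ * logHeight₁ lam ∧ Near d lam t) → A.card ≤ N

/-- the roots of `X ^ 3 + 16` (`β ^ 3 = -2`, `ω` a primitive cube root of unity) -/
def e3 {L : Type*} [Field L] (β ω : L) : Fin 3 → L := fun j => 2 * β * ω ^ (j : ℕ)

end UBC
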