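import Pool.Agent.UBC.ResField

set_option autoImplicit false
set_option linter.unusedSectionVars false

/-!
# Dickson maps are good
-/

namespace Pool.Agent.UBC

section ring
variable {R : Type*} [CommRing R]

/-- The Dickson polynomial `D_n(x, h)` of the first kind, evaluated. -/
def dk (h : R) : ℕ → R → R
  | 0, _ => 2
  | 1, x => x
  | n + 2, x => x * dk h (n + 1) x - h * dk h n x

/-- The divided difference of `dk`. -/
def dd (h : R) : ℕ → R → R → R
  | 0, _, _ => 0
  | 1, _, _ => 1
  | n + 2, x, y => dk h (n + 1) x + y * dd h (n + 1) x y - h * dd h n x y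

theorem dk_zero (h x : R) : dk h 0 x = 2 := by rw [dk]
theorem dk_one (h x : R) : dk h 1 x = x := by rw [dk]
theorem dk_add_two (h x : R) (n : ℕ) : dk h (n + 2) x = x * dk h (n + 1) x - h * dk h n x := by
  rw [dk]
theorem dd_zero (h x y : R) : dd h 0 x y = 0 := by rw [dd]
theorem dd_one (h x y : R) : dd h 1 x y = 1 := by rw [dd]
theorem dd_add_two (h x y : R) (n : ℕ) :
    dd h (n + 2) x y = dk h (n + 1) x + y * dd h (n + 1) x y - h * dd h n x y := by
  rw [dd]

theorem dk_sub (h : R) (n : ℕ) (x y : R) : dk h n x - dk h n y = (x - y) * dd h n x y := by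
  induction n using Nat.twoStepInduction with
  | zero => simp [dk_zero, dd_zero]
  | one => simp [dk_one, dd_one]
  | more n ih1 ih2 =>
    rw [dk_add_two, dk_add_two, dd_add_two]
    linear_combination y * ih2 - h * ih1

theorem dk_eval (h : R) (n : ℕ) (x : R) : (Polynomial.dickson 1 h n).eval x = dk h n x := by
  induction n using Nat.twoStepInduction with
  | zero => simp [dk_zero, Polynomial.dickson_zero]; norm_num
  | one => simp [dk_one]
  | more n ih1 ih2 =>
    rw [dk_add_two, Polynomial.dickson_add_two]
    simp [ih1, ih2]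

theorem dk_zero_param (n : ℕ) (x : R) : dk (0 : R) (n + 1) x = x ^ (n + 1) := by
  induction n with
  | zero => simp [dk_one]
  | succ n ih => rw [dk_add_two, ih]; ring

theorem dk_map {S : Type*} [CommRing S] (φ : R →+* S) (h : R) (n : ℕ) (x : R) :
    φ (dk h n x) = dk (φ h) n (φ x) := by
  induction n using Nat.twoStepInduction with
  | zero => rw [dk_zero, dk_zero, map_ofNat]
  | one => simp [dk_one]
  | more n ih1 ih2 => rw [dk_add_two, dk_add_two, map_sub, map_mul, map_mul, ih1, ih2]

theorem dd_map {S : Type*} [CommRing S] (φ : R →+* S) (h : R) (n : ℕ) (x y : R) :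
    φ (dd h n x y) = dd (φ h) n (φ x) (φ y) := by
  induction n using Nat.twoStepInduction with
  | zero => simp [dd_zero]
  | one => simp [dd_one]
  | more n ih1 ih2 =>
    rw [dd_add_two, dd_add_two, map_sub, map_add, map_mul, map_mul, ih1, ih2, dk_map]

theorem dk_scale (s h : R) (n : ℕ) (x : R) : dk (s ^ 2 * h) n (s * x) = s ^ n * dk h n x := by
  induction n using Nat.twoStepInduction with
  | zero => simp [dk_zero]
  | one => simp [dk_one]
  | more n ih1 ih2 => rw [dk_add_two, dk_add_two, ih1, ih2]; ring

theorem dk_sum (u v : R) (n : ℕ) : dk (u * v) n (u + v) = u ^ n + v ^ n := by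
  induction n using Nat.twoStepInduction with
  | zero => simp [dk_zero]; norm_num
  | one => simp [dk_one]
  | more n ih1 ih2 => rw [dk_add_two, ih1, ih2]; ring

theorem dd_diag (u v : R) (n : ℕ) :
    (u - v) * dd (u * v) n (u + v) (u + v) = n * (u ^ n - v ^ n) := by
  induction n using Nat.twoStepInduction with
  | zero => simp [dd_zero]
  | one => simp [dd_one]
  | more n ih1 ih2 =>
    rw [dd_add_two, dk_sum]
    push_cast at ih2 ⊢
    linear_combination (u + v) * ih2 - (u * v) * ih1

theorem dd_diag_same (u : R) (n : ℕ) :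
    dd (u * u) (n + 1) (u + u) (u + u) = ((n : R) + 1) ^ 2 * u ^ n := by
  induction n using Nat.twoStepInduction with
  | zero => simp [dd_one]
  | one => rw [dd_add_two, dd_one, dd_zero, dk_one]; push_cast; ring
  | more n ih1 ih2 =>
    rw [dd_add_two, ih1, ih2, dk_sum]
    push_cast
    ring

theorem dk_at_zero (h : R) (j : ℕ) : dk h (2 * j) 0 = 2 * (-h) ^ j ∧ dk h (2 * j + 1) 0 = 0 := by
  induction j with
  | zero => simp [dk_zero, dk_one]
  | succ j ih =>
    have e1 : 2 * (j + 1) = 2 * j + 2 := by ring
    have e2 : 2 * (j + 1) + 1 = (2 * j + 1) + 2 := by ring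
    have h1 : dk h (2 * (j + 1)) 0 = 2 * (-h) ^ (j + 1) := by
      rw [e1, dk_add_two, ih.1]; ring
    refine ⟨h1, ?_⟩
    rw [e2, dk_add_two, ih.2]; ring

theorem dd_at_zero (h : R) (j : ℕ) : dd h (2 * j + 1) 0 0 = (2 * j + 1) * (-h) ^ j := by
  induction j with
  | zero => simp [dd_one]
  | succ j ih =>
    have e2 : 2 * (j + 1) + 1 = (2 * j + 1) + 2 := by ring
    rw [e2, dd_add_two, ih]
    have e3 : 2 * j + 1 + 1 = 2 * (j + 1) := by ring
    rw [e3, (dk_at_zero h (j + 1)).1]
    push_cast
    ring

end ring

section finiteField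
variable {k : Type*} [Field k] [Finite k]

/-- Over a finite field with `q` elements, the divided difference of `D_m(·, h)` vanishes only at
the origin, when `m` is prime to `q (q ^ 2 - 1)`. -/
theorem dd_ne_zero {m : ℕ} (hm : (m : k) ≠ 0) (hcop : Nat.Coprime m (Nat.card k ^ 2 - 1))
    {x y h : k} (h0 : dd h m x y = 0) : x = 0 ∧ y = 0 ∧ h = 0 := by
  classical
  have : Fintype k := Fintype.ofFinite k
  set q := Nat.card k with hq
  have hqF : Fintype.card k = q := by rw [hq, Nat.card_eq_fintype_card]
  have hfrob : ∀ z : k, z ^ q = z := by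
    intro z; rw [← hqF]; exact FiniteField.pow_card z
  obtain ⟨p, hpchar⟩ := CharP.exists k
  have hpp : p.Prime := by
    rcases CharP.char_is_prime_or_zero k p with h | h
    · exact h
    · exfalso
      subst h
      have := CharP.charP_to_charZero k
      exact not_injective_infinite_finite (Nat.cast : ℕ → k) Nat.cast_injective
  have : Fact p.Prime := ⟨hpp⟩
  obtain ⟨n, _, hn⟩ := FiniteField.card k p
  have hqp : q = p ^ (n : ℕ) := by rw [← hqF, hn]
  have hq1 : 1 ≤ q := by rw [hqp]; exact Nat.one_le_pow _ _ hpp.pos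
  have hm0 : 0 < m := Nat.pos_of_ne_zero (by rintro rfl; simp at hm)
  -- a root of unity in the algebraic closure of order dividing m and q^2 - 1 is trivial
  have hroot : ∀ z : AlgebraicClosure k, z ^ m = 1 → z ^ (q ^ 2 - 1) = 1 → z = 1 := by
    intro z hz1 hz2
    have := Nat.dvd_gcd (orderOf_dvd_of_pow_eq_one hz1) (orderOf_dvd_of_pow_eq_one hz2)
    rw [hcop] at this
    exact orderOf_eq_one_iff.mp (Nat.dvd_one.mp this)
  -- if `u v = h ≠ 0` and `u + v = x` then `u ^ (q^2-1) = 1`
  have hunit : ∀ (x h : k) (u v : AlgebraicClosure k), h ≠ 0 →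
      u * v = algebraMap k _ h → u + v = algebraMap k _ x → u ^ (q ^ 2 - 1) = 1 := by
    intro x h u v hh huv hsum
    have : CharP (AlgebraicClosure k) p := charP_of_injective_algebraMap
      (algebraMap k (AlgebraicClosure k)).injective p
    have hh' : (algebraMap k (AlgebraicClosure k) h) ≠ 0 := by
      simpa using hh
    have hu : u ≠ 0 := by
      rintro rfl
      rw [zero_mul] at huv
      exact hh' huv.symm
    have hadd : (u + v) ^ q = u ^ q + v ^ q := by
      rw [hqp]; exact add_pow_char_pow u v p n
    have h1 : u ^ q + v ^ q = u + v := by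
      rw [← hadd, hsum, ← map_pow, hfrob]
    have h2 : u ^ q * v ^ q = u * v := by
      rw [← mul_pow, huv, ← map_pow, hfrob]
    have h3 : (u ^ q - u) * (u ^ q - v) = 0 := by
      have e : v ^ q = u + v - u ^ q := by rw [← h1]; ring
      rw [e] at h2
      linear_combination -h2
    have hq2 : q ^ 2 - 1 = (q - 1) * (q + 1) := by
      obtain ⟨c, hc⟩ : ∃ c, q = c + 1 := ⟨q - 1, by omega⟩
      rw [hc]
      have : (c + 1) ^ 2 - 1 = c * (c + 2) := by
        have : (c + 1) ^ 2 = c * (c + 2) + 1 := by ring
        omega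
      rw [this]
      simp
    have hfh : (algebraMap k (AlgebraicClosure k) h) ^ (q - 1) = 1 := by
      have : h ^ (q - 1) = 1 := by
        rw [← hqF]; exact FiniteField.pow_card_sub_one_eq_one h hh
      rw [← map_pow, this, map_one]
    rcases mul_eq_zero.mp h3 with h4 | h4
    · have h5 : u ^ (q - 1) = 1 := by
        have : u ^ (q - 1) * u = 1 * u := by
          rw [← pow_succ, Nat.sub_add_cancel hq1, one_mul]
          exact sub_eq_zero.mp h4
        exact mul_right_cancel₀ hu this
      rw [hq2, pow_mul, h5, one_pow]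
    · have h5 : u ^ (q + 1) = algebraMap k _ h := by
        rw [pow_succ, sub_eq_zero.mp h4, mul_comm, huv]
      rw [hq2, Nat.mul_comm, pow_mul, h5, hfh]
  by_cases hh : h = 0
  · subst hh
    obtain ⟨m', rfl⟩ : ∃ m', m = m' + 1 := ⟨m - 1, by omega⟩
    by_cases hxy : x = y
    · subst hxy
      have h1 := dd_diag (R := k) x 0 (m' + 1)
      rw [mul_zero, add_zero, h0, mul_zero] at h1
      have h2 : x ^ (m' + 1) = 0 := by
        have : (((m' + 1 : ℕ) : k)) * (x ^ (m' + 1)) = 0 := by
          rw [h1]; simp
        rcases mul_eq_zero.mp this with h | h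
        · exact absurd h hm
        · exact h
      have h3 : x = 0 := pow_eq_zero_iff (Nat.succ_ne_zero _) |>.mp h2
      exact ⟨h3, h3, rfl⟩
    · exfalso
      have h1 := dk_sub (0 : k) (m' + 1) x y
      rw [h0, mul_zero, dk_zero_param, dk_zero_param] at h1
      have h2 : x ^ (m' + 1) = y ^ (m' + 1) := sub_eq_zero.mp h1
      by_cases hy : y = 0
      · rw [hy] at h2 hxy
        rw [zero_pow (Nat.succ_ne_zero _)] at h2
        exact hxy (pow_eq_zero_iff (Nat.succ_ne_zero _) |>.mp h2)
      · have h3 : (x / y) ^ (m' + 1) = 1 := by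
          rw [div_pow, h2, div_self (pow_ne_zero _ hy)]
        have hx : x ≠ 0 := by
          rintro rfl
          rw [zero_pow (Nat.succ_ne_zero _)] at h2
          exact hy (pow_eq_zero_iff (Nat.succ_ne_zero _) |>.mp h2.symm)
        have h4 : (x / y) ^ (q - 1) = 1 := by
          rw [← hqF]; exact FiniteField.pow_card_sub_one_eq_one _ (div_ne_zero hx hy)
        have h5 := Nat.dvd_gcd (orderOf_dvd_of_pow_eq_one h3) (orderOf_dvd_of_pow_eq_one h4)
        have h6 : Nat.gcd (m' + 1) (q - 1) = 1 := by
          have hd : (q - 1) ∣ (q ^ 2 - 1) := by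
            have : q ^ 2 - 1 = (q - 1) * (q + 1) := by
              obtain ⟨c, hc⟩ : ∃ c, q = c + 1 := ⟨q - 1, by omega⟩
              rw [hc]
              have : (c + 1) ^ 2 - 1 = c * (c + 2) := by
                have : (c + 1) ^ 2 = c * (c + 2) + 1 := by ring
                omega
              rw [this]
              simp
            rw [this]; exact Dvd.intro _ rfl
          exact Nat.Coprime.coprime_dvd_right hd hcop
        rw [h6] at h5
        have h7 := orderOf_eq_one_iff.mp (Nat.dvd_one.mp h5)
        exact hxy ((div_eq_one_iff_eq hy).mp h7)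
  · exfalso
    have hh' : (algebraMap k (AlgebraicClosure k) h) ≠ 0 := by simpa using hh
    have hexists : ∀ x : k, ∃ u v : AlgebraicClosure k, u * v = algebraMap k _ h ∧
        u + v = algebraMap k _ x := by
      intro x
      obtain ⟨u, hu⟩ := IsAlgClosed.exists_root
        (Polynomial.X ^ 2 - Polynomial.C (algebraMap k (AlgebraicClosure k) x) * Polynomial.X +
          Polynomial.C (algebraMap k (AlgebraicClosure k) h)) (by
            have : (Polynomial.X ^ 2 - Polynomial.C (algebraMap k (AlgebraicClosure k) x) *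
              Polynomial.X + Polynomial.C (algebraMap k (AlgebraicClosure k) h)).degree = 2 := by
              compute_degree!
            rw [this]; norm_num)
      refine ⟨u, algebraMap k _ x - u, ?_, by ring⟩
      simp only [Polynomial.IsRoot, Polynomial.eval_add, Polynomial.eval_sub, Polynomial.eval_pow,
        Polynomial.eval_X, Polynomial.eval_mul, Polynomial.eval_C] at hu
      linear_combination -hu
    obtain ⟨u, v, huv, husum⟩ := hexists x
    have hu1 := hunit x h u v hh huv husum
    have hv1 := hunit x h v u hh (by rw [mul_comm]; exact huv) (by rw [add_comm]; exact husum)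
    have hu0 : u ≠ 0 := by rintro rfl; rw [zero_mul] at huv; exact hh' huv.symm
    have hv0 : v ≠ 0 := by rintro rfl; rw [mul_zero] at huv; exact hh' huv.symm
    by_cases hxy : x = y
    · subst hxy
      have h1 := congrArg (algebraMap k (AlgebraicClosure k)) h0
      rw [dd_map, map_zero, ← huv, ← husum] at h1
      have hmc : ((m : ℕ) : AlgebraicClosure k) ≠ 0 := by
        have := (map_ne_zero (algebraMap k (AlgebraicClosure k))).mpr hm
        simpa using this
      by_cases huv' : u = v
      · subst huv'
        obtain ⟨m', rfl⟩ : ∃ m', m = m' + 1 := ⟨m - 1, by omega⟩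
        rw [dd_diag_same] at h1
        rcases mul_eq_zero.mp h1 with h2 | h2
        · apply hmc
          push_cast
          exact pow_eq_zero_iff (two_ne_zero) |>.mp h2
        · exact hu0 (eq_zero_of_pow_eq_zero h2)
      · have h2 := dd_diag u v m
        rw [h1, mul_zero] at h2
        rcases mul_eq_zero.mp h2.symm with h3 | h3
        · exact hmc h3
        · have h4 : (u / v) ^ m = 1 := by
            rw [div_pow, sub_eq_zero.mp h3, div_self (pow_ne_zero _ hv0)]
          have h5 : (u / v) ^ (q ^ 2 - 1) = 1 := by rw [div_pow, hu1, hv1, div_one]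
          exact huv' ((div_eq_one_iff_eq hv0).mp (hroot _ h4 h5))
    · obtain ⟨w, z, hwz, hwsum⟩ := hexists y
      have hw1 := hunit y h w z hh hwz hwsum
      have hz1 := hunit y h z w hh (by rw [mul_comm]; exact hwz) (by rw [add_comm]; exact hwsum)
      have hw0 : w ≠ 0 := by rintro rfl; rw [zero_mul] at hwz; exact hh' hwz.symm
      have hz0 : z ≠ 0 := by rintro rfl; rw [mul_zero] at hwz; exact hh' hwz.symm
      have h1 := dk_sub h m x y
      rw [h0, mul_zero] at h1
      have h2 := congrArg (algebraMap k (AlgebraicClosure k)) (sub_eq_zero.mp h1)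
      rw [dk_map, dk_map] at h2
      have h3 : u ^ m + v ^ m = w ^ m + z ^ m := by
        rw [← dk_sum u v, ← dk_sum w z, huv, husum, hwz, hwsum]; exact h2
      have h4 : (u ^ m - w ^ m) * (u ^ m - z ^ m) = 0 := by
        have e1 : u ^ m * v ^ m = w ^ m * z ^ m := by rw [← mul_pow, ← mul_pow, huv, hwz]
        linear_combination u ^ m * h3 - e1
      have hxy' : (algebraMap k (AlgebraicClosure k) x) ≠ algebraMap k _ y := by
        intro e; exact hxy ((algebraMap k (AlgebraicClosure k)).injective e)
      rcases mul_eq_zero.mp h4 with h5 | h5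
      · have h6 : (u / w) ^ m = 1 := by
          rw [div_pow, sub_eq_zero.mp h5, div_self (pow_ne_zero _ hw0)]
        have h7 : (u / w) ^ (q ^ 2 - 1) = 1 := by rw [div_pow, hu1, hw1, div_one]
        have h8 : u = w := (div_eq_one_iff_eq hw0).mp (hroot _ h6 h7)
        subst h8
        have h9 : v = z := by
          have : u * v = u * z := by rw [huv, hwz]
          exact mul_left_cancel₀ hu0 this
        subst h9
        exact hxy' (by rw [← husum, ← hwsum])
      · have h6 : (u / z) ^ m = 1 := by
          rw [div_pow, sub_eq_zero.mp h5, div_self (pow_ne_zero _ hz0)]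
        have h7 : (u / z) ^ (q ^ 2 - 1) = 1 := by rw [div_pow, hu1, hz1, div_one]
        have h8 : u = z := (div_eq_one_iff_eq hz0).mp (hroot _ h6 h7)
        subst h8
        have h9 : v = w := by
          have : u * v = u * w := by rw [huv, mul_comm u w, hwz]
          exact mul_left_cancel₀ hu0 this
        subst h9
        exact hxy' (by rw [← husum, ← hwsum]; ring)

end finiteField

end Pool.Agent.UBC
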