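import Pool.Agent.UBC.Defs2

/-!
# Periodic and preperiodic points: generalities
-/

set_option autoImplicit false

namespace UBC

section general

variable {K : Type*} {g : K → K}

lemma PerPt.image {x : K} (h : PerPt g x) : PerPt g (g x) := by
  obtain ⟨k, hk, hkx⟩ := h
  refine ⟨k, hk, ?_⟩
  rw [← Function.iterate_succ_apply, Function.iterate_succ_apply', hkx]

lemma PerPt.iter {x : K} (h : PerPt g x) (k : ℕ) : PerPt g (g^[k] x) := by
  induction k with
  | zero => exact h
  | succ k ih => rw [Function.iterate_succ_apply']; exact ih.image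

lemma PerPt.inj' {x y : K} (hx : PerPt g x) (hy : PerPt g y) (h : g x = g y) : x = y := by
  obtain ⟨k, hk, hkx⟩ := hx
  obtain ⟨l, hl, hly⟩ := hy
  have h1 : g^[k * l] x = x := by
    rw [Function.iterate_mul]
    exact Function.iterate_fixed hkx l
  have h2 : g^[k * l] y = y := by
    rw [mul_comm, Function.iterate_mul]
    exact Function.iterate_fixed hly k
  have hkl : 0 < k * l := Nat.mul_pos hk hl
  obtain ⟨j, hj⟩ : ∃ j, k * l = j + 1 := ⟨k * l - 1, by omega⟩
  rw [hj, Function.iterate_succ_apply] at h1 h2
  rw [← h1, h, h2]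

lemma PerPt.iter_inj {x y : K} (hx : PerPt g x) (hy : PerPt g y)
    (k : ℕ) (h : g^[k] x = g^[k] y) : x = y := by
  induction k with
  | zero => exact h
  | succ k ih =>
    rw [Function.iterate_succ_apply', Function.iterate_succ_apply'] at h
    exact ih ((hx.iter k).inj' (hy.iter k) h)

lemma PerPt.prePt {x : K} (h : PerPt g x) : PrePt g x := by
  classical
  obtain ⟨k, hk, hkx⟩ := h
  refine (((Finset.range k).image fun i => g^[i] x).finite_toSet).subset ?_
  rintro _ ⟨j, rfl⟩
  simp only [Finset.coe_image, Finset.coe_range, Set.mem_image, Set.mem_Iio]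
  refine ⟨j % k, Nat.mod_lt _ hk, ?_⟩
  conv_rhs => rw [← Nat.mod_add_div j k, Function.iterate_add_apply, Function.iterate_mul]
  rw [Function.iterate_fixed hkx]

lemma PrePt.exists_per {x : K} (h : PrePt g x) : ∃ m : ℕ, PerPt g (g^[m] x) := by
  have h1 : ¬ Function.Injective fun k : ℕ => g^[k] x := fun hinj =>
    Set.infinite_range_of_injective hinj h
  simp only [Function.Injective] at h1
  push Not at h1
  obtain ⟨a, b, hab, hne⟩ := h1
  rcases lt_or_gt_of_ne hne with hlt | hlt
  · refine ⟨a, b - a, by omega, ?_⟩
    rw [← Function.iterate_add_apply, Nat.sub_add_cancel hlt.le]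
    exact hab.symm
  · refine ⟨b, a - b, by omega, ?_⟩
    rw [← Function.iterate_add_apply, Nat.sub_add_cancel hlt.le]
    exact hab

/-- a point meets at most one periodic point -/
lemma meets {w x x' : K} (hx : PerPt g x) (hx' : PerPt g x')
    (hne : x ≠ x') : (∀ k : ℕ, g^[k] w ≠ g^[k] x) ∨ (∀ k : ℕ, g^[k] w ≠ g^[k] x') := by
  by_contra h
  push Not at h
  obtain ⟨⟨k, hk⟩, ⟨l, hl⟩⟩ := h
  apply hne
  apply hx.iter_inj hx' (k + l)
  have h1 : g^[k + l] w = g^[k + l] x := by
    rw [add_comm, Function.iterate_add_apply, hk, ← Function.iterate_add_apply]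
  have h2 : g^[k + l] w = g^[k + l] x' := by
    rw [Function.iterate_add_apply, hl, ← Function.iterate_add_apply]
  rw [← h1, ← h2]

/-- semiconjugate image of a preperiodic point -/
lemma PrePt.semiconj {L : Type*} {g' : L → L} {φ : K → L} (hφ : Function.Semiconj φ g g') {x : K}
    (hx : PrePt g x) : PrePt g' (φ x) := by
  unfold PrePt at hx ⊢
  have : (Set.range fun k : ℕ => g'^[k] (φ x)) = φ '' (Set.range fun k : ℕ => g^[k] x) := by
    rw [← Set.range_comp]
    congr 1
    funext k
    exact ((hφ.iterate_right k) x).symm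
  rw [this]
  exact hx.image _

end general

section family

variable {K : Type*} [Field K]

lemma tw_map {L : Type*} [Field L] (φ : K →+* L) (d : ℕ) (lam : K) :
    Function.Semiconj φ (tw d lam) (tw d (φ lam)) := fun z => by
  simp [tw]

lemma PrePt.tw_map {L : Type*} [Field L] (φ : K →+* L) {d : ℕ} {lam x : K}
    (hx : PrePt (tw d lam) x) : PrePt (tw d (φ lam)) (φ x) :=
  hx.semiconj (UBC.tw_map φ d lam)

/-- bounded fibres -/
lemma card_le_mul_tw [DecidableEq K] {d : ℕ} (hd : 0 < d) {lam : K} (hlam : lam ≠ 0)
    (P : Finset K) (B : ℕ) (hB : (P.image (tw d lam)).card ≤ B) : P.card ≤ d * B := by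
  calc P.card ≤ d * (P.image (tw d lam)).card := by
        apply Finset.card_le_mul_card_image
        intro b _
        have h1 : P.filter (fun x => tw d lam x = b) ⊆
            (Polynomial.nthRoots d ((b - 1) / lam)).toFinset := by
          intro x hx
          rw [Finset.mem_filter] at hx
          rw [Multiset.mem_toFinset, Polynomial.mem_nthRoots hd, ← hx.2]
          simp only [tw]
          field_simp
          ring
        calc (P.filter (fun x => tw d lam x = b)).card
            ≤ (Polynomial.nthRoots d ((b - 1) / lam)).toFinset.card :=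
              Finset.card_le_card h1
          _ ≤ (Polynomial.nthRoots d ((b - 1) / lam)).card := Multiset.toFinset_card_le _
          _ ≤ d := Polynomial.card_nthRoots d _
    _ ≤ d * B := Nat.mul_le_mul_left d hB

end family

end UBC
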