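import Pool.Agent.UBC.Defs2

/-!
# Local estimates for preperiodic points of `lam z ^ d + 1`
-/

set_option autoImplicit false

namespace UBC

namespace DynLocAux

variable {K : Type*} [Field K] (v : AbsoluteValue K ℝ) {d : ℕ} {lam x y : K}

/-- the maximum over the orbit -/
theorem orb {x : K} (hx : PrePt (tw d lam) x) : ∃ M : ℝ, 0 ≤ M ∧
    (∀ j, v ((tw d lam)^[j] x) ≤ M) ∧ ∃ z w : K, v z = M ∧ v w ≤ M ∧ lam * z ^ d = w - 1 := by
  obtain ⟨z, hz, hmax⟩ := Set.exists_max_image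
    (Set.range fun k : ℕ => (tw d lam)^[k] x) (fun z => v z) hx ⟨_, ⟨0, rfl⟩⟩
  obtain ⟨k, hk⟩ := hz
  refine ⟨v z, v.nonneg z, fun j => hmax _ ⟨j, rfl⟩, z, (tw d lam)^[k + 1] x, rfl,
    hmax _ ⟨k + 1, rfl⟩, ?_⟩
  have h1 : (tw d lam)^[k + 1] x = tw d lam z := by
    rw [Function.iterate_succ_apply']
    exact congrArg _ hk
  rw [h1]
  unfold tw
  ring

theorem sub_one_le (w : K) : v (w - 1) ≤ v w + 1 := by
  have := v.add_le w (-1)
  rwa [← sub_eq_add_neg, v.map_neg, v.map_one] at this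

theorem sub_one_le' (hv : IsNonarchimedean v) (w : K) : v (w - 1) ≤ max (v w) 1 := by
  have := hv w (-1)
  rwa [← sub_eq_add_neg, v.map_neg, v.map_one] at this

/-- any absolute value -/
theorem orbA {x : K} (hx : PrePt (tw d lam) x) : ∃ M : ℝ, 0 ≤ M ∧
    (∀ j, v ((tw d lam)^[j] x) ≤ M) ∧ v lam * M ^ d ≤ M + 1 := by
  obtain ⟨M, h0, hM, z, w, hz, hw, he⟩ := orb v hx
  refine ⟨M, h0, hM, ?_⟩
  have h1 := congrArg v he
  rw [v.map_mul, v.map_pow, hz] at h1
  rw [h1]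
  exact (sub_one_le v w).trans (by linarith)

/-- nonarchimedean absolute value -/
theorem orbN (hv : IsNonarchimedean v) {x : K} (hx : PrePt (tw d lam) x) : ∃ M : ℝ, 0 ≤ M ∧
    (∀ j, v ((tw d lam)^[j] x) ≤ M) ∧ v lam * M ^ d ≤ max M 1 := by
  obtain ⟨M, h0, hM, z, w, hz, hw, he⟩ := orb v hx
  refine ⟨M, h0, hM, ?_⟩
  have h1 := congrArg v he
  rw [v.map_mul, v.map_pow, hz] at h1
  rw [h1]
  exact (sub_one_le' v hv w).trans (max_le_max hw le_rfl)

/-- if `1 ≤ M` -/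
theorem big {a M c : ℝ} (hd : 2 ≤ d) (hM : 1 ≤ M) (h : a * M ^ d ≤ c * M) :
    a * M ^ (d - 1) ≤ c := by
  have h0 : 0 < M := by linarith
  have h1 : a * M ^ d = (a * M ^ (d - 1)) * M := by
    conv_lhs => rw [show d = (d - 1) + 1 by omega, pow_succ]
    ring
  rw [h1] at h
  exact le_of_mul_le_mul_right h h0

theorem bigA {a M : ℝ} (hd : 2 ≤ d) (hM : 1 ≤ M) (h : a * M ^ d ≤ M + 1) :
    a * M ^ (d - 1) ≤ 2 :=
  big hd hM (by linarith)

theorem bigN {a M : ℝ} (hd : 2 ≤ d) (hM : 1 ≤ M) (h : a * M ^ d ≤ max M 1) :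
    a * M ^ (d - 1) ≤ 1 :=
  big hd hM (by rw [max_eq_left hM] at h; linarith)

theorem big1 {a M c : ℝ} (ha : 0 ≤ a) (hM : 1 ≤ M) (h : a * M ^ (d - 1) ≤ c) : a ≤ c := by
  have : 1 ≤ M ^ (d - 1) := one_le_pow₀ hM
  nlinarith

theorem zero_one (hd : 2 ≤ d) : (tw d lam)^[1] 0 = 1 := by
  simp [tw, zero_pow (show d ≠ 0 by omega)]

theorem quot (hlam : lam ≠ 0) (hy0 : y ≠ 0) (hne : x ^ d ≠ y ^ d) :
    ((x / y) ^ d - 1)⁻¹ = (tw d lam y - 1) / (tw d lam x - tw d lam y) := by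
  have h1 : x ^ d - y ^ d ≠ 0 := sub_ne_zero.mpr hne
  have h2 : y ^ d ≠ 0 := pow_ne_zero _ hy0
  have h3 : tw d lam x - tw d lam y = lam * (x ^ d - y ^ d) := by unfold tw; ring
  have h4 : tw d lam y - 1 = lam * y ^ d := by unfold tw; ring
  have h5 : (x / y) ^ d - 1 = (x ^ d - y ^ d) / y ^ d := by
    rw [div_pow, sub_div, div_self h2]
  rw [h3, h4, h5, inv_div, mul_div_mul_left _ _ hlam]

end DynLocAux

open DynLocAux

variable {K : Type*} [Field K] (v : AbsoluteValue K ℝ) {d : ℕ} {lam x y : K}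

/-- V2a. nonarchimedean: size of preperiodic points -/
theorem orb_nonarch (hv : IsNonarchimedean v) (hd : 2 ≤ d) (hlam : lam ≠ 0)
    (hx : PrePt (tw d lam) x) : max (v x) 1 ^ (d - 1) ≤ max (v lam⁻¹) 1 := by
  obtain ⟨M, h0, hM, hl⟩ := orbN v hv hx
  have hxM : v x ≤ M := hM 0
  rcases le_total (v x) 1 with h | h
  · rw [max_eq_right h, one_pow]
    exact le_max_right _ _
  · have hM1 : 1 ≤ M := h.trans hxM
    have h1 := bigN hd hM1 hl
    have hvl : 0 < v lam := v.pos hlam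
    rw [max_eq_left h]
    refine le_trans ?_ (le_max_left _ _)
    rw [map_inv₀, ← one_div, le_div_iff₀ hvl]
    calc v x ^ (d - 1) * v lam ≤ M ^ (d - 1) * v lam :=
          mul_le_mul_of_nonneg_right (pow_le_pow_left₀ (v.nonneg x) hxM _) hvl.le
      _ ≤ 1 := by rw [mul_comm]; exact h1

/-- V2b. any absolute value: size of preperiodic points -/
theorem orb_any (hd : 2 ≤ d) (hlam : lam ≠ 0)
    (hx : PrePt (tw d lam) x) : max (v x) 1 ^ (d - 1) ≤ 2 * max (v lam⁻¹) 1 := by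
  obtain ⟨M, h0, hM, hl⟩ := orbA v hx
  have hxM : v x ≤ M := hM 0
  rcases le_total (v x) 1 with h | h
  · rw [max_eq_right h, one_pow]
    have := le_max_right (v lam⁻¹) 1
    linarith
  · have hM1 : 1 ≤ M := h.trans hxM
    have h1 := bigA hd hM1 hl
    have hvl : 0 < v lam := v.pos hlam
    rw [max_eq_left h]
    have h2 : v x ^ (d - 1) ≤ 2 * v lam⁻¹ := by
      rw [map_inv₀, ← div_eq_mul_inv, le_div_iff₀ hvl]
      calc v x ^ (d - 1) * v lam ≤ M ^ (d - 1) * v lam :=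
            mul_le_mul_of_nonneg_right (pow_le_pow_left₀ (v.nonneg x) hxM _) hvl.le
        _ ≤ 2 := by rw [mul_comm]; exact h1
    have := le_max_left (v lam⁻¹) 1
    linarith

/-- V2c. nonarchimedean: `(x / y) ^ d` is close to `1` -/
theorem near_nonarch (hv : IsNonarchimedean v) (hd : 2 ≤ d) (hlam : lam ≠ 0)
    (hx : PrePt (tw d lam) x) (hy : PrePt (tw d lam) y) (hy0 : y ≠ 0) (hne : x ^ d ≠ y ^ d) :
    max (v lam) 1 ≤ max (v ((x / y) ^ d - 1)⁻¹) 1 ^ d := by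
  rcases le_or_gt (v lam) 1 with h | h
  · rw [max_eq_right h]
    exact one_le_pow₀ (le_max_right _ _)
  rw [max_eq_left h.le]
  obtain ⟨M1, p0, pM, pl⟩ := orbN v hv hx
  obtain ⟨M2, q0, qM, ql⟩ := orbN v hv hy
  have hM1 : M1 < 1 := by
    by_contra hc
    have := big1 (v.nonneg lam) (not_lt.mp hc) (bigN hd (not_lt.mp hc) pl)
    linarith
  have hM2 : M2 < 1 := by
    by_contra hc
    have := big1 (v.nonneg lam) (not_lt.mp hc) (bigN hd (not_lt.mp hc) ql)
    linarith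
  rw [max_eq_right hM1.le] at pl
  rw [max_eq_right hM2.le] at ql
  obtain ⟨M, hM⟩ : ∃ M, M = max M1 M2 := ⟨_, rfl⟩
  have hMl : v lam * M ^ d ≤ 1 := by
    rcases max_choice M1 M2 with hc | hc
    · rw [hM, hc]; exact pl
    · rw [hM, hc]; exact ql
  have hM' : M < 1 := by rw [hM]; exact max_lt hM1 hM2
  have hfx : v (tw d lam x) ≤ M := (pM 1).trans (by rw [hM]; exact le_max_left _ _)
  have hfy : v (tw d lam y) ≤ M := (qM 1).trans (by rw [hM]; exact le_max_right _ _)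
  have hdiff : tw d lam x - tw d lam y ≠ 0 := by
    have h3 : tw d lam x - tw d lam y = lam * (x ^ d - y ^ d) := by unfold tw; ring
    rw [h3]
    exact mul_ne_zero hlam (sub_ne_zero.mpr hne)
  have h1 : v (tw d lam x - tw d lam y) ≤ M := by
    have := hv (tw d lam x) (-(tw d lam y))
    rw [← sub_eq_add_neg, v.map_neg] at this
    exact this.trans (max_le hfx hfy)
  have h2 : 1 ≤ v (tw d lam y - 1) := by
    have := hv (tw d lam y) (-(tw d lam y - 1))
    rw [v.map_neg, show tw d lam y + -(tw d lam y - 1) = 1 by ring, v.map_one] at this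
    rcases le_max_iff.mp this with h' | h'
    · linarith
    · exact h'
  have h3 : 0 < v (tw d lam x - tw d lam y) := v.pos hdiff
  have hM0 : 0 < M := lt_of_lt_of_le h3 h1
  have hu : 1 / M ≤ v ((x / y) ^ d - 1)⁻¹ := by
    rw [quot hlam hy0 hne, map_div₀, div_le_div_iff₀ hM0 h3]
    calc 1 * v (tw d lam x - tw d lam y) ≤ 1 * M := by linarith
      _ ≤ v (tw d lam y - 1) * M := mul_le_mul_of_nonneg_right h2 hM0.le
  calc v lam ≤ (1 / M) ^ d := by
        rw [one_div, inv_pow, ← one_div, le_div_iff₀ (pow_pos hM0 d)]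
        exact hMl
    _ ≤ _ := pow_le_pow_left₀ (by positivity) (hu.trans (le_max_left _ _)) d

/-- V2d. any absolute value: `(x / y) ^ d` is close to `1` -/
theorem near_any (hd : 2 ≤ d) (hlam : lam ≠ 0)
    (hx : PrePt (tw d lam) x) (hy : PrePt (tw d lam) y) (hy0 : y ≠ 0) (hne : x ^ d ≠ y ^ d) :
    max (v lam) 1 ≤ 2 * 4 ^ d * max (v ((x / y) ^ d - 1)⁻¹) 1 ^ d := by
  have h4 : (1 : ℝ) ≤ 4 ^ d := one_le_pow₀ (by norm_num)
  rcases le_or_gt (v lam) (2 * 4 ^ d) with h | h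
  · have h5 : max (v lam) 1 ≤ 2 * 4 ^ d := max_le h (by linarith)
    have h6 : 1 ≤ max (v ((x / y) ^ d - 1)⁻¹) 1 ^ d := one_le_pow₀ (le_max_right _ _)
    nlinarith
  have hl2 : 2 < v lam := by linarith
  rw [max_eq_left (by linarith)]
  obtain ⟨M1, p0, pM, pl⟩ := orbA v hx
  obtain ⟨M2, q0, qM, ql⟩ := orbA v hy
  have hM1 : M1 < 1 := by
    by_contra hc
    have := big1 (v.nonneg lam) (not_lt.mp hc) (bigA hd (not_lt.mp hc) pl)
    linarith
  have hM2 : M2 < 1 := by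
    by_contra hc
    have := big1 (v.nonneg lam) (not_lt.mp hc) (bigA hd (not_lt.mp hc) ql)
    linarith
  obtain ⟨M, hM⟩ : ∃ M, M = max M1 M2 := ⟨_, rfl⟩
  have hMl : v lam * M ^ d ≤ 2 := by
    rcases max_choice M1 M2 with hc | hc
    · rw [hM, hc]; linarith
    · rw [hM, hc]; linarith
  have hM' : M < 1 := by rw [hM]; exact max_lt hM1 hM2
  have hM0' : 0 ≤ M := by rw [hM]; exact p0.trans (le_max_left _ _)
  have hfx : v (tw d lam x) ≤ M := (pM 1).trans (by rw [hM]; exact le_max_left _ _)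
  have hfy : v (tw d lam y) ≤ M := (qM 1).trans (by rw [hM]; exact le_max_right _ _)
  have hMhalf : M ≤ 1 / 2 := by
    by_contra hc
    have hc' : 1 / 4 < M := by linarith [not_le.mp hc]
    have : (1 / 4 : ℝ) ^ d ≤ M ^ d := pow_le_pow_left₀ (by norm_num) hc'.le d
    have h7 : v lam * (1 / 4 : ℝ) ^ d ≤ v lam * M ^ d := mul_le_mul_of_nonneg_left this (v.nonneg _)
    have h8 : v lam * (1 / 4 : ℝ) ^ d > 2 := by
      rw [one_div, inv_pow, ← div_eq_mul_inv, gt_iff_lt, lt_div_iff₀ (by positivity)]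
      exact h
    linarith
  have hdiff : tw d lam x - tw d lam y ≠ 0 := by
    have h3 : tw d lam x - tw d lam y = lam * (x ^ d - y ^ d) := by unfold tw; ring
    rw [h3]
    exact mul_ne_zero hlam (sub_ne_zero.mpr hne)
  have h1 : v (tw d lam x - tw d lam y) ≤ 2 * M := by
    have := v.add_le (tw d lam x) (-(tw d lam y))
    rw [← sub_eq_add_neg, v.map_neg] at this
    linarith
  have h2 : 1 / 2 ≤ v (tw d lam y - 1) := by
    have := v.add_le (tw d lam y) (-(tw d lam y - 1))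
    rw [v.map_neg, show tw d lam y + -(tw d lam y - 1) = 1 by ring, v.map_one] at this
    linarith
  have h3 : 0 < v (tw d lam x - tw d lam y) := v.pos hdiff
  have hM0 : 0 < M := by linarith
  have hu : 1 / (4 * M) ≤ v ((x / y) ^ d - 1)⁻¹ := by
    rw [quot hlam hy0 hne, map_div₀, div_le_div_iff₀ (by positivity) h3]
    calc 1 * v (tw d lam x - tw d lam y) ≤ 1 / 2 * (4 * M) := by linarith
      _ ≤ v (tw d lam y - 1) * (4 * M) := mul_le_mul_of_nonneg_right h2 (by positivity)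
  have hu' : (1 / (4 * M)) ^ d ≤ max (v ((x / y) ^ d - 1)⁻¹) 1 ^ d :=
    pow_le_pow_left₀ (by positivity) (hu.trans (le_max_left _ _)) d
  have hM4 : v lam ≤ 2 * 4 ^ d * (1 / (4 * M)) ^ d := by
    have : 2 * 4 ^ d * (1 / (4 * M)) ^ d = 2 / M ^ d := by
      rw [one_div, inv_pow, mul_pow]
      field_simp
    rw [this, le_div_iff₀ (pow_pos hM0 d)]
    exact hMl
  exact hM4.trans (mul_le_mul_of_nonneg_left hu' (by positivity))

/-- V2e. nonarchimedean: `0` is preperiodic only for small `lam` -/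
theorem zero_nonarch (hv : IsNonarchimedean v) (hd : 2 ≤ d) (hlam : lam ≠ 0)
    (hx : PrePt (tw d lam) 0) : v lam ≤ 1 := by
  obtain ⟨M, h0, hM, hl⟩ := orbN v hv hx
  have h1 := hM 1
  rw [zero_one hd, v.map_one] at h1
  exact big1 (v.nonneg lam) h1 (bigN hd h1 hl)

/-- V2f. any absolute value: `0` is preperiodic only for small `lam` -/
theorem zero_any (hd : 2 ≤ d) (hlam : lam ≠ 0)
    (hx : PrePt (tw d lam) 0) : v lam ≤ 2 := by
  obtain ⟨M, h0, hM, hl⟩ := orbA v hx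
  have h1 := hM 1
  rw [zero_one hd, v.map_one] at h1
  exact big1 (v.nonneg lam) h1 (bigA hd h1 hl)

end UBC
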