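import Pool.Agent.UBC.LocGlob
import Pool.Agent.UBC.DynLoc

/-!
# Heights of preperiodic points of `lam z ^ d + 1`
-/

set_option autoImplicit false

namespace UBC

open Height NumberField AdmissibleAbsValues

namespace DynHtAux

open Classical in
/-- the constant `1` at the nonarchimedean places, `M` elsewhere -/
noncomputable def BB (L : Type*) [Field L] [AdmissibleAbsValues L] (M : ℝ) :
    AbsoluteValue L ℝ → ℝ :=
  fun v => if v ∈ nonarchAbsVal (K := L) then 1 else M

theorem BB_ok (L : Type*) [Field L] [AdmissibleAbsValues L] (M : ℝ) (hM : 1 ≤ M) :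
    Ok L (BB L M) := by
  refine ⟨fun v => ?_, ?_⟩
  · unfold BB
    split_ifs
    · exact le_rfl
    · exact hM
  · refine Set.Finite.subset Set.finite_empty ?_
    rintro v ⟨h1, h2⟩
    exact absurd (by unfold BB; rw [if_pos h1]) h2

/-- V1 with a constant which is `1` at the nonarchimedean places -/
theorem le_of (L : Type*) [Field L] [AdmissibleAbsValues L] (M : ℝ) (hM : 1 ≤ M) :
    ∃ C : ℝ, ∀ (ι : Type) [Fintype ι] (c : L) (ξ : ι → L) (k : ℕ),
      (∀ v ∈ nonarchAbsVal (K := L), IsNonarchimedean v →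
        max (v c) 1 ≤ ∏ i, max (v (ξ i)) 1 ^ k) →
      (∀ v : AbsoluteValue L ℝ, max (v c) 1 ≤ M * ∏ i, max (v (ξ i)) 1 ^ k) →
      logHeight₁ c ≤ k * ∑ i, logHeight₁ (ξ i) + C := by
  obtain ⟨C, hC⟩ := height_le_of_local L (BB L M) (BB_ok L M hM)
  refine ⟨C, fun ι _ c ξ k h1 h2 => hC ι c ξ k fun v _ => ?_⟩
  unfold BB
  split_ifs with hv
  · rw [one_mul]
    exact h1 v hv (AdmissibleAbsValues.isNonarchimedean v hv)
  · exact h2 v

theorem pow_max (a : ℝ) (ha : 0 ≤ a) (n : ℕ) : max (a ^ n) 1 = max a 1 ^ n := by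
  rcases le_total a 1 with h | h
  · rw [max_eq_right h, max_eq_right (pow_le_one₀ ha h), one_pow]
  · rw [max_eq_left h, max_eq_left (one_le_pow₀ h)]

end DynHtAux

open DynHtAux

/-- V3. -/
theorem dyn_height (L : Type*) [Field L] [NumberField L] {d : ℕ} (hd : 2 ≤ d) : ∃ C : ℝ,
    (∀ lam x : L, lam ≠ 0 → PrePt (tw d lam) x →
      ((d : ℝ) - 1) * logHeight₁ x ≤ logHeight₁ lam + C) ∧
    (∀ lam : L, lam ≠ 0 → PrePt (tw d lam) 0 → logHeight₁ lam ≤ C) ∧
    (∀ lam x y : L, lam ≠ 0 → PrePt (tw d lam) x → PrePt (tw d lam) y → y ≠ 0 → x ^ d ≠ y ^ d →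
      logHeight₁ lam ≤ (d : ℝ) ^ 2 * logHeight₁ (x / y) + C) := by
  have h4 : (1 : ℝ) ≤ 2 * 4 ^ d := by
    have : (1 : ℝ) ≤ 4 ^ d := one_le_pow₀ (by norm_num)
    linarith
  obtain ⟨C, hC⟩ := le_of L (2 * 4 ^ d) h4
  have h2 : (2 : ℝ) ≤ 2 * 4 ^ d := by
    have : (1 : ℝ) ≤ 4 ^ d := one_le_pow₀ (by norm_num)
    linarith
  set W : ℝ := totalWeight L * Real.log 2 with hW
  have hW0 : 0 ≤ W := by positivity
  have hd0 : (0 : ℝ) ≤ d := Nat.cast_nonneg d
  refine ⟨C + d * W, ?_, ?_, ?_⟩
  · intro lam x hlam hx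
    have h := hC Unit (x ^ (d - 1)) (fun _ => lam⁻¹) 1
      (fun v _ hv => by
        simp only [Finset.univ_unique, Finset.prod_singleton, pow_one]
        rw [map_pow, pow_max _ (v.nonneg x)]
        exact orb_nonarch v hv hd hlam hx)
      (fun v => by
        simp only [Finset.univ_unique, Finset.prod_singleton, pow_one]
        rw [map_pow, pow_max _ (v.nonneg x)]
        refine (orb_any v hd hlam hx).trans ?_
        exact mul_le_mul_of_nonneg_right h2 (by positivity))
    rw [logHeight₁_pow] at h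
    simp only [Finset.univ_unique, Finset.sum_singleton, Nat.cast_one, one_mul] at h
    rw [logHeight₁_inv, Nat.cast_sub (by omega), Nat.cast_one] at h
    have : 0 ≤ (d : ℝ) * W := mul_nonneg hd0 hW0
    linarith
  · intro lam hlam h0
    have h := hC Empty lam (fun _ => 1) 1
      (fun v _ hv => by
        simp only [Finset.univ_eq_empty, Finset.prod_empty]
        exact max_le (zero_nonarch v hv hd hlam h0) le_rfl)
      (fun v => by
        simp only [Finset.univ_eq_empty, Finset.prod_empty, mul_one]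
        exact max_le ((zero_any v hd hlam h0).trans h2) h4)
    simp only [Finset.univ_eq_empty, Finset.sum_empty, mul_zero, zero_add] at h
    have : 0 ≤ (d : ℝ) * W := mul_nonneg hd0 hW0
    linarith
  · intro lam x y hlam hx hy hy0 hne
    have h := hC Unit lam (fun _ => ((x / y) ^ d - 1)⁻¹) d
      (fun v _ hv => by
        simp only [Finset.univ_unique, Finset.prod_singleton]
        exact near_nonarch v hv hd hlam hx hy hy0 hne)
      (fun v => by
        simp only [Finset.univ_unique, Finset.prod_singleton]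
        exact near_any v hd hlam hx hy hy0 hne)
    simp only [Finset.univ_unique, Finset.sum_singleton] at h
    rw [logHeight₁_inv] at h
    have h5 := logHeight₁_sub_le ((x / y) ^ d) (1 : L)
    rw [logHeight₁_one, logHeight₁_pow, add_zero] at h5
    have h6 := mul_le_mul_of_nonneg_left h5 hd0
    nlinarith

end UBC
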