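import Pool.Agent.UBC.Agree2
import Pool.Agent.UBC.SelExt

/-!
# `Few` for `d = 5` over an extension
-/

set_option autoImplicit false

universe u

namespace UBC

open Height NumberField IsDedekindDomain Polynomial

namespace ExAgree2Aux

theorem key {L : Type*} [Field L] {τ e a : L} (h1 : τ ≠ e) (h2 : a ≠ e) :
    1 / (τ - e) - 1 / (a - e) = (τ - a) / (τ - e) / (e - a) := by
  have h3 : τ - e ≠ 0 := sub_ne_zero.mpr h1
  have h4 : a - e ≠ 0 := sub_ne_zero.mpr h2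
  have h5 : e - a ≠ 0 := sub_ne_zero.mpr h2.symm
  field_simp
  ring

end ExAgree2Aux

/-- V14.  `1 / (t - e') - 1 / (e j - e') = ((t - e j) / (t - e')) / (e' - e j)`. -/
theorem exists_few_two (K : Type u) [Field K] [NumberField K] {ζ0 : K}
    (hζ0 : IsPrimitiveRoot ζ0 5) (S : Set (HeightOneSpectrum (𝓞 K))) (hS : S.Finite) :
    ∃ (L : Type u) (_ : Field L) (_ : NumberField L) (_ : Algebra K L) (D : Set L), Few 5 L D ∧
      ∀ t : K, (∀ ζ ζ' : K, ζ ^ 5 = 1 → ζ ≠ 1 → ζ' ^ 5 = 1 → ζ' ≠ 1 →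
        t ≠ ζ ∧ Sel 2 S ((t - ζ) / (t - ζ'))) → algebraMap K L t ∈ D := by
  have hpow : ∀ i j : ℕ, i < 5 → j < 5 → i ≠ j → ζ0 ^ i ≠ ζ0 ^ j :=
    fun i j hi hj hij h => hij (hζ0.pow_inj hi hj h)
  have hroot : ∀ i : ℕ, (ζ0 ^ i) ^ 5 = 1 := fun i => by
    rw [← pow_mul, mul_comm, pow_mul, hζ0.pow_eq_one, one_pow]
  have hne1 : ∀ i : ℕ, 0 < i → i < 5 → ζ0 ^ i ≠ 1 := fun i h0 h5 => by
    have := hpow i 0 h5 (by norm_num) (by omega)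
    rwa [pow_zero] at this
  obtain ⟨c1, hc1⟩ : ∃ c : K, c = (ζ0 ^ 4 - ζ0 ^ 1) * (ζ0 ^ 4 - ζ0 ^ 2) * (ζ0 ^ 4 - ζ0 ^ 3) := ⟨_, rfl⟩
  obtain ⟨c2, hc2⟩ : ∃ c : K, c = (1 / (1 - ζ0 ^ 4) - 1 / (ζ0 - ζ0 ^ 4)) *
      (1 / (1 - ζ0 ^ 4) - 1 / (ζ0 ^ 2 - ζ0 ^ 4)) * (1 / (1 - ζ0 ^ 4) - 1 / (ζ0 ^ 3 - ζ0 ^ 4)) :=
    ⟨_, rfl⟩
  obtain ⟨L, i1, i2, i3, hP, hL⟩ := exists_ext K 2 (by norm_num) S hS
    ((X ^ 2 - C c1) * (X ^ 2 - C c2))
    (mul_ne_zero (X_pow_sub_C_ne_zero (by norm_num) _) (X_pow_sub_C_ne_zero (by norm_num) _))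
  obtain ⟨w, hw⟩ := hP (X ^ 2 - C c1) (Dvd.intro _ rfl)
    (by rw [natDegree_X_pow_sub_C]; norm_num)
  obtain ⟨y1, hy1⟩ := hP (X ^ 2 - C c2) (Dvd.intro_left _ rfl)
    (by rw [natDegree_X_pow_sub_C]; norm_num)
  rw [map_sub, map_pow, aeval_X, aeval_C, sub_eq_zero] at hw hy1
  have hinj : Function.Injective (algebraMap K L) := (algebraMap K L).injective
  have hζ : IsPrimitiveRoot (algebraMap K L ζ0) 5 := hζ0.map_of_injective hinj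
  refine ⟨L, i1, i2, i3, _, agree2 L hζ (y₁ := y1) ?_, ?_⟩
  · rw [hy1, hc2]
    simp only [map_mul, map_sub, map_div₀, map_one, map_pow]
  · intro t ht
    have h4 : t ≠ ζ0 ^ 4 := (ht (ζ0 ^ 4) (ζ0 ^ 4) (hroot 4) (hne1 4 (by norm_num) (by norm_num))
      (hroot 4) (hne1 4 (by norm_num) (by norm_num))).1
    have h4L : algebraMap K L t ≠ algebraMap K L ζ0 ^ 4 := by
      rw [← map_pow]
      exact fun h => h4 (hinj h)
    refine ⟨h4L, ?_⟩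
    have hs : ∀ i : ℕ, 0 < i → i < 4 → ∃ z : L,
        1 / (algebraMap K L t - algebraMap K L ζ0 ^ 4)
          - 1 / (algebraMap K L ζ0 ^ i - algebraMap K L ζ0 ^ 4)
        = z ^ 2 / (algebraMap K L (ζ0 ^ 4 - ζ0 ^ i)) := by
      intro i h0 hi
      obtain ⟨z, hz⟩ := hL _ (ht (ζ0 ^ i) (ζ0 ^ 4) (hroot i) (hne1 i h0 (by omega))
        (hroot 4) (hne1 4 (by norm_num) (by norm_num))).2
      refine ⟨z, ?_⟩
      have hia : algebraMap K L ζ0 ^ i ≠ algebraMap K L ζ0 ^ 4 := by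
        rw [← map_pow, ← map_pow]
        exact fun h => hpow i 4 (by omega) (by norm_num) (by omega) (hinj h)
      rw [ExAgree2Aux.key h4L hia, hz]
      simp only [map_sub, map_div₀, map_pow]
    obtain ⟨z1, hz1⟩ := hs 1 (by norm_num) (by norm_num)
    obtain ⟨z2, hz2⟩ := hs 2 (by norm_num) (by norm_num)
    obtain ⟨z3, hz3⟩ := hs 3 (by norm_num) (by norm_num)
    refine ⟨z1 * z2 * z3 / w, ?_⟩
    rw [pow_one] at hz1
    rw [hz1, hz2, hz3, div_pow, hw, hc1, map_mul, map_mul, mul_pow, mul_pow, div_mul_div_comm,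
      div_mul_div_comm]

end UBC
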