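import Pool.Agent.UBC.Agree3
import Pool.Agent.UBC.SelExt

/-!
# `Few` for `d = 4` over an extension
-/

set_option autoImplicit false

universe u

namespace UBC

open Height NumberField IsDedekindDomain Polynomial

/-- V11.  With `I = ζ0` in `K` and `x = -I (t - I) / (t + I)`:
`x (1 - x) = -I (1 + I) ((t - I) / (t + I)) ((t + 1) / (t + I))`. -/
theorem exists_few_three (K : Type u) [Field K] [NumberField K] {ζ0 : K}
    (hζ0 : IsPrimitiveRoot ζ0 4) (S : Set (HeightOneSpectrum (𝓞 K))) (hS : S.Finite) :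
    ∃ (L : Type u) (_ : Field L) (_ : NumberField L) (_ : Algebra K L) (D : Set L), Few 4 L D ∧
      ∀ t : K, (∀ ζ ζ' : K, ζ ^ 4 = 1 → ζ ≠ 1 → ζ' ^ 4 = 1 → ζ' ≠ 1 →
        t ≠ ζ ∧ Sel 3 S ((t - ζ) / (t - ζ'))) → algebraMap K L t ∈ D := by
  have hI : ζ0 ^ 2 = -1 := by
    have h1 : IsPrimitiveRoot (ζ0 ^ 2) 2 := hζ0.pow (by norm_num) (by norm_num)
    exact h1.eq_neg_one_of_two_right
  have hI4 : ζ0 ^ 4 = 1 := hζ0.pow_eq_one
  have h2 : (2 : K) ≠ 0 := two_ne_zero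
  have hI1 : ζ0 ≠ 1 := by
    intro h
    rw [h, one_pow] at hI
    exact h2 (by linear_combination hI)
  have hIn1 : -ζ0 ≠ 1 := by
    intro h
    have h3 : ζ0 = -1 := by linear_combination -h
    rw [h3] at hI
    exact h2 (by linear_combination hI)
  have hn1 : (-1 : K) ≠ 1 := by
    intro h
    exact h2 (by linear_combination -h)
  have hX : ∀ a : K, (X ^ 3 - C a : K[X]) ≠ 0 := fun a => X_pow_sub_C_ne_zero (by norm_num) a
  have hXd : ∀ a : K, (X ^ 3 - C a : K[X]).natDegree ≠ 0 := fun a => by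
    rw [natDegree_X_pow_sub_C]; norm_num
  obtain ⟨L, _, _, _, hL1, hL2⟩ := exists_ext K 3 (by norm_num) S hS
    ((X ^ 3 - C (-2)) * (X ^ 3 - C (-ζ0 * (1 + ζ0))) * cyclotomic 3 K)
    (mul_ne_zero (mul_ne_zero (hX _) (hX _)) (cyclotomic_ne_zero 3 K))
  obtain ⟨β, hβ⟩ := hL1 (X ^ 3 - C (-2))
    (Dvd.dvd.mul_right (Dvd.intro _ rfl) _) (hXd _)
  obtain ⟨α, hα⟩ := hL1 (X ^ 3 - C (-ζ0 * (1 + ζ0)))
    (Dvd.dvd.mul_right (Dvd.intro_left _ rfl) _) (hXd _)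
  obtain ⟨ω, hω⟩ := hL1 (cyclotomic 3 K) (Dvd.intro_left _ rfl) (by
    rw [natDegree_cyclotomic]
    exact (Nat.totient_pos.mpr (by norm_num)).ne')
  simp only [map_sub, map_pow, aeval_X, aeval_C, sub_eq_zero] at hα hβ
  have hβ3 : β ^ 3 = -2 := by rw [hβ, map_neg, map_ofNat]
  have hωp : IsPrimitiveRoot ω 3 := by
    have : NeZero ((3 : ℕ) : L) := ⟨by norm_num⟩
    rw [← isRoot_cyclotomic_iff, IsRoot.def, ← map_cyclotomic 3 (algebraMap K L)]
    rw [eval_map_algebraMap]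
    exact hω
  have hIL : (algebraMap K L ζ0) ^ 2 = -1 := by
    rw [← map_pow, hI, map_neg, map_one]
  refine ⟨L, inferInstance, inferInstance, inferInstance, _, agree3 L hIL hωp hβ3, ?_⟩
  intro t ht
  have hpI4 : (-ζ0) ^ 4 = 1 := by
    rw [neg_pow, hI4]; norm_num
  have ht1 : t ≠ -ζ0 := (ht (-ζ0) (-ζ0) hpI4 hIn1 hpI4 hIn1).1
  obtain ⟨u, hu⟩ := hL2 _ (ht ζ0 (-ζ0) hI4 hI1 hpI4 hIn1).2
  obtain ⟨w, hw⟩ := hL2 _ (ht (-1) (-ζ0) (by norm_num) hn1 hpI4 hIn1).2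
  have htI : t + ζ0 ≠ 0 := by
    intro h
    exact ht1 (by linear_combination h)
  refine ⟨?_, α * u * w, ?_⟩
  · intro h
    rw [← map_neg] at h
    exact ht1 ((algebraMap K L).injective h)
  · have h3 : (α * u * w) ^ 3 = algebraMap K L (-ζ0 * (1 + ζ0) * ((t - ζ0) / (t - -ζ0)) *
        ((t - -1) / (t - -ζ0))) := by
      rw [mul_pow, mul_pow, hα, hu, hw, ← map_mul, ← map_mul]
    have h4 : (-ζ0 * (1 + ζ0) * ((t - ζ0) / (t - -ζ0)) * ((t - -1) / (t - -ζ0)) : K) =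
        (-ζ0 * (t - ζ0) / (t + ζ0)) * (1 - (-ζ0 * (t - ζ0) / (t + ζ0))) := by
      have h5 : t - -ζ0 = t + ζ0 := by ring
      have h6 : t - -1 = t + 1 := by ring
      rw [h5, h6]
      field_simp
      linear_combination (-(ζ0 * (t - ζ0))) * hI
    rw [h3, h4]
    simp only [map_mul, map_sub, map_div₀, map_add, map_neg, map_one]

end UBC
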