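import Pool.Agent.UBC.CubeGap
import Pool.Agent.UBC.SelExt

/-!
# Existence of an extension with the gap property: cubes
-/

set_option autoImplicit false

universe u

namespace UBC

open Height NumberField IsDedekindDomain

namespace ExGapCubeAux

/-- the gap property is inherited along an injective map which preserves the height -/
theorem gap_comap {ι ι' : Type*} {h : ι' → ℝ} {T : Set ι} {T' : Set ι'} (hT' : Gap h T')
    (φ : ι → ι') (hφ : Function.Injective φ) (hT : ∀ t ∈ T, φ t ∈ T') :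
    Gap (fun t => h (φ t)) T := by
  intro lam
  obtain ⟨N, H0, hN⟩ := hT' lam
  refine ⟨N, H0, fun H hH A hA => ?_⟩
  rw [← Finset.card_map ⟨φ, hφ⟩]
  refine hN H hH _ fun t ht => ?_
  obtain ⟨a, ha, rfl⟩ := Finset.mem_map.mp ht
  exact ⟨hT a (hA a ha).1, (hA a ha).2⟩

end ExGapCubeAux

open Polynomial in
/-- U14b. -/
theorem exists_gap_cube (K : Type u) [Field K] [NumberField K]
    (S : Set (HeightOneSpectrum (𝓞 K))) (hS : S.Finite) (e : Fin 4 → K)
    (he : Function.Injective e) :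
    ∃ (L : Type u) (_ : Field L) (_ : NumberField L) (_ : Algebra K L),
      Gap (fun t : K => logHeight₁ (algebraMap K L t))
        {t : K | ∀ j, t ≠ e j ∧ Sel 3 S ((t - e j) / (t - e 0))} := by
  set c : K := (e 0 - e 1) / (e 2 - e 3) with hc
  set b : K := (4 * (e 0 * e 1 + e 2 * e 3) - 2 * (e 0 + e 1) * (e 2 + e 3)) /
      ((e 0 - e 1) * (e 2 - e 3)) with hb
  set P1 : K[X] := X ^ 2 + X + 1 with hP1
  set P2 : K[X] := X ^ 3 - C c with hP2
  set P3 : K[X] := X ^ 6 + C b * X ^ 3 + 1 with hP3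
  have d1 : P1.natDegree = 2 := by rw [hP1]; compute_degree!
  have d2 : P2.natDegree = 3 := by rw [hP2]; compute_degree!
  have d3 : P3.natDegree = 6 := by rw [hP3]; compute_degree!
  have n1 : P1 ≠ 0 := by rintro h; rw [h] at d1; simp at d1
  have n2 : P2 ≠ 0 := by rintro h; rw [h] at d2; simp at d2
  have n3 : P3 ≠ 0 := by rintro h; rw [h] at d3; simp at d3
  obtain ⟨L, i1, i2, i3, hr, hL⟩ := exists_ext K 3 (by norm_num) S hS (P1 * P2 * P3)
    (mul_ne_zero (mul_ne_zero n1 n2) n3)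
  obtain ⟨ω, hω⟩ := hr P1 (Dvd.intro (P2 * P3) (by ring)) (by rw [d1]; norm_num)
  obtain ⟨ρ, hρ⟩ := hr P2 (Dvd.intro (P1 * P3) (by ring)) (by rw [d2]; norm_num)
  obtain ⟨σ, hσ⟩ := hr P3 (Dvd.intro (P1 * P2) (by ring)) (by rw [d3]; norm_num)
  refine ⟨L, i1, i2, i3, ?_⟩
  have hinj : Function.Injective (algebraMap K L) := (algebraMap K L).injective
  have hω' : ω ^ 2 + ω + 1 = 0 := by
    rw [hP1] at hω
    simpa using hω
  have hρ' : ρ ^ 3 = (algebraMap K L (e 0) - algebraMap K L (e 1)) /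
      (algebraMap K L (e 2) - algebraMap K L (e 3)) := by
    rw [hP2] at hρ
    have h1 : ρ ^ 3 = algebraMap K L c := by
      rw [← sub_eq_zero]
      simpa using hρ
    rw [h1, hc, map_div₀, map_sub, map_sub]
  have hσ' : σ ^ 6 + algebraMap K L b * σ ^ 3 + 1 = 0 := by
    rw [hP3] at hσ
    simpa using hσ
  have hb' : algebraMap K L b = (4 * (algebraMap K L (e 0) * algebraMap K L (e 1) +
      algebraMap K L (e 2) * algebraMap K L (e 3)) - 2 * (algebraMap K L (e 0) +
        algebraMap K L (e 1)) * (algebraMap K L (e 2) + algebraMap K L (e 3))) /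
      ((algebraMap K L (e 0) - algebraMap K L (e 1)) *
        (algebraMap K L (e 2) - algebraMap K L (e 3))) := by
    rw [hb]
    simp only [map_div₀, map_sub, map_mul, map_add, map_ofNat]
  refine ExGapCubeAux.gap_comap (gap_cubes (fun j => algebraMap K L (e j)) (hinj.comp he)
    ω ρ σ (algebraMap K L b) hω' hρ' hb' hσ')
    (algebraMap K L) hinj fun t ht j => ⟨fun h => (ht j).1 (hinj h), ?_⟩
  obtain ⟨z, hz⟩ := hL _ (ht j).2
  refine ⟨z, ?_⟩
  rw [hz, map_div₀, map_sub, map_sub]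

end UBC
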