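import Pool.Agent.UBC.SqGap
import Pool.Agent.UBC.SelExt

/-!
# Existence of an extension with the gap property: squares
-/

set_option autoImplicit false

universe u

namespace UBC

open Height NumberField IsDedekindDomain

namespace ExGapSqAux

/-- the gap property is inherited along an injective map which preserves the height -/
theorem gap_comap {ι ι' : Type*} {h : ι' → ℝ} {T : Set ι} {T' : Set ι'} (hT' : Gap h T')
    (φ : ι → ι') (hφ : Function.Injective φ) (hT : ∀ t ∈ T, φ t ∈ T') :
    Gap (fun t => h (φ t)) T := by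
  intro lam
  obtain ⟨N, H0, hN⟩ := hT' lam
  refine ⟨N, H0, fun H hH A hA => ?_⟩
  rw [← Finset.card_map ⟨φ, hφ⟩]
  refine hN H hH _ fun t ht => ?_
  obtain ⟨a, ha, rfl⟩ := Finset.mem_map.mp ht
  exact ⟨hT a (hA a ha).1, (hA a ha).2⟩

end ExGapSqAux

/-- U14a. -/
theorem exists_gap_sq (K : Type u) [Field K] [NumberField K]
    (S : Set (HeightOneSpectrum (𝓞 K))) (hS : S.Finite) (e : Fin 5 → K)
    (he : Function.Injective e) :
    ∃ (L : Type u) (_ : Field L) (_ : NumberField L) (_ : Algebra K L),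
      Gap (fun t : K => logHeight₁ (algebraMap K L t))
        {t : K | ∀ j, t ≠ e j ∧ Sel 2 S ((t - e j) / (t - e 0))} := by
  obtain ⟨L, i1, i2, i3, -, hL⟩ := exists_ext K 2 (by norm_num) S hS 1 one_ne_zero
  refine ⟨L, i1, i2, i3, ?_⟩
  have hinj : Function.Injective (algebraMap K L) := (algebraMap K L).injective
  refine ExGapSqAux.gap_comap (gap_squares (fun j => algebraMap K L (e j)) (hinj.comp he))
    (algebraMap K L) hinj fun t ht j => ⟨fun h => (ht j).1 (hinj h), ?_⟩
  obtain ⟨z, hz⟩ := hL _ (ht j).2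
  refine ⟨z, ?_⟩
  rw [← sq, hz, map_div₀, map_sub, map_sub]

end UBC
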