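import Pool.Agent.UBC.FinalPer
import Pool.Agent.UBC.ExGapCube

/-!
# Extensions with the gap property for all pairs `(d, l)` of higher genus
-/

set_option autoImplicit false

universe u

namespace UBC

open Height NumberField IsDedekindDomain Polynomial

/-- V15.  `l ≥ 5`: `exists_gap_fermat` with three nontrivial roots; `l = 4` (so `d ≥ 5`):
`exists_gap_four`; `l = 3` (`d ≥ 5`): `exists_gap_cube` with four; `l = 2` (`d ≥ 7` odd):
`exists_gap_sq` with five. -/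
theorem exists_gap_T (K : Type u) [Field K] [NumberField K] {d l : ℕ} (hd : 4 ≤ d) (hl : 2 ≤ l)
    (hcop : Nat.Coprime l d) (h43 : ¬ (d = 4 ∧ l = 3)) (h52 : ¬ (d = 5 ∧ l = 2))
    {ζ0 : K} (hζ0 : IsPrimitiveRoot ζ0 d) (S : Set (HeightOneSpectrum (𝓞 K))) (hS : S.Finite) :
    ∃ (L : Type u) (_ : Field L) (_ : NumberField L) (_ : Algebra K L),
      Gap (fun t : K => logHeight₁ (algebraMap K L t))
        {t : K | ∀ ζ ζ' : K, ζ ^ d = 1 → ζ ≠ 1 → ζ' ^ d = 1 → ζ' ≠ 1 →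
          t ≠ ζ ∧ Sel l S ((t - ζ) / (t - ζ'))} := by
  obtain h5 | ⟨h4, hd4⟩ | ⟨h3, hd3⟩ | ⟨h2, hd2⟩ :
      5 ≤ l ∨ (l = 4 ∧ 5 ≤ d) ∨ (l = 3 ∧ 5 ≤ d) ∨ (l = 2 ∧ 6 ≤ d) := by
    rcases Nat.lt_or_ge l 5 with h | h
    · right
      obtain rfl | rfl | rfl : l = 2 ∨ l = 3 ∨ l = 4 := by omega
      · right; right
        refine ⟨rfl, ?_⟩
        by_contra hlt
        obtain rfl | rfl : d = 4 ∨ d = 5 := by omega
        · exact absurd hcop (by decide)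
        · exact h52 ⟨rfl, rfl⟩
      · right; left
        refine ⟨rfl, ?_⟩
        by_contra hlt
        obtain rfl : d = 4 := by omega
        exact h43 ⟨rfl, rfl⟩
      · left
        refine ⟨rfl, ?_⟩
        by_contra hlt
        obtain rfl : d = 4 := by omega
        exact absurd hcop (by decide)
    · exact Or.inl h
  · obtain ⟨L, i1, i2, i3, hL⟩ := exists_gap_fermat K h5 S hS (fun j : Fin 3 => ζ0 ^ ((j : ℕ) + 1))
      (FinalPerAux.roots_inj hζ0 (by omega))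
    refine ⟨L, i1, i2, i3, FinalPerAux.gap_mono ?_ hL⟩
    intro t ht j
    obtain ⟨a1, a2⟩ := FinalPerAux.root_spec hζ0 (by omega) j
    obtain ⟨b1, b2⟩ := FinalPerAux.root_spec hζ0 (by omega) (0 : Fin 3)
    exact ht _ _ a1 a2 b1 b2
  · subst h4
    obtain ⟨L, i1, i2, i3, hL⟩ := exists_gap_four K S hS (fun j : Fin 4 => ζ0 ^ ((j : ℕ) + 1))
      (FinalPerAux.roots_inj hζ0 (by omega))
    refine ⟨L, i1, i2, i3, FinalPerAux.gap_mono ?_ hL⟩
    intro t ht j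
    obtain ⟨a1, a2⟩ := FinalPerAux.root_spec hζ0 (by omega) j
    obtain ⟨b1, b2⟩ := FinalPerAux.root_spec hζ0 (by omega) (0 : Fin 4)
    exact ht _ _ a1 a2 b1 b2
  · subst h3
    obtain ⟨L, i1, i2, i3, hL⟩ := exists_gap_cube K S hS (fun j : Fin 4 => ζ0 ^ ((j : ℕ) + 1))
      (FinalPerAux.roots_inj hζ0 (by omega))
    refine ⟨L, i1, i2, i3, FinalPerAux.gap_mono ?_ hL⟩
    intro t ht j
    obtain ⟨a1, a2⟩ := FinalPerAux.root_spec hζ0 (by omega) j
    obtain ⟨b1, b2⟩ := FinalPerAux.root_spec hζ0 (by omega) (0 : Fin 4)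
    exact ht _ _ a1 a2 b1 b2
  · subst h2
    obtain ⟨L, i1, i2, i3, hL⟩ := exists_gap_sq K S hS (fun j : Fin 5 => ζ0 ^ ((j : ℕ) + 1))
      (FinalPerAux.roots_inj hζ0 (by omega))
    refine ⟨L, i1, i2, i3, FinalPerAux.gap_mono ?_ hL⟩
    intro t ht j
    obtain ⟨a1, a2⟩ := FinalPerAux.root_spec hζ0 (by omega) j
    obtain ⟨b1, b2⟩ := FinalPerAux.root_spec hζ0 (by omega) (0 : Fin 5)
    exact ht _ _ a1 a2 b1 b2

end UBC
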