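import Pool.Agent.UBC.ExGapSq
import Pool.Agent.PowCyc.Local

/-!
# Existence of an extension with the gap property: `n`-th powers, `n ≥ 5`, three linear forms

`x = z ^ n`, `1 - x = w ^ n` give `y = z * w` with `1 - 4 y ^ n = (1 - 2 x) ^ 2`, and the `n ≥ 5`
factors of the left-hand side have even valuations outside `2 n`.
-/

set_option autoImplicit false

universe u

namespace UBC

open Height NumberField IsDedekindDomain Polynomial WithZero

namespace FermatGapAux

/-- one factor of `1 - y ^ n` has even valuation if the product is a square -/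
lemma val_factor {L : Type*} [Field L] (v : Valuation L ℤᵐ⁰) {n : ℕ} (hn : 2 ≤ n)
    (hvn : v (n : L) = 1) {y u : L} (h : 1 - y ^ n = u ^ 2) (hy : v y ≤ 1) :
    ∃ γ : ℤᵐ⁰, v (1 - y) = γ ^ 2 := by
  have h1 : v (1 - y) ≤ 1 := (Valuation.map_sub v _ _).trans (max_le (by simp) hy)
  rcases h1.eq_or_lt with h2 | h2
  · exact ⟨1, by rw [h2, one_pow]⟩
  · have h3 := PowCyc.Loc_close v hn hvn (x := 1) (y := y) (γ := 1) (by simp) one_ne_zero h2
    have h4 := PowCyc.G_mul n (1 : L) y
    rw [one_pow, h] at h4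
    have h5 := congrArg v h4
    rw [map_mul, h3, one_pow, one_mul, map_pow] at h5
    exact ⟨v u, h5⟩

lemma val_eq_of_big {L : Type*} [Field L] (v : Valuation L ℤᵐ⁰) {y : L} (hy : 1 < v y) :
    v (1 - y) = v y := by
  rw [Valuation.map_sub_swap]
  exact Valuation.map_sub_eq_of_lt_left v (by simpa using hy)

end FermatGapAux

open FermatGapAux

/-- Fermat case. -/
theorem exists_gap_fermat (K : Type u) [Field K] [NumberField K] {n : ℕ} (hn : 5 ≤ n)
    (S : Set (HeightOneSpectrum (𝓞 K))) (hS : S.Finite) (e : Fin 3 → K)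
    (he : Function.Injective e) :
    ∃ (L : Type u) (_ : Field L) (_ : NumberField L) (_ : Algebra K L),
      Gap (fun t : K => logHeight₁ (algebraMap K L t))
        {t : K | ∀ j, t ≠ e j ∧ Sel n S ((t - e j) / (t - e 0))} := by
  have h01 : e 0 - e 1 ≠ 0 := sub_ne_zero.mpr fun h => absurd (he h) (by decide)
  have h21 : e 2 - e 1 ≠ 0 := sub_ne_zero.mpr fun h => absurd (he h) (by decide)
  have h20 : e 2 - e 0 ≠ 0 := sub_ne_zero.mpr fun h => absurd (he h) (by decide)
  set k1 : K := (e 2 - e 0) / (e 2 - e 1) with hk1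
  set k2 : K := (e 0 - e 1) / (e 2 - e 1) with hk2
  have hk10 : k1 ≠ 0 := div_ne_zero h20 h21
  have hk20 : k2 ≠ 0 := div_ne_zero h01 h21
  have hn0 : 0 < n := by omega
  have hX : ∀ a : K, (X ^ n - C a : K[X]) ≠ 0 := fun a => X_pow_sub_C_ne_zero hn0 a
  have hXd : ∀ a : K, (X ^ n - C a : K[X]).natDegree ≠ 0 := fun a => by
    rw [natDegree_X_pow_sub_C]; omega
  obtain ⟨L, _, _, _, hL1, hL2⟩ := exists_ext K n hn0 S hS
    ((X ^ n - C k1) * (X ^ n - C k2) * (X ^ n - C 4) * cyclotomic n K)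
    (mul_ne_zero (mul_ne_zero (mul_ne_zero (hX _) (hX _)) (hX _)) (cyclotomic_ne_zero n K))
  obtain ⟨α, hα⟩ := hL1 (X ^ n - C k1)
    (Dvd.dvd.mul_right (Dvd.dvd.mul_right (Dvd.intro _ rfl) _) _) (hXd _)
  obtain ⟨β, hβ⟩ := hL1 (X ^ n - C k2)
    (Dvd.dvd.mul_right (Dvd.dvd.mul_right (Dvd.intro_left _ rfl) _) _) (hXd _)
  obtain ⟨θ, hθ⟩ := hL1 (X ^ n - C 4) (Dvd.dvd.mul_right (Dvd.intro_left _ rfl) _) (hXd _)
  obtain ⟨ζ, hζ⟩ := hL1 (cyclotomic n K) (Dvd.intro_left _ rfl) (by
    rw [natDegree_cyclotomic]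
    exact (Nat.totient_pos.mpr hn0).ne')
  simp only [map_sub, map_pow, aeval_X, aeval_C, sub_eq_zero] at hα hβ hθ
  have hθ4 : θ ^ n = 4 := by rw [hθ]; exact map_ofNat _ 4
  have hζp : IsPrimitiveRoot ζ n := by
    have : NeZero (n : L) := ⟨by exact_mod_cast hn0.ne'⟩
    rw [← isRoot_cyclotomic_iff, IsRoot.def, ← map_cyclotomic n (algebraMap K L)]
    rw [eval_map_algebraMap]
    exact hζ
  have hζn : ζ ^ n = 1 := hζp.pow_eq_one
  have hζ0 : ζ ≠ 0 := hζp.ne_zero hn0.ne'
  have hθ0 : θ ≠ 0 := by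
    rintro rfl
    rw [zero_pow hn0.ne'] at hθ4
    norm_num at hθ4
  -- the exceptional places of `L` and the extension `L'`
  have h2n : ((2 * n : ℕ) : L) ≠ 0 := by
    exact_mod_cast (by omega : 2 * n ≠ 0)
  have hS' := finite_nonunit L ((2 * n : ℕ) : L) h2n
  set S' : Set (HeightOneSpectrum (𝓞 L)) := {v | v.valuation L ((2 * n : ℕ) : L) ≠ 1} with hS'def
  set e' : Fin 5 → L := fun j => (θ * ζ ^ (j : ℕ))⁻¹ with he'def
  have he' : Function.Injective e' := by
    intro i j hij
    simp only [he'def] at hij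
    have h1 := mul_left_cancel₀ hθ0 (inv_injective hij)
    have h2 := hζp.pow_inj (by omega) (by omega) h1
    exact Fin.ext h2
  obtain ⟨L', _, _, _, hgap⟩ := exists_gap_sq L S' hS' e' he'
  let φKL' : K →+* L' := (algebraMap L L').comp (algebraMap K L)
  let _ : Algebra K L' := φKL'.toAlgebra
  have hKL' : ∀ a : K, algebraMap K L' a = algebraMap L L' (algebraMap K L a) := fun a => rfl
  refine ⟨L', inferInstance, inferInstance, inferInstance, ?_⟩
  -- the map `t ↦ y`
  have hchoice : ∀ t : K, ∀ j : Fin 3, ∃ z : L, (t ≠ e j ∧ Sel n S ((t - e j) / (t - e 0))) →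
      z ^ n = algebraMap K L ((t - e j) / (t - e 0)) := by
    intro t j
    by_cases h : t ≠ e j ∧ Sel n S ((t - e j) / (t - e 0))
    · obtain ⟨z, hz⟩ := hL2 _ h.2
      exact ⟨z, fun _ => hz⟩
    · exact ⟨0, fun h' => absurd h' h⟩
  choose z hz using hchoice
  set Y : K → L := fun t => α * β * z t 1 * z t 2 with hY
  set U : K → K := fun t => ((1 - 2 * k1) * t + (2 * k1 * e 1 - e 0)) / (1 * t + -e 0) with hU
  -- `1 - 4 Y ^ n = U ^ 2`
  have hYU : ∀ t : K, (∀ j, t ≠ e j ∧ Sel n S ((t - e j) / (t - e 0))) →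
      1 - 4 * Y t ^ n = (algebraMap K L (U t)) ^ 2 := by
    intro t ht
    have ht0 : t - e 0 ≠ 0 := sub_ne_zero.mpr (ht 0).1
    have h1 := hz t 1 (ht 1)
    have h2 := hz t 2 (ht 2)
    have h3 : Y t ^ n = algebraMap K L (k1 * k2 * ((t - e 1) / (t - e 0)) *
        ((t - e 2) / (t - e 0))) := by
      simp only [hY, mul_pow, h1, h2, hα, hβ, map_mul]
    have h4 : (4 : L) = algebraMap K L 4 := (map_ofNat _ 4).symm
    rw [h3, h4, ← map_mul, ← map_one (algebraMap K L), ← map_sub, ← map_pow]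
    congr 1
    simp only [hU, hk1, hk2]
    have ht0' : 1 * t + -e 0 ≠ 0 := by rw [one_mul, ← sub_eq_add_neg]; exact ht0
    have e0 : 1 * t + -e 0 = t - e 0 := by ring
    rw [e0]
    field_simp
    ring
  -- large heights only
  obtain ⟨C1, hC1⟩ := height_mobius (L := L') (1 - 2 * algebraMap K L' k1)
    (2 * algebraMap K L' k1 * algebraMap K L' (e 1) - algebraMap K L' (e 0)) 1
    (-algebraMap K L' (e 0)) (by
      have h1 : (1 - 2 * algebraMap K L' k1) * -algebraMap K L' (e 0) -
          (2 * algebraMap K L' k1 * algebraMap K L' (e 1) - algebraMap K L' (e 0)) * 1 =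
            algebraMap K L' (2 * k1 * (e 0 - e 1)) := by
        simp only [map_mul, map_sub, map_ofNat]; ring
      rw [h1]
      exact (_root_.map_ne_zero _).mpr (mul_ne_zero (mul_ne_zero two_ne_zero hk10) h01))
  have hmob : ∀ t : K, t ≠ e 0 →
      |logHeight₁ (algebraMap K L' (U t)) - logHeight₁ (algebraMap K L' t)| ≤ C1 := by
    intro t ht
    have h1 := hC1 (algebraMap K L' t) (by
      rw [one_mul, ← sub_eq_add_neg, ← map_sub]
      exact (_root_.map_ne_zero _).mpr (sub_ne_zero.mpr ht))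
    have h2 : algebraMap K L' (U t) = ((1 - 2 * algebraMap K L' k1) * algebraMap K L' t +
        (2 * algebraMap K L' k1 * algebraMap K L' (e 1) - algebraMap K L' (e 0))) /
          (1 * algebraMap K L' t + -algebraMap K L' (e 0)) := by
      simp only [hU, map_div₀, map_add, map_sub, map_mul, map_neg, map_one, map_ofNat]
    rw [h2]
    exact h1
  obtain ⟨C2, hC2⟩ := height_mobius (L := L') (-4) 1 0 1 (by norm_num)
  have hC2' : ∀ a : L', |logHeight₁ (1 - 4 * a) - logHeight₁ a| ≤ C2 := by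
    intro a
    have h1 := hC2 a (by simp)
    have h2 : (-4 * a + 1) / (0 * a + 1) = 1 - 4 * a := by ring
    rwa [h2] at h1
  refine Gap.of_large (C1 + 1) ?_
  have hU0 : ∀ t : K, t ≠ e 0 → C1 + 1 ≤ logHeight₁ (algebraMap K L' t) → U t ≠ 0 := by
    intro t ht hht h0
    have h1 := (abs_le.mp (hmob t ht)).1
    rw [h0, map_zero, logHeight₁_zero] at h1
    linarith
  have hnR : (0 : ℝ) < n := by exact_mod_cast hn0
  -- comparison of heights
  have hcmp : ∀ t : K, (∀ j, t ≠ e j ∧ Sel n S ((t - e j) / (t - e 0))) →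
      |(n : ℝ) * logHeight₁ (algebraMap L L' (Y t)) - 2 * logHeight₁ (algebraMap K L' t)| ≤
        C2 + 2 * C1 := by
    intro t ht
    have h1 := congrArg (algebraMap L L') (hYU t ht)
    rw [map_sub, map_one, map_mul, map_ofNat, map_pow, map_pow, ← hKL'] at h1
    have h2 := hC2' (algebraMap L L' (Y t) ^ n)
    rw [h1, logHeight₁_pow, logHeight₁_pow] at h2
    have h3 := abs_le.mp (hmob t (ht 0).1)
    have h4 := abs_le.mp h2
    push_cast at h4
    rw [abs_le]
    constructor <;> linarith [h3.1, h3.2, h4.1, h4.2]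
  refine Gap.transfer hgap Y 2 (2 / n) (2 / n) ((C2 + 2 * C1) / n) (by positivity) ?_ ?_ ?_ ?_
  · -- `Y t` is in the target set
    rintro t ⟨ht, hht⟩
    have hu := hU0 t (ht 0).1 hht
    have hYU' := hYU t ht
    set y := Y t with hy
    set u := algebraMap K L (U t) with hudef
    have hu0 : u ≠ 0 := (_root_.map_ne_zero _).mpr hu
    have hpow : ∀ i : ℕ, 1 - (θ * ζ ^ i * y) ^ n = u ^ 2 := by
      intro i
      rw [← hYU', mul_pow, mul_pow, hθ4, ← pow_mul, mul_comm i n, pow_mul, hζn, one_pow, mul_one]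
    have hfac : ∀ i : ℕ, 1 - θ * ζ ^ i * y ≠ 0 := by
      intro i h
      have h1 := hpow i
      rw [← sub_eq_zero.mp h, one_pow, sub_self] at h1
      exact hu0 (pow_eq_zero_iff (two_ne_zero) |>.mp h1.symm)
    have hdiff : ∀ i : ℕ, y - (θ * ζ ^ i)⁻¹ = -(θ * ζ ^ i)⁻¹ * (1 - θ * ζ ^ i * y) := by
      intro i
      have : θ * ζ ^ i ≠ 0 := mul_ne_zero hθ0 (pow_ne_zero _ hζ0)
      field_simp
      ring
    have hne : ∀ i : ℕ, y - (θ * ζ ^ i)⁻¹ ≠ 0 := by
      intro i
      rw [hdiff i]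
      exact mul_ne_zero (neg_ne_zero.mpr (inv_ne_zero (mul_ne_zero hθ0 (pow_ne_zero _ hζ0))))
        (hfac i)
    intro j
    refine ⟨fun h => hne j (by rw [h]; simp [he'def]), ?_, fun v hv => ?_⟩
    · exact div_ne_zero (hne j) (hne (0 : Fin 5))
    · have hv1 : v.valuation L ((2 * n : ℕ) : L) = 1 := by
        by_contra h
        exact hv h
      obtain ⟨hv2, hvn⟩ : v.valuation L ((2 : ℕ) : L) = 1 ∧ v.valuation L (n : L) = 1 := by
        have hle : ∀ k : ℕ, v.valuation L (k : L) ≤ 1 := by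
          intro k
          have := v.valuation_le_one (K := L) (k : 𝓞 L)
          simpa using this
        rw [Nat.cast_mul, map_mul] at hv1
        constructor
        · refine le_antisymm (hle 2) ?_
          rw [← hv1]
          exact (mul_le_mul_right (hle n) _).trans (mul_one _).le
        · refine le_antisymm (hle n) ?_
          rw [← hv1]
          exact (mul_le_mul_left (hle 2) _).trans (one_mul _).le
      have hv4 : v.valuation L (4 : L) = 1 := by
        have : (4 : L) = ((2 : ℕ) : L) ^ 2 := by norm_num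
        rw [this, map_pow, hv2, one_pow]
      have hvθ : v.valuation L θ = 1 := by
        have h1 := congrArg (v.valuation L) hθ4
        rw [map_pow, hv4] at h1
        exact (pow_eq_one_iff_of_nonneg zero_le hn0.ne').mp h1
      have hvζ : v.valuation L ζ = 1 := by
        have h1 := congrArg (v.valuation L) hζn
        rw [map_pow, map_one] at h1
        exact (pow_eq_one_iff_of_nonneg zero_le hn0.ne').mp h1
      have hvt : ∀ i : ℕ, v.valuation L (θ * ζ ^ i) = 1 := by
        intro i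
        rw [map_mul, map_pow, hvθ, hvζ, one_pow, one_mul]
      have hvd : ∀ i : ℕ, v.valuation L (y - (θ * ζ ^ i)⁻¹) =
          v.valuation L (1 - θ * ζ ^ i * y) := by
        intro i
        rw [hdiff i, map_mul, Valuation.map_neg, map_inv₀, hvt i, inv_one, one_mul]
      have hratio : v.valuation L ((y - e' j) / (y - e' 0)) =
          v.valuation L (1 - θ * ζ ^ (j : ℕ) * y) /
            v.valuation L (1 - θ * ζ ^ ((0 : Fin 5) : ℕ) * y) := by
        rw [map_div₀]
        simp only [he'def]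
        rw [hvd, hvd]
      rw [hratio]
      rcases le_or_gt (v.valuation L y) 1 with hy1 | hy1
      · have hsq : ∀ i : ℕ, ∃ γ : ℤᵐ⁰, v.valuation L (1 - θ * ζ ^ i * y) = γ ^ 2 := by
          intro i
          exact val_factor (v.valuation L) (by omega) hvn (hpow i)
            (by rw [map_mul, hvt i, one_mul]; exact hy1)
        obtain ⟨γ, hγ⟩ := hsq j
        obtain ⟨γ', hγ'⟩ := hsq ((0 : Fin 5) : ℕ)
        exact ⟨γ / γ', by rw [hγ, hγ', div_pow]⟩
      · have hbig : ∀ i : ℕ, v.valuation L (1 - θ * ζ ^ i * y) = v.valuation L y := by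
          intro i
          rw [val_eq_of_big, map_mul, hvt i, one_mul]
          rw [map_mul, hvt i, one_mul]
          exact hy1
        refine ⟨1, ?_⟩
        rw [hbig, hbig, div_self (zero_lt_one.trans hy1).ne', one_pow]
  · rintro t ⟨ht, _⟩
    have h1 := (abs_le.mp (hcmp t ht)).1
    have h2 : 2 / (n : ℝ) * logHeight₁ (algebraMap K L' t) - (C2 + 2 * C1) / n =
        (2 * logHeight₁ (algebraMap K L' t) - (C2 + 2 * C1)) / n := by ring
    rw [h2, div_le_iff₀ hnR]
    linarith
  · rintro t ⟨ht, _⟩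
    have h1 := (abs_le.mp (hcmp t ht)).2
    have h2 : 2 / (n : ℝ) * logHeight₁ (algebraMap K L' t) + (C2 + 2 * C1) / n =
        (2 * logHeight₁ (algebraMap K L' t) + (C2 + 2 * C1)) / n := by ring
    rw [h2, le_div_iff₀ hnR]
    linarith
  · -- fibres
    intro A w hA
    by_contra hcard
    push Not at hcard
    obtain ⟨a, b, c, ha, hb, hc, hab, hac, hbc⟩ := Finset.two_lt_card_iff.mp hcard
    have hsq : ∀ t ∈ A, (U t) ^ 2 = (U a) ^ 2 := by
      intro t ht
      have h1 := hYU t (hA t ht).1.1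
      have h2 := hYU a (hA a ha).1.1
      rw [(hA t ht).2] at h1
      rw [(hA a ha).2] at h2
      apply (algebraMap K L).injective
      rw [map_pow, map_pow, ← h1, ← h2]
    have hinj : ∀ s ∈ A, ∀ t ∈ A, U s = U t → s = t := by
      intro s hs t ht hst
      have hs0 : s - e 0 ≠ 0 := sub_ne_zero.mpr ((hA s hs).1.1 0).1
      have ht0 : t - e 0 ≠ 0 := sub_ne_zero.mpr ((hA t ht).1.1 0).1
      simp only [hU] at hst
      have e0 : ∀ q : K, 1 * q + -e 0 = q - e 0 := fun q => by ring
      rw [e0, e0, div_eq_div_iff hs0 ht0] at hst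
      have h3 : (2 * k1 * (e 0 - e 1)) * (s - t) = 0 := by linear_combination hst
      have h4 : 2 * k1 * (e 0 - e 1) ≠ 0 := mul_ne_zero (mul_ne_zero two_ne_zero hk10) h01
      exact sub_eq_zero.mp ((mul_eq_zero.mp h3).resolve_left h4)
    have h1 := sq_eq_sq_iff_eq_or_eq_neg.mp (hsq b hb)
    have h2 := sq_eq_sq_iff_eq_or_eq_neg.mp (hsq c hc)
    rcases h1 with h1 | h1
    · exact hab (hinj a ha b hb h1.symm)
    · rcases h2 with h2 | h2
      · exact hac (hinj a ha c hc h2.symm)
      · exact hbc (hinj b hb c hc (h1.trans h2.symm))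

end UBC
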