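import Mathlib

set_option autoImplicit false

/-!
# Evaluating homogeneous polynomials
-/

namespace Pool.Agent.UBC

open MvPolynomial

variable {K : Type*} [Field K] {σ : Type*}

theorem eval_smul_of_homog {g : MvPolynomial σ K} {d : ℕ} (hg : g.IsHomogeneous d) (c : K)
    (v : σ → K) : eval (c • v) g = c ^ d * eval v g := by
  classical
  rw [eval_eq, eval_eq, Finset.mul_sum]
  apply Finset.sum_congr rfl
  intro m hm
  have hdeg : ∑ i ∈ m.support, m i = d := by
    have := hg.degree_eq_sum_deg_support (s := m) hm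
    exact this.symm
  simp only [Pi.smul_apply, smul_eq_mul, mul_pow, Finset.prod_mul_distrib,
    Finset.prod_pow_eq_pow_sum, hdeg]
  ring

theorem eval_congr_of_vars {g : MvPolynomial σ K} {v w : σ → K} (h : ∀ i ∈ g.vars, v i = w i) :
    eval v g = eval w g := by
  unfold eval
  exact eval₂Hom_congr' rfl (fun i hi _ => h i hi) rfl

theorem eval_eq_zero_of_vars {g : MvPolynomial σ K} {d : ℕ} (hg : g.IsHomogeneous d) (hd : d ≠ 0)
    {v : σ → K} (h : ∀ i ∈ g.vars, v i = 0) : eval v g = 0 := by
  have h1 : eval v g = eval ((0 : K) • v) g := eval_congr_of_vars (fun i hi => by simp [h i hi])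
  rw [h1, eval_smul_of_homog hg, zero_pow hd, zero_mul]

end Pool.Agent.UBC
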