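import Mathlib
import Pool.Agent.UBC.Homog

set_option autoImplicit false

/-!
# The fibre polynomials of a homogeneous triangular map
-/

namespace Pool.Agent.UBC

open MvPolynomial

variable {K : Type*} [Field K] {n : ℕ}

/-- The polynomial `f(v₀, …, v_{i-1}, X, v_{i+1}, …)`. -/
noncomputable def fib (f : MvPolynomial (Fin n) K) (i : Fin n) (v : Fin n → K) : Polynomial K :=
  aeval (fun j => if j = i then Polynomial.X else Polynomial.C (v j)) f

theorem fib_eval (f : MvPolynomial (Fin n) K) (i : Fin n) (v : Fin n → K) :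
    (fib f i v).eval (v i) = eval v f := by
  unfold fib
  rw [aeval_def, ← Polynomial.coe_evalRingHom, eval₂_comp_left, eval, coe_eval₂Hom]
  congr 1
  · ext x; simp
  · funext j
    simp only [Function.comp, Polynomial.coe_evalRingHom]
    split_ifs with h
    · rw [Polynomial.eval_X, h]
    · rw [Polynomial.eval_C]

theorem fib_dep {f : MvPolynomial (Fin n) K} {i : Fin n} (hf : ∀ j ∈ f.vars, j ≤ i)
    {v w : Fin n → K} (h : ∀ j < i, v j = w j) : fib f i v = fib f i w := by
  unfold fib
  rw [aeval_def, aeval_def]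
  refine eval₂Hom_congr' rfl ?_ rfl
  intro j hj _
  by_cases hji : j = i
  · simp [hji]
  · rw [if_neg hji, if_neg hji, h j (lt_of_le_of_ne (hf j hj) hji)]

theorem fib_eq_sum (f : MvPolynomial (Fin n) K) (i : Fin n) (v : Fin n → K) :
    fib f i v = ∑ m ∈ f.support,
      Polynomial.C (coeff m f * ∏ j ∈ Finset.univ.erase i, v j ^ m j) * Polynomial.X ^ (m i) := by
  unfold fib
  rw [aeval_def, eval₂_eq']
  apply Finset.sum_congr rfl
  intro m _
  rw [← Finset.mul_prod_erase Finset.univ _ (Finset.mem_univ i), if_pos rfl, map_mul, map_prod]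
  have : ∏ x ∈ Finset.univ.erase i, (if x = i then Polynomial.X else Polynomial.C (v x)) ^ m x =
      ∏ x ∈ Finset.univ.erase i, Polynomial.C (v x ^ m x) := by
    apply Finset.prod_congr rfl
    intro j hj
    rw [if_neg (Finset.ne_of_mem_erase hj), map_pow]
  rw [this, Polynomial.algebraMap_eq]
  ring

theorem deg_eq {d : ℕ} {f : MvPolynomial (Fin n) K} (hf : f.IsHomogeneous d) {m : Fin n →₀ ℕ}
    (hm : m ∈ f.support) : ∑ j, m j = d := by
  have h := hf.degree_eq_sum_deg_support (s := m) hm
  rw [h]
  symm
  apply Finset.sum_subset (Finset.subset_univ _)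
  intro x _ hx
  exact Finsupp.notMem_support_iff.mp hx

theorem fib_natDegree_le {d : ℕ} {f : MvPolynomial (Fin n) K} (hf : f.IsHomogeneous d)
    (i : Fin n) (v : Fin n → K) : (fib f i v).natDegree ≤ d := by
  rw [fib_eq_sum]
  apply Polynomial.natDegree_sum_le_of_forall_le
  intro m hm
  refine (Polynomial.natDegree_C_mul_X_pow_le _ _).trans ?_
  rw [← deg_eq hf hm]
  exact Finset.single_le_sum (f := fun j => m j) (fun _ _ => Nat.zero_le _) (Finset.mem_univ i)

theorem fib_coeff {d : ℕ} {f : MvPolynomial (Fin n) K} (hf : f.IsHomogeneous d)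
    (i : Fin n) (v : Fin n → K) :
    (fib f i v).coeff d = coeff (Finsupp.single i d) f := by
  classical
  have key : ∀ m ∈ f.support, m i = d → m = Finsupp.single i d := by
    intro m hm h
    have hs := deg_eq hf hm
    rw [← Finset.add_sum_erase Finset.univ _ (Finset.mem_univ i), h] at hs
    have h0 : ∑ x ∈ Finset.univ.erase i, m x = 0 := by omega
    rw [Finset.sum_eq_zero_iff] at h0
    ext j
    by_cases hj : j = i
    · rw [hj, h, Finsupp.single_eq_same]
    · rw [h0 j (Finset.mem_erase.mpr ⟨hj, Finset.mem_univ j⟩), Finsupp.single_apply,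
        if_neg (Ne.symm hj)]
  rw [fib_eq_sum, Polynomial.finsetSum_coeff]
  by_cases hmem : Finsupp.single i d ∈ f.support
  · rw [Finset.sum_eq_single_of_mem _ hmem]
    · rw [Polynomial.coeff_C_mul_X_pow, Finsupp.single_eq_same, if_pos rfl]
      have : ∏ j ∈ Finset.univ.erase i, v j ^ (Finsupp.single i d) j = 1 := by
        apply Finset.prod_eq_one
        intro j hj
        rw [Finsupp.single_apply, if_neg (Ne.symm (Finset.ne_of_mem_erase hj)), pow_zero]
      rw [this, mul_one]
    · intro m hm hne
      rw [Polynomial.coeff_C_mul_X_pow, if_neg]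
      intro h
      exact hne (key m hm h.symm)
  · rw [Finset.sum_eq_zero, notMem_support_iff.mp hmem]
    intro m hm
    rw [Polynomial.coeff_C_mul_X_pow, if_neg]
    intro h
    rw [key m hm h.symm] at hm
    exact hmem hm

theorem fib_zero {d : ℕ} {f : MvPolynomial (Fin n) K} (hf : f.IsHomogeneous d)
    (i : Fin n) : fib f i 0 = Polynomial.C (coeff (Finsupp.single i d) f) * Polynomial.X ^ d := by
  classical
  rw [← fib_coeff hf i 0]
  ext k
  rw [Polynomial.coeff_C_mul_X_pow]
  split_ifs with hk
  · rw [hk]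
  · rw [fib_eq_sum, Polynomial.finsetSum_coeff]
    apply Finset.sum_eq_zero
    intro m hm
    rw [Polynomial.coeff_C_mul_X_pow]
    split_ifs with hkm
    · have hs := deg_eq hf hm
      have hne : m i ≠ d := by rw [← hkm]; exact hk
      have : ∃ j ∈ Finset.univ.erase i, m j ≠ 0 := by
        by_contra hcon
        push Not at hcon
        rw [← Finset.add_sum_erase Finset.univ _ (Finset.mem_univ i),
          Finset.sum_eq_zero hcon] at hs
        exact hne (by simpa using hs)
      obtain ⟨j, hj, hmj⟩ := this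
      rw [Finset.prod_eq_zero hj (by simp [hmj]), mul_zero]
    · rfl

end Pool.Agent.UBC
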