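import Pool.Agent.UBC.Defs
import Pool.Agent.PowCyc.Local

/-!
# Local analysis of the linear forms at two periodic points
-/

set_option autoImplicit false

namespace UBC

open WithZero Polynomial

namespace LocPerAux

variable {K : Type*} [Field K]

lemma nat_le_one (v : Valuation K ℤᵐ⁰) (n : ℕ) : v (n : K) ≤ 1 := by
  induction n with
  | zero => simp
  | succ n ih =>
    push_cast
    exact (Valuation.map_add v _ _).trans (max_le ih (by simp))

lemma v_rm (v : Valuation K ℤᵐ⁰) {r m : ℕ} (hv : v ((r * m : ℕ) : K) = 1) :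
    v (r : K) = 1 ∧ v (m : K) = 1 := by
  have h1 := nat_le_one v r
  have h2 := nat_le_one v m
  rw [Nat.cast_mul, map_mul] at hv
  constructor
  · refine le_antisymm h1 ?_
    rw [← hv]
    calc v (r : K) * v (m : K) ≤ v (r : K) * 1 := mul_le_mul_right h2 _
      _ = _ := mul_one _
  · refine le_antisymm h2 ?_
    rw [← hv]
    calc v (r : K) * v (m : K) ≤ 1 * v (m : K) := mul_le_mul_left h1 _
      _ = _ := one_mul _

lemma v_zeta (v : Valuation K ℤᵐ⁰) {r : ℕ} (hr : r ≠ 0) {ζ : K} (h : ζ ^ r = 1) : v ζ = 1 := by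
  have h1 : v ζ ^ r = 1 := by rw [← map_pow, h, map_one]
  exact (pow_eq_one_iff_of_nonneg zero_le hr).mp h1

lemma eval_split {H : K[X]} {m : ℕ} (hH : H.Monic) (hdeg : H.natDegree = m) (w : K) :
    H.eval w = w ^ m + ∑ i ∈ Finset.range m, H.coeff i * w ^ i := by
  rw [eval_eq_sum_range, hdeg, Finset.sum_range_succ, ← hdeg, hH.coeff_natDegree, hdeg]
  ring

lemma eval_big (v : Valuation K ℤᵐ⁰) {H : K[X]} {m : ℕ} (hH : H.Monic)
    (hdeg : H.natDegree = m) (hint : ∀ i, v (H.coeff i) ≤ 1) {w : K} (hw : 1 < v w) :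
    v (H.eval w) = v w ^ m := by
  rw [eval_split hH hdeg, Valuation.map_add_eq_of_lt_left, map_pow]
  rw [map_pow]
  refine Valuation.map_sum_lt v (pow_ne_zero _ (zero_lt_one.trans hw).ne') fun i hi => ?_
  rw [Finset.mem_range] at hi
  rw [map_mul, map_pow]
  calc v (H.coeff i) * v w ^ i ≤ 1 * v w ^ i := mul_le_mul_left (hint i) _
    _ = v w ^ i := one_mul _
    _ < v w ^ m := pow_lt_pow_right₀ hw hi

lemma eval_small (v : Valuation K ℤᵐ⁰) {H : K[X]} (hint : ∀ i, v (H.coeff i) ≤ 1) {w : K}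
    (hw : v w ≤ 1) : v (H.eval w) ≤ 1 := by
  rw [eval_eq_sum_range]
  refine Valuation.map_sum_le v fun i _ => ?_
  rw [map_mul, map_pow]
  exact mul_le_one' (hint i) (pow_le_one₀ zero_le hw)

/-! ### periodic points of a map -/

lemma per_iter {g : K → K} {x : K} (hx : PerPt g x) (i : ℕ) : PerPt g (g^[i] x) := by
  obtain ⟨k, hk, h⟩ := hx
  refine ⟨k, hk, ?_⟩
  rw [← Function.iterate_add_apply, add_comm, Function.iterate_add_apply, h]

lemma escape (v : Valuation K ℤᵐ⁰) {g : K → K} {x : K} (hx : PerPt g x) (P : K → Prop)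
    (h0 : P x) (hP : ∀ z, P z → P (g z) ∧ v z < v (g z)) : False := by
  have h1 : ∀ k : ℕ, P (g^[k] x) := by
    intro k
    induction k with
    | zero => exact h0
    | succ k ih => rw [Function.iterate_succ_apply']; exact (hP _ ih).1
  have h2 : StrictMono fun k : ℕ => v (g^[k] x) := by
    apply strictMono_nat_of_lt_succ
    intro k
    rw [Function.iterate_succ_apply']
    exact (hP _ (h1 k)).2
  obtain ⟨k, hk, h⟩ := hx
  have h3 := h2 hk
  simp only [Function.iterate_zero, id_eq, h] at h3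
  exact lt_irrefl _ h3

lemma common {g : K → K} {x y : K} (hx : PerPt g x) (hy : PerPt g y) :
    ∃ L : ℕ, 0 < L ∧ ∀ i, g^[i + L] x = g^[i] x ∧ g^[i + L] y = g^[i] y := by
  obtain ⟨k, hk, h⟩ := hx
  obtain ⟨l, hl, h'⟩ := hy
  have hx' : Function.IsPeriodicPt g k x := h
  have hy' : Function.IsPeriodicPt g l y := h'
  refine ⟨k * l, Nat.mul_pos hk hl, fun i => ⟨?_, ?_⟩⟩
  · rw [Function.iterate_add_apply]
    congr 1
    exact hx'.mul_const l
  · rw [Function.iterate_add_apply]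
    congr 1
    exact hy'.const_mul k

lemma D_ne {g : K → K} {x y : K} (hx : PerPt g x) (hy : PerPt g y) (hxy : x ≠ y) (i : ℕ) :
    g^[i] x - g^[i] y ≠ 0 := by
  intro h
  obtain ⟨L, hL, hper⟩ := common hx hy
  have h1 : ∀ m, g^[i + m] x = g^[i + m] y := by
    intro m
    rw [add_comm, Function.iterate_add_apply, Function.iterate_add_apply, sub_eq_zero.1 h]
  have h2 : ∀ m, g^[m * L] x = x ∧ g^[m * L] y = y := by
    intro m
    induction m with
    | zero => simp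
    | succ m ih =>
      rw [Nat.succ_mul]
      exact ⟨(hper _).1.trans ih.1, (hper _).2.trans ih.2⟩
  apply hxy
  have h3 := h2 i
  have h4 : i ≤ i * L := Nat.le_mul_of_pos_right i hL
  have h5 := h1 (i * L - i)
  rw [Nat.add_sub_cancel' h4] at h5
  rw [h3.1, h3.2] at h5
  exact h5

/-! ### sizes of periodic points -/

lemma lt_pow {γ : ℤᵐ⁰} (hγ : 1 < γ) {d : ℕ} (hd : 2 ≤ d) : γ < γ ^ d := by
  calc γ = γ ^ 1 := (pow_one γ).symm
    _ < γ ^ d := pow_lt_pow_right₀ hγ (by omega)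

section

variable (v : Valuation K ℤᵐ⁰) {r m : ℕ} (hr : 2 ≤ r) (hm : 1 ≤ m) {H : K[X]} (hH : H.Monic)
  (hdeg : H.natDegree = m) (hint : ∀ i, v (H.coeff i) ≤ 1) {c x y : K}

include hr hm hH hdeg hint

lemma val_H_big {z : K} (hz : 1 < v z) : v (H.eval (z ^ r)) = v z ^ (r * m) := by
  rw [eval_big v hH hdeg hint, map_pow, ← pow_mul]
  rw [map_pow]
  exact one_lt_pow₀ hz (by omega)

lemma per_le_one (hx : PerPt (fam r H c) x) (hc : v c ≤ 1) : v x ≤ 1 := by
  by_contra h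
  push Not at h
  have hrm : 2 ≤ r * m := by nlinarith
  refine escape v hx (fun z => 1 < v z) h ?_
  intro z hz
  have hlt := lt_pow hz hrm
  have h1 : v (fam r H c z) = v z ^ (r * m) := by
    unfold fam
    rw [Valuation.map_add_eq_of_lt_left, val_H_big v hr hm hH hdeg hint hz]
    rw [val_H_big v hr hm hH hdeg hint hz]
    exact (hc.trans_lt hz).trans hlt
  rw [h1]
  exact ⟨hz.trans hlt, hlt⟩

lemma not_big (hx : PerPt (fam r H c) x) (hc : 1 < v c) : ¬ v c < v x ^ (r * m) := by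
  intro h
  have hrm : 2 ≤ r * m := by nlinarith
  refine escape v hx (fun z => v c < v z ^ (r * m)) h ?_
  intro z hz
  have hz1 : 1 < v z := by
    by_contra hh
    push Not at hh
    exact absurd ((hc.trans hz).trans_le (pow_le_one₀ zero_le hh)) (lt_irrefl _)
  have hlt := lt_pow hz1 hrm
  have h1 : v (fam r H c z) = v z ^ (r * m) := by
    unfold fam
    rw [Valuation.map_add_eq_of_lt_left, val_H_big v hr hm hH hdeg hint hz1]
    rw [val_H_big v hr hm hH hdeg hint hz1]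
    exact hz
  rw [h1]
  exact ⟨hz.trans (lt_pow (hc.trans hz) hrm), hlt⟩

lemma per_pow (hx : PerPt (fam r H c) x) (hc : 1 < v c) : v x ^ (r * m) = v c := by
  have hrm : 2 ≤ r * m := by nlinarith
  rcases lt_trichotomy (v x ^ (r * m)) (v c) with h | h | h
  · exfalso
    have h0 : v (H.eval (x ^ r)) < v c := by
      rcases le_or_gt (v x) 1 with h2 | h2
      · refine (eval_small v hint ?_).trans_lt hc
        rw [map_pow]
        exact pow_le_one₀ zero_le h2
      · rw [val_H_big v hr hm hH hdeg hint h2]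
        exact h
    have h1 : v (fam r H c x) = v c := by
      unfold fam
      rw [Valuation.map_add_eq_of_lt_right]
      exact h0
    have h3 := not_big v hr hm hH hdeg hint (per_iter hx 1) hc
    apply h3
    rw [Function.iterate_one, h1]
    exact lt_pow hc hrm
  · exact h
  · exact absurd h (not_big v hr hm hH hdeg hint hx hc)

end

/-! ### the factorisation -/

/-- `(H X - H Y) / (X - Y)` -/
noncomputable def Q (H : K[X]) (m : ℕ) (X Y : K) : K :=
  ∑ i ∈ Finset.range (m + 1), H.coeff i * PowCyc.G i X Y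

lemma Q_mul {H : K[X]} {m : ℕ} (hdeg : H.natDegree = m) (X Y : K) :
    Q H m X Y * (X - Y) = H.eval X - H.eval Y := by
  rw [eval_eq_sum_range, eval_eq_sum_range, hdeg, Q, Finset.sum_mul, ← Finset.sum_sub_distrib]
  refine Finset.sum_congr rfl fun i _ => ?_
  rw [mul_assoc, PowCyc.G_mul]
  ring

lemma G_le (v : Valuation K ℤᵐ⁰) {i : ℕ} {X Y : K} {γ : ℤᵐ⁰} (hX : v X ≤ γ) (hY : v Y ≤ γ) :
    v (PowCyc.G i X Y) ≤ γ ^ (i - 1) := by
  unfold PowCyc.G
  refine Valuation.map_sum_le v fun j hj => ?_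
  rw [Finset.mem_range] at hj
  rw [map_mul, map_pow, map_pow]
  have : γ ^ (i - 1) = γ ^ j * γ ^ (i - 1 - j) := by rw [← pow_add]; congr 1; omega
  rw [this]
  exact mul_le_mul' (pow_le_pow_left' hX _) (pow_le_pow_left' hY _)

lemma Q_le_one (v : Valuation K ℤᵐ⁰) {H : K[X]} {m : ℕ} (hint : ∀ i, v (H.coeff i) ≤ 1) {X Y : K}
    (hX : v X ≤ 1) (hY : v Y ≤ 1) : v (Q H m X Y) ≤ 1 := by
  unfold Q
  refine Valuation.map_sum_le v fun j _ => ?_
  rw [map_mul]
  have := G_le v (i := j) hX hY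
  rw [one_pow] at this
  exact mul_le_one' (hint j) this

/-- the value of `Q` at two close points -/
lemma Q_close (v : Valuation K ℤᵐ⁰) {H : K[X]} {m : ℕ} (hm : 1 ≤ m) (hvm : v (m : K) = 1)
    (hH : H.Monic) (hdeg : H.natDegree = m) (hint : ∀ i, v (H.coeff i) ≤ 1) {X Y : K} {Γ : ℤᵐ⁰}
    (hX : v X = Γ) (hY : v Y = Γ) (hΓ : 1 < Γ) (h : v (X - Y) < Γ) :
    v (Q H m X Y) = Γ ^ (m - 1) := by
  have hΓ0 : Γ ≠ 0 := (zero_lt_one.trans hΓ).ne'
  have h1 : v (PowCyc.G m X Y) = Γ ^ (m - 1) := by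
    obtain rfl | hm2 := Nat.eq_or_lt_of_le hm
    · simp [PowCyc.G]
    · exact PowCyc.Loc_close v hm2 hvm hX hΓ0 h
  have h2 : Q H m X Y = PowCyc.G m X Y + ∑ i ∈ Finset.range m, H.coeff i * PowCyc.G i X Y := by
    unfold Q
    rw [Finset.sum_range_succ, ← hdeg, hH.coeff_natDegree, hdeg]
    ring
  rw [h2, Valuation.map_add_eq_of_lt_left, h1]
  rw [h1]
  refine Valuation.map_sum_lt v (pow_ne_zero _ hΓ0) fun i hi => ?_
  rw [Finset.mem_range] at hi
  rw [map_mul]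
  rcases Nat.eq_zero_or_pos i with rfl | hi0
  · simp only [PowCyc.G, Finset.range_zero, Finset.sum_empty, map_zero, mul_zero]
    exact pow_pos (zero_lt_one.trans hΓ) _
  · calc v (H.coeff i) * v (PowCyc.G i X Y) ≤ 1 * Γ ^ (i - 1) :=
          mul_le_mul' (hint i) (G_le v hX.le hY.le)
      _ = Γ ^ (i - 1) := one_mul _
      _ < Γ ^ (m - 1) := pow_lt_pow_right₀ hΓ (by omega)

lemma fam_sub {H : K[X]} {m : ℕ} (hdeg : H.natDegree = m) (r : ℕ) (c a b : K) :
    fam r H c a - fam r H c b = Q H m (a ^ r) (b ^ r) * (a ^ r - b ^ r) := by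
  rw [Q_mul hdeg]
  unfold fam
  ring

lemma prod_le_one (v : Valuation K ℤᵐ⁰) {r : ℕ} {a b : K} (hr : r ≠ 0) (ha : v a ≤ 1)
    (hb : v b ≤ 1) {ζ : K} (h : ζ ^ r = 1) : v (a - ζ * b) ≤ 1 := by
  refine (Valuation.map_sub v _ _).trans (max_le ha ?_)
  rw [map_mul, v_zeta v hr h, one_mul]
  exact hb

section

variable (v : Valuation K ℤᵐ⁰) {r m : ℕ} (hr : 2 ≤ r) (hm : 1 ≤ m)
  (hv : v ((r * m : ℕ) : K) = 1) {ζ0 : K} (hζ0 : IsPrimitiveRoot ζ0 r) {H : K[X]} (hH : H.Monic)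
  (hdeg : H.natDegree = m) (hint : ∀ i, v (H.coeff i) ≤ 1) {c x y : K}
  (hx : PerPt (fam r H c) x) (hy : PerPt (fam r H c) y) (hxy : x ≠ y)

include hr hm hH hdeg hint hx hy hxy

/-- images of distinct periodic points are distinct -/
lemma pow_ne : x ^ r ≠ y ^ r := by
  intro h
  have h1 := D_ne hx hy hxy 1
  apply h1
  simp only [Function.iterate_one]
  rw [fam_sub hdeg, h, sub_self, mul_zero]

lemma form_ne {ζ : K} (hζ : ζ ^ r = 1) : x - ζ * y ≠ 0 := by
  intro h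
  apply pow_ne hr hm hH hdeg hint hx hy hxy (v := v)
  rw [sub_eq_zero.1 h, mul_pow, hζ, one_mul]

include hζ0 in
/-- good places -/
lemma good (hc : v c ≤ 1) {ζ : K} (hζ : ζ ^ r = 1) (hζ1 : ζ ≠ 1) : v (x - ζ * y) = 1 := by
  classical
  have hr0 : r ≠ 0 := by omega
  -- each step multiplies the difference by something of value at most `v (a - ζ b)`
  have hstep : ∀ a b : K, v a ≤ 1 → v b ≤ 1 →
      v (fam r H c a - fam r H c b) ≤ v (a - ζ * b) * v (a - b) := by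
    intro a b ha hb
    rw [fam_sub hdeg, map_mul, hζ0.pow_sub_pow_eq_prod_sub_mul a b (by omega), map_prod]
    have hm1 : (1 : K) ∈ nthRootsFinset r (1 : K) := by
      rw [mem_nthRootsFinset (by omega)]; exact one_pow r
    have hmζ : ζ ∈ (nthRootsFinset r (1 : K)).erase 1 := by
      rw [Finset.mem_erase, mem_nthRootsFinset (by omega)]; exact ⟨hζ1, hζ⟩
    rw [← Finset.mul_prod_erase _ _ hm1, ← Finset.mul_prod_erase _ _ hmζ, one_mul]
    have h1 : v (Q H m (a ^ r) (b ^ r)) ≤ 1 :=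
      Q_le_one v hint (by rw [map_pow]; exact pow_le_one₀ zero_le ha)
        (by rw [map_pow]; exact pow_le_one₀ zero_le hb)
    have h2 : ∏ z ∈ ((nthRootsFinset r (1 : K)).erase 1).erase ζ, v (a - z * b) ≤ 1 := by
      refine Finset.prod_le_one' fun z hz => ?_
      rw [Finset.mem_erase, Finset.mem_erase, mem_nthRootsFinset (by omega)] at hz
      exact prod_le_one v hr0 ha hb hz.2.2
    calc v (Q H m (a ^ r) (b ^ r)) * (v (a - b) * (v (a - ζ * b) *
          ∏ z ∈ ((nthRootsFinset r (1 : K)).erase 1).erase ζ, v (a - z * b)))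
        ≤ 1 * (v (a - b) * (v (a - ζ * b) * 1)) :=
          mul_le_mul' h1 (mul_le_mul' le_rfl (mul_le_mul' le_rfl h2))
      _ = v (a - ζ * b) * v (a - b) := by rw [one_mul, mul_one, mul_comm]
  have hval : ∀ i, v ((fam r H c)^[i] x) ≤ 1 ∧ v ((fam r H c)^[i] y) ≤ 1 := fun i =>
    ⟨per_le_one v hr hm hH hdeg hint (per_iter hx i) hc,
      per_le_one v hr hm hH hdeg hint (per_iter hy i) hc⟩
  have hform : ∀ i, v ((fam r H c)^[i] x - ζ * (fam r H c)^[i] y) ≤ 1 := fun i =>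
    prod_le_one v hr0 (hval i).1 (hval i).2 hζ
  have hD : ∀ i, v ((fam r H c)^[i + 1] x - (fam r H c)^[i + 1] y) ≤
      v ((fam r H c)^[i] x - ζ * (fam r H c)^[i] y) *
        v ((fam r H c)^[i] x - (fam r H c)^[i] y) := by
    intro i
    rw [Function.iterate_succ_apply', Function.iterate_succ_apply']
    exact hstep _ _ (hval i).1 (hval i).2
  have hanti : Antitone fun i => v ((fam r H c)^[i] x - (fam r H c)^[i] y) := by
    apply antitone_nat_of_succ_le
    intro i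
    refine (hD i).trans ?_
    calc _ ≤ 1 * v ((fam r H c)^[i] x - (fam r H c)^[i] y) := mul_le_mul_left (hform i) _
      _ = _ := one_mul _
  obtain ⟨L, hL, hper⟩ := common hx hy
  have h1 : v ((fam r H c)^[L] x - (fam r H c)^[L] y) = v (x - y) := by
    have := hper 0
    rw [Nat.zero_add] at this
    rw [this.1, this.2]
    rfl
  have h2 : v (x - y) ≤ v ((fam r H c)^[1] x - (fam r H c)^[1] y) := by
    rw [← h1]; exact hanti hL
  have h3 := h2.trans (hD 0)
  simp only [Function.iterate_zero, id_eq] at h3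
  have h4 : v (x - y) ≠ 0 := (Valuation.ne_zero_iff v).2 (sub_ne_zero.2 hxy)
  refine le_antisymm (by simpa using hform 0) ?_
  by_contra hlt
  push Not at hlt
  have h5 : v (x - ζ * y) * v (x - y) < 1 * v (x - y) :=
    mul_lt_mul_of_pos_right hlt (zero_lt_iff.mpr h4)
  rw [one_mul] at h5
  exact absurd h3 (not_le.mpr h5)

include hv in
/-- bad places -/
lemma bad (hc : 1 < v c) : ∃ γ : ℤᵐ⁰, γ ≠ 0 ∧ γ ^ (r * m) = v c ∧ ∀ ζ : K, ζ ^ r = 1 →
    ∃ e : ℕ, (γ ^ (r * m - 1)) ^ e * v (x - ζ * y) = γ := by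
  have hr0 : r ≠ 0 := by omega
  have hrm : 2 ≤ r * m := by nlinarith
  obtain ⟨hvr, hvm⟩ := v_rm v hv
  obtain ⟨γ, hγ⟩ : ∃ γ, v x = γ := ⟨_, rfl⟩
  have hγc : γ ^ (r * m) = v c := by rw [← hγ]; exact per_pow v hr hm hH hdeg hint hx hc
  have hγ1 : 1 < γ := by
    by_contra hh
    push Not at hh
    exact absurd (hc.trans_le (hγc ▸ pow_le_one₀ zero_le hh)) (lt_irrefl _)
  have hγ0 : γ ≠ 0 := (zero_lt_one.trans hγ1).ne'
  have hval : ∀ z, PerPt (fam r H c) z → v z = γ := by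
    intro z hz
    have h1 := per_pow v hr hm hH hdeg hint hz hc
    rw [← hγc] at h1
    exact (pow_left_inj₀ zero_le zero_le (by omega)).1 h1
  have hle : ∀ a b ζ : K, v a = γ → v b = γ → ζ ^ r = 1 → v (a - ζ * b) ≤ γ := by
    intro a b ζ ha hb hζ
    refine (Valuation.map_sub v _ _).trans (max_le ha.le ?_)
    rw [map_mul, v_zeta v hr0 hζ, one_mul]
    exact hb.le
  -- one step
  have hstep : ∀ a b ζ : K, v a = γ → v b = γ → ζ ^ r = 1 → v (a - ζ * b) < γ →
      v (fam r H c a - fam r H c b) = γ ^ (r * m - 1) * v (a - ζ * b) := by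
    intro a b ζ ha hb hζ hlt
    have h1 : v (a ^ r - b ^ r) = γ ^ (r - 1) * v (a - ζ * b) := by
      have h2 := PowCyc.G_mul r a (ζ * b)
      rw [mul_pow, hζ, one_mul] at h2
      rw [← h2, map_mul, PowCyc.Loc_close v hr hvr ha hγ0 hlt]
    have h2 : v (a ^ r - b ^ r) < γ ^ r := by
      rw [h1]
      have : γ ^ r = γ ^ (r - 1) * γ := by rw [← pow_succ]; congr 1; omega
      rw [this]
      exact mul_lt_mul_of_pos_left hlt (pow_pos (zero_lt_one.trans hγ1) _)
    have h3 : v (Q H m (a ^ r) (b ^ r)) = (γ ^ r) ^ (m - 1) :=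
      Q_close v hm hvm hH hdeg hint (by rw [map_pow, ha]) (by rw [map_pow, hb])
        (one_lt_pow₀ hγ1 hr0) h2
    rw [fam_sub hdeg, map_mul, h3, h1, ← mul_assoc, ← pow_mul, ← pow_add]
    congr 2
    obtain ⟨m', rfl⟩ : ∃ m', m = m' + 1 := ⟨m - 1, by omega⟩
    rw [Nat.add_sub_cancel, Nat.mul_succ]
    omega
  set n := r * m - 1 with hn
  have hn1 : 1 < γ ^ n := one_lt_pow₀ hγ1 (by omega)
  have hvx : ∀ i, v ((fam r H c)^[i] x) = γ := fun i => hval _ (per_iter hx i)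
  have hvy : ∀ i, v ((fam r H c)^[i] y) = γ := fun i => hval _ (per_iter hy i)
  have hD : ∀ i, v ((fam r H c)^[i] x - (fam r H c)^[i] y) < γ →
      v ((fam r H c)^[i + 1] x - (fam r H c)^[i + 1] y) =
        γ ^ n * v ((fam r H c)^[i] x - (fam r H c)^[i] y) := by
    intro i hi
    have := hstep _ _ 1 (hvx i) (hvy i) (one_pow r) (by rwa [one_mul])
    rw [one_mul] at this
    rw [Function.iterate_succ_apply', Function.iterate_succ_apply', this]
  have hDle : ∀ i, v ((fam r H c)^[i] x - (fam r H c)^[i] y) ≤ γ := by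
    intro i
    have := hle _ _ 1 (hvx i) (hvy i) (one_pow r)
    rwa [one_mul] at this
  obtain ⟨L, hL, hper⟩ := common hx hy
  have hreach : ∀ i, ∃ a : ℕ, (γ ^ n) ^ a * v ((fam r H c)^[i] x - (fam r H c)^[i] y) = γ := by
    intro i
    have hex : ∃ k, ¬ v ((fam r H c)^[i + k] x - (fam r H c)^[i + k] y) < γ := by
      by_contra hno
      push Not at hno
      have h1 : ∀ k, v ((fam r H c)^[i + k] x - (fam r H c)^[i + k] y) =
          (γ ^ n) ^ k * v ((fam r H c)^[i] x - (fam r H c)^[i] y) := by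
        intro k
        induction k with
        | zero => simp
        | succ k ih =>
          rw [← add_assoc, hD _ (hno k), ih, pow_succ', mul_assoc]
      have h2 := h1 L
      rw [(hper i).1, (hper i).2] at h2
      have h3 : v ((fam r H c)^[i] x - (fam r H c)^[i] y) ≠ 0 :=
        (Valuation.ne_zero_iff v).2 (D_ne hx hy hxy i)
      have h4 : (γ ^ n) ^ L = 1 :=
        mul_right_cancel₀ h3 (by rw [← h2, one_mul])
      exact absurd h4 (one_lt_pow₀ hn1 hL.ne').ne'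
    classical
    refine ⟨Nat.find hex, ?_⟩
    have h1 : ∀ k, k ≤ Nat.find hex → v ((fam r H c)^[i + k] x - (fam r H c)^[i + k] y) =
          (γ ^ n) ^ k * v ((fam r H c)^[i] x - (fam r H c)^[i] y) := by
      intro k
      induction k with
      | zero => intro _; simp
      | succ k ih =>
        intro hk
        have h2 := Nat.find_min hex (m := k) (by omega)
        rw [not_not] at h2
        rw [← add_assoc, hD _ h2, ih (by omega), pow_succ', mul_assoc]
    rw [← h1 _ le_rfl]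
    exact le_antisymm (hDle _) (not_lt.1 (Nat.find_spec hex))
  refine ⟨γ, hγ0, hγc, fun ζ hζ => ?_⟩
  rcases (hle x y ζ hγ (hval y hy) hζ).eq_or_lt with h | h
  · exact ⟨0, by rw [pow_zero, one_mul, h]⟩
  · obtain ⟨a, ha⟩ := hreach 1
    refine ⟨a + 1, ?_⟩
    rw [Function.iterate_one, hstep x y ζ hγ (hval y hy) hζ h] at ha
    rw [pow_succ, mul_assoc]
    exact ha

end

end LocPerAux

open LocPerAux

/-- U15. -/
theorem val_forms_per {K : Type*} [Field K] (v : Valuation K ℤᵐ⁰) {r m : ℕ} (hr : 2 ≤ r)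
    (hm : 1 ≤ m) (hv : v ((r * m : ℕ) : K) = 1) {ζ0 : K} (hζ0 : IsPrimitiveRoot ζ0 r)
    {H : K[X]} (hH : H.Monic) (hdeg : H.natDegree = m) (hint : ∀ i, v (H.coeff i) ≤ 1) {c : K}
    {x y : K} (hx : PerPt (fam r H c) x) (hy : PerPt (fam r H c) y) (hxy : x ≠ y)
    {ζ ζ' : K} (hζ : ζ ^ r = 1) (hζ1 : ζ ≠ 1) (hζ' : ζ' ^ r = 1) (hζ'1 : ζ' ≠ 1) :
    x - ζ * y ≠ 0 ∧ x - ζ' * y ≠ 0 ∧
      ∃ γ : ℤᵐ⁰, v ((x - ζ * y) / (x - ζ' * y)) = γ ^ (r * m - 1) := by
  have h1 := form_ne v hr hm hH hdeg hint hx hy hxy hζ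
  have h2 := form_ne v hr hm hH hdeg hint hx hy hxy hζ'
  refine ⟨h1, h2, ?_⟩
  rcases le_or_gt (v c) 1 with hc | hc
  · refine ⟨1, ?_⟩
    rw [map_div₀, good v hr hm hζ0 hH hdeg hint hx hy hxy hc hζ hζ1,
      good v hr hm hζ0 hH hdeg hint hx hy hxy hc hζ' hζ'1, one_pow, div_one]
  · obtain ⟨γ, hγ0, _, h⟩ := bad v hr hm hv hH hdeg hint hx hy hxy hc
    obtain ⟨e, he⟩ := h ζ hζ
    obtain ⟨e', he'⟩ := h ζ' hζ'
    refine ⟨γ ^ e' / γ ^ e, ?_⟩
    have hv1 : v (x - ζ' * y) ≠ 0 := (Valuation.ne_zero_iff v).2 h2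
    have hA : (γ ^ (r * m - 1)) ^ e ≠ 0 := pow_ne_zero _ (pow_ne_zero _ hγ0)
    rw [map_div₀, div_pow, ← pow_mul, ← pow_mul, mul_comm e', mul_comm e, pow_mul, pow_mul,
      div_eq_div_iff hv1 hA, mul_comm, he, he']

/-- U15 for two pairs of periodic points. -/
theorem val_forms_cross {K : Type*} [Field K] (v : Valuation K ℤᵐ⁰) {r m : ℕ} (hr : 2 ≤ r)
    (hm : 1 ≤ m) (hv : v ((r * m : ℕ) : K) = 1) {ζ0 : K} (hζ0 : IsPrimitiveRoot ζ0 r)
    {H : K[X]} (hH : H.Monic) (hdeg : H.natDegree = m) (hint : ∀ i, v (H.coeff i) ≤ 1) {c : K}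
    {x y x' y' : K} (hx : PerPt (fam r H c) x) (hy : PerPt (fam r H c) y) (hxy : x ≠ y)
    (hx' : PerPt (fam r H c) x') (hy' : PerPt (fam r H c) y') (hxy' : x' ≠ y')
    {ζ ζ' : K} (hζ : ζ ^ r = 1) (hζ1 : ζ ≠ 1) (hζ' : ζ' ^ r = 1) (hζ'1 : ζ' ≠ 1) :
    x - ζ * y ≠ 0 ∧ x' - ζ' * y' ≠ 0 ∧
      ∃ γ : ℤᵐ⁰, v ((x - ζ * y) / (x' - ζ' * y')) = γ ^ (r * m - 1) := by
  have h1 := form_ne v hr hm hH hdeg hint hx hy hxy hζ
  have h2 := form_ne v hr hm hH hdeg hint hx' hy' hxy' hζ'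
  refine ⟨h1, h2, ?_⟩
  rcases le_or_gt (v c) 1 with hc | hc
  · refine ⟨1, ?_⟩
    rw [map_div₀, good v hr hm hζ0 hH hdeg hint hx hy hxy hc hζ hζ1,
      good v hr hm hζ0 hH hdeg hint hx' hy' hxy' hc hζ' hζ'1, one_pow, div_one]
  · obtain ⟨γ, hγ0, hγc, h⟩ := bad v hr hm hv hH hdeg hint hx hy hxy hc
    obtain ⟨γ', hγ'0, hγ'c, h'⟩ := bad v hr hm hv hH hdeg hint hx' hy' hxy' hc
    have hrm : r * m ≠ 0 := by
      have : 2 * 1 ≤ r * m := Nat.mul_le_mul hr hm
      omega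
    have hγγ : γ' = γ := by
      rw [← hγc] at hγ'c
      exact (pow_left_inj₀ zero_le zero_le hrm).1 hγ'c
    subst hγγ
    obtain ⟨e, he⟩ := h ζ hζ
    obtain ⟨e', he'⟩ := h' ζ' hζ'
    refine ⟨γ' ^ e' / γ' ^ e, ?_⟩
    have hv1 : v (x' - ζ' * y') ≠ 0 := (Valuation.ne_zero_iff v).2 h2
    have hA : (γ' ^ (r * m - 1)) ^ e ≠ 0 := pow_ne_zero _ (pow_ne_zero _ hγ0)
    rw [map_div₀, div_pow, ← pow_mul, ← pow_mul, mul_comm e', mul_comm e, pow_mul, pow_mul,
      div_eq_div_iff hv1 hA, mul_comm, he, he']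

end UBC
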