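import Pool.Agent.UBC.Defs2
import Pool.Agent.UBC.LocPer

/-!
# Local analysis of periodic points of `lam z ^ d + 1`
-/

set_option autoImplicit false

namespace UBC

open WithZero Polynomial

namespace LocPerTwAux

open LocPerAux

variable {K : Type*} [Field K]

lemma tw_sub (d : ℕ) (lam a b : K) : tw d lam a - tw d lam b = lam * (a ^ d - b ^ d) := by
  unfold tw
  ring

/-! ### `v lam ≤ 1` -/

section

variable (v : Valuation K ℤᵐ⁰) {d : ℕ} (hd : 2 ≤ d) {lam x y : K}

include hd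

/-- periodic points are not too large -/
lemma small_per (hl : v lam ≤ 1) (hx : PerPt (tw d lam) x) : v lam * v x ^ (d - 1) ≤ 1 := by
  by_contra h
  push Not at h
  refine escape v hx (fun z => 1 < v lam * v z ^ (d - 1)) h ?_
  intro z hz
  have hz1 : 1 < v z := by
    by_contra hh
    push Not at hh
    exact absurd hz (not_lt.mpr (mul_le_one' hl (pow_le_one₀ zero_le hh)))
  have h1 : v (lam * z ^ d) = (v lam * v z ^ (d - 1)) * v z := by
    rw [map_mul, map_pow, mul_assoc, ← pow_succ]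
    congr 2
    omega
  have h2 : v z < v (lam * z ^ d) := by
    rw [h1]
    calc v z = 1 * v z := (one_mul _).symm
      _ < _ := mul_lt_mul_of_pos_right hz (zero_lt_one.trans hz1)
  have h3 : v (tw d lam z) = v (lam * z ^ d) := by
    unfold tw
    rw [Valuation.map_add_eq_of_lt_left]
    rw [map_one]
    exact hz1.trans h2
  rw [h3]
  refine ⟨?_, h2⟩
  refine hz.trans_le ?_
  exact mul_le_mul_right (pow_le_pow_left' h2.le _) _

lemma form_small (hl : v lam ≤ 1) {a b ζ : K} (ha : v lam * v a ^ (d - 1) ≤ 1)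
    (hb : v lam * v b ^ (d - 1) ≤ 1) (hζ : ζ ^ d = 1) :
    v lam * v (a - ζ * b) ^ (d - 1) ≤ 1 := by
  have h1 : v (a - ζ * b) ≤ max (v a) (v b) := by
    refine (Valuation.map_sub v _ _).trans ?_
    rw [map_mul, v_zeta v (by omega) hζ, one_mul]
  rcases le_total (v a) (v b) with h | h
  · rw [max_eq_right h] at h1
    exact (mul_le_mul_right (pow_le_pow_left' h1 _) _).trans hb
  · rw [max_eq_left h] at h1
    exact (mul_le_mul_right (pow_le_pow_left' h1 _) _).trans ha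

/-- images of distinct periodic points are distinct -/
lemma form_ne (hx : PerPt (tw d lam) x) (hy : PerPt (tw d lam) y) (hxy : x ≠ y) {ζ : K}
    (hζ : ζ ^ d = 1) : x - ζ * y ≠ 0 := by
  intro h
  have h1 := D_ne hx hy hxy 1
  apply h1
  rw [Function.iterate_one, tw_sub, sub_eq_zero.1 h, mul_pow, hζ, one_mul, sub_self, mul_zero]

/-- good places -/
lemma good {ζ0 : K} (hζ0 : IsPrimitiveRoot ζ0 d) (hlam : lam ≠ 0) (hl : v lam ≤ 1)
    (hx : PerPt (tw d lam) x) (hy : PerPt (tw d lam) y) (hxy : x ≠ y) {ζ : K} (hζ : ζ ^ d = 1)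
    (hζ1 : ζ ≠ 1) : v lam * v (x - ζ * y) ^ (d - 1) = 1 := by
  classical
  have hd0 : d ≠ 0 := by omega
  set R := (nthRootsFinset d (1 : K)).erase 1 with hR
  have hmem : ∀ z ∈ R, z ^ d = 1 := by
    intro z hz
    rw [hR, Finset.mem_erase, mem_nthRootsFinset (by omega)] at hz
    exact hz.2
  have hcard : R.card = d - 1 := by
    have hm1 : (1 : K) ∈ nthRootsFinset d (1 : K) := by
      rw [mem_nthRootsFinset (by omega)]; exact one_pow d
    rw [hR, Finset.card_erase_of_mem hm1, hζ0.card_nthRootsFinset]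
  -- one step
  have hstep : ∀ a b : K, v (tw d lam a - tw d lam b) =
      (v lam * ∏ z ∈ R, v (a - z * b)) * v (a - b) := by
    intro a b
    have hm1 : (1 : K) ∈ nthRootsFinset d (1 : K) := by
      rw [mem_nthRootsFinset (by omega)]; exact one_pow d
    rw [tw_sub, map_mul, hζ0.pow_sub_pow_eq_prod_sub_mul a b (by omega), map_prod,
      ← Finset.mul_prod_erase _ _ hm1, one_mul, ← hR]
    rw [mul_assoc, mul_comm (∏ z ∈ R, v (a - z * b))]
  -- the product of the forms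
  have hprod : ∀ a b : K, (v lam * ∏ z ∈ R, v (a - z * b)) ^ (d - 1) =
      ∏ z ∈ R, (v lam * v (a - z * b) ^ (d - 1)) := by
    intro a b
    rw [Finset.prod_mul_distrib, Finset.prod_const, hcard, mul_pow, Finset.prod_pow]
  have hle : ∀ a b : K, v lam * v a ^ (d - 1) ≤ 1 → v lam * v b ^ (d - 1) ≤ 1 →
      v lam * ∏ z ∈ R, v (a - z * b) ≤ 1 := by
    intro a b ha hb
    have h1 : (v lam * ∏ z ∈ R, v (a - z * b)) ^ (d - 1) ≤ 1 := by
      rw [hprod]
      exact Finset.prod_le_one' fun z hz => form_small v hd hl ha hb (hmem z hz)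
    exact (pow_le_one_iff_of_nonneg zero_le (by omega)).1 h1
  have hvx : ∀ i, v lam * v ((tw d lam)^[i] x) ^ (d - 1) ≤ 1 := fun i =>
    small_per v hd hl (per_iter hx i)
  have hvy : ∀ i, v lam * v ((tw d lam)^[i] y) ^ (d - 1) ≤ 1 := fun i =>
    small_per v hd hl (per_iter hy i)
  have hanti : Antitone fun i => v ((tw d lam)^[i] x - (tw d lam)^[i] y) := by
    apply antitone_nat_of_succ_le
    intro i
    rw [Function.iterate_succ_apply', Function.iterate_succ_apply', hstep]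
    calc _ ≤ 1 * v ((tw d lam)^[i] x - (tw d lam)^[i] y) :=
          mul_le_mul_left (hle _ _ (hvx i) (hvy i)) _
      _ = _ := one_mul _
  obtain ⟨L, hL, hper⟩ := common hx hy
  have h1 : v ((tw d lam)^[L] x - (tw d lam)^[L] y) = v (x - y) := by
    have := hper 0
    rw [Nat.zero_add] at this
    rw [this.1, this.2]
    rfl
  have h2 : v (x - y) ≤ v ((tw d lam)^[1] x - (tw d lam)^[1] y) := by
    rw [← h1]; exact hanti hL
  rw [Function.iterate_one, hstep] at h2
  have h4 : v (x - y) ≠ 0 := (Valuation.ne_zero_iff v).2 (sub_ne_zero.2 hxy)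
  have h5 : 1 ≤ v lam * ∏ z ∈ R, v (x - z * y) := by
    by_contra hlt
    push Not at hlt
    have h6 := mul_lt_mul_of_pos_right hlt (zero_lt_iff.mpr h4)
    rw [one_mul] at h6
    exact absurd h2 (not_le.mpr h6)
  have h6 : ∏ z ∈ R, (v lam * v (x - z * y) ^ (d - 1)) = 1 := by
    rw [← hprod]
    have h7 : v lam * ∏ z ∈ R, v (x - z * y) = 1 :=
      le_antisymm (hle x y (hvx 0) (hvy 0)) h5
    rw [h7, one_pow]
  have hmζ : ζ ∈ R := by
    rw [hR, Finset.mem_erase, mem_nthRootsFinset (by omega)]; exact ⟨hζ1, hζ⟩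
  rw [← Finset.mul_prod_erase _ _ hmζ] at h6
  have h8 : ∏ z ∈ R.erase ζ, (v lam * v (x - z * y) ^ (d - 1)) ≤ 1 :=
    Finset.prod_le_one' fun z hz =>
      form_small v hd hl (hvx 0) (hvy 0) (hmem z (Finset.mem_of_mem_erase hz))
  refine le_antisymm (form_small v hd hl (hvx 0) (hvy 0) hζ) ?_
  calc (1 : ℤᵐ⁰) = v lam * v (x - ζ * y) ^ (d - 1) *
        ∏ z ∈ R.erase ζ, (v lam * v (x - z * y) ^ (d - 1)) := h6.symm
    _ ≤ v lam * v (x - ζ * y) ^ (d - 1) * 1 := mul_le_mul_right h8 _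
    _ = _ := mul_one _

/-! ### `1 < v lam` -/

lemma big_lt_one (hl : 1 < v lam) (hx : PerPt (tw d lam) x) : v x < 1 := by
  by_contra h
  push Not at h
  refine escape v hx (fun z => 1 ≤ v z) h ?_
  intro z hz
  have h1 : v z < v (lam * z ^ d) := by
    rw [map_mul, map_pow]
    have h2 : v z ≤ v z ^ d := by
      calc v z = v z ^ 1 := (pow_one _).symm
        _ ≤ v z ^ d := pow_le_pow_right₀ hz (by omega)
    calc v z ≤ v z ^ d := h2
      _ = 1 * v z ^ d := (one_mul _).symm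
      _ < v lam * v z ^ d :=
        mul_lt_mul_of_pos_right hl (pow_pos (zero_lt_one.trans_le hz) _)
  have h3 : v (tw d lam z) = v (lam * z ^ d) := by
    unfold tw
    rw [Valuation.map_add_eq_of_lt_left]
    rw [map_one]
    exact hz.trans_lt h1
  rw [h3]
  exact ⟨(hz.trans_lt h1).le, h1⟩

lemma big_pow (hl : 1 < v lam) (hx : PerPt (tw d lam) x) : v lam * v x ^ d = 1 := by
  have h1 := big_lt_one v hd hl (per_iter hx 1)
  rw [Function.iterate_one] at h1
  have h2 : lam * x ^ d = tw d lam x - 1 := by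
    unfold tw
    ring
  rw [← map_pow, ← map_mul, h2, Valuation.map_sub_eq_of_lt_right, map_one]
  rw [map_one]
  exact h1

/-- bad places -/
lemma bad (hvd : v (d : K) = 1) (hl : 1 < v lam) (hx : PerPt (tw d lam) x)
    (hy : PerPt (tw d lam) y) (hxy : x ≠ y) {ζ : K} (hζ : ζ ^ d = 1) :
    ∃ e : ℕ, ((v x)⁻¹) ^ e * v (x - ζ * y) = v x := by
  have hd0 : d ≠ 0 := by omega
  obtain ⟨g, hg⟩ : ∃ g, v x = g := ⟨_, rfl⟩
  rw [hg]
  have hgl : v lam * g ^ d = 1 := by rw [← hg]; exact big_pow v hd hl hx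
  have hg1 : g < 1 := by rw [← hg]; exact big_lt_one v hd hl hx
  have hg0 : g ≠ 0 := by
    intro h
    rw [h, zero_pow hd0, mul_zero] at hgl
    exact zero_ne_one hgl
  have hgpos : 0 < g := zero_lt_iff.2 hg0
  have hl0 : v lam ≠ 0 := (zero_lt_one.trans hl).ne'
  have hval : ∀ z, PerPt (tw d lam) z → v z = g := by
    intro z hz
    have h1 := big_pow v hd hl hz
    rw [← hgl] at h1
    have h2 := mul_left_cancel₀ hl0 h1
    exact (pow_left_inj₀ zero_le zero_le hd0).1 h2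
  have hle : ∀ a b ζ : K, v a = g → v b = g → ζ ^ d = 1 → v (a - ζ * b) ≤ g := by
    intro a b ζ ha hb hζ
    refine (Valuation.map_sub v _ _).trans (max_le ha.le ?_)
    rw [map_mul, v_zeta v hd0 hζ, one_mul]
    exact hb.le
  -- one step
  have hlg : v lam * g ^ (d - 1) = g⁻¹ := by
    apply eq_inv_of_mul_eq_one_left
    rw [mul_assoc, ← pow_succ]
    rw [← hgl]
    congr 2
    omega
  have hstep : ∀ a b ζ : K, v a = g → v b = g → ζ ^ d = 1 → v (a - ζ * b) < g →
      v (tw d lam a - tw d lam b) = g⁻¹ * v (a - ζ * b) := by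
    intro a b ζ ha hb hζ hlt
    have h2 := PowCyc.G_mul d a (ζ * b)
    rw [mul_pow, hζ, one_mul] at h2
    rw [tw_sub, map_mul, ← h2, map_mul, PowCyc.Loc_close v hd hvd ha hg0 hlt, ← mul_assoc, hlg]
  have hn1 : 1 < g⁻¹ := by
    rw [one_lt_inv₀ hgpos]
    exact hg1
  have hvx : ∀ i, v ((tw d lam)^[i] x) = g := fun i => hval _ (per_iter hx i)
  have hvy : ∀ i, v ((tw d lam)^[i] y) = g := fun i => hval _ (per_iter hy i)
  have hD : ∀ i, v ((tw d lam)^[i] x - (tw d lam)^[i] y) < g →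
      v ((tw d lam)^[i + 1] x - (tw d lam)^[i + 1] y) =
        g⁻¹ * v ((tw d lam)^[i] x - (tw d lam)^[i] y) := by
    intro i hi
    have := hstep _ _ 1 (hvx i) (hvy i) (one_pow d) (by rwa [one_mul])
    rw [one_mul] at this
    rw [Function.iterate_succ_apply', Function.iterate_succ_apply', this]
  have hDle : ∀ i, v ((tw d lam)^[i] x - (tw d lam)^[i] y) ≤ g := by
    intro i
    have := hle _ _ 1 (hvx i) (hvy i) (one_pow d)
    rwa [one_mul] at this
  obtain ⟨L, hL, hper⟩ := common hx hy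
  have hreach : ∀ i, ∃ a : ℕ, (g⁻¹) ^ a * v ((tw d lam)^[i] x - (tw d lam)^[i] y) = g := by
    intro i
    have hex : ∃ k, ¬ v ((tw d lam)^[i + k] x - (tw d lam)^[i + k] y) < g := by
      by_contra hno
      push Not at hno
      have h1 : ∀ k, v ((tw d lam)^[i + k] x - (tw d lam)^[i + k] y) =
          (g⁻¹) ^ k * v ((tw d lam)^[i] x - (tw d lam)^[i] y) := by
        intro k
        induction k with
        | zero => simp
        | succ k ih =>
          rw [← add_assoc, hD _ (hno k), ih, pow_succ', mul_assoc]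
      have h2 := h1 L
      rw [(hper i).1, (hper i).2] at h2
      have h3 : v ((tw d lam)^[i] x - (tw d lam)^[i] y) ≠ 0 :=
        (Valuation.ne_zero_iff v).2 (D_ne hx hy hxy i)
      have h4 : (g⁻¹) ^ L = 1 :=
        mul_right_cancel₀ h3 (by rw [← h2, one_mul])
      exact absurd h4 (one_lt_pow₀ hn1 hL.ne').ne'
    classical
    refine ⟨Nat.find hex, ?_⟩
    have h1 : ∀ k, k ≤ Nat.find hex → v ((tw d lam)^[i + k] x - (tw d lam)^[i + k] y) =
          (g⁻¹) ^ k * v ((tw d lam)^[i] x - (tw d lam)^[i] y) := by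
      intro k
      induction k with
      | zero => intro _; simp
      | succ k ih =>
        intro hk
        have h2 := Nat.find_min hex (m := k) (by omega)
        rw [not_not] at h2
        rw [← add_assoc, hD _ h2, ih (by omega), pow_succ', mul_assoc]
    rw [← h1 _ le_rfl]
    exact le_antisymm (hDle _) (not_lt.1 (Nat.find_spec hex))
  rcases (hle x y ζ hg (hval y hy) hζ).eq_or_lt with h | h
  · exact ⟨0, by rw [pow_zero, one_mul, h]⟩
  · obtain ⟨a, ha⟩ := hreach 1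
    refine ⟨a + 1, ?_⟩
    rw [Function.iterate_one, hstep x y ζ hg (hval y hy) hζ h] at ha
    rw [pow_succ, mul_assoc]
    exact ha

end

/-- an element whose `d`-th power is an `l`-th power is an `l`-th power if `gcd(l, d) = 1` -/
lemma pow_root {l d : ℕ} (hcop : Nat.Coprime l d) {g γ : ℤᵐ⁰} (hg : g ≠ 0) (hγ : γ ≠ 0)
    (h : g ^ d = γ ^ l) : ∃ δ : ℤᵐ⁰, δ ≠ 0 ∧ g = δ ^ l := by
  have hb := Nat.gcd_eq_gcd_ab l d
  rw [hcop.gcd_eq_one] at hb
  push_cast at hb
  set a := Nat.gcdA l d with ha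
  set b := Nat.gcdB l d with hb'
  refine ⟨g ^ a * γ ^ b, mul_ne_zero (zpow_ne_zero _ hg) (zpow_ne_zero _ hγ), ?_⟩
  have e1 : (g ^ a * γ ^ b) ^ l = g ^ ((l : ℤ) * a) * γ ^ ((l : ℤ) * b) := by
    rw [mul_pow, ← zpow_natCast, ← zpow_natCast, ← zpow_mul, ← zpow_mul, mul_comm a, mul_comm b]
  have e2 : γ ^ ((l : ℤ) * b) = g ^ ((d : ℤ) * b) := by
    rw [zpow_mul, zpow_natCast, ← h, ← zpow_natCast, ← zpow_mul]
  rw [e1, e2, ← zpow_add₀ hg, ← hb, zpow_one]

end LocPerTwAux

open LocPerAux LocPerTwAux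

/-- V4. -/
theorem val_forms_per_tw {K : Type*} [Field K] (v : Valuation K ℤᵐ⁰) {d l : ℕ} (hd : 2 ≤ d)
    (hcop : Nat.Coprime l d) (hvd : v (d : K) = 1) {ζ0 : K} (hζ0 : IsPrimitiveRoot ζ0 d)
    {lam : K} (hlam : lam ≠ 0) (hvl : ∃ γ : ℤᵐ⁰, v lam = γ ^ l) {x y : K}
    (hx : PerPt (tw d lam) x) (hy : PerPt (tw d lam) y) (hxy : x ≠ y) {ζ ζ' : K}
    (hζ : ζ ^ d = 1) (hζ1 : ζ ≠ 1) (hζ' : ζ' ^ d = 1) (hζ'1 : ζ' ≠ 1) :
    ∃ γ : ℤᵐ⁰, v ((x - ζ * y) / (x - ζ' * y)) = γ ^ l := by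
  have hl0 : v lam ≠ 0 := (Valuation.ne_zero_iff v).2 hlam
  have h1 := LocPerTwAux.form_ne hd hx hy hxy hζ
  have h2 := LocPerTwAux.form_ne hd hx hy hxy hζ'
  have hv1 : v (x - ζ * y) ≠ 0 := (Valuation.ne_zero_iff v).2 h1
  have hv2 : v (x - ζ' * y) ≠ 0 := (Valuation.ne_zero_iff v).2 h2
  rcases le_or_gt (v lam) 1 with hl | hl
  · refine ⟨1, ?_⟩
    have e1 := LocPerTwAux.good v hd hζ0 hlam hl hx hy hxy hζ hζ1
    have e2 := LocPerTwAux.good v hd hζ0 hlam hl hx hy hxy hζ' hζ'1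
    rw [← e2] at e1
    have e3 := (pow_left_inj₀ zero_le zero_le (by omega)).1 (mul_left_cancel₀ hl0 e1)
    rw [map_div₀, e3, div_self hv2, one_pow]
  · obtain ⟨e, he⟩ := LocPerTwAux.bad v hd hvd hl hx hy hxy hζ
    obtain ⟨e', he'⟩ := LocPerTwAux.bad v hd hvd hl hx hy hxy hζ'
    obtain ⟨γ, hγ⟩ := hvl
    have hgl := big_pow v hd hl hx
    have hg0 : v x ≠ 0 := by
      intro h
      rw [h, zero_pow (by omega), mul_zero] at hgl
      exact zero_ne_one hgl
    have hl00 : l ≠ 0 := by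
      rintro rfl
      rw [Nat.coprime_zero_left] at hcop
      omega
    have hγ0 : γ ≠ 0 := by
      rintro rfl
      rw [hγ, zero_pow hl00] at hl0
      exact hl0 rfl
    obtain ⟨δ, hδ0, hδ⟩ := pow_root hcop hg0 (inv_ne_zero hγ0) (by
      rw [inv_pow, ← hγ]
      exact eq_inv_of_mul_eq_one_right hgl)
    have hA : ∀ k : ℕ, ((v x)⁻¹) ^ k ≠ 0 := fun k => pow_ne_zero _ (inv_ne_zero hg0)
    have f1 : v (x - ζ * y) = v x / ((v x)⁻¹) ^ e := by
      rw [eq_div_iff (hA e), mul_comm]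
      exact he
    have f2 : v (x - ζ' * y) = v x / ((v x)⁻¹) ^ e' := by
      rw [eq_div_iff (hA e'), mul_comm]
      exact he'
    refine ⟨(δ⁻¹) ^ e' / (δ⁻¹) ^ e, ?_⟩
    rw [map_div₀, f1, f2, div_div_div_cancel_left' _ _ hg0, hδ, div_pow, ← pow_mul, ← pow_mul,
      mul_comm e', mul_comm e, pow_mul, pow_mul]
    simp only [inv_pow]

end UBC
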