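import Pool.Agent.UBC.Defs2
import Pool.Agent.PowCyc.Local

/-!
# Local analysis of preperiodic points of `lam z ^ d + 1`
-/

set_option autoImplicit false
set_option linter.unusedSectionVars false

namespace UBC

open WithZero Polynomial

namespace LocTailTwAux

variable {K : Type*} [Field K] (v : Valuation K ℤᵐ⁰) {d : ℕ} {lam : K}

/-- a finite orbit has no escaping point -/
lemma escape {g : K → K} {x : K} (hx : PrePt g x) (P : K → Prop)
    (h0 : P x) (hP : ∀ z, P z → P (g z) ∧ v z < v (g z)) : False := by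
  have h1 : ∀ k : ℕ, P (g^[k] x) := by
    intro k
    induction k with
    | zero => exact h0
    | succ k ih => rw [Function.iterate_succ_apply']; exact (hP _ ih).1
  have h2 : StrictMono fun k : ℕ => v (g^[k] x) := by
    apply strictMono_nat_of_lt_succ
    intro k
    rw [Function.iterate_succ_apply']
    exact (hP _ (h1 k)).2
  have h3 : Function.Injective fun k : ℕ => g^[k] x := by
    intro i j hij
    apply h2.injective
    have hij' : g^[i] x = g^[j] x := hij
    change v (g^[i] x) = v (g^[j] x)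
    rw [hij']
  exact Set.infinite_range_of_injective h3 hx

lemma pre_step {g : K → K} {x : K} (hx : PrePt g x) : PrePt g (g x) := by
  refine Set.Finite.subset hx ?_
  rintro _ ⟨k, rfl⟩
  exact ⟨k + 1, by simp [Function.iterate_succ_apply]⟩

lemma pre_iter {g : K → K} {x : K} (hx : PrePt g x) (k : ℕ) : PrePt g (g^[k] x) := by
  induction k with
  | zero => exact hx
  | succ k ih =>
    rw [Function.iterate_succ_apply']
    exact pre_step ih

lemma per_pre {g : K → K} {x : K} (hx : PerPt g x) : PrePt g x := by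
  classical
  obtain ⟨k, hk, hx⟩ := hx
  have : (Set.range fun i : ℕ => g^[i] x) ⊆ (Finset.range k).image (fun i => g^[i] x) := by
    rintro _ ⟨i, rfl⟩
    rw [Finset.coe_image]
    refine ⟨i % k, by simpa using Nat.mod_lt _ hk, ?_⟩
    exact (Function.IsPeriodicPt.iterate_mod_apply (f := g) (x := x) hx i)
  exact (Finset.finite_toSet _).subset this

lemma per_iter {g : K → K} {x : K} (hx : PerPt g x) (i : ℕ) : PerPt g (g^[i] x) := by
  obtain ⟨k, hk, h⟩ := hx
  refine ⟨k, hk, ?_⟩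
  rw [← Function.iterate_add_apply, add_comm, Function.iterate_add_apply, h]

lemma per_preimage {g : K → K} {x : K} (hx : PerPt g x) : ∃ u, PerPt g u ∧ g u = x := by
  obtain ⟨k, hk, h⟩ := hx
  refine ⟨g^[k - 1] x, per_iter ⟨k, hk, h⟩ _, ?_⟩
  rw [← Function.iterate_succ_apply' g (k - 1) x]
  have : (k - 1).succ = k := by omega
  rw [this, h]

lemma pre_exists_per {g : K → K} {x : K} (hx : PrePt g x) : ∃ m : ℕ, PerPt g (g^[m] x) := by
  have h1 : ¬ Function.Injective fun k : ℕ => g^[k] x := fun h =>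
    Set.infinite_range_of_injective h hx
  unfold Function.Injective at h1
  push Not at h1
  obtain ⟨i, j, hij, hne⟩ := h1
  have key : ∀ i j : ℕ, i < j → g^[i] x = g^[j] x → ∃ m : ℕ, PerPt g (g^[m] x) := by
    intro i j hlt he
    refine ⟨i, j - i, by omega, ?_⟩
    rw [← Function.iterate_add_apply]
    have : j - i + i = j := by omega
    rw [this]; exact he.symm
  rcases lt_or_gt_of_ne hne with h | h
  · exact key i j h hij
  · exact key j i h hij.symm

lemma val_root (hd : 2 ≤ d) {ζ : K} (hζ : ζ ^ d = 1) : v ζ = 1 := by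
  have h1 : v ζ ^ d = 1 ^ d := by rw [← map_pow, hζ, map_one, one_pow]
  exact (pow_left_inj₀ zero_le zero_le (by omega)).1 h1

lemma val_root_sub (hd : 2 ≤ d) (hvd : v (d : K) = 1) {ζ ζ' : K} (hζ : ζ ^ d = 1)
    (hζ' : ζ' ^ d = 1) (hne : ζ ≠ ζ') : v (ζ - ζ') = 1 := by
  have h1 : v (ζ - ζ') ≤ 1 :=
    (v.map_sub _ _).trans (max_le (val_root v hd hζ).le (val_root v hd hζ').le)
  rcases h1.lt_or_eq with h | h
  · exfalso
    have h2 := PowCyc.Loc_close v hd hvd (val_root v hd hζ) one_ne_zero h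
    have h3 := PowCyc.G_mul d ζ ζ'
    rw [hζ, hζ', sub_self] at h3
    have h4 := (mul_eq_zero.mp h3).resolve_right (sub_ne_zero.mpr hne)
    rw [h4, map_zero, one_pow] at h2
    exact zero_ne_one h2
  · exact h

lemma tw_sub (hd : 2 ≤ d) {ζ0 : K} (hζ0 : IsPrimitiveRoot ζ0 d) (w x : K) :
    tw d lam w - tw d lam x = lam * ∏ ζ ∈ nthRootsFinset d (1 : K), (w - ζ * x) := by
  have h1 := hζ0.pow_sub_pow_eq_prod_sub_mul w x (by omega)
  rw [← h1]
  unfold tw
  ring

lemma mem_roots (hd : 2 ≤ d) {ζ : K} : ζ ∈ nthRootsFinset d (1 : K) ↔ ζ ^ d = 1 :=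
  mem_nthRootsFinset (by omega) 1

/-! ### the case `v lam ≤ 1` -/

lemma small_le (hd : 2 ≤ d) (hl0 : lam ≠ 0) (hl : v lam ≤ 1) {x : K}
    (hx : PrePt (tw d lam) x) : v lam * v x ^ (d - 1) ≤ 1 := by
  by_contra h
  push Not at h
  have hl0' : 0 < v lam := zero_lt_iff.2 ((Valuation.ne_zero_iff v).2 hl0)
  refine escape v hx (fun z => 1 < v lam * v z ^ (d - 1)) h ?_
  intro z hz
  have hz1 : 1 < v z := by
    by_contra hh
    push Not at hh
    exact absurd (hz.trans_le (mul_le_one' hl (pow_le_one₀ zero_le hh))) (lt_irrefl _)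
  have hz0 : 0 < v z := zero_lt_one.trans hz1
  have e1 : v (lam * z ^ d) = (v lam * v z ^ (d - 1)) * v z := by
    rw [map_mul, map_pow, mul_assoc, ← pow_succ]
    congr 2
    omega
  have h1 : v z < v (lam * z ^ d) := by
    rw [e1]
    calc v z = 1 * v z := (one_mul _).symm
      _ < _ := mul_lt_mul_of_pos_right hz hz0
  have h2 : v (tw d lam z) = v (lam * z ^ d) := by
    unfold tw
    rw [Valuation.map_add_eq_of_lt_left]
    rw [map_one]
    exact hz1.trans h1
  rw [h2]
  refine ⟨?_, h1⟩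
  calc (1 : ℤᵐ⁰) < v lam * v z ^ (d - 1) := hz
    _ ≤ v lam * v (lam * z ^ d) ^ (d - 1) := mul_le_mul_right (pow_le_pow_left₀ zero_le h1.le _) _

/-- the `(d-1)`-st power of a bound for a form -/
lemma form_small_le (hd : 2 ≤ d) {w x : K}
    (hw : v lam * v w ^ (d - 1) ≤ 1) (hx : v lam * v x ^ (d - 1) ≤ 1) {ζ : K} (hζ : ζ ^ d = 1) :
    v lam * v (w - ζ * x) ^ (d - 1) ≤ 1 := by
  have h1 : v (w - ζ * x) ≤ max (v w) (v x) := by
    refine (v.map_sub _ _).trans (max_le_max le_rfl ?_)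
    rw [map_mul, val_root v hd hζ, one_mul]
  rcases le_total (v w) (v x) with h | h
  · rw [max_eq_right h] at h1
    exact (mul_le_mul_right (pow_le_pow_left₀ zero_le h1 _) _).trans hx
  · rw [max_eq_left h] at h1
    exact (mul_le_mul_right (pow_le_pow_left₀ zero_le h1 _) _).trans hw

/-- in a product equal to `1` of factors at most `1` all factors are `1` -/
lemma prod_all {ι : Type*} {s : Finset ι} {F : ι → ℤᵐ⁰} (h1 : ∀ i ∈ s, F i ≤ 1)
    (h : ∏ i ∈ s, F i = 1) {i : ι} (hi : i ∈ s) : F i = 1 := by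
  classical
  refine le_antisymm (h1 i hi) ?_
  rw [← h, ← Finset.mul_prod_erase s F hi]
  calc F i * ∏ x ∈ s.erase i, F x ≤ F i * 1 :=
        mul_le_mul_right (Finset.prod_le_one' fun j hj => h1 j (Finset.mem_of_mem_erase hj)) _
    _ = F i := mul_one _

lemma step_small (hd : 2 ≤ d) {ζ0 : K} (hζ0 : IsPrimitiveRoot ζ0 d) {w x : K}
    (hw : v lam * v w ^ (d - 1) ≤ 1) (hx : v lam * v x ^ (d - 1) ≤ 1)
    (h : v lam * v (tw d lam w - tw d lam x) ^ (d - 1) = 1) {ζ : K} (hζ : ζ ^ d = 1) :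
    v lam * v (w - ζ * x) ^ (d - 1) = 1 := by
  have e1 : v lam * v (tw d lam w - tw d lam x) ^ (d - 1) =
      ∏ η ∈ nthRootsFinset d (1 : K), (v lam * v (w - η * x) ^ (d - 1)) := by
    rw [tw_sub hd hζ0, map_mul, map_prod, mul_pow, ← Finset.prod_pow, Finset.prod_mul_distrib,
      Finset.prod_const, hζ0.card_nthRootsFinset, ← mul_assoc, ← pow_succ']
    congr 2
    omega
  rw [e1] at h
  exact prod_all (fun η hη => form_small_le v hd hw hx ((mem_roots hd).1 hη)) h
    ((mem_roots hd).2 hζ)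

lemma all_small (hd : 2 ≤ d) (hl0 : lam ≠ 0) (hl : v lam ≤ 1) {ζ0 : K}
    (hζ0 : IsPrimitiveRoot ζ0 d) : ∀ (k : ℕ) (w x : K), PrePt (tw d lam) w →
      PrePt (tw d lam) x → v lam * v ((tw d lam)^[k] w - (tw d lam)^[k] x) ^ (d - 1) = 1 →
      v lam * v (w - x) ^ (d - 1) = 1 := by
  intro k
  induction k with
  | zero => intro w x _ _ h; exact h
  | succ k ih =>
    intro w x hw hx h
    rw [Function.iterate_succ_apply, Function.iterate_succ_apply] at h
    have h1 := ih _ _ (pre_step hw) (pre_step hx) h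
    have h2 := step_small v hd hζ0 (small_le v hd hl0 hl hw) (small_le v hd hl0 hl hx) h1
      (one_pow d)
    rwa [one_mul] at h2

lemma forms_small (hd : 2 ≤ d) (hl0 : lam ≠ 0) (hl : v lam ≤ 1) {ζ0 : K}
    (hζ0 : IsPrimitiveRoot ζ0 d) {w x : K} (hw : PrePt (tw d lam) w)
    (hx : PrePt (tw d lam) x) {k : ℕ} (hk : 1 ≤ k)
    (h : v lam * v ((tw d lam)^[k] w - (tw d lam)^[k] x) ^ (d - 1) = 1) {ζ : K}
    (hζ : ζ ^ d = 1) : v lam * v (w - ζ * x) ^ (d - 1) = 1 := by
  obtain ⟨k, rfl⟩ : ∃ m, k = m + 1 := ⟨k - 1, by omega⟩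
  rw [Function.iterate_succ_apply, Function.iterate_succ_apply] at h
  exact step_small v hd hζ0 (small_le v hd hl0 hl hw) (small_le v hd hl0 hl hx)
    (all_small v hd hl0 hl hζ0 k _ _ (pre_step hw) (pre_step hx) h) hζ

lemma common {g : K → K} {x y : K} (hx : PerPt g x) (hy : PerPt g y) :
    ∃ L : ℕ, 0 < L ∧ g^[L] x = x ∧ g^[L] y = y := by
  obtain ⟨k, hk, h⟩ := hx
  obtain ⟨l, hl, h'⟩ := hy
  have hx' : Function.IsPeriodicPt g k x := h
  have hy' : Function.IsPeriodicPt g l y := h'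
  exact ⟨k * l, Nat.mul_pos hk hl, hx'.mul_const l, hy'.const_mul k⟩

/-- V4 for `v lam ≤ 1` -/
lemma per_small (hd : 2 ≤ d) (hl0 : lam ≠ 0) (hl : v lam ≤ 1) {ζ0 : K}
    (hζ0 : IsPrimitiveRoot ζ0 d) {x y : K} (hx : PerPt (tw d lam) x) (hy : PerPt (tw d lam) y)
    (hxy : x ≠ y) {ζ : K} (hζ : ζ ^ d = 1) (hζ1 : ζ ≠ 1) :
    v lam * v (x - ζ * y) ^ (d - 1) = 1 := by
  classical
  -- the factor
  obtain ⟨A, hA⟩ : ∃ A : K → K → K, A = fun a b =>
    lam * ∏ η ∈ (nthRootsFinset d (1 : K)).erase 1, (a - η * b) := ⟨_, rfl⟩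
  have h1mem : (1 : K) ∈ nthRootsFinset d (1 : K) := (mem_roots hd).2 (one_pow d)
  have hfac : ∀ a b, tw d lam a - tw d lam b = A a b * (a - b) := by
    intro a b
    rw [tw_sub hd hζ0, ← Finset.mul_prod_erase _ _ h1mem, hA, one_mul]
    ring
  have hpowA : ∀ a b, v (A a b) ^ (d - 1) =
      ∏ η ∈ (nthRootsFinset d (1 : K)).erase 1, (v lam * v (a - η * b) ^ (d - 1)) := by
    intro a b
    rw [hA]
    simp only
    rw [map_mul, map_prod, mul_pow, ← Finset.prod_pow, Finset.prod_mul_distrib,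
      Finset.prod_const, Finset.card_erase_of_mem h1mem, hζ0.card_nthRootsFinset]
  have hform : ∀ a b, PrePt (tw d lam) a → PrePt (tw d lam) b →
      ∀ η ∈ (nthRootsFinset d (1 : K)).erase 1, v lam * v (a - η * b) ^ (d - 1) ≤ 1 := by
    intro a b ha hb η hη
    exact form_small_le v hd (small_le v hd hl0 hl ha) (small_le v hd hl0 hl hb)
      ((mem_roots hd).1 (Finset.mem_of_mem_erase hη))
  have hA1 : ∀ a b, PrePt (tw d lam) a → PrePt (tw d lam) b → v (A a b) ≤ 1 := by
    intro a b ha hb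
    have h1 : v (A a b) ^ (d - 1) ≤ 1 := by
      rw [hpowA]
      exact Finset.prod_le_one' (hform a b ha hb)
    by_contra hh
    push Not at hh
    exact absurd (one_lt_pow₀ hh (by omega : d - 1 ≠ 0)) (not_lt.2 h1)
  have hanti : Antitone fun i => v ((tw d lam)^[i] x - (tw d lam)^[i] y) := by
    apply antitone_nat_of_succ_le
    intro i
    rw [Function.iterate_succ_apply', Function.iterate_succ_apply', hfac, map_mul]
    calc _ ≤ 1 * v ((tw d lam)^[i] x - (tw d lam)^[i] y) :=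
          mul_le_mul_left (hA1 _ _ (pre_iter (per_pre hx) i) (pre_iter (per_pre hy) i)) _
      _ = _ := one_mul _
  obtain ⟨L, hL, hLx, hLy⟩ := common hx hy
  have h1 : v ((tw d lam)^[L] x - (tw d lam)^[L] y) = v (x - y) := by rw [hLx, hLy]
  have h2 : v ((tw d lam)^[1] x - (tw d lam)^[1] y) = v (x - y) := by
    apply le_antisymm
    · exact hanti (Nat.zero_le 1)
    · rw [← h1]; exact hanti hL
  rw [Function.iterate_one, hfac, map_mul] at h2
  have h4 : v (x - y) ≠ 0 := (Valuation.ne_zero_iff v).2 (sub_ne_zero.2 hxy)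
  have h5 : v (A x y) = 1 := mul_right_cancel₀ h4 (by rw [h2, one_mul])
  have h6 := hpowA x y
  rw [h5, one_pow] at h6
  exact prod_all (hform x y (per_pre hx) (per_pre hy)) h6.symm
    (Finset.mem_erase.2 ⟨hζ1, (mem_roots hd).2 hζ⟩)

lemma ratio_small (hl0 : lam ≠ 0) (hd : 2 ≤ d) {a b : K} (l : ℕ)
    (ha : v lam * v a ^ (d - 1) = 1) (hb : v lam * v b ^ (d - 1) = 1) :
    ∃ γ : ℤᵐ⁰, v (a / b) = γ ^ l := by
  have h0 : v lam ≠ 0 := (Valuation.ne_zero_iff v).2 hl0
  have h1 : v a ^ (d - 1) = v b ^ (d - 1) := mul_left_cancel₀ h0 (ha.trans hb.symm)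
  have h2 : v a = v b := (pow_left_inj₀ zero_le zero_le (by omega)).1 h1
  have h3 : v b ≠ 0 := by
    intro h
    rw [h, zero_pow (by omega), mul_zero] at hb
    exact zero_ne_one hb
  exact ⟨1, by rw [map_div₀, h2, div_self h3, one_pow]⟩

/-! ### the case `1 < v lam` -/

lemma big_eq (hd : 2 ≤ d) (hl : 1 < v lam) {x : K} (hx : PrePt (tw d lam) x) :
    v lam * v x ^ d = 1 := by
  have hnot : ∀ z, PrePt (tw d lam) z → ¬ 1 < v lam * v z ^ d := by
    intro z hz h
    refine escape v hz (fun z => 1 < v lam * v z ^ d) h ?_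
    intro z hz
    have h1 : v (lam * z ^ d) = v lam * v z ^ d := by rw [map_mul, map_pow]
    have h2 : v (tw d lam z) = v lam * v z ^ d := by
      unfold tw
      rw [Valuation.map_add_eq_of_lt_left, h1]
      rw [h1, map_one]
      exact hz
    rw [h2]
    refine ⟨?_, ?_⟩
    · calc (1 : ℤᵐ⁰) < v lam := hl
        _ = v lam * 1 := (mul_one _).symm
        _ ≤ v lam * (v lam * v z ^ d) ^ d := mul_le_mul_right (one_le_pow₀ hz.le) _
    · rcases le_or_gt 1 (v z) with h3 | h3
      · have hz0 : 0 < v z := zero_lt_one.trans_le h3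
        calc v z = 1 * v z := (one_mul _).symm
          _ < v lam * v z := mul_lt_mul_of_pos_right hl hz0
          _ = v lam * v z ^ 1 := by rw [pow_one]
          _ ≤ v lam * v z ^ d := mul_le_mul_right (pow_le_pow_right₀ h3 (by omega)) _
      · exact h3.trans hz
  rcases lt_trichotomy (v lam * v x ^ d) 1 with h | h | h
  · exfalso
    have h1 : v (tw d lam x) = 1 := by
      unfold tw
      rw [Valuation.map_add_eq_of_lt_right, map_one]
      rw [map_mul, map_pow, map_one]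
      exact h
    refine hnot _ (pre_step hx) ?_
    rw [h1, one_pow, mul_one]
    exact hl
  · exact h
  · exact absurd h (hnot _ hx)

lemma big_same (hd : 2 ≤ d) (hl : 1 < v lam) {x y : K} (hx : PrePt (tw d lam) x)
    (hy : PrePt (tw d lam) y) : v x = v y := by
  have h1 := big_eq v hd hl hx
  have h2 := big_eq v hd hl hy
  have h3 : v x ^ d = v y ^ d := mul_left_cancel₀ (zero_lt_one.trans hl).ne' (h1.trans h2.symm)
  exact (pow_left_inj₀ zero_le zero_le (by omega)).1 h3

lemma big_lt (hd : 2 ≤ d) (hl : 1 < v lam) {x : K} (hx : PrePt (tw d lam) x) :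
    v x < 1 ∧ v x ≠ 0 := by
  have h1 := big_eq v hd hl hx
  constructor
  · by_contra h
    push Not at h
    have h2 : 1 < v lam * v x ^ d :=
      calc (1 : ℤᵐ⁰) < v lam := hl
        _ = v lam * 1 := (mul_one _).symm
        _ ≤ v lam * v x ^ d := mul_le_mul_right (one_le_pow₀ h) _
    exact absurd h1 h2.ne'
  · intro h
    rw [h, zero_pow (by omega), mul_zero] at h1
    exact zero_ne_one h1

lemma form_big_le (hd : 2 ≤ d) (hl : 1 < v lam) {w x : K} (hw : PrePt (tw d lam) w)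
    (hx : PrePt (tw d lam) x) {ζ : K} (hζ : ζ ^ d = 1) : v (w - ζ * x) ≤ v x := by
  refine (v.map_sub _ _).trans (max_le (big_same v hd hl hw hx).le ?_)
  rw [map_mul, val_root v hd hζ, one_mul]

lemma step_big (hd : 2 ≤ d) (hvd : v (d : K) = 1) {ζ0 : K} (hζ0 : IsPrimitiveRoot ζ0 d)
    (hl : 1 < v lam) {w x : K} (hw : PrePt (tw d lam) w) (hx : PrePt (tw d lam) x) {ζ : K}
    (hζ : ζ ^ d = 1) : v (w - ζ * x) = v x ∨
      v (w - ζ * x) = v x * v (tw d lam w - tw d lam x) := by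
  classical
  rcases (form_big_le v hd hl hw hx hζ).lt_or_eq with h | h
  · right
    have hoth : ∀ η ∈ (nthRootsFinset d (1 : K)).erase ζ, v (w - η * x) = v x := by
      intro η hη
      have hη1 := (mem_roots hd).1 (Finset.mem_of_mem_erase hη)
      have hne : ζ ≠ η := fun he => Finset.ne_of_mem_erase hη he.symm
      have e1 : w - η * x = (w - ζ * x) + (ζ - η) * x := by ring
      have e2 : v ((ζ - η) * x) = v x := by
        rw [map_mul, val_root_sub v hd hvd hζ hη1 hne, one_mul]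
      rw [e1, Valuation.map_add_eq_of_lt_right, e2]
      rw [e2]
      exact h
    have h1 : v (tw d lam w - tw d lam x) = v lam * (v (w - ζ * x) * v x ^ (d - 1)) := by
      rw [tw_sub hd hζ0, ← Finset.mul_prod_erase _ _ ((mem_roots hd).2 hζ), map_mul, map_mul,
        map_prod, Finset.prod_congr rfl hoth, Finset.prod_const,
        Finset.card_erase_of_mem ((mem_roots hd).2 hζ), hζ0.card_nthRootsFinset]
    have h2 := big_eq v hd hl hx
    have h3 : v x ^ d = v x * v x ^ (d - 1) := by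
      rw [← pow_succ']
      congr 1
      omega
    rw [h3] at h2
    rw [h1]
    calc v (w - ζ * x) = v (w - ζ * x) * (v lam * (v x * v x ^ (d - 1))) := by rw [h2, mul_one]
      _ = _ := by
        simp only [mul_comm, mul_left_comm]
  · exact Or.inl h

lemma all_big (hd : 2 ≤ d) (hvd : v (d : K) = 1) {ζ0 : K} (hζ0 : IsPrimitiveRoot ζ0 d)
    (hl : 1 < v lam) : ∀ (k : ℕ) (w x : K), PrePt (tw d lam) w → PrePt (tw d lam) x →
      (∃ a : ℕ, v ((tw d lam)^[k] w - (tw d lam)^[k] x) = v x ^ a) →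
      ∃ a : ℕ, v (w - x) = v x ^ a := by
  intro k
  induction k with
  | zero => intro w x _ _ h; exact h
  | succ k ih =>
    intro w x hw hx h
    rw [Function.iterate_succ_apply, Function.iterate_succ_apply] at h
    have hs : v x = v (tw d lam x) := big_same v hd hl hx (pre_step hx)
    rw [hs] at h
    obtain ⟨a, ha⟩ := ih _ _ (pre_step hw) (pre_step hx) h
    rw [← hs] at ha
    have h2 := step_big v hd hvd hζ0 hl hw hx (one_pow d)
    rw [one_mul] at h2
    rcases h2 with h2 | h2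
    · exact ⟨1, by rw [h2, pow_one]⟩
    · exact ⟨a + 1, by rw [h2, ha, ← pow_succ']⟩

lemma forms_big (hd : 2 ≤ d) (hvd : v (d : K) = 1) {ζ0 : K} (hζ0 : IsPrimitiveRoot ζ0 d)
    (hl : 1 < v lam) {w x : K} (hw : PrePt (tw d lam) w) (hx : PrePt (tw d lam) x) {k : ℕ}
    (hk : 1 ≤ k) (h : v ((tw d lam)^[k] w - (tw d lam)^[k] x) = v x) {ζ : K}
    (hζ : ζ ^ d = 1) : ∃ a : ℕ, v (w - ζ * x) = v x ^ a := by
  obtain ⟨k, rfl⟩ : ∃ m, k = m + 1 := ⟨k - 1, by omega⟩
  rw [Function.iterate_succ_apply, Function.iterate_succ_apply] at h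
  have hs : v x = v (tw d lam x) := big_same v hd hl hx (pre_step hx)
  obtain ⟨a, ha⟩ := all_big v hd hvd hζ0 hl k _ _ (pre_step hw) (pre_step hx)
    ⟨1, by rw [h, ← hs, pow_one]⟩
  rw [← hs] at ha
  rcases step_big v hd hvd hζ0 hl hw hx hζ with h2 | h2
  · exact ⟨1, by rw [h2, pow_one]⟩
  · exact ⟨a + 1, by rw [h2, ha, ← pow_succ']⟩

/-- never meeting points have maximal distance at some time -/
lemma exists_far (hd : 2 ≤ d) (hvd : v (d : K) = 1) {ζ0 : K} (hζ0 : IsPrimitiveRoot ζ0 d)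
    (hl : 1 < v lam) {w x : K} (hw : PrePt (tw d lam) w) (hx : PrePt (tw d lam) x)
    (hne : ∀ k : ℕ, (tw d lam)^[k] w ≠ (tw d lam)^[k] x) :
    ∃ j : ℕ, 1 ≤ j ∧ v ((tw d lam)^[j] w - (tw d lam)^[j] x) = v x := by
  by_contra hcon
  push Not at hcon
  have hmono : StrictMono fun j : ℕ => v ((tw d lam)^[j + 1] w - (tw d lam)^[j + 1] x) := by
    apply strictMono_nat_of_lt_succ
    intro j
    have hxj : PrePt (tw d lam) ((tw d lam)^[j + 1] x) := pre_iter hx (j + 1)
    have hwj : PrePt (tw d lam) ((tw d lam)^[j + 1] w) := pre_iter hw (j + 1)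
    have hs : v ((tw d lam)^[j + 1] x) = v x := big_same v hd hl hxj hx
    have h1 := step_big v hd hvd hζ0 hl hwj hxj (one_pow d)
    rw [one_mul, hs, ← Function.iterate_succ_apply' (tw d lam) (j + 1) w,
      ← Function.iterate_succ_apply' (tw d lam) (j + 1) x] at h1
    have h2 := h1.resolve_left (hcon (j + 1) (by omega))
    have h3 : 0 < v ((tw d lam)^[(j + 1).succ] w - (tw d lam)^[(j + 1).succ] x) :=
      zero_lt_iff.2 ((Valuation.ne_zero_iff v).2 (sub_ne_zero.2 (hne _)))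
    rw [h2]
    calc v x * v ((tw d lam)^[(j + 1).succ] w - (tw d lam)^[(j + 1).succ] x)
        < 1 * v ((tw d lam)^[(j + 1).succ] w - (tw d lam)^[(j + 1).succ] x) :=
          mul_lt_mul_of_pos_right (big_lt v hd hl hx).1 h3
      _ = _ := one_mul _
  have hinj : Function.Injective fun j : ℕ =>
      (tw d lam)^[j + 1] w - (tw d lam)^[j + 1] x := by
    intro i j hij
    apply hmono.injective
    have hij' : (tw d lam)^[i + 1] w - (tw d lam)^[i + 1] x =
        (tw d lam)^[j + 1] w - (tw d lam)^[j + 1] x := hij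
    change v ((tw d lam)^[i + 1] w - (tw d lam)^[i + 1] x) =
      v ((tw d lam)^[j + 1] w - (tw d lam)^[j + 1] x)
    rw [hij']
  refine Set.infinite_range_of_injective hinj ?_
  refine (Set.Finite.image2 (fun a b : K => a - b) hw hx).subset ?_
  rintro _ ⟨j, rfl⟩
  exact ⟨_, ⟨j + 1, rfl⟩, _, ⟨j + 1, rfl⟩, rfl⟩

/-- the common value is an `l`-th power -/
lemma exists_root (hd : 2 ≤ d) {l : ℕ} (hcop : Nat.Coprime l d) (hl : 1 < v lam)
    (hvl : ∃ γ : ℤᵐ⁰, v lam = γ ^ l) {x : K} (hx : PrePt (tw d lam) x) :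
    ∃ δ : ℤᵐ⁰, v x = δ ^ l := by
  obtain ⟨γ, hγ⟩ := hvl
  have h1 := big_eq v hd hl hx
  have hx0 := (big_lt v hd hl hx).2
  have hl0 : l ≠ 0 := by
    rintro rfl
    rw [Nat.coprime_zero_left] at hcop
    omega
  have hγ0 : γ ≠ 0 := by
    intro h
    rw [h, zero_pow hl0] at hγ
    exact (zero_lt_one.trans hl).ne' hγ
  obtain ⟨a, b, hab⟩ := Nat.isCoprime_iff_coprime.2 hcop
  have h2 : v x ^ d = (γ ^ l)⁻¹ := by
    rw [← hγ]
    exact eq_inv_of_mul_eq_one_right h1
  refine ⟨v x ^ a * (γ⁻¹) ^ b, ?_⟩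
  have e1 : v x = v x ^ (a * (l : ℤ) + b * (d : ℤ)) := by rw [hab, zpow_one]
  have e2 : (v x ^ a) ^ l = v x ^ (a * (l : ℤ)) := by rw [← zpow_natCast, ← zpow_mul]
  have e3 : ((γ⁻¹) ^ b) ^ l = v x ^ (b * (d : ℤ)) := by
    rw [mul_comm b (d : ℤ), zpow_mul, zpow_natCast, h2, ← zpow_natCast, ← zpow_mul, ← inv_pow,
      ← zpow_natCast, ← zpow_mul, mul_comm]
  rw [mul_pow, e2, e3, ← zpow_add₀ hx0]
  exact e1

lemma ratio_big {g δ : ℤᵐ⁰} {l : ℕ} (hg : g = δ ^ l) {a b : K} (ha : ∃ n : ℕ, v a = g ^ n)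
    (hb : ∃ n : ℕ, v b = g ^ n) : ∃ γ : ℤᵐ⁰, v (a / b) = γ ^ l := by
  obtain ⟨n, hn⟩ := ha
  obtain ⟨m, hm⟩ := hb
  refine ⟨δ ^ n / δ ^ m, ?_⟩
  rw [map_div₀, hn, hm, hg, div_pow, ← pow_mul, ← pow_mul, ← pow_mul, ← pow_mul, mul_comm l,
    mul_comm l]

end LocTailTwAux

open LocTailTwAux

/-- V5a. -/
theorem val_forms_tail_tw {K : Type*} [Field K] (v : Valuation K ℤᵐ⁰) {d l : ℕ} (hd : 2 ≤ d)
    (hcop : Nat.Coprime l d) (hvd : v (d : K) = 1) {ζ0 : K} (hζ0 : IsPrimitiveRoot ζ0 d)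
    {lam : K} (hlam : lam ≠ 0) (hvl : ∃ γ : ℤᵐ⁰, v lam = γ ^ l) {w x : K}
    (hw : PrePt (tw d lam) w) (hw' : ¬ PerPt (tw d lam) (tw d lam w))
    (hx : PerPt (tw d lam) x) (hne : ∀ k : ℕ, (tw d lam)^[k] w ≠ (tw d lam)^[k] x) {ζ ζ' : K}
    (hζ : ζ ^ d = 1) (hζ' : ζ' ^ d = 1) :
    ∃ γ : ℤᵐ⁰, v ((w - ζ * x) / (w - ζ' * x)) = γ ^ l := by
  classical
  rcases le_or_gt (v lam) 1 with hl | hl
  · have hex : ∃ m : ℕ, PerPt (tw d lam) ((tw d lam)^[m] w) := pre_exists_per hw
    obtain ⟨N, hN⟩ : ∃ N, Nat.find hex = N := ⟨_, rfl⟩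
    have hNper : PerPt (tw d lam) ((tw d lam)^[N] w) := hN ▸ Nat.find_spec hex
    have hNmin : ∀ m, m < N → ¬ PerPt (tw d lam) ((tw d lam)^[m] w) := fun m hm =>
      Nat.find_min hex (hN ▸ hm)
    have hN0 : N ≠ 0 := by
      intro h
      subst h
      exact hw' (per_iter hNper 1)
    have hN1 : N ≠ 1 := by
      intro h
      subst h
      exact hw' hNper
    obtain ⟨M, rfl⟩ : ∃ M, N = M + 1 := ⟨N - 1, by omega⟩
    obtain ⟨u1, hu1, hu2⟩ := per_preimage hNper
    obtain ⟨w1, hw1⟩ : ∃ w1, (tw d lam)^[M] w = w1 := ⟨_, rfl⟩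
    obtain ⟨x1, hx1⟩ : ∃ x1, (tw d lam)^[M] x = x1 := ⟨_, rfl⟩
    have hx1per : PerPt (tw d lam) x1 := hx1 ▸ per_iter hx M
    have hf : tw d lam w1 = tw d lam u1 := by
      rw [hu2, Function.iterate_succ_apply', hw1]
    have hwu : w1 ≠ u1 := by
      intro h
      exact hNmin M (by omega) (by rw [hw1, h]; exact hu1)
    have hux : u1 ≠ x1 := by
      intro h
      apply hne (M + 1)
      rw [Function.iterate_succ_apply' (tw d lam) M x, hx1, ← h, hu2]
    have hpow : w1 ^ d = u1 ^ d := by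
      unfold tw at hf
      exact mul_left_cancel₀ hlam (add_right_cancel hf)
    have hu10 : u1 ≠ 0 := by
      intro h0
      apply hwu
      rw [h0, zero_pow (by omega)] at hpow
      rw [h0]
      exact pow_eq_zero_iff (by omega) |>.mp hpow
    have hη : (u1 / w1) ^ d = 1 := by
      rw [div_pow, hpow, div_self (pow_ne_zero _ hu10)]
    have hw10 : w1 ≠ 0 := by
      intro h0
      rw [h0, div_zero, zero_pow (by omega)] at hη
      exact zero_ne_one hη
    have hη1 : u1 / w1 ≠ 1 := by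
      intro h
      rw [div_eq_one_iff_eq hw10] at h
      exact hwu h.symm
    have h1 := per_small v hd hlam hl hζ0 hu1 hx1per hux hη hη1
    have h2 : v (u1 - u1 / w1 * x1) = v (w1 - x1) := by
      have e1 : u1 - u1 / w1 * x1 = (u1 / w1) * (w1 - x1) := by
        field_simp
      rw [e1, map_mul, val_root v hd hη, one_mul]
    rw [h2, ← hw1, ← hx1] at h1
    exact ratio_small v hlam hd l
      (forms_small v hd hlam hl hζ0 hw (per_pre hx) (k := M) (by omega) h1 hζ)
      (forms_small v hd hlam hl hζ0 hw (per_pre hx) (k := M) (by omega) h1 hζ')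
  · obtain ⟨δ, hδ⟩ := exists_root v hd hcop hl hvl (per_pre hx)
    obtain ⟨j, hj, hfar⟩ := exists_far v hd hvd hζ0 hl hw (per_pre hx) hne
    exact ratio_big v hδ (forms_big v hd hvd hζ0 hl hw (per_pre hx) hj hfar hζ)
      (forms_big v hd hvd hζ0 hl hw (per_pre hx) hj hfar hζ')

/-- V5b. -/
theorem val_forms_fixed_tw {K : Type*} [Field K] (v : Valuation K ℤᵐ⁰) {d l : ℕ} (hd : 2 ≤ d)
    (hcop : Nat.Coprime l d) (hvd : v (d : K) = 1) {ζ0 : K} (hζ0 : IsPrimitiveRoot ζ0 d)
    {lam : K} (hlam : lam ≠ 0) (hvl : ∃ γ : ℤᵐ⁰, v lam = γ ^ l) {u w : K}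
    (hu : tw d lam u = u) (hw : tw d lam w ≠ u) (hwu : ∃ k : ℕ, (tw d lam)^[k] w = u) {ζ ζ' : K}
    (hζ : ζ ^ d = 1) (hζ' : ζ' ^ d = 1) :
    ∃ γ : ℤᵐ⁰, v ((w - ζ * u) / (w - ζ' * u)) = γ ^ l := by
  classical
  have hfix : ∀ j, (tw d lam)^[j] u = u := fun j => Function.iterate_fixed hu j
  have huper : PerPt (tw d lam) u := ⟨1, Nat.one_pos, hu⟩
  have hupre : PrePt (tw d lam) u := per_pre huper
  have hu0 : u ≠ 0 := by
    intro h
    rw [h] at hu
    unfold tw at hu
    rw [zero_pow (by omega), mul_zero, zero_add] at hu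
    exact one_ne_zero hu
  have hvu0 : v u ≠ 0 := (Valuation.ne_zero_iff v).2 hu0
  obtain ⟨N, hN⟩ : ∃ N, Nat.find hwu = N := ⟨_, rfl⟩
  have hNu : (tw d lam)^[N] w = u := hN ▸ Nat.find_spec hwu
  have hNmin : ∀ m, m < N → (tw d lam)^[m] w ≠ u := fun m hm => Nat.find_min hwu (hN ▸ hm)
  have hwpre : PrePt (tw d lam) w := by
    refine ((Finset.range (N + 1)).image (fun i => (tw d lam)^[i] w)).finite_toSet.subset ?_
    rintro _ ⟨i, rfl⟩
    rw [Finset.coe_image]
    by_cases hi : i ≤ N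
    · exact ⟨i, by simpa using Nat.lt_succ_of_le hi, rfl⟩
    · refine ⟨N, by simp, ?_⟩
      have h1 : i = (i - N) + N := by omega
      change (tw d lam)^[N] w = (tw d lam)^[i] w
      rw [h1, Function.iterate_add_apply, hNu, hfix]
  have hN0 : N ≠ 0 := by
    intro h
    subst h
    apply hw
    have h1 : w = u := hNu
    rw [h1, hu]
  have hN1 : N ≠ 1 := by
    intro h
    subst h
    exact hw hNu
  obtain ⟨M, rfl⟩ : ∃ M, N = M + 1 := ⟨N - 1, by omega⟩
  obtain ⟨w1, hw1⟩ : ∃ w1, (tw d lam)^[M] w = w1 := ⟨_, rfl⟩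
  have hw1u : w1 ≠ u := hw1 ▸ hNmin M (by omega)
  have hfw1 : tw d lam w1 = u := by
    rw [← hw1, ← Function.iterate_succ_apply' (tw d lam) M w]
    exact hNu
  have hpow : w1 ^ d = u ^ d := by
    have h1 : lam * w1 ^ d + 1 = lam * u ^ d + 1 := hfw1.trans hu.symm
    exact mul_left_cancel₀ hlam (add_right_cancel h1)
  have hη : (w1 / u) ^ d = 1 := by
    rw [div_pow, hpow, div_self (pow_ne_zero _ hu0)]
  have hη1 : w1 / u ≠ 1 := by
    intro h
    rw [div_eq_one_iff_eq hu0] at h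
    exact hw1u h
  have hdist : v (w1 - u) = v u := by
    have e1 : w1 - u = (w1 / u - 1) * u := by field_simp
    rw [e1, map_mul, val_root_sub v hd hvd hη (one_pow d) hη1, one_mul]
  have hD : (tw d lam)^[M] w - (tw d lam)^[M] u = w1 - u := by rw [hfix, hw1]
  rcases le_or_gt (v lam) 1 with hl | hl
  · have hlv0 : v lam ≠ 0 := (Valuation.ne_zero_iff v).2 hlam
    rcases (small_le v hd hlam hl hupre).lt_or_eq with hlt | heq
    · -- the values grow along the backward orbit
      have hdd : d = (d - 1) + 1 := by omega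
      have hud : v (lam * u ^ d) < v u := by
        rw [map_mul, map_pow]
        calc v lam * v u ^ d = (v lam * v u ^ (d - 1)) * v u := by
              rw [mul_assoc, ← pow_succ, ← hdd]
          _ < 1 * v u := mul_lt_mul_of_pos_right hlt (zero_lt_iff.2 hvu0)
          _ = v u := one_mul _
      have hrel : ∀ z, lam * z ^ d = (tw d lam z - u) + lam * u ^ d := by
        intro z
        have h1 : lam * u ^ d + 1 = u := hu
        unfold tw
        linear_combination -h1
      have hcmp : ∀ z : K, v u ≤ v (lam * z ^ d) → v u < v z := by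
        intro z hz
        by_contra hh
        push Not at hh
        have h1 : v (lam * z ^ d) ≤ v (lam * u ^ d) := by
          rw [map_mul, map_mul, map_pow, map_pow]
          exact mul_le_mul_right (pow_le_pow_left₀ zero_le hh _) _
        exact absurd (hz.trans_lt (h1.trans_lt hud)) (lt_irrefl _)
      have hgrow : ∀ (k : ℕ) (z : K), v ((tw d lam)^[k + 1] z - u) = v u → v u < v z := by
        intro k
        induction k with
        | zero =>
          intro z h
          rw [Nat.zero_add, Function.iterate_one] at h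
          apply hcmp
          rw [hrel z, v.map_add_eq_of_lt_left (by rw [h]; exact hud), h]
        | succ k ih =>
          intro z h
          rw [Function.iterate_succ_apply] at h
          have h1 := ih _ h
          have h2 : v (tw d lam z - u) = v (tw d lam z) := v.map_sub_eq_of_lt_left h1
          apply hcmp
          rw [hrel z, v.map_add_eq_of_lt_left (by rw [h2]; exact hud.trans h1), h2]
          exact h1.le
      obtain ⟨k, hk'⟩ : ∃ k, M = k + 1 := ⟨M - 1, by omega⟩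
      have hwlt : v u < v w := hgrow k w (by rw [← hk', hw1]; exact hdist)
      have hall : ∀ η : K, η ^ d = 1 → v (w - η * u) = v w := by
        intro η hη
        refine v.map_sub_eq_of_lt_left ?_
        rw [map_mul, val_root v hd hη, one_mul]
        exact hwlt
      have hw0 : v w ≠ 0 := (zero_le.trans_lt hwlt).ne'
      exact ⟨1, by rw [map_div₀, hall ζ hζ, hall ζ' hζ', div_self hw0, one_pow]⟩
    · have h1 : v lam * v ((tw d lam)^[M] w - (tw d lam)^[M] u) ^ (d - 1) = 1 := by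
        rw [hD, hdist, heq]
      exact ratio_small v hlam hd l
        (forms_small v hd hlam hl hζ0 hwpre hupre (k := M) (by omega) h1 hζ)
        (forms_small v hd hlam hl hζ0 hwpre hupre (k := M) (by omega) h1 hζ')
  · obtain ⟨δ, hδ⟩ := exists_root v hd hcop hl hvl hupre
    have hfar : v ((tw d lam)^[M] w - (tw d lam)^[M] u) = v u := by rw [hD, hdist]
    exact ratio_big v hδ (forms_big v hd hvd hζ0 hl hwpre hupre (k := M) (by omega) hfar hζ)
      (forms_big v hd hvd hζ0 hl hwpre hupre (k := M) (by omega) hfar hζ')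

end UBC
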