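import Pool.Agent.UBC.MainStep
import Pool.Agent.UBC.LocPerTw
import Pool.Agent.UBC.LocTailTw
import Pool.Agent.UBC.DynAux
import Pool.Agent.PowCyc.NorthcottPre

/-!
# Uniform bound for preperiodic points of `lam z ^ d + 1`
-/

set_option autoImplicit false

universe u

namespace UBC

open Height NumberField IsDedekindDomain Polynomial

namespace FinalTwAux

lemma tw_eq_iff {K : Type*} [Field K] {d : ℕ} {lam x y : K} (hlam : lam ≠ 0) :
    tw d lam x = tw d lam y ↔ x ^ d = y ^ d := by
  unfold tw
  constructor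
  · intro h
    exact mul_left_cancel₀ hlam (add_right_cancel h)
  · intro h
    rw [h]

end FinalTwAux

open FinalTwAux

/-- V17. -/
theorem uniform_tw_root (K : Type u) [Field K] [NumberField K] {d l : ℕ} (hd : 4 ≤ d) (hl : 2 ≤ l)
    (hcop : Nat.Coprime l d) {ζ0 : K} (hζ0 : IsPrimitiveRoot ζ0 d) {lam0 : K} (hlam0 : lam0 ≠ 0) :
    ∃ B : ℕ, ∀ b : K, b ≠ 0 → ∀ P : Finset K,
      (∀ x ∈ P, PrePt (tw d (lam0 * b ^ l)) x) → P.card ≤ B := by
  classical
  have hd2 : 2 ≤ d := by omega
  have hd0 : d ≠ 0 := by omega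
  have hdK : ((d : ℕ) : K) ≠ 0 := by exact_mod_cast hd0
  set S : Set (HeightOneSpectrum (𝓞 K)) := {v | v.valuation K ((d : ℕ) : K) ≠ 1} ∪
    {v | v.valuation K lam0 ≠ 1} with hSdef
  have hS : S.Finite := (finite_nonunit K _ hdK).union (finite_nonunit K _ hlam0)
  obtain ⟨L, _, _, _, N, C1, hmain⟩ := main_step K hd hl hcop hζ0 S hS
  obtain ⟨C, hC1, hC2, hC3⟩ := dyn_height L hd2
  set φ : K →+* L := algebraMap K L with hφ
  have hφinj : Function.Injective φ := φ.injective
  set C1' : ℝ := max C1 (C + 1) with hC1'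
  -- small heights
  have hfin : {y : L | logHeight₁ y ≤ C1' + |C|}.Finite :=
    NumberField.finite_setOfPred_logHeight₁_le L _
  refine ⟨hfin.toFinset.card + (((N + 1) + d * (N + 1)) + 2 * N), fun b hb P hP => ?_⟩
  set lam : K := lam0 * b ^ l with hlam
  have hlamne : lam ≠ 0 := mul_ne_zero hlam0 (pow_ne_zero _ hb)
  have hφlam : φ lam ≠ 0 := (_root_.map_ne_zero φ).mpr hlamne
  rcases lt_or_ge (logHeight₁ (φ lam)) C1' with hsmall | hlarge
  · have h1 : P.card ≤ hfin.toFinset.card := by
      refine Finset.card_le_card_of_injOn φ ?_ hφinj.injOn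
      intro x hx
      have h2 := hC1 (φ lam) (φ x) hφlam ((hP x hx).tw_map φ)
      simp only [Set.Finite.coe_toFinset, Set.mem_ofPred_eq]
      have h3 : (4:ℝ) ≤ d := by exact_mod_cast hd
      have h4 := zero_le_logHeight₁ (φ x)
      have h5 := le_abs_self C
      nlinarith
    omega
  · -- large heights
    have hL1 : C1 ≤ logHeight₁ (φ lam) := (le_max_left _ _).trans hlarge
    have hL2 : C + 1 ≤ logHeight₁ (φ lam) := (le_max_right _ _).trans hlarge
    have hzero : ∀ x : K, PrePt (tw d lam) x → x ≠ 0 := by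
      rintro x hx rfl
      have h1 := hC2 (φ lam) hφlam (by have := hx.tw_map φ; rwa [map_zero] at this)
      linarith
    -- valuations outside `S`
    have hvd : ∀ v : HeightOneSpectrum (𝓞 K), v ∉ S → v.valuation K ((d : ℕ) : K) = 1 := by
      intro v hv
      by_contra h
      exact hv (Or.inl h)
    have hvl : ∀ v : HeightOneSpectrum (𝓞 K), v ∉ S →
        ∃ γ : WithZero (Multiplicative ℤ), v.valuation K lam = γ ^ l := by
      intro v hv
      refine ⟨v.valuation K b, ?_⟩
      have h1 : v.valuation K lam0 = 1 := by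
        by_contra h
        exact hv (Or.inr h)
      rw [hlam, map_mul, map_pow, h1, one_mul]
    -- membership in `T`
    have hmem : ∀ w x : K, x ≠ 0 → (∀ ζ : K, ζ ^ d = 1 → ζ ≠ 1 → w - ζ * x ≠ 0) →
        (∀ v : HeightOneSpectrum (𝓞 K), v ∉ S → ∀ ζ ζ' : K, ζ ^ d = 1 → ζ ≠ 1 → ζ' ^ d = 1 →
          ζ' ≠ 1 → ∃ γ : WithZero (Multiplicative ℤ),
            v.valuation K ((w - ζ * x) / (w - ζ' * x)) = γ ^ l) →
        ∀ ζ ζ' : K, ζ ^ d = 1 → ζ ≠ 1 → ζ' ^ d = 1 → ζ' ≠ 1 →
          w / x ≠ ζ ∧ Sel l S ((w / x - ζ) / (w / x - ζ')) := by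
      intro w x hx hne hval ζ ζ' hζ hζ1 hζ' hζ'1
      have e1 : ∀ ζ : K, w / x - ζ = (w - ζ * x) / x := by
        intro ζ
        field_simp
      have e2 : (w / x - ζ) / (w / x - ζ') = (w - ζ * x) / (w - ζ' * x) := by
        rw [e1, e1, div_div_div_cancel_right₀ hx]
      refine ⟨?_, ?_⟩
      · intro hh
        apply hne ζ hζ hζ1
        rw [← hh, div_mul_cancel₀ _ hx, sub_self]
      · rw [e2]
        exact ⟨div_ne_zero (hne ζ hζ hζ1) (hne ζ' hζ' hζ'1),
          fun v hv => hval v hv ζ ζ' hζ hζ1 hζ' hζ'1⟩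
    -- periodic points
    have hper : ∀ Q : Finset K, (∀ x ∈ Q, PerPt (tw d lam) x) → Q.card ≤ N + 1 := by
      intro Q hQ
      rcases Q.eq_empty_or_nonempty with he | ⟨a, ha⟩
      · rw [he]; simp
      · have h1 : (Q.erase a).card ≤ N := by
          refine hmain lam hlamne hL1 a (hQ a ha).prePt (hzero a (hQ a ha).prePt) _ fun w hw => ?_
          obtain ⟨hwa, hwQ⟩ := Finset.mem_erase.1 hw
          have hpw := hQ w hwQ
          have hpa := hQ a ha
          have hne : w ^ d ≠ a ^ d := fun h => hwa (hpw.inj' hpa ((tw_eq_iff hlamne).2 h))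
          have hne' : ∀ ζ : K, ζ ^ d = 1 → ζ ≠ 1 → w - ζ * a ≠ 0 := by
            intro ζ hζ _ h0
            apply hne
            rw [sub_eq_zero.1 h0, mul_pow, hζ, one_mul]
          refine ⟨hpw.prePt, hne, hmem w a (hzero a hpa.prePt) hne' ?_⟩
          intro v hv ζ ζ' hζ hζ1 hζ' hζ'1
          exact val_forms_per_tw (v.valuation K) hd2 hcop (hvd v hv) hζ0 hlamne (hvl v hv) hpw hpa hwa
            hζ hζ1 hζ' hζ'1
        rw [Finset.card_erase_of_mem ha] at h1
        omega
    set P0 := P.filter (fun x => PerPt (tw d lam) x) with hP0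
    set P1 := P.filter (fun x => ¬ PerPt (tw d lam) x ∧ PerPt (tw d lam) (tw d lam x)) with hP1
    set P2 := P.filter (fun x => ¬ PerPt (tw d lam) (tw d lam x)) with hP2
    have hcover : P ⊆ (P0 ∪ P1) ∪ P2 := by
      intro x hx
      rw [Finset.mem_union, Finset.mem_union, hP0, hP1, hP2, Finset.mem_filter, Finset.mem_filter,
        Finset.mem_filter]
      by_cases h1 : PerPt (tw d lam) (tw d lam x)
      · by_cases h2 : PerPt (tw d lam) x
        · exact Or.inl (Or.inl ⟨hx, h2⟩)
        · exact Or.inl (Or.inr ⟨hx, h2, h1⟩)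
      · exact Or.inr ⟨hx, h1⟩
    have hc0 : P0.card ≤ N + 1 := hper P0 (fun x hx => (Finset.mem_filter.1 hx).2)
    have hc1 : P1.card ≤ d * (N + 1) := by
      apply card_le_mul_tw (by omega) hlamne
      apply hper
      intro y hy
      rw [Finset.mem_image] at hy
      obtain ⟨x, hx, rfl⟩ := hy
      exact (Finset.mem_filter.1 hx).2.2
    -- points which never meet `x`
    have hnever : ∀ x : K, PerPt (tw d lam) x → ∀ W : Finset K, (∀ w ∈ W, w ∈ P2 ∧
        ∀ k : ℕ, (tw d lam)^[k] w ≠ (tw d lam)^[k] x) → W.card ≤ N := by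
      intro x hx W hW
      refine hmain lam hlamne hL1 x hx.prePt (hzero x hx.prePt) W fun w hw => ?_
      obtain ⟨hw1, hw2⟩ := hW w hw
      rw [hP2, Finset.mem_filter] at hw1
      have hwp : PrePt (tw d lam) w := hP w hw1.1
      have hne : w ^ d ≠ x ^ d := by
        intro hh
        apply hw2 1
        simpa using (tw_eq_iff hlamne).2 hh
      refine ⟨hwp, hne, hmem w x (hzero x hx.prePt) ?_ ?_⟩
      · intro ζ hζ _ hh
        apply hne
        rw [sub_eq_zero.1 hh, mul_pow, hζ, one_mul]
      · intro v hv ζ ζ' hζ _ hζ' _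
        exact val_forms_tail_tw (v.valuation K) hd2 hcop (hvd v hv) hζ0 hlamne (hvl v hv) hwp
          hw1.2 hx hw2 hζ hζ'
    have hc2 : P2.card ≤ 2 * N := by
      by_cases htwo : ∃ x x' : K, PerPt (tw d lam) x ∧ PerPt (tw d lam) x' ∧ x ≠ x'
      · obtain ⟨x, x', hx, hx', hne⟩ := htwo
        set W := P2.filter (fun w => ∀ k : ℕ, (tw d lam)^[k] w ≠ (tw d lam)^[k] x) with hW
        set W' := P2.filter (fun w => ∀ k : ℕ, (tw d lam)^[k] w ≠ (tw d lam)^[k] x') with hW'
        have h1 : P2 ⊆ W ∪ W' := by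
          intro w hw
          rw [Finset.mem_union]
          rcases meets (w := w) hx hx' hne with h1 | h1
          · exact Or.inl (Finset.mem_filter.2 ⟨hw, h1⟩)
          · exact Or.inr (Finset.mem_filter.2 ⟨hw, h1⟩)
        have h2 : W.card ≤ N := hnever x hx W (fun w hw => Finset.mem_filter.1 hw)
        have h3 : W'.card ≤ N := hnever x' hx' W' (fun w hw => Finset.mem_filter.1 hw)
        calc P2.card ≤ (W ∪ W').card := Finset.card_le_card h1
          _ ≤ W.card + W'.card := Finset.card_union_le _ _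
          _ ≤ 2 * N := by omega
      · push Not at htwo
        rcases P2.eq_empty_or_nonempty with he | ⟨w0, hw0⟩
        · rw [he]; simp
        · rw [hP2, Finset.mem_filter] at hw0
          obtain ⟨m0, hm0⟩ := (hP w0 hw0.1).exists_per
          set u := (tw d lam)^[m0] w0 with hu
          have hfix : tw d lam u = u := htwo _ _ hm0.image hm0
          have hux : u ≠ 0 := hzero u hm0.prePt
          have h1 : P2.card ≤ N := by
            refine hmain lam hlamne hL1 u hm0.prePt hux P2 fun w hw => ?_
            rw [hP2, Finset.mem_filter] at hw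
            have hwp := hP w hw.1
            have hfw : tw d lam w ≠ u := by
              intro hh
              apply hw.2
              rw [hh]
              exact hm0
            obtain ⟨m, hm⟩ := hwp.exists_per
            have hmu : (tw d lam)^[m] w = u := htwo _ _ hm hm0
            have hne : w ^ d ≠ u ^ d := by
              intro hh
              apply hfw
              rw [(tw_eq_iff hlamne).2 hh, hfix]
            refine ⟨hwp, hne, hmem w u hux ?_ ?_⟩
            · intro ζ hζ _ hh
              apply hne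
              rw [sub_eq_zero.1 hh, mul_pow, hζ, one_mul]
            · intro v hv ζ ζ' hζ _ hζ' _
              exact val_forms_fixed_tw (v.valuation K) hd2 hcop (hvd v hv) hζ0 hlamne (hvl v hv)
                hfix hfw ⟨m, hmu⟩ hζ hζ'
          omega
    have h3 := Finset.card_le_card hcover
    have h4 := Finset.card_union_le (P0 ∪ P1) P2
    have h5 := Finset.card_union_le P0 P1
    omega

/-- V18.  All `a z ^ d + c` with `a c ^ (d - 1) = lam0 * b ^ l` (`c = 0` allowed). -/
theorem uniform_tw (K : Type u) [Field K] [NumberField K] {d l : ℕ} (hd : 4 ≤ d) (hl : 2 ≤ l)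
    (hcop : Nat.Coprime l d) {lam0 : K} (hlam0 : lam0 ≠ 0) :
    ∃ B : ℕ, ∀ a b c : K, a ≠ 0 → a * c ^ (d - 1) = lam0 * b ^ l → ∀ P : Finset K,
      (∀ x ∈ P, PrePt (fun z : K => a * z ^ d + c) x) → P.card ≤ B := by
  classical
  obtain ⟨K1, _, _, _, ζ0, hζ0⟩ := exists_cyclotomic K d (by omega)
  set φ : K →+* K1 := algebraMap K K1 with hφ
  have hφinj : Function.Injective φ := φ.injective
  obtain ⟨B1, hB1⟩ := uniform_tw_root K1 hd hl hcop hζ0 (lam0 := φ lam0)
    ((_root_.map_ne_zero φ).mpr hlam0)
  -- the pure powers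
  have hfin0 : {x : K | PowCyc.Pre d 0 x}.Finite := PowCyc.finite_pre (by omega) 0
  refine ⟨B1 + (hfin0.toFinset.card + 1), fun a b c ha hab P hP => ?_⟩
  by_cases hc : c = 0
  · -- `c = 0`
    subst hc
    have hg : (fun z : K => a * z ^ d + 0) = fun z : K => a * z ^ d := by
      funext z; rw [add_zero]
    rw [hg] at hP
    have h1 : (P.erase 0).card ≤ hfin0.toFinset.card := by
      rcases (P.erase 0).eq_empty_or_nonempty with he | ⟨y, hy⟩
      · rw [he]; simp
      · obtain ⟨hy0, hyP⟩ := Finset.mem_erase.1 hy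
        refine Finset.card_le_card_of_injOn (fun x => x / y) ?_ ?_
        · intro x hx
          obtain ⟨_, hxP⟩ := Finset.mem_erase.1 hx
          simp only [Set.Finite.coe_toFinset, Set.mem_ofPred_eq]
          have hiter : ∀ k : ℕ, (PowCyc.f d (0 : K))^[k] (x / y) =
              (fun z : K => a * z ^ d)^[k] x / (fun z : K => a * z ^ d)^[k] y := by
            intro k
            induction k with
            | zero => rfl
            | succ k ih =>
              rw [Function.iterate_succ_apply', Function.iterate_succ_apply',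
                Function.iterate_succ_apply', ih]
              simp only [PowCyc.f, add_zero, div_pow]
              rw [mul_div_mul_left _ _ ha]
          unfold PowCyc.Pre
          refine ((hP x hxP).image2 (fun u w => u / w) (hP y hyP)).subset ?_
          rintro _ ⟨k, rfl⟩
          simp only
          rw [hiter k]
          exact Set.mem_image2_of_mem ⟨k, rfl⟩ ⟨k, rfl⟩
        · intro x _ x' _ hxx
          exact (div_left_inj' hy0).1 hxx
    have h2 := Finset.pred_card_le_card_erase (s := P) (a := (0 : K))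
    omega
  · -- `c ≠ 0`
    have hb : b ≠ 0 := by
      rintro rfl
      rw [zero_pow (by omega), mul_zero] at hab
      exact (mul_ne_zero ha (pow_ne_zero _ hc)) hab
    have hsemi : Function.Semiconj (fun z : K => φ (z / c)) (fun z : K => a * z ^ d + c)
        (tw d (φ lam0 * φ b ^ l)) := by
      intro z
      simp only [tw]
      rw [← map_pow, ← map_mul, ← hab, ← map_pow, ← map_mul, ← map_one φ, ← map_add]
      congr 1
      obtain ⟨j, hj⟩ : ∃ j, d = j + 1 := ⟨d - 1, by omega⟩
      subst hj
      simp only [Nat.add_sub_cancel]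
      rw [div_pow, pow_succ c j]
      field_simp
    have h1 := hB1 (φ b) ((_root_.map_ne_zero φ).mpr hb) (P.image fun z : K => φ (z / c)) (by
      intro y hy
      rw [Finset.mem_image] at hy
      obtain ⟨x, hx, rfl⟩ := hy
      exact (hP x hx).semiconj hsemi)
    rw [Finset.card_image_of_injective _ (fun x y hxy => by
      exact (div_left_inj' hc).1 (hφinj hxy))] at h1
    omega

end UBC
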