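import Pool.Agent.UBC.FinalPerS
import Pool.Agent.UBC.FinalTw

/-!
# Uniform bound for periodic points of `H(z ^ r) + c`, all `r ≥ 4`
-/

set_option autoImplicit false

universe u

namespace UBC

open Height NumberField IsDedekindDomain Polynomial FinalPerAux FinalPerSAux

/-- degree four: `a z ^ 4 + c` with `a` a unit outside `M` -/
theorem uniform_four (K : Type u) [Field K] [NumberField K] (M : ℕ) (hM : M ≠ 0) :
    ∃ B : ℕ, ∀ a : K, a ≠ 0 → IntAway M a → IntAway M a⁻¹ → ∀ c : K, ∀ P : Finset K,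
      (∀ x ∈ P, PrePt (fun z : K => a * z ^ 4 + c) x) → P.card ≤ B := by
  classical
  set S : Set (HeightOneSpectrum (𝓞 K)) := {v | v.valuation K ((M : ℕ) : K) ≠ 1} with hSdef
  have hMK : ((M : ℕ) : K) ≠ 0 := by exact_mod_cast hM
  have hS : S.Finite := finite_nonunit K _ hMK
  obtain ⟨T, hT0, hT⟩ := PowCyc.selmer_finite K 3 (by norm_num) S hS
  have hB : ∀ κ : K, ∃ B : ℕ, κ ≠ 0 → ∀ a b c : K, a ≠ 0 → a * c ^ (4 - 1) = κ * b ^ 3 →
      ∀ P : Finset K, (∀ x ∈ P, PrePt (fun z : K => a * z ^ 4 + c) x) → P.card ≤ B := by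
    intro κ
    by_cases hκ : κ = 0
    · exact ⟨0, fun h => absurd hκ h⟩
    · obtain ⟨B, hB⟩ := uniform_tw K (d := 4) (l := 3) le_rfl (by norm_num) (by norm_num) hκ
      exact ⟨B, fun _ => hB⟩
  choose B hB using hB
  refine ⟨∑ κ ∈ T, B κ, fun a ha h1 h2 c P hP => ?_⟩
  obtain ⟨κ, hκ, z, hz, hazκ⟩ := hT a ha (fun v hv => ⟨1, by
    have hv1 : v.valuation K ((M : ℕ) : K) = 1 := by
      by_contra h'
      exact hv h'
    have h3 := val_le_one_of_away v hv1 h1
    have h4 := val_le_one_of_away v hv1 h2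
    rw [map_inv₀] at h4
    rw [one_pow]
    have h5 : v.valuation K a ≠ 0 := (Valuation.ne_zero_iff _).mpr ha
    exact le_antisymm h3 ((inv_le_one₀ (zero_lt_iff.2 h5)).1 h4)⟩)
  have h6 := hB κ (hT0 κ hκ) a (z * c) c ha (by rw [hazκ]; norm_num; ring) P hP
  exact h6.trans (Finset.single_le_sum (f := B) (fun _ _ => Nat.zero_le _) hκ)

/-- all `r ≥ 4`, `m ≥ 1` -/
theorem uniform_per_all (K : Type u) [Field K] [NumberField K] {r m : ℕ} (hr : 4 ≤ r)
    (hm : 1 ≤ m) (M : ℕ) (hM : M ≠ 0) :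
    ∃ B : ℕ, ∀ H : K[X], H.natDegree = m → IntAway M (H.leadingCoeff)⁻¹ →
      (∀ i, IntAway M (H.coeff i)) →
      ∀ c : K, ∀ P : Finset K, (∀ x ∈ P, PerPt (fam r H c) x) → P.card ≤ B := by
  classical
  by_cases hrm : r = 4 ∧ m = 1
  · obtain ⟨rfl, rfl⟩ := hrm
    obtain ⟨B, hB⟩ := uniform_four K M hM
    refine ⟨B, fun H hdeg hlead hcoef c P hP => ?_⟩
    have hH0 : H ≠ 0 := by
      rintro rfl
      simp at hdeg
    have hl : H.leadingCoeff = H.coeff 1 := by rw [leadingCoeff, hdeg]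
    refine hB (H.leadingCoeff) (leadingCoeff_ne_zero.2 hH0) (by rw [hl]; exact hcoef 1) hlead
      (H.coeff 0 + c) P fun x hx => ?_
    have hfam : fam 4 H c = fun z : K => H.leadingCoeff * z ^ 4 + (H.coeff 0 + c) := by
      funext z
      have h1 : H = C (H.coeff 1) * X + C (H.coeff 0) :=
        eq_X_add_C_of_natDegree_le_one hdeg.le
      unfold fam
      rw [hl]
      conv_lhs => rw [h1]
      simp only [eval_add, eval_mul, eval_C, eval_X]
      ring
    rw [← hfam]
    exact (hP x hx).prePt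
  · refine uniform_per_S K hm ⟨hr, ?_⟩ M hM
    by_cases h5 : 6 ≤ r * m
    · exact Or.inl (by omega)
    · right
      push Not at hrm
      have h1 : m = 1 := by
        by_contra hne
        have h2 : 2 ≤ m := by omega
        have h3 : 4 * 2 ≤ r * m := Nat.mul_le_mul hr h2
        omega
      subst h1
      have h4 : r ≠ 4 := fun h => hrm h rfl
      constructor <;> omega

end UBC
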