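import Pool.Agent.UBC.Metric

/-!
# Finite sets all of whose triples have the gap property
-/

set_option autoImplicit false

namespace UBC

open Height NumberField

namespace Metric3Aux

variable {K L : Type*} [Field K] [Field L] [NumberField L] [Algebra K L]

/-- parameter of the pencil of lines through `(ω ^ 2 : ω : 1)` at the point `(x : y : z)` -/
noncomputable def sp (ω x y z : K) : K := -(x - ω * y) / ((x - ω * y) + (z - ω * x))

/-- height of the image in `L` -/
noncomputable def ht (L : Type*) [Field L] [NumberField L] [Algebra K L] (x : K) : ℝ :=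
  logHeight₁ (algebraMap K L x)

theorem ht_nonneg (x : K) : 0 ≤ ht L x := zero_le_logHeight₁ _

theorem ht_mul (x y : K) : ht L (x * y) ≤ ht L x + ht L y := by
  unfold ht
  rw [map_mul]
  exact logHeight₁_mul_le _ _

theorem ht_inv (x : K) : ht L x⁻¹ = ht L x := by
  unfold ht
  rw [map_inv₀, logHeight₁_inv]

theorem ht_div (x y : K) : ht L (x / y) ≤ ht L x + ht L y := by
  rw [div_eq_mul_inv]
  refine (ht_mul _ _).trans ?_
  rw [ht_inv]

theorem ht_neg (x : K) : ht L (-x) = ht L x := by
  unfold ht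
  rw [map_neg, logHeight₁_neg]

/-- the constant -/
noncomputable def W (L : Type*) [Field L] [NumberField L] : ℝ := totalWeight L * Real.log 2

theorem W_nonneg : 0 ≤ W L := by
  unfold W
  positivity

theorem ht_add (x y : K) : ht L (x + y) ≤ W L + ht L x + ht L y := by
  unfold ht W
  rw [map_add]
  exact logHeight₁_add_le _ _

theorem ht_sub (x y : K) : ht L (x - y) ≤ W L + ht L x + ht L y := by
  unfold ht W
  rw [map_sub]
  exact logHeight₁_sub_le _ _

theorem ht_one : ht L (1 : K) = 0 := by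
  unfold ht
  rw [map_one, logHeight₁_one]

/-- upper bound -/
theorem sp_le {ω x y z : K} (hx : x ≠ 0) :
    ht L (sp ω x y z) ≤ 2 * ht L (y / x) + ht L (z / x) + (4 * W L + 3 * ht L ω) := by
  have h1 : sp ω x y z = -(1 - ω * (y / x)) / ((1 - ω * (y / x)) + (z / x - ω)) := by
    unfold sp
    rw [show -(x - ω * y) = x * -(1 - ω * (y / x)) by field_simp,
      show (x - ω * y) + (z - ω * x) = x * ((1 - ω * (y / x)) + (z / x - ω)) by field_simp,
      mul_div_mul_left _ _ hx]
  rw [h1]
  have e1 := ht_div (L := L) (-(1 - ω * (y / x))) ((1 - ω * (y / x)) + (z / x - ω))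
  have e2 := ht_neg (L := L) (1 - ω * (y / x))
  have e3 := ht_sub (L := L) 1 (ω * (y / x))
  have e4 := ht_mul (L := L) ω (y / x)
  have e5 := ht_add (L := L) (1 - ω * (y / x)) (z / x - ω)
  have e6 := ht_sub (L := L) (z / x) ω
  have e7 := ht_one (K := K) (L := L)
  have e8 := ht_nonneg (L := L) ω
  linarith

/-- lower bound -/
theorem le_sp {ω x y z : K} (hω : ω ^ 2 + ω + 1 = 0) (hx : x ≠ 0) (h1 : x - ω * y ≠ 0)
    (h2 : y - ω * x ≠ 0) (h3 : x + y + z ≠ 0) (h4 : (x - ω * y) + (z - ω * x) ≠ 0)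
    (h5 : (y - ω * x) + (z - ω * y) ≠ 0) :
    ht L (y / x) ≤ 2 * ht L (sp ω x y z) + 2 * ht L (sp ω y x z) +
      (8 * W L + 4 * ht L ω) := by
  have hω3 : ω ^ 3 = 1 := by linear_combination (ω - 1) * hω
  set t1 : K := (ω * x - z) / (x - ω * y) with ht1
  set t2 : K := (ω * y - z) / (y - ω * x) with ht2
  have k1 : t1 = 1 + (sp ω x y z)⁻¹ := by
    unfold sp
    rw [ht1, inv_div]
    field_simp
    ring
  have k2 : t2 = 1 + (sp ω y x z)⁻¹ := by
    unfold sp
    rw [ht2, inv_div]
    field_simp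
    ring
  have hω1 : 1 - ω ≠ 0 := by
    intro h
    have h6 : ω = 1 := (sub_eq_zero.1 h).symm
    have h7 : (3 : K) = 0 := by
      rw [h6] at hω
      linear_combination hω
    have h8 : (3 : L) = 0 := by
      have h9 := congrArg (algebraMap K L) h7
      rw [map_zero, map_ofNat] at h9
      exact h9
    exact three_ne_zero h8
  have q1 : t1 * (x - ω * y) = ω * x - z := div_mul_cancel₀ _ h1
  have q2 : t2 * (y - ω * x) = ω * y - z := div_mul_cancel₀ _ h2
  have key : y * (ω * t1 - ω + t2) = x * (ω * t2 + t1 - ω) := by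
    linear_combination q2 - q1
  have hden : ω * t1 - ω + t2 ≠ 0 := by
    intro h
    rw [h, mul_zero] at key
    have h6 : ω * t2 + t1 - ω = 0 := by
      rcases mul_eq_zero.1 key.symm with h | h
      · exact absurd h hx
      · exact h
    have h8 : (1 - ω) * ((1 + ω) * t2 - ω) = 0 := by
      linear_combination h - ω * h6
    have h9 : (1 + ω) * t2 = ω := by
      rcases mul_eq_zero.1 h8 with h | h
      · exact absurd h hω1
      · exact sub_eq_zero.1 h
    have h10 : ω ^ 2 * (x + y + z) = 0 := by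
      linear_combination (y - ω * x) * h9 - (1 + ω) * q2 + z * hω
    rcases mul_eq_zero.1 h10 with h | h
    · rw [pow_eq_zero_iff two_ne_zero] at h
      rw [h] at hω
      simp at hω
    · exact h3 h
  have hyx : y / x = (ω * t2 + t1 - ω) / (ω * t1 - ω + t2) := by
    rw [div_eq_div_iff hx hden]
    linear_combination key
  have e0 : ht L (ω * t2 + t1 - ω) ≤ 2 * W L + 2 * ht L ω + ht L t1 + ht L t2 := by
    have f1 := ht_sub (L := L) (ω * t2 + t1) ω
    have f2 := ht_add (L := L) (ω * t2) t1
    have f3 := ht_mul (L := L) ω t2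
    linarith
  have e1 : ht L (ω * t1 - ω + t2) ≤ 2 * W L + 2 * ht L ω + ht L t1 + ht L t2 := by
    have f1 := ht_add (L := L) (ω * t1 - ω) t2
    have f2 := ht_sub (L := L) (ω * t1) ω
    have f3 := ht_mul (L := L) ω t1
    linarith
  have e2 : ht L t1 ≤ W L + ht L (sp ω x y z) := by
    rw [k1]
    have f1 := ht_add (L := L) 1 (sp ω x y z)⁻¹
    have f2 := ht_one (K := K) (L := L)
    rw [ht_inv] at f1
    linarith
  have e3 : ht L t2 ≤ W L + ht L (sp ω y x z) := by
    rw [k2]
    have f1 := ht_add (L := L) 1 (sp ω y x z)⁻¹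
    have f2 := ht_one (K := K) (L := L)
    rw [ht_inv] at f1
    linarith
  have e4 := ht_div (L := L) (ω * t2 + t1 - ω) (ω * t1 - ω + t2)
  rw [← hyx] at e4
  have e5 := ht_nonneg (L := L) ω
  have e7 := W_nonneg (L := L)
  linarith

end Metric3Aux

open Metric3Aux MetricAux in
/-- the metric argument for triples -/
theorem metric3_bound (K L : Type*) [Field K] [Field L] [NumberField L] [Algebra K L] {ω : K}
    (hω : ω ^ 2 + ω + 1 = 0) (T : Set K)
    (hT : Gap (fun t : K => logHeight₁ (algebraMap K L t)) T) :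
    ∃ B : ℕ, ∀ P : Finset K, (∀ x ∈ P, x ≠ 0) →
      (∀ x ∈ P, ∀ y ∈ P, x ≠ y → x - ω * y ≠ 0) →
      (∀ x ∈ P, ∀ y ∈ P, ∀ z ∈ P, x ≠ y → y ≠ z → x ≠ z →
        (x - ω * y) + (z - ω * x) ≠ 0 → sp ω x y z ∈ T) → P.card ≤ B := by
  classical
  obtain ⟨N, H0, hN⟩ := hT 13
  set C1 : ℝ := 4 * W L + 3 * ht L ω with hC1
  set C2 : ℝ := 8 * W L + 4 * ht L ω with hC2
  have hC1' : 0 ≤ C1 := by
    have := W_nonneg (L := L)
    have := ht_nonneg (L := L) ω
    rw [hC1]; positivity
  have hC2' : 0 ≤ C2 := by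
    have := W_nonneg (L := L)
    have := ht_nonneg (L := L) ω
    rw [hC2]; positivity
  set D0 : ℝ := max (4 * H0 + C2) (4 * C1 + 13 * C2 + 1) with hD0
  have hfin : {z : L | logHeight₁ z ≤ D0}.Finite := finite_setOfPred_logHeight₁_le L D0
  refine ⟨hfin.toFinset.card + (N + N + 5), fun P hP0 hne hP1 => ?_⟩
  rcases P.eq_empty_or_nonempty with hPe | hPne
  · simp [hPe]
  have hPPne : (P ×ˢ P).Nonempty := hPne.product hPne
  obtain ⟨⟨a, b⟩, hab, hmax⟩ := Finset.exists_max_image (P ×ˢ P)
    (fun p : K × K => dst L p.1 p.2) hPPne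
  rw [Finset.mem_product] at hab
  obtain ⟨ha, hb⟩ := hab
  simp only at ha hb
  have hmax' : ∀ x ∈ P, ∀ y ∈ P, dst L x y ≤ dst L a b := fun x hx y hy =>
    hmax (x, y) (Finset.mem_product.2 ⟨hx, hy⟩)
  have ha0 := hP0 a ha
  have hb0 := hP0 b hb
  set D : ℝ := dst L a b with hDdef
  by_cases hD : D < D0
  · have h1 : P.card ≤ hfin.toFinset.card := by
      refine Finset.card_le_card_of_injOn (fun x => algebraMap K L (x / a)) ?_ ?_
      · intro x hx
        have hx' : x ∈ P := hx
        simp only [Set.Finite.coe_toFinset, Set.mem_ofPred_eq]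
        have h2 := hmax' x hx' a ha
        unfold dst at h2
        linarith
      · intro x hx y hy hxy
        have hxy' : algebraMap K L (x / a) = algebraMap K L (y / a) := hxy
        have h2 := (algebraMap K L).injective hxy'
        exact (div_left_inj' ha0).1 h2
    omega
  · push Not at hD
    have hD1 : 4 * H0 + C2 ≤ D := le_trans (le_max_left _ _) hD
    have hD3 : 4 * C1 + 13 * C2 + 1 ≤ D := le_trans (le_max_right _ _) hD
    have hab : a ≠ b := by
      intro h
      rw [h, dst_self hb0] at hDdef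
      linarith
    have hu1 := hne a ha b hb hab
    have hu2 := hne b hb a ha hab.symm
    set E : Finset K := {a, b, ω * a - (a - ω * b), ω * b - (b - ω * a), -(a + b)} with hE
    have hEcard : E.card ≤ 5 := Finset.card_le_five
    set H : ℝ := (D - C2) / 4 with hH
    set F1 := (P \ E).filter (fun k => H ≤ ht L (sp ω a b k)) with hF1
    set F2 := (P \ E).filter (fun k => H ≤ ht L (sp ω b a k)) with hF2
    have hmem : ∀ k ∈ P \ E, k ∈ P ∧ a ≠ k ∧ b ≠ k ∧ (a - ω * b) + (k - ω * a) ≠ 0 ∧
        (b - ω * a) + (k - ω * b) ≠ 0 ∧ a + b + k ≠ 0 := by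
      intro k hk
      rw [Finset.mem_sdiff, hE] at hk
      obtain ⟨hkP, hkE⟩ := hk
      simp only [Finset.mem_insert, Finset.mem_singleton, not_or] at hkE
      obtain ⟨g1, g2, g3, g4, g5⟩ := hkE
      refine ⟨hkP, fun h => g1 h.symm, fun h => g2 h.symm, fun h => g3 ?_, fun h => g4 ?_,
        fun h => g5 ?_⟩
      · linear_combination h
      · linear_combination h
      · linear_combination h
    have hda : ht L (b / a) = D := by
      rw [hDdef]
      unfold dst ht
      rw [← inv_div a b, map_inv₀, logHeight₁_inv]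
    have hdb : ht L (a / b) = D := rfl
    have hcov : P \ E ⊆ F1 ∪ F2 := by
      intro k hk
      obtain ⟨hkP, g1, g2, g3, g4, g5⟩ := hmem k hk
      have h2 := le_sp (L := L) hω ha0 hu1 hu2 g5 g3 g4
      rw [hda] at h2
      rw [Finset.mem_union, hF1, hF2, Finset.mem_filter, Finset.mem_filter]
      by_cases h3 : H ≤ ht L (sp ω a b k)
      · exact Or.inl ⟨hk, h3⟩
      · right
        refine ⟨hk, ?_⟩
        push Not at h3
        rw [hH] at h3 ⊢
        linarith
    have hup : ∀ u ∈ P, ∀ w ∈ P, ht L (w / u) = D → ∀ k ∈ P, ht L (sp ω u w k) ≤ 13 * H := by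
      intro u hu w _ huw k hk
      have h1 := sp_le (L := L) (ω := ω) (y := w) (z := k) (hP0 u hu)
      have h2 : ht L (k / u) ≤ D := hmax' k hk u hu
      rw [huw] at h1
      rw [hH]
      linarith
    have hinj : ∀ u w : K, u - ω * w ≠ 0 → ∀ x y : K,
        (u - ω * w) + (x - ω * u) ≠ 0 → (u - ω * w) + (y - ω * u) ≠ 0 →
        sp ω u w x = sp ω u w y → x = y := by
      intro u w hθ x y g1 g2 h
      unfold sp at h
      rw [div_eq_div_iff g1 g2] at h
      have h1 := mul_left_cancel₀ (neg_ne_zero.2 hθ) h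
      linear_combination -h1
    have hc1 : F1.card ≤ N := by
      have hi : Set.InjOn (fun k : K => sp ω a b k) (F1 : Set K) := by
        intro x hx y hy hxy
        have hx' := (Finset.mem_filter.1 (Finset.mem_coe.1 hx)).1
        have hy' := (Finset.mem_filter.1 (Finset.mem_coe.1 hy)).1
        exact hinj a b hu1 x y (hmem x hx').2.2.2.1 (hmem y hy').2.2.2.1 hxy
      rw [← Finset.card_image_of_injOn hi]
      refine hN H (by rw [hH]; linarith) _ ?_
      intro t ht'
      rw [Finset.mem_image] at ht'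
      obtain ⟨k, hk, rfl⟩ := ht'
      rw [hF1, Finset.mem_filter] at hk
      obtain ⟨hkP, g1, g2, g3, g4, g5⟩ := hmem k hk.1
      exact ⟨hP1 a ha b hb k hkP hab g2 g1 g3, hk.2, hup a ha b hb hda k hkP⟩
    have hc2 : F2.card ≤ N := by
      have hi : Set.InjOn (fun k : K => sp ω b a k) (F2 : Set K) := by
        intro x hx y hy hxy
        have hx' := (Finset.mem_filter.1 (Finset.mem_coe.1 hx)).1
        have hy' := (Finset.mem_filter.1 (Finset.mem_coe.1 hy)).1
        exact hinj b a hu2 x y (hmem x hx').2.2.2.2.1 (hmem y hy').2.2.2.2.1 hxy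
      rw [← Finset.card_image_of_injOn hi]
      refine hN H (by rw [hH]; linarith) _ ?_
      intro t ht'
      rw [Finset.mem_image] at ht'
      obtain ⟨k, hk, rfl⟩ := ht'
      rw [hF2, Finset.mem_filter] at hk
      obtain ⟨hkP, g1, g2, g3, g4, g5⟩ := hmem k hk.1
      exact ⟨hP1 b hb a ha k hkP hab.symm g1 g2 g4, hk.2, hup b hb a ha hdb k hkP⟩
    have h6 := (Finset.card_le_card hcov).trans (Finset.card_union_le _ _)
    have h7 : P.card ≤ (P \ E).card + E.card := by
      have := Finset.le_card_sdiff E P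
      omega
    omega

end UBC
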