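import Pool.Agent.UBC.FinalPerS
import Pool.Agent.UBC.Metric3
import Pool.Agent.UBC.FermatGap

/-!
# Uniform bound for periodic points of `H(z ^ 3) + c`, `deg H ≥ 2`
-/

set_option autoImplicit false

universe u

namespace UBC

open Height NumberField IsDedekindDomain Polynomial FinalPerAux FinalPerSAux Metric3Aux

/-- the case of a number field with the cube roots of unity -/
theorem uniform_per_root3 (K : Type u) [Field K] [NumberField K] {m : ℕ} (hm : 2 ≤ m)
    {ω : K} (hprim : IsPrimitiveRoot ω 3) (S : Set (HeightOneSpectrum (𝓞 K))) (hS : S.Finite)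
    (hrmS : ∀ v : HeightOneSpectrum (𝓞 K), v ∉ S → v.valuation K ((3 * m : ℕ) : K) = 1) :
    ∃ B : ℕ, ∀ H : K[X], H.Monic → H.natDegree = m →
      (∀ v : HeightOneSpectrum (𝓞 K), v ∉ S → ∀ i, v.valuation K (H.coeff i) ≤ 1) →
      ∀ c : K, ∀ P : Finset K, (∀ x ∈ P, PerPt (fam 3 H c) x) → P.card ≤ B := by
  classical
  have hω3 : ω ^ 3 = 1 := hprim.pow_eq_one
  have hω1 : ω ≠ 1 := hprim.ne_one (by norm_num)
  have h1ω : 1 - ω ≠ 0 := sub_ne_zero.2 hω1.symm
  have hω : ω ^ 2 + ω + 1 = 0 := by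
    have h1 : (1 - ω) * (ω ^ 2 + ω + 1) = 0 := by linear_combination -hω3
    exact (mul_eq_zero.1 h1).resolve_left h1ω
  have hω0 : ω ≠ 0 := by
    rintro rfl
    simp at hω
  set e : Fin 3 → K := ![0, -1, -(1 - ω)⁻¹] with he
  have h01 : (0 : K) ≠ -1 := fun h => by
    have h1 : (1 : K) = 0 := by linear_combination h
    exact one_ne_zero h1
  have h02 : (0 : K) ≠ -(1 - ω)⁻¹ := fun h => by
    have h1 : (1 - ω)⁻¹ = 0 := by linear_combination h
    exact inv_ne_zero h1ω h1
  have h12 : (-1 : K) ≠ -(1 - ω)⁻¹ := fun h => by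
    have h1 : (1 - ω)⁻¹ = 1 := by linear_combination h
    rw [inv_eq_one] at h1
    apply hω0
    linear_combination -h1
  have heinj : Function.Injective e := by
    intro i j hij
    match i, j, hij with
    | 0, 0, _ => rfl
    | 0, 1, h => exact absurd h h01
    | 0, 2, h => exact absurd h h02
    | 1, 0, h => exact absurd h h01.symm
    | 1, 1, _ => rfl
    | 1, 2, h => exact absurd h h12
    | 2, 0, h => exact absurd h h02.symm
    | 2, 1, h => exact absurd h h12.symm
    | 2, 2, _ => rfl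
  obtain ⟨L, j1, j2, j3, hL⟩ := exists_gap_fermat K (n := 3 * m - 1) (by omega) S hS e heinj
  obtain ⟨B, hB⟩ := metric3_bound K L hω _ hL
  refine ⟨B + 1, ?_⟩
  intro H hH hdeg hint c P hP
  have hform : ∀ x ∈ P, ∀ y ∈ P, x ≠ y → x - ω * y ≠ 0 := by
    intro x hx y hy hxy h0
    have h1 : x = ω * y := sub_eq_zero.1 h0
    have h2 : fam 3 H c x = fam 3 H c y := by
      unfold fam
      rw [h1, mul_pow, hω3, one_mul]
    exact hxy (PerPt.inj' (hP x hx) (hP y hy) h2)
  have key := hB (P.erase 0) ?_ ?_ ?_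
  · have h1 : P.card ≤ (P.erase 0).card + 1 := by
      have := Finset.pred_card_le_card_erase (s := P) (a := (0 : K))
      omega
    omega
  · intro x hx
    exact (Finset.mem_erase.1 hx).1
  · intro x hx y hy hxy
    exact hform x (Finset.mem_erase.1 hx).2 y (Finset.mem_erase.1 hy).2 hxy
  · intro x hx y hy z hz hxy hyz hxz hsum
    have hx' := (Finset.mem_erase.1 hx).2
    have hy' := (Finset.mem_erase.1 hy).2
    have hz' := (Finset.mem_erase.1 hz).2
    have hU := hform x hx' y hy' hxy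
    have hV := hform y hy' z hz' hyz
    have hW := hform z hz' x hx' hxz.symm
    have hcross : ∀ v : HeightOneSpectrum (𝓞 K), v ∉ S → ∀ a ∈ P, ∀ b ∈ P, a ≠ b →
        ∀ a' ∈ P, ∀ b' ∈ P, a' ≠ b' →
        ∃ γ : WithZero (Multiplicative ℤ),
          v.valuation K ((a - ω * b) / (a' - ω * b')) = γ ^ (3 * m - 1) := by
      intro v hv a ha b hb hab a' ha' b' hb' hab'
      exact (val_forms_cross (v.valuation K) (r := 3) (by norm_num) (by omega) (hrmS v hv) hprim
        hH hdeg (hint v hv) (hP a ha) (hP b hb) hab (hP a' ha') (hP b' hb') hab' hω3 hω1 hω3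
        hω1).2.2
    have hsp : sp ω x y z = -(x - ω * y) / ((x - ω * y) + (z - ω * x)) := rfl
    have e0 : e 0 = 0 := rfl
    have e1 : e 1 = -1 := rfl
    have e2 : e 2 = -(1 - ω)⁻¹ := rfl
    have s0 : sp ω x y z - e 0 = -(x - ω * y) / ((x - ω * y) + (z - ω * x)) := by
      rw [hsp, e0, sub_zero]
    have s1 : sp ω x y z - e 1 = (z - ω * x) / ((x - ω * y) + (z - ω * x)) := by
      rw [hsp, e1, sub_neg_eq_add, div_add_one hsum]
      congr 1
      ring
    have s2 : sp ω x y z - e 2 =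
        -(ω ^ 2 * (y - ω * z)) / ((1 - ω) * ((x - ω * y) + (z - ω * x))) := by
      rw [hsp, e2, sub_neg_eq_add, inv_eq_one_div, div_add_div _ _ hsum h1ω,
        mul_comm (1 - ω) ((x - ω * y) + (z - ω * x))]
      congr 1
      linear_combination -z * hω3
    have n0 : sp ω x y z - e 0 ≠ 0 := by
      rw [s0]
      exact div_ne_zero (neg_ne_zero.2 hU) hsum
    have n1 : sp ω x y z - e 1 ≠ 0 := by
      rw [s1]
      exact div_ne_zero hW hsum
    have n2 : sp ω x y z - e 2 ≠ 0 := by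
      rw [s2]
      exact div_ne_zero (neg_ne_zero.2 (mul_ne_zero (pow_ne_zero _ hω0) hV))
        (mul_ne_zero h1ω hsum)
    have r1 : (sp ω x y z - e 1) / (sp ω x y z - e 0) = -((z - ω * x) / (x - ω * y)) := by
      rw [s0, s1, div_div_div_cancel_right₀ hsum, div_neg]
    have r2 : (sp ω x y z - e 2) / (sp ω x y z - e 0) =
        ω ^ 2 / (1 - ω) * ((y - ω * z) / (x - ω * y)) := by
      rw [s0, s2, div_div_eq_mul_div, div_mul_eq_mul_div, div_div, div_mul_div_comm,
        div_eq_div_iff (mul_ne_zero (mul_ne_zero h1ω hsum) (neg_ne_zero.2 hU))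
          (mul_ne_zero h1ω hU)]
      ring
    intro j
    fin_cases j
    · refine ⟨sub_ne_zero.1 n0, div_ne_zero n0 n0, fun v _ => ⟨1, ?_⟩⟩
      change v.valuation K ((sp ω x y z - e 0) / (sp ω x y z - e 0)) = _
      rw [div_self n0, map_one, one_pow]
    · refine ⟨sub_ne_zero.1 n1, div_ne_zero n1 n0, fun v hv => ?_⟩
      obtain ⟨γ, hγ⟩ := hcross v hv z hz' x hx' hxz.symm x hx' y hy' hxy
      refine ⟨γ, ?_⟩
      change v.valuation K ((sp ω x y z - e 1) / (sp ω x y z - e 0)) = _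
      rw [r1, Valuation.map_neg, hγ]
    · refine ⟨sub_ne_zero.1 n2, div_ne_zero n2 n0, fun v hv => ?_⟩
      obtain ⟨γ, hγ⟩ := hcross v hv y hy' z hz' hyz x hx' y hy' hxy
      refine ⟨γ, ?_⟩
      change v.valuation K ((sp ω x y z - e 2) / (sp ω x y z - e 0)) = _
      have hv3 : v.valuation K (3 : K) = 1 := by
        have h1 := LocPerAux.v_rm (v.valuation K) (hrmS v hv)
        exact_mod_cast h1.1
      have hvω : v.valuation K ω = 1 := LocPerAux.v_zeta (v.valuation K) (by norm_num) hω3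
      have hle : ∀ k : ℕ, v.valuation K (1 - ω ^ k) ≤ 1 := fun k => by
        refine (Valuation.map_sub _ _ _).trans (max_le (by rw [map_one]) ?_)
        rw [map_pow, hvω, one_pow]
      have hprod : (1 - ω ^ 1) * (1 - ω ^ 2) = 3 := by linear_combination hω3 - hω
      have h1 := hle 1
      have h2 := hle 2
      have h3 : v.valuation K (1 - ω ^ 1) * v.valuation K (1 - ω ^ 2) = 1 := by
        rw [← map_mul, hprod, hv3]
      have h4 : v.valuation K (1 - ω) = 1 := by
        rw [pow_one] at h1 h3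
        refine le_antisymm h1 ?_
        rw [← h3]
        calc v.valuation K (1 - ω) * v.valuation K (1 - ω ^ 2) ≤ v.valuation K (1 - ω) * 1 :=
              mul_le_mul_right h2 _
          _ = _ := mul_one _
      rw [r2, map_mul, map_div₀, map_pow, hvω, h4, one_pow, div_one, one_mul, hγ]

/-- `H` integral with invertible leading coefficient outside `M` -/
theorem uniform_per_S3 (K : Type u) [Field K] [NumberField K] {m : ℕ} (hm2 : 2 ≤ m)
    (M : ℕ) (hM : M ≠ 0) :
    ∃ B : ℕ, ∀ H : K[X], H.natDegree = m → IntAway M (H.leadingCoeff)⁻¹ →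
      (∀ i, IntAway M (H.coeff i)) →
      ∀ c : K, ∀ P : Finset K, (∀ x ∈ P, PerPt (fam 3 H c) x) → P.card ≤ B := by
  classical
  obtain ⟨r, hr3⟩ : ∃ r : ℕ, r = 3 := ⟨3, rfl⟩
  rw [← hr3]
  have hr : 3 ≤ r := hr3.ge
  have hm : 1 ≤ m := by omega
  have hrm1 : 1 ≤ r * m := Nat.mul_pos (by omega) (by omega)
  obtain ⟨n, hn⟩ : ∃ n, r * m = n + 1 := ⟨r * m - 1, by omega⟩
  have hn0 : 0 < n := by
    have : 3 * 1 ≤ r * m := Nat.mul_le_mul hr hm
    omega
  set S : Set (HeightOneSpectrum (𝓞 K)) := {v | v.valuation K ((M : ℕ) : K) ≠ 1} with hSdef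
  have hMK : ((M : ℕ) : K) ≠ 0 := by exact_mod_cast hM
  have hS : S.Finite := finite_nonunit K _ hMK
  obtain ⟨L, i1, i2, i3, hroot, hpow⟩ := exists_ext K n hn0 S hS (cyclotomic r K)
    (cyclotomic_ne_zero r K)
  obtain ⟨ζ0, hζ0'⟩ := hroot (cyclotomic r K) dvd_rfl (by
    rw [natDegree_cyclotomic]
    exact (Nat.totient_pos.mpr (by omega)).ne')
  have hζ0 : IsPrimitiveRoot ζ0 r := by
    have : NeZero (r : L) := ⟨by exact_mod_cast (by omega : r ≠ 0)⟩
    rw [← isRoot_cyclotomic_iff, IsRoot.def, ← map_cyclotomic r (algebraMap K L)]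
    rw [eval_map_algebraMap]
    exact hζ0'
  set φ : K →+* L := algebraMap K L with hφ
  have hφinj : Function.Injective φ := φ.injective
  set S1 : Set (HeightOneSpectrum (𝓞 L)) := {v | v.valuation L ((r * m * M : ℕ) : L) ≠ 1} with hS1
  have hS1f : S1.Finite := finite_nonunit L _ (by
    exact_mod_cast (Nat.mul_ne_zero (by omega) hM))
  have hsplit : ∀ v : HeightOneSpectrum (𝓞 L), v ∉ S1 →
      v.valuation L ((r * m : ℕ) : L) = 1 ∧ v.valuation L ((M : ℕ) : L) = 1 := by
    intro v hv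
    have h1 : v.valuation L ((r * m * M : ℕ) : L) = 1 := by
      by_contra h'
      exact hv h'
    have e : ((r * m * M : ℕ) : L) = ((r * m : ℕ) : L) * ((M : ℕ) : L) := by push_cast; ring
    rw [e, map_mul] at h1
    have hnat : ∀ k : ℕ, IsIntegral ℤ ((k : ℕ) : L) := fun k => by
      have h4 : IsIntegral ℤ (algebraMap ℤ L (k : ℤ)) := isIntegral_algebraMap
      simpa using h4
    have h2 : v.valuation L ((r * m : ℕ) : L) ≤ 1 := val_le_one v (hnat _)
    have h3 : v.valuation L ((M : ℕ) : L) ≤ 1 := val_le_one v (hnat _)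
    constructor
    · refine le_antisymm h2 ?_
      calc (1 : WithZero (Multiplicative ℤ)) =
          v.valuation L ((r * m : ℕ) : L) * v.valuation L ((M : ℕ) : L) := h1.symm
        _ ≤ v.valuation L ((r * m : ℕ) : L) * 1 := mul_le_mul_right h3 _
        _ = _ := mul_one _
    · refine le_antisymm h3 ?_
      calc (1 : WithZero (Multiplicative ℤ)) =
          v.valuation L ((r * m : ℕ) : L) * v.valuation L ((M : ℕ) : L) := h1.symm
        _ ≤ 1 * v.valuation L ((M : ℕ) : L) := mul_le_mul_left h2 _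
        _ = _ := one_mul _
  obtain ⟨B, hB⟩ : ∃ B : ℕ, ∀ H : L[X], H.Monic → H.natDegree = m →
      (∀ v : HeightOneSpectrum (𝓞 L), v ∉ S1 → ∀ i, v.valuation L (H.coeff i) ≤ 1) →
      ∀ c : L, ∀ P : Finset L, (∀ x ∈ P, PerPt (fam r H c) x) → P.card ≤ B := by
    subst hr3
    exact uniform_per_root3 L hm2 hζ0 S1 hS1f (fun v hv => (hsplit v hv).1)
  refine ⟨B, fun H hdeg hlead hcoef c P hP => ?_⟩
  have hH0 : H ≠ 0 := by
    rintro rfl
    rw [natDegree_zero] at hdeg
    omega
  set a : K := H.leadingCoeff with ha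
  have ha0 : a ≠ 0 := leadingCoeff_ne_zero.2 hH0
  have haS : Sel n S a := by
    refine ⟨ha0, fun v hv => ⟨1, ?_⟩⟩
    have hv1 : v.valuation K ((M : ℕ) : K) = 1 := by
      by_contra h'
      exact hv h'
    rw [one_pow]
    have h1 := val_le_one_of_away v hv1 hlead
    have h2 := val_le_one_of_away v hv1 (hcoef m)
    rw [← hdeg] at h2
    change v.valuation K a ≤ 1 at h2
    rw [map_inv₀] at h1
    exact le_antisymm h2 (by
      have h3 : v.valuation K a ≠ 0 := (Valuation.ne_zero_iff _).mpr ha0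
      exact (inv_le_one₀ (zero_lt_iff.2 h3)).1 h1)
  obtain ⟨z, hz⟩ := hpow a haS
  have hφa : φ a ≠ 0 := (_root_.map_ne_zero φ).mpr ha0
  have hz0 : z ≠ 0 := by
    rintro rfl
    rw [zero_pow hn0.ne'] at hz
    exact hφa hz.symm
  -- the conjugate polynomial
  set G : L[X] := C z * (H.map φ).comp (C (z⁻¹ ^ r) * X) with hG
  have hGcoef : ∀ i, G.coeff i = z * φ (H.coeff i) * (z⁻¹ ^ r) ^ i := by
    intro i
    rw [hG, coeff_C_mul, comp_C_mul_X_coeff, coeff_map]
    ring
  have hGdeg : G.natDegree = m := by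
    rw [hG, natDegree_C_mul hz0, natDegree_comp, natDegree_C_mul_X _ (pow_ne_zero _ (inv_ne_zero hz0)),
      mul_one, natDegree_map, hdeg]
  have hGmonic : G.Monic := by
    unfold Monic leadingCoeff
    rw [hGdeg, hGcoef, ← hdeg]
    change z * φ a * (z⁻¹ ^ r) ^ H.natDegree = 1
    rw [hdeg, ← pow_mul, hn, ← hz, inv_pow, pow_succ]
    field_simp
  have hzval : ∀ v : HeightOneSpectrum (𝓞 L), v ∉ S1 → v.valuation L z = 1 := by
    intro v hv
    have h1 := val_le_one_of_away v (hsplit v hv).2 (IntAway.map (L := L) hlead)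
    have h2 := val_le_one_of_away v (hsplit v hv).2 (IntAway.map (L := L) (hcoef m))
    rw [← hdeg] at h2
    change v.valuation L (φ a) ≤ 1 at h2
    change v.valuation L (φ a⁻¹) ≤ 1 at h1
    rw [map_inv₀, map_inv₀] at h1
    have h3 : v.valuation L (φ a) = 1 := le_antisymm h2 (by
      have h3 : v.valuation L (φ a) ≠ 0 := (Valuation.ne_zero_iff _).mpr hφa
      exact (inv_le_one₀ (zero_lt_iff.2 h3)).1 h1)
    have h4 : v.valuation L z ^ n = 1 := by rw [← map_pow, hz]; exact h3
    exact (pow_eq_one_iff_of_nonneg zero_le' hn0.ne').1 h4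
  have hGint : ∀ v : HeightOneSpectrum (𝓞 L), v ∉ S1 → ∀ i, v.valuation L (G.coeff i) ≤ 1 := by
    intro v hv i
    rw [hGcoef, map_mul, map_mul, map_pow, map_pow, map_inv₀, hzval v hv, inv_one, one_pow,
      one_pow, one_mul, mul_one]
    exact val_le_one_of_away v (hsplit v hv).2 (IntAway.map (L := L) (hcoef i))
  have hsemi : Function.Semiconj (fun x : K => z * φ x) (fam r H c) (fam r G (z * φ c)) := by
    intro x
    simp only [fam]
    rw [hG, eval_mul, eval_C, eval_comp, eval_mul, eval_C, eval_X, eval_map, map_add, mul_add]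
    congr 2
    have e : z⁻¹ ^ r * (z * φ x) ^ r = φ (x ^ r) := by
      rw [← mul_pow, ← mul_assoc, inv_mul_cancel₀ hz0, one_mul, map_pow]
    rw [e, eval₂_hom]
  have h1 := hB G hGmonic hGdeg hGint (z * φ c) (P.image fun x : K => z * φ x) (by
    intro y hy
    rw [Finset.mem_image] at hy
    obtain ⟨x, hx, rfl⟩ := hy
    exact PerPt.semiconj hsemi (hP x hx))
  rwa [Finset.card_image_of_injective _ (fun x y hxy => hφinj (mul_left_cancel₀ hz0 hxy))] at h1

end UBC
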