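import Pool.Agent.UBC.FinalAll
import Pool.Agent.UBC.FinalPer3

/-!
# Uniform bound for periodic points of `H(z ^ r) + c`, all `r ≥ 3`, degree at least 4
-/

set_option autoImplicit false

universe u

namespace UBC

open Polynomial

/-- all `r ≥ 3`, `r m ≥ 4` -/
theorem uniform_per_ge3 (K : Type u) [Field K] [NumberField K] {r m : ℕ} (hr : 3 ≤ r)
    (hrm : 4 ≤ r * m) (M : ℕ) (hM : M ≠ 0) :
    ∃ B : ℕ, ∀ H : K[X], H.natDegree = m → IntAway M (H.leadingCoeff)⁻¹ →
      (∀ i, IntAway M (H.coeff i)) →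
      ∀ c : K, ∀ P : Finset K, (∀ x ∈ P, PerPt (fam r H c) x) → P.card ≤ B := by
  have hm : 1 ≤ m := by
    rcases Nat.eq_zero_or_pos m with h | h
    · rw [h] at hrm
      omega
    · exact h
  rcases Nat.lt_or_ge r 4 with h | h
  · obtain rfl : r = 3 := by omega
    exact uniform_per_S3 K (by omega) M hM
  · exact uniform_per_all K h hm M hM

end UBC
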