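import Pool.Agent.UBC.LocSeq

/-!
# Compositions of maps `z ↦ H(z ^ r) + c`
-/

set_option autoImplicit false

namespace UBC

open Polynomial WithZero

/-- the composition of the maps `z ↦ H(z ^ r) + c`, `H` in the list `l` (the first one is applied
first) -/
noncomputable def compF {K : Type*} [Field K] (r : ℕ) (c : K) (l : List K[X]) : K → K :=
  fun z => l.foldl (fun w H => H.eval (w ^ r) + c) z

namespace SeqListAux

variable {K : Type*} [Field K]

/-- the polynomial applied at step `i` -/
noncomputable def Hs (l : List K[X]) (i : ℕ) : K[X] := l.getD (i % l.length) 0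

/-- the orbit -/
noncomputable def sq (r : ℕ) (c : K) (l : List K[X]) (x : K) : ℕ → K
  | 0 => x
  | i + 1 => fam r (Hs l i) c (sq r c l x i)

lemma sq_zero (r : ℕ) (c : K) (l : List K[X]) (x : K) : sq r c l x 0 = x := rfl

lemma sq_succ (r : ℕ) (c : K) (l : List K[X]) (x : K) (i : ℕ) :
    sq r c l x (i + 1) = fam r (Hs l i) c (sq r c l x i) := rfl

lemma Hs_mem {l : List K[X]} (hl : l ≠ []) (i : ℕ) : Hs l i ∈ l := by
  have hpos : 0 < l.length := List.length_pos_iff.2 hl
  have h1 : i % l.length < l.length := Nat.mod_lt _ hpos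
  unfold Hs
  rw [List.getD_eq_getElem _ _ h1]
  exact List.getElem_mem h1

lemma sq_take (r : ℕ) (c : K) (l : List K[X]) (x : K) (i : ℕ) (hi : i ≤ l.length) :
    sq r c l x i = (l.take i).foldl (fun w H => H.eval (w ^ r) + c) x := by
  induction i with
  | zero => simp [sq_zero]
  | succ i ih =>
    have h1 : i < l.length := by omega
    rw [sq_succ, ih h1.le, List.take_add_one, List.foldl_append, List.getElem?_eq_getElem h1]
    have h2 : Hs l i = l[i] := by
      unfold Hs
      rw [Nat.mod_eq_of_lt h1, List.getD_eq_getElem _ _ h1]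
    rw [h2]
    rfl

lemma sq_length (r : ℕ) (c : K) (l : List K[X]) (x : K) :
    sq r c l x l.length = compF r c l x := by
  rw [sq_take r c l x _ le_rfl, List.take_length]
  rfl

lemma sq_add (r : ℕ) (c : K) (l : List K[X]) (x : K) (i : ℕ) :
    sq r c l x (l.length + i) = sq r c l (compF r c l x) i := by
  induction i with
  | zero => rw [add_zero, sq_length, sq_zero]
  | succ i ih =>
    rw [← add_assoc, sq_succ, ih, sq_succ]
    congr 1
    unfold Hs
    rw [Nat.add_mod_left]

lemma sq_add_mul (r : ℕ) (c : K) (l : List K[X]) (k : ℕ) :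
    ∀ (x : K) (i : ℕ), sq r c l x (i + l.length * k) = sq r c l ((compF r c l)^[k] x) i := by
  induction k with
  | zero => intro x i; simp
  | succ k ih =>
    intro x i
    rw [Function.iterate_succ_apply, ← ih, ← sq_add]
    congr 1
    ring

/-- finitely many periodic points have a common period -/
lemma common_period {g : K → K} (P : Finset K) (hP : ∀ x ∈ P, PerPt g x) :
    ∃ k : ℕ, 0 < k ∧ ∀ x ∈ P, g^[k] x = x := by
  classical
  induction P using Finset.induction_on with
  | empty => exact ⟨1, one_pos, by simp⟩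
  | insert a s _ ih =>
    obtain ⟨k, hk, h⟩ := ih fun x hx => hP x (Finset.mem_insert_of_mem hx)
    obtain ⟨l, hl, h'⟩ := hP a (Finset.mem_insert_self a s)
    refine ⟨k * l, Nat.mul_pos hk hl, fun x hx => ?_⟩
    rcases Finset.mem_insert.1 hx with rfl | hx
    · have hx' : Function.IsPeriodicPt g l x := h'
      exact hx'.const_mul k
    · have hx' : Function.IsPeriodicPt g k x := h x hx
      exact hx'.mul_const l

end SeqListAux

open SeqListAux

/-- conditions at the place `v` on the polynomials of the list -/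
def GoodList {K : Type*} [Field K] (v : Valuation K ℤᵐ⁰) (m : ℕ) (l : List K[X]) : Prop :=
  ∀ H ∈ l, H.natDegree = m ∧ (∀ i, v (H.coeff i) ≤ 1) ∧ v H.leadingCoeff = 1

/-- distinct periodic points of a composition: the forms do not vanish -/
theorem form_ne_list {K : Type*} [Field K] {r : ℕ} {c : K} {l : List K[X]} (hl : l ≠ [])
    {x y : K} (hx : PerPt (compF r c l) x) (hy : PerPt (compF r c l) y) (hxy : x ≠ y) {ζ : K}
    (hζ : ζ ^ r = 1) : x - ζ * y ≠ 0 := by
  classical
  have hpos : 0 < l.length := List.length_pos_iff.2 hl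
  obtain ⟨k, hk, h⟩ := common_period (g := compF r c l) {x, y} (by
    intro z hz
    rw [Finset.mem_insert, Finset.mem_singleton] at hz
    rcases hz with rfl | rfl
    · exact hx
    · exact hy)
  have hper : ∀ z ∈ ({x, y} : Finset K), ∀ i, sq r c l z (i + l.length * k) = sq r c l z i := by
    intro z hz i
    rw [sq_add_mul, h z hz]
  exact LocSeqAux.seq_form_ne (H := Hs l) (c := c) (a := sq r c l x) (b := sq r c l y)
    (fun i => sq_succ r c l x i) (fun i => sq_succ r c l y i) (Nat.mul_pos hpos hk)
    (hper x (by simp)) (hper y (by simp)) hxy hζ 0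

/-- distinct periodic points of a composition: quotients of forms are local powers -/
theorem val_forms_list {K : Type*} [Field K] (v : Valuation K ℤᵐ⁰) {r m : ℕ} (hr : 2 ≤ r)
    (hm : 1 ≤ m) (hv : v ((r * m : ℕ) : K) = 1) {ζ0 : K} (hζ0 : IsPrimitiveRoot ζ0 r) {c : K}
    {l : List K[X]} (hl : l ≠ []) (hgood : GoodList v m l) {x y x' y' : K}
    (hx : PerPt (compF r c l) x) (hy : PerPt (compF r c l) y) (hxy : x ≠ y)
    (hx' : PerPt (compF r c l) x') (hy' : PerPt (compF r c l) y') (hxy' : x' ≠ y')
    {ζ ζ' : K} (hζ : ζ ^ r = 1) (hζ1 : ζ ≠ 1) (hζ' : ζ' ^ r = 1) (hζ'1 : ζ' ≠ 1) :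
    ∃ γ : ℤᵐ⁰, v ((x - ζ * y) / (x' - ζ' * y')) = γ ^ (r * m - 1) := by
  classical
  have hpos : 0 < l.length := List.length_pos_iff.2 hl
  obtain ⟨k, hk, h⟩ := common_period (g := compF r c l) {x, y, x', y'} (by
    intro z hz
    simp only [Finset.mem_insert, Finset.mem_singleton] at hz
    rcases hz with rfl | rfl | rfl | rfl
    · exact hx
    · exact hy
    · exact hx'
    · exact hy')
  have hper : ∀ z ∈ ({x, y, x', y'} : Finset K), ∀ i,
      sq r c l z (i + l.length * k) = sq r c l z i := by
    intro z hz i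
    rw [sq_add_mul, h z hz]
  exact val_forms_seq v hr hm hv hζ0 (H := Hs l) (c := c) (L := l.length * k)
    (a := sq r c l x) (b := sq r c l y) (a' := sq r c l x') (b' := sq r c l y')
    (fun i => (hgood _ (Hs_mem hl i)).2.2) (fun i => (hgood _ (Hs_mem hl i)).1)
    (fun i => (hgood _ (Hs_mem hl i)).2.1) (Nat.mul_pos hpos hk)
    (fun i => sq_succ r c l x i) (fun i => sq_succ r c l y i) (hper x (by simp))
    (hper y (by simp)) hxy (fun i => sq_succ r c l x' i) (fun i => sq_succ r c l y' i)
    (hper x' (by simp)) (hper y' (by simp)) hxy' hζ hζ1 hζ' hζ'1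

end UBC
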