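import Pool.Agent.UBC.Tri
import Pool.Agent.UBC.SeqList

/-!
# Uniform bound for periodic points of compositions of triangular maps
-/

set_option autoImplicit false

universe u

namespace UBC

open Height NumberField IsDedekindDomain Polynomial FinalPerAux FinalPerSAux

namespace ListSeq

variable {α β : Type*} (f : α → β → α) (d : β) (l : List β)

/-- the letter used at step `i` -/
def letter (i : ℕ) : β := l.getD (i % l.length) d

/-- the orbit -/
def orb (x : α) : ℕ → α
  | 0 => x
  | i + 1 => f (orb x i) (letter d l i)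

lemma orb_zero (x : α) : orb f d l x 0 = x := rfl

lemma orb_succ (x : α) (i : ℕ) : orb f d l x (i + 1) = f (orb f d l x i) (letter d l i) := rfl

lemma letter_mem {l : List β} (hl : l ≠ []) (i : ℕ) : letter d l i ∈ l := by
  have hpos : 0 < l.length := List.length_pos_iff.2 hl
  have h1 : i % l.length < l.length := Nat.mod_lt _ hpos
  unfold letter
  rw [List.getD_eq_getElem _ _ h1]
  exact List.getElem_mem h1

lemma orb_take (x : α) (i : ℕ) (hi : i ≤ l.length) :
    orb f d l x i = (l.take i).foldl f x := by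
  induction i with
  | zero => simp [orb_zero]
  | succ i ih =>
    have h1 : i < l.length := by omega
    rw [orb_succ, ih h1.le, List.take_add_one, List.foldl_append, List.getElem?_eq_getElem h1]
    have h2 : letter d l i = l[i] := by
      unfold letter
      rw [Nat.mod_eq_of_lt h1, List.getD_eq_getElem _ _ h1]
    rw [h2]
    rfl

lemma orb_length (x : α) : orb f d l x l.length = l.foldl f x := by
  rw [orb_take f d l x _ le_rfl, List.take_length]

lemma orb_add (x : α) (i : ℕ) :
    orb f d l x (l.length + i) = orb f d l (l.foldl f x) i := by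
  induction i with
  | zero => rw [add_zero, orb_length, orb_zero]
  | succ i ih =>
    rw [← add_assoc, orb_succ, ih, orb_succ]
    congr 1
    unfold letter
    rw [Nat.add_mod_left]

lemma orb_add_mul (k : ℕ) :
    ∀ (x : α) (i : ℕ), orb f d l x (i + l.length * k) =
      orb f d l ((fun z => l.foldl f z)^[k] x) i := by
  induction k with
  | zero => intro x i; simp
  | succ k ih =>
    intro x i
    rw [Function.iterate_succ_apply, ← ih, ← orb_add]
    congr 1
    ring

/-- finitely many periodic points have a common period -/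
lemma common_period {g : α → α} (P : Finset α) (hP : ∀ x ∈ P, ∃ k : ℕ, 0 < k ∧ g^[k] x = x) :
    ∃ k : ℕ, 0 < k ∧ ∀ x ∈ P, g^[k] x = x := by
  classical
  induction P using Finset.induction_on with
  | empty => exact ⟨1, one_pos, by simp⟩
  | insert a s _ ih =>
    obtain ⟨k, hk, h⟩ := ih fun x hx => hP x (Finset.mem_insert_of_mem hx)
    obtain ⟨l, hl, h'⟩ := hP a (Finset.mem_insert_self a s)
    refine ⟨k * l, Nat.mul_pos hk hl, fun x hx => ?_⟩
    rcases Finset.mem_insert.1 hx with rfl | hx
    · have hx' : Function.IsPeriodicPt g l x := h'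
      exact hx'.const_mul k
    · have hx' : Function.IsPeriodicPt g k x := h x hx
      exact hx'.mul_const l

end ListSeq

/-- the map with the parameter `c` and the polynomials `P` -/
noncomputable def triMap {K : Type*} [Field K] {N : ℕ} (c : K)
    (P : Fin N → MvPolynomial (Fin (N + 1)) K) (x : Fin N → K) : Fin N → K :=
  fun k => MvPolynomial.eval (Fin.cons c x : Fin (N + 1) → K) (P k)

/-- the condition on the polynomial `P` for the coordinate `k` -/
def TriGood {K : Type*} [Field K] {N : ℕ} (r m M : ℕ) (w : Fin (N + 1) → ℕ) (k : Fin N)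
    (P : MvPolynomial (Fin (N + 1)) K) : Prop :=
  (∀ s, IntAway M (P.coeff s)) ∧
  P.coeff (Finsupp.single k.succ (r * m)) ≠ 0 ∧
  IntAway M (P.coeff (Finsupp.single k.succ (r * m)))⁻¹ ∧
  ∃ D : Fin (N + 1) →₀ ℕ, (∀ j, k.succ ≤ j → D j = 0) ∧ wt w D = r * m * w k.succ ∧
    P.coeff D ≠ 0 ∧ IntAway M (P.coeff D)⁻¹ ∧
    ∀ s ∈ P.support, (∀ j, k.succ < j → s j = 0) ∧ r ∣ s k.succ ∧
      (s = Finsupp.single k.succ (r * m) ∨ s = D ∨ wt w s < r * m * w k.succ)

lemma val_eq_one_of_away {K L : Type*} [Field K] [Field L] [NumberField L] [Algebra K L]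
    (v : HeightOneSpectrum (𝓞 L)) {M : ℕ} (hM : v.valuation L ((M : ℕ) : L) = 1) {a : K}
    (ha0 : a ≠ 0) (ha : IntAway M a) (ha' : IntAway M a⁻¹) :
    v.valuation L (algebraMap K L a) = 1 := by
  have h5 := val_le_one_of_away v hM (IntAway.map (L := L) ha')
  have h6 := val_le_one_of_away v hM (IntAway.map (L := L) ha)
  rw [map_inv₀, map_inv₀] at h5
  have h7 : v.valuation L (algebraMap K L a) ≠ 0 :=
    (Valuation.ne_zero_iff _).mpr ((_root_.map_ne_zero _).mpr ha0)
  exact le_antisymm h6 ((inv_le_one₀ (zero_lt_iff.2 h7)).1 h5)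

/-- transport of points -/
lemma triMap_map {K L : Type*} [Field K] [Field L] (φ : K →+* L) {N : ℕ} (c : K)
    (P : Fin N → MvPolynomial (Fin (N + 1)) K) (x : Fin N → K) :
    (fun k => φ (triMap c P x k)) =
      triMap (φ c) (fun k => MvPolynomial.map φ (P k)) (fun k => φ (x k)) := by
  funext k
  unfold triMap
  have h1 : φ (MvPolynomial.eval (Fin.cons c x : Fin (N + 1) → K) (P k)) =
      MvPolynomial.eval₂ φ (φ ∘ (Fin.cons c x : Fin (N + 1) → K)) (P k) := by
    have h2 := MvPolynomial.eval₂_comp_left φ (RingHom.id K) (Fin.cons c x : Fin (N + 1) → K) (P k)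
    rw [RingHom.comp_id] at h2
    exact h2
  have h3 : φ ∘ (Fin.cons c x : Fin (N + 1) → K) =
      (Fin.cons (φ c) (fun k => φ (x k)) : Fin (N + 1) → L) := by
    funext j
    refine Fin.cases ?_ (fun i => ?_) j
    · simp
    · simp
  rw [MvPolynomial.eval_map, h1, h3]

/-- periodic points of compositions of triangular maps -/
theorem uniform_tri (K : Type u) [Field K] [NumberField K] {r m : ℕ} (hr : 3 ≤ r)
    (hrm : 5 ≤ r * m) (M : ℕ) (hM : M ≠ 0) :
    ∃ B : ℕ, ∀ (N : ℕ) (w : Fin (N + 1) → ℕ) (c : K)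
      (l : List (Fin N → MvPolynomial (Fin (N + 1)) K)), (∀ j, 0 < w j) → l ≠ [] →
      (∀ P ∈ l, ∀ k, TriGood r m M w k (P k)) →
      ∀ Q : Finset (Fin N → K), (∀ x ∈ Q, ∃ k : ℕ, 0 < k ∧
        (fun y : Fin N → K => l.foldl (fun z P => triMap c P z) y)^[k] x = x) →
        Q.card ≤ B ^ N := by
  classical
  obtain ⟨L, i1, i2, i3, hroot, -⟩ := exists_ext K 1 one_pos (∅ : Set (HeightOneSpectrum (𝓞 K)))
    Set.finite_empty (cyclotomic r K) (cyclotomic_ne_zero r K)
  obtain ⟨ζ0, hζ0'⟩ := hroot (cyclotomic r K) dvd_rfl (by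
    rw [natDegree_cyclotomic]
    exact (Nat.totient_pos.mpr (by omega)).ne')
  have hζ0 : IsPrimitiveRoot ζ0 r := by
    have : NeZero (r : L) := ⟨by exact_mod_cast (by omega : r ≠ 0)⟩
    rw [← isRoot_cyclotomic_iff, IsRoot.def, ← map_cyclotomic r (algebraMap K L)]
    rw [eval_map_algebraMap]
    exact hζ0'
  set φ : K →+* L := algebraMap K L with hφ
  have hφinj : Function.Injective φ := φ.injective
  set S1 : Set (HeightOneSpectrum (𝓞 L)) := {v | v.valuation L ((r * m * M : ℕ) : L) ≠ 1} with hS1
  have hS1f : S1.Finite := finite_nonunit L _ (by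
    exact_mod_cast (Nat.mul_ne_zero (by omega) hM))
  have hsplit : ∀ v : HeightOneSpectrum (𝓞 L), v ∉ S1 →
      v.valuation L ((r * m : ℕ) : L) = 1 ∧ v.valuation L ((M : ℕ) : L) = 1 := by
    intro v hv
    have h1 : v.valuation L ((r * m * M : ℕ) : L) = 1 := by
      by_contra h'
      exact hv h'
    have e : ((r * m * M : ℕ) : L) = ((r * m : ℕ) : L) * ((M : ℕ) : L) := by push_cast; ring
    rw [e, map_mul] at h1
    have hnat : ∀ k : ℕ, IsIntegral ℤ ((k : ℕ) : L) := fun k => by
      have h4 : IsIntegral ℤ (algebraMap ℤ L (k : ℤ)) := isIntegral_algebraMap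
      simpa using h4
    have h2 : v.valuation L ((r * m : ℕ) : L) ≤ 1 := val_le_one v (hnat _)
    have h3 : v.valuation L ((M : ℕ) : L) ≤ 1 := val_le_one v (hnat _)
    constructor
    · refine le_antisymm h2 ?_
      calc (1 : WithZero (Multiplicative ℤ)) =
          v.valuation L ((r * m : ℕ) : L) * v.valuation L ((M : ℕ) : L) := h1.symm
        _ ≤ v.valuation L ((r * m : ℕ) : L) * 1 := mul_le_mul_right h3 _
        _ = _ := mul_one _
    · refine le_antisymm h3 ?_
      calc (1 : WithZero (Multiplicative ℤ)) =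
          v.valuation L ((r * m : ℕ) : L) * v.valuation L ((M : ℕ) : L) := h1.symm
        _ ≤ 1 * v.valuation L ((M : ℕ) : L) := mul_le_mul_left h2 _
        _ = _ := one_mul _
  obtain ⟨B, hB⟩ := tri_root L hr hrm hζ0 S1 hS1f fun v hv => (hsplit v hv).1
  refine ⟨B, fun N w c l hw hl hgood Q hQ => ?_⟩
  have hpos : 0 < l.length := List.length_pos_iff.2 hl
  obtain ⟨p, hp, hper⟩ := ListSeq.common_period Q hQ
  -- the letters
  set d : Fin N → MvPolynomial (Fin (N + 1)) K := fun _ => 0 with hd
  have hlet : ∀ i k, TriGood r m M w k (ListSeq.letter d l i k) := fun i k =>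
    hgood _ (ListSeq.letter_mem d hl i) k
  choose h1 h2 h3 D hD1 hD2 hD3 hD4 hD5 using hlet
  set ι : (Fin N → K) → (Fin (N + 1) → L) := fun x => Fin.cons (φ c) (fun k => φ (x k)) with hι
  have hιinj : Function.Injective ι := by
    intro x y hxy
    funext k
    have := congrFun hxy k.succ
    simp only [hι, Fin.cons_succ] at this
    exact hφinj this
  rw [← Finset.card_image_of_injective Q hιinj]
  refine hB N (φ c) w D (fun i k => MvPolynomial.map φ (ListSeq.letter d l i k)) hw ?_ ?_
    (l.length * p) (Nat.mul_pos hpos hp) _ ?_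
  · intro i k
    refine ⟨hD1 i k, hD2 i k, ?_, ?_, ?_⟩
    · rw [MvPolynomial.coeff_map]
      exact (_root_.map_ne_zero φ).mpr (hD3 i k)
    · rw [MvPolynomial.coeff_map]
      exact (_root_.map_ne_zero φ).mpr (h2 i k)
    · intro s hs
      rw [MvPolynomial.support_map_of_injective _ hφinj] at hs
      exact hD5 i k s hs
  · intro v hv
    have hM1 := (hsplit v hv).2
    refine ⟨fun i k s => ?_, fun i k => ?_, fun i k => ?_⟩
    · rw [MvPolynomial.coeff_map]
      exact val_le_one_of_away v hM1 (IntAway.map (L := L) (h1 i k s))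
    · rw [MvPolynomial.coeff_map]
      exact val_eq_one_of_away v hM1 (hD3 i k) (h1 i k _) (hD4 i k)
    · rw [MvPolynomial.coeff_map]
      exact val_eq_one_of_away v hM1 (h2 i k) (h1 i k _) (h3 i k)
  · intro y hy
    obtain ⟨x, hx, rfl⟩ := Finset.mem_image.1 hy
    refine ⟨fun i => ι (ListSeq.orb (fun z P => triMap c P z) d l x i), ?_, ?_, ?_, ?_⟩
    · rfl
    · intro i
      rfl
    · intro i k
      have h4 := congrFun (triMap_map φ c (ListSeq.letter d l i)
        (ListSeq.orb (fun z P => triMap c P z) d l x i)) k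
      exact h4
    · intro i
      change ι (ListSeq.orb (fun z P => triMap c P z) d l x (i + l.length * p)) =
        ι (ListSeq.orb (fun z P => triMap c P z) d l x i)
      rw [ListSeq.orb_add_mul, hper x hx]

end UBC
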