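import Pool.Agent.UBC.CycOdd
import Pool.Agent.UBC.FinalTri

/-!
# Periods of rational periodic points of compositions of maps `P(z) + c`
-/

set_option autoImplicit false

universe u

namespace UBC

open Height NumberField IsDedekindDomain Polynomial WithZero FinalPerAux FinalPerSAux
open LocDomAux (Dom)

/-- composition of the maps `P(z) + c` -/
noncomputable def compP {K : Type*} [Field K] (c : K) (l : List K[X]) (z : K) : K :=
  l.foldl (fun w P => P.eval w + c) z

/-- the conditions on the polynomials -/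
def GoodP {K : Type*} [Field K] (d M : ℕ) (P : K[X]) : Prop :=
  P.natDegree = d ∧ (∀ i, IntAway M (P.coeff i)) ∧ IntAway M P.leadingCoeff⁻¹

/-- the cycle of a periodic point of a composition -/
theorem isCyc_comp {K : Type*} [Field K] (c : K) {l : List K[X]} (hl : l ≠ []) (x : K) {p : ℕ}
    (hp : 0 < p) (hx : Function.minimalPeriod (compP c l) x = p) :
    IsCyc (ListSeq.letter 0 l) (fun _ => c) l.length
      (ListSeq.orb (fun w P => P.eval w + c) 0 l x) p := by
  have hpos : 0 < l.length := List.length_pos_iff.2 hl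
  have hit : ∀ (k i : ℕ), ListSeq.orb (fun w P => P.eval w + c) 0 l x (i + l.length * k) =
      ListSeq.orb (fun w P => P.eval w + c) 0 l ((compP c l)^[k] x) i := fun k i =>
    ListSeq.orb_add_mul (fun w (P : K[X]) => P.eval w + c) 0 l k x i
  refine ⟨hpos, hp, fun i => ?_, fun i => rfl, fun i => ?_, fun i => ?_, fun j hj hjp => ?_⟩
  · unfold ListSeq.letter
    rw [Nat.add_mod_right]
  · rw [ListSeq.orb_succ]
    unfold fam
    rw [pow_one]
  · rw [hit, ← hx, Function.iterate_minimalPeriod]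
  · intro h
    have h1 := hit j 0
    rw [Nat.zero_add] at h1
    rw [h1, ListSeq.orb_zero, ListSeq.orb_zero] at h
    rw [← hx] at hjp
    exact Function.not_isPeriodicPt_of_pos_of_lt_minimalPeriod hj.ne' hjp h

/-- the local condition -/
theorem locPure_comp {K : Type*} [Field K] (v : Valuation K ℤᵐ⁰) {d : ℕ} (c : K) {l : List K[X]}
    (hl : l ≠ []) (hgood : ∀ P ∈ l, P.natDegree = d ∧ (∀ i, v (P.coeff i) ≤ 1) ∧
      v P.leadingCoeff = 1) : LocPure v d (ListSeq.letter 0 l) (fun _ => c) := by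
  refine ⟨v c, fun i => ?_, ?_⟩
  · obtain ⟨h1, h2, h3⟩ := hgood _ (ListSeq.letter_mem 0 hl i)
    exact ⟨h3, h1, fun j _ => Or.inl (h2 j)⟩
  · rcases le_or_gt (v c) 1 with h | h
    · exact Or.inl ⟨h, fun _ => h⟩
    · exact Or.inr ⟨h, fun _ => rfl⟩

/-- places outside `d M` -/
lemma split_places (L : Type u) [Field L] [NumberField L] {d M : ℕ}
    {v : HeightOneSpectrum (𝓞 L)} (h1 : v.valuation L ((d * M : ℕ) : L) = 1) :
    v.valuation L ((d : ℕ) : L) = 1 ∧ v.valuation L ((M : ℕ) : L) = 1 := by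
  have e : ((d * M : ℕ) : L) = ((d : ℕ) : L) * ((M : ℕ) : L) := by push_cast; ring
  rw [e, map_mul] at h1
  have hnat : ∀ k : ℕ, IsIntegral ℤ ((k : ℕ) : L) := fun k => by
    have h4 : IsIntegral ℤ (algebraMap ℤ L (k : ℤ)) := isIntegral_algebraMap
    simpa using h4
  have h2 : v.valuation L ((d : ℕ) : L) ≤ 1 := val_le_one v (hnat _)
  have h3 : v.valuation L ((M : ℕ) : L) ≤ 1 := val_le_one v (hnat _)
  constructor
  · refine le_antisymm h2 ?_
    calc (1 : WithZero (Multiplicative ℤ)) =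
        v.valuation L ((d : ℕ) : L) * v.valuation L ((M : ℕ) : L) := h1.symm
      _ ≤ v.valuation L ((d : ℕ) : L) * 1 := mul_le_mul_right h3 _
      _ = _ := mul_one _
  · refine le_antisymm h3 ?_
    calc (1 : WithZero (Multiplicative ℤ)) =
        v.valuation L ((d : ℕ) : L) * v.valuation L ((M : ℕ) : L) := h1.symm
      _ ≤ 1 * v.valuation L ((M : ℕ) : L) := mul_le_mul_left h2 _
      _ = _ := one_mul _

/-- A bound for cycles gives a bound for the periods of the periodic points of compositions. -/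
theorem period_transfer (K : Type u) [Field K] [NumberField K] {d : ℕ} (hd : 1 ≤ d) (M : ℕ)
    (hM : M ≠ 0) (R : ℕ → ℕ → Prop)
    (hR : ∀ S : Set (HeightOneSpectrum (𝓞 K)), S.Finite →
      (∀ v : HeightOneSpectrum (𝓞 K), v ∉ S → v.valuation K ((d : ℕ) : K) = 1) →
      ∃ B : ℕ, ∀ (H : ℕ → K[X]) (c : ℕ → K),
      (∀ v : HeightOneSpectrum (𝓞 K), v ∉ S → LocPure (v.valuation K) d H c) →
      ∀ (ℓ : ℕ) (a : ℕ → K) (k : ℕ), IsCyc H c ℓ a k → R B k) :
    ∃ B : ℕ, ∀ (c : K) (l : List K[X]), l ≠ [] → (∀ P ∈ l, GoodP d M P) →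
      ∀ x : K, 0 < Function.minimalPeriod (compP c l) x →
        R B (Function.minimalPeriod (compP c l) x) := by
  set S1 : Set (HeightOneSpectrum (𝓞 K)) := {v | v.valuation K ((d * M : ℕ) : K) ≠ 1} with hS1
  have hS1f : S1.Finite := finite_nonunit K _ (by
    exact_mod_cast (Nat.mul_ne_zero (by omega) hM))
  have hsplit : ∀ v : HeightOneSpectrum (𝓞 K), v ∉ S1 →
      v.valuation K ((d : ℕ) : K) = 1 ∧ v.valuation K ((M : ℕ) : K) = 1 := by
    intro v hv
    refine split_places K ?_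
    by_contra h'
    exact hv h'
  obtain ⟨B, hB⟩ := hR S1 hS1f fun v hv => (hsplit v hv).1
  refine ⟨B, fun c l hl hgood x hx => ?_⟩
  refine hB (ListSeq.letter 0 l) (fun _ => c) ?_ l.length
    (ListSeq.orb (fun w P => P.eval w + c) 0 l x) _ (isCyc_comp c hl x hx rfl)
  intro v hv
  refine locPure_comp (v.valuation K) c hl ?_
  intro P hP
  obtain ⟨h1, h2, h3⟩ := hgood P hP
  have hM1 := (hsplit v hv).2
  have hP0 : P.leadingCoeff ≠ 0 := by
    rw [leadingCoeff_ne_zero]
    rintro rfl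
    rw [natDegree_zero] at h1
    omega
  refine ⟨h1, fun i => val_le_one_of_away v hM1 (h2 i), ?_⟩
  have h4 := val_eq_one_of_away (K := K) (L := K) v hM1 hP0 (by
    have := h2 P.natDegree
    rwa [coeff_natDegree] at this) h3
  simpa using h4

/-- the odd part of the period -/
theorem uniform_oddpart (K : Type u) [Field K] [NumberField K] {d : ℕ} (hd : 5 ≤ d) (M : ℕ)
    (hM : M ≠ 0) :
    ∃ B : ℕ, ∀ (c : K) (l : List K[X]), l ≠ [] → (∀ P ∈ l, GoodP d M P) →
      ∀ (x : K) (e m : ℕ), Odd m → Function.minimalPeriod (compP c l) x = 2 ^ e * m → m ≤ B := by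
  obtain ⟨B, hB⟩ := period_transfer K (d := d) (by omega) M hM
    (fun B k => ∀ e m : ℕ, Odd m → k = 2 ^ e * m → m ≤ B) (by
      intro S hS hdS
      obtain ⟨B, hB⟩ := cyc_oddpart K hd S hS hdS
      refine ⟨B, fun H c hp ℓ a k hcyc e m hm hk => ?_⟩
      rw [hk] at hcyc
      exact hB H c hp ℓ a e m hm hcyc)
  refine ⟨B, fun c l hl hgood x e m hm hx => hB c l hl hgood x ?_ e m hm hx⟩
  rw [hx]
  exact Nat.mul_pos (pow_pos two_pos e) hm.pos

end UBC
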