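import Mathlib

/-!
# Counting the points of small period of a polynomial map
-/

set_option autoImplicit false

namespace UBC

open Polynomial

namespace PerCountAux

variable {K : Type*} [Field K]

/-- the polynomial of the composition -/
noncomputable def pol (c : K) (l : List K[X]) (W : K[X]) : K[X] :=
  l.foldl (fun W P => P.comp W + C c) W

lemma eval_pol (c : K) (l : List K[X]) (W : K[X]) (z : K) :
    (pol c l W).eval z = l.foldl (fun w P => P.eval w + c) (W.eval z) := by
  unfold pol
  induction l generalizing W with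
  | nil => rfl
  | cons P l ih =>
    rw [List.foldl_cons, List.foldl_cons, ih, eval_add, eval_comp, eval_C]

lemma natDegree_pol (c : K) (l : List K[X]) (W : K[X]) {d : ℕ} (hl : ∀ P ∈ l, P.natDegree = d) :
    (pol c l W).natDegree = d ^ l.length * W.natDegree := by
  unfold pol
  induction l generalizing W with
  | nil => simp
  | cons P l ih =>
    rw [List.foldl_cons, ih _ (fun Q hQ => hl Q (List.mem_cons_of_mem _ hQ)), natDegree_add_C,
      natDegree_comp, hl P List.mem_cons_self, List.length_cons, pow_succ, mul_assoc]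

/-- the polynomial of the iterate -/
noncomputable def itp (c : K) (l : List K[X]) : ℕ → K[X]
  | 0 => X
  | k + 1 => pol c l (itp c l k)

lemma eval_itp (c : K) (l : List K[X]) (k : ℕ) (z : K) :
    (itp c l k).eval z = (fun y => l.foldl (fun w P => P.eval w + c) y)^[k] z := by
  induction k with
  | zero => simp [itp]
  | succ k ih =>
    rw [Function.iterate_succ_apply', ← ih]
    exact eval_pol c l _ z

lemma natDegree_itp (c : K) (l : List K[X]) {d : ℕ} (hl : ∀ P ∈ l, P.natDegree = d) (k : ℕ) :
    (itp c l k).natDegree = (d ^ l.length) ^ k := by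
  induction k with
  | zero => simp [itp]
  | succ k ih =>
    rw [pow_succ', ← ih]
    exact natDegree_pol c l _ hl

/-- number of points with `F^k x = x` -/
lemma card_fixed (c : K) (l : List K[X]) {d : ℕ} (hd : 2 ≤ d) (hl : ∀ P ∈ l, P.natDegree = d)
    (hne : l ≠ []) {k : ℕ} (hk : 0 < k) :
    {x : K | (fun y => l.foldl (fun w P => P.eval w + c) y)^[k] x = x}.encard ≤
      (((d ^ l.length) ^ k : ℕ) : ℕ∞) := by
  classical
  have hlen : 0 < l.length := List.length_pos_iff.2 hne
  have hdeg : (itp c l k - X).natDegree = (d ^ l.length) ^ k := by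
    rw [← natDegree_itp c l hl k]
    refine natDegree_sub_eq_left_of_natDegree_lt ?_
    rw [natDegree_X, natDegree_itp c l hl k]
    exact one_lt_pow₀ (one_lt_pow₀ (by omega) hlen.ne') hk.ne'
  have h0 : itp c l k - X ≠ 0 := by
    intro h
    rw [h, natDegree_zero] at hdeg
    exact absurd hdeg.symm (pow_ne_zero _ (pow_ne_zero _ (by omega)))
  have hsub : {x : K | (fun y => l.foldl (fun w P => P.eval w + c) y)^[k] x = x} ⊆
      ((itp c l k - X).roots.toFinset : Set K) := by
    intro x hx
    rw [Finset.mem_coe, Multiset.mem_toFinset, mem_roots h0, IsRoot.def, eval_sub, eval_X,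
      eval_itp]
    exact sub_eq_zero.2 hx
  refine (Set.encard_le_encard hsub).trans ?_
  rw [Set.encard_coe_eq_coe_finsetCard]
  have h1 : (itp c l k - X).roots.toFinset.card ≤ (d ^ l.length) ^ k := by
    refine (Multiset.toFinset_card_le _).trans ?_
    rw [← hdeg]
    exact card_roots' _
  exact_mod_cast h1

end PerCountAux

open PerCountAux in
/-- a bound for the periods gives a bound for the number of points -/
theorem card_of_period {K : Type*} [Field K] (c : K) (l : List K[X]) {d : ℕ} (hd : 2 ≤ d)
    (hl : ∀ P ∈ l, P.natDegree = d) (hne : l ≠ []) (B : ℕ) (T : Set K)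
    (hT : ∀ x ∈ T, 0 < Function.minimalPeriod (fun y => l.foldl (fun w P => P.eval w + c) y) x ∧
      Function.minimalPeriod (fun y => l.foldl (fun w P => P.eval w + c) y) x ≤ B) :
    T.encard ≤ (((B + 1) * d ^ B) ^ l.length : ℕ) := by
  classical
  have hlen : 0 < l.length := List.length_pos_iff.2 hne
  set F : K → K := fun y => l.foldl (fun w P => P.eval w + c) y with hF
  have hsub : T ⊆ ⋃ k ∈ Finset.Icc 1 B, {x : K | F^[k] x = x} := by
    intro x hx
    obtain ⟨h1, h2⟩ := hT x hx
    rw [Set.mem_iUnion₂]
    exact ⟨Function.minimalPeriod F x, Finset.mem_Icc.2 ⟨h1, h2⟩,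
      Function.iterate_minimalPeriod⟩
  refine (Set.encard_le_encard hsub).trans ?_
  have h3 : (⋃ k ∈ Finset.Icc 1 B, {x : K | F^[k] x = x}).encard ≤
      ∑ k ∈ Finset.Icc 1 B, {x : K | F^[k] x = x}.encard := by
    induction Finset.Icc 1 B using Finset.induction_on with
    | empty => simp
    | insert a s ha ih =>
      rw [Finset.set_biUnion_insert, Finset.sum_insert ha]
      exact (Set.encard_union_le _ _).trans (add_le_add le_rfl ih)
  refine h3.trans ?_
  have h4 : ∑ k ∈ Finset.Icc 1 B, {x : K | F^[k] x = x}.encard ≤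
      ∑ k ∈ Finset.Icc 1 B, (((d ^ B) ^ l.length : ℕ) : ℕ∞) := by
    refine Finset.sum_le_sum fun k hk => ?_
    rw [Finset.mem_Icc] at hk
    refine (card_fixed c l hd hl hne (by omega)).trans ?_
    have h5 : (d ^ l.length) ^ k ≤ (d ^ B) ^ l.length := by
      rw [← pow_mul, ← pow_mul, mul_comm B]
      exact Nat.pow_le_pow_right (by omega) (Nat.mul_le_mul_left _ hk.2)
    exact_mod_cast h5
  refine h4.trans ?_
  rw [Finset.sum_const, Nat.card_Icc, Nat.add_sub_cancel, nsmul_eq_mul]
  have h6 : B * (d ^ B) ^ l.length ≤ ((B + 1) * d ^ B) ^ l.length := by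
    rw [mul_pow]
    refine Nat.mul_le_mul_right _ ?_
    calc B ≤ B + 1 := by omega
      _ = (B + 1) ^ 1 := (pow_one _).symm
      _ ≤ (B + 1) ^ l.length := Nat.pow_le_pow_right (by omega) hlen
  exact_mod_cast h6

end UBC
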