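import Pool.Agent.UBC.FinalDom

/-!
# Local analysis of the differences in a cycle

No symmetry of the maps is used: `a (i + 1) = H_i (a i) + c_i`.
-/

set_option autoImplicit false

namespace UBC

open WithZero Polynomial LocPerAux LocDomAux

namespace LocCycAux

variable {K : Type*} [Field K]

section

variable (v : Valuation K ℤᵐ⁰) {d : ℕ} (hd : 2 ≤ d) {H : ℕ → K[X]} {g : ℤᵐ⁰} {c : ℕ → K}
  (hdom : ∀ i, Dom v d g (H i)) {a b : ℕ → K}
  (ha : ∀ i, a (i + 1) = fam 1 (H i) (c i) (a i)) (hb : ∀ i, b (i + 1) = fam 1 (H i) (c i) (b i))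
  {L : ℕ} (hL : 0 < L) (haL : ∀ i, a (i + L) = a i) (hbL : ∀ i, b (i + L) = b i)

include hd hdom ha hb hL haL hbL

/-- good places: the distance of two periodic sequences is constant -/
lemma good_const (hc : g ≤ 1) (hc1 : ∀ i, v (c i) ≤ 1) (i : ℕ) :
    v (a i - b i) = v (a 0 - b 0) := by
  have hint : ∀ i j, v ((H i).coeff j) ≤ 1 := fun i j => (hdom i).int (by omega) hc j
  have hva : ∀ i, v (a i) ≤ 1 :=
    seq_le_one v le_rfl (by omega) (by omega) hdom ha hL haL hc hc1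
  have hvb : ∀ i, v (b i) ≤ 1 :=
    seq_le_one v le_rfl (by omega) (by omega) hdom hb hL hbL hc hc1
  have hD : ∀ i, v (a (i + 1) - b (i + 1)) ≤ v (a i - b i) := by
    intro i
    rw [ha, hb, fam_sub (hdom i).2.1, map_mul, pow_one, pow_one]
    calc _ ≤ 1 * v (a i - b i) :=
          mul_le_mul_left (Q_le_one v (hint i) (hva i) (hvb i)) _
      _ = _ := one_mul _
  have hanti : Antitone fun i => v (a i - b i) := antitone_nat_of_succ_le hD
  have h1 : ∀ k i, v (a (i + L * k) - b (i + L * k)) = v (a i - b i) := by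
    intro k
    induction k with
    | zero => intro i; simp
    | succ k ih =>
      intro i
      have e : i + L * (k + 1) = (i + L * k) + L := by ring
      rw [e, haL, hbL, ih]
  refine le_antisymm (hanti (Nat.zero_le i)) ?_
  have h2 := hanti (a := i) (b := 0 + L * i) (by nlinarith)
  simp only at h2
  rwa [h1] at h2

/-- bad places -/
lemma bad_reach (hv : v (d : K) = 1) (hc : 1 < g) (hc1 : ∀ i, v (c i) = g)
    {γ : ℤᵐ⁰} (hγ : γ ^ d = g) (hab : a 0 ≠ b 0) :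
    ∃ e : ℕ, (γ ^ (d - 1)) ^ e * v (a 0 - b 0) = γ := by
  have hγ1 : 1 < γ := by
    by_contra hh
    push Not at hh
    exact absurd (hc.trans_le (hγ ▸ pow_le_one₀ zero_le hh)) (lt_irrefl _)
  have hva : ∀ i, v (a i) = γ := by
    intro i
    have h1 := seq_pow v le_rfl (by omega) (by omega) hdom ha hL haL hc hc1 i
    rw [one_mul, ← hγ] at h1
    exact (pow_left_inj₀ zero_le zero_le (by omega)).1 h1
  have hvb : ∀ i, v (b i) = γ := by
    intro i
    have h1 := seq_pow v le_rfl (by omega) (by omega) hdom hb hL hbL hc hc1 i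
    rw [one_mul, ← hγ] at h1
    exact (pow_left_inj₀ zero_le zero_le (by omega)).1 h1
  have hDle : ∀ i, v (a i - b i) ≤ γ := fun i =>
    (Valuation.map_sub v _ _).trans (max_le (hva i).le (hvb i).le)
  have hstep : ∀ i, v (a i - b i) < γ →
      v (a (i + 1) - b (i + 1)) = γ ^ (d - 1) * v (a i - b i) := by
    intro i hi
    rw [ha, hb, fam_sub (hdom i).2.1, map_mul, pow_one, pow_one,
      Q_dom (hdom i) (by omega) hv hc (hva i) (hvb i) hγ hi]
  have hn1 : 1 < γ ^ (d - 1) := one_lt_pow₀ hγ1 (by omega)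
  have hex : ∃ k, ¬ v (a k - b k) < γ := by
    by_contra hno
    push Not at hno
    have h1 : ∀ k, v (a k - b k) = (γ ^ (d - 1)) ^ k * v (a 0 - b 0) := by
      intro k
      induction k with
      | zero => simp
      | succ k ih => rw [hstep _ (hno k), ih, pow_succ', mul_assoc]
    have h2 := h1 L
    have e1 := haL 0
    have e2 := hbL 0
    rw [Nat.zero_add] at e1 e2
    rw [e1, e2] at h2
    have h3 : v (a 0 - b 0) ≠ 0 := (Valuation.ne_zero_iff v).2 (sub_ne_zero.2 hab)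
    have h4 : (γ ^ (d - 1)) ^ L = 1 := mul_right_cancel₀ h3 (by rw [← h2, one_mul])
    exact absurd h4 (one_lt_pow₀ hn1 hL.ne').ne'
  classical
  refine ⟨Nat.find hex, ?_⟩
  have h1 : ∀ k, k ≤ Nat.find hex → v (a k - b k) = (γ ^ (d - 1)) ^ k * v (a 0 - b 0) := by
    intro k
    induction k with
    | zero => intro _; simp
    | succ k ih =>
      intro hk
      have h2 := Nat.find_min hex (m := k) (by omega)
      rw [not_not] at h2
      rw [hstep _ h2, ih (by omega), pow_succ', mul_assoc]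
  rw [← h1 _ le_rfl]
  exact le_antisymm (hDle _) (not_lt.1 (Nat.find_spec hex))

end

section

variable {d : ℕ} {H : ℕ → K[X]} {c : ℕ → K} {ℓ : ℕ} (hH : ∀ i, H (i + ℓ) = H i)
  (hcc : ∀ i, c (i + ℓ) = c i) {a : ℕ → K}
  (ha : ∀ i, a (i + 1) = fam 1 (H i) (c i) (a i)) {k : ℕ}
  (hak : ∀ i, a (i + ℓ * k) = a i)

include hH hcc in
lemma shift_eq (t i : ℕ) : H (i + ℓ * t) = H i ∧ c (i + ℓ * t) = c i := by
  induction t with
  | zero => simp
  | succ t ih =>
    have e : i + ℓ * (t + 1) = (i + ℓ * t) + ℓ := by ring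
    rw [e, hH, hcc]
    exact ih

include hH hcc ha in
lemma shift_rec (t i : ℕ) : a (i + 1 + ℓ * t) = fam 1 (H i) (c i) (a (i + ℓ * t)) := by
  have e : i + 1 + ℓ * t = (i + ℓ * t) + 1 := by ring
  rw [e, ha, (shift_eq hH hcc t i).1, (shift_eq hH hcc t i).2]

include hak in
lemma shift_per (t i : ℕ) : a (i + ℓ * k + ℓ * t) = a (i + ℓ * t) := by
  have e : i + ℓ * k + ℓ * t = (i + ℓ * t) + ℓ * k := by ring
  rw [e, hak]

include hak in
lemma per_mul (t i : ℕ) : a (i + ℓ * (k * t)) = a i := by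
  induction t with
  | zero => simp
  | succ t ih =>
    have e : i + ℓ * (k * (t + 1)) = (i + ℓ * (k * t)) + ℓ * k := by ring
    rw [e, hak, ih]

include hak in
lemma per_mod (t : ℕ) : a (ℓ * (t % k)) = a (ℓ * t) := by
  have h1 := per_mul hak (t / k) (ℓ * (t % k))
  rw [← h1, ← Nat.mul_add]
  congr 2
  exact Nat.mod_add_div t k

section

variable (v : Valuation K ℤᵐ⁰) (hd : 2 ≤ d) {g : ℤᵐ⁰} (hdom : ∀ i, Dom v d g (H i))
  (hℓ : 0 < ℓ) (hk : 0 < k) (hc : g ≤ 1) (hc1 : ∀ i, v (c i) ≤ 1)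

include hH hcc ha hak hd hdom hℓ hk hc hc1

/-- translation invariance -/
lemma good_shift (m n t : ℕ) :
    v (a (ℓ * (m + t)) - a (ℓ * (n + t))) = v (a (ℓ * m) - a (ℓ * n)) := by
  have h1 : v (a (ℓ * t + ℓ * m) - a (ℓ * t + ℓ * n)) = v (a (0 + ℓ * m) - a (0 + ℓ * n)) :=
    good_const v hd hdom (a := fun i => a (i + ℓ * m)) (b := fun i => a (i + ℓ * n))
    (fun i => shift_rec hH hcc ha m i) (fun i => shift_rec hH hcc ha n i)
    (Nat.mul_pos hℓ hk) (fun i => shift_per hak m i) (fun i => shift_per hak n i) hc hc1 (ℓ * t)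
  have e1 : ℓ * t + ℓ * m = ℓ * (m + t) := by ring
  have e2 : ℓ * t + ℓ * n = ℓ * (n + t) := by ring
  rw [e1, e2, Nat.zero_add, Nat.zero_add] at h1
  exact h1

/-- multiples -/
lemma good_mul (j i : ℕ) :
    v (a (ℓ * (j * i)) - a (ℓ * 0)) ≤ v (a (ℓ * j) - a (ℓ * 0)) := by
  induction i with
  | zero => simp
  | succ i ih =>
    have h1 := good_shift hH hcc ha hak v hd hdom hℓ hk hc hc1 j 0 (j * i)
    have e1 : j + j * i = j * (i + 1) := by ring
    rw [e1, Nat.zero_add] at h1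
    have e2 : a (ℓ * (j * (i + 1))) - a (ℓ * 0) = (a (ℓ * (j * (i + 1))) - a (ℓ * (j * i))) +
        (a (ℓ * (j * i)) - a (ℓ * 0)) := by ring
    rw [e2]
    exact (Valuation.map_add v _ _).trans (max_le h1.le ih)

/-- only the greatest common divisor matters -/
lemma good_gcd (j : ℕ) :
    v (a (ℓ * j) - a (ℓ * 0)) = v (a (ℓ * (Nat.gcd j k)) - a (ℓ * 0)) := by
  refine le_antisymm ?_ ?_
  · obtain ⟨q, hq⟩ := Nat.gcd_dvd_left j k
    have h1 := good_mul hH hcc ha hak v hd hdom hℓ hk hc hc1 (Nat.gcd j k) q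
    rwa [← hq] at h1
  · obtain ⟨i, hi⟩ : ∃ i : ℕ, (j * i) % k = (Nat.gcd j k) % k := by
      rcases (Nat.le_of_dvd hk (Nat.gcd_dvd_right j k)).lt_or_eq with h | h
      · obtain ⟨i, -, hi⟩ := Nat.exists_mul_mod_eq_gcd h
        exact ⟨i, by rw [hi, Nat.mod_eq_of_lt h]⟩
      · refine ⟨0, ?_⟩
        rw [h, Nat.mod_self, mul_zero, Nat.zero_mod]
    have h1 := good_mul hH hcc ha hak v hd hdom hℓ hk hc hc1 j i
    have h2 := per_mod hak (j * i)
    have h3 := per_mod hak (Nat.gcd j k)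
    rw [← h2, hi, h3] at h1
    exact h1

end

end

end LocCycAux

open LocCycAux

/-- Quotients of differences in a cycle: `x t = a (ℓ * t)`, the cycle has length `k`; if the
differences of the indices have the same greatest common divisor with `k`, the quotient is locally
a `(d - 1)`-st power. -/
theorem cyc_val {K : Type*} [Field K] (v : Valuation K ℤᵐ⁰) {d : ℕ} (hd : 2 ≤ d)
    (hv : v (d : K) = 1) {H : ℕ → K[X]} {c : ℕ → K} (hp : LocPure v d H c) {ℓ : ℕ} (hℓ : 0 < ℓ)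
    (hH : ∀ i, H (i + ℓ) = H i) (hcc : ∀ i, c (i + ℓ) = c i) {a : ℕ → K}
    (ha : ∀ i, a (i + 1) = fam 1 (H i) (c i) (a i)) {k : ℕ} (hk : 0 < k)
    (hak : ∀ i, a (i + ℓ * k) = a i) {m n m' n' : ℕ} (hmn : m ≤ n) (hmn' : m' ≤ n')
    (hg : Nat.gcd (n - m) k = Nat.gcd (n' - m') k) (h1 : a (ℓ * m) ≠ a (ℓ * n))
    (h2 : a (ℓ * m') ≠ a (ℓ * n')) :
    ∃ γ : ℤᵐ⁰, v ((a (ℓ * m) - a (ℓ * n)) / (a (ℓ * m') - a (ℓ * n'))) = γ ^ (d - 1) := by
  obtain ⟨g, hdom, hcg⟩ := hp
  have hv2 : v (a (ℓ * m') - a (ℓ * n')) ≠ 0 := (Valuation.ne_zero_iff v).2 (sub_ne_zero.2 h2)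
  rcases hcg with ⟨hc, hc1⟩ | ⟨hc, hc1⟩
  · refine ⟨1, ?_⟩
    have key : ∀ m n : ℕ, m ≤ n → v (a (ℓ * m) - a (ℓ * n)) =
        v (a (ℓ * Nat.gcd (n - m) k) - a (ℓ * 0)) := by
      intro m n hmn
      have e1 := good_shift hH hcc ha hak v hd hdom hℓ hk hc hc1 (n - m) 0 m
      rw [Nat.sub_add_cancel hmn, Nat.zero_add] at e1
      rw [Valuation.map_sub_swap, e1]
      exact good_gcd hH hcc ha hak v hd hdom hℓ hk hc hc1 (n - m)
    rw [map_div₀, key m n hmn, hg, ← key m' n' hmn', div_self hv2, one_pow]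
  · obtain ⟨γ, hγ⟩ : ∃ γ : ℤᵐ⁰, γ ^ d = g := by
      refine ⟨v (a 0), ?_⟩
      have h3 := seq_pow v le_rfl (by omega) (by omega) hdom ha (Nat.mul_pos hℓ hk) hak hc hc1 0
      rwa [one_mul] at h3
    have hγ0 : γ ≠ 0 := by
      rintro rfl
      rw [zero_pow (by omega)] at hγ
      rw [← hγ] at hc
      exact absurd hc (by simp)
    have key : ∀ m n : ℕ, a (ℓ * m) ≠ a (ℓ * n) →
        ∃ e : ℕ, (γ ^ (d - 1)) ^ e * v (a (ℓ * m) - a (ℓ * n)) = γ := by
      intro m n hne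
      have h3 := bad_reach v hd hdom (a := fun i => a (i + ℓ * m)) (b := fun i => a (i + ℓ * n))
        (fun i => shift_rec hH hcc ha m i) (fun i => shift_rec hH hcc ha n i)
        (Nat.mul_pos hℓ hk) (fun i => shift_per hak m i) (fun i => shift_per hak n i) hv hc hc1 hγ
        (by
          change a (0 + ℓ * m) ≠ a (0 + ℓ * n)
          rwa [Nat.zero_add, Nat.zero_add])
      obtain ⟨e, he⟩ := h3
      refine ⟨e, ?_⟩
      have he' : (γ ^ (d - 1)) ^ e * v (a (0 + ℓ * m) - a (0 + ℓ * n)) = γ := he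
      rwa [Nat.zero_add, Nat.zero_add] at he'
    obtain ⟨e, he⟩ := key m n h1
    obtain ⟨e', he'⟩ := key m' n' h2
    refine ⟨γ ^ e' / γ ^ e, ?_⟩
    have hA : (γ ^ (d - 1)) ^ e ≠ 0 := pow_ne_zero _ (pow_ne_zero _ hγ0)
    rw [map_div₀, div_pow, ← pow_mul, ← pow_mul, mul_comm e', mul_comm e, pow_mul, pow_mul,
      div_eq_div_iff hv2 hA, mul_comm, he, he']

end UBC
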