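import Pool.Agent.UBC.FinalCyc
import Pool.Agent.UBC.PerCount
import Pool.Agent.UBV2.CycTwo

/-!
# Periods and numbers of periodic points of compositions of maps `P(z) + c`
-/

set_option autoImplicit false

universe u

namespace UBC

open Height NumberField IsDedekindDomain Polynomial WithZero

/-- the length of a cycle is bounded if the degree is odd, at least seven -/
theorem cyc_all (K : Type u) [Field K] [NumberField K] {d : ℕ} (hd : 7 ≤ d) (hodd : Odd d)
    (S : Set (HeightOneSpectrum (𝓞 K))) (hS : S.Finite)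
    (hdS : ∀ v : HeightOneSpectrum (𝓞 K), v ∉ S → v.valuation K ((d : ℕ) : K) = 1) :
    ∃ B : ℕ, ∀ (H : ℕ → K[X]) (c : ℕ → K),
      (∀ v : HeightOneSpectrum (𝓞 K), v ∉ S → LocPure (v.valuation K) d H c) →
      ∀ (ℓ : ℕ) (a : ℕ → K) (k : ℕ), IsCyc H c ℓ a k → k ≤ B := by
  obtain ⟨B1, hB1⟩ := cyc_oddpart K (d := d) (by omega) S hS hdS
  obtain ⟨B2, hB2⟩ := UBV2.cyc_two K hd hodd S hS hdS
  refine ⟨B2 * B1, fun H c hp ℓ a k hcyc => ?_⟩
  obtain ⟨e, m, hm, hk⟩ := Nat.exists_eq_two_pow_mul_odd hcyc.kpos.ne'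
  rw [hk] at hcyc ⊢
  refine Nat.mul_le_mul ?_ (hB1 H c hp ℓ a e m hm hcyc)
  have h1 : IsCyc H c (ℓ * m) a (2 ^ e) := hcyc.sub (mul_comm _ _)
  refine hB2 H c hp (ℓ * m) h1.lpos h1.hH h1.hc a h1.ha e h1.hak ?_
  intro i j hi hj hij
  by_contra hne
  exact h1.ne' hne hi hj hij

/-- odd degree: the period -/
theorem uniform_period (K : Type u) [Field K] [NumberField K] {d : ℕ} (hd : 7 ≤ d)
    (hodd : Odd d) (M : ℕ) (hM : M ≠ 0) :
    ∃ B : ℕ, ∀ (c : K) (l : List K[X]), l ≠ [] → (∀ P ∈ l, GoodP d M P) →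
      ∀ x : K, Function.minimalPeriod (compP c l) x ≤ B := by
  obtain ⟨B, hB⟩ := period_transfer K (d := d) (by omega) M hM (fun B k => k ≤ B)
    (fun S hS hdS => cyc_all K hd hodd S hS hdS)
  refine ⟨B, fun c l hl hgood x => ?_⟩
  rcases Nat.eq_zero_or_pos (Function.minimalPeriod (compP c l) x) with h | h
  · rw [h]
    exact Nat.zero_le _
  · exact hB c l hl hgood x h

/-- the complete statement -/
theorem uniform_polynomials (K : Type u) [Field K] [NumberField K] {d : ℕ} (hd : 5 ≤ d) (M : ℕ)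
    (hM : M ≠ 0) :
    ∃ B : ℕ, ∀ (c : K) (l : List K[X]), l ≠ [] → (∀ P ∈ l, GoodP d M P) →
      (∀ (x : K) (e m : ℕ), Odd m → Function.minimalPeriod (compP c l) x = 2 ^ e * m → m ≤ B) ∧
      {x : K | Odd (Function.minimalPeriod (compP c l) x)}.encard ≤ ((B ^ l.length : ℕ) : ℕ∞) ∧
      (7 ≤ d → Odd d → (∀ x : K, Function.minimalPeriod (compP c l) x ≤ B) ∧
        {x : K | x ∈ Function.periodicPts (compP c l)}.encard ≤ ((B ^ l.length : ℕ) : ℕ∞)) := by
  obtain ⟨B0, hB0⟩ := uniform_oddpart K hd M hM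
  obtain ⟨B1, hB1⟩ : ∃ B : ℕ, ∀ (c : K) (l : List K[X]), l ≠ [] → (∀ P ∈ l, GoodP d M P) →
      7 ≤ d → Odd d → ∀ x : K, Function.minimalPeriod (compP c l) x ≤ B := by
    by_cases hodd : 7 ≤ d ∧ Odd d
    · obtain ⟨B, hB⟩ := uniform_period K hodd.1 hodd.2 M hM
      exact ⟨B, fun c l hl hg _ _ => hB c l hl hg⟩
    · exact ⟨0, fun c l hl hg h7 h => absurd ⟨h7, h⟩ hodd⟩
  set B : ℕ := B0 + B1 with hBdef
  have hle : B ≤ (B + 1) * d ^ B := by
    calc B ≤ B + 1 := by omega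
      _ = (B + 1) * 1 := (mul_one _).symm
      _ ≤ (B + 1) * d ^ B := Nat.mul_le_mul_left _ (Nat.one_le_pow _ _ (by omega))
  refine ⟨(B + 1) * d ^ B, fun c l hl hgood => ⟨fun x e m hm hx => ?_, ?_, fun h7 hodd =>
    ⟨fun x => ?_, ?_⟩⟩⟩
  · have := hB0 c l hl hgood x e m hm hx
    omega
  · refine card_of_period c l (by omega) (fun P hP => (hgood P hP).1) hl B _ ?_
    intro x hx
    have hx' : Odd (Function.minimalPeriod (compP c l) x) := hx
    have h1 := hB0 c l hl hgood x 0 _ hx' (by rw [pow_zero, one_mul])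
    exact ⟨hx'.pos, show Function.minimalPeriod (compP c l) x ≤ B by omega⟩
  · have := hB1 c l hl hgood h7 hodd x
    omega
  · refine card_of_period c l (by omega) (fun P hP => (hgood P hP).1) hl B _ ?_
    intro x hx
    have hx' : x ∈ Function.periodicPts (compP c l) := hx
    have h1 := hB1 c l hl hgood h7 hodd x
    exact ⟨Function.minimalPeriod_pos_of_mem_periodicPts hx',
      show Function.minimalPeriod (compP c l) x ≤ B by omega⟩

end UBC
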