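import Pool.Agent.UBC.FinalPer
import Pool.Agent.UBC.DynAux

/-!
# Uniform bound for periodic points of `H(z ^ r) + c`, `H` integral outside a fixed integer
-/

set_option autoImplicit false

universe u

namespace UBC

open Height NumberField IsDedekindDomain Polynomial FinalPerAux

/-- `a` becomes integral after multiplication by a power of `M` -/
def IntAway {K : Type*} [Field K] (M : ℕ) (a : K) : Prop :=
  ∃ k : ℕ, IsIntegral ℤ ((M : K) ^ k * a)

namespace FinalPerSAux

theorem val_le_one_of_away {K : Type*} [Field K] [NumberField K] (v : HeightOneSpectrum (𝓞 K))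
    {M : ℕ} (hM : v.valuation K ((M : ℕ) : K) = 1) {a : K} (ha : IntAway M a) :
    v.valuation K a ≤ 1 := by
  obtain ⟨k, hk⟩ := ha
  have h1 := val_le_one v hk
  rwa [map_mul, map_pow, hM, one_pow, one_mul] at h1

theorem IntAway.map {K L : Type*} [Field K] [Field L] [Algebra K L] {M : ℕ} {a : K}
    (ha : IntAway M a) : IntAway M (algebraMap K L a) := by
  obtain ⟨k, hk⟩ := ha
  refine ⟨k, ?_⟩
  have h1 := hk.map (algebraMap K L).toIntAlgHom
  simpa using h1

theorem PerPt.semiconj {K L : Type*} {g : K → K} {g' : L → L} {φ : K → L}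
    (hφ : Function.Semiconj φ g g') {x : K} (hx : PerPt g x) : PerPt g' (φ x) := by
  obtain ⟨k, hk, hkx⟩ := hx
  exact ⟨k, hk, by rw [← (hφ.iterate_right k) x, hkx]⟩

end FinalPerSAux

open FinalPerSAux

/-- the case of a number field with the roots of unity -/
theorem uniform_per_root (K : Type u) [Field K] [NumberField K] {r m : ℕ} (hm : 1 ≤ m)
    (h : Cov r (r * m - 1)) {ζ0 : K} (hζ0 : IsPrimitiveRoot ζ0 r)
    (S : Set (HeightOneSpectrum (𝓞 K))) (hS : S.Finite)
    (hrmS : ∀ v : HeightOneSpectrum (𝓞 K), v ∉ S → v.valuation K ((r * m : ℕ) : K) = 1) :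
    ∃ B : ℕ, ∀ H : K[X], H.Monic → H.natDegree = m →
      (∀ v : HeightOneSpectrum (𝓞 K), v ∉ S → ∀ i, v.valuation K (H.coeff i) ≤ 1) →
      ∀ c : K, ∀ P : Finset K, (∀ x ∈ P, PerPt (fam r H c) x) → P.card ≤ B := by
  classical
  have hr : 4 ≤ r := h.1
  obtain ⟨L, j1, j2, j3, hL⟩ := exists_gap_roots K h hζ0 S hS
  obtain ⟨B, hB⟩ := metric_bound K L _ hL
  refine ⟨B + 1, ?_⟩
  intro H hH hdeg hint c P hP
  have key := hB (P.erase 0) ?_ ?_
  · have h1 : P.card ≤ (P.erase 0).card + 1 := by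
      have := Finset.pred_card_le_card_erase (s := P) (a := (0 : K))
      omega
    omega
  · intro x hx
    exact (Finset.mem_erase.1 hx).1
  · intro X hx Y hy hxy
    have hy0 : Y ≠ 0 := (Finset.mem_erase.1 hy).1
    have hpx := hP X (Finset.mem_erase.1 hx).2
    have hpy := hP Y (Finset.mem_erase.1 hy).2
    change ∀ ζ ζ' : K, ζ ^ r = 1 → ζ ≠ 1 → ζ' ^ r = 1 → ζ' ≠ 1 →
      X / Y ≠ ζ ∧ Sel (r * m - 1) S ((X / Y - ζ) / (X / Y - ζ'))
    intro ζ ζ' hζ hζ1 hζ' hζ'1
    have hne : ∀ ξ : K, ξ ^ r = 1 → ξ ≠ 1 → X - ξ * Y ≠ 0 := by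
      intro ξ hξ _ h0
      have h1 : X = ξ * Y := sub_eq_zero.1 h0
      have h2 : fam r H c X = fam r H c Y := by
        unfold fam
        rw [h1, mul_pow, hξ, one_mul]
      exact hxy (PerPt.inj' hpx hpy h2)
    have e1 : ∀ ξ : K, X / Y - ξ = (X - ξ * Y) / Y := by
      intro ξ
      field_simp
    have e2 : (X / Y - ζ) / (X / Y - ζ') = (X - ζ * Y) / (X - ζ' * Y) := by
      rw [e1, e1, div_div_div_cancel_right₀ hy0]
    refine ⟨fun h0 => ?_, ?_⟩
    · apply hne ζ hζ hζ1
      rw [← h0, div_mul_cancel₀ _ hy0, sub_self]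
    · rw [e2]
      refine ⟨div_ne_zero (hne ζ hζ hζ1) (hne ζ' hζ' hζ'1), fun v hv => ?_⟩
      exact (val_forms_per (v.valuation K) (by omega) hm (hrmS v hv) hζ0 hH hdeg
        (hint v hv) hpx hpy hxy hζ hζ1 hζ' hζ'1).2.2

/-- `H` integral with invertible leading coefficient outside `M` -/
theorem uniform_per_S (K : Type u) [Field K] [NumberField K] {r m : ℕ} (hm : 1 ≤ m)
    (h : Cov r (r * m - 1)) (M : ℕ) (hM : M ≠ 0) :
    ∃ B : ℕ, ∀ H : K[X], H.natDegree = m → IntAway M (H.leadingCoeff)⁻¹ →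
      (∀ i, IntAway M (H.coeff i)) →
      ∀ c : K, ∀ P : Finset K, (∀ x ∈ P, PerPt (fam r H c) x) → P.card ≤ B := by
  classical
  have hr : 4 ≤ r := h.1
  have hrm1 : 1 ≤ r * m := Nat.mul_pos (by omega) (by omega)
  obtain ⟨n, hn⟩ : ∃ n, r * m = n + 1 := ⟨r * m - 1, by omega⟩
  have hn0 : 0 < n := by
    have : 4 * 1 ≤ r * m := Nat.mul_le_mul hr hm
    omega
  set S : Set (HeightOneSpectrum (𝓞 K)) := {v | v.valuation K ((M : ℕ) : K) ≠ 1} with hSdef
  have hMK : ((M : ℕ) : K) ≠ 0 := by exact_mod_cast hM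
  have hS : S.Finite := finite_nonunit K _ hMK
  obtain ⟨L, i1, i2, i3, hroot, hpow⟩ := exists_ext K n hn0 S hS (cyclotomic r K)
    (cyclotomic_ne_zero r K)
  obtain ⟨ζ0, hζ0'⟩ := hroot (cyclotomic r K) dvd_rfl (by
    rw [natDegree_cyclotomic]
    exact (Nat.totient_pos.mpr (by omega)).ne')
  have hζ0 : IsPrimitiveRoot ζ0 r := by
    have : NeZero (r : L) := ⟨by exact_mod_cast (by omega : r ≠ 0)⟩
    rw [← isRoot_cyclotomic_iff, IsRoot.def, ← map_cyclotomic r (algebraMap K L)]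
    rw [eval_map_algebraMap]
    exact hζ0'
  set φ : K →+* L := algebraMap K L with hφ
  have hφinj : Function.Injective φ := φ.injective
  set S1 : Set (HeightOneSpectrum (𝓞 L)) := {v | v.valuation L ((r * m * M : ℕ) : L) ≠ 1} with hS1
  have hS1f : S1.Finite := finite_nonunit L _ (by
    exact_mod_cast (Nat.mul_ne_zero (by omega) hM))
  have hsplit : ∀ v : HeightOneSpectrum (𝓞 L), v ∉ S1 →
      v.valuation L ((r * m : ℕ) : L) = 1 ∧ v.valuation L ((M : ℕ) : L) = 1 := by
    intro v hv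
    have h1 : v.valuation L ((r * m * M : ℕ) : L) = 1 := by
      by_contra h'
      exact hv h'
    have e : ((r * m * M : ℕ) : L) = ((r * m : ℕ) : L) * ((M : ℕ) : L) := by push_cast; ring
    rw [e, map_mul] at h1
    have hnat : ∀ k : ℕ, IsIntegral ℤ ((k : ℕ) : L) := fun k => by
      have h4 : IsIntegral ℤ (algebraMap ℤ L (k : ℤ)) := isIntegral_algebraMap
      simpa using h4
    have h2 : v.valuation L ((r * m : ℕ) : L) ≤ 1 := val_le_one v (hnat _)
    have h3 : v.valuation L ((M : ℕ) : L) ≤ 1 := val_le_one v (hnat _)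
    constructor
    · refine le_antisymm h2 ?_
      calc (1 : WithZero (Multiplicative ℤ)) =
          v.valuation L ((r * m : ℕ) : L) * v.valuation L ((M : ℕ) : L) := h1.symm
        _ ≤ v.valuation L ((r * m : ℕ) : L) * 1 := mul_le_mul_right h3 _
        _ = _ := mul_one _
    · refine le_antisymm h3 ?_
      calc (1 : WithZero (Multiplicative ℤ)) =
          v.valuation L ((r * m : ℕ) : L) * v.valuation L ((M : ℕ) : L) := h1.symm
        _ ≤ 1 * v.valuation L ((M : ℕ) : L) := mul_le_mul_left h2 _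
        _ = _ := one_mul _
  obtain ⟨B, hB⟩ := uniform_per_root L hm h hζ0 S1 hS1f (fun v hv => (hsplit v hv).1)
  refine ⟨B, fun H hdeg hlead hcoef c P hP => ?_⟩
  have hH0 : H ≠ 0 := by
    rintro rfl
    rw [natDegree_zero] at hdeg
    omega
  set a : K := H.leadingCoeff with ha
  have ha0 : a ≠ 0 := leadingCoeff_ne_zero.2 hH0
  have haS : Sel n S a := by
    refine ⟨ha0, fun v hv => ⟨1, ?_⟩⟩
    have hv1 : v.valuation K ((M : ℕ) : K) = 1 := by
      by_contra h'
      exact hv h'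
    rw [one_pow]
    have h1 := val_le_one_of_away v hv1 hlead
    have h2 := val_le_one_of_away v hv1 (hcoef m)
    rw [← hdeg] at h2
    change v.valuation K a ≤ 1 at h2
    rw [map_inv₀] at h1
    exact le_antisymm h2 (by
      have h3 : v.valuation K a ≠ 0 := (Valuation.ne_zero_iff _).mpr ha0
      exact (inv_le_one₀ (zero_lt_iff.2 h3)).1 h1)
  obtain ⟨z, hz⟩ := hpow a haS
  have hφa : φ a ≠ 0 := (_root_.map_ne_zero φ).mpr ha0
  have hz0 : z ≠ 0 := by
    rintro rfl
    rw [zero_pow hn0.ne'] at hz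
    exact hφa hz.symm
  -- the conjugate polynomial
  set G : L[X] := C z * (H.map φ).comp (C (z⁻¹ ^ r) * X) with hG
  have hGcoef : ∀ i, G.coeff i = z * φ (H.coeff i) * (z⁻¹ ^ r) ^ i := by
    intro i
    rw [hG, coeff_C_mul, comp_C_mul_X_coeff, coeff_map]
    ring
  have hGdeg : G.natDegree = m := by
    rw [hG, natDegree_C_mul hz0, natDegree_comp, natDegree_C_mul_X _ (pow_ne_zero _ (inv_ne_zero hz0)),
      mul_one, natDegree_map, hdeg]
  have hGmonic : G.Monic := by
    unfold Monic leadingCoeff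
    rw [hGdeg, hGcoef, ← hdeg]
    change z * φ a * (z⁻¹ ^ r) ^ H.natDegree = 1
    rw [hdeg, ← pow_mul, hn, ← hz, inv_pow, pow_succ]
    field_simp
  have hzval : ∀ v : HeightOneSpectrum (𝓞 L), v ∉ S1 → v.valuation L z = 1 := by
    intro v hv
    have h1 := val_le_one_of_away v (hsplit v hv).2 (IntAway.map (L := L) hlead)
    have h2 := val_le_one_of_away v (hsplit v hv).2 (IntAway.map (L := L) (hcoef m))
    rw [← hdeg] at h2
    change v.valuation L (φ a) ≤ 1 at h2
    change v.valuation L (φ a⁻¹) ≤ 1 at h1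
    rw [map_inv₀, map_inv₀] at h1
    have h3 : v.valuation L (φ a) = 1 := le_antisymm h2 (by
      have h3 : v.valuation L (φ a) ≠ 0 := (Valuation.ne_zero_iff _).mpr hφa
      exact (inv_le_one₀ (zero_lt_iff.2 h3)).1 h1)
    have h4 : v.valuation L z ^ n = 1 := by rw [← map_pow, hz]; exact h3
    exact (pow_eq_one_iff_of_nonneg zero_le' hn0.ne').1 h4
  have hGint : ∀ v : HeightOneSpectrum (𝓞 L), v ∉ S1 → ∀ i, v.valuation L (G.coeff i) ≤ 1 := by
    intro v hv i
    rw [hGcoef, map_mul, map_mul, map_pow, map_pow, map_inv₀, hzval v hv, inv_one, one_pow,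
      one_pow, one_mul, mul_one]
    exact val_le_one_of_away v (hsplit v hv).2 (IntAway.map (L := L) (hcoef i))
  have hsemi : Function.Semiconj (fun x : K => z * φ x) (fam r H c) (fam r G (z * φ c)) := by
    intro x
    simp only [fam]
    rw [hG, eval_mul, eval_C, eval_comp, eval_mul, eval_C, eval_X, eval_map, map_add, mul_add]
    congr 2
    have e : z⁻¹ ^ r * (z * φ x) ^ r = φ (x ^ r) := by
      rw [← mul_pow, ← mul_assoc, inv_mul_cancel₀ hz0, one_mul, map_pow]
    rw [e, eval₂_hom]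
  have h1 := hB G hGmonic hGdeg hGint (z * φ c) (P.image fun x : K => z * φ x) (by
    intro y hy
    rw [Finset.mem_image] at hy
    obtain ⟨x, hx, rfl⟩ := hy
    exact PerPt.semiconj hsemi (hP x hx))
  rwa [Finset.card_image_of_injective _ (fun x y hxy => hφinj (mul_left_cancel₀ hz0 hxy))] at h1

end UBC
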