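import Pool.Agent.UBC.LocDom
import Pool.Agent.UBC.FinalPerS
import Pool.Agent.UBC.Metric3
import Pool.Agent.UBC.FermatGap

/-!
# Uniform bound for periodic sequences of maps `H_i(z ^ r) + c_i`
-/

set_option autoImplicit false

universe u

namespace UBC

open Height NumberField IsDedekindDomain Polynomial FinalPerAux FinalPerSAux Metric3Aux
open LocDomAux (Dom)

/-- `x` is the start of a sequence of period `k` for the maps `z ↦ H_i(z ^ r) + c_i` -/
def SeqPer {K : Type*} [Field K] (r : ℕ) (H : ℕ → K[X]) (c : ℕ → K) (k : ℕ) (x : K) : Prop :=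
  ∃ a : ℕ → K, a 0 = x ∧ (∀ i, a (i + 1) = fam r (H i) (c i) (a i)) ∧ ∀ i, a (i + k) = a i

/-- everything is integral or dominated by the constants, which have the same size -/
def LocPure {K : Type*} [Field K] (v : Valuation K (WithZero (Multiplicative ℤ))) (m : ℕ)
    (H : ℕ → K[X]) (c : ℕ → K) : Prop :=
  ∃ g, (∀ i, Dom v m g (H i)) ∧ (g ≤ 1 ∧ (∀ i, v (c i) ≤ 1) ∨ 1 < g ∧ ∀ i, v (c i) = g)

theorem form_ne_seq {K : Type*} [Field K] {r : ℕ} {H : ℕ → K[X]} {c : ℕ → K} {k : ℕ} (hk : 0 < k)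
    {x y : K} (hx : SeqPer r H c k x) (hy : SeqPer r H c k y) (hxy : x ≠ y) {ζ : K}
    (hζ : ζ ^ r = 1) : x - ζ * y ≠ 0 := by
  obtain ⟨a, rfl, ha, haL⟩ := hx
  obtain ⟨b, rfl, hb, hbL⟩ := hy
  exact LocDomAux.seq_form_ne (H := H) (c := c) ha hb hk haL hbL hxy hζ 0

theorem val_forms_sq {K : Type*} [Field K] (v : Valuation K (WithZero (Multiplicative ℤ)))
    {r m : ℕ} (hr : 2 ≤ r)
    (hm : 1 ≤ m) (hv : v ((r * m : ℕ) : K) = 1) {ζ0 : K} (hζ0 : IsPrimitiveRoot ζ0 r)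
    {H : ℕ → K[X]} {c : ℕ → K} (hdom : LocPure v m H c) {k : ℕ} (hk : 0 < k) {x y x' y' : K}
    (hx : SeqPer r H c k x) (hy : SeqPer r H c k y) (hxy : x ≠ y)
    (hx' : SeqPer r H c k x') (hy' : SeqPer r H c k y') (hxy' : x' ≠ y')
    {ζ ζ' : K} (hζ : ζ ^ r = 1) (hζ1 : ζ ≠ 1) (hζ' : ζ' ^ r = 1) (hζ'1 : ζ' ≠ 1) :
    ∃ γ : WithZero (Multiplicative ℤ), v ((x - ζ * y) / (x' - ζ' * y')) = γ ^ (r * m - 1) := by
  obtain ⟨a, rfl, ha, haL⟩ := hx
  obtain ⟨b, rfl, hb, hbL⟩ := hy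
  obtain ⟨a', rfl, ha', haL'⟩ := hx'
  obtain ⟨b', rfl, hb', hbL'⟩ := hy'
  obtain ⟨g, hdom, hcg⟩ := hdom
  exact val_forms_dom v hr hm hv hζ0 hdom hcg hk ha hb haL hbL hxy ha' hb' haL' hbL' hxy' hζ hζ1
    hζ' hζ'1

/-- the case of a number field with the roots of unity, `r ≥ 4` -/
theorem seqdom_root4 (K : Type u) [Field K] [NumberField K] {r m : ℕ} (hm : 1 ≤ m)
    (h : Cov r (r * m - 1)) {ζ0 : K} (hζ0 : IsPrimitiveRoot ζ0 r)
    (S : Set (HeightOneSpectrum (𝓞 K))) (hS : S.Finite)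
    (hrmS : ∀ v : HeightOneSpectrum (𝓞 K), v ∉ S → v.valuation K ((r * m : ℕ) : K) = 1) :
    ∃ B : ℕ, ∀ (c : ℕ → K) (H : ℕ → K[X]),
      (∀ v : HeightOneSpectrum (𝓞 K), v ∉ S → LocPure (v.valuation K) m H c) →
      ∀ k : ℕ, 0 < k → ∀ P : Finset K, (∀ x ∈ P, SeqPer r H c k x) → P.card ≤ B := by
  classical
  have hr : 4 ≤ r := h.1
  obtain ⟨L, j1, j2, j3, hL⟩ := exists_gap_roots K h hζ0 S hS
  obtain ⟨B, hB⟩ := metric_bound K L _ hL
  refine ⟨B + 1, ?_⟩
  intro c H hgood k hk P hP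
  have key := hB (P.erase 0) ?_ ?_
  · have h1 : P.card ≤ (P.erase 0).card + 1 := by
      have := Finset.pred_card_le_card_erase (s := P) (a := (0 : K))
      omega
    omega
  · intro x hx
    exact (Finset.mem_erase.1 hx).1
  · intro X hx Y hy hxy
    have hy0 : Y ≠ 0 := (Finset.mem_erase.1 hy).1
    have hpx := hP X (Finset.mem_erase.1 hx).2
    have hpy := hP Y (Finset.mem_erase.1 hy).2
    change ∀ ζ ζ' : K, ζ ^ r = 1 → ζ ≠ 1 → ζ' ^ r = 1 → ζ' ≠ 1 →
      X / Y ≠ ζ ∧ Sel (r * m - 1) S ((X / Y - ζ) / (X / Y - ζ'))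
    intro ζ ζ' hζ hζ1 hζ' hζ'1
    have hne : ∀ ξ : K, ξ ^ r = 1 → X - ξ * Y ≠ 0 := fun ξ hξ =>
      form_ne_seq hk hpx hpy hxy hξ
    have e1 : ∀ ξ : K, X / Y - ξ = (X - ξ * Y) / Y := by
      intro ξ
      field_simp
    have e2 : (X / Y - ζ) / (X / Y - ζ') = (X - ζ * Y) / (X - ζ' * Y) := by
      rw [e1, e1, div_div_div_cancel_right₀ hy0]
    refine ⟨fun h0 => ?_, ?_⟩
    · apply hne ζ hζ
      rw [← h0, div_mul_cancel₀ _ hy0, sub_self]
    · rw [e2]
      exact ⟨div_ne_zero (hne ζ hζ) (hne ζ' hζ'), fun v hv =>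
        val_forms_sq (v.valuation K) (by omega) hm (hrmS v hv) hζ0 (hgood v hv) hk
          hpx hpy hxy hpx hpy hxy hζ hζ1 hζ' hζ'1⟩

/-- the case of a number field with the cube roots of unity -/
theorem seqdom_root3 (K : Type u) [Field K] [NumberField K] {m : ℕ} (hm : 2 ≤ m)
    {ω : K} (hprim : IsPrimitiveRoot ω 3) (S : Set (HeightOneSpectrum (𝓞 K))) (hS : S.Finite)
    (hrmS : ∀ v : HeightOneSpectrum (𝓞 K), v ∉ S → v.valuation K ((3 * m : ℕ) : K) = 1) :
    ∃ B : ℕ, ∀ (c : ℕ → K) (H : ℕ → K[X]),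
      (∀ v : HeightOneSpectrum (𝓞 K), v ∉ S → LocPure (v.valuation K) m H c) →
      ∀ k : ℕ, 0 < k → ∀ P : Finset K, (∀ x ∈ P, SeqPer 3 H c k x) → P.card ≤ B := by
  classical
  have hω3 : ω ^ 3 = 1 := hprim.pow_eq_one
  have hω1 : ω ≠ 1 := hprim.ne_one (by norm_num)
  have h1ω : 1 - ω ≠ 0 := sub_ne_zero.2 hω1.symm
  have hω : ω ^ 2 + ω + 1 = 0 := by
    have h1 : (1 - ω) * (ω ^ 2 + ω + 1) = 0 := by linear_combination -hω3
    exact (mul_eq_zero.1 h1).resolve_left h1ω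
  have hω0 : ω ≠ 0 := by
    rintro rfl
    simp at hω
  set e : Fin 3 → K := ![0, -1, -(1 - ω)⁻¹] with he
  have h01 : (0 : K) ≠ -1 := fun h => by
    have h1 : (1 : K) = 0 := by linear_combination h
    exact one_ne_zero h1
  have h02 : (0 : K) ≠ -(1 - ω)⁻¹ := fun h => by
    have h1 : (1 - ω)⁻¹ = 0 := by linear_combination h
    exact inv_ne_zero h1ω h1
  have h12 : (-1 : K) ≠ -(1 - ω)⁻¹ := fun h => by
    have h1 : (1 - ω)⁻¹ = 1 := by linear_combination h
    rw [inv_eq_one] at h1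
    apply hω0
    linear_combination -h1
  have heinj : Function.Injective e := by
    intro i j hij
    match i, j, hij with
    | 0, 0, _ => rfl
    | 0, 1, h => exact absurd h h01
    | 0, 2, h => exact absurd h h02
    | 1, 0, h => exact absurd h h01.symm
    | 1, 1, _ => rfl
    | 1, 2, h => exact absurd h h12
    | 2, 0, h => exact absurd h h02.symm
    | 2, 1, h => exact absurd h h12.symm
    | 2, 2, _ => rfl
  obtain ⟨L, j1, j2, j3, hL⟩ := exists_gap_fermat K (n := 3 * m - 1) (by omega) S hS e heinj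
  obtain ⟨B, hB⟩ := metric3_bound K L hω _ hL
  refine ⟨B + 1, ?_⟩
  intro c H hgood k hk P hP
  have hform : ∀ x ∈ P, ∀ y ∈ P, x ≠ y → x - ω * y ≠ 0 := fun x hx y hy hxy =>
    form_ne_seq hk (hP x hx) (hP y hy) hxy hω3
  have key := hB (P.erase 0) ?_ ?_ ?_
  · have h1 : P.card ≤ (P.erase 0).card + 1 := by
      have := Finset.pred_card_le_card_erase (s := P) (a := (0 : K))
      omega
    omega
  · intro x hx
    exact (Finset.mem_erase.1 hx).1
  · intro x hx y hy hxy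
    exact hform x (Finset.mem_erase.1 hx).2 y (Finset.mem_erase.1 hy).2 hxy
  · intro x hx y hy z hz hxy hyz hxz hsum
    have hx' := (Finset.mem_erase.1 hx).2
    have hy' := (Finset.mem_erase.1 hy).2
    have hz' := (Finset.mem_erase.1 hz).2
    have hU := hform x hx' y hy' hxy
    have hV := hform y hy' z hz' hyz
    have hW := hform z hz' x hx' hxz.symm
    have hcross : ∀ v : HeightOneSpectrum (𝓞 K), v ∉ S → ∀ a ∈ P, ∀ b ∈ P, a ≠ b →
        ∀ a' ∈ P, ∀ b' ∈ P, a' ≠ b' →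
        ∃ γ : WithZero (Multiplicative ℤ),
          v.valuation K ((a - ω * b) / (a' - ω * b')) = γ ^ (3 * m - 1) := by
      intro v hv a ha b hb hab a' ha' b' hb' hab'
      exact val_forms_sq (v.valuation K) (r := 3) (by norm_num) (by omega) (hrmS v hv) hprim
        (hgood v hv) hk (hP a ha) (hP b hb) hab (hP a' ha') (hP b' hb') hab' hω3 hω1 hω3 hω1
    have hsp : sp ω x y z = -(x - ω * y) / ((x - ω * y) + (z - ω * x)) := rfl
    have e0 : e 0 = 0 := rfl
    have e1 : e 1 = -1 := rfl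
    have e2 : e 2 = -(1 - ω)⁻¹ := rfl
    have s0 : sp ω x y z - e 0 = -(x - ω * y) / ((x - ω * y) + (z - ω * x)) := by
      rw [hsp, e0, sub_zero]
    have s1 : sp ω x y z - e 1 = (z - ω * x) / ((x - ω * y) + (z - ω * x)) := by
      rw [hsp, e1, sub_neg_eq_add, div_add_one hsum]
      congr 1
      ring
    have s2 : sp ω x y z - e 2 =
        -(ω ^ 2 * (y - ω * z)) / ((1 - ω) * ((x - ω * y) + (z - ω * x))) := by
      rw [hsp, e2, sub_neg_eq_add, inv_eq_one_div, div_add_div _ _ hsum h1ω,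
        mul_comm (1 - ω) ((x - ω * y) + (z - ω * x))]
      congr 1
      linear_combination -z * hω3
    have n0 : sp ω x y z - e 0 ≠ 0 := by
      rw [s0]
      exact div_ne_zero (neg_ne_zero.2 hU) hsum
    have n1 : sp ω x y z - e 1 ≠ 0 := by
      rw [s1]
      exact div_ne_zero hW hsum
    have n2 : sp ω x y z - e 2 ≠ 0 := by
      rw [s2]
      exact div_ne_zero (neg_ne_zero.2 (mul_ne_zero (pow_ne_zero _ hω0) hV))
        (mul_ne_zero h1ω hsum)
    have r1 : (sp ω x y z - e 1) / (sp ω x y z - e 0) = -((z - ω * x) / (x - ω * y)) := by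
      rw [s0, s1, div_div_div_cancel_right₀ hsum, div_neg]
    have r2 : (sp ω x y z - e 2) / (sp ω x y z - e 0) =
        ω ^ 2 / (1 - ω) * ((y - ω * z) / (x - ω * y)) := by
      rw [s0, s2, div_div_eq_mul_div, div_mul_eq_mul_div, div_div, div_mul_div_comm,
        div_eq_div_iff (mul_ne_zero (mul_ne_zero h1ω hsum) (neg_ne_zero.2 hU))
          (mul_ne_zero h1ω hU)]
      ring
    intro j
    fin_cases j
    · refine ⟨sub_ne_zero.1 n0, div_ne_zero n0 n0, fun v _ => ⟨1, ?_⟩⟩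
      change v.valuation K ((sp ω x y z - e 0) / (sp ω x y z - e 0)) = _
      rw [div_self n0, map_one, one_pow]
    · refine ⟨sub_ne_zero.1 n1, div_ne_zero n1 n0, fun v hv => ?_⟩
      obtain ⟨γ, hγ⟩ := hcross v hv z hz' x hx' hxz.symm x hx' y hy' hxy
      refine ⟨γ, ?_⟩
      change v.valuation K ((sp ω x y z - e 1) / (sp ω x y z - e 0)) = _
      rw [r1, Valuation.map_neg, hγ]
    · refine ⟨sub_ne_zero.1 n2, div_ne_zero n2 n0, fun v hv => ?_⟩
      obtain ⟨γ, hγ⟩ := hcross v hv y hy' z hz' hyz x hx' y hy' hxy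
      refine ⟨γ, ?_⟩
      change v.valuation K ((sp ω x y z - e 2) / (sp ω x y z - e 0)) = _
      have hv3 : v.valuation K (3 : K) = 1 := by
        have h1 := LocPerAux.v_rm (v.valuation K) (hrmS v hv)
        exact_mod_cast h1.1
      have hvω : v.valuation K ω = 1 := LocPerAux.v_zeta (v.valuation K) (by norm_num) hω3
      have hle : ∀ k : ℕ, v.valuation K (1 - ω ^ k) ≤ 1 := fun k => by
        refine (Valuation.map_sub _ _ _).trans (max_le (by rw [map_one]) ?_)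
        rw [map_pow, hvω, one_pow]
      have hprod : (1 - ω ^ 1) * (1 - ω ^ 2) = 3 := by linear_combination hω3 - hω
      have h1 := hle 1
      have h2 := hle 2
      have h3 : v.valuation K (1 - ω ^ 1) * v.valuation K (1 - ω ^ 2) = 1 := by
        rw [← map_mul, hprod, hv3]
      have h4 : v.valuation K (1 - ω) = 1 := by
        rw [pow_one] at h1 h3
        refine le_antisymm h1 ?_
        rw [← h3]
        calc v.valuation K (1 - ω) * v.valuation K (1 - ω ^ 2) ≤ v.valuation K (1 - ω) * 1 :=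
              mul_le_mul_right h2 _
          _ = _ := mul_one _
      rw [r2, map_mul, map_div₀, map_pow, hvω, h4, one_pow, div_one, one_mul, hγ]

/-- `r ≥ 3`, degree of each factor at least 5 -/
theorem seqdom_root (K : Type u) [Field K] [NumberField K] {r m : ℕ} (hr : 3 ≤ r)
    (hrm : 5 ≤ r * m) {ζ0 : K} (hζ0 : IsPrimitiveRoot ζ0 r)
    (S : Set (HeightOneSpectrum (𝓞 K))) (hS : S.Finite)
    (hrmS : ∀ v : HeightOneSpectrum (𝓞 K), v ∉ S → v.valuation K ((r * m : ℕ) : K) = 1) :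
    ∃ B : ℕ, ∀ (c : ℕ → K) (H : ℕ → K[X]),
      (∀ v : HeightOneSpectrum (𝓞 K), v ∉ S → LocPure (v.valuation K) m H c) →
      ∀ k : ℕ, 0 < k → ∀ P : Finset K, (∀ x ∈ P, SeqPer r H c k x) → P.card ≤ B := by
  have hm : 1 ≤ m := by
    rcases Nat.eq_zero_or_pos m with h | h
    · rw [h] at hrm
      omega
    · exact h
  rcases Nat.lt_or_ge r 4 with h | h
  · obtain rfl : r = 3 := by omega
    exact seqdom_root3 K (by omega) hζ0 S hS hrmS
  · refine seqdom_root4 K hm ⟨h, ?_⟩ hζ0 S hS hrmS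
    rcases Nat.lt_or_ge (r * m) 6 with h6 | h6
    · right
      have h7 : m = 1 := by
        by_contra hne
        have h8 : 2 ≤ m := by omega
        have h9 : 4 * 2 ≤ r * m := Nat.mul_le_mul h h8
        omega
      subst h7
      omega
    · left
      omega

end UBC
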