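import Pool.Agent.UBC.Defs

/-!
# Finite sets all of whose ratios have the gap property
-/

set_option autoImplicit false

namespace UBC

open Height NumberField

namespace MetricAux

variable {K L : Type*} [Field K] [Field L] [NumberField L] [Algebra K L]

/-- the distance -/
noncomputable def dst (L : Type*) [Field L] [NumberField L] [Algebra K L] (x y : K) : ℝ :=
  logHeight₁ (algebraMap K L (x / y))

theorem dst_self {x : K} (hx : x ≠ 0) : dst L x x = 0 := by
  unfold dst
  rw [div_self hx, map_one, logHeight₁_one]

theorem dst_symm (x y : K) : dst L x y = dst L y x := by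
  unfold dst
  rw [← inv_div y x, map_inv₀, logHeight₁_inv]

theorem dst_triangle {x y z : K} (hy : y ≠ 0) : dst L x z ≤ dst L x y + dst L y z := by
  unfold dst
  have h : x / z = (x / y) * (y / z) := by
    field_simp
  rw [h, map_mul]
  exact logHeight₁_mul_le _ _

end MetricAux

open MetricAux in
/-- U18. -/
theorem metric_bound (K L : Type*) [Field K] [Field L] [NumberField L] [Algebra K L] (T : Set K)
    (hT : Gap (fun t : K => logHeight₁ (algebraMap K L t)) T) :
    ∃ B : ℕ, ∀ P : Finset K, (∀ x ∈ P, x ≠ 0) → (∀ x ∈ P, ∀ y ∈ P, x ≠ y → x / y ∈ T) →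
      P.card ≤ B := by
  classical
  obtain ⟨N, H0, hN⟩ := hT 2
  set H1 : ℝ := max H0 1 with hH1
  have hH1pos : 0 < H1 := lt_of_lt_of_le one_pos (le_max_right _ _)
  have hfin : {z : L | logHeight₁ z ≤ 2 * H1}.Finite := finite_setOfPred_logHeight₁_le L (2 * H1)
  refine ⟨hfin.toFinset.card + (N + N), fun P hP0 hPT => ?_⟩
  rcases P.eq_empty_or_nonempty with hPe | hPne
  · simp [hPe]
  have hPPne : (P ×ˢ P).Nonempty := hPne.product hPne
  obtain ⟨⟨a, b⟩, hab, hmax⟩ := Finset.exists_max_image (P ×ˢ P)
    (fun p : K × K => dst L p.1 p.2) hPPne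
  rw [Finset.mem_product] at hab
  obtain ⟨ha, hb⟩ := hab
  simp only at ha hb
  have hmax' : ∀ x ∈ P, ∀ y ∈ P, dst L x y ≤ dst L a b := fun x hx y hy =>
    hmax (x, y) (Finset.mem_product.2 ⟨hx, hy⟩)
  have ha0 := hP0 a ha
  have hb0 := hP0 b hb
  by_cases hD : dst L a b / 2 < H1
  · have h1 : P.card ≤ hfin.toFinset.card := by
      refine Finset.card_le_card_of_injOn (fun x => algebraMap K L (x / a)) ?_ ?_
      · intro x hx
        have hx' : x ∈ P := hx
        simp only [Set.Finite.coe_toFinset, Set.mem_ofPred_eq]
        have h2 := hmax' x hx' a ha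
        unfold dst at h2 hD
        linarith
      · intro x hx y hy hxy
        have hxy' : algebraMap K L (x / a) = algebraMap K L (y / a) := hxy
        have h2 := (algebraMap K L).injective hxy'
        exact (div_left_inj' ha0).1 h2
    omega
  · push Not at hD
    have hcov : P ⊆ (P.filter (fun k => dst L a b / 2 ≤ dst L k a)) ∪
        (P.filter (fun k => dst L a b / 2 ≤ dst L k b)) := by
      intro k hk
      have h2 : dst L a b ≤ dst L a k + dst L k b := dst_triangle (hP0 k hk)
      rw [dst_symm a k] at h2
      rw [Finset.mem_union, Finset.mem_filter, Finset.mem_filter]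
      by_cases h3 : dst L a b / 2 ≤ dst L k a
      · exact Or.inl ⟨hk, h3⟩
      · right
        refine ⟨hk, ?_⟩
        push Not at h3
        linarith
    have hpart : ∀ c ∈ P, (P.filter (fun k => dst L a b / 2 ≤ dst L k c)).card ≤ N := by
      intro c hc
      have hc0 := hP0 c hc
      have hinj : Set.InjOn (fun k : K => k / c)
          (P.filter (fun k => dst L a b / 2 ≤ dst L k c) : Finset K) := by
        intro x _ y _ hxy
        exact (div_left_inj' hc0).1 hxy
      rw [← Finset.card_image_of_injOn hinj]
      refine hN (dst L a b / 2) (le_trans (le_max_left _ _) hD) _ ?_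
      intro t ht
      rw [Finset.mem_image] at ht
      obtain ⟨k, hk, rfl⟩ := ht
      rw [Finset.mem_filter] at hk
      obtain ⟨hkP, hk2⟩ := hk
      have hkc : k ≠ c := by
        rintro rfl
        rw [dst_self hc0] at hk2
        linarith
      refine ⟨hPT k hkP c hc hkc, hk2, ?_⟩
      have h4 := hmax' k hkP c hc
      have h5 : (2 : ℝ) * (dst L a b / 2) = dst L a b := by ring
      rw [h5]
      exact h4
    have h6 := (Finset.card_le_card hcov).trans (Finset.card_union_le _ _)
    have h7 := hpart a ha
    have h8 := hpart b hb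
    omega

end UBC
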