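import Pool.Agent.UBC.ExGapSq
import Pool.Agent.UBC.FermatGap
import Pool.Agent.UBC.ExGapFour
import Pool.Agent.UBC.LocPer
import Pool.Agent.UBC.Metric
import Pool.Agent.PowCyc.Selmer

/-!
# Uniform bound for periodic points of `H(z ^ r) + c`
-/

set_option autoImplicit false

universe u

namespace UBC

open Height NumberField IsDedekindDomain Polynomial

/-- the exponents covered: `n = r * m - 1` -/
def Cov (r n : ℕ) : Prop := 4 ≤ r ∧ (5 ≤ n ∨ (n = 4 ∧ 5 ≤ r))

namespace FinalPerAux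

theorem gap_mono {ι : Type*} {h : ι → ℝ} {T T' : Set ι} (hTT : T ⊆ T') (hT' : Gap h T') :
    Gap h T := by
  intro lam
  obtain ⟨N, H0, hN⟩ := hT' lam
  exact ⟨N, H0, fun H hH A hA => hN H hH A fun t ht => ⟨hTT (hA t ht).1, (hA t ht).2⟩⟩

theorem Sel.of_dvd {K : Type*} [Field K] [NumberField K] {n k : ℕ} (h : k ∣ n)
    {S : Set (HeightOneSpectrum (𝓞 K))} {a : K} (ha : Sel n S a) : Sel k S a := by
  refine ⟨ha.1, fun v hv => ?_⟩
  obtain ⟨γ, hγ⟩ := ha.2 v hv
  obtain ⟨j, rfl⟩ := h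
  exact ⟨γ ^ j, by rw [hγ, ← pow_mul, mul_comm]⟩

/-- nontrivial roots of unity -/
theorem roots_inj {K : Type*} [Field K] {r q : ℕ} {ζ0 : K} (hζ0 : IsPrimitiveRoot ζ0 r)
    (hq : q < r) : Function.Injective (fun j : Fin q => ζ0 ^ ((j : ℕ) + 1)) := by
  intro i j hij
  have h1 := hζ0.pow_inj (by omega : (i : ℕ) + 1 < r) (by omega : (j : ℕ) + 1 < r) hij
  exact Fin.ext (by omega)

theorem root_spec {K : Type*} [Field K] {r q : ℕ} {ζ0 : K} (hζ0 : IsPrimitiveRoot ζ0 r)
    (hq : q < r) (j : Fin q) : (ζ0 ^ ((j : ℕ) + 1)) ^ r = 1 ∧ ζ0 ^ ((j : ℕ) + 1) ≠ 1 := by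
  constructor
  · rw [← pow_mul, mul_comm, pow_mul, hζ0.pow_eq_one, one_pow]
  · exact hζ0.pow_ne_one_of_pos_of_lt (by omega) (by omega)

end FinalPerAux

open FinalPerAux

/-- U19a. For a number field `K` containing the `r`-th roots of unity: an extension `L` and a set `T`
of ratios with the gap property -/
theorem exists_gap_roots (K : Type u) [Field K] [NumberField K] {r n : ℕ} (h : Cov r n)
    {ζ0 : K} (hζ0 : IsPrimitiveRoot ζ0 r) (S : Set (HeightOneSpectrum (𝓞 K))) (hS : S.Finite) :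
    ∃ (L : Type u) (_ : Field L) (_ : NumberField L) (_ : Algebra K L),
      Gap (fun t : K => logHeight₁ (algebraMap K L t))
        {t : K | ∀ ζ ζ' : K, ζ ^ r = 1 → ζ ≠ 1 → ζ' ^ r = 1 → ζ' ≠ 1 →
          t ≠ ζ ∧ Sel n S ((t - ζ) / (t - ζ'))} := by
  obtain ⟨hr, h5 | ⟨h4, hr5⟩⟩ := h
  · obtain ⟨L, i1, i2, i3, hL⟩ := exists_gap_fermat K h5 S hS (fun j : Fin 3 => ζ0 ^ ((j : ℕ) + 1))
      (roots_inj hζ0 (by omega))
    refine ⟨L, i1, i2, i3, gap_mono ?_ hL⟩
    intro t ht j
    obtain ⟨a1, a2⟩ := root_spec hζ0 (by omega) j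
    obtain ⟨b1, b2⟩ := root_spec hζ0 (by omega) (0 : Fin 3)
    exact ht _ _ a1 a2 b1 b2
  · subst h4
    obtain ⟨L, i1, i2, i3, hL⟩ := exists_gap_four K S hS (fun j : Fin 4 => ζ0 ^ ((j : ℕ) + 1))
      (roots_inj hζ0 (by omega))
    refine ⟨L, i1, i2, i3, gap_mono ?_ hL⟩
    intro t ht j
    obtain ⟨a1, a2⟩ := root_spec hζ0 (by omega) j
    obtain ⟨b1, b2⟩ := root_spec hζ0 (by omega) (0 : Fin 4)
    exact ht _ _ a1 a2 b1 b2

/-- every number field has a finite extension containing the `r`-th roots of unity -/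
theorem exists_cyclotomic (K : Type u) [Field K] [NumberField K] (r : ℕ) (hr : 1 ≤ r) :
    ∃ (L : Type u) (_ : Field L) (_ : NumberField L) (_ : Algebra K L) (ζ0 : L),
      IsPrimitiveRoot ζ0 r := by
  have hne : NeZero r := ⟨by omega⟩
  have hneK : NeZero ((r : ℕ) : K) := ⟨by exact_mod_cast hne.out⟩
  have hcyc : IsCyclotomicExtension {r} K (CyclotomicField r K) :=
    CyclotomicField.isCyclotomicExtension r K
  have hnf : NumberField (CyclotomicField r K) :=
    IsCyclotomicExtension.numberField {r} K (CyclotomicField r K)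
  exact ⟨CyclotomicField r K, inferInstance, hnf, inferInstance,
    IsCyclotomicExtension.zeta r K (CyclotomicField r K),
    IsCyclotomicExtension.zeta_spec r K (CyclotomicField r K)⟩

namespace FinalPerAux

theorem PerPt.inj {K : Type*} {g : K → K} {x y : K} (hx : PerPt g x) (hy : PerPt g y)
    (h : g x = g y) : x = y := by
  obtain ⟨k, hk, hkx⟩ := hx
  obtain ⟨l, hl, hly⟩ := hy
  have h1 : g^[k * l] x = x := by
    rw [Function.iterate_mul]
    exact Function.iterate_fixed hkx l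
  have h2 : g^[k * l] y = y := by
    rw [mul_comm, Function.iterate_mul]
    exact Function.iterate_fixed hly k
  have hkl : 0 < k * l := Nat.mul_pos hk hl
  obtain ⟨j, hj⟩ : ∃ j, k * l = j + 1 := ⟨k * l - 1, by omega⟩
  rw [hj, Function.iterate_succ_apply] at h1 h2
  rw [← h1, h, h2]

theorem fam_map {K L : Type*} [Field K] [Field L] [Algebra K L] (r : ℕ) (H : K[X]) (c x : K) :
    fam r (H.map (algebraMap K L)) (algebraMap K L c) (algebraMap K L x) =
      algebraMap K L (fam r H c x) := by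
  unfold fam
  rw [map_add, ← map_pow, Polynomial.eval_map_algebraMap, Polynomial.aeval_algebraMap_apply]
  rfl

theorem PerPt.map {K L : Type*} [Field K] [Field L] [Algebra K L] {r : ℕ} {H : K[X]} {c x : K}
    (hx : PerPt (fam r H c) x) :
    PerPt (fam r (H.map (algebraMap K L)) (algebraMap K L c)) (algebraMap K L x) := by
  obtain ⟨k, hk, hkx⟩ := hx
  refine ⟨k, hk, ?_⟩
  have h1 : Function.Semiconj (algebraMap K L) (fam r H c)
      (fam r (H.map (algebraMap K L)) (algebraMap K L c)) := fun x => (fam_map r H c x).symm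
  rw [← (h1.iterate_right k) x, hkx]

theorem val_le_one {K : Type*} [Field K] [NumberField K] (v : HeightOneSpectrum (𝓞 K)) {a : K}
    (ha : IsIntegral ℤ a) : v.valuation K a ≤ 1 :=
  v.valuation_le_one (⟨a, ha⟩ : 𝓞 K)

end FinalPerAux

/-- U19b. -/
theorem uniform_per (K : Type u) [Field K] [NumberField K] {r m : ℕ} (hm : 1 ≤ m)
    (h : Cov r (r * m - 1)) :
    ∃ B : ℕ, ∀ H : K[X], H.Monic → H.natDegree = m → (∀ i, IsIntegral ℤ (H.coeff i)) →
      ∀ c : K, ∀ P : Finset K, (∀ x ∈ P, PerPt (fam r H c) x) → P.card ≤ B := by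
  classical
  have hr : 4 ≤ r := h.1
  obtain ⟨K1, i1, i2, i3, ζ0, hζ0⟩ := exists_cyclotomic K r (by omega)
  have hrm : ((r * m : ℕ) : K1) ≠ 0 := by
    have : r * m ≠ 0 := Nat.mul_ne_zero (by omega) (by omega)
    exact_mod_cast this
  set S : Set (HeightOneSpectrum (𝓞 K1)) := {v | v.valuation K1 ((r * m : ℕ) : K1) ≠ 1} with hSdef
  have hS : S.Finite := finite_nonunit K1 _ hrm
  obtain ⟨L, j1, j2, j3, hL⟩ := exists_gap_roots K1 h hζ0 S hS
  obtain ⟨B, hB⟩ := metric_bound K1 L _ hL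
  refine ⟨B + 1, ?_⟩
  intro H hH hdeg hint c P hP
  set φ : K ↪ K1 := ⟨algebraMap K K1, (algebraMap K K1).injective⟩ with hφ
  have key := hB ((P.erase 0).map φ) ?_ ?_
  · rw [Finset.card_map] at key
    have h1 : P.card ≤ (P.erase 0).card + 1 := by
      have := Finset.pred_card_le_card_erase (s := P) (a := (0 : K))
      omega
    omega
  · intro x hx
    obtain ⟨y, hy, rfl⟩ := Finset.mem_map.1 hx
    intro h0
    apply (Finset.mem_erase.1 hy).1
    exact (algebraMap K K1).injective (by rw [map_zero]; exact h0)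
  · intro x hx y hy hxy
    obtain ⟨x', hx', rfl⟩ := Finset.mem_map.1 hx
    obtain ⟨y', hy', rfl⟩ := Finset.mem_map.1 hy
    have hy0 : algebraMap K K1 y' ≠ 0 := by
      intro h0
      apply (Finset.mem_erase.1 hy').1
      exact (algebraMap K K1).injective (by rw [map_zero]; exact h0)
    have hpx := PerPt.map (L := K1) (hP x' (Finset.mem_erase.1 hx').2)
    have hpy := PerPt.map (L := K1) (hP y' (Finset.mem_erase.1 hy').2)
    have hxy' : algebraMap K K1 x' ≠ algebraMap K K1 y' := hxy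
    change ∀ ζ ζ' : K1, ζ ^ r = 1 → ζ ≠ 1 → ζ' ^ r = 1 → ζ' ≠ 1 →
      algebraMap K K1 x' / algebraMap K K1 y' ≠ ζ ∧
        Sel (r * m - 1) S ((algebraMap K K1 x' / algebraMap K K1 y' - ζ) /
          (algebraMap K K1 x' / algebraMap K K1 y' - ζ'))
    set X := algebraMap K K1 x' with hX
    set Y := algebraMap K K1 y' with hY
    intro ζ ζ' hζ hζ1 hζ' hζ'1
    have hne : ∀ ξ : K1, ξ ^ r = 1 → ξ ≠ 1 → X - ξ * Y ≠ 0 := by
      intro ξ hξ _ h0
      have h1 : X = ξ * Y := sub_eq_zero.1 h0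
      have h2 : fam r (H.map (algebraMap K K1)) (algebraMap K K1 c) X =
          fam r (H.map (algebraMap K K1)) (algebraMap K K1 c) Y := by
        unfold fam
        rw [h1, mul_pow, hξ, one_mul]
      exact hxy' (PerPt.inj hpx hpy h2)
    have e1 : ∀ ξ : K1, X / Y - ξ = (X - ξ * Y) / Y := by
      intro ξ
      field_simp
    have e2 : (X / Y - ζ) / (X / Y - ζ') = (X - ζ * Y) / (X - ζ' * Y) := by
      rw [e1, e1, div_div_div_cancel_right₀ hy0]
    refine ⟨fun h0 => ?_, ?_⟩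
    · apply hne ζ hζ hζ1
      rw [← h0, div_mul_cancel₀ _ hy0, sub_self]
    · rw [e2]
      refine ⟨div_ne_zero (hne ζ hζ hζ1) (hne ζ' hζ' hζ'1), fun v hv => ?_⟩
      have hv1 : v.valuation K1 ((r * m : ℕ) : K1) = 1 := by
        by_contra hcon
        exact hv hcon
      have hdeg' : (H.map (algebraMap K K1)).natDegree = m := by
        rw [Polynomial.natDegree_map, hdeg]
      exact (val_forms_per (v.valuation K1) (by omega) hm hv1 hζ0 (hH.map _) hdeg'
        (fun i => by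
          rw [Polynomial.coeff_map]
          exact val_le_one v ((hint i).map (algebraMap K K1).toIntAlgHom)) hpx hpy hxy'
        hζ hζ1 hζ' hζ'1).2.2

end UBC
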