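import Pool.Agent.UBC.Defs
import Pool.Agent.PowCyc.Structure

/-!
# Heights of preperiodic points of `z ^ d + c`
-/

set_option autoImplicit false

namespace UBC

open Height NumberField PowCyc

variable (L : Type*) [Field L] [NumberField L]

namespace HtPreAux

/-- the additive constant -/
noncomputable def W : ℝ := totalWeight L * Real.log 2

omit [NumberField L] in
variable {L} in
lemma pre_map {d : ℕ} {c x : L} (h : Pre d c x) : Pre d c (f d c x) := by
  unfold Pre at h ⊢
  refine h.subset ?_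
  rintro _ ⟨k, rfl⟩
  exact ⟨k + 1, Function.iterate_succ_apply (f d c) k x⟩

lemma W_nonneg : 0 ≤ W L := by
  unfold W
  positivity

lemma add_le (x y : L) : logHeight₁ (x + y) ≤ W L + logHeight₁ x + logHeight₁ y :=
  logHeight₁_add_le x y

lemma sub_le (x y : L) : logHeight₁ (x - y) ≤ W L + logHeight₁ x + logHeight₁ y :=
  logHeight₁_sub_le x y

lemma height_pre' {d : ℕ} (hd : 2 ≤ d) (c x : L) (hx : Pre d c x) :
    ((d : ℝ) - 1) * logHeight₁ x ≤ logHeight₁ c + W L := by
  have hne : (Set.range fun k : ℕ => (f d c)^[k] x).Nonempty := ⟨_, ⟨0, rfl⟩⟩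
  obtain ⟨z, ⟨k, rfl⟩, hmax⟩ := Set.exists_max_image _ (fun z => logHeight₁ z) hx hne
  have h1 := hmax (f d c ((f d c)^[k] x)) ⟨k + 1, Function.iterate_succ_apply' (f d c) k x⟩
  have h2 := hmax x ⟨0, rfl⟩
  simp only at h1 h2
  set z := (f d c)^[k] x with hz
  have h3 : z ^ d = f d c z - c := by
    unfold f
    ring
  have h4 : (d : ℝ) * logHeight₁ z ≤ W L + logHeight₁ (f d c z) + logHeight₁ c := by
    rw [← logHeight₁_pow, h3]
    exact sub_le L _ _
  have hd1 : (1 : ℝ) ≤ (d : ℝ) - 1 := by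
    have : (2 : ℝ) ≤ d := by exact_mod_cast hd
    linarith
  nlinarith

end HtPreAux

open HtPreAux

/-- U17a. -/
theorem height_pre {d : ℕ} (hd : 2 ≤ d) : ∃ C : ℝ, ∀ c x : L, Pre d c x →
    ((d : ℝ) - 1) * logHeight₁ x ≤ logHeight₁ c + C :=
  ⟨W L, fun c x hx => height_pre' L hd c x hx⟩

/-- U17b. -/
theorem window {d : ℕ} (hd : 5 ≤ d) : ∃ C : ℝ, ∀ c x y : L, Pre d c x → Pre d c y → y ≠ 0 →
    x ^ d ≠ y ^ d →
    ((d : ℝ) - 4) * logHeight₁ c - C ≤ (d : ℝ) * ((d : ℝ) - 1) * logHeight₁ (x / y) ∧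
    ((d : ℝ) - 1) * logHeight₁ (x / y) ≤ 2 * logHeight₁ c + C := by
  have hW := W_nonneg L
  have hd5 : (5 : ℝ) ≤ d := by exact_mod_cast hd
  refine ⟨3 * W L * ((d : ℝ) - 1) + 3 * W L, ?_⟩
  intro c x y hx hy hy0 hxy
  have hpx := height_pre' L (by omega) c x hx
  have hpy := height_pre' L (by omega) c y hy
  have hfx := height_pre' L (by omega) c (f d c x) (pre_map hx)
  have hfy := height_pre' L (by omega) c (f d c y) (pre_map hy)
  have ht : (x / y) ^ d - 1 ≠ 0 := by
    rw [div_pow, sub_ne_zero]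
    intro h
    exact hxy ((div_eq_one_iff_eq (pow_ne_zero _ hy0)).1 h)
  have h1 : logHeight₁ c ≤ W L + logHeight₁ (f d c y) + d * logHeight₁ y := by
    have e : c = f d c y - y ^ d := by unfold f; ring
    calc logHeight₁ c = logHeight₁ (f d c y - y ^ d) := by rw [← e]
      _ ≤ W L + logHeight₁ (f d c y) + logHeight₁ (y ^ d) := sub_le L _ _
      _ = _ := by rw [logHeight₁_pow]
  have h2 : (d : ℝ) * logHeight₁ y ≤ (W L + logHeight₁ (f d c x) + logHeight₁ (f d c y)) +
      (W L + d * logHeight₁ (x / y)) := by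
    have e : y ^ d = (f d c x - f d c y) * ((x / y) ^ d - 1)⁻¹ := by
      rw [eq_mul_inv_iff_mul_eq₀ ht, div_pow, mul_sub, mul_div_cancel₀ _ (pow_ne_zero _ hy0)]
      unfold f
      ring
    rw [← logHeight₁_pow, e]
    refine (logHeight₁_mul_le _ _).trans ?_
    refine add_le_add (sub_le L _ _) ?_
    rw [logHeight₁_inv]
    refine (sub_le L _ _).trans ?_
    rw [logHeight₁_pow, logHeight₁_one]
    linarith
  constructor
  · have h3 : logHeight₁ c ≤ 3 * W L + logHeight₁ (f d c x) + 2 * logHeight₁ (f d c y) +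
        d * logHeight₁ (x / y) := by linarith
    have h4 : ((d : ℝ) - 1) * logHeight₁ c ≤ ((d : ℝ) - 1) * (3 * W L + logHeight₁ (f d c x) +
        2 * logHeight₁ (f d c y) + d * logHeight₁ (x / y)) :=
      mul_le_mul_of_nonneg_left h3 (by linarith)
    nlinarith
  · have h5 : logHeight₁ (x / y) ≤ logHeight₁ x + logHeight₁ y := by
      rw [div_eq_mul_inv]
      refine (logHeight₁_mul_le _ _).trans ?_
      rw [logHeight₁_inv]
    have h6 : ((d : ℝ) - 1) * logHeight₁ (x / y) ≤ ((d : ℝ) - 1) * (logHeight₁ x + logHeight₁ y) :=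
      mul_le_mul_of_nonneg_left h5 (by linarith)
    nlinarith

/-- U17c. -/
theorem zero_pre {d : ℕ} (hd : 3 ≤ d) : ∃ C : ℝ, ∀ c : L, Pre d c 0 → logHeight₁ c ≤ C := by
  refine ⟨W L, ?_⟩
  intro c hc
  have h := height_pre' L (by omega) c (f d c 0) (pre_map hc)
  have e : f d c 0 = c := by
    unfold f
    rw [zero_pow (by omega), zero_add]
  rw [e] at h
  have h0 := zero_le_logHeight₁ c
  have hd3 : (3 : ℝ) ≤ d := by exact_mod_cast hd
  nlinarith

end UBC
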