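import Pool.Agent.UBC.Defs
import Pool.Agent.PowCyc.Local
import Pool.Agent.PowCyc.Structure

/-!
# Local analysis of the linear forms at preperiodic points of `z ^ d + c`
-/

set_option autoImplicit false

namespace UBC

open WithZero PowCyc

namespace LocTailAux

variable {K : Type*} [Field K] (v : Valuation K ℤᵐ⁰) {d : ℕ}

lemma pre_iter {c w : K} (hw : Pre d c w) (k : ℕ) : Pre d c ((f d c)^[k] w) := by
  induction k with
  | zero => exact hw
  | succ k ih =>
    rw [Function.iterate_succ_apply']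
    exact Loc_Pre_f ih

lemma val_root (hd : 2 ≤ d) {ζ : K} (hζ : ζ ^ d = 1) : v ζ = 1 := by
  have h1 : v ζ ^ d = 1 ^ d := by rw [← map_pow, hζ, map_one, one_pow]
  exact (pow_left_inj₀ zero_le zero_le (by omega)).1 h1

lemma val_pow_sub_le {a b : K} (ha : v a ≤ 1) (hb : v b ≤ 1) (m : ℕ) :
    v (a ^ m - b ^ m) ≤ v (a - b) := by
  have h1 : a ^ m - b ^ m = (∑ i ∈ Finset.range m, a ^ i * b ^ (m - 1 - i)) * (a - b) :=
    ((Commute.all a b).geom_sum₂_mul m).symm
  rw [h1, map_mul]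
  have h2 : v (∑ i ∈ Finset.range m, a ^ i * b ^ (m - 1 - i)) ≤ 1 := by
    refine Valuation.map_sum_le v fun j _ => ?_
    rw [map_mul, map_pow, map_pow]
    exact mul_le_one' (pow_le_one₀ zero_le ha) (pow_le_one₀ zero_le hb)
  calc _ ≤ 1 * v (a - b) := mul_le_mul_left h2 _
    _ = v (a - b) := one_mul _

lemma val_G_le {a b : K} (ha : v a ≤ 1) (hb : v b ≤ 1) : v (G d a b) ≤ 1 := by
  unfold G
  refine Valuation.map_sum_le v fun j _ => ?_
  rw [map_mul, map_pow, map_pow]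
  exact mul_le_one' (pow_le_one₀ zero_le ha) (pow_le_one₀ zero_le hb)

lemma f_root {c w x ζ : K} (hζ : ζ ^ d = 1) :
    f d c w - f d c x = G d w (ζ * x) * (w - ζ * x) := by
  rw [G_mul, mul_pow, hζ, one_mul]
  unfold f
  ring

/-- if the images differ by a unit, all forms are units -/
lemma unit_step (hd : 2 ≤ d) {c w x : K} (hc : v c ≤ 1) (hw : Pre d c w) (hx : Pre d c x)
    (h : v (f d c w - f d c x) = 1) {ζ : K} (hζ : ζ ^ d = 1) : v (w - ζ * x) = 1 := by
  have hw1 := hw.val_le_one v hd hc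
  have hx1 := hx.val_le_one v hd hc
  have hζx : v (ζ * x) ≤ 1 := by rw [map_mul, val_root v hd hζ, one_mul]; exact hx1
  rw [f_root hζ, map_mul] at h
  have h1 : v (G d w (ζ * x)) ≤ 1 := val_G_le v hw1 hζx
  have h2 : v (w - ζ * x) ≤ 1 := (v.map_sub _ _).trans (max_le hw1 hζx)
  refine le_antisymm h2 ?_
  calc (1 : ℤᵐ⁰) = v (G d w (ζ * x)) * v (w - ζ * x) := h.symm
    _ ≤ 1 * v (w - ζ * x) := mul_le_mul_left h1 _
    _ = v (w - ζ * x) := one_mul _

lemma unit_all (hd : 2 ≤ d) {c : K} (hc : v c ≤ 1) : ∀ (k : ℕ) (w x : K), Pre d c w → Pre d c x →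
    v ((f d c)^[k] w - (f d c)^[k] x) = 1 → v (w - x) = 1 := by
  intro k
  induction k with
  | zero => intro w x _ _ h; exact h
  | succ k ih =>
    intro w x hw hx h
    rw [Function.iterate_succ_apply, Function.iterate_succ_apply] at h
    have h1 := ih _ _ (Loc_Pre_f hw) (Loc_Pre_f hx) h
    have h2 := unit_step v hd hc hw hx h1 (one_pow d)
    rwa [one_mul] at h2

lemma unit_forms (hd : 2 ≤ d) {c w x : K} (hc : v c ≤ 1) (hw : Pre d c w) (hx : Pre d c x)
    {k : ℕ} (hk : 1 ≤ k) (h : v ((f d c)^[k] w - (f d c)^[k] x) = 1) {ζ : K} (hζ : ζ ^ d = 1) :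
    v (w - ζ * x) = 1 := by
  obtain ⟨k, rfl⟩ : ∃ m, k = m + 1 := ⟨k - 1, by omega⟩
  rw [Function.iterate_succ_apply, Function.iterate_succ_apply] at h
  exact unit_step v hd hc hw hx (unit_all v hd hc k _ _ (Loc_Pre_f hw) (Loc_Pre_f hx) h) hζ

/-- the common value of the preperiodic points -/
lemma exists_g (hd : 2 ≤ d) {c x : K} (hx : Pre d c x) (hc : 1 < v c) :
    1 < v x ∧ ∀ z, Pre d c z → v z = v x := by
  have hγc : v x ^ d = v c := hx.val_pow v hd hc
  refine ⟨?_, fun z hz => ?_⟩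
  · by_contra hh
    push Not at hh
    exact absurd (hc.trans_le (hγc ▸ pow_le_one₀ zero_le hh)) (lt_irrefl _)
  · have h1 := hz.val_pow v hd hc
    rw [← hγc] at h1
    exact (pow_left_inj₀ zero_le zero_le (by omega)).1 h1

lemma big_step (hd : 2 ≤ d) (hv : v (d : K) = 1) {c w x : K} (hw : Pre d c w) (hx : Pre d c x)
    (hc : 1 < v c) {ζ : K} (hζ : ζ ^ d = 1) (h : v (w - ζ * x) < v x) :
    v (f d c w - f d c x) = v x ^ (d - 1) * v (w - ζ * x) := by
  obtain ⟨hg1, hg⟩ := exists_g v hd hx hc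
  rw [f_root hζ, map_mul, Loc_close v hd hv (hg w hw) (zero_lt_one.trans hg1).ne' h]

lemma form_le (hd : 2 ≤ d) {c w x : K} (hw : Pre d c w) (hx : Pre d c x)
    (hc : 1 < v c) {ζ : K} (hζ : ζ ^ d = 1) : v (w - ζ * x) ≤ v x := by
  obtain ⟨_, hg⟩ := exists_g v hd hx hc
  refine (v.map_sub _ _).trans (max_le (hg w hw).le ?_)
  rw [map_mul, val_root v hd hζ, one_mul]

lemma big_all (hd : 2 ≤ d) (hv : v (d : K) = 1) {c : K} (hc : 1 < v c) (g : ℤᵐ⁰) :
    ∀ (j : ℕ) (w x : K), Pre d c w → Pre d c x → v x = g →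
    v ((f d c)^[j] w - (f d c)^[j] x) = g → ∃ a : ℕ, (g ^ (d - 1)) ^ a * v (w - x) = g := by
  intro j
  induction j with
  | zero => intro w x _ _ _ h; exact ⟨0, by simpa using h⟩
  | succ j ih =>
    intro w x hw hx hxg h
    rw [Function.iterate_succ_apply, Function.iterate_succ_apply] at h
    have hfx : v (f d c x) = g := by
      rw [← hxg]
      exact (exists_g v hd hx hc).2 _ (Loc_Pre_f hx)
    obtain ⟨a, ha⟩ := ih _ _ (Loc_Pre_f hw) (Loc_Pre_f hx) hfx h
    have hle := form_le v hd hw hx hc (one_pow d)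
    rw [one_mul] at hle
    rcases hle.lt_or_eq with h1 | h1
    · have h2 := big_step v hd hv hw hx hc (one_pow d) (by rw [one_mul]; exact h1)
      rw [one_mul] at h2
      rw [h2, hxg] at ha
      exact ⟨a + 1, by rw [pow_succ, mul_assoc]; exact ha⟩
    · exact ⟨0, by rw [pow_zero, one_mul, h1, hxg]⟩

lemma big_forms (hd : 2 ≤ d) (hv : v (d : K) = 1) {c w x : K} (hc : 1 < v c) (hw : Pre d c w)
    (hx : Pre d c x) {j : ℕ} (hj : 1 ≤ j)
    (h : v ((f d c)^[j] w - (f d c)^[j] x) = v x) {ζ : K} (hζ : ζ ^ d = 1) :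
    ∃ γ : ℤᵐ⁰, γ ≠ 0 ∧ v (w - ζ * x) = v x * γ ^ (d - 1) := by
  obtain ⟨hg1, hg⟩ := exists_g v hd hx hc
  have hg0 : v x ≠ 0 := (zero_lt_one.trans hg1).ne'
  obtain ⟨j, rfl⟩ : ∃ m, j = m + 1 := ⟨j - 1, by omega⟩
  rw [Function.iterate_succ_apply, Function.iterate_succ_apply] at h
  obtain ⟨a, ha⟩ := big_all v hd hv hc (v x) j _ _ (Loc_Pre_f hw) (Loc_Pre_f hx)
    (hg _ (Loc_Pre_f hx)) h
  rcases (form_le v hd hw hx hc hζ).lt_or_eq with h1 | h1
  · have h2 := big_step v hd hv hw hx hc hζ h1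
    rw [h2] at ha
    refine ⟨(v x ^ (a + 1))⁻¹, inv_ne_zero (pow_ne_zero _ hg0), ?_⟩
    have hne : (v x ^ (a + 1)) ^ (d - 1) ≠ 0 := pow_ne_zero _ (pow_ne_zero _ hg0)
    rw [inv_pow, eq_mul_inv_iff_mul_eq₀ hne]
    have e1 : (v x ^ (a + 1)) ^ (d - 1) = (v x ^ (d - 1)) ^ a * v x ^ (d - 1) := by
      rw [← pow_succ, ← pow_mul, ← pow_mul, mul_comm]
    rw [e1, mul_comm, mul_assoc]
    exact ha
  · exact ⟨1, one_ne_zero, by rw [one_pow, mul_one, h1]⟩

/-- never meeting points have maximal distance infinitely often -/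
lemma exists_far (hd : 2 ≤ d) (hv : v (d : K) = 1) {c w x : K} (hc : 1 < v c) (hw : Pre d c w)
    (hx : Pre d c x) (hne : ∀ k : ℕ, (f d c)^[k] w ≠ (f d c)^[k] x) :
    ∃ j : ℕ, 1 ≤ j ∧ v ((f d c)^[j] w - (f d c)^[j] x) = v x := by
  obtain ⟨hg1, hg⟩ := exists_g v hd hx hc
  by_contra hcon
  push Not at hcon
  have hlt : ∀ j, v ((f d c)^[j + 1] w - (f d c)^[j + 1] x) < v x := by
    intro j
    have h1 := form_le v hd (pre_iter hw (j + 1)) (pre_iter hx (j + 1)) hc (one_pow d)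
    rw [one_mul, hg _ (pre_iter hx (j + 1))] at h1
    exact lt_of_le_of_ne h1 (hcon (j + 1) (by omega))
  have hmono : StrictMono fun j : ℕ => v ((f d c)^[j + 1] w - (f d c)^[j + 1] x) := by
    apply strictMono_nat_of_lt_succ
    intro j
    have h1 := big_step v hd hv (pre_iter hw (j + 1)) (pre_iter hx (j + 1)) hc (one_pow d)
      (by rw [one_mul, hg _ (pre_iter hx (j + 1))]; exact hlt j)
    rw [one_mul, hg _ (pre_iter hx (j + 1)), ← Function.iterate_succ_apply' (f d c) (j + 1) w,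
      ← Function.iterate_succ_apply' (f d c) (j + 1) x] at h1
    rw [h1]
    have h2 : 0 < v ((f d c)^[j + 1] w - (f d c)^[j + 1] x) :=
      zero_lt_iff.2 ((Valuation.ne_zero_iff v).2 (sub_ne_zero.2 (hne (j + 1))))
    have h3 : 1 < v x ^ (d - 1) := one_lt_pow₀ hg1 (by omega)
    calc v ((f d c)^[j + 1] w - (f d c)^[j + 1] x)
        = 1 * v ((f d c)^[j + 1] w - (f d c)^[j + 1] x) := (one_mul _).symm
      _ < v x ^ (d - 1) * v ((f d c)^[j + 1] w - (f d c)^[j + 1] x) :=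
        mul_lt_mul_of_pos_right h3 h2
  have hinj : Function.Injective fun j : ℕ => (f d c)^[j + 1] w - (f d c)^[j + 1] x := by
    intro i j hij
    apply hmono.injective
    have hij' : (f d c)^[i + 1] w - (f d c)^[i + 1] x = (f d c)^[j + 1] w - (f d c)^[j + 1] x := hij
    change v ((f d c)^[i + 1] w - (f d c)^[i + 1] x) = v ((f d c)^[j + 1] w - (f d c)^[j + 1] x)
    rw [hij']
  refine Set.infinite_range_of_injective hinj ?_
  refine (Set.Finite.image2 (fun a b : K => a - b) hw hx).subset ?_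
  rintro _ ⟨j, rfl⟩
  exact ⟨_, ⟨j + 1, rfl⟩, _, ⟨j + 1, rfl⟩, rfl⟩

/-- a quotient of two forms of known value -/
lemma ratio_pow {a b : K} {g γ γ' : ℤᵐ⁰} (hg : g ≠ 0) {n : ℕ}
    (ha : v a = g * γ ^ n) (hb : v b = g * γ' ^ n) :
    ∃ δ : ℤᵐ⁰, v (a / b) = δ ^ n := by
  refine ⟨γ / γ', ?_⟩
  rw [map_div₀, ha, hb, div_pow, mul_div_mul_left _ _ hg]

lemma ratio_eq {a b : K} (hb : b ≠ 0) {n : ℕ} (h : v a = v b) : ∃ δ : ℤᵐ⁰, v (a / b) = δ ^ n :=
  ⟨1, by rw [map_div₀, h, div_self ((Valuation.ne_zero_iff v).2 hb), one_pow]⟩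

/-- the last non periodic point and a periodic point are far from each other -/
lemma good_tail (hd : 2 ≤ d) {c w1 u1 x1 : K} (hc : v c ≤ 1) (hw : Pre d c w1) (hu : Per d c u1)
    (hx : Per d c x1) (hwu : w1 ≠ u1) (hux : u1 ≠ x1) (hf : f d c w1 = f d c u1) :
    v (w1 - x1) = 1 := by
  have hw1 := hw.val_le_one v hd hc
  have hu1 := hu.pre.val_le_one v hd hc
  have hx1 := hx.pre.val_le_one v hd hc
  have hG0 : G d u1 w1 = 0 := by
    have h1 := G_mul d u1 w1
    have h2 : u1 ^ d = w1 ^ d := by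
      unfold f at hf
      exact (add_right_cancel hf).symm
    rw [h2, sub_self] at h1
    exact (mul_eq_zero.mp h1).resolve_right (sub_ne_zero.mpr hwu.symm)
  have hG1 : v (G d u1 x1) = 1 := val_G_good v hd hu hx hux hc
  have hG2 : v (G d u1 x1) ≤ v (w1 - x1) := by
    have h1 : G d u1 x1 = G d u1 x1 - G d u1 w1 := by rw [hG0, sub_zero]
    rw [h1]
    unfold G
    rw [← Finset.sum_sub_distrib]
    refine Valuation.map_sum_le v fun i _ => ?_
    rw [← mul_sub, map_mul, map_pow]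
    calc v u1 ^ i * v (x1 ^ (d - 1 - i) - w1 ^ (d - 1 - i))
        ≤ 1 * v (x1 - w1) := mul_le_mul' (pow_le_one₀ zero_le hu1) (val_pow_sub_le v hx1 hw1 _)
      _ = v (w1 - x1) := by rw [one_mul, Valuation.map_sub_swap]
  exact le_antisymm ((v.map_sub _ _).trans (max_le hw1 hx1)) (hG1 ▸ hG2)

/-- the values grow along the backward orbit of a fixed point of positive valuation -/
lemma fixed_grow (hd : 2 ≤ d) {c u : K} (hc : v c ≤ 1) (hu : f d c u = u) (hu0 : u ≠ 0)
    (hu1 : v u < 1) : ∀ (k : ℕ) (w : K), Pre d c w → v ((f d c)^[k + 1] w - u) = v u →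
    v u < v w := by
  have hupos : 0 < v u := zero_lt_iff.2 ((Valuation.ne_zero_iff v).2 hu0)
  have hud : v (u ^ d) < v u := by
    rw [map_pow]
    exact pow_lt_self_of_lt_one₀ hupos hu1 (by omega)
  have hrel : ∀ w, w ^ d = (f d c w - u) + u ^ d := by
    intro w
    have h1 : u ^ d + c = u := hu
    unfold f
    linear_combination -h1
  intro k
  induction k with
  | zero =>
    intro w hw h
    rw [Nat.zero_add, Function.iterate_one] at h
    have h1 : v w ^ d = v u := by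
      rw [← map_pow, hrel w, v.map_add_eq_of_lt_left (by rw [h]; exact hud), h]
    have hw1 : v w < 1 := by
      by_contra hh
      push Not at hh
      exact absurd (h1 ▸ one_le_pow₀ hh) (not_le.mpr hu1)
    have hw0 : 0 < v w := by
      rw [zero_lt_iff]
      intro h0
      rw [h0, zero_pow (by omega)] at h1
      exact hupos.ne h1
    rw [← h1]
    exact pow_lt_self_of_lt_one₀ hw0 hw1 (by omega)
  | succ k ih =>
    intro w hw h
    rw [Function.iterate_succ_apply] at h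
    have h1 := ih _ (Loc_Pre_f hw) h
    have h2 : v (f d c w - u) = v (f d c w) := v.map_sub_eq_of_lt_left h1
    have h3 : v w ^ d = v (f d c w) := by
      rw [← map_pow, hrel w, v.map_add_eq_of_lt_left (by rw [h2]; exact hud.trans h1), h2]
    have hw1 := hw.val_le_one v hd hc
    calc v u < v (f d c w) := h1
      _ = v w ^ d := h3.symm
      _ ≤ v w := pow_le_of_le_one zero_le hw1 (by omega)

end LocTailAux

open LocTailAux

variable {K : Type*} [Field K] (v : Valuation K ℤᵐ⁰) {d : ℕ}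

/-- U16a. a preperiodic point of level at least 2 and a periodic point which it never meets -/
theorem val_forms_tail (hd : 2 ≤ d) (hv : v (d : K) = 1) {ζ0 : K} (hζ0 : IsPrimitiveRoot ζ0 d)
    {c w x : K} (hw : Pre d c w) (hw2 : ¬ Per d c (f d c w)) (hx : Per d c x)
    (hne : ∀ k : ℕ, (f d c)^[k] w ≠ (f d c)^[k] x)
    {ζ ζ' : K} (hζ : ζ ^ d = 1) (hζ' : ζ' ^ d = 1) :
    w - ζ * x ≠ 0 ∧ w - ζ' * x ≠ 0 ∧
      ∃ γ : ℤᵐ⁰, v ((w - ζ * x) / (w - ζ' * x)) = γ ^ (d - 1) := by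
  classical
  have hnz : ∀ η : K, η ^ d = 1 → w - η * x ≠ 0 := by
    intro η hη h0
    apply hne 1
    rw [Function.iterate_one, ← sub_eq_zero, f_root hη, h0, mul_zero]
  refine ⟨hnz ζ hζ, hnz ζ' hζ', ?_⟩
  rcases le_or_gt (v c) 1 with hc | hc
  · have hex : ∃ m : ℕ, Per d c ((f d c)^[m] w) := hw.exists_per
    obtain ⟨N, hN⟩ : ∃ N, Nat.find hex = N := ⟨_, rfl⟩
    have hNper : Per d c ((f d c)^[N] w) := hN ▸ Nat.find_spec hex
    have hNmin : ∀ m, m < N → ¬ Per d c ((f d c)^[m] w) := fun m hm =>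
      Nat.find_min hex (hN ▸ hm)
    have hN0 : N ≠ 0 := by
      intro h
      subst h
      exact hw2 (Per.map hNper)
    have hN1 : N ≠ 1 := by
      intro h
      subst h
      exact hw2 hNper
    obtain ⟨M, rfl⟩ : ∃ M, N = M + 1 := ⟨N - 1, by omega⟩
    obtain ⟨u1, hu1, hu2⟩ := hNper.exists_preimage
    have hf : f d c ((f d c)^[M] w) = f d c u1 := by
      rw [hu2, Function.iterate_succ_apply']
    have hwu : (f d c)^[M] w ≠ u1 := by
      intro h
      exact hNmin M (by omega) (h ▸ hu1)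
    have hux : u1 ≠ (f d c)^[M] x := by
      intro h
      apply hne (M + 1)
      rw [Function.iterate_succ_apply' (f d c) M x, ← h, hu2]
    have hfar := good_tail v hd hc (pre_iter hw M) hu1 (Loc_Per_iter hx M) hwu hux hf
    have hall : ∀ η : K, η ^ d = 1 → v (w - η * x) = 1 := fun η hη =>
      unit_forms v hd hc hw hx.pre (k := M) (by omega) hfar hη
    exact ratio_eq v (hnz ζ' hζ') (by rw [hall ζ hζ, hall ζ' hζ'])
  · obtain ⟨j, hj, hfar⟩ := exists_far v hd hv hc hw hx.pre hne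
    obtain ⟨hg1, _⟩ := exists_g v hd hx.pre hc
    obtain ⟨γ, _, h1⟩ := big_forms v hd hv hc hw hx.pre hj hfar hζ
    obtain ⟨γ', _, h2⟩ := big_forms v hd hv hc hw hx.pre hj hfar hζ'
    exact ratio_pow v (zero_lt_one.trans hg1).ne' h1 h2

/-- U16b. a point of level at least 2 over a fixed point -/
theorem val_forms_fixed (hd : 2 ≤ d) (hv : v (d : K) = 1) {ζ0 : K} (hζ0 : IsPrimitiveRoot ζ0 d)
    {c w u : K} (hu : f d c u = u) (hw2 : f d c w ≠ u) (hk : ∃ k : ℕ, (f d c)^[k] w = u)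
    {ζ ζ' : K} (hζ : ζ ^ d = 1) (hζ' : ζ' ^ d = 1) :
    w - ζ * u ≠ 0 ∧ w - ζ' * u ≠ 0 ∧
      ∃ γ : ℤᵐ⁰, v ((w - ζ * u) / (w - ζ' * u)) = γ ^ (d - 1) := by
  classical
  have hnz : ∀ η : K, η ^ d = 1 → w - η * u ≠ 0 := by
    intro η hη h0
    apply hw2
    rw [← sub_eq_zero]
    calc f d c w - u = f d c w - f d c u := by rw [hu]
      _ = 0 := by rw [f_root hη, h0, mul_zero]
  refine ⟨hnz ζ hζ, hnz ζ' hζ', ?_⟩
  have hfix : ∀ j, (f d c)^[j] u = u := fun j => Function.iterate_fixed hu j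
  have hupre : Pre d c u := (show Per d c u from ⟨1, Nat.one_pos, hu⟩).pre
  obtain ⟨N, hN⟩ : ∃ N, Nat.find hk = N := ⟨_, rfl⟩
  have hNu : (f d c)^[N] w = u := hN ▸ Nat.find_spec hk
  have hNmin : ∀ m, m < N → (f d c)^[m] w ≠ u := fun m hm => Nat.find_min hk (hN ▸ hm)
  have hwpre : Pre d c w := by
    refine ((Finset.range (N + 1)).image (fun i => (f d c)^[i] w)).finite_toSet.subset ?_
    rintro _ ⟨i, rfl⟩
    rw [Finset.coe_image]
    by_cases hi : i ≤ N
    · exact ⟨i, by simpa using Nat.lt_succ_of_le hi, rfl⟩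
    · refine ⟨N, by simp, ?_⟩
      have h1 : i = (i - N) + N := by omega
      change (f d c)^[N] w = (f d c)^[i] w
      rw [h1, Function.iterate_add_apply, hNu, hfix]
  have hN0 : N ≠ 0 := by
    intro h
    subst h
    apply hw2
    have h1 : w = u := hNu
    rw [h1, hu]
  have hN1 : N ≠ 1 := by
    intro h
    subst h
    exact hw2 hNu
  obtain ⟨M, rfl⟩ : ∃ M, N = M + 1 := ⟨N - 1, by omega⟩
  obtain ⟨w1, hw1⟩ : ∃ w1, (f d c)^[M] w = w1 := ⟨_, rfl⟩
  have hw1u : w1 ≠ u := hw1 ▸ hNmin M (by omega)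
  have hfw1 : f d c w1 = u := by
    rw [← hw1, ← Function.iterate_succ_apply' (f d c) M w]
    exact hNu
  have hpow : w1 ^ d = u ^ d := by
    have h1 : w1 ^ d + c = u ^ d + c := hfw1.trans hu.symm
    exact add_right_cancel h1
  have hval : v w1 = v u := by
    have h1 : v w1 ^ d = v u ^ d := by rw [← map_pow, hpow, map_pow]
    exact (pow_left_inj₀ zero_le zero_le (by omega)).1 h1
  have hu0 : u ≠ 0 := by
    intro h0
    apply hw1u
    rw [h0, zero_pow (by omega)] at hpow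
    rw [h0]
    exact pow_eq_zero_iff (by omega) |>.mp hpow
  have hvu0 : v u ≠ 0 := (Valuation.ne_zero_iff v).2 hu0
  have hG0 : G d w1 u = 0 := by
    have h1 := G_mul d w1 u
    rw [hpow, sub_self] at h1
    exact (mul_eq_zero.mp h1).resolve_right (sub_ne_zero.mpr hw1u)
  have hdist : v (w1 - u) = v u := by
    rcases ((v.map_sub w1 u).trans (max_le hval.le le_rfl)).lt_or_eq with h | h
    · exfalso
      have h1 := Loc_close v hd hv hval hvu0 h
      rw [hG0, map_zero] at h1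
      exact pow_ne_zero _ hvu0 h1.symm
    · exact h
  have hD : (f d c)^[M] w - (f d c)^[M] u = w1 - u := by rw [hfix, hw1]
  rcases le_or_gt (v c) 1 with hc | hc
  · have hule : v u ≤ 1 := hupre.val_le_one v hd hc
    rcases hule.lt_or_eq with hlt | heq
    · obtain ⟨k, hk'⟩ : ∃ k, M = k + 1 := ⟨M - 1, by omega⟩
      have hgrow := fixed_grow v hd hc hu hu0 hlt k w hwpre (by rw [← hk', hw1]; exact hdist)
      have hall : ∀ η : K, η ^ d = 1 → v (w - η * u) = v w := by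
        intro η hη
        refine v.map_sub_eq_of_lt_left ?_
        rw [map_mul, val_root v hd hη, one_mul]
        exact hgrow
      exact ratio_eq v (hnz ζ' hζ') (by rw [hall ζ hζ, hall ζ' hζ'])
    · have hall : ∀ η : K, η ^ d = 1 → v (w - η * u) = 1 := fun η hη =>
        unit_forms v hd hc hwpre hupre (k := M) (by omega) (by rw [hD, hdist, heq]) hη
      exact ratio_eq v (hnz ζ' hζ') (by rw [hall ζ hζ, hall ζ' hζ'])
  · obtain ⟨hg1, _⟩ := exists_g v hd hupre hc
    have hfar : v ((f d c)^[M] w - (f d c)^[M] u) = v u := by rw [hD, hdist]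
    obtain ⟨γ, _, h1⟩ := big_forms v hd hv hc hwpre hupre (j := M) (by omega) hfar hζ
    obtain ⟨γ', _, h2⟩ := big_forms v hd hv hc hwpre hupre (j := M) (by omega) hfar hζ'
    exact ratio_pow v (zero_lt_one.trans hg1).ne' h1 h2

end UBC
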