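import Pool.Agent.UBC.FinalPer
import Pool.Agent.UBC.LocTail
import Pool.Agent.UBC.HtPre
import Pool.Agent.PowCyc.NorthcottPre

/-!
# Uniform bound for preperiodic points of `z ^ d + c`
-/

set_option autoImplicit false

universe u

namespace UBC

open Height NumberField IsDedekindDomain Polynomial PowCyc

namespace FinalPreAux

lemma fam_X {K : Type*} [Field K] (d : ℕ) (c : K) : fam d (X : K[X]) c = f d c := by
  funext z
  simp [fam, f]

lemma iter_map {K L : Type*} [Field K] [Field L] (φ : K →+* L) (d : ℕ) (c x : K) (k : ℕ) :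
    (f d (φ c))^[k] (φ x) = φ ((f d c)^[k] x) := by
  induction k with
  | zero => simp
  | succ k ih =>
    rw [Function.iterate_succ_apply', Function.iterate_succ_apply', ih]
    simp [f]

lemma pre_map {K L : Type*} [Field K] [Field L] (φ : K →+* L) {d : ℕ} {c x : K}
    (hx : Pre d c x) : Pre d (φ c) (φ x) := by
  unfold Pre at hx ⊢
  have : (Set.range fun k : ℕ => (f d (φ c))^[k] (φ x)) =
      φ '' (Set.range fun k : ℕ => (f d c)^[k] x) := by
    rw [← Set.range_comp]
    congr 1
    funext k
    exact iter_map φ d c x k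
  rw [this]
  exact hx.image _

/-- bounded fibres -/
lemma card_le_mul {K : Type*} [Field K] [DecidableEq K] {d : ℕ} (hd : 0 < d) (c : K)
    (P : Finset K) (B : ℕ) (hB : (P.image (f d c)).card ≤ B) : P.card ≤ d * B := by
  calc P.card ≤ d * (P.image (f d c)).card := by
        apply Finset.card_le_mul_card_image
        intro b _
        have h1 : P.filter (fun x => f d c x = b) ⊆ (nthRoots d (b - c)).toFinset := by
          intro x hx
          rw [Finset.mem_filter] at hx
          rw [Multiset.mem_toFinset, mem_nthRoots hd, ← hx.2]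
          simp [f]
        calc (P.filter (fun x => f d c x = b)).card ≤ (nthRoots d (b - c)).toFinset.card :=
              Finset.card_le_card h1
          _ ≤ (nthRoots d (b - c)).card := Multiset.toFinset_card_le _
          _ ≤ d := card_nthRoots d _
    _ ≤ d * B := Nat.mul_le_mul_left d hB

lemma iter_per {K : Type*} [Field K] {d : ℕ} {c x : K} (hx : Per d c x) (k : ℕ) :
    Per d c ((f d c)^[k] x) := by
  induction k with
  | zero => exact hx
  | succ k ih => rw [Function.iterate_succ_apply']; exact ih.map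

lemma iter_inj {K : Type*} [Field K] {d : ℕ} {c x y : K} (hx : Per d c x) (hy : Per d c y)
    (k : ℕ) (h : (f d c)^[k] x = (f d c)^[k] y) : x = y := by
  induction k with
  | zero => exact h
  | succ k ih =>
    rw [Function.iterate_succ_apply', Function.iterate_succ_apply'] at h
    exact ih ((iter_per hx k).inj (iter_per hy k) h)

/-- a point meets at most one periodic point -/
lemma meets {K : Type*} [Field K] {d : ℕ} {c w x x' : K} (hx : Per d c x) (hx' : Per d c x')
    (hne : x ≠ x') : (∀ k : ℕ, (f d c)^[k] w ≠ (f d c)^[k] x) ∨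
      (∀ k : ℕ, (f d c)^[k] w ≠ (f d c)^[k] x') := by
  by_contra h
  push Not at h
  obtain ⟨⟨k, hk⟩, ⟨l, hl⟩⟩ := h
  apply hne
  apply iter_inj hx hx' (k + l)
  have h1 : (f d c)^[k + l] w = (f d c)^[k + l] x := by
    rw [add_comm, Function.iterate_add_apply, hk, ← Function.iterate_add_apply]
  have h2 : (f d c)^[k + l] w = (f d c)^[k + l] x' := by
    rw [Function.iterate_add_apply, hl, ← Function.iterate_add_apply]
  rw [← h1, ← h2]

end FinalPreAux

open FinalPreAux

/-- U20a. the case of a number field containing the `d`-th roots of unity -/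
theorem uniform_pre_root (K : Type u) [Field K] [NumberField K] {d : ℕ} (hd5 : 5 ≤ d)
    {ζ0 : K} (hζ0 : IsPrimitiveRoot ζ0 d) :
    ∃ B : ℕ, ∀ c : K, ∀ P : Finset K, (∀ x ∈ P, Pre d c x) → P.card ≤ B := by
  classical
  have h : Cov d (d - 1) := ⟨by omega, by omega⟩
  have hd2 : 2 ≤ d := by omega
  have hd0 : d ≠ 0 := by omega
  set S : Set (HeightOneSpectrum (𝓞 K)) := {v | v.valuation K (d : K) ≠ 1} with hSdef
  have hS : S.Finite := PowCyc.finite_bad K d hd0
  obtain ⟨L, _, _, _, hgap⟩ := exists_gap_roots K h hζ0 S hS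
  set T : Set K := {t : K | ∀ ζ ζ' : K, ζ ^ d = 1 → ζ ≠ 1 → ζ' ^ d = 1 → ζ' ≠ 1 →
          t ≠ ζ ∧ Sel (d - 1) S ((t - ζ) / (t - ζ'))} with hT
  -- periodic points
  obtain ⟨Bp, hBp⟩ := uniform_per K (r := d) (m := 1) le_rfl (by rwa [mul_one])
  have hper : ∀ c : K, ∀ P : Finset K, (∀ x ∈ P, Per d c x) → P.card ≤ Bp := by
    intro c P hP
    refine hBp X monic_X natDegree_X ?_ c P ?_
    · intro i
      rw [coeff_X]
      split_ifs
      · exact isIntegral_one
      · exact isIntegral_zero
    · intro x hx
      obtain ⟨k, hk, hkx⟩ := hP x hx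
      exact ⟨k, hk, by rw [fam_X]; exact hkx⟩
  -- window
  obtain ⟨Cw, hCw⟩ := window L hd5
  obtain ⟨Cz, hCz⟩ := zero_pre L (d := d) (by omega)
  obtain ⟨N, H0, hN⟩ := hgap (6 * d)
  set φ : K →+* L := algebraMap K L with hφ
  have hφinj : Function.Injective φ := φ.injective
  set ht : K → ℝ := fun c => logHeight₁ (φ c) with hht
  set C1 : ℝ := max (max (2 * |Cw|) (2 * d * (d - 1) * |H0|)) (|Cz| + 1) with hC1
  have hdr : (5:ℝ) ≤ d := by exact_mod_cast hd5
  -- main step: points of `T`
  have main : ∀ c : K, C1 ≤ ht c → ∀ x : K, Pre d c x → ∀ W : Finset K,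
      (∀ w ∈ W, Pre d c w ∧ w ^ d ≠ x ^ d ∧ w / x ∈ T) → W.card ≤ N := by
    intro c hc x hx W hW
    have hc1 : 2 * |Cw| ≤ ht c := le_trans ((le_max_left _ _).trans (le_max_left _ _)) hc
    have hc2 : 2 * d * (d - 1) * |H0| ≤ ht c :=
      le_trans ((le_max_right _ _).trans (le_max_left _ _)) hc
    have hc3 : |Cz| + 1 ≤ ht c := le_trans (le_max_right _ _) hc
    have hCwabs : Cw ≤ |Cw| := le_abs_self _
    have hH0abs : H0 ≤ |H0| := le_abs_self _
    have hx0 : x ≠ 0 := by
      rintro rfl
      have h1 := hCz (φ c) (by have := pre_map φ hx; rwa [map_zero] at this)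
      have h2 := le_abs_self Cz
      have h3 : ht c ≤ Cz := h1
      linarith
    have hcard : (W.image (fun w => w / x)).card = W.card := by
      apply Finset.card_image_of_injective
      intro a b hab
      exact (div_left_inj' hx0).1 hab
    rw [← hcard]
    have hht0 : 0 ≤ ht c := by
      have := abs_nonneg Cz
      linarith
    have hdd : (0:ℝ) < d * (d - 1) := by nlinarith
    refine hN (((d : ℝ) - 4) / (2 * (d * (d - 1))) * ht c) ?_ _ ?_
    · -- H0 ≤ H
      have h1 : (1:ℝ) / (2 * (d * (d - 1))) ≤ ((d : ℝ) - 4) / (2 * (d * (d - 1))) :=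
        div_le_div_of_nonneg_right (by linarith) (by positivity)
      calc H0 ≤ |H0| := hH0abs
        _ = 1 / (2 * (d * (d - 1))) * (2 * d * (d - 1) * |H0|) := by
            have hd1 : (d:ℝ) - 1 ≠ 0 := by linarith
            have hd' : (d:ℝ) ≠ 0 := by linarith
            field_simp
        _ ≤ 1 / (2 * (d * (d - 1))) * ht c := mul_le_mul_of_nonneg_left hc2 (by positivity)
        _ ≤ _ := mul_le_mul_of_nonneg_right h1 hht0
    · intro t ht'
      rw [Finset.mem_image] at ht'
      obtain ⟨w, hw, rfl⟩ := ht'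
      obtain ⟨hw1, hw2, hw3⟩ := hW w hw
      have hxL : φ x ≠ 0 := by rwa [Ne, map_eq_zero]
      have hwx : (φ w) ^ d ≠ (φ x) ^ d := by
        rw [← map_pow, ← map_pow]
        exact fun hh => hw2 (hφinj hh)
      obtain ⟨h1, h2⟩ := hCw (φ c) (φ w) (φ x) (pre_map φ hw1) (pre_map φ hx) hxL hwx
      rw [← map_div₀] at h1 h2
      have e1 : logHeight₁ (φ c) = ht c := rfl
      rw [e1] at h1 h2
      refine ⟨hw3, ?_, ?_⟩
      · -- lower bound
        have h3 : ((d:ℝ) - 4) * ht c / 2 ≤ (d:ℝ) * (d - 1) * logHeight₁ (φ (w / x)) := by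
          nlinarith
        rw [div_mul_eq_mul_div, div_le_iff₀ (by positivity)]
        calc ((d:ℝ) - 4) * ht c = 2 * (((d:ℝ) - 4) * ht c / 2) := by ring
          _ ≤ 2 * ((d:ℝ) * (d - 1) * logHeight₁ (φ (w / x))) := by linarith
          _ = _ := by ring
      · have h3 : ((d:ℝ) - 1) * logHeight₁ (φ (w / x)) ≤ 3 * ht c := by linarith
        have h4 : 6 * (d:ℝ) * (((d : ℝ) - 4) / (2 * (d * (d - 1))) * ht c) =
            (3 * ht c) * ((d:ℝ) - 4) / (d - 1) := by
          have hd1 : (d:ℝ) - 1 ≠ 0 := by linarith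
          have hd' : (d:ℝ) ≠ 0 := by linarith
          field_simp
          ring
        rw [h4, le_div_iff₀ (by linarith)]
        calc logHeight₁ (φ (w / x)) * ((d:ℝ) - 1) = ((d:ℝ) - 1) * logHeight₁ (φ (w / x)) := by ring
          _ ≤ 3 * ht c := h3
          _ = 3 * ht c * 1 := by ring
          _ ≤ 3 * ht c * ((d:ℝ) - 4) := by
              apply mul_le_mul_of_nonneg_left (by linarith) (by linarith)
  -- membership in `T`
  have hmem : ∀ w x : K, x ≠ 0 →
      (∀ v : HeightOneSpectrum (𝓞 K), v ∉ S → ∀ ζ ζ' : K, ζ ^ d = 1 → ζ' ^ d = 1 →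
        ∃ γ : WithZero (Multiplicative ℤ), v.valuation K ((w - ζ * x) / (w - ζ' * x)) = γ ^ (d - 1)) →
      (∀ ζ : K, ζ ^ d = 1 → w - ζ * x ≠ 0) → w / x ∈ T := by
    intro w x hx hval hne ζ ζ' hζ _ hζ' _
    have e1 : ∀ ζ : K, w / x - ζ = (w - ζ * x) / x := by
      intro ζ
      field_simp
    have e2 : (w / x - ζ) / (w / x - ζ') = (w - ζ * x) / (w - ζ' * x) := by
      rw [e1, e1, div_div_div_cancel_right₀ hx]
    refine ⟨?_, ?_⟩
    · intro hh
      apply hne ζ hζ
      rw [← hh]
      field_simp
      ring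
    · rw [e2]
      exact ⟨div_ne_zero (hne ζ hζ) (hne ζ' hζ'), fun v hv => hval v hv ζ ζ' hζ hζ'⟩
  -- small heights
  have hfinc : {c : K | ht c ≤ C1}.Finite := by
    have h1 : {y : L | logHeight₁ y ≤ C1}.Finite := NumberField.finite_setOfPred_logHeight₁_le L C1
    refine Set.Finite.of_finite_image (f := φ) (h1.subset ?_) hφinj.injOn
    rintro _ ⟨c, hc, rfl⟩
    exact hc
  have hfinpre : ∀ c : K, {x : K | Pre d c x}.Finite := fun c => finite_pre hd2 c
  refine ⟨(Bp + d * Bp + 2 * N) + ∑ c ∈ hfinc.toFinset, (hfinpre c).toFinset.card,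
    fun c P hP => ?_⟩
  rcases le_or_gt (ht c) C1 with hc | hc
  · have h1 : P ⊆ (hfinpre c).toFinset := by
      intro x hx
      rw [Set.Finite.mem_toFinset]
      exact hP x hx
    have h2 := Finset.card_le_card h1
    have h3 : (hfinpre c).toFinset.card ≤ ∑ c ∈ hfinc.toFinset, (hfinpre c).toFinset.card :=
      Finset.single_le_sum (f := fun c => (hfinpre c).toFinset.card)
        (fun _ _ => Nat.zero_le _) (by rw [Set.Finite.mem_toFinset]; exact hc)
    omega
  · -- large height
    set P0 := P.filter (fun x => Per d c x) with hP0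
    set P1 := P.filter (fun x => ¬ Per d c x ∧ Per d c (f d c x)) with hP1
    set P2 := P.filter (fun x => ¬ Per d c (f d c x)) with hP2
    have hcover : P ⊆ (P0 ∪ P1) ∪ P2 := by
      intro x hx
      rw [Finset.mem_union, Finset.mem_union, hP0, hP1, hP2, Finset.mem_filter, Finset.mem_filter,
        Finset.mem_filter]
      by_cases h1 : Per d c (f d c x)
      · by_cases h2 : Per d c x
        · exact Or.inl (Or.inl ⟨hx, h2⟩)
        · exact Or.inl (Or.inr ⟨hx, h2, h1⟩)
      · exact Or.inr ⟨hx, h1⟩
    have hc0 : P0.card ≤ Bp := hper c P0 (fun x hx => (Finset.mem_filter.1 hx).2)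
    have hc1 : P1.card ≤ d * Bp := by
      apply card_le_mul (by omega) c
      apply hper c
      intro y hy
      rw [Finset.mem_image] at hy
      obtain ⟨x, hx, rfl⟩ := hy
      exact (Finset.mem_filter.1 hx).2.2
    -- points which never meet `x`
    have hnever : ∀ x : K, Per d c x → ∀ W : Finset K, (∀ w ∈ W, w ∈ P2 ∧
        ∀ k : ℕ, (f d c)^[k] w ≠ (f d c)^[k] x) → W.card ≤ N := by
      intro x hx W hW
      refine main c hc.le x hx.pre W fun w hw => ?_
      obtain ⟨hw1, hw2⟩ := hW w hw
      rw [hP2, Finset.mem_filter] at hw1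
      have hwp : Pre d c w := hP w hw1.1
      have hx0 : x ≠ 0 := by
        rintro rfl
        have h1 := hCz (φ c) (by have := pre_map φ hx.pre; rwa [map_zero] at this)
        have h2 := le_abs_self Cz
        have h3 : ht c ≤ Cz := h1
        have h4 : |Cz| + 1 ≤ C1 := le_max_right _ _
        linarith
      refine ⟨hwp, ?_, ?_⟩
      · intro hh
        apply hw2 1
        simp [f, hh]
      · apply hmem w x hx0
        · intro v hv ζ ζ' hζ hζ'
          have hv' : v.valuation K (d : K) = 1 := by
            by_contra hh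
            exact hv hh
          exact (val_forms_tail (v.valuation K) hd2 hv' hζ0 hwp hw1.2 hx hw2 hζ hζ').2.2
        · intro ζ hζ hh
          have h1 : w = ζ * x := sub_eq_zero.1 hh
          apply hw2 1
          simp [f, h1, mul_pow, hζ]
    have hc2 : P2.card ≤ 2 * N := by
      by_cases htwo : ∃ x x' : K, Per d c x ∧ Per d c x' ∧ x ≠ x'
      · obtain ⟨x, x', hx, hx', hne⟩ := htwo
        set W := P2.filter (fun w => ∀ k : ℕ, (f d c)^[k] w ≠ (f d c)^[k] x) with hW
        set W' := P2.filter (fun w => ∀ k : ℕ, (f d c)^[k] w ≠ (f d c)^[k] x') with hW'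
        have h1 : P2 ⊆ W ∪ W' := by
          intro w hw
          rw [Finset.mem_union]
          rcases meets (w := w) hx hx' hne with h1 | h1
          · exact Or.inl (Finset.mem_filter.2 ⟨hw, h1⟩)
          · exact Or.inr (Finset.mem_filter.2 ⟨hw, h1⟩)
        have h2 : W.card ≤ N := hnever x hx W (fun w hw => Finset.mem_filter.1 hw)
        have h3 : W'.card ≤ N := hnever x' hx' W' (fun w hw => Finset.mem_filter.1 hw)
        calc P2.card ≤ (W ∪ W').card := Finset.card_le_card h1
          _ ≤ W.card + W'.card := Finset.card_union_le _ _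
          _ ≤ 2 * N := by omega
      · push Not at htwo
        rcases P2.eq_empty_or_nonempty with he | ⟨w0, hw0⟩
        · rw [he]; simp
        · rw [hP2, Finset.mem_filter] at hw0
          obtain ⟨m0, hm0⟩ := (hP w0 hw0.1).exists_per
          set u := (f d c)^[m0] w0 with hu
          have hfix : f d c u = u := htwo _ _ hm0.map hm0
          have hux : u ≠ 0 := by
            intro hh
            rw [hh] at hm0
            have h1 := hCz (φ c) (by have := pre_map φ hm0.pre; rwa [map_zero] at this)
            have h2 := le_abs_self Cz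
            have h3 : ht c ≤ Cz := h1
            have h4 : |Cz| + 1 ≤ C1 := le_max_right _ _
            linarith
          have h1 : P2.card ≤ N := by
            refine main c hc.le u hm0.pre P2 fun w hw => ?_
            rw [hP2, Finset.mem_filter] at hw
            have hwp := hP w hw.1
            have hfw : f d c w ≠ u := by
              intro hh
              apply hw.2
              rw [hh]
              exact hm0
            obtain ⟨m, hm⟩ := hwp.exists_per
            have hmu : (f d c)^[m] w = u := htwo _ _ hm hm0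
            refine ⟨hwp, ?_, ?_⟩
            · intro hh
              apply hfw
              rw [← hfix]
              simp [f, hh]
            · apply hmem w u hux
              · intro v hv ζ ζ' hζ hζ'
                have hv' : v.valuation K (d : K) = 1 := by
                  by_contra hh
                  exact hv hh
                exact (val_forms_fixed (v.valuation K) hd2 hv' hζ0 hfix hfw ⟨m, hmu⟩ hζ hζ').2.2
              · intro ζ hζ hh
                have h1 : w = ζ * u := sub_eq_zero.1 hh
                apply hfw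
                rw [← hfix, h1]
                simp [f, mul_pow, hζ]
          omega
    have h3 := Finset.card_le_card hcover
    have h4 := Finset.card_union_le (P0 ∪ P1) P2
    have h5 := Finset.card_union_le P0 P1
    omega

/-- U20b. Theorem U: every `d ≥ 5`, every number field. -/
theorem uniform_pre (K : Type u) [Field K] [NumberField K] {d : ℕ} (hd : 5 ≤ d) :
    ∃ B : ℕ, ∀ c : K, ∀ P : Finset K, (∀ x ∈ P, Pre d c x) → P.card ≤ B := by
  classical
  obtain ⟨L, _, _, _, ζ0, hζ0⟩ := exists_cyclotomic K d (by omega)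
  obtain ⟨B, hB⟩ := uniform_pre_root L hd hζ0
  refine ⟨B, fun c P hP => ?_⟩
  have h1 := hB (algebraMap K L c) (P.image (algebraMap K L)) (by
    intro y hy
    rw [Finset.mem_image] at hy
    obtain ⟨x, hx, rfl⟩ := hy
    exact pre_map (algebraMap K L) (hP x hx))
  rwa [Finset.card_image_of_injective _ (algebraMap K L).injective] at h1

end UBC
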