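import Pool.Agent.UBC.SeqList
import Pool.Agent.UBC.FinalPerS
import Pool.Agent.UBC.Metric3
import Pool.Agent.UBC.FermatGap

/-!
# Uniform bound for periodic points of compositions of maps `H(z ^ r) + c`
-/

set_option autoImplicit false

universe u

namespace UBC

open Height NumberField IsDedekindDomain Polynomial FinalPerAux FinalPerSAux Metric3Aux

/-- the case of a number field with the roots of unity, `r ≥ 4` -/
theorem seq_root4 (K : Type u) [Field K] [NumberField K] {r m : ℕ} (hm : 1 ≤ m)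
    (h : Cov r (r * m - 1)) {ζ0 : K} (hζ0 : IsPrimitiveRoot ζ0 r)
    (S : Set (HeightOneSpectrum (𝓞 K))) (hS : S.Finite)
    (hrmS : ∀ v : HeightOneSpectrum (𝓞 K), v ∉ S → v.valuation K ((r * m : ℕ) : K) = 1) :
    ∃ B : ℕ, ∀ (c : K) (l : List K[X]), l ≠ [] →
      (∀ v : HeightOneSpectrum (𝓞 K), v ∉ S → GoodList (v.valuation K) m l) →
      ∀ P : Finset K, (∀ x ∈ P, PerPt (compF r c l) x) → P.card ≤ B := by
  classical
  have hr : 4 ≤ r := h.1
  obtain ⟨L, j1, j2, j3, hL⟩ := exists_gap_roots K h hζ0 S hS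
  obtain ⟨B, hB⟩ := metric_bound K L _ hL
  refine ⟨B + 1, ?_⟩
  intro c l hl hgood P hP
  have key := hB (P.erase 0) ?_ ?_
  · have h1 : P.card ≤ (P.erase 0).card + 1 := by
      have := Finset.pred_card_le_card_erase (s := P) (a := (0 : K))
      omega
    omega
  · intro x hx
    exact (Finset.mem_erase.1 hx).1
  · intro X hx Y hy hxy
    have hy0 : Y ≠ 0 := (Finset.mem_erase.1 hy).1
    have hpx := hP X (Finset.mem_erase.1 hx).2
    have hpy := hP Y (Finset.mem_erase.1 hy).2
    change ∀ ζ ζ' : K, ζ ^ r = 1 → ζ ≠ 1 → ζ' ^ r = 1 → ζ' ≠ 1 →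
      X / Y ≠ ζ ∧ Sel (r * m - 1) S ((X / Y - ζ) / (X / Y - ζ'))
    intro ζ ζ' hζ hζ1 hζ' hζ'1
    have hne : ∀ ξ : K, ξ ^ r = 1 → X - ξ * Y ≠ 0 := fun ξ hξ =>
      form_ne_list hl hpx hpy hxy hξ
    have e1 : ∀ ξ : K, X / Y - ξ = (X - ξ * Y) / Y := by
      intro ξ
      field_simp
    have e2 : (X / Y - ζ) / (X / Y - ζ') = (X - ζ * Y) / (X - ζ' * Y) := by
      rw [e1, e1, div_div_div_cancel_right₀ hy0]
    refine ⟨fun h0 => ?_, ?_⟩
    · apply hne ζ hζ
      rw [← h0, div_mul_cancel₀ _ hy0, sub_self]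
    · rw [e2]
      exact ⟨div_ne_zero (hne ζ hζ) (hne ζ' hζ'), fun v hv =>
        val_forms_list (v.valuation K) (by omega) hm (hrmS v hv) hζ0 hl (hgood v hv)
          hpx hpy hxy hpx hpy hxy hζ hζ1 hζ' hζ'1⟩

/-- the case of a number field with the cube roots of unity -/
theorem seq_root3 (K : Type u) [Field K] [NumberField K] {m : ℕ} (hm : 2 ≤ m)
    {ω : K} (hprim : IsPrimitiveRoot ω 3) (S : Set (HeightOneSpectrum (𝓞 K))) (hS : S.Finite)
    (hrmS : ∀ v : HeightOneSpectrum (𝓞 K), v ∉ S → v.valuation K ((3 * m : ℕ) : K) = 1) :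
    ∃ B : ℕ, ∀ (c : K) (l : List K[X]), l ≠ [] →
      (∀ v : HeightOneSpectrum (𝓞 K), v ∉ S → GoodList (v.valuation K) m l) →
      ∀ P : Finset K, (∀ x ∈ P, PerPt (compF 3 c l) x) → P.card ≤ B := by
  classical
  have hω3 : ω ^ 3 = 1 := hprim.pow_eq_one
  have hω1 : ω ≠ 1 := hprim.ne_one (by norm_num)
  have h1ω : 1 - ω ≠ 0 := sub_ne_zero.2 hω1.symm
  have hω : ω ^ 2 + ω + 1 = 0 := by
    have h1 : (1 - ω) * (ω ^ 2 + ω + 1) = 0 := by linear_combination -hω3
    exact (mul_eq_zero.1 h1).resolve_left h1ω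
  have hω0 : ω ≠ 0 := by
    rintro rfl
    simp at hω
  set e : Fin 3 → K := ![0, -1, -(1 - ω)⁻¹] with he
  have h01 : (0 : K) ≠ -1 := fun h => by
    have h1 : (1 : K) = 0 := by linear_combination h
    exact one_ne_zero h1
  have h02 : (0 : K) ≠ -(1 - ω)⁻¹ := fun h => by
    have h1 : (1 - ω)⁻¹ = 0 := by linear_combination h
    exact inv_ne_zero h1ω h1
  have h12 : (-1 : K) ≠ -(1 - ω)⁻¹ := fun h => by
    have h1 : (1 - ω)⁻¹ = 1 := by linear_combination h
    rw [inv_eq_one] at h1
    apply hω0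
    linear_combination -h1
  have heinj : Function.Injective e := by
    intro i j hij
    match i, j, hij with
    | 0, 0, _ => rfl
    | 0, 1, h => exact absurd h h01
    | 0, 2, h => exact absurd h h02
    | 1, 0, h => exact absurd h h01.symm
    | 1, 1, _ => rfl
    | 1, 2, h => exact absurd h h12
    | 2, 0, h => exact absurd h h02.symm
    | 2, 1, h => exact absurd h h12.symm
    | 2, 2, _ => rfl
  obtain ⟨L, j1, j2, j3, hL⟩ := exists_gap_fermat K (n := 3 * m - 1) (by omega) S hS e heinj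
  obtain ⟨B, hB⟩ := metric3_bound K L hω _ hL
  refine ⟨B + 1, ?_⟩
  intro c l hl hgood P hP
  have hform : ∀ x ∈ P, ∀ y ∈ P, x ≠ y → x - ω * y ≠ 0 := fun x hx y hy hxy =>
    form_ne_list hl (hP x hx) (hP y hy) hxy hω3
  have key := hB (P.erase 0) ?_ ?_ ?_
  · have h1 : P.card ≤ (P.erase 0).card + 1 := by
      have := Finset.pred_card_le_card_erase (s := P) (a := (0 : K))
      omega
    omega
  · intro x hx
    exact (Finset.mem_erase.1 hx).1
  · intro x hx y hy hxy
    exact hform x (Finset.mem_erase.1 hx).2 y (Finset.mem_erase.1 hy).2 hxy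
  · intro x hx y hy z hz hxy hyz hxz hsum
    have hx' := (Finset.mem_erase.1 hx).2
    have hy' := (Finset.mem_erase.1 hy).2
    have hz' := (Finset.mem_erase.1 hz).2
    have hU := hform x hx' y hy' hxy
    have hV := hform y hy' z hz' hyz
    have hW := hform z hz' x hx' hxz.symm
    have hcross : ∀ v : HeightOneSpectrum (𝓞 K), v ∉ S → ∀ a ∈ P, ∀ b ∈ P, a ≠ b →
        ∀ a' ∈ P, ∀ b' ∈ P, a' ≠ b' →
        ∃ γ : WithZero (Multiplicative ℤ),
          v.valuation K ((a - ω * b) / (a' - ω * b')) = γ ^ (3 * m - 1) := by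
      intro v hv a ha b hb hab a' ha' b' hb' hab'
      exact val_forms_list (v.valuation K) (r := 3) (by norm_num) (by omega) (hrmS v hv) hprim
        hl (hgood v hv) (hP a ha) (hP b hb) hab (hP a' ha') (hP b' hb') hab' hω3 hω1 hω3 hω1
    have hsp : sp ω x y z = -(x - ω * y) / ((x - ω * y) + (z - ω * x)) := rfl
    have e0 : e 0 = 0 := rfl
    have e1 : e 1 = -1 := rfl
    have e2 : e 2 = -(1 - ω)⁻¹ := rfl
    have s0 : sp ω x y z - e 0 = -(x - ω * y) / ((x - ω * y) + (z - ω * x)) := by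
      rw [hsp, e0, sub_zero]
    have s1 : sp ω x y z - e 1 = (z - ω * x) / ((x - ω * y) + (z - ω * x)) := by
      rw [hsp, e1, sub_neg_eq_add, div_add_one hsum]
      congr 1
      ring
    have s2 : sp ω x y z - e 2 =
        -(ω ^ 2 * (y - ω * z)) / ((1 - ω) * ((x - ω * y) + (z - ω * x))) := by
      rw [hsp, e2, sub_neg_eq_add, inv_eq_one_div, div_add_div _ _ hsum h1ω,
        mul_comm (1 - ω) ((x - ω * y) + (z - ω * x))]
      congr 1
      linear_combination -z * hω3
    have n0 : sp ω x y z - e 0 ≠ 0 := by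
      rw [s0]
      exact div_ne_zero (neg_ne_zero.2 hU) hsum
    have n1 : sp ω x y z - e 1 ≠ 0 := by
      rw [s1]
      exact div_ne_zero hW hsum
    have n2 : sp ω x y z - e 2 ≠ 0 := by
      rw [s2]
      exact div_ne_zero (neg_ne_zero.2 (mul_ne_zero (pow_ne_zero _ hω0) hV))
        (mul_ne_zero h1ω hsum)
    have r1 : (sp ω x y z - e 1) / (sp ω x y z - e 0) = -((z - ω * x) / (x - ω * y)) := by
      rw [s0, s1, div_div_div_cancel_right₀ hsum, div_neg]
    have r2 : (sp ω x y z - e 2) / (sp ω x y z - e 0) =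
        ω ^ 2 / (1 - ω) * ((y - ω * z) / (x - ω * y)) := by
      rw [s0, s2, div_div_eq_mul_div, div_mul_eq_mul_div, div_div, div_mul_div_comm,
        div_eq_div_iff (mul_ne_zero (mul_ne_zero h1ω hsum) (neg_ne_zero.2 hU))
          (mul_ne_zero h1ω hU)]
      ring
    intro j
    fin_cases j
    · refine ⟨sub_ne_zero.1 n0, div_ne_zero n0 n0, fun v _ => ⟨1, ?_⟩⟩
      change v.valuation K ((sp ω x y z - e 0) / (sp ω x y z - e 0)) = _
      rw [div_self n0, map_one, one_pow]
    · refine ⟨sub_ne_zero.1 n1, div_ne_zero n1 n0, fun v hv => ?_⟩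
      obtain ⟨γ, hγ⟩ := hcross v hv z hz' x hx' hxz.symm x hx' y hy' hxy
      refine ⟨γ, ?_⟩
      change v.valuation K ((sp ω x y z - e 1) / (sp ω x y z - e 0)) = _
      rw [r1, Valuation.map_neg, hγ]
    · refine ⟨sub_ne_zero.1 n2, div_ne_zero n2 n0, fun v hv => ?_⟩
      obtain ⟨γ, hγ⟩ := hcross v hv y hy' z hz' hyz x hx' y hy' hxy
      refine ⟨γ, ?_⟩
      change v.valuation K ((sp ω x y z - e 2) / (sp ω x y z - e 0)) = _
      have hv3 : v.valuation K (3 : K) = 1 := by
        have h1 := LocPerAux.v_rm (v.valuation K) (hrmS v hv)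
        exact_mod_cast h1.1
      have hvω : v.valuation K ω = 1 := LocPerAux.v_zeta (v.valuation K) (by norm_num) hω3
      have hle : ∀ k : ℕ, v.valuation K (1 - ω ^ k) ≤ 1 := fun k => by
        refine (Valuation.map_sub _ _ _).trans (max_le (by rw [map_one]) ?_)
        rw [map_pow, hvω, one_pow]
      have hprod : (1 - ω ^ 1) * (1 - ω ^ 2) = 3 := by linear_combination hω3 - hω
      have h1 := hle 1
      have h2 := hle 2
      have h3 : v.valuation K (1 - ω ^ 1) * v.valuation K (1 - ω ^ 2) = 1 := by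
        rw [← map_mul, hprod, hv3]
      have h4 : v.valuation K (1 - ω) = 1 := by
        rw [pow_one] at h1 h3
        refine le_antisymm h1 ?_
        rw [← h3]
        calc v.valuation K (1 - ω) * v.valuation K (1 - ω ^ 2) ≤ v.valuation K (1 - ω) * 1 :=
              mul_le_mul_right h2 _
          _ = _ := mul_one _
      rw [r2, map_mul, map_div₀, map_pow, hvω, h4, one_pow, div_one, one_mul, hγ]

/-- transport of compositions -/
theorem compF_map {K L : Type*} [Field K] [Field L] (φ : K →+* L) (r : ℕ) (c : K)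
    (l : List K[X]) (z : K) :
    φ (compF r c l z) = compF r (φ c) (l.map (Polynomial.map φ)) (φ z) := by
  unfold compF
  induction l generalizing z with
  | nil => rfl
  | cons H l ih =>
    rw [List.foldl_cons, ih, List.map_cons, List.foldl_cons]
    congr 1
    rw [map_add, ← map_pow, eval_map, eval₂_hom]

/-- compositions, `r ≥ 3`, degree of each factor at least 5 -/
theorem uniform_seq (K : Type u) [Field K] [NumberField K] {r m : ℕ} (hr : 3 ≤ r)
    (hrm : 5 ≤ r * m) (M : ℕ) (hM : M ≠ 0) :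
    ∃ B : ℕ, ∀ (c : K) (l : List K[X]), l ≠ [] →
      (∀ H ∈ l, H.natDegree = m ∧ (∀ i, IntAway M (H.coeff i)) ∧ IntAway M (H.leadingCoeff)⁻¹) →
      ∀ P : Finset K, (∀ x ∈ P, PerPt (compF r c l) x) → P.card ≤ B := by
  classical
  have hm : 1 ≤ m := by
    rcases Nat.eq_zero_or_pos m with h | h
    · rw [h] at hrm
      omega
    · exact h
  obtain ⟨L, i1, i2, i3, hroot, -⟩ := exists_ext K 1 one_pos (∅ : Set (HeightOneSpectrum (𝓞 K)))
    Set.finite_empty (cyclotomic r K) (cyclotomic_ne_zero r K)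
  obtain ⟨ζ0, hζ0'⟩ := hroot (cyclotomic r K) dvd_rfl (by
    rw [natDegree_cyclotomic]
    exact (Nat.totient_pos.mpr (by omega)).ne')
  have hζ0 : IsPrimitiveRoot ζ0 r := by
    have : NeZero (r : L) := ⟨by exact_mod_cast (by omega : r ≠ 0)⟩
    rw [← isRoot_cyclotomic_iff, IsRoot.def, ← map_cyclotomic r (algebraMap K L)]
    rw [eval_map_algebraMap]
    exact hζ0'
  set φ : K →+* L := algebraMap K L with hφ
  have hφinj : Function.Injective φ := φ.injective
  set S1 : Set (HeightOneSpectrum (𝓞 L)) := {v | v.valuation L ((r * m * M : ℕ) : L) ≠ 1} with hS1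
  have hS1f : S1.Finite := finite_nonunit L _ (by
    exact_mod_cast (Nat.mul_ne_zero (by omega) hM))
  have hsplit : ∀ v : HeightOneSpectrum (𝓞 L), v ∉ S1 →
      v.valuation L ((r * m : ℕ) : L) = 1 ∧ v.valuation L ((M : ℕ) : L) = 1 := by
    intro v hv
    have h1 : v.valuation L ((r * m * M : ℕ) : L) = 1 := by
      by_contra h'
      exact hv h'
    have e : ((r * m * M : ℕ) : L) = ((r * m : ℕ) : L) * ((M : ℕ) : L) := by push_cast; ring
    rw [e, map_mul] at h1
    have hnat : ∀ k : ℕ, IsIntegral ℤ ((k : ℕ) : L) := fun k => by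
      have h4 : IsIntegral ℤ (algebraMap ℤ L (k : ℤ)) := isIntegral_algebraMap
      simpa using h4
    have h2 : v.valuation L ((r * m : ℕ) : L) ≤ 1 := val_le_one v (hnat _)
    have h3 : v.valuation L ((M : ℕ) : L) ≤ 1 := val_le_one v (hnat _)
    constructor
    · refine le_antisymm h2 ?_
      calc (1 : WithZero (Multiplicative ℤ)) =
          v.valuation L ((r * m : ℕ) : L) * v.valuation L ((M : ℕ) : L) := h1.symm
        _ ≤ v.valuation L ((r * m : ℕ) : L) * 1 := mul_le_mul_right h3 _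
        _ = _ := mul_one _
    · refine le_antisymm h3 ?_
      calc (1 : WithZero (Multiplicative ℤ)) =
          v.valuation L ((r * m : ℕ) : L) * v.valuation L ((M : ℕ) : L) := h1.symm
        _ ≤ 1 * v.valuation L ((M : ℕ) : L) := mul_le_mul_left h2 _
        _ = _ := one_mul _
  obtain ⟨B, hB⟩ : ∃ B : ℕ, ∀ (c : L) (l : List L[X]), l ≠ [] →
      (∀ v : HeightOneSpectrum (𝓞 L), v ∉ S1 → GoodList (v.valuation L) m l) →
      ∀ P : Finset L, (∀ x ∈ P, PerPt (compF r c l) x) → P.card ≤ B := by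
    rcases Nat.lt_or_ge r 4 with h | h
    · obtain rfl : r = 3 := by omega
      exact seq_root3 L (by omega) hζ0 S1 hS1f fun v hv => (hsplit v hv).1
    · refine seq_root4 L hm ⟨h, ?_⟩ hζ0 S1 hS1f fun v hv => (hsplit v hv).1
      rcases Nat.lt_or_ge (r * m) 6 with h6 | h6
      · right
        have h7 : m = 1 := by
          by_contra hne
          have h8 : 2 ≤ m := by omega
          have h9 : 4 * 2 ≤ r * m := Nat.mul_le_mul h h8
          omega
        subst h7
        omega
      · left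
        omega
  refine ⟨B, fun c l hl hgood P hP => ?_⟩
  have hsemi : Function.Semiconj φ (compF r c l) (compF r (φ c) (l.map (Polynomial.map φ))) :=
    fun z => compF_map φ r c l z
  have h1 := hB (φ c) (l.map (Polynomial.map φ)) (by simpa using hl) ?_ (P.image φ) ?_
  · rwa [Finset.card_image_of_injective _ hφinj] at h1
  · intro v hv H hH
    obtain ⟨H', hH', rfl⟩ := List.mem_map.1 hH
    obtain ⟨h2, h3, h4⟩ := hgood H' hH'
    refine ⟨by rw [natDegree_map, h2], fun i => ?_, ?_⟩
    · rw [coeff_map]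
      exact val_le_one_of_away v (hsplit v hv).2 (IntAway.map (L := L) (h3 i))
    · rw [leadingCoeff_map]
      have hH0 : H' ≠ 0 := by
        rintro rfl
        rw [natDegree_zero] at h2
        omega
      have hφa : φ H'.leadingCoeff ≠ 0 := (_root_.map_ne_zero φ).mpr (leadingCoeff_ne_zero.2 hH0)
      have h5 := val_le_one_of_away v (hsplit v hv).2 (IntAway.map (L := L) h4)
      have h6 := val_le_one_of_away v (hsplit v hv).2 (IntAway.map (L := L) (h3 m))
      rw [← h2] at h6
      change v.valuation L (φ H'.leadingCoeff) ≤ 1 at h6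
      change v.valuation L (φ H'.leadingCoeff⁻¹) ≤ 1 at h5
      rw [map_inv₀, map_inv₀] at h5
      have h7 : v.valuation L (φ H'.leadingCoeff) ≠ 0 := (Valuation.ne_zero_iff _).mpr hφa
      exact le_antisymm h6 ((inv_le_one₀ (zero_lt_iff.2 h7)).1 h5)
  · intro y hy
    rw [Finset.mem_image] at hy
    obtain ⟨x, hx, rfl⟩ := hy
    exact PerPt.semiconj hsemi (hP x hx)

end UBC
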