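import Pool.Agent.UBC.Defs

/-!
# Mumford's inequality on a bielliptic curve of genus 2
-/

set_option autoImplicit false

namespace UBC

open Height NumberField

namespace MumfordAux

section Alg

variable {L : Type*} [Field L]

/-- numerator of `h j` -/
def hn (s s' w rj rk rl : L) : L :=
  s * ((s ^ 2 - rj) * (s' ^ 2 - rk) * (s' ^ 2 - rl)) + s' * ((s' ^ 2 - rj) * (s ^ 2 - rk) * (s ^ 2 - rl)) +
    (s + s') * w

lemma sq_eq {s s' w rj rk rl ξ η : L} (hu : s ^ 2 - s' ^ 2 ≠ 0) (hs : s ≠ 0) (hs' : s' ≠ 0)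
    (hw : w ^ 2 = ((s ^ 2 - rj) * (s ^ 2 - rk) * (s ^ 2 - rl)) *
      ((s' ^ 2 - rj) * (s' ^ 2 - rk) * (s' ^ 2 - rl)))
    (hξ : ξ * (s ^ 2 - s' ^ 2) ^ 2 = (s ^ 2 - rj) * (s ^ 2 - rk) * (s ^ 2 - rl) +
      (s' ^ 2 - rj) * (s' ^ 2 - rk) * (s' ^ 2 - rl) + 2 * w +
      (rj + rk + rl - s ^ 2 - s' ^ 2) * (s ^ 2 - s' ^ 2) ^ 2)
    (hη : η * (s ^ 2 - s' ^ 2) ^ 2 * (s ^ 2 * s' ^ 2) =
      (s ^ 2 - rj) * (s ^ 2 - rk) * (s ^ 2 - rl) * s' ^ 6 +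
      (s' ^ 2 - rj) * (s' ^ 2 - rk) * (s' ^ 2 - rl) * s ^ 6 + 2 * w * s ^ 3 * s' ^ 3 -
      (rj * rk + rk * rl + rl * rj) * (s ^ 2 - s' ^ 2) ^ 2 * (s ^ 2 * s' ^ 2) +
      rj * rk * rl * (s ^ 2 + s' ^ 2) * (s ^ 2 - s' ^ 2) ^ 2) :
    (hn s s' w rj rk rl / (s ^ 2 - s' ^ 2) ^ 2) ^ 2 = (ξ - rj) * (η + rk * rl) := by
  have h1 : (ξ - rj) * (s ^ 2 - s' ^ 2) ^ 2 = (s ^ 2 - rj) * (s' ^ 2 - rk) * (s' ^ 2 - rl) +
      (s' ^ 2 - rj) * (s ^ 2 - rk) * (s ^ 2 - rl) + 2 * w := by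
    linear_combination hξ
  have h2 : (η + rk * rl) * (s ^ 2 - s' ^ 2) ^ 2 = s ^ 2 * ((s ^ 2 - rj) * (s' ^ 2 - rk) * (s' ^ 2 - rl)) +
      s' ^ 2 * ((s' ^ 2 - rj) * (s ^ 2 - rk) * (s ^ 2 - rl)) + 2 * w * (s * s') := by
    have h3 : s ^ 2 * s' ^ 2 ≠ 0 := mul_ne_zero (pow_ne_zero _ hs) (pow_ne_zero _ hs')
    apply mul_right_cancel₀ h3
    linear_combination hη
  have h4 : (s ^ 2 - s' ^ 2) ^ 2 ≠ 0 := pow_ne_zero _ hu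
  rw [div_pow, div_eq_iff (pow_ne_zero _ h4)]
  have h5 : (ξ - rj) * (η + rk * rl) * ((s ^ 2 - s' ^ 2) ^ 2) ^ 2 =
      ((ξ - rj) * (s ^ 2 - s' ^ 2) ^ 2) * ((η + rk * rl) * (s ^ 2 - s' ^ 2) ^ 2) := by ring
  rw [h5, h1, h2]
  unfold hn
  linear_combination (s - s') ^ 2 * hw

lemma sum_eq {s s' w r0 r1 r2 : L} (hu : s ^ 2 - s' ^ 2 ≠ 0) (h01 : r0 - r1 ≠ 0) (h02 : r0 - r2 ≠ 0)
    (h12 : r1 - r2 ≠ 0) (t : L) (ht : t = s ∨ t = s') :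
    t = hn s s' w r0 r1 r2 / (s ^ 2 - s' ^ 2) ^ 2 * (t ^ 2 - r0) / ((r0 - r1) * (r0 - r2)) +
      hn s s' w r1 r2 r0 / (s ^ 2 - s' ^ 2) ^ 2 * (t ^ 2 - r1) / ((r1 - r2) * (r1 - r0)) +
      hn s s' w r2 r0 r1 / (s ^ 2 - s' ^ 2) ^ 2 * (t ^ 2 - r2) / ((r2 - r0) * (r2 - r1)) := by
  have h10 : r1 - r0 ≠ 0 := by rw [← neg_sub]; exact neg_ne_zero.2 h01
  have h20 : r2 - r0 ≠ 0 := by rw [← neg_sub]; exact neg_ne_zero.2 h02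
  have h21 : r2 - r1 ≠ 0 := by rw [← neg_sub]; exact neg_ne_zero.2 h12
  have e : hn s s' w r0 r1 r2 / (s ^ 2 - s' ^ 2) ^ 2 * (t ^ 2 - r0) / ((r0 - r1) * (r0 - r2)) +
      hn s s' w r1 r2 r0 / (s ^ 2 - s' ^ 2) ^ 2 * (t ^ 2 - r1) / ((r1 - r2) * (r1 - r0)) +
      hn s s' w r2 r0 r1 / (s ^ 2 - s' ^ 2) ^ 2 * (t ^ 2 - r2) / ((r2 - r0) * (r2 - r1)) =
      (hn s s' w r0 r1 r2 * (t ^ 2 - r0) * (r1 - r2) - hn s s' w r1 r2 r0 * (t ^ 2 - r1) * (r0 - r2) +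
        hn s s' w r2 r0 r1 * (t ^ 2 - r2) * (r0 - r1)) /
        ((s ^ 2 - s' ^ 2) ^ 2 * ((r0 - r1) * (r0 - r2) * (r1 - r2))) := by
    have e1 : r1 - r0 = -(r0 - r1) := by ring
    have e2 : r2 - r0 = -(r0 - r2) := by ring
    have e3 : r2 - r1 = -(r1 - r2) := by ring
    rw [e1, e2, e3]
    field_simp
    ring
  rw [e, eq_div_iff (mul_ne_zero (pow_ne_zero _ hu) (mul_ne_zero (mul_ne_zero h01 h02) h12))]
  unfold hn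
  rcases ht with rfl | rfl <;> ring

lemma xi_eq {κ s y s' y' g g' : L} {r : Fin 3 → L} (hκ : κ ≠ 0) (hu : s ^ 2 - s' ^ 2 ≠ 0)
    (hy : y ^ 2 = κ * g) (hy' : y' ^ 2 = κ * g') :
    xi κ r s y s' y' * (s ^ 2 - s' ^ 2) ^ 2 = g + g' + 2 * (y * y' / κ) +
      (r 0 + r 1 + r 2 - s ^ 2 - s' ^ 2) * (s ^ 2 - s' ^ 2) ^ 2 := by
  unfold xi
  have h1 : ((y + y') / (s ^ 2 - s' ^ 2)) ^ 2 / κ * (s ^ 2 - s' ^ 2) ^ 2 =
      (y ^ 2 + y' ^ 2 + 2 * (y * y')) / κ := by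
    field_simp
    ring
  rw [hy, hy'] at h1
  have h2 : (κ * g + κ * g' + 2 * (y * y')) / κ = g + g' + 2 * (y * y' / κ) := by
    field_simp
  linear_combination h1 + h2

lemma eta_eq {κ s y s' y' g g' : L} {r : Fin 3 → L} (hκ : κ ≠ 0) (hu : s ^ 2 - s' ^ 2 ≠ 0)
    (hs : s ≠ 0) (hs' : s' ≠ 0) (hr : ∀ j, r j ≠ 0)
    (hy : y ^ 2 = κ * g) (hy' : y' ^ 2 = κ * g') :
    eta κ r s y s' y' * (s ^ 2 - s' ^ 2) ^ 2 * (s ^ 2 * s' ^ 2) =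
      g * s' ^ 6 + g' * s ^ 6 + 2 * (y * y' / κ) * s ^ 3 * s' ^ 3 -
      (r 0 * r 1 + r 1 * r 2 + r 2 * r 0) * (s ^ 2 - s' ^ 2) ^ 2 * (s ^ 2 * s' ^ 2) +
      r 0 * r 1 * r 2 * (s ^ 2 + s' ^ 2) * (s ^ 2 - s' ^ 2) ^ 2 := by
  unfold eta
  have h0 := hr 0
  have h1 := hr 1
  have h2 := hr 2
  have e1 : (y / s ^ 3 + y' / s' ^ 3) / (1 / s ^ 2 - 1 / s' ^ 2) =
      -((y * s' ^ 3 + y' * s ^ 3) / (s * s' * (s ^ 2 - s' ^ 2))) := by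
    have e0 : 1 / s ^ 2 - 1 / s' ^ 2 = -((s ^ 2 - s' ^ 2) / (s ^ 2 * s' ^ 2)) := by
      field_simp
      ring
    rw [e0]
    field_simp
  rw [e1]
  have e2 : (-((y * s' ^ 3 + y' * s ^ 3) / (s * s' * (s ^ 2 - s' ^ 2)))) ^ 2 / κ *
      (s ^ 2 - s' ^ 2) ^ 2 * (s ^ 2 * s' ^ 2) =
      (y ^ 2 * s' ^ 6 + y' ^ 2 * s ^ 6 + 2 * (y * y') * s ^ 3 * s' ^ 3) / κ := by
    field_simp
    ring
  rw [hy, hy'] at e2
  have e3 : (κ * g * s' ^ 6 + κ * g' * s ^ 6 + 2 * (y * y') * s ^ 3 * s' ^ 3) / κ =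
      g * s' ^ 6 + g' * s ^ 6 + 2 * (y * y' / κ) * s ^ 3 * s' ^ 3 := by
    field_simp
  have e4 : (r 0 * r 1 * r 2) * (1 / r 0 + 1 / r 1 + 1 / r 2 - 1 / s ^ 2 - 1 / s' ^ 2) *
      (s ^ 2 * s' ^ 2) = (r 0 * r 1 + r 1 * r 2 + r 2 * r 0) * (s ^ 2 * s' ^ 2) -
      r 0 * r 1 * r 2 * (s ^ 2 + s' ^ 2) := by
    field_simp
    ring
  linear_combination e2 + e3 - (s ^ 2 - s' ^ 2) ^ 2 * e4

end Alg

section Ht

variable {L : Type*} [Field L] [NumberField L]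

/-- heights and linear maps -/
lemma lin {m n : ℕ} (A : Fin m → Fin n → L) :
    ∃ C : ℝ, ∀ x : Fin n → L, logHeight (fun j => ∑ i, A j i * x i) ≤ C + logHeight x :=
  ⟨_, fun x => logHeight_linearMap_apply_le (fun p : Fin m × Fin n => A p.1 p.2) x⟩

lemma segre (a c : L) : logHeight ![a * c, a, c, 1] = logHeight₁ a + logHeight₁ c := by
  have h1 : (![a, 1] : Fin 2 → L) ≠ 0 := fun h => one_ne_zero (congrFun h 1)
  have h2 : (![c, 1] : Fin 2 → L) ≠ 0 := fun h => one_ne_zero (congrFun h 1)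
  have h3 := mulHeight_mul_mulHeight h1 h2
  rw [mul_one, one_mul, one_mul] at h3
  rw [logHeight₁_eq_logHeight, logHeight₁_eq_logHeight, logHeight_eq_log_mulHeight,
    logHeight_eq_log_mulHeight, logHeight_eq_log_mulHeight, ← h3,
    Real.log_mul (mulHeight_ne_zero _) (mulHeight_ne_zero _)]

/-- the height of `(h 0, h 1, h 2, 1)` -/
lemma ht_h (r0 r1 r2 : L) : ∃ C : ℝ, ∀ h0 h1 h2 ξ η : L, h0 ^ 2 = (ξ - r0) * (η + r1 * r2) →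
    h1 ^ 2 = (ξ - r1) * (η + r2 * r0) → h2 ^ 2 = (ξ - r2) * (η + r0 * r1) →
    logHeight ![h0, h1, h2, 1] ≤ (logHeight₁ ξ + logHeight₁ η) / 2 + C := by
  obtain ⟨C, hC⟩ := lin (m := 4) (n := 4) (L := L)
    ![![1, r1 * r2, -r0, -(r0 * r1 * r2)], ![1, r2 * r0, -r1, -(r0 * r1 * r2)],
      ![1, r0 * r1, -r2, -(r0 * r1 * r2)], ![0, 0, 0, 1]]
  refine ⟨C / 2, fun h0 h1 h2 ξ η e0 e1 e2 => ?_⟩
  have h3 := hC ![ξ * η, ξ, η, 1]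
  have h4 : (fun j => ∑ i, (![![1, r1 * r2, -r0, -(r0 * r1 * r2)], ![1, r2 * r0, -r1, -(r0 * r1 * r2)],
      ![1, r0 * r1, -r2, -(r0 * r1 * r2)], ![0, 0, 0, 1]] : Fin 4 → Fin 4 → L) j i *
        (![ξ * η, ξ, η, 1] : Fin 4 → L) i) = ![h0, h1, h2, 1] ^ 2 := by
    funext j
    rw [Pi.pow_apply]
    fin_cases j
    · simp [Fin.sum_univ_four]
      linear_combination -e0
    · simp [Fin.sum_univ_four]
      linear_combination -e1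
    · simp [Fin.sum_univ_four]
      linear_combination -e2
    · simp [Fin.sum_univ_four]
  rw [h4, logHeight_pow, segre] at h3
  push_cast at h3
  linarith

/-- the height of `(B, 1, A)` -/
lemma ht_AB (r0 r1 r2 D0 D1 D2 : L) : ∃ C : ℝ, ∀ h0 h1 h2 : L,
    logHeight ![-(h0 * r0 / D0 + h1 * r1 / D1 + h2 * r2 / D2), 1, h0 / D0 + h1 / D1 + h2 / D2] ≤
      C + logHeight ![h0, h1, h2, 1] := by
  obtain ⟨C, hC⟩ := lin (m := 3) (n := 4) (L := L)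
    ![![-r0 / D0, -r1 / D1, -r2 / D2, 0], ![0, 0, 0, 1], ![1 / D0, 1 / D1, 1 / D2, 0]]
  refine ⟨C, fun h0 h1 h2 => ?_⟩
  refine le_trans (le_of_eq ?_) (hC ![h0, h1, h2, 1])
  congr 1
  funext j
  fin_cases j
  · simp [Fin.sum_univ_four]
    ring
  · simp [Fin.sum_univ_four]
  · simp [Fin.sum_univ_four]
    ring

end Ht

end MumfordAux

open MumfordAux in
/-- U7.  With `X = s ^ 2`, `X' = s' ^ 2`,
`h j = (s (X - r j) (X' - r k) (X' - r l) + s' (X' - r j) (X - r k) (X - r l) + (s + s') y y' / κ) /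
(X - X') ^ 2` one has `h j ^ 2 = (ξ - r j) (η + r k r l)`, and `s` and `s'` are roots of
`T = ∑ j, h j (T ^ 2 - r j) / ((r j - r k) (r j - r l))`. -/
theorem mumford {L : Type*} [Field L] [NumberField L] (κ : L) (hκ : κ ≠ 0) (r : Fin 3 → L)
    (hr : Function.Injective r) (hr0 : ∀ j, r j ≠ 0) :
    ∃ C : ℝ, ∀ s y s' y' : L, s ≠ 0 → s' ≠ 0 → s ^ 2 ≠ s' ^ 2 →
      y ^ 2 = κ * ((s ^ 2 - r 0) * (s ^ 2 - r 1) * (s ^ 2 - r 2)) →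
      y' ^ 2 = κ * ((s' ^ 2 - r 0) * (s' ^ 2 - r 1) * (s' ^ 2 - r 2)) →
      logHeight₁ s + logHeight₁ s' ≤
        (logHeight₁ (xi κ r s y s' y') + logHeight₁ (eta κ r s y s' y')) / 2 + C := by
  obtain ⟨C1, hC1⟩ := ht_h (r 0) (r 1) (r 2)
  obtain ⟨C2, hC2⟩ := ht_AB (r 0) (r 1) (r 2) ((r 0 - r 1) * (r 0 - r 2)) ((r 1 - r 2) * (r 1 - r 0))
    ((r 2 - r 0) * (r 2 - r 1))
  obtain ⟨C3, hC3⟩ := abs_logHeight_sym2_sub_le L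
  refine ⟨C1 + C2 + C3, fun s y s' y' hs hs' hss hy hy' => ?_⟩
  have h01 : r 0 - r 1 ≠ 0 := sub_ne_zero.2 (hr.ne (by decide))
  have h02 : r 0 - r 2 ≠ 0 := sub_ne_zero.2 (hr.ne (by decide))
  have h12 : r 1 - r 2 ≠ 0 := sub_ne_zero.2 (hr.ne (by decide))
  have hu : s ^ 2 - s' ^ 2 ≠ 0 := sub_ne_zero.2 hss
  set w := y * y' / κ with hwdef
  have hw : w ^ 2 = ((s ^ 2 - r 0) * (s ^ 2 - r 1) * (s ^ 2 - r 2)) *
      ((s' ^ 2 - r 0) * (s' ^ 2 - r 1) * (s' ^ 2 - r 2)) := by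
    rw [hwdef, div_pow, mul_pow, hy, hy']
    field_simp
  have hξ := xi_eq (r := r) hκ hu hy hy'
  have hη := eta_eq (r := r) hκ hu hs hs' hr0 hy hy'
  rw [← hwdef] at hξ hη
  set ξ := xi κ r s y s' y' with hξd
  set η := eta κ r s y s' y' with hηd
  set h0 := hn s s' w (r 0) (r 1) (r 2) / (s ^ 2 - s' ^ 2) ^ 2 with hh0
  set h1 := hn s s' w (r 1) (r 2) (r 0) / (s ^ 2 - s' ^ 2) ^ 2 with hh1
  set h2 := hn s s' w (r 2) (r 0) (r 1) / (s ^ 2 - s' ^ 2) ^ 2 with hh2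
  have e0 : h0 ^ 2 = (ξ - r 0) * (η + r 1 * r 2) :=
    sq_eq hu hs hs' hw hξ hη
  have e1 : h1 ^ 2 = (ξ - r 1) * (η + r 2 * r 0) :=
    sq_eq hu hs hs' (by linear_combination hw) (by linear_combination hξ) (by linear_combination hη)
  have e2 : h2 ^ 2 = (ξ - r 2) * (η + r 0 * r 1) :=
    sq_eq hu hs hs' (by linear_combination hw) (by linear_combination hξ) (by linear_combination hη)
  have g1 := hC1 h0 h1 h2 ξ η e0 e1 e2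
  have g2 := hC2 h0 h1 h2
  set D0 := (r 0 - r 1) * (r 0 - r 2) with hD0
  set D1 := (r 1 - r 2) * (r 1 - r 0) with hD1
  set D2 := (r 2 - r 0) * (r 2 - r 1) with hD2
  have k1 : s = h0 * (s ^ 2 - r 0) / D0 + h1 * (s ^ 2 - r 1) / D1 + h2 * (s ^ 2 - r 2) / D2 :=
    sum_eq hu h01 h02 h12 s (Or.inl rfl)
  have k2 : s' = h0 * (s' ^ 2 - r 0) / D0 + h1 * (s' ^ 2 - r 1) / D1 + h2 * (s' ^ 2 - r 2) / D2 :=
    sum_eq hu h01 h02 h12 s' (Or.inr rfl)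
  set A := h0 / D0 + h1 / D1 + h2 / D2 with hA
  set B := -(h0 * r 0 / D0 + h1 * r 1 / D1 + h2 * r 2 / D2) with hB
  have q1 : A * s ^ 2 - s + B = 0 := by
    rw [hA, hB]; linear_combination -k1
  have q2 : A * s' ^ 2 - s' + B = 0 := by
    rw [hA, hB]; linear_combination -k2
  have hd : s - s' ≠ 0 := by
    intro h
    apply hss
    rw [sub_eq_zero.1 h]
  have q3 : A * (s + s') = 1 := by
    apply mul_right_cancel₀ hd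
    linear_combination q1 - q2
  have q4 : B = A * (s * s') := by
    linear_combination q1 - s * q3
  have hA0 : A ≠ 0 := by
    intro h
    rw [h, zero_mul] at q3
    exact zero_ne_one q3
  have hv1 : (![s, 1] : Fin 2 → L) ≠ 0 := fun h => one_ne_zero (congrFun h 1)
  have hv2 : (![s', 1] : Fin 2 → L) ≠ 0 := fun h => one_ne_zero (congrFun h 1)
  have g3 := hC3 hv1 hv2
  rw [← logHeight_smul_eq_logHeight _ hA0] at g3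
  have e5 : A • ![s * s', s * 1 + 1 * s', 1 * 1] = ![B, 1, A] := by
    funext j
    fin_cases j
    · simp [q4]
    · simp [q3]
    · simp
  rw [e5, ← logHeight₁_eq_logHeight, ← logHeight₁_eq_logHeight] at g3
  have g4 := (abs_le.1 g3).1
  linarith

end UBC
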