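import Pool.Agent.UBC.GapGroup
import Pool.Agent.UBC.Par
import Pool.Agent.UBC.NorthE
import Pool.Agent.UBC.WeakMW
import Pool.Agent.UBC.Mumford

/-!
# Gap principle for `y ^ 2 = κ (s ^ 2 - r 0) (s ^ 2 - r 1) (s ^ 2 - r 2)`
-/

set_option autoImplicit false

namespace UBC

open Height NumberField

namespace GapBiAux

section Curve

variable {L : Type*} [Field L]

/-- the first quotient curve -/
def e1 (κ : L) (r : Fin 3 → L) : Fin 3 → L := fun j => κ * r j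

/-- the coefficient of the second quotient curve -/
def k2 (κ : L) (r : Fin 3 → L) : L := -(κ * r 0 * r 1 * r 2)

/-- the second quotient curve -/
def e2 (κ : L) (r : Fin 3 → L) : Fin 3 → L := fun j => k2 κ r / r j

variable {κ : L} {r : Fin 3 → L}

lemma k2_ne (hκ : κ ≠ 0) (hr0 : ∀ j, r j ≠ 0) : k2 κ r ≠ 0 :=
  neg_ne_zero.mpr (mul_ne_zero (mul_ne_zero (mul_ne_zero hκ (hr0 0)) (hr0 1)) (hr0 2))

lemma e1_inj (hκ : κ ≠ 0) (hr : Function.Injective r) : Function.Injective (e1 κ r) :=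
  fun _ _ h => hr (mul_left_cancel₀ hκ h)

lemma e2_inj (hκ : κ ≠ 0) (hr : Function.Injective r) (hr0 : ∀ j, r j ≠ 0) :
    Function.Injective (e2 κ r) := by
  intro i j h
  apply hr
  have h1 : k2 κ r / r i = k2 κ r / r j := h
  rw [div_eq_div_iff (hr0 i) (hr0 j)] at h1
  exact (mul_left_cancel₀ (k2_ne hκ hr0) h1).symm

lemma eq1 {s y : L} (h : y ^ 2 = κ * ((s ^ 2 - r 0) * (s ^ 2 - r 1) * (s ^ 2 - r 2))) :
    (κ * y) ^ 2 = (κ * s ^ 2 - e1 κ r 0) * (κ * s ^ 2 - e1 κ r 1) * (κ * s ^ 2 - e1 κ r 2) := by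
  unfold e1
  rw [mul_pow, h]
  ring

lemma eq2 (hr0 : ∀ j, r j ≠ 0) {s y : L} (hs : s ≠ 0)
    (h : y ^ 2 = κ * ((s ^ 2 - r 0) * (s ^ 2 - r 1) * (s ^ 2 - r 2))) :
    (k2 κ r * y / s ^ 3) ^ 2 = (k2 κ r / s ^ 2 - e2 κ r 0) * (k2 κ r / s ^ 2 - e2 κ r 1) *
      (k2 κ r / s ^ 2 - e2 κ r 2) := by
  have h0 := hr0 0
  have h1 := hr0 1
  have h2 := hr0 2
  have h3 : (k2 κ r * y / s ^ 3) ^ 2 = k2 κ r ^ 2 * y ^ 2 / s ^ 6 := by
    field_simp
  rw [h3, h]
  unfold e2 k2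
  field_simp
  ring

lemma xi_eq (hκ : κ ≠ 0) {s y s' y' : L} :
    ((κ * y + κ * y') / (κ * s ^ 2 - κ * s' ^ 2)) ^ 2 + (e1 κ r 0 + e1 κ r 1 + e1 κ r 2) -
      κ * s ^ 2 - κ * s' ^ 2 = κ * xi κ r s y s' y' := by
  have h2 : (κ * y + κ * y') / (κ * s ^ 2 - κ * s' ^ 2) = (y + y') / (s ^ 2 - s' ^ 2) := by
    rw [← mul_add, ← mul_sub, mul_div_mul_left _ _ hκ]
  rw [h2]
  unfold xi e1
  generalize (y + y') / (s ^ 2 - s' ^ 2) = w
  field_simp

lemma eta_eq (hκ : κ ≠ 0) (hr0 : ∀ j, r j ≠ 0) {s y s' y' : L} (hs : s ≠ 0) (hs' : s' ≠ 0) :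
    ((k2 κ r * y / s ^ 3 + k2 κ r * y' / s' ^ 3) / (k2 κ r / s ^ 2 - k2 κ r / s' ^ 2)) ^ 2 +
      (e2 κ r 0 + e2 κ r 1 + e2 κ r 2) - k2 κ r / s ^ 2 - k2 κ r / s' ^ 2 =
      κ * eta κ r s y s' y' := by
  have h0 := hr0 0
  have h1 := hr0 1
  have h2 := hr0 2
  have hk := k2_ne hκ hr0
  have h3 : (k2 κ r * y / s ^ 3 + k2 κ r * y' / s' ^ 3) / (k2 κ r / s ^ 2 - k2 κ r / s' ^ 2) =
      (y / s ^ 3 + y' / s' ^ 3) / (1 / s ^ 2 - 1 / s' ^ 2) := by
    rw [← mul_div_mul_left (y / s ^ 3 + y' / s' ^ 3) (1 / s ^ 2 - 1 / s' ^ 2) hk]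
    congr 1 <;> ring
  rw [h3]
  unfold eta e2
  generalize (y / s ^ 3 + y' / s' ^ 3) / (1 / s ^ 2 - 1 / s' ^ 2) = w
  unfold k2
  field_simp
  ring

end Curve

section Points

variable {L : Type*} [Field L] [NumberField L] [DecidableEq L] {κ : L} {r : Fin 3 → L}

open WeierstrassCurve.Affine

/-- heights of the differences on the first curve -/
lemma sub1 (hκ : κ ≠ 0) {s y s' y' : L} (hss : s ^ 2 ≠ s' ^ 2)
    (h : (EC (e1 κ r)).Nonsingular (κ * s ^ 2) (κ * y))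
    (h' : (EC (e1 κ r)).Nonsingular (κ * s' ^ 2) (κ * y')) :
    hE (Point.some _ _ h - Point.some _ _ h' : (EC (e1 κ r)).Point) =
      logHeight₁ (κ * xi κ r s y s' y') := by
  obtain ⟨X, Y, h'', hsub, hX, -⟩ := sub_some (e1 κ r) h h'
    (fun heq => hss (mul_left_cancel₀ hκ heq))
  rw [hsub, hE_some, hX, xi_eq hκ]

/-- heights of the differences on the second curve -/
lemma sub2 (hκ : κ ≠ 0) (hr0 : ∀ j, r j ≠ 0) {s y s' y' : L} (hs : s ≠ 0) (hs' : s' ≠ 0)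
    (hss : s ^ 2 ≠ s' ^ 2)
    (h : (EC (e2 κ r)).Nonsingular (k2 κ r / s ^ 2) (k2 κ r * y / s ^ 3))
    (h' : (EC (e2 κ r)).Nonsingular (k2 κ r / s' ^ 2) (k2 κ r * y' / s' ^ 3)) :
    hE (Point.some _ _ h - Point.some _ _ h' : (EC (e2 κ r)).Point) =
      logHeight₁ (κ * eta κ r s y s' y') := by
  obtain ⟨X, Y, h'', hsub, hX, -⟩ := sub_some (e2 κ r) h h'
    (fun heq => by
      rw [div_eq_div_iff (pow_ne_zero 2 hs) (pow_ne_zero 2 hs')] at heq
      exact hss (mul_left_cancel₀ (k2_ne hκ hr0) heq).symm)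
  rw [hsub, hE_some, hX, eta_eq hκ hr0 hs hs']

end Points

lemma ht_le {L : Type*} [Field L] [NumberField L] {κ : L} (hκ : κ ≠ 0) (x : L) :
    logHeight₁ x ≤ logHeight₁ (κ * x) + logHeight₁ κ := by
  have h1 : x = (κ * x) * κ⁻¹ := by
    field_simp
  calc logHeight₁ x = logHeight₁ ((κ * x) * κ⁻¹) := by rw [← h1]
    _ ≤ logHeight₁ (κ * x) + logHeight₁ κ⁻¹ := logHeight₁_mul_le _ _
    _ = _ := by rw [logHeight₁_inv]

lemma ht1 {L : Type*} [Field L] [NumberField L] (κ s : L) :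
    logHeight₁ (κ * s ^ 2) ≤ logHeight₁ κ + 2 * logHeight₁ s := by
  refine (logHeight₁_mul_le _ _).trans ?_
  rw [logHeight₁_pow]
  push_cast
  exact le_rfl

lemma ht2 {L : Type*} [Field L] [NumberField L] (κ s : L) :
    logHeight₁ (κ / s ^ 2) ≤ logHeight₁ κ + 2 * logHeight₁ s := by
  rw [div_eq_mul_inv]
  refine (logHeight₁_mul_le _ _).trans ?_
  rw [logHeight₁_inv, logHeight₁_pow]
  push_cast
  exact le_rfl

end GapBiAux

open GapBiAux WeierstrassCurve.Affine in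
/-- U8. gap principle (Mumford) -/
theorem gap_bielliptic {L : Type*} [Field L] [NumberField L] (κ : L) (hκ : κ ≠ 0) (r : Fin 3 → L)
    (hr : Function.Injective r) (hr0 : ∀ j, r j ≠ 0) :
    Gap (fun s : L => logHeight₁ s)
      {s : L | IsSquare (κ * ((s ^ 2 - r 0) * (s ^ 2 - r 1) * (s ^ 2 - r 2)))} := by
  classical
  intro lam
  have hi1 := e1_inj hκ hr
  have hi2 := e2_inj hκ hr hr0
  obtain ⟨C1, hC1⟩ := parallelogram (e1 κ r) hi1
  obtain ⟨C2, hC2⟩ := parallelogram (e2 κ r) hi2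
  obtain ⟨R1, hR1f, hR1⟩ := weak_mw (e1 κ r) hi1
  obtain ⟨R2, hR2f, hR2⟩ := weak_mw (e2 κ r) hi2
  obtain ⟨C3, hC3⟩ := mumford κ hκ r hr hr0
  obtain ⟨N, H0, hgap⟩ := gap_group (G := (EC (e1 κ r)).Point × (EC (e2 κ r)).Point)
    (fun x => hE x.1 + hE x.2) (C1 + C2)
    (by
      rintro ⟨P1, P2⟩ ⟨Q1, Q2⟩
      have h1 := hC1 P1 Q1
      have h2 := hC2 P2 Q2
      rw [abs_le] at h1 h2 ⊢
      simp only [Prod.mk_add_mk, Prod.mk_sub_mk]
      constructor <;> linarith [h1.1, h1.2, h2.1, h2.2])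
    (fun x => add_nonneg (hE_nonneg _) (hE_nonneg _))
    (by
      intro B
      refine ((northcott_E (EC (e1 κ r)) B).prod (northcott_E (EC (e2 κ r)) B)).subset ?_
      rintro ⟨P1, P2⟩ hx
      have hx' : hE P1 + hE P2 ≤ B := hx
      refine ⟨?_, ?_⟩
      · show hE P1 ≤ B
        linarith [hE_nonneg P2]
      · show hE P2 ≤ B
        linarith [hE_nonneg P1])
    (R1 ×ˢ R2) (hR1f.prod hR2f)
    (by
      rintro ⟨P1, P2⟩
      obtain ⟨g1, hg1, q1, hq1⟩ := hR1 P1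
      obtain ⟨g2, hg2, q2, hq2⟩ := hR2 P2
      refine ⟨(g1, g2), ⟨hg1, hg2⟩, (q1, q2), ?_⟩
      rw [Prod.mk_add_mk, Prod.mk_add_mk, ← hq1, ← hq2])
    (4 * lam + 1) 1 one_pos
  set D : ℝ := logHeight₁ κ + logHeight₁ (k2 κ r) with hD
  refine ⟨2 * N + 1, max H0 (max D (logHeight₁ κ + C3 + 1)), ?_⟩
  intro H hH A hA
  have hH0 : H0 ≤ H := (le_max_left _ _).trans hH
  have hHD : D ≤ H := (le_max_left _ _).trans ((le_max_right _ _).trans hH)
  have hHC : logHeight₁ κ + C3 + 1 ≤ H := (le_max_right _ _).trans ((le_max_right _ _).trans hH)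
  by_contra hcard
  push Not at hcard
  -- the elements different from zero
  have hA'card : 2 * N < (A.erase 0).card := by
    have := Finset.pred_card_le_card_erase (s := A) (a := 0)
    omega
  have hsq : (A.erase 0).card ≤ 2 * ((A.erase 0).image (fun s => s ^ 2)).card := by
    apply Finset.card_le_mul_card_image
    intro b hb
    obtain ⟨s, hs, rfl⟩ := Finset.mem_image.mp hb
    have h1 : (A.erase 0).filter (fun a => a ^ 2 = s ^ 2) ⊆ {s, -s} := by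
      intro a ha
      rw [Finset.mem_filter] at ha
      rw [Finset.mem_insert, Finset.mem_singleton]
      exact sq_eq_sq_iff_eq_or_eq_neg.mp ha.2
    exact (Finset.card_le_card h1).trans Finset.card_le_two
  obtain ⟨U, hUA, hUinj, hUim⟩ := Finset.exists_subset_injOn_image_eq_of_surjOn
    (f := fun s : L => s ^ 2) (↑(A.erase 0) : Set L) ((A.erase 0).image (fun s => s ^ 2)) (by
      intro x hx
      rw [Finset.coe_image] at hx
      exact hx)
  have hUcard : N < U.card := by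
    have h1 : ((A.erase 0).image (fun s => s ^ 2)).card ≤ U.card := by
      rw [← hUim]
      exact Finset.card_image_le
    omega
  have hUmem : ∀ s ∈ U, s ≠ 0 ∧ s ∈ A := by
    intro s hs
    have := hUA hs
    rw [Finset.mem_coe, Finset.mem_erase] at this
    exact this
  -- the ordinates
  have hy : ∀ s : L, ∃ y : L, s ∈ U →
      y ^ 2 = κ * ((s ^ 2 - r 0) * (s ^ 2 - r 1) * (s ^ 2 - r 2)) := by
    intro s
    by_cases hs : s ∈ U
    · obtain ⟨y, hy⟩ := (hA s (hUmem s hs).2).1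
      exact ⟨y, fun _ => by rw [hy, pow_two]⟩
    · exact ⟨0, fun h => absurd h hs⟩
  choose y hy using hy
  have hns1 : ∀ s ∈ U, (EC (e1 κ r)).Nonsingular (κ * s ^ 2) (κ * y s) :=
    fun s hs => EC_nonsingular _ hi1 _ _ (eq1 (hy s hs))
  have hns2 : ∀ s ∈ U, (EC (e2 κ r)).Nonsingular (k2 κ r / s ^ 2) (k2 κ r * y s / s ^ 3) :=
    fun s hs => EC_nonsingular _ hi2 _ _ (eq2 hr0 (hUmem s hs).1 (hy s hs))
  let φ : U → (EC (e1 κ r)).Point × (EC (e2 κ r)).Point := fun s =>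
    (Point.some _ _ (hns1 s s.2), Point.some _ _ (hns2 s s.2))
  have hφinj : Function.Injective φ := by
    intro s s' h
    have h1 : (Point.some _ _ (hns1 s s.2) : (EC (e1 κ r)).Point) =
      Point.some _ _ (hns1 s' s'.2) := congrArg Prod.fst h
    rw [Point.some.injEq] at h1
    have h2 : (s : L) ^ 2 = (s' : L) ^ 2 := mul_left_cancel₀ hκ h1.1
    exact Subtype.ext (hUinj s.2 s'.2 h2)
  obtain ⟨a, ha, b, hb, hab, hlt⟩ := hgap H hH0 (Finset.univ.image φ)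
    (by
      intro a ha
      obtain ⟨s, -, rfl⟩ := Finset.mem_image.mp ha
      show hE (Point.some _ _ (hns1 s s.2)) + hE (Point.some _ _ (hns2 s s.2)) ≤ _
      rw [hE_some, hE_some]
      have h1 := ht1 κ (s : L)
      have h2 := ht2 (k2 κ r) (s : L)
      have h3 := (hA s (hUmem s s.2).2).2.2
      simp only at h3
      nlinarith [h1, h2, h3, hHD])
    (by
      rw [Finset.card_image_of_injective _ hφinj, Finset.card_univ, Fintype.card_coe]
      exact hUcard)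
  obtain ⟨s, -, rfl⟩ := Finset.mem_image.mp ha
  obtain ⟨s', -, rfl⟩ := Finset.mem_image.mp hb
  have hss : (s : L) ^ 2 ≠ (s' : L) ^ 2 := by
    intro h
    exact hab (congrArg φ (Subtype.ext (hUinj s.2 s'.2 h)))
  have hs0 := (hUmem s s.2).1
  have hs0' := (hUmem s' s'.2).1
  have h1 : hE (Point.some _ _ (hns1 s s.2) - Point.some _ _ (hns1 s' s'.2) :
      (EC (e1 κ r)).Point) + hE (Point.some _ _ (hns2 s s.2) - Point.some _ _ (hns2 s' s'.2) :
      (EC (e2 κ r)).Point) < 1 * H := hlt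
  rw [sub1 hκ hss, sub2 hκ hr0 hs0 hs0' hss] at h1
  have h2 := hC3 s (y s) s' (y s') hs0 hs0' hss (hy s s.2) (hy s' s'.2)
  have h3 := ht_le hκ (xi κ r s (y s) s' (y s'))
  have h4 := ht_le hκ (eta κ r s (y s) s' (y s'))
  have h5 := (hA s (hUmem s s.2).2).2.1
  have h6 := (hA s' (hUmem s' s'.2).2).2.1
  simp only at h5 h6
  have h7 : 0 ≤ D := add_nonneg (zero_le_logHeight₁ _) (zero_le_logHeight₁ _)
  linarith

end UBC
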