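import Mathlib

/-!
# Packing in an abelian group with a quadratic height
-/

set_option autoImplicit false

namespace UBC

/-- U1.  In an abelian group with a height satisfying the approximate parallelogram law and the
Northcott property and with `G / 2G` finite, more than `N` elements of height at most `lam * H`
contain two whose difference has height less than `ε * H`. -/
theorem gap_group {G : Type*} [AddCommGroup G] (h : G → ℝ) (C : ℝ)
    (hpar : ∀ x y, |h (x + y) + h (x - y) - 2 * (h x + h y)| ≤ C) (h0 : ∀ x, 0 ≤ h x)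
    (hN : ∀ B : ℝ, {x | h x ≤ B}.Finite)
    (R : Set G) (hRf : R.Finite) (hR : ∀ x, ∃ g ∈ R, ∃ y, x = g + (y + y))
    (lam ε : ℝ) (hε : 0 < ε) :
    ∃ (N : ℕ) (H0 : ℝ), ∀ H : ℝ, H0 ≤ H → ∀ A : Finset G, (∀ a ∈ A, h a ≤ lam * H) →
      N < A.card → ∃ a ∈ A, ∃ b ∈ A, a ≠ b ∧ h (a - b) < ε * H := by
  classical
  have hC : 0 ≤ C := (abs_nonneg _).trans (hpar 0 0)
  have hz : h 0 ≤ C / 2 := by
    have h1 := (abs_le.mp (hpar 0 0)).1
    simp only [add_zero, sub_zero] at h1
    linarith
  have hadd : ∀ x y, h (x + y) ≤ 2 * h x + 2 * h y + C := fun x y => by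
    have h1 := (abs_le.mp (hpar x y)).2
    have h2 := h0 (x - y)
    linarith
  have hsub : ∀ x y, h (x - y) ≤ 2 * h x + 2 * h y + C := fun x y => by
    have h1 := (abs_le.mp (hpar x y)).2
    have h2 := h0 (x + y)
    linarith
  have hdbl : ∀ y, 4 * h y ≤ h (y + y) + 3 / 2 * C := fun y => by
    have h1 := (abs_le.mp (hpar y y)).1
    rw [sub_self] at h1
    linarith
  -- the counting function
  set Bl : ℝ → Finset G := fun T => (hN T).toFinset with hBl
  have hmem : ∀ T x, x ∈ Bl T ↔ h x ≤ T := fun T x => by simp [hBl]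
  have hmono : ∀ S T, S ≤ T → (Bl S).card ≤ (Bl T).card := fun S T hST =>
    Finset.card_le_card fun x hx => by rw [hmem] at hx ⊢; exact hx.trans hST
  -- a bound on `R`
  obtain ⟨M, hM⟩ : ∃ M : ℝ, ∀ g ∈ R, h g ≤ M := by
    obtain ⟨M, hM⟩ := (hRf.image h).bddAbove
    exact ⟨M, fun g hg => hM ⟨g, hg, rfl⟩⟩
  set C' : ℝ := (2 * M + 5 / 2 * C) / 4 with hC'
  have hstep : ∀ T, (Bl T).card ≤ hRf.toFinset.card * (Bl (T / 2 + C')).card := by
    intro T
    choose g hg y hy using hR
    rw [← Finset.card_product]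
    refine Finset.card_le_card_of_injOn (fun x => (g x, y x)) ?_ ?_
    · intro x hx
      have hx' : h x ≤ T := (hmem T x).mp hx
      simp only [Finset.coe_product, Set.mem_prod, Finset.mem_coe, Set.Finite.mem_toFinset]
      refine ⟨hg x, (hmem _ _).mpr ?_⟩
      have h1 := hdbl (y x)
      have h2 : y x + y x = x - g x := by
        rw [eq_sub_iff_add_eq, add_comm]
        exact (hy x).symm
      have h3 := hsub x (g x)
      have h4 := hM _ (hg x)
      rw [h2] at h1
      rw [hC']
      linarith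
    · intro x _ x' _ hxx
      simp only [Prod.mk.injEq] at hxx
      rw [hy x, hy x', hxx.1, hxx.2]
  have hstep2 : ∀ T, 6 * C' ≤ T → (Bl T).card ≤ hRf.toFinset.card * (Bl (2 / 3 * T)).card := by
    intro T hT
    refine (hstep T).trans (Nat.mul_le_mul_left _ (hmono _ _ ?_))
    linarith
  have hiter : ∀ (j : ℕ) (T : ℝ), 0 ≤ T → 6 * C' ≤ (2 / 3) ^ j * T →
      (Bl T).card ≤ hRf.toFinset.card ^ j * (Bl ((2 / 3) ^ j * T)).card := by
    intro j
    induction j with
    | zero => intro T _ _; simp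
    | succ j ih =>
      intro T hT0 hT
      have h1 : (2 / 3 : ℝ) ^ (j + 1) * T ≤ (2 / 3) ^ j * T := by
        apply mul_le_mul_of_nonneg_right _ hT0
        exact pow_le_pow_of_le_one (by norm_num) (by norm_num) (Nat.le_succ j)
      refine (ih T hT0 (hT.trans h1)).trans ?_
      rw [pow_succ, mul_assoc]
      refine Nat.mul_le_mul_left _ ?_
      have h2 := hstep2 ((2 / 3) ^ j * T) (hT.trans h1)
      have h3 : (2 / 3 : ℝ) * ((2 / 3) ^ j * T) = (2 / 3) ^ (j + 1) * T := by ring
      rwa [h3] at h2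
  -- the choice of `j`
  set a0 : ℝ := 2 * |lam| + 2 * ε / 5 + 1 with ha0
  have ha0p : 0 < a0 := by positivity
  obtain ⟨j, hj⟩ : ∃ j : ℕ, (2 / 3 : ℝ) ^ j < ε / 5 / a0 :=
    exists_pow_lt_of_lt_one (by positivity) (by norm_num)
  have hjp : 0 < (2 / 3 : ℝ) ^ j * a0 := by positivity
  refine ⟨hRf.toFinset.card ^ j, max (max 1 C) (max (5 * C / ε + 1) (6 * C' / ((2 / 3) ^ j * a0))),
    fun H hH A hA hcard => ?_⟩
  have hH1 : 1 ≤ H := (le_max_left _ _).trans ((le_max_left _ _).trans hH)
  have hHC : C ≤ H := (le_max_right _ _).trans ((le_max_left _ _).trans hH)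
  have hHε : 5 * C / ε + 1 ≤ H := (le_max_left _ _).trans ((le_max_right _ _).trans hH)
  have hHj : 6 * C' / ((2 / 3) ^ j * a0) ≤ H :=
    (le_max_right _ _).trans ((le_max_right _ _).trans hH)
  have hCε : 5 * C < ε * H := by
    have h1 : 5 * C / ε < H := by linarith
    rw [div_lt_iff₀ hε] at h1
    linarith
  by_contra hcon
  push Not at hcon
  set ρ : ℝ := ε * H / 5 with hρ
  have hkey : A.card * (Bl ρ).card ≤ (Bl (a0 * H)).card := by
    rw [← Finset.card_product]
    refine Finset.card_le_card_of_injOn (fun p => p.2 + p.1) ?_ ?_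
    · rintro ⟨a, z⟩ hp
      simp only [Finset.coe_product, Set.mem_prod, Finset.mem_coe] at hp
      refine (hmem _ _).mpr ?_
      have h1 := hadd z a
      have h2 := (hmem _ _).mp hp.2
      have h3 := hA a hp.1
      have h4 : lam * H ≤ |lam| * H := mul_le_mul_of_nonneg_right (le_abs_self _) (by linarith)
      simp only
      rw [ha0]
      nlinarith
    · rintro ⟨a, z⟩ hp ⟨b, w⟩ hq heq
      simp only [Finset.coe_product, Set.mem_prod, Finset.mem_coe] at hp hq heq
      have hab : a = b := by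
        by_contra hne
        have h1 := hcon a hp.1 b hq.1 hne
        have h2 : a - b = w - z := by
          rw [sub_eq_sub_iff_add_eq_add, add_comm a z, heq]
        rw [h2] at h1
        have h3 := hsub w z
        have h4 := (hmem _ _).mp hp.2
        have h5 := (hmem _ _).mp hq.2
        linarith
      subst hab
      simpa using heq
  have hit := hiter j (a0 * H) (by positivity) (by
    rw [div_le_iff₀ hjp] at hHj
    linarith [hHj])
  have hle : (2 / 3 : ℝ) ^ j * (a0 * H) ≤ ρ := by
    rw [lt_div_iff₀ ha0p] at hj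
    rw [hρ]
    nlinarith
  have h0ρ : 0 ∈ Bl ρ := by
    rw [hmem]
    linarith
  have hpos : 0 < (Bl ρ).card := Finset.card_pos.mpr ⟨0, h0ρ⟩
  have h1 : A.card * (Bl ρ).card ≤ hRf.toFinset.card ^ j * (Bl ρ).card :=
    hkey.trans (hit.trans (Nat.mul_le_mul_left _ (hmono _ _ hle)))
  have h2 := Nat.le_of_mul_le_mul_right h1 hpos
  omega

end UBC
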