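import Pool.Agent.UBC.Dickson

set_option autoImplicit false
set_option linter.unusedSectionVars false

/-!
# Power maps and Dickson maps are good
-/

namespace Pool.Agent.UBC

variable {K : Type*} [NormedField K] [IsUltrametricDist K]

/-- The scale function. -/
noncomputable def scl (s : ℝ) (x y : K) : ℝ := max (max ‖x‖ ‖y‖) s

theorem good_of_quot {f : K → K} {c s : ℝ} {k : ℕ} (hc : 0 < c)
    (h1 : ∀ x y, ‖f x - f y‖ = c * ‖x - y‖ * (scl s x y) ^ k)
    (h2 : ∀ M : ℝ, 0 < M → ∀ x y x' y' : K, x ≠ y → x' ≠ y' → ‖x‖ ≤ M → ‖y‖ ≤ M → ‖x'‖ ≤ M →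
      ‖y'‖ ≤ M → s ≤ M → ‖(f x - f y) / (x - y) - (f x' - f y') / (x' - y')‖ * M ≤
        c * M ^ k * max ‖x - x'‖ ‖y - y'‖) : Good f := by
  have hpos : ∀ x y : K, x ≠ y → 0 < scl s x y := by
    intro x y hxy
    unfold scl
    rcases lt_or_eq_of_le (norm_nonneg x) with h | h
    · exact lt_max_of_lt_left (lt_max_of_lt_left h)
    · have hx : x = 0 := norm_eq_zero.mp h.symm
      have hy : y ≠ 0 := fun e => hxy (by rw [hx, e])
      exact lt_max_of_lt_left (lt_max_of_lt_right (norm_pos_iff.mpr hy))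
  have hle : ∀ x y z : K, ‖x - y‖ ≤ ‖x - z‖ → ‖y‖ ≤ max ‖x‖ ‖z‖ := by
    intro x y z h
    have h1 : ‖x - z‖ ≤ max ‖x‖ ‖z‖ := by
      have := norm_sub_le_max' x 0 z
      simpa using this
    have h2 : ‖y‖ ≤ max ‖x‖ ‖x - y‖ := by
      have := norm_sub_le_max' y x 0
      rw [sub_zero, sub_zero, norm_sub_rev y x, max_comm] at this
      exact this
    exact h2.trans (max_le (le_max_left _ _) (h.trans h1))
  refine ⟨?_, ?_, ?_⟩
  · intro x y hxy
    by_contra hne
    have h := h1 x y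
    rw [hxy, sub_self, norm_zero] at h
    have : 0 < c * ‖x - y‖ * (scl s x y) ^ k := by
      have := hpos x y hne
      have := norm_pos_iff.mpr (sub_ne_zero.mpr hne)
      positivity
    linarith
  · intro x y z h
    rw [h1, h1]
    by_cases hxy : x = y
    · subst hxy; simp
    have hsc : scl s x y ≤ scl s x z := by
      unfold scl
      refine max_le (max_le (le_max_of_le_left (le_max_left _ _)) ?_) (le_max_right _ _)
      exact le_max_of_le_left (hle x y z h)
    have hp := hpos x y hxy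
    have : (scl s x y) ^ k ≤ (scl s x z) ^ k := pow_le_pow_left₀ hp.le hsc k
    calc c * ‖x - y‖ * scl s x y ^ k * ‖x - z‖ = (c * ‖x - y‖ * ‖x - z‖) * scl s x y ^ k := by ring
      _ ≤ (c * ‖x - y‖ * ‖x - z‖) * scl s x z ^ k := by
          apply mul_le_mul_of_nonneg_left this; positivity
      _ = _ := by ring
  · intro ε hε0 hε1 x y x' y' w hxy hx'y' hxw hy hx' hy' he _
    have hxw' : 0 < ‖x - w‖ := norm_pos_iff.mpr (sub_ne_zero.mpr hxw)
    have hxy' : 0 < ‖x - y‖ := norm_pos_iff.mpr (sub_ne_zero.mpr hxy)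
    set M := scl s x w with hM
    have hM0 : 0 < M := hpos x w hxw
    have hxM : ‖x‖ ≤ M := le_max_of_le_left (le_max_left _ _)
    have hwM : ‖w‖ ≤ M := le_max_of_le_left (le_max_right _ _)
    have hsM : s ≤ M := le_max_right _ _
    have hmax : max ‖x‖ ‖w‖ ≤ M := max_le hxM hwM
    have hyM : ‖y‖ ≤ M := (hle x y w (hy.trans (by nlinarith))).trans hmax
    have hx'M : ‖x'‖ ≤ M := (hle x x' w (hx'.trans (by nlinarith))).trans hmax
    have hy'M : ‖y'‖ ≤ M := (hle x y' w (hy'.trans (by nlinarith))).trans hmax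
    have hq := h2 M hM0 x y x' y' hxy hx'y' hxM hyM hx'M hy'M hsM
    have hyy' : ‖y - y'‖ ≤ ε * ‖x - w‖ := by
      have := norm_sub_le_max' y x y'
      rw [norm_sub_rev y x] at this
      exact this.trans (max_le hy hy')
    have hxwM : ‖x - w‖ ≤ M := by
      have := norm_sub_le_max' x 0 w
      rw [sub_zero, zero_sub, norm_neg] at this
      exact this.trans hmax
    have hmx : max ‖x - x'‖ ‖y - y'‖ ≤ ε * M := by
      refine (max_le hx' hyy').trans ?_
      exact mul_le_mul_of_nonneg_left hxwM hε0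
    rw [h1, h1] at he
    have hpow : scl s x y ^ k = M ^ k := by
      have : (c * ‖x - y‖ * ‖x - w‖) * scl s x y ^ k = (c * ‖x - y‖ * ‖x - w‖) * M ^ k := by
        linear_combination he
      exact mul_left_cancel₀ (by positivity) this
    have hqn : ‖(f x - f y) / (x - y)‖ = c * M ^ k := by
      rw [norm_div, h1, hpow]
      field_simp
    rw [hqn]
    have : ‖(f x - f y) / (x - y) - (f x' - f y') / (x' - y')‖ * M ≤ (ε * (c * M ^ k)) * M := by
      calc _ ≤ c * M ^ k * max ‖x - x'‖ ‖y - y'‖ := hq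
        _ ≤ c * M ^ k * (ε * M) := by
            apply mul_le_mul_of_nonneg_left hmx; positivity
        _ = _ := by ring
    exact le_of_mul_le_mul_right this hM0

section bounds
variable {h : K} {M : ℝ}

theorem norm_two_le : ‖(2 : K)‖ ≤ 1 := by
  have := norm_nat_le_one (K := K) 2
  simpa using this

theorem norm_dk_le (hM : 0 < M) (hh : ‖h‖ ≤ M ^ 2) (n : ℕ) {x : K} (hx : ‖x‖ ≤ M) :
    ‖dk h n x‖ ≤ M ^ n := by
  induction n using Nat.twoStepInduction with
  | zero => rw [dk_zero, pow_zero]; exact norm_two_le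
  | one => rw [dk_one, pow_one]; exact hx
  | more n ih1 ih2 =>
    rw [dk_add_two]
    refine (norm_sub_le_max' _ 0 _).trans ?_
    rw [sub_zero, zero_sub, norm_neg, norm_mul, norm_mul]
    refine max_le ?_ ?_
    · calc ‖x‖ * ‖dk h (n + 1) x‖ ≤ M * M ^ (n + 1) := mul_le_mul hx ih2 (norm_nonneg _) hM.le
        _ = _ := by ring
    · calc ‖h‖ * ‖dk h n x‖ ≤ M ^ 2 * M ^ n := mul_le_mul hh ih1 (norm_nonneg _) (by positivity)
        _ = _ := by ring

theorem norm_dd_le (hM : 0 < M) (hh : ‖h‖ ≤ M ^ 2) (n : ℕ) {x y : K} (hx : ‖x‖ ≤ M)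
    (hy : ‖y‖ ≤ M) : ‖dd h n x y‖ * M ≤ M ^ n := by
  induction n using Nat.twoStepInduction with
  | zero => rw [dd_zero]; simp
  | one => rw [dd_one]; simp
  | more n ih1 ih2 =>
    rw [dd_add_two]
    have e1 : ‖dk h (n + 1) x + y * dd h (n + 1) x y - h * dd h n x y‖ ≤
        max (max ‖dk h (n + 1) x‖ ‖y * dd h (n + 1) x y‖) ‖h * dd h n x y‖ := by
      refine (norm_sub_le_max' _ 0 _).trans ?_
      rw [sub_zero, zero_sub, norm_neg]
      exact max_le_max (IsUltrametricDist.norm_add_le_max _ _) le_rfl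
    refine (mul_le_mul_of_nonneg_right e1 hM.le).trans ?_
    rw [max_mul_of_nonneg _ _ hM.le, max_mul_of_nonneg _ _ hM.le, norm_mul, norm_mul]
    refine max_le (max_le ?_ ?_) ?_
    · calc ‖dk h (n + 1) x‖ * M ≤ M ^ (n + 1) * M :=
            mul_le_mul_of_nonneg_right (norm_dk_le hM hh _ hx) hM.le
        _ = _ := by ring
    · calc ‖y‖ * ‖dd h (n + 1) x y‖ * M = ‖y‖ * (‖dd h (n + 1) x y‖ * M) := by ring
        _ ≤ M * M ^ (n + 1) := mul_le_mul hy ih2 (by positivity) hM.le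
        _ = _ := by ring
    · calc ‖h‖ * ‖dd h n x y‖ * M = ‖h‖ * (‖dd h n x y‖ * M) := by ring
        _ ≤ M ^ 2 * M ^ n := mul_le_mul hh ih1 (by positivity) (by positivity)
        _ = _ := by ring

theorem norm_dd_sub_le (hM : 0 < M) (hh : ‖h‖ ≤ M ^ 2) (n : ℕ) {x y x' y' : K} (hx : ‖x‖ ≤ M)
    (hy : ‖y‖ ≤ M) (hx' : ‖x'‖ ≤ M) (hy' : ‖y'‖ ≤ M) :
    ‖dd h n x y - dd h n x' y'‖ * M ^ 2 ≤ M ^ n * max ‖x - x'‖ ‖y - y'‖ := by
  set m := max ‖x - x'‖ ‖y - y'‖ with hm
  have hm0 : 0 ≤ m := le_max_of_le_left (norm_nonneg _)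
  induction n using Nat.twoStepInduction with
  | zero => rw [dd_zero, dd_zero]; simp; positivity
  | one => rw [dd_one, dd_one]; simp; positivity
  | more n ih1 ih2 =>
    rw [dd_add_two, dd_add_two]
    have e : (dk h (n + 1) x + y * dd h (n + 1) x y - h * dd h n x y) -
        (dk h (n + 1) x' + y' * dd h (n + 1) x' y' - h * dd h n x' y') =
        ((dk h (n + 1) x - dk h (n + 1) x') + y * (dd h (n + 1) x y - dd h (n + 1) x' y')) +
        ((y - y') * dd h (n + 1) x' y' + (-h) * (dd h n x y - dd h n x' y')) := by ring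
    rw [e]
    have e1 : ‖((dk h (n + 1) x - dk h (n + 1) x') + y * (dd h (n + 1) x y - dd h (n + 1) x' y')) +
        ((y - y') * dd h (n + 1) x' y' + (-h) * (dd h n x y - dd h n x' y'))‖ ≤
        max (max ‖dk h (n + 1) x - dk h (n + 1) x'‖ ‖y * (dd h (n + 1) x y - dd h (n + 1) x' y')‖)
        (max ‖(y - y') * dd h (n + 1) x' y'‖ ‖(-h) * (dd h n x y - dd h n x' y')‖) :=
      (IsUltrametricDist.norm_add_le_max _ _).trans (max_le_max
        (IsUltrametricDist.norm_add_le_max _ _) (IsUltrametricDist.norm_add_le_max _ _))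
    have hM2 : 0 ≤ M ^ 2 := by positivity
    refine (mul_le_mul_of_nonneg_right e1 hM2).trans ?_
    rw [max_mul_of_nonneg _ _ hM2, max_mul_of_nonneg _ _ hM2, max_mul_of_nonneg _ _ hM2]
    refine max_le (max_le ?_ ?_) (max_le ?_ ?_)
    · rw [dk_sub, norm_mul]
      have h1 := norm_dd_le hM hh (n + 1) hx hx'
      calc ‖x - x'‖ * ‖dd h (n + 1) x x'‖ * M ^ 2 = ‖x - x'‖ * (‖dd h (n + 1) x x'‖ * M) * M := by
            ring
        _ ≤ m * M ^ (n + 1) * M := by
            apply mul_le_mul_of_nonneg_right _ hM.le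
            exact mul_le_mul (le_max_left _ _) h1 (by positivity) hm0
        _ = _ := by ring
    · rw [norm_mul]
      calc ‖y‖ * ‖dd h (n + 1) x y - dd h (n + 1) x' y'‖ * M ^ 2
          = ‖y‖ * (‖dd h (n + 1) x y - dd h (n + 1) x' y'‖ * M ^ 2) := by ring
        _ ≤ M * (M ^ (n + 1) * m) := mul_le_mul hy ih2 (by positivity) hM.le
        _ = _ := by ring
    · rw [norm_mul]
      have h1 := norm_dd_le hM hh (n + 1) hx' hy'
      calc ‖y - y'‖ * ‖dd h (n + 1) x' y'‖ * M ^ 2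
          = ‖y - y'‖ * (‖dd h (n + 1) x' y'‖ * M) * M := by ring
        _ ≤ m * M ^ (n + 1) * M := by
            apply mul_le_mul_of_nonneg_right _ hM.le
            exact mul_le_mul (le_max_right _ _) h1 (by positivity) hm0
        _ = _ := by ring
    · rw [norm_mul, norm_neg]
      calc ‖h‖ * ‖dd h n x y - dd h n x' y'‖ * M ^ 2
          = ‖h‖ * (‖dd h n x y - dd h n x' y'‖ * M ^ 2) := by ring
        _ ≤ M ^ 2 * (M ^ n * m) := mul_le_mul hh ih1 (by positivity) (by positivity)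
        _ = _ := by ring

end bounds

/-- If the divided difference of `D_{k+1}(·, h)` always has maximal norm, the map is good. -/
theorem good_dk {h : K} {k : ℕ}
    (H : ∀ x y : K, x ≠ y → ‖dd h (k + 1) x y‖ = (scl (Real.sqrt ‖h‖) x y) ^ k) :
    Good (fun x : K => dk h (k + 1) x) := by
  refine good_of_quot (c := 1) (s := Real.sqrt ‖h‖) (k := k) one_pos ?_ ?_
  · intro x y
    by_cases hxy : x = y
    · subst hxy; simp
    · rw [dk_sub, norm_mul, H x y hxy, one_mul]
  · intro M hM x y x' y' hxy hx'y' hx hy hx' hy' hs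
    have hh : ‖h‖ ≤ M ^ 2 := by
      rw [← Real.sq_sqrt (norm_nonneg h)]
      exact pow_le_pow_left₀ (Real.sqrt_nonneg _) hs 2
    rw [dk_sub, dk_sub, mul_div_cancel_left₀ _ (sub_ne_zero.mpr hxy),
      mul_div_cancel_left₀ _ (sub_ne_zero.mpr hx'y')]
    have h1 := norm_dd_sub_le hM hh (k + 1) hx hy hx' hy'
    have : (‖dd h (k + 1) x y - dd h (k + 1) x' y'‖ * M) * M ≤
        (1 * M ^ k * max ‖x - x'‖ ‖y - y'‖) * M := by
      calc _ = ‖dd h (k + 1) x y - dd h (k + 1) x' y'‖ * M ^ 2 := by ring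
        _ ≤ _ := h1
        _ = _ := by ring
    exact le_of_mul_le_mul_right this hM

/-- Power case. -/
theorem norm_dd_zero_param {k : ℕ} (hres : ∀ ρ : K, ‖ρ‖ = 1 → ‖ρ ^ (k + 1) - 1‖ = ‖ρ - 1‖)
    {x y : K} (hxy : x ≠ y) : ‖dd (0 : K) (k + 1) x y‖ = (scl (Real.sqrt ‖(0 : K)‖) x y) ^ k := by
  have hsc : scl (Real.sqrt ‖(0 : K)‖) x y = max ‖x‖ ‖y‖ := by
    unfold scl
    rw [norm_zero, Real.sqrt_zero]
    exact max_eq_left (le_max_of_le_left (norm_nonneg _))
  rw [hsc]
  have hd := dk_sub (0 : K) (k + 1) x y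
  rw [dk_zero_param, dk_zero_param] at hd
  have hxy' : 0 < ‖x - y‖ := norm_pos_iff.mpr (sub_ne_zero.mpr hxy)
  have hmain : ∀ x y : K, x ≠ y → ‖x‖ ≤ ‖y‖ →
      ‖x ^ (k + 1) - y ^ (k + 1)‖ = ‖x - y‖ * ‖y‖ ^ k := by
    intro x y hxy hle
    have hy : y ≠ 0 := by
      rintro rfl
      rw [norm_zero] at hle
      exact hxy (norm_eq_zero.mp (le_antisymm hle (norm_nonneg _)))
    have hy0 : 0 < ‖y‖ := norm_pos_iff.mpr hy
    rcases lt_or_eq_of_le hle with hlt | heq
    · have h1 : ‖x - y‖ = ‖y‖ := by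
        have : ‖0 - x‖ < ‖0 - y‖ := by simpa using hlt
        have := norm_sub_eq_of_lt this
        simpa using this
      have h2 : ‖x ^ (k + 1) - y ^ (k + 1)‖ = ‖y ^ (k + 1)‖ := by
        have : ‖0 - x ^ (k + 1)‖ < ‖0 - y ^ (k + 1)‖ := by
          rw [zero_sub, zero_sub, norm_neg, norm_neg, norm_pow, norm_pow]
          exact pow_lt_pow_left₀ hlt (norm_nonneg _) (Nat.succ_ne_zero _)
        have := norm_sub_eq_of_lt this
        simpa using this
      rw [h1, h2, norm_pow]; ring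
    · have hρ : ‖x / y‖ = 1 := by rw [norm_div, heq, div_self hy0.ne']
      have h1 := hres (x / y) hρ
      have e1 : (x / y) ^ (k + 1) - 1 = (x ^ (k + 1) - y ^ (k + 1)) / y ^ (k + 1) := by
        rw [div_pow]; field_simp
      have e2 : x / y - 1 = (x - y) / y := by field_simp
      rw [e1, e2, norm_div, norm_div, norm_pow] at h1
      have hyk : 0 < ‖y‖ ^ (k + 1) := by positivity
      rw [div_eq_div_iff hyk.ne' hy0.ne'] at h1
      have h2 : ‖x ^ (k + 1) - y ^ (k + 1)‖ * ‖y‖ = (‖x - y‖ * ‖y‖ ^ k) * ‖y‖ := by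
        rw [h1]; ring
      exact mul_right_cancel₀ hy0.ne' h2
  have h3 : ‖x ^ (k + 1) - y ^ (k + 1)‖ = ‖x - y‖ * (max ‖x‖ ‖y‖) ^ k := by
    rcases le_total ‖x‖ ‖y‖ with hle | hle
    · rw [max_eq_right hle]; exact hmain x y hxy hle
    · rw [max_eq_left hle, norm_sub_rev, norm_sub_rev x y]; exact hmain y x (Ne.symm hxy) hle
  rw [hd, norm_mul] at h3
  exact mul_left_cancel₀ hxy'.ne' h3

/-- Dickson case. -/
theorem norm_dd_eq {j : ℕ} (hm : ‖((2 * j + 1 : ℕ) : K)‖ = 1) [Finite (ResField K)]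
    (hcop : Nat.Coprime (2 * j + 1) (Nat.card (ResField K) ^ 2 - 1)) {h x y : K} (hxy : x ≠ y) :
    ‖dd h (2 * j + 1) x y‖ = (scl (Real.sqrt ‖h‖) x y) ^ (2 * j) := by
  set M := scl (Real.sqrt ‖h‖) x y with hMdef
  have hM : 0 < M := by
    rw [hMdef]
    unfold scl
    rcases lt_or_eq_of_le (norm_nonneg x) with h | h
    · exact lt_max_of_lt_left (lt_max_of_lt_left h)
    · have hx : x = 0 := norm_eq_zero.mp h.symm
      have hy : y ≠ 0 := fun e => hxy (by rw [hx, e])
      exact lt_max_of_lt_left (lt_max_of_lt_right (norm_pos_iff.mpr hy))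
  have hxM : ‖x‖ ≤ M := le_max_of_le_left (le_max_left _ _)
  have hyM : ‖y‖ ≤ M := le_max_of_le_left (le_max_right _ _)
  have hsM : Real.sqrt ‖h‖ ≤ M := le_max_right _ _
  have hh : ‖h‖ ≤ M ^ 2 := by
    rw [← Real.sq_sqrt (norm_nonneg h)]
    exact pow_le_pow_left₀ (Real.sqrt_nonneg _) hsM 2
  by_cases hex : ∃ s : K, ‖s‖ = M
  · obtain ⟨s, hs⟩ := hex
    have hs0 : s ≠ 0 := by rintro rfl; rw [norm_zero] at hs; exact hM.ne hs
    -- normalise
    set X := x / s with hX
    set Y := y / s with hY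
    set Hh := h / s ^ 2 with hHh
    have ex : x = s * X := by rw [hX]; field_simp
    have ey : y = s * Y := by rw [hY]; field_simp
    have eh : h = s ^ 2 * Hh := by rw [hHh]; field_simp
    have hXY : X ≠ Y := by
      intro e; apply hxy; rw [ex, ey, e]
    have hX1 : ‖X‖ ≤ 1 := by rw [hX, norm_div, hs, div_le_one hM]; exact hxM
    have hY1 : ‖Y‖ ≤ 1 := by rw [hY, norm_div, hs, div_le_one hM]; exact hyM
    have hH1 : ‖Hh‖ ≤ 1 := by
      rw [hHh, norm_div, norm_pow, hs, div_le_one (by positivity)]; exact hh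
    have hscale : dd h (2 * j + 1) x y = s ^ (2 * j) * dd Hh (2 * j + 1) X Y := by
      have h1 := dk_sub h (2 * j + 1) x y
      have h2 := dk_sub Hh (2 * j + 1) X Y
      have h3 : dk h (2 * j + 1) x = s ^ (2 * j + 1) * dk Hh (2 * j + 1) X := by
        conv_lhs => rw [eh, ex]
        exact dk_scale s Hh (2 * j + 1) X
      have h4 : dk h (2 * j + 1) y = s ^ (2 * j + 1) * dk Hh (2 * j + 1) Y := by
        conv_lhs => rw [eh, ey]
        exact dk_scale s Hh (2 * j + 1) Y
      have hXY' : X - Y ≠ 0 := sub_ne_zero.mpr hXY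
      have h5 : (s * (X - Y)) * dd h (2 * j + 1) x y =
          (s * (X - Y)) * (s ^ (2 * j) * dd Hh (2 * j + 1) X Y) := by
        have e1 : (s * (X - Y)) = x - y := by rw [ex, ey]; ring
        rw [e1, ← h1, h3, h4, ← mul_sub, h2, ← e1]
        ring
      exact mul_left_cancel₀ (mul_ne_zero hs0 hXY') h5
    rw [hscale, norm_mul, norm_pow, hs]
    have hle : ‖dd Hh (2 * j + 1) X Y‖ ≤ 1 := by
      have := norm_dd_le (h := Hh) (M := 1) one_pos (by simpa using hH1) (2 * j + 1) hX1 hY1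
      simpa using this
    rcases lt_or_eq_of_le hle with hlt | heq
    · exfalso
      have hz : dd (res Hh hH1) (2 * j + 1) (res X hX1) (res Y hY1) = 0 := by
        have e : dd (res Hh hH1) (2 * j + 1) (res X hX1) (res Y hY1) =
            Ideal.Quotient.mk (openIdeal K)
              (dd (⟨Hh, hH1⟩ : unitBall K) (2 * j + 1) ⟨X, hX1⟩ ⟨Y, hY1⟩) :=
          (dd_map (Ideal.Quotient.mk (openIdeal K)) _ _ _ _).symm
        rw [e, Ideal.Quotient.eq_zero_iff_mem, mem_openIdeal]
        have e2 : ((dd (⟨Hh, hH1⟩ : unitBall K) (2 * j + 1) ⟨X, hX1⟩ ⟨Y, hY1⟩ : unitBall K) : K) =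
            dd Hh (2 * j + 1) X Y := dd_map (unitBall K).subtype _ _ _ _
        rw [e2]
        exact hlt
      have hmk : (((2 * j + 1 : ℕ)) : ResField K) ≠ 0 := by
        have e : (((2 * j + 1 : ℕ)) : ResField K) =
            Ideal.Quotient.mk (openIdeal K) (((2 * j + 1 : ℕ)) : unitBall K) :=
          (map_natCast (Ideal.Quotient.mk (openIdeal K)) _).symm
        rw [e, Ne, Ideal.Quotient.eq_zero_iff_mem, mem_openIdeal, not_lt]
        have : ((((2 * j + 1 : ℕ)) : unitBall K) : K) = ((2 * j + 1 : ℕ) : K) :=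
          map_natCast (unitBall K).subtype _
        rw [this, hm]
      obtain ⟨h1, h2, h3⟩ := dd_ne_zero hmk hcop hz
      have hzero : ∀ (u : K) (hu : ‖u‖ ≤ 1), res u hu = 0 → ‖u‖ < 1 := by
        intro u hu h
        have h0 : (0 : ResField K) = res (0 : K) (by simp) := by
          unfold res; exact (map_zero (Ideal.Quotient.mk (openIdeal K))).symm
        rw [h0, res_eq_iff, sub_zero] at h
        exact h
      have g1 := hzero _ _ h1
      have g2 := hzero _ _ h2
      have g3 := hzero _ _ h3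
      have k1 : ‖x‖ < M := by rw [ex, norm_mul, hs]; nlinarith
      have k2 : ‖y‖ < M := by rw [ey, norm_mul, hs]; nlinarith
      have k3 : Real.sqrt ‖h‖ < M := by
        rw [eh, norm_mul, norm_pow, hs, Real.sqrt_lt' hM]
        nlinarith [sq_nonneg M, pow_pos hM 2]
      have : M < M := by
        conv_lhs => rw [hMdef]
        exact max_lt (max_lt k1 k2) k3
      exact lt_irrefl _ this
    · rw [heq, mul_one]
  · push Not at hex
    have k1 : ‖x‖ < M := lt_of_le_of_ne hxM (hex x)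
    have k2 : ‖y‖ < M := lt_of_le_of_ne hyM (hex y)
    have k3 : Real.sqrt ‖h‖ = M := by
      rcases max_choice (max ‖x‖ ‖y‖) (Real.sqrt ‖h‖) with h1 | h1
      · exfalso
        have h2 : M = max ‖x‖ ‖y‖ := h1
        rw [h2] at k1 k2
        exact lt_irrefl _ (max_lt k1 k2)
      · exact h1.symm
    have k4 : ‖h‖ = M ^ 2 := by rw [← k3, Real.sq_sqrt (norm_nonneg h)]
    have h1 := norm_dd_sub_le (h := h) hM hh (2 * j + 1) hxM hyM (x' := 0) (y' := 0)
      (by simpa using hM.le) (by simpa using hM.le)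
    rw [sub_zero, sub_zero] at h1
    have h2 : ‖dd h (2 * j + 1) (0 : K) 0‖ = M ^ (2 * j) := by
      rw [dd_at_zero, norm_mul, norm_pow, norm_neg, k4, ← pow_mul]
      have : ‖((2 * (j : K)) + 1)‖ = 1 := by
        have := hm; push_cast at this; exact this
      rw [this, one_mul]
    have h3 : ‖dd h (2 * j + 1) x y - dd h (2 * j + 1) 0 0‖ < M ^ (2 * j) := by
      have hlt : max ‖x‖ ‖y‖ < M := max_lt k1 k2
      have : ‖dd h (2 * j + 1) x y - dd h (2 * j + 1) 0 0‖ * M ^ 2 < M ^ (2 * j) * M ^ 2 := by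
        refine lt_of_le_of_lt h1 ?_
        calc M ^ (2 * j + 1) * max ‖x‖ ‖y‖ < M ^ (2 * j + 1) * M := by
              apply mul_lt_mul_of_pos_left hlt; positivity
          _ = _ := by ring
      exact lt_of_mul_lt_mul_right this (by positivity)
    have h4 : ‖dd h (2 * j + 1) (0 : K) 0 - dd h (2 * j + 1) x y‖ <
        ‖dd h (2 * j + 1) (0 : K) 0 - 0‖ := by
      rw [norm_sub_rev, sub_zero, h2]; exact h3
    have h5 := norm_sub_eq_of_lt h4
    rw [sub_zero, sub_zero, h2] at h5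
    exact h5

end Pool.Agent.UBC
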