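import Pool.Agent.UBC.Defs

/-!
# Halving points and differences on `y ^ 2 = (x - e 0) (x - e 1) (x - e 2)`
-/

set_option autoImplicit false

namespace UBC

open WeierstrassCurve.Affine

variable {L : Type*} [Field L] [CharZero L] [DecidableEq L]

/-- equation of the curve -/
lemma EC_equation_iff (e : Fin 3 → L) (x y : L) :
    (EC e).Equation x y ↔ y ^ 2 = (x - e 0) * (x - e 1) * (x - e 2) := by
  rw [equation_iff]
  simp only [EC]
  constructor
  · intro h
    linear_combination h
  · intro h
    linear_combination h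

/-- every point of the affine curve is nonsingular -/
lemma EC_nonsingular (e : Fin 3 → L) (he : Function.Injective e) (x y : L)
    (h : y ^ 2 = (x - e 0) * (x - e 1) * (x - e 2)) : (EC e).Nonsingular x y := by
  have h01 : e 0 - e 1 ≠ 0 := sub_ne_zero.2 fun h => by simpa using he h
  have h12 : e 1 - e 2 ≠ 0 := sub_ne_zero.2 fun h => by simpa using he h
  have h02 : e 0 - e 2 ≠ 0 := sub_ne_zero.2 fun h => by simpa using he h
  rw [nonsingular_iff']
  refine ⟨(EC_equation_iff e x y).2 h, ?_⟩
  by_contra hcon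
  push Not at hcon
  obtain ⟨h1, h2⟩ := hcon
  have hy : y = 0 := by
    have h3 : (2 : L) * y = 0 := by simpa [EC] using h2
    exact (mul_eq_zero.1 h3).resolve_left two_ne_zero
  have h4 : (x - e 0) * (x - e 1) + (x - e 1) * (x - e 2) + (x - e 2) * (x - e 0) = 0 := by
    have h5 : (EC e).a₁ * y - (3 * x ^ 2 + 2 * (EC e).a₂ * x + (EC e).a₄) = 0 := h1
    simp only [EC] at h5
    linear_combination -h5
  rw [hy] at h
  have h5 : (x - e 0) * (x - e 1) * (x - e 2) = 0 := by rw [← h]; ring
  rcases mul_eq_zero.1 h5 with h6 | h6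
  · rcases mul_eq_zero.1 h6 with h7 | h7
    · have hx : x = e 0 := sub_eq_zero.1 h7
      subst hx
      exact mul_ne_zero h01 h02 (by linear_combination h4)
    · have hx : x = e 1 := sub_eq_zero.1 h7
      subst hx
      exact mul_ne_zero h01 h12 (by linear_combination -h4)
  · have hx : x = e 2 := sub_eq_zero.1 h6
    subst hx
    exact mul_ne_zero h02 h12 (by linear_combination h4)

/-- U4. if all `x - e j` are squares then the point is divisible by 2.
(`x - e j = α j ^ 2`, `α 0 α 1 α 2 = ± y`, half point with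
`x' = x + α 0 α 1 + α 1 α 2 + α 2 α 0`, `y' = ± (α 0 + α 1) (α 1 + α 2) (α 2 + α 0)`.) -/
theorem exists_half (e : Fin 3 → L) (he : Function.Injective e) (x y : L)
    (h : (EC e).Nonsingular x y) (hs : ∀ j, IsSquare (x - e j)) :
    ∃ Q : (EC e).Point, Q + Q = Point.some x y h := by
  have h01 : e 1 - e 0 ≠ 0 := sub_ne_zero.2 fun h => by simpa using he h
  have h12 : e 2 - e 1 ≠ 0 := sub_ne_zero.2 fun h => by simpa using he h
  have h20 : e 0 - e 2 ≠ 0 := sub_ne_zero.2 fun h => by simpa using he h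
  have heq : y ^ 2 = (x - e 0) * (x - e 1) * (x - e 2) := (EC_equation_iff e x y).1 h.1
  obtain ⟨a, b, c, ha, hb, hc, hy⟩ : ∃ a b c : L, x - e 0 = a ^ 2 ∧ x - e 1 = b ^ 2 ∧
      x - e 2 = c ^ 2 ∧ y = a * b * c := by
    obtain ⟨a, ha⟩ := hs 0
    obtain ⟨b, hb⟩ := hs 1
    obtain ⟨c, hc⟩ := hs 2
    have h1 : y ^ 2 = (a * b * c) ^ 2 := by
      rw [heq, ha, hb, hc]
      ring
    rcases sq_eq_sq_iff_eq_or_eq_neg.1 h1 with h2 | h2
    · exact ⟨a, b, c, by rw [ha]; ring, by rw [hb]; ring, by rw [hc]; ring, h2⟩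
    · exact ⟨-a, b, c, by rw [ha]; ring, by rw [hb]; ring, by rw [hc]; ring, by rw [h2]; ring⟩
  have e0 : e 0 = x - a ^ 2 := by rw [← ha]; ring
  have e1 : e 1 = x - b ^ 2 := by rw [← hb]; ring
  have e2 : e 2 = x - c ^ 2 := by rw [← hc]; ring
  have hA : a + b ≠ 0 := by
    intro h0
    apply h01
    rw [e0, e1]
    linear_combination (a - b) * h0
  have hB : b + c ≠ 0 := by
    intro h0
    apply h12
    rw [e1, e2]
    linear_combination (b - c) * h0
  have hC : c + a ≠ 0 := by
    intro h0
    apply h20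
    rw [e0, e2]
    linear_combination (c - a) * h0
  set X := x + a * b + b * c + c * a with hX
  set Y := (a + b) * (b + c) * (c + a) with hY
  have hYne : Y ≠ 0 := mul_ne_zero (mul_ne_zero hA hB) hC
  have hQ : (EC e).Nonsingular X Y := by
    apply EC_nonsingular e he
    rw [e0, e1, e2, hX, hY]
    ring
  have hneg : (EC e).negY X Y = -Y := by
    simp [negY, EC]
  have hne : Y ≠ (EC e).negY X Y := by
    rw [hneg]
    intro h0
    exact hYne ((mul_eq_zero.1 (by linear_combination h0 : (2 : L) * Y = 0)).resolve_left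
      two_ne_zero)
  have hsl : (EC e).slope X X Y Y = a + b + c := by
    rw [slope_of_Y_ne rfl hne, hneg]
    rw [div_eq_iff (by rw [sub_neg_eq_add, ← two_mul]; exact mul_ne_zero two_ne_zero hYne)]
    simp only [EC]
    rw [e0, e1, e2, hX, hY]
    ring
  have haX : (EC e).addX X X ((EC e).slope X X Y Y) = x := by
    rw [hsl]
    simp only [addX, EC]
    rw [e0, e1, e2, hX]
    ring
  have haY : (EC e).addY X X Y ((EC e).slope X X Y Y) = y := by
    rw [addY, negAddY, haX, hsl, negY, hy]
    simp only [EC]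
    rw [hX, hY]
    ring
  refine ⟨Point.some X Y hQ, ?_⟩
  rw [Point.add_self_of_Y_ne hne]
  simp only [haX, haY]

end UBC
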