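import Pool.Agent.UBC.Defs2
import Pool.Agent.UBC.DiffSq

/-!
# Sum and product of the `x`-coordinates of the difference and the sum of two points
-/

set_option autoImplicit false

namespace UBC

open WeierstrassCurve.Affine

variable {L : Type*} [Field L] [CharZero L] [DecidableEq L]

namespace LocOAlgAux

omit [CharZero L] [DecidableEq L] in
theorem sum_id {a b c x y x' y' : L} (h : y ^ 2 = x ^ 3 + a * x ^ 2 + b * x + c)
    (h' : y' ^ 2 = x' ^ 3 + a * x' ^ 2 + b * x' + c) (hx : x - x' ≠ 0) :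
    ((((y + y') / (x - x')) ^ 2 - a - x - x') + (((y - y') / (x - x')) ^ 2 - a - x - x')) *
      (x - x') ^ 2 = 2 * ((x * x' + b) * (x + x') + 2 * a * x * x' + 2 * c) := by
  have h1 : ((y + y') / (x - x')) ^ 2 * (x - x') ^ 2 = (y + y') ^ 2 := by
    rw [div_pow, div_mul_cancel₀]
    exact pow_ne_zero 2 hx
  have h2 : ((y - y') / (x - x')) ^ 2 * (x - x') ^ 2 = (y - y') ^ 2 := by
    rw [div_pow, div_mul_cancel₀]
    exact pow_ne_zero 2 hx
  linear_combination h1 + h2 + 2 * h + 2 * h'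

omit [CharZero L] [DecidableEq L] in
theorem prod_id {a b c x y x' y' : L} (h : y ^ 2 = x ^ 3 + a * x ^ 2 + b * x + c)
    (h' : y' ^ 2 = x' ^ 3 + a * x' ^ 2 + b * x' + c) (hx : x - x' ≠ 0) :
    (((y + y') / (x - x')) ^ 2 - a - x - x') * (((y - y') / (x - x')) ^ 2 - a - x - x') *
      (x - x') ^ 2 = (x * x' - b) ^ 2 - 4 * c * (x + x' + a) := by
  have h1 : (((y + y') / (x - x')) ^ 2 - a - x - x') * (x - x') ^ 2 =
      (y + y') ^ 2 - (a + x + x') * (x - x') ^ 2 := by
    have : ((y + y') / (x - x')) ^ 2 * (x - x') ^ 2 = (y + y') ^ 2 := by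
      rw [div_pow, div_mul_cancel₀]
      exact pow_ne_zero 2 hx
    linear_combination this
  have h2 : (((y - y') / (x - x')) ^ 2 - a - x - x') * (x - x') ^ 2 =
      (y - y') ^ 2 - (a + x + x') * (x - x') ^ 2 := by
    have : ((y - y') / (x - x')) ^ 2 * (x - x') ^ 2 = (y - y') ^ 2 := by
      rw [div_pow, div_mul_cancel₀]
      exact pow_ne_zero 2 hx
    linear_combination this
  set Z := ((y + y') / (x - x')) ^ 2 - a - x - x' with hZ
  set Z' := ((y - y') / (x - x')) ^ 2 - a - x - x' with hZ'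
  clear_value Z Z'
  apply mul_right_cancel₀ (pow_ne_zero 2 hx)
  linear_combination (Z' * (x - x') ^ 2) * h1 + ((y + y') ^ 2 - (a + x + x') * (x - x') ^ 2) * h2 +
    (y ^ 2 - y' ^ 2 + (x ^ 3 + a * x ^ 2 + b * x + c) - (x' ^ 3 + a * x' ^ 2 + b * x' + c) -
      2 * (a + x + x') * (x - x') ^ 2) * h +
    (-(y ^ 2 - y' ^ 2 + (x ^ 3 + a * x ^ 2 + b * x + c) - (x' ^ 3 + a * x' ^ 2 + b * x' + c)) -
      2 * (a + x + x') * (x - x') ^ 2) * h'

omit [CharZero L] [DecidableEq L] in
theorem xc_some (e : Fin 3 → L) {x y : L} (h : (EC e).Nonsingular x y) :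
    xc (Point.some x y h : (EC e).Point) = x := by
  unfold xc
  rw [Point.xRep_some]
  simp

end LocOAlgAux

open LocOAlgAux in
/-- V7a. -/
theorem sub_coord (e : Fin 3 → L) {x y x' y' a b c : L} (ha : a = -(e 0 + e 1 + e 2))
    (hb : b = e 0 * e 1 + e 1 * e 2 + e 2 * e 0) (hc : c = -(e 0 * e 1 * e 2))
    (h : (EC e).Nonsingular x y) (h' : (EC e).Nonsingular x' y')
    (hne : (Point.some x y h : (EC e).Point) ≠ Point.some x' y' h') :
    (x ≠ x' ∧ ∃ z' : L,
      (xc (Point.some x y h - Point.some x' y' h' : (EC e).Point) + z') * (x - x') ^ 2 =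
        2 * ((x * x' + b) * (x + x') + 2 * a * x * x' + 2 * c) ∧
      xc (Point.some x y h - Point.some x' y' h' : (EC e).Point) * z' * (x - x') ^ 2 =
        (x * x' - b) ^ 2 - 4 * c * (x + x' + a)) ∨
    (x = x' ∧ y ≠ 0 ∧ xc (Point.some x y h - Point.some x' y' h' : (EC e).Point) * (4 * y ^ 2) =
        (x ^ 2 - b) ^ 2 - 4 * c * (2 * x + a)) := by
  have hy : y ^ 2 = x ^ 3 + a * x ^ 2 + b * x + c := by
    rw [DiffSqAux.eq_of_nonsingular e h, ha, hb, hc]
    ring
  have hy' : y' ^ 2 = x' ^ 3 + a * x' ^ 2 + b * x' + c := by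
    rw [DiffSqAux.eq_of_nonsingular e h', ha, hb, hc]
    ring
  by_cases hx : x = x'
  · right
    subst hx
    have hyy : y' = -y := by
      have h1 : (y' - y) * (y' + y) = 0 := by linear_combination hy' - hy
      rcases mul_eq_zero.1 h1 with h2 | h2
      · exfalso
        have h3 : y = y' := (sub_eq_zero.1 h2).symm
        subst h3
        exact hne rfl
      · linear_combination h2
    have hy0 : y ≠ 0 := by
      intro h0
      subst h0
      rw [neg_zero] at hyy
      subst hyy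
      exact hne rfl
    subst hyy
    refine ⟨rfl, hy0, ?_⟩
    have hneg : (-(Point.some x (-y) h') : (EC e).Point) = Point.some x y h := by
      rw [Point.neg_some]
      congr 1
      simp only [negY, EC]
      ring
    have hny : y ≠ (EC e).negY x y := by
      simp only [negY, EC]
      intro h1
      apply hy0
      have h2 : (2 : L) * y = 0 := by linear_combination h1
      exact (mul_eq_zero.1 h2).resolve_left two_ne_zero
    rw [sub_eq_add_neg, hneg, Point.add_self_of_Y_ne hny, xc_some]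
    rw [slope_of_Y_ne rfl hny]
    have hd : y - (EC e).negY x y = 2 * y := by
      simp only [negY, EC]
      ring
    rw [hd]
    have h2y : (2 : L) * y ≠ 0 := mul_ne_zero two_ne_zero hy0
    have h1 : ((3 * x ^ 2 + 2 * (EC e).a₂ * x + (EC e).a₄ - (EC e).a₁ * y) / (2 * y)) ^ 2 *
        (4 * y ^ 2) = (3 * x ^ 2 + 2 * a * x + b) ^ 2 := by
      have h3 : (4 : L) * y ^ 2 = (2 * y) ^ 2 := by ring
      rw [h3, div_pow, div_mul_cancel₀ _ (pow_ne_zero 2 h2y)]
      simp only [EC]
      rw [ha, hb]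
      ring
    set Q := (3 * x ^ 2 + 2 * (EC e).a₂ * x + (EC e).a₄ - (EC e).a₁ * y) / (2 * y) with hQ
    clear_value Q
    have h4 : (EC e).addX x x Q = Q ^ 2 - a - x - x := by
      simp only [addX, EC]
      rw [ha]
      ring
    rw [h4]
    linear_combination h1 - 4 * (a + 2 * x) * hy
  · left
    refine ⟨hx, ((y - y') / (x - x')) ^ 2 - a - x - x', ?_⟩
    obtain ⟨X, Y, h'', hXY, hX, -⟩ := sub_some e h h' hx
    rw [hXY, xc_some]
    have hX' : X = ((y + y') / (x - x')) ^ 2 - a - x - x' := by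
      rw [hX, ha]
      ring
    rw [hX']
    have hx0 : x - x' ≠ 0 := sub_ne_zero.2 hx
    exact ⟨sum_id hy hy' hx0, prod_id hy hy' hx0⟩

end UBC
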