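import Pool.Agent.UBC.LocPer

/-!
# Local analysis of the linear forms at two periodic sequences

The maps may change from step to step: `a (i + 1) = H_i (a i ^ r) + c`, all `H_i` of the same degree
with integral coefficients and unit leading coefficient.
-/

set_option autoImplicit false

namespace UBC

open WithZero Polynomial LocPerAux

namespace LocSeqAux

variable {K : Type*} [Field K]

lemma eval_split' {H : K[X]} {m : ℕ} (hdeg : H.natDegree = m) (w : K) :
    H.eval w = H.leadingCoeff * w ^ m + ∑ i ∈ Finset.range m, H.coeff i * w ^ i := by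
  rw [eval_eq_sum_range, hdeg, Finset.sum_range_succ, ← hdeg, coeff_natDegree, hdeg]
  ring

lemma eval_big' (v : Valuation K ℤᵐ⁰) {H : K[X]} {m : ℕ} (hlead : v H.leadingCoeff = 1)
    (hdeg : H.natDegree = m) (hint : ∀ i, v (H.coeff i) ≤ 1) {w : K} (hw : 1 < v w) :
    v (H.eval w) = v w ^ m := by
  have h1 : v (H.leadingCoeff * w ^ m) = v w ^ m := by rw [map_mul, hlead, one_mul, map_pow]
  rw [eval_split' hdeg, Valuation.map_add_eq_of_lt_left, h1]
  rw [h1]
  refine Valuation.map_sum_lt v (pow_ne_zero _ (zero_lt_one.trans hw).ne') fun i hi => ?_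
  rw [Finset.mem_range] at hi
  rw [map_mul, map_pow]
  calc v (H.coeff i) * v w ^ i ≤ 1 * v w ^ i := mul_le_mul_left (hint i) _
    _ = v w ^ i := one_mul _
    _ < v w ^ m := pow_lt_pow_right₀ hw hi

/-- the value of `Q` at two close points -/
lemma Q_close' (v : Valuation K ℤᵐ⁰) {H : K[X]} {m : ℕ} (hm : 1 ≤ m) (hvm : v (m : K) = 1)
    (hlead : v H.leadingCoeff = 1) (hdeg : H.natDegree = m) (hint : ∀ i, v (H.coeff i) ≤ 1)
    {X Y : K} {Γ : ℤᵐ⁰} (hX : v X = Γ) (hY : v Y = Γ) (hΓ : 1 < Γ) (h : v (X - Y) < Γ) :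
    v (Q H m X Y) = Γ ^ (m - 1) := by
  have hΓ0 : Γ ≠ 0 := (zero_lt_one.trans hΓ).ne'
  have h1 : v (PowCyc.G m X Y) = Γ ^ (m - 1) := by
    obtain rfl | hm2 := Nat.eq_or_lt_of_le hm
    · simp [PowCyc.G]
    · exact PowCyc.Loc_close v hm2 hvm hX hΓ0 h
  have h2 : Q H m X Y = H.leadingCoeff * PowCyc.G m X Y +
      ∑ i ∈ Finset.range m, H.coeff i * PowCyc.G i X Y := by
    unfold Q
    rw [Finset.sum_range_succ, ← hdeg, coeff_natDegree, hdeg]
    ring
  have h3 : v (H.leadingCoeff * PowCyc.G m X Y) = Γ ^ (m - 1) := by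
    rw [map_mul, hlead, one_mul, h1]
  rw [h2, Valuation.map_add_eq_of_lt_left, h3]
  rw [h3]
  refine Valuation.map_sum_lt v (pow_ne_zero _ hΓ0) fun i hi => ?_
  rw [Finset.mem_range] at hi
  rw [map_mul]
  rcases Nat.eq_zero_or_pos i with rfl | hi0
  · simp only [PowCyc.G, Finset.range_zero, Finset.sum_empty, map_zero, mul_zero]
    exact pow_pos (zero_lt_one.trans hΓ) _
  · calc v (H.coeff i) * v (PowCyc.G i X Y) ≤ 1 * Γ ^ (i - 1) :=
          mul_le_mul' (hint i) (G_le v hX.le hY.le)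
      _ = Γ ^ (i - 1) := one_mul _
      _ < Γ ^ (m - 1) := pow_lt_pow_right₀ hΓ (by omega)

/-- a strictly increasing quantity along a periodic sequence -/
lemma escape' (v : Valuation K ℤᵐ⁰) {a : ℕ → K} {L : ℕ} (hL : 0 < L) (haL : ∀ i, a (i + L) = a i)
    (P : K → Prop) {i0 : ℕ} (h0 : P (a i0)) (hP : ∀ i, P (a i) → P (a (i + 1)) ∧ v (a i) < v (a (i + 1))) :
    False := by
  have h1 : ∀ k : ℕ, P (a (i0 + k)) := by
    intro k
    induction k with
    | zero => exact h0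
    | succ k ih => exact (hP _ ih).1
  have h2 : StrictMono fun k : ℕ => v (a (i0 + k)) := by
    apply strictMono_nat_of_lt_succ
    intro k
    exact (hP _ (h1 k)).2
  have h3 := h2 hL
  simp only [add_zero, haL] at h3
  exact lt_irrefl _ h3

/-- periodic sequences which meet once are equal -/
lemma eq_of_meet {a b : ℕ → K} {g : ℕ → K → K} (ha : ∀ i, a (i + 1) = g i (a i))
    (hb : ∀ i, b (i + 1) = g i (b i)) {L : ℕ} (hL : 0 < L) (haL : ∀ i, a (i + L) = a i)
    (hbL : ∀ i, b (i + L) = b i) {j : ℕ} (hj : a j = b j) (i : ℕ) : a i = b i := by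
  have h1 : ∀ k, a (j + k) = b (j + k) := by
    intro k
    induction k with
    | zero => exact hj
    | succ k ih => rw [← add_assoc, ha, hb, ih]
  have h2 : ∀ (f : ℕ → K), (∀ i, f (i + L) = f i) → ∀ k i, f (i + k * L) = f i := by
    intro f hf k
    induction k with
    | zero => intro i; simp
    | succ k ih =>
      intro i
      rw [Nat.succ_mul, ← add_assoc, hf, ih]
  have h3 : j ≤ i + j * L := by
    have := Nat.le_mul_of_pos_right j hL
    omega
  have h4 := h1 (i + j * L - j)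
  rw [Nat.add_sub_cancel' h3, h2 a haL, h2 b hbL] at h4
  exact h4

section

variable (v : Valuation K ℤᵐ⁰) {r m : ℕ} (hr : 2 ≤ r) (hm : 1 ≤ m) {H : ℕ → K[X]}
  (hlead : ∀ i, v (H i).leadingCoeff = 1) (hdeg : ∀ i, (H i).natDegree = m)
  (hint : ∀ i j, v ((H i).coeff j) ≤ 1) {c : K} {a : ℕ → K}
  (ha : ∀ i, a (i + 1) = fam r (H i) c (a i)) {L : ℕ} (hL : 0 < L) (haL : ∀ i, a (i + L) = a i)

include hr hm hlead hdeg hint

lemma val_H_big' {z : K} (hz : 1 < v z) (i : ℕ) : v ((H i).eval (z ^ r)) = v z ^ (r * m) := by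
  rw [eval_big' v (hlead i) (hdeg i) (hint i), map_pow, ← pow_mul]
  rw [map_pow]
  exact one_lt_pow₀ hz (by omega)

include ha hL haL

lemma seq_le_one (hc : v c ≤ 1) (i : ℕ) : v (a i) ≤ 1 := by
  by_contra h
  push Not at h
  have hrm : 2 ≤ r * m := by nlinarith
  refine escape' v hL haL (fun z => 1 < v z) h ?_
  intro j hz
  have hlt := lt_pow hz hrm
  have h1 : v (a (j + 1)) = v (a j) ^ (r * m) := by
    rw [ha]
    unfold fam
    rw [Valuation.map_add_eq_of_lt_left, val_H_big' v hr hm hlead hdeg hint hz]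
    rw [val_H_big' v hr hm hlead hdeg hint hz]
    exact (hc.trans_lt hz).trans hlt
  rw [h1]
  exact ⟨hz.trans hlt, hlt⟩

lemma seq_not_big (hc : 1 < v c) (i : ℕ) : ¬ v c < v (a i) ^ (r * m) := by
  intro h
  have hrm : 2 ≤ r * m := by nlinarith
  refine escape' v hL haL (fun z => v c < v z ^ (r * m)) h ?_
  intro j hz
  have hz1 : 1 < v (a j) := by
    by_contra hh
    push Not at hh
    exact absurd ((hc.trans hz).trans_le (pow_le_one₀ zero_le hh)) (lt_irrefl _)
  have hlt := lt_pow hz1 hrm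
  have h1 : v (a (j + 1)) = v (a j) ^ (r * m) := by
    rw [ha]
    unfold fam
    rw [Valuation.map_add_eq_of_lt_left, val_H_big' v hr hm hlead hdeg hint hz1]
    rw [val_H_big' v hr hm hlead hdeg hint hz1]
    exact hz
  rw [h1]
  exact ⟨hz.trans (lt_pow (hc.trans hz) hrm), hlt⟩

lemma seq_pow (hc : 1 < v c) (i : ℕ) : v (a i) ^ (r * m) = v c := by
  have hrm : 2 ≤ r * m := by nlinarith
  rcases lt_trichotomy (v (a i) ^ (r * m)) (v c) with h | h | h
  · exfalso
    have h0 : v ((H i).eval (a i ^ r)) < v c := by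
      rcases le_or_gt (v (a i)) 1 with h2 | h2
      · refine (eval_small v (hint i) ?_).trans_lt hc
        rw [map_pow]
        exact pow_le_one₀ zero_le h2
      · rw [val_H_big' v hr hm hlead hdeg hint h2]
        exact h
    have h1 : v (a (i + 1)) = v c := by
      rw [ha]
      unfold fam
      rw [Valuation.map_add_eq_of_lt_right]
      exact h0
    apply seq_not_big v hr hm hlead hdeg hint ha hL haL hc (i + 1)
    rw [h1]
    exact lt_pow hc hrm
  · exact h
  · exact absurd h (seq_not_big v hr hm hlead hdeg hint ha hL haL hc i)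

end

section

variable (v : Valuation K ℤᵐ⁰) {r m : ℕ} (hr : 2 ≤ r) (hm : 1 ≤ m)
  (hv : v ((r * m : ℕ) : K) = 1) {ζ0 : K} (hζ0 : IsPrimitiveRoot ζ0 r) {H : ℕ → K[X]}
  (hlead : ∀ i, v (H i).leadingCoeff = 1) (hdeg : ∀ i, (H i).natDegree = m)
  (hint : ∀ i j, v ((H i).coeff j) ≤ 1) {c : K} {a b : ℕ → K}
  (ha : ∀ i, a (i + 1) = fam r (H i) c (a i)) (hb : ∀ i, b (i + 1) = fam r (H i) c (b i))
  {L : ℕ} (hL : 0 < L) (haL : ∀ i, a (i + L) = a i) (hbL : ∀ i, b (i + L) = b i)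
  (hab : a 0 ≠ b 0)

include ha hb hL haL hbL hab

lemma seq_D_ne (i : ℕ) : a i - b i ≠ 0 := fun h =>
  hab (eq_of_meet (g := fun i => fam r (H i) c) ha hb hL haL hbL (sub_eq_zero.1 h) 0)

lemma seq_form_ne {ζ : K} (hζ : ζ ^ r = 1) (i : ℕ) : a i - ζ * b i ≠ 0 := by
  intro h
  apply seq_D_ne ha hb hL haL hbL hab (i + 1)
  rw [ha, hb, sub_eq_zero.1 h]
  unfold fam
  rw [mul_pow, hζ, one_mul, sub_self]

include hr hm hlead hdeg hint

include hζ0 in
/-- good places -/
lemma seq_good (hc : v c ≤ 1) {ζ : K} (hζ : ζ ^ r = 1) (hζ1 : ζ ≠ 1) :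
    v (a 0 - ζ * b 0) = 1 := by
  classical
  have hr0 : r ≠ 0 := by omega
  have hstep : ∀ (i : ℕ) (a b : K), v a ≤ 1 → v b ≤ 1 →
      v (fam r (H i) c a - fam r (H i) c b) ≤ v (a - ζ * b) * v (a - b) := by
    intro i a b ha hb
    rw [fam_sub (hdeg i), map_mul, hζ0.pow_sub_pow_eq_prod_sub_mul a b (by omega), map_prod]
    have hm1 : (1 : K) ∈ nthRootsFinset r (1 : K) := by
      rw [mem_nthRootsFinset (by omega)]; exact one_pow r
    have hmζ : ζ ∈ (nthRootsFinset r (1 : K)).erase 1 := by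
      rw [Finset.mem_erase, mem_nthRootsFinset (by omega)]; exact ⟨hζ1, hζ⟩
    rw [← Finset.mul_prod_erase _ _ hm1, ← Finset.mul_prod_erase _ _ hmζ, one_mul]
    have h1 : v (Q (H i) m (a ^ r) (b ^ r)) ≤ 1 :=
      Q_le_one v (hint i) (by rw [map_pow]; exact pow_le_one₀ zero_le ha)
        (by rw [map_pow]; exact pow_le_one₀ zero_le hb)
    have h2 : ∏ z ∈ ((nthRootsFinset r (1 : K)).erase 1).erase ζ, v (a - z * b) ≤ 1 := by
      refine Finset.prod_le_one' fun z hz => ?_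
      rw [Finset.mem_erase, Finset.mem_erase, mem_nthRootsFinset (by omega)] at hz
      exact prod_le_one v hr0 ha hb hz.2.2
    calc v (Q (H i) m (a ^ r) (b ^ r)) * (v (a - b) * (v (a - ζ * b) *
          ∏ z ∈ ((nthRootsFinset r (1 : K)).erase 1).erase ζ, v (a - z * b)))
        ≤ 1 * (v (a - b) * (v (a - ζ * b) * 1)) :=
          mul_le_mul' h1 (mul_le_mul' le_rfl (mul_le_mul' le_rfl h2))
      _ = v (a - ζ * b) * v (a - b) := by rw [one_mul, mul_one, mul_comm]
  have hva : ∀ i, v (a i) ≤ 1 := seq_le_one v hr hm hlead hdeg hint ha hL haL hc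
  have hvb : ∀ i, v (b i) ≤ 1 := seq_le_one v hr hm hlead hdeg hint hb hL hbL hc
  have hform : ∀ i, v (a i - ζ * b i) ≤ 1 := fun i => prod_le_one v hr0 (hva i) (hvb i) hζ
  have hD : ∀ i, v (a (i + 1) - b (i + 1)) ≤ v (a i - ζ * b i) * v (a i - b i) := by
    intro i
    rw [ha, hb]
    exact hstep i _ _ (hva i) (hvb i)
  have hanti : Antitone fun i => v (a i - b i) := by
    apply antitone_nat_of_succ_le
    intro i
    refine (hD i).trans ?_
    calc _ ≤ 1 * v (a i - b i) := mul_le_mul_left (hform i) _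
      _ = _ := one_mul _
  have h1 : v (a L - b L) = v (a 0 - b 0) := by
    have e1 := haL 0
    have e2 := hbL 0
    rw [Nat.zero_add] at e1 e2
    rw [e1, e2]
  have h2 : v (a 0 - b 0) ≤ v (a 1 - b 1) := by
    rw [← h1]; exact hanti hL
  have h3 := h2.trans (hD 0)
  have h4 : v (a 0 - b 0) ≠ 0 := (Valuation.ne_zero_iff v).2 (sub_ne_zero.2 hab)
  refine le_antisymm (hform 0) ?_
  by_contra hlt
  push Not at hlt
  have h5 : v (a 0 - ζ * b 0) * v (a 0 - b 0) < 1 * v (a 0 - b 0) :=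
    mul_lt_mul_of_pos_right hlt (zero_lt_iff.mpr h4)
  rw [one_mul] at h5
  exact absurd h3 (not_le.mpr h5)

include hv in
/-- bad places -/
lemma seq_bad (hc : 1 < v c) {ζ : K} (hζ : ζ ^ r = 1) {γ : ℤᵐ⁰} (hγc : γ ^ (r * m) = v c) :
    ∃ e : ℕ, (γ ^ (r * m - 1)) ^ e * v (a 0 - ζ * b 0) = γ := by
  have hr0 : r ≠ 0 := by omega
  have hrm : 2 ≤ r * m := by nlinarith
  obtain ⟨hvr, hvm⟩ := v_rm v hv
  have hγ1 : 1 < γ := by
    by_contra hh
    push Not at hh
    exact absurd (hc.trans_le (hγc ▸ pow_le_one₀ zero_le hh)) (lt_irrefl _)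
  have hγ0 : γ ≠ 0 := (zero_lt_one.trans hγ1).ne'
  have hvx : ∀ i, v (a i) = γ := by
    intro i
    have h1 := seq_pow v hr hm hlead hdeg hint ha hL haL hc i
    rw [← hγc] at h1
    exact (pow_left_inj₀ zero_le zero_le (by omega)).1 h1
  have hvy : ∀ i, v (b i) = γ := by
    intro i
    have h1 := seq_pow v hr hm hlead hdeg hint hb hL hbL hc i
    rw [← hγc] at h1
    exact (pow_left_inj₀ zero_le zero_le (by omega)).1 h1
  have hle : ∀ a b ζ : K, v a = γ → v b = γ → ζ ^ r = 1 → v (a - ζ * b) ≤ γ := by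
    intro a b ζ ha hb hζ
    refine (Valuation.map_sub v _ _).trans (max_le ha.le ?_)
    rw [map_mul, v_zeta v hr0 hζ, one_mul]
    exact hb.le
  -- one step
  have hstep : ∀ (i : ℕ) (a b ζ : K), v a = γ → v b = γ → ζ ^ r = 1 → v (a - ζ * b) < γ →
      v (fam r (H i) c a - fam r (H i) c b) = γ ^ (r * m - 1) * v (a - ζ * b) := by
    intro i a b ζ ha hb hζ hlt
    have h1 : v (a ^ r - b ^ r) = γ ^ (r - 1) * v (a - ζ * b) := by
      have h2 := PowCyc.G_mul r a (ζ * b)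
      rw [mul_pow, hζ, one_mul] at h2
      rw [← h2, map_mul, PowCyc.Loc_close v hr hvr ha hγ0 hlt]
    have h2 : v (a ^ r - b ^ r) < γ ^ r := by
      rw [h1]
      have : γ ^ r = γ ^ (r - 1) * γ := by rw [← pow_succ]; congr 1; omega
      rw [this]
      exact mul_lt_mul_of_pos_left hlt (pow_pos (zero_lt_one.trans hγ1) _)
    have h3 : v (Q (H i) m (a ^ r) (b ^ r)) = (γ ^ r) ^ (m - 1) :=
      Q_close' v hm hvm (hlead i) (hdeg i) (hint i) (by rw [map_pow, ha]) (by rw [map_pow, hb])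
        (one_lt_pow₀ hγ1 hr0) h2
    rw [fam_sub (hdeg i), map_mul, h3, h1, ← mul_assoc, ← pow_mul, ← pow_add]
    congr 2
    obtain ⟨m', rfl⟩ : ∃ m', m = m' + 1 := ⟨m - 1, by omega⟩
    rw [Nat.add_sub_cancel, Nat.mul_succ]
    omega
  set n := r * m - 1 with hn
  have hn1 : 1 < γ ^ n := one_lt_pow₀ hγ1 (by omega)
  have hD : ∀ i, v (a i - b i) < γ → v (a (i + 1) - b (i + 1)) = γ ^ n * v (a i - b i) := by
    intro i hi
    have := hstep i _ _ 1 (hvx i) (hvy i) (one_pow r) (by rwa [one_mul])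
    rw [one_mul] at this
    rw [ha, hb, this]
  have hDle : ∀ i, v (a i - b i) ≤ γ := by
    intro i
    have := hle _ _ 1 (hvx i) (hvy i) (one_pow r)
    rwa [one_mul] at this
  have hreach : ∀ i, ∃ e : ℕ, (γ ^ n) ^ e * v (a i - b i) = γ := by
    intro i
    have hex : ∃ k, ¬ v (a (i + k) - b (i + k)) < γ := by
      by_contra hno
      push Not at hno
      have h1 : ∀ k, v (a (i + k) - b (i + k)) = (γ ^ n) ^ k * v (a i - b i) := by
        intro k
        induction k with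
        | zero => simp
        | succ k ih =>
          rw [← add_assoc, hD _ (hno k), ih, pow_succ', mul_assoc]
      have h2 := h1 L
      rw [haL, hbL] at h2
      have h3 : v (a i - b i) ≠ 0 :=
        (Valuation.ne_zero_iff v).2 (seq_D_ne ha hb hL haL hbL hab i)
      have h4 : (γ ^ n) ^ L = 1 :=
        mul_right_cancel₀ h3 (by rw [← h2, one_mul])
      exact absurd h4 (one_lt_pow₀ hn1 hL.ne').ne'
    classical
    refine ⟨Nat.find hex, ?_⟩
    have h1 : ∀ k, k ≤ Nat.find hex → v (a (i + k) - b (i + k)) = (γ ^ n) ^ k * v (a i - b i) := by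
      intro k
      induction k with
      | zero => intro _; simp
      | succ k ih =>
        intro hk
        have h2 := Nat.find_min hex (m := k) (by omega)
        rw [not_not] at h2
        rw [← add_assoc, hD _ h2, ih (by omega), pow_succ', mul_assoc]
    rw [← h1 _ le_rfl]
    exact le_antisymm (hDle _) (not_lt.1 (Nat.find_spec hex))
  rcases (hle (a 0) (b 0) ζ (hvx 0) (hvy 0) hζ).eq_or_lt with h | h
  · exact ⟨0, by rw [pow_zero, one_mul, h]⟩
  · obtain ⟨e, he⟩ := hreach 1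
    refine ⟨e + 1, ?_⟩
    have h6 := hstep 0 (a 0) (b 0) ζ (hvx 0) (hvy 0) hζ h
    rw [← ha, ← hb] at h6
    rw [zero_add] at h6
    rw [h6] at he
    rw [pow_succ, mul_assoc]
    exact he

end

end LocSeqAux

open LocSeqAux

/-- quotients of forms at two pairs of periodic sequences are `(r m - 1)`-th powers locally -/
theorem val_forms_seq {K : Type*} [Field K] (v : Valuation K ℤᵐ⁰) {r m : ℕ} (hr : 2 ≤ r)
    (hm : 1 ≤ m) (hv : v ((r * m : ℕ) : K) = 1) {ζ0 : K} (hζ0 : IsPrimitiveRoot ζ0 r)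
    {H : ℕ → K[X]} (hlead : ∀ i, v (H i).leadingCoeff = 1) (hdeg : ∀ i, (H i).natDegree = m)
    (hint : ∀ i j, v ((H i).coeff j) ≤ 1) {c : K} {L : ℕ} (hL : 0 < L) {a b a' b' : ℕ → K}
    (ha : ∀ i, a (i + 1) = fam r (H i) c (a i)) (hb : ∀ i, b (i + 1) = fam r (H i) c (b i))
    (haL : ∀ i, a (i + L) = a i) (hbL : ∀ i, b (i + L) = b i) (hab : a 0 ≠ b 0)
    (ha' : ∀ i, a' (i + 1) = fam r (H i) c (a' i)) (hb' : ∀ i, b' (i + 1) = fam r (H i) c (b' i))
    (haL' : ∀ i, a' (i + L) = a' i) (hbL' : ∀ i, b' (i + L) = b' i) (hab' : a' 0 ≠ b' 0)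
    {ζ ζ' : K} (hζ : ζ ^ r = 1) (hζ1 : ζ ≠ 1) (hζ' : ζ' ^ r = 1) (hζ'1 : ζ' ≠ 1) :
    ∃ γ : ℤᵐ⁰, v ((a 0 - ζ * b 0) / (a' 0 - ζ' * b' 0)) = γ ^ (r * m - 1) := by
  have h2 := seq_form_ne ha' hb' hL haL' hbL' hab' hζ' 0
  rcases le_or_gt (v c) 1 with hc | hc
  · refine ⟨1, ?_⟩
    rw [map_div₀, seq_good v hr hm hζ0 hlead hdeg hint ha hb hL haL hbL hab hc hζ hζ1,
      seq_good v hr hm hζ0 hlead hdeg hint ha' hb' hL haL' hbL' hab' hc hζ' hζ'1, one_pow, div_one]
  · have hγc := seq_pow v hr hm hlead hdeg hint ha hL haL hc 0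
    obtain ⟨γ, hγ⟩ : ∃ γ, v (a 0) = γ := ⟨_, rfl⟩
    rw [hγ] at hγc
    have hγ0 : γ ≠ 0 := by
      rintro rfl
      have hrm : r * m ≠ 0 := by
        have : 2 * 1 ≤ r * m := Nat.mul_le_mul hr hm
        omega
      rw [zero_pow hrm] at hγc
      rw [← hγc] at hc
      exact absurd hc (by simp)
    obtain ⟨e, he⟩ := seq_bad v hr hm hv hlead hdeg hint ha hb hL haL hbL hab hc hζ hγc
    obtain ⟨e', he'⟩ := seq_bad v hr hm hv hlead hdeg hint ha' hb' hL haL' hbL' hab' hc hζ' hγc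
    refine ⟨γ ^ e' / γ ^ e, ?_⟩
    have hv1 : v (a' 0 - ζ' * b' 0) ≠ 0 := (Valuation.ne_zero_iff v).2 h2
    have hA : (γ ^ (r * m - 1)) ^ e ≠ 0 := pow_ne_zero _ (pow_ne_zero _ hγ0)
    rw [map_div₀, div_pow, ← pow_mul, ← pow_mul, mul_comm e', mul_comm e, pow_mul, pow_mul,
      div_eq_div_iff hv1 hA, mul_comm, he, he']

end UBC
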