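import Mathlib

set_option autoImplicit false

/-!
# Good self-maps of an ultrametric field and their periodic points

A map `f : K → K` of an ultrametric field is called *good* if it is injective, does not increase
ratios of distances (`Mono`), and is nearly affine on clusters on which the ratios are preserved
(`NearAff`).  Good maps are closed under composition.  If `K` has only finitely many residue
classes modulo some `ε` with `ε < ‖ℓ‖` for all primes `ℓ`, then every preperiodic point of a good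
map is periodic, with a period bounded in terms of the number of classes only.
-/

namespace Pool.Agent.UBC

variable {K : Type*} [NormedField K]

/-- Ratios of distances at most one do not increase. -/
def Mono (f : K → K) : Prop :=
  ∀ x y z : K, ‖x - y‖ ≤ ‖x - z‖ → ‖f x - f y‖ * ‖x - z‖ ≤ ‖f x - f z‖ * ‖x - y‖

/-- The difference quotients are nearly constant on clusters for which ratios are preserved. -/
def NearAff (f : K → K) : Prop :=
  ∀ ε : ℝ, 0 ≤ ε → ε < 1 → ∀ x y x' y' w : K, x ≠ y → x' ≠ y' → x ≠ w →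
    ‖x - y‖ ≤ ε * ‖x - w‖ → ‖x - x'‖ ≤ ε * ‖x - w‖ → ‖x - y'‖ ≤ ε * ‖x - w‖ →
    ‖f x - f y‖ * ‖x - w‖ = ‖f x - f w‖ * ‖x - y‖ →
    ‖f x' - f y'‖ * ‖x' - w‖ = ‖f x' - f w‖ * ‖x' - y'‖ →
    ‖(f x - f y) / (x - y) - (f x' - f y') / (x' - y')‖ ≤ ε * ‖(f x - f y) / (x - y)‖

/-- Good maps. -/
structure Good (f : K → K) : Prop where
  inj : Function.Injective f
  mono : Mono f
  near : NearAff f

theorem norm_sub_swap (x y : K) : ‖x - y‖ = ‖y - x‖ := norm_sub_rev x y

set_option linter.unusedSectionVars false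

section
variable [IsUltrametricDist K]

theorem norm_sub_le_max' (x y z : K) : ‖x - z‖ ≤ max ‖x - y‖ ‖y - z‖ := by
  have h := IsUltrametricDist.norm_add_le_max (x - y) (y - z)
  simpa using h

theorem norm_sub_eq_of_lt {x y z : K} (h : ‖x - y‖ < ‖x - z‖) : ‖y - z‖ = ‖x - z‖ := by
  apply le_antisymm
  · have := norm_sub_le_max' y x z
    rw [norm_sub_rev y x] at this
    exact this.trans (max_le h.le le_rfl)
  · have := norm_sub_le_max' x y z
    rcases le_max_iff.mp this with h1 | h1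
    · exact absurd h1 (not_le.mpr h)
    · exact h1

theorem Mono.comp {g f : K → K} (hf : Good f) (hg : Mono g) : Mono (g ∘ f) := by
  intro x y z h
  by_cases hxz : x = z
  · subst hxz
    have : x = y := by
      rw [sub_self, norm_zero] at h
      exact sub_eq_zero.mp (norm_eq_zero.mp (le_antisymm h (norm_nonneg _)))
    subst this
    simp
  have hxz' : 0 < ‖x - z‖ := norm_pos_iff.mpr (sub_ne_zero.mpr hxz)
  have hfxz : 0 < ‖f x - f z‖ := norm_pos_iff.mpr (sub_ne_zero.mpr (fun e => hxz (hf.inj e)))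
  have h1 := hf.mono x y z h
  have h2 : ‖f x - f y‖ ≤ ‖f x - f z‖ := by
    have : ‖f x - f y‖ * ‖x - z‖ ≤ ‖f x - f z‖ * ‖x - z‖ :=
      h1.trans (mul_le_mul_of_nonneg_left h (norm_nonneg _))
    exact le_of_mul_le_mul_right this hxz'
  have h3 := hg (f x) (f y) (f z) h2
  have h4 : (‖g (f x) - g (f y)‖ * ‖x - z‖) * ‖f x - f z‖ ≤
      (‖g (f x) - g (f z)‖ * ‖x - y‖) * ‖f x - f z‖ := by
    calc (‖g (f x) - g (f y)‖ * ‖x - z‖) * ‖f x - f z‖
        = (‖g (f x) - g (f y)‖ * ‖f x - f z‖) * ‖x - z‖ := by ring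
      _ ≤ (‖g (f x) - g (f z)‖ * ‖f x - f y‖) * ‖x - z‖ :=
          mul_le_mul_of_nonneg_right h3 (norm_nonneg _)
      _ = ‖g (f x) - g (f z)‖ * (‖f x - f y‖ * ‖x - z‖) := by ring
      _ ≤ ‖g (f x) - g (f z)‖ * (‖f x - f z‖ * ‖x - y‖) :=
          mul_le_mul_of_nonneg_left h1 (norm_nonneg _)
      _ = _ := by ring
  exact le_of_mul_le_mul_right h4 hfxz

/-- Splitting an equality of ratios for a composition. -/
theorem split_eq {g f : K → K} (hf : Good f) (hg : Good g) {x y w : K} (hxw : x ≠ w)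
    (h : ‖x - y‖ ≤ ‖x - w‖)
    (he : ‖g (f x) - g (f y)‖ * ‖x - w‖ = ‖g (f x) - g (f w)‖ * ‖x - y‖) :
    ‖f x - f y‖ * ‖x - w‖ = ‖f x - f w‖ * ‖x - y‖ ∧
    ‖g (f x) - g (f y)‖ * ‖f x - f w‖ = ‖g (f x) - g (f w)‖ * ‖f x - f y‖ := by
  have hxw' : 0 < ‖x - w‖ := norm_pos_iff.mpr (sub_ne_zero.mpr hxw)
  have hfxw : 0 < ‖f x - f w‖ := norm_pos_iff.mpr (sub_ne_zero.mpr (fun e => hxw (hf.inj e)))
  have hgfxw : 0 < ‖g (f x) - g (f w)‖ :=
    norm_pos_iff.mpr (sub_ne_zero.mpr (fun e => hxw (hf.inj (hg.inj e))))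
  have h1 := hf.mono x y w h
  have h2 : ‖f x - f y‖ ≤ ‖f x - f w‖ := by
    have : ‖f x - f y‖ * ‖x - w‖ ≤ ‖f x - f w‖ * ‖x - w‖ :=
      h1.trans (mul_le_mul_of_nonneg_left h (norm_nonneg _))
    exact le_of_mul_le_mul_right this hxw'
  have h3 := hg.mono (f x) (f y) (f w) h2
  have e1 : ‖f x - f w‖ * ‖x - y‖ ≤ ‖f x - f y‖ * ‖x - w‖ := by
    have : ‖g (f x) - g (f w)‖ * (‖f x - f w‖ * ‖x - y‖) ≤
        ‖g (f x) - g (f w)‖ * (‖f x - f y‖ * ‖x - w‖) := by
      calc ‖g (f x) - g (f w)‖ * (‖f x - f w‖ * ‖x - y‖)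
          = (‖g (f x) - g (f w)‖ * ‖x - y‖) * ‖f x - f w‖ := by ring
        _ = (‖g (f x) - g (f y)‖ * ‖f x - f w‖) * ‖x - w‖ := by rw [← he]; ring
        _ ≤ (‖g (f x) - g (f w)‖ * ‖f x - f y‖) * ‖x - w‖ :=
            mul_le_mul_of_nonneg_right h3 (norm_nonneg _)
        _ = _ := by ring
    exact le_of_mul_le_mul_left this hgfxw
  have e2 : ‖f x - f y‖ * ‖x - w‖ = ‖f x - f w‖ * ‖x - y‖ := le_antisymm h1 e1
  refine ⟨e2, ?_⟩
  have : (‖g (f x) - g (f y)‖ * ‖f x - f w‖) * ‖x - w‖ =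
      (‖g (f x) - g (f w)‖ * ‖f x - f y‖) * ‖x - w‖ := by
    calc (‖g (f x) - g (f y)‖ * ‖f x - f w‖) * ‖x - w‖
        = (‖g (f x) - g (f y)‖ * ‖x - w‖) * ‖f x - f w‖ := by ring
      _ = (‖g (f x) - g (f w)‖ * ‖x - y‖) * ‖f x - f w‖ := by rw [he]
      _ = ‖g (f x) - g (f w)‖ * (‖f x - f w‖ * ‖x - y‖) := by ring
      _ = ‖g (f x) - g (f w)‖ * (‖f x - f y‖ * ‖x - w‖) := by rw [e2]
      _ = _ := by ring
  exact mul_right_cancel₀ hxw'.ne' this

theorem Mono.le_mul {f : K → K} (hf : Mono f) {x y w : K} (hxw : x ≠ w) {ε : ℝ} (hε : ε ≤ 1)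
    (h : ‖x - y‖ ≤ ε * ‖x - w‖) : ‖f x - f y‖ ≤ ε * ‖f x - f w‖ := by
  have hxw' : 0 < ‖x - w‖ := norm_pos_iff.mpr (sub_ne_zero.mpr hxw)
  have h0 : ‖x - y‖ ≤ ‖x - w‖ := h.trans (by nlinarith)
  have h1 := hf x y w h0
  have : ‖f x - f y‖ * ‖x - w‖ ≤ (ε * ‖f x - f w‖) * ‖x - w‖ := by
    refine h1.trans ?_
    calc ‖f x - f w‖ * ‖x - y‖ ≤ ‖f x - f w‖ * (ε * ‖x - w‖) :=
          mul_le_mul_of_nonneg_left h (norm_nonneg _)
      _ = _ := by ring
  exact le_of_mul_le_mul_right this hxw'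

theorem Good.comp {g f : K → K} (hg : Good g) (hf : Good f) : Good (g ∘ f) := by
  refine ⟨hg.inj.comp hf.inj, Mono.comp hf hg.mono, ?_⟩
  intro ε hε0 hε1 x y x' y' w hxy hx'y' hxw h1 h2 h3 he he'
  have hxw' : 0 < ‖x - w‖ := norm_pos_iff.mpr (sub_ne_zero.mpr hxw)
  have hlt : ‖x - x'‖ < ‖x - w‖ := lt_of_le_of_lt h2 (by nlinarith)
  have hx'w : ‖x' - w‖ = ‖x - w‖ := norm_sub_eq_of_lt hlt
  have hx'w' : x' ≠ w := by
    intro e
    rw [e, sub_self, norm_zero] at hx'w
    exact hxw'.ne hx'w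
  have h4 : ‖x' - y'‖ ≤ ‖x' - w‖ := by
    rw [hx'w]
    have := norm_sub_le_max' x' x y'
    rw [norm_sub_rev x' x] at this
    refine this.trans (max_le (h2.trans (by nlinarith)) (h3.trans (by nlinarith)))
  obtain ⟨a1, a2⟩ := split_eq hf hg hxw (h1.trans (by nlinarith)) he
  obtain ⟨b1, b2⟩ := split_eq hf hg hx'w' h4 he'
  have q1 := hf.near ε hε0 hε1 x y x' y' w hxy hx'y' hxw h1 h2 h3 a1 b1
  have q2 := hg.near ε hε0 hε1 (f x) (f y) (f x') (f y') (f w) (fun e => hxy (hf.inj e))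
    (fun e => hx'y' (hf.inj e)) (fun e => hxw (hf.inj e))
    (hf.mono.le_mul hxw hε1.le h1) (hf.mono.le_mul hxw hε1.le h2) (hf.mono.le_mul hxw hε1.le h3)
    a2 b2
  set a := (g (f x) - g (f y)) / (f x - f y) with ha
  set a' := (g (f x') - g (f y')) / (f x' - f y') with ha'
  set b := (f x - f y) / (x - y) with hb
  set b' := (f x' - f y') / (x' - y') with hb'
  have hfxy : f x - f y ≠ 0 := sub_ne_zero.mpr (fun e => hxy (hf.inj e))
  have hfxy' : f x' - f y' ≠ 0 := sub_ne_zero.mpr (fun e => hx'y' (hf.inj e))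
  have e1 : ((g ∘ f) x - (g ∘ f) y) / (x - y) = a * b := by
    simp only [Function.comp, ha, hb]
    field_simp
  have e2 : ((g ∘ f) x' - (g ∘ f) y') / (x' - y') = a' * b' := by
    simp only [Function.comp, ha', hb']
    field_simp
  rw [e1, e2]
  have hb'le : ‖b'‖ ≤ ‖b‖ := by
    have : ‖b'‖ ≤ max ‖b‖ ‖b - b'‖ := by
      have := norm_sub_le_max' b' b 0
      rw [sub_zero, sub_zero, norm_sub_rev b' b, max_comm] at this
      exact this
    refine this.trans (max_le le_rfl (q1.trans ?_))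
    nlinarith [norm_nonneg b]
  have e3 : a * b - a' * b' = a * (b - b') + (a - a') * b' := by ring
  rw [e3]
  refine (IsUltrametricDist.norm_add_le_max _ _).trans (max_le ?_ ?_)
  · rw [norm_mul, norm_mul]
    calc ‖a‖ * ‖b - b'‖ ≤ ‖a‖ * (ε * ‖b‖) := mul_le_mul_of_nonneg_left q1 (norm_nonneg _)
      _ = _ := by ring
  · rw [norm_mul, norm_mul]
    calc ‖a - a'‖ * ‖b'‖ ≤ (ε * ‖a‖) * ‖b‖ :=
          mul_le_mul q2 hb'le (norm_nonneg _) (by positivity)
      _ = _ := by ring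

theorem good_id : Good (id : K → K) := by
  refine ⟨Function.injective_id, ?_, ?_⟩
  · intro x y z _
    simp only [id]
    exact le_of_eq (mul_comm _ _)
  · intro ε hε0 _ x y x' y' w hxy hx'y' _ _ _ _ _ _
    simp only [id]
    rw [div_self (sub_ne_zero.mpr hxy), div_self (sub_ne_zero.mpr hx'y')]
    simpa using hε0

theorem Good.iterate {f : K → K} (hf : Good f) (n : ℕ) : Good (f^[n]) := by
  induction n with
  | zero => simpa using good_id
  | succ n ih =>
    rw [Function.iterate_succ]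
    exact ih.comp hf

/-- Affine maps are good. -/
theorem good_affine {α c : K} (hα : α ≠ 0) : Good (fun x : K => α * x + c) := by
  have key : ∀ x y : K, (α * x + c) - (α * y + c) = α * (x - y) := fun x y => by ring
  refine ⟨?_, ?_, ?_⟩
  · intro x y h
    have : α * (x - y) = 0 := by rw [← key]; exact sub_eq_zero.mpr h
    rcases mul_eq_zero.mp this with h | h
    · exact absurd h hα
    · exact sub_eq_zero.mp h
  · intro x y z _
    simp only [key, norm_mul]
    exact le_of_eq (by ring)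
  · intro ε hε0 _ x y x' y' w hxy hx'y' _ _ _ _ _ _
    simp only [key]
    rw [mul_div_assoc, mul_div_assoc, div_self (sub_ne_zero.mpr hxy),
      div_self (sub_ne_zero.mpr hx'y'), sub_self, norm_zero]
    positivity

/-- On a finite set `S` which is mapped to itself and consists of points with `f^[n] x = x`,
a good map preserves ratios. -/
theorem Good.ratio {f : K → K} (hf : Good f) {n : ℕ} {x y z : K}
    (hx : f^[n + 1] x = x) (hy : f^[n + 1] y = y) (hz : f^[n + 1] z = z) :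
    ‖f x - f y‖ * ‖x - z‖ = ‖f x - f z‖ * ‖x - y‖ := by
  wlog h : ‖x - y‖ ≤ ‖x - z‖ generalizing y z
  · exact (this hz hy (le_of_lt (not_le.mp h))).symm
  by_cases hxz : x = z
  · subst hxz
    have : x = y := by
      rw [sub_self, norm_zero] at h
      exact sub_eq_zero.mp (norm_eq_zero.mp (le_antisymm h (norm_nonneg _)))
    subst this
    simp
  refine (split_eq hf (hf.iterate n) hxz h ?_).1
  have e : ∀ u, f^[n] (f u) = f^[n + 1] u := fun u => (Function.iterate_succ_apply f n u).symm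
  rw [e, e, e, hx, hy, hz, mul_comm]

/-- A good map is an isometry on a finite invariant set of periodic points. -/
theorem Good.isometry {f : K → K} (hf : Good f) {n : ℕ} {S : Finset K}
    (hS : ∀ x ∈ S, f x ∈ S) (hn : ∀ x ∈ S, f^[n + 1] x = x) :
    ∀ x ∈ S, ∀ y ∈ S, ‖f x - f y‖ = ‖x - y‖ := by
  classical
  by_cases hne : S.Nonempty
  swap
  · intro x hx
    exact absurd ⟨x, hx⟩ hne
  obtain ⟨⟨x0, w0⟩, hmem, hmax⟩ := (S ×ˢ S).exists_max_image (fun q => ‖q.1 - q.2‖)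
    (hne.product hne)
  rw [Finset.mem_product] at hmem
  obtain ⟨hx0, hw0⟩ := hmem
  have hmax' : ∀ x ∈ S, ∀ y ∈ S, ‖x - y‖ ≤ ‖x0 - w0‖ := fun x hx y hy =>
    hmax (x, y) (Finset.mem_product.mpr ⟨hx, hy⟩)
  -- step 1
  have hle : ∀ x ∈ S, ∀ y ∈ S, ‖f x - f y‖ ≤ ‖x - y‖ := by
    by_cases h0 : x0 = w0
    · intro x hx y hy
      have h1 := hmax' x hx y hy
      have h2 := hmax' (f x) (hS x hx) (f y) (hS y hy)
      rw [h0, sub_self, norm_zero] at h1 h2
      rw [le_antisymm h1 (norm_nonneg _), le_antisymm h2 (norm_nonneg _)]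
    · have hpos : 0 < ‖x0 - w0‖ := norm_pos_iff.mpr (sub_ne_zero.mpr h0)
      have h1 : ∀ y ∈ S, ‖f x0 - f y‖ ≤ ‖x0 - y‖ := by
        intro y hy
        have hr := hf.ratio (hn x0 hx0) (hn y hy) (hn w0 hw0)
        have h2 := hmax' (f x0) (hS x0 hx0) (f w0) (hS w0 hw0)
        have : ‖f x0 - f y‖ * ‖x0 - w0‖ ≤ ‖x0 - y‖ * ‖x0 - w0‖ := by
          rw [hr, mul_comm ‖x0 - y‖]
          exact mul_le_mul_of_nonneg_right h2 (norm_nonneg _)
        exact le_of_mul_le_mul_right this hpos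
      intro x hx y hy
      by_cases hxx : x = x0
      · rw [hxx]; exact h1 y hy
      · have hr := hf.ratio (hn x hx) (hn y hy) (hn x0 hx0)
        have hp : 0 < ‖x - x0‖ := norm_pos_iff.mpr (sub_ne_zero.mpr hxx)
        have h2 := h1 x hx
        rw [norm_sub_rev, norm_sub_rev x0 x] at h2
        have : ‖f x - f y‖ * ‖x - x0‖ ≤ ‖x - y‖ * ‖x - x0‖ := by
          rw [hr, mul_comm ‖x - y‖]
          exact mul_le_mul_of_nonneg_right h2 (norm_nonneg _)
        exact le_of_mul_le_mul_right this hp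
  have hmemit : ∀ k : ℕ, ∀ x ∈ S, f^[k] x ∈ S := by
    intro k
    induction k with
    | zero => intro x hx; simpa using hx
    | succ k ih => intro x hx; rw [Function.iterate_succ_apply]; exact ih _ (hS x hx)
  have hleit : ∀ k : ℕ, ∀ x ∈ S, ∀ y ∈ S, ‖f^[k] x - f^[k] y‖ ≤ ‖x - y‖ := by
    intro k
    induction k with
    | zero => intro x _ y _; simp
    | succ k ih =>
      intro x hx y hy
      rw [Function.iterate_succ_apply, Function.iterate_succ_apply]
      exact (ih _ (hS x hx) _ (hS y hy)).trans (hle x hx y hy)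
  intro x hx y hy
  apply le_antisymm (hle x hx y hy)
  have h1 := hleit n (f x) (hS x hx) (f y) (hS y hy)
  rw [← Function.iterate_succ_apply, ← Function.iterate_succ_apply, hn x hx, hn y hy] at h1
  exact h1

end

end Pool.Agent.UBC
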