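import Pool.Agent.UBC.ExGapT
import Pool.Agent.UBC.ExAgree3
import Pool.Agent.UBC.ExAgree2
import Pool.Agent.UBC.DynHt

/-!
# The main step: few preperiodic points with ratio in `T`
-/

set_option autoImplicit false

universe u

namespace UBC

open Height NumberField IsDedekindDomain Polynomial

namespace MainStepAux

lemma iter_map {K L : Type*} [Field K] [Field L] (φ : K →+* L) (d : ℕ) (lam x : K) (k : ℕ) :
    (tw d (φ lam))^[k] (φ x) = φ ((tw d lam)^[k] x) := by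
  induction k with
  | zero => simp
  | succ k ih =>
    rw [Function.iterate_succ_apply', Function.iterate_succ_apply', ih]
    simp [tw]

lemma pre_map {K L : Type*} [Field K] [Field L] (φ : K →+* L) {d : ℕ} {lam x : K}
    (hx : PrePt (tw d lam) x) : PrePt (tw d (φ lam)) (φ x) := by
  unfold PrePt at hx ⊢
  have : (Set.range fun k : ℕ => (tw d (φ lam))^[k] (φ x)) =
      φ '' (Set.range fun k : ℕ => (tw d lam)^[k] x) := by
    rw [← Set.range_comp]
    congr 1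
    funext k
    exact iter_map φ d lam x k
  rw [this]
  exact hx.image _

/-- upper bound for the height of the ratio -/
lemma upper (L : Type*) [Field L] [NumberField L] {d : ℕ} (hd : 4 ≤ d) {C : ℝ}
    (hC : ∀ lam x : L, lam ≠ 0 → PrePt (tw d lam) x →
      ((d : ℝ) - 1) * logHeight₁ x ≤ logHeight₁ lam + C)
    {lam w x : L} (hlam : lam ≠ 0) (hw : PrePt (tw d lam) w) (hx : PrePt (tw d lam) x)
    (hl : |C| ≤ logHeight₁ lam) : logHeight₁ (w / x) ≤ 3 * logHeight₁ lam := by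
  have h1 := hC lam w hlam hw
  have h2 := hC lam x hlam hx
  have h3 : logHeight₁ (w / x) ≤ logHeight₁ w + logHeight₁ x := by
    rw [div_eq_mul_inv, ← logHeight₁_inv x]
    exact logHeight₁_mul_le _ _
  have h4 : (4:ℝ) ≤ d := by exact_mod_cast hd
  have h5 := le_abs_self C
  have h6 := zero_le_logHeight₁ w
  have h7 := zero_le_logHeight₁ x
  have h8 : 3 * (logHeight₁ w + logHeight₁ x) ≤
      ((d : ℝ) - 1) * (logHeight₁ w + logHeight₁ x) :=
    mul_le_mul_of_nonneg_right (by linarith) (by linarith)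
  have h9 : ((d : ℝ) - 1) * (logHeight₁ w + logHeight₁ x) =
      ((d : ℝ) - 1) * logHeight₁ w + ((d : ℝ) - 1) * logHeight₁ x := by ring
  linarith

lemma few_case (K : Type u) [Field K] [NumberField K] {d : ℕ} (hd : 4 ≤ d) (T : Set K)
    (L : Type u) [Field L] [NumberField L] [Algebra K L] (D : Set L) (hF : Few d L D)
    (hT : ∀ t ∈ T, algebraMap K L t ∈ D) :
    ∃ (N : ℕ) (C1 : ℝ), ∀ lam : K, lam ≠ 0 → C1 ≤ logHeight₁ (algebraMap K L lam) →
      ∀ x : K, PrePt (tw d lam) x → x ≠ 0 → ∀ W : Finset K,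
        (∀ w ∈ W, PrePt (tw d lam) w ∧ w ^ d ≠ x ^ d ∧ w / x ∈ T) → W.card ≤ N := by
  classical
  obtain ⟨C, hC1, -, -⟩ := dyn_height L (d := d) (by omega)
  obtain ⟨N, C1, hN⟩ := hF 3
  refine ⟨N, max C1 |C|, ?_⟩
  intro lam hlam hl x hx hx0 W hW
  set φ : K →+* L := algebraMap K L with hφ
  have hinj : Function.Injective φ := φ.injective
  have hcard : (W.image (fun w => φ (w / x))).card = W.card := by
    apply Finset.card_image_of_injective
    intro a b hab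
    exact (div_left_inj' hx0).1 (hinj hab)
  rw [← hcard]
  have hl1 : C1 ≤ logHeight₁ (φ lam) := (le_max_left _ _).trans hl
  have hl2 : |C| ≤ logHeight₁ (φ lam) := (le_max_right _ _).trans hl
  have hlamL : φ lam ≠ 0 := by rwa [Ne, map_eq_zero]
  refine hN (φ lam) hl1 _ ?_
  intro t ht
  rw [Finset.mem_image] at ht
  obtain ⟨w, hw, rfl⟩ := ht
  obtain ⟨hw1, hw2, hw3⟩ := hW w hw
  have hxL : φ x ≠ 0 := by rwa [Ne, map_eq_zero]
  have hwx : (φ w) ^ d ≠ (φ x) ^ d := by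
    rw [← map_pow, ← map_pow]
    exact fun hh => hw2 (hinj hh)
  have e1 : φ (w / x) = φ w / φ x := map_div₀ φ w x
  refine ⟨hT _ hw3, ?_, ?_, ?_, ?_⟩
  · rw [e1, div_pow]
    intro h
    exact hwx ((div_eq_one_iff_eq (pow_ne_zero _ hxL)).1 h)
  · rw [e1]
    exact upper L hd hC1 hlamL (pre_map φ hw1) (pre_map φ hx) hl2
  · intro v _
    rw [e1]
    exact near_any v (by omega) hlamL (pre_map φ hw1) (pre_map φ hx) hxL hwx
  · intro v hv
    rw [e1]
    exact near_nonarch v (AdmissibleAbsValues.isNonarchimedean v hv) (by omega) hlamL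
      (pre_map φ hw1) (pre_map φ hx) hxL hwx

lemma gap_case (K : Type u) [Field K] [NumberField K] {d : ℕ} (hd : 4 ≤ d) (T : Set K)
    (L : Type u) [Field L] [NumberField L] [Algebra K L]
    (hG : Gap (fun t : K => logHeight₁ (algebraMap K L t)) T) :
    ∃ (N : ℕ) (C1 : ℝ), ∀ lam : K, lam ≠ 0 → C1 ≤ logHeight₁ (algebraMap K L lam) →
      ∀ x : K, PrePt (tw d lam) x → x ≠ 0 → ∀ W : Finset K,
        (∀ w ∈ W, PrePt (tw d lam) w ∧ w ^ d ≠ x ^ d ∧ w / x ∈ T) → W.card ≤ N := by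
  classical
  obtain ⟨C, hC1, -, hC3⟩ := dyn_height L (d := d) (by omega)
  obtain ⟨N, H0, hN⟩ := hG (6 * (d : ℝ) ^ 2)
  have hd4 : (4 : ℝ) ≤ d := by exact_mod_cast hd
  have hdd : (0 : ℝ) < 2 * (d : ℝ) ^ 2 := by positivity
  refine ⟨N, max (2 * |C|) (2 * (d : ℝ) ^ 2 * |H0|), ?_⟩
  intro lam hlam hl x hx hx0 W hW
  set φ : K →+* L := algebraMap K L with hφ
  have hinj : Function.Injective φ := φ.injective
  have hcard : (W.image (fun w => w / x)).card = W.card := by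
    apply Finset.card_image_of_injective
    intro a b hab
    exact (div_left_inj' hx0).1 hab
  rw [← hcard]
  have hl1 : 2 * |C| ≤ logHeight₁ (φ lam) := (le_max_left _ _).trans hl
  have hl2 : 2 * (d : ℝ) ^ 2 * |H0| ≤ logHeight₁ (φ lam) := (le_max_right _ _).trans hl
  have hlamL : φ lam ≠ 0 := by rwa [Ne, map_eq_zero]
  have hCabs := le_abs_self C
  have hC0 := abs_nonneg C
  refine hN (logHeight₁ (φ lam) / (2 * (d : ℝ) ^ 2)) ?_ _ ?_
  · rw [le_div_iff₀ hdd]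
    calc H0 * (2 * (d : ℝ) ^ 2) ≤ |H0| * (2 * (d : ℝ) ^ 2) :=
          mul_le_mul_of_nonneg_right (le_abs_self _) hdd.le
      _ = 2 * (d : ℝ) ^ 2 * |H0| := by ring
      _ ≤ _ := hl2
  · intro t ht
    rw [Finset.mem_image] at ht
    obtain ⟨w, hw, rfl⟩ := ht
    obtain ⟨hw1, hw2, hw3⟩ := hW w hw
    have hxL : φ x ≠ 0 := by rwa [Ne, map_eq_zero]
    have hwx : (φ w) ^ d ≠ (φ x) ^ d := by
      rw [← map_pow, ← map_pow]
      exact fun hh => hw2 (hinj hh)
    have e1 : φ (w / x) = φ w / φ x := map_div₀ φ w x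
    refine ⟨hw3, ?_, ?_⟩
    · show logHeight₁ (φ lam) / (2 * (d : ℝ) ^ 2) ≤ logHeight₁ (φ (w / x))
      have h1 := hC3 (φ lam) (φ w) (φ x) hlamL (pre_map φ hw1) (pre_map φ hx) hxL hwx
      rw [e1, div_le_iff₀ hdd]
      linarith
    · show logHeight₁ (φ (w / x)) ≤ 6 * (d : ℝ) ^ 2 * (logHeight₁ (φ lam) / (2 * (d : ℝ) ^ 2))
      have h2 := upper L hd hC1 hlamL (pre_map φ hw1) (pre_map φ hx) (by linarith)
      have h3 : 6 * (d : ℝ) ^ 2 * (logHeight₁ (φ lam) / (2 * (d : ℝ) ^ 2)) =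
          3 * logHeight₁ (φ lam) := by
        field_simp
        ring
      rw [e1, h3]
      exact h2

end MainStepAux

open MainStepAux

/-- V16.  Cases `(4, 3)`, `(5, 2)`: `Few`, with `Near` from `near_nonarch`, `near_any` and
`h(w / x) ≤ h(w) + h(x) ≤ 2 (h(lam) + C) / (d - 1)`.  Other cases: `exists_gap_T` and the window
`(h(lam) - C) / d ^ 2 ≤ h(w / x) ≤ 2 (h(lam) + C) / (d - 1)`, both from `dyn_height` over `L`. -/
theorem main_step (K : Type u) [Field K] [NumberField K] {d l : ℕ} (hd : 4 ≤ d) (hl : 2 ≤ l)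
    (hcop : Nat.Coprime l d) {ζ0 : K} (hζ0 : IsPrimitiveRoot ζ0 d)
    (S : Set (HeightOneSpectrum (𝓞 K))) (hS : S.Finite) :
    ∃ (L : Type u) (_ : Field L) (_ : NumberField L) (_ : Algebra K L) (N : ℕ) (C1 : ℝ),
      ∀ lam : K, lam ≠ 0 → C1 ≤ logHeight₁ (algebraMap K L lam) →
      ∀ x : K, PrePt (tw d lam) x → x ≠ 0 → ∀ W : Finset K,
        (∀ w ∈ W, PrePt (tw d lam) w ∧ w ^ d ≠ x ^ d ∧
          ∀ ζ ζ' : K, ζ ^ d = 1 → ζ ≠ 1 → ζ' ^ d = 1 → ζ' ≠ 1 →
            w / x ≠ ζ ∧ Sel l S ((w / x - ζ) / (w / x - ζ'))) → W.card ≤ N := by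
  by_cases h43 : d = 4 ∧ l = 3
  · obtain ⟨rfl, rfl⟩ := h43
    obtain ⟨L, i1, i2, i3, D, hF, hD⟩ := exists_few_three K hζ0 S hS
    obtain ⟨N, C1, h⟩ := few_case K hd _ L D hF hD
    exact ⟨L, i1, i2, i3, N, C1, h⟩
  · by_cases h52 : d = 5 ∧ l = 2
    · obtain ⟨rfl, rfl⟩ := h52
      obtain ⟨L, i1, i2, i3, D, hF, hD⟩ := exists_few_two K hζ0 S hS
      obtain ⟨N, C1, h⟩ := few_case K hd _ L D hF hD
      exact ⟨L, i1, i2, i3, N, C1, h⟩
    · obtain ⟨L, i1, i2, i3, hG⟩ := exists_gap_T K hd hl hcop h43 h52 hζ0 S hS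
      obtain ⟨N, C1, h⟩ := gap_case K hd _ L hG
      exact ⟨L, i1, i2, i3, N, C1, h⟩

end UBC
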