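import Pool.Agent.UBC.Metric
import Pool.Agent.UBC.FermatGap
import Pool.Agent.UBC.FinalPer

/-!
# Two finite sets all of whose mutual ratios have the gap property
-/

set_option autoImplicit false

universe u

namespace UBC

open Height NumberField IsDedekindDomain Polynomial WithZero

open MetricAux in
/-- the bipartite metric argument -/
theorem metric_bip (K L : Type*) [Field K] [Field L] [NumberField L] [Algebra K L] (T : Set K)
    (hT : Gap (fun t : K => logHeight₁ (algebraMap K L t)) T) :
    ∃ B : ℕ, ∀ A C : Finset K, (∀ x ∈ A, x ≠ 0) → (∀ y ∈ C, y ≠ 0) →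
      (∀ x ∈ A, ∀ y ∈ C, x / y ∈ T) → A.card ≤ B ∨ C.card ≤ B := by
  classical
  obtain ⟨N, H0, hN⟩ := hT 3
  set H1 : ℝ := max H0 1 with hH1
  have hH1pos : 0 < H1 := lt_of_lt_of_le one_pos (le_max_right _ _)
  have hfin : {z : L | logHeight₁ z ≤ 3 * H1}.Finite := finite_setOfPred_logHeight₁_le L (3 * H1)
  refine ⟨hfin.toFinset.card + (N + N), fun A C hA0 hC0 hAC => ?_⟩
  rcases A.eq_empty_or_nonempty with hAe | hAne
  · left; simp [hAe]
  rcases C.eq_empty_or_nonempty with hCe | hCne
  · right; simp [hCe]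
  obtain ⟨⟨a, b⟩, hab, hmax⟩ := Finset.exists_max_image (A ×ˢ C)
    (fun p : K × K => dst L p.1 p.2) (hAne.product hCne)
  rw [Finset.mem_product] at hab
  obtain ⟨ha, hb⟩ := hab
  simp only at ha hb
  have hmax' : ∀ x ∈ A, ∀ y ∈ C, dst L x y ≤ dst L a b := fun x hx y hy =>
    hmax (x, y) (Finset.mem_product.2 ⟨hx, hy⟩)
  have ha0 := hA0 a ha
  have hb0 := hC0 b hb
  set D : ℝ := dst L a b with hDdef
  by_cases hD : D / 3 < H1
  · left
    have h1 : A.card ≤ hfin.toFinset.card := by
      refine Finset.card_le_card_of_injOn (fun x => algebraMap K L (x / b)) ?_ ?_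
      · intro x hx
        have hx' : x ∈ A := hx
        simp only [Set.Finite.coe_toFinset, Set.mem_ofPred_eq]
        have h2 := hmax' x hx' b hb
        unfold dst at h2
        linarith
      · intro x hx y hy hxy
        have hxy' : algebraMap K L (x / b) = algebraMap K L (y / b) := hxy
        have h2 := (algebraMap K L).injective hxy'
        exact (div_left_inj' hb0).1 h2
    omega
  · push Not at hD
    have hD0 : H0 ≤ D / 3 := le_trans (le_max_left _ _) hD
    have h3D : (3 : ℝ) * (D / 3) = D := by ring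
    -- elements of `A` far from a given element of `C`
    have hpA : ∀ y ∈ C, (A.filter (fun k => D / 3 ≤ dst L k y)).card ≤ N := by
      intro y hy
      have hy0 := hC0 y hy
      have hinj : Set.InjOn (fun k : K => k / y)
          (A.filter (fun k => D / 3 ≤ dst L k y) : Finset K) := by
        intro x _ x' _ hxx
        exact (div_left_inj' hy0).1 hxx
      rw [← Finset.card_image_of_injOn hinj]
      refine hN (D / 3) hD0 _ ?_
      intro t ht
      rw [Finset.mem_image] at ht
      obtain ⟨k, hk, rfl⟩ := ht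
      rw [Finset.mem_filter] at hk
      exact ⟨hAC k hk.1 y hy, hk.2, by rw [h3D]; exact hmax' k hk.1 y hy⟩
    have hpC : ∀ x ∈ A, (C.filter (fun l => D / 3 ≤ dst L x l)).card ≤ N := by
      intro x hx
      have hx0 := hA0 x hx
      have hinj : Set.InjOn (fun l : K => x / l)
          (C.filter (fun l => D / 3 ≤ dst L x l) : Finset K) := by
        intro y hy y' hy' hyy
        have hy1 := hC0 y (Finset.mem_filter.1 (Finset.mem_coe.1 hy)).1
        have hy1' := hC0 y' (Finset.mem_filter.1 (Finset.mem_coe.1 hy')).1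
        have hyy' : x / y = x / y' := hyy
        rw [div_eq_div_iff hy1 hy1'] at hyy'
        exact (mul_left_cancel₀ hx0 hyy').symm
      rw [← Finset.card_image_of_injOn hinj]
      refine hN (D / 3) hD0 _ ?_
      intro t ht
      rw [Finset.mem_image] at ht
      obtain ⟨l, hl, rfl⟩ := ht
      rw [Finset.mem_filter] at hl
      exact ⟨hAC x hx l hl.1, hl.2, by rw [h3D]; exact hmax' x hx l hl.1⟩
    by_cases hcard : A.card ≤ N
    · left; omega
    · push Not at hcard
      right
      obtain ⟨k, hk, hk2⟩ : ∃ k ∈ A, dst L k b < D / 3 := by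
        by_contra hno
        push Not at hno
        have h1 : A.filter (fun k => D / 3 ≤ dst L k b) = A := by
          rw [Finset.filter_eq_self]
          exact hno
        have h2 := hpA b hb
        rw [h1] at h2
        omega
      have hcov : C ⊆ (C.filter (fun l => D / 3 ≤ dst L a l)) ∪
          (C.filter (fun l => D / 3 ≤ dst L k l)) := by
        intro l hl
        rw [Finset.mem_union, Finset.mem_filter, Finset.mem_filter]
        by_cases h3 : D / 3 ≤ dst L a l
        · exact Or.inl ⟨hl, h3⟩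
        · right
          refine ⟨hl, ?_⟩
          push Not at h3
          have h4 : dst L a b ≤ dst L a l + dst L l b := dst_triangle (hC0 l hl)
          have h5 : dst L l b ≤ dst L l k + dst L k b := dst_triangle (hA0 k hk)
          rw [dst_symm l k] at h5
          linarith
      have h6 := (Finset.card_le_card hcov).trans (Finset.card_union_le _ _)
      have h7 := hpC a ha
      have h8 := hpC k hk
      omega

/-- gap property for `t` and `t - 1` -/
theorem exists_gap_two (K : Type u) [Field K] [NumberField K] {n : ℕ} (hn : 5 ≤ n)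
    (S : Set (HeightOneSpectrum (𝓞 K))) (hS : S.Finite) :
    ∃ (L : Type u) (_ : Field L) (_ : NumberField L) (_ : Algebra K L),
      Gap (fun t : K => logHeight₁ (algebraMap K L t)) {t : K | Sel n S t ∧ Sel n S (t - 1)} := by
  classical
  set S' : Set (HeightOneSpectrum (𝓞 K)) := S ∪ {v | v.valuation K ((2 : ℕ) : K) ≠ 1} with hS'
  have hS'f : S'.Finite := hS.union (finite_nonunit K ((2 : ℕ) : K) (by norm_num))
  set e : Fin 3 → K := ![0, 1, 2] with he
  have heinj : Function.Injective e := by
    intro i j hij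
    match i, j, hij with
    | 0, 0, _ => rfl
    | 0, 1, h => exact absurd h (by simp [he])
    | 0, 2, h => exact absurd h (by simp [he])
    | 1, 0, h => exact absurd h (by simp [he])
    | 1, 1, _ => rfl
    | 1, 2, h => exact absurd h (by simp [he])
    | 2, 0, h => exact absurd h (by simp [he])
    | 2, 1, h => exact absurd h (by simp [he])
    | 2, 2, _ => rfl
  obtain ⟨L, i1, i2, i3, hgap⟩ := exists_gap_fermat K hn S' hS'f e heinj
  refine ⟨L, i1, i2, i3, ?_⟩
  obtain ⟨C1, hC1⟩ := height_mobius (L := L) 0 2 (-1) 2 (by norm_num)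
  refine Gap.of_large (logHeight₁ (algebraMap K L 2) + 1) ?_
  have h2K : (2 : K) ≠ 0 := two_ne_zero
  have hne : ∀ t : K, logHeight₁ (algebraMap K L 2) + 1 ≤ logHeight₁ (algebraMap K L t) →
      2 - t ≠ 0 := by
    intro t ht h
    rw [← sub_eq_zero.1 h] at ht
    linarith
  have hcmp : ∀ t : K, 2 - t ≠ 0 →
      |logHeight₁ (algebraMap K L (2 / (2 - t))) - logHeight₁ (algebraMap K L t)| ≤ C1 := by
    intro t ht
    have h1 := hC1 (algebraMap K L t) (by
      have h2 : (-1 : L) * algebraMap K L t + 2 = algebraMap K L (2 - t) := by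
        rw [map_sub, map_ofNat]; ring
      rw [h2]
      exact (_root_.map_ne_zero _).mpr ht)
    have h2 : algebraMap K L (2 / (2 - t)) =
        (0 * algebraMap K L t + 2) / (-1 * algebraMap K L t + 2) := by
      rw [map_div₀, map_sub, map_ofNat]
      congr 1 <;> ring
    rw [h2]
    exact h1
  refine Gap.transfer hgap (fun t => 2 / (2 - t)) 1 1 1 C1 one_pos ?_ ?_ ?_ ?_
  · rintro t ⟨⟨ht1, ht2⟩, hlarge⟩
    have h2t := hne t hlarge
    have ht0 : t ≠ 0 := ht1.1
    have ht10 : t - 1 ≠ 0 := ht2.1
    have e0 : e 0 = 0 := rfl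
    have e1 : e 1 = 1 := rfl
    have e2 : e 2 = 2 := rfl
    have hs0 : 2 / (2 - t) ≠ 0 := div_ne_zero h2K h2t
    have r1 : (2 / (2 - t) - e 1) / (2 / (2 - t) - e 0) = t / 2 := by
      rw [e0, e1, sub_zero]
      field_simp
      ring
    have r2 : (2 / (2 - t) - e 2) / (2 / (2 - t) - e 0) = t - 1 := by
      rw [e0, e2, sub_zero]
      field_simp
      ring
    have hsel : ∀ {y : K}, Sel n S y → Sel n S' y := fun h =>
      ⟨h.1, fun v hv => h.2 v (fun hvS => hv (Or.inl hvS))⟩
    have hnz : ∀ j, (2 / (2 - t) - e j) / (2 / (2 - t) - e 0) ≠ 0 → 2 / (2 - t) ≠ e j := by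
      intro j h h'
      rw [h', sub_self, zero_div] at h
      exact h rfl
    intro j
    fin_cases j
    · refine ⟨fun h => hs0 (h.trans e0), ?_⟩
      change Sel n S' ((2 / (2 - t) - e 0) / (2 / (2 - t) - e 0))
      rw [e0, sub_zero, div_self hs0]
      exact ⟨one_ne_zero, fun v _ => ⟨1, by rw [map_one, one_pow]⟩⟩
    · refine ⟨hnz 1 (by rw [r1]; exact div_ne_zero ht0 h2K), ?_⟩
      change Sel n S' ((2 / (2 - t) - e 1) / (2 / (2 - t) - e 0))
      rw [r1]
      refine ⟨div_ne_zero ht0 h2K, fun v hv => ?_⟩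
      obtain ⟨γ, hγ⟩ := (hsel ht1).2 v hv
      refine ⟨γ, ?_⟩
      have hv2 : v.valuation K ((2 : ℕ) : K) = 1 := by
        by_contra h
        exact hv (Or.inr h)
      rw [Nat.cast_ofNat] at hv2
      rw [map_div₀, hv2, div_one, hγ]
    · refine ⟨hnz 2 (by rw [r2]; exact ht10), ?_⟩
      change Sel n S' ((2 / (2 - t) - e 2) / (2 / (2 - t) - e 0))
      rw [r2]
      exact hsel ht2
  · rintro t ⟨-, hlarge⟩
    have h1 := (abs_le.1 (hcmp t (hne t hlarge))).1
    change 1 * logHeight₁ (algebraMap K L t) - C1 ≤ logHeight₁ (algebraMap K L (2 / (2 - t)))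
    linarith
  · rintro t ⟨-, hlarge⟩
    have h1 := (abs_le.1 (hcmp t (hne t hlarge))).2
    change logHeight₁ (algebraMap K L (2 / (2 - t))) ≤ 1 * logHeight₁ (algebraMap K L t) + C1
    linarith
  · intro A w hA
    rw [Finset.card_le_one]
    intro a ha b hb
    obtain ⟨⟨-, h1⟩, h2⟩ := hA a ha
    obtain ⟨⟨-, h3⟩, h4⟩ := hA b hb
    have h5 : 2 / (2 - a) = 2 / (2 - b) := by
      have h6 : (fun t : K => 2 / (2 - t)) a = (fun t : K => 2 / (2 - t)) b := h2.trans h4.symm
      exact h6
    rw [div_eq_div_iff (hne a h1) (hne b h3)] at h5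
    have h7 := mul_left_cancel₀ h2K h5
    linear_combination h7

end UBC
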