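import Mathlib
import Pool.Agent.UBC.ResField

set_option autoImplicit false
set_option linter.unusedSectionVars false

/-!
# The relative residue degree is at most the degree
-/

namespace Pool.Agent.UBC

section
variable {K L : Type*} [NormedField K] [IsUltrametricDist K] [NormedField L] [IsUltrametricDist L]
  [Algebra K L]

/-- The map of unit balls. -/
def ballMap (hn : ∀ x : K, ‖algebraMap K L x‖ = ‖x‖) : unitBall K →+* unitBall L :=
  ((algebraMap K L).comp (unitBall K).subtype).codRestrict (unitBall L) (fun x => by
    rw [mem_unitBall]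
    have : ((algebraMap K L).comp (unitBall K).subtype) x = algebraMap K L (x : K) := rfl
    rw [this, hn]
    exact x.2)

theorem coe_ballMap (hn : ∀ x : K, ‖algebraMap K L x‖ = ‖x‖) (x : unitBall K) :
    ((ballMap hn x : unitBall L) : L) = algebraMap K L (x : K) := rfl

/-- The map of residue fields. -/
def resMap (hn : ∀ x : K, ‖algebraMap K L x‖ = ‖x‖) : ResField K →+* ResField L :=
  Ideal.quotientMap (openIdeal L) (ballMap hn) (by
    intro x hx
    rw [Ideal.mem_comap, mem_openIdeal, coe_ballMap, hn]
    exact hx)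

theorem resMap_mk (hn : ∀ x : K, ‖algebraMap K L x‖ = ‖x‖) (x : unitBall K) :
    resMap hn (Ideal.Quotient.mk (openIdeal K) x) =
      Ideal.Quotient.mk (openIdeal L) (ballMap hn x) := by
  unfold resMap
  rw [Ideal.quotientMap_mk]

theorem linInd_lift (hn : ∀ x : K, ‖algebraMap K L x‖ = ‖x‖) {r : ℕ} (y : Fin r → unitBall L)
    (hy : ∀ c : Fin r → ResField K,
      ∑ i, resMap hn (c i) * Ideal.Quotient.mk (openIdeal L) (y i) = 0 → ∀ i, c i = 0) :
    LinearIndependent K (fun i => ((y i : unitBall L) : L)) := by
  classical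
  rw [Fintype.linearIndependent_iff]
  intro g hg
  by_contra hcon
  push Not at hcon
  obtain ⟨i1, hi1⟩ := hcon
  obtain ⟨i0, _, hmax⟩ := Finset.exists_max_image Finset.univ (fun i => ‖g i‖)
    ⟨i1, Finset.mem_univ i1⟩
  have hpos : 0 < ‖g i0‖ := lt_of_lt_of_le (norm_pos_iff.mpr hi1) (hmax i1 (Finset.mem_univ _))
  have hg0 : g i0 ≠ 0 := norm_pos_iff.mp hpos
  have hc : ∀ i, g i / g i0 ∈ unitBall K := by
    intro i
    rw [mem_unitBall, norm_div, div_le_one hpos]
    exact hmax i (Finset.mem_univ _)
  have hsum : ∑ i, ballMap hn ⟨g i / g i0, hc i⟩ * y i = 0 := by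
    apply Subtype.ext
    have e : ((∑ i, ballMap hn ⟨g i / g i0, hc i⟩ * y i : unitBall L) : L) =
        ∑ i, algebraMap K L (g i / g i0) * (y i : L) := by
      rw [← Subring.subtype_apply, map_sum]
      rfl
    rw [e]
    have e2 : ∑ i, algebraMap K L (g i / g i0) * (y i : L) =
        algebraMap K L (g i0)⁻¹ * ∑ i, g i • (y i : L) := by
      rw [Finset.mul_sum]
      apply Finset.sum_congr rfl
      intro i _
      rw [Algebra.smul_def, ← mul_assoc, ← map_mul]
      congr 2
      rw [div_eq_mul_inv, mul_comm]
    rw [e2, hg, mul_zero]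
    rfl
  have h1 := congrArg (Ideal.Quotient.mk (openIdeal L)) hsum
  rw [map_sum, map_zero] at h1
  have h2 := hy (fun i => Ideal.Quotient.mk (openIdeal K) ⟨g i / g i0, hc i⟩) (by
    rw [← h1]
    apply Finset.sum_congr rfl
    intro i _
    rw [map_mul, resMap_mk]) i0
  rw [Ideal.Quotient.eq_zero_iff_mem, mem_openIdeal] at h2
  simp only at h2
  rw [div_self hg0, norm_one] at h2
  exact lt_irrefl _ h2

theorem card_rel (hn : ∀ x : K, ‖algebraMap K L x‖ = ‖x‖) [FiniteDimensional K L]
    [Finite (ResField L)] : ∃ r : ℕ, 1 ≤ r ∧ r ≤ Module.finrank K L ∧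
      Nat.card (ResField L) = Nat.card (ResField K) ^ r := by
  classical
  let : Algebra (ResField K) (ResField L) := (resMap hn).toAlgebra
  have hfin : Finite (ResField K) := Finite.of_injective (resMap hn) (resMap hn).injective
  have hmf : Module.Finite (ResField K) (ResField L) := Module.Finite.of_finite
  have hfree : Module.Free (ResField K) (ResField L) :=
    Module.Free.of_divisionRing (ResField K) (ResField L)
  refine ⟨Module.finrank (ResField K) (ResField L), Module.finrank_pos, ?_, ?_⟩
  · let b := Module.finBasis (ResField K) (ResField L)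
    have hsurj : ∀ i, ∃ y : unitBall L, Ideal.Quotient.mk (openIdeal L) y = b i :=
      fun i => Ideal.Quotient.mk_surjective (b i)
    choose y hy using hsurj
    have h1 := linInd_lift hn y (by
      intro c hc
      have h2 := b.linearIndependent
      rw [Fintype.linearIndependent_iff] at h2
      apply h2 c
      rw [← hc]
      apply Finset.sum_congr rfl
      intro i _
      rw [hy i, Algebra.smul_def]
      rfl)
    simpa using h1.fintype_card_le_finrank
  · exact Module.natCard_eq_pow_finrank

end

end Pool.Agent.UBC
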