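import Pool.Agent.UBC.Local

set_option autoImplicit false
set_option linter.unusedSectionVars false

/-!
# Periods of periodic points of good maps
-/

namespace Pool.Agent.UBC

variable {K : Type*} [NormedField K] [IsUltrametricDist K]

/-- Any `Q + 1` elements of the unit ball contain two which are congruent modulo `ε`. -/
def FewClasses (K : Type*) [NormedField K] (ε : ℝ) (Q : ℕ) : Prop :=
  ∀ c : Fin (Q + 1) → K, (∀ i, ‖c i‖ ≤ 1) → ∃ i j, i < j ∧ ‖c i - c j‖ ≤ ε

section iter
variable {S : Finset K} {g : K → K}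

theorem iter_mem (hS : ∀ x ∈ S, g x ∈ S) (k : ℕ) : ∀ x ∈ S, g^[k] x ∈ S := by
  induction k with
  | zero => intro x hx; simpa using hx
  | succ k ih => intro x hx; rw [Function.iterate_succ_apply]; exact ih _ (hS x hx)

theorem iter_iso (hS : ∀ x ∈ S, g x ∈ S) (iso : ∀ x ∈ S, ∀ y ∈ S, ‖g x - g y‖ = ‖x - y‖) (k : ℕ) :
    ∀ x ∈ S, ∀ y ∈ S, ‖g^[k] x - g^[k] y‖ = ‖x - y‖ := by
  induction k with
  | zero => intro x _ y _; simp
  | succ k ih =>
    intro x hx y hy
    rw [Function.iterate_succ_apply, Function.iterate_succ_apply]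
    exact (ih _ (hS x hx) _ (hS y hy)).trans (iso x hx y hy)

theorem iter_near (hS : ∀ x ∈ S, g x ∈ S) (iso : ∀ x ∈ S, ∀ y ∈ S, ‖g x - g y‖ = ‖x - y‖)
    {r : ℝ} (hr : 0 ≤ r) {x : K} (hx : x ∈ S) {k : ℕ} (h : ‖g^[k] x - x‖ ≤ r) (m : ℕ) :
    ‖g^[k * m] x - x‖ ≤ r := by
  induction m with
  | zero => simpa using hr
  | succ m ih =>
    have e : g^[k * (m + 1)] x = g^[k * m] (g^[k] x) := by
      rw [← Function.iterate_add_apply, Nat.mul_succ]
    rw [e]
    have h1 := iter_iso hS iso (k * m) _ (iter_mem hS k x hx) x hx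
    exact (norm_sub_le_max' _ (g^[k * m] x) _).trans (max_le (h1.le.trans h) ih)

end iter

theorem pow_near_one {u : K} {ε : ℝ} (hε : 0 ≤ ε) (hu : ‖u‖ = 1) (h : ‖u - 1‖ ≤ ε) (m : ℕ) :
    ‖u ^ m - 1‖ ≤ ε := by
  induction m with
  | zero => simpa using hε
  | succ m ih =>
    have e : u ^ (m + 1) - 1 = u * (u ^ m - 1) + (u - 1) := by ring
    rw [e]
    refine (IsUltrametricDist.norm_add_le_max _ _).trans (max_le ?_ h)
    rw [norm_mul, hu, one_mul]
    exact ih

/-- A unit is congruent to `1` modulo `ε` after raising it to the power `Q!`. -/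
theorem pow_factorial_near_one {ε : ℝ} (hε : 0 ≤ ε) {Q : ℕ} (hQ : FewClasses K ε Q) {u : K}
    (hu : ‖u‖ = 1) : ‖u ^ Q.factorial - 1‖ ≤ ε := by
  obtain ⟨i, j, hij, h⟩ := hQ (fun i => u ^ (i : ℕ)) (fun i => by rw [norm_pow, hu, one_pow])
  have hlt : (i : ℕ) < (j : ℕ) := hij
  set k := (j : ℕ) - (i : ℕ) with hk
  have hk1 : 0 < k := by omega
  have hk2 : k ≤ Q := by have := j.2; omega
  have h1 : ‖u ^ k - 1‖ ≤ ε := by
    have e : u ^ (i : ℕ) - u ^ (j : ℕ) = - (u ^ (i : ℕ) * (u ^ k - 1)) := by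
      have : (j : ℕ) = (i : ℕ) + k := by omega
      rw [this, pow_add]; ring
    have h' : ‖u ^ (i : ℕ) - u ^ (j : ℕ)‖ ≤ ε := h
    rw [e, norm_neg, norm_mul, norm_pow, hu, one_pow, one_mul] at h'
    exact h'
  obtain ⟨m, hm⟩ := Nat.dvd_factorial hk1 hk2
  rw [hm, pow_mul]
  exact pow_near_one hε (by rw [norm_pow, hu, one_pow]) h1 m

/-- Main local theorem: periods of periodic points of good maps are bounded by the number of
residue classes. -/
theorem Good.periodic {f : K → K} (hf : Good f) {ε : ℝ} (hε0 : 0 ≤ ε) (hε1 : ε < 1) {Q : ℕ}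
    (hQ : FewClasses K ε Q) (hp : ∀ ℓ : ℕ, ℓ.Prime → ε < ‖(ℓ : K)‖) {t : K} {n : ℕ}
    (ht : f^[n + 1] t = t) : f^[Q.factorial * Q.factorial] t = t := by
  classical
  let S : Finset K := (Finset.range (n + 1)).image (fun k => f^[k] t)
  have htS : t ∈ S := Finset.mem_image.mpr ⟨0, Finset.mem_range.mpr (Nat.succ_pos n), rfl⟩
  have hS : ∀ x ∈ S, f x ∈ S := by
    intro x hx
    obtain ⟨k, hk, rfl⟩ := Finset.mem_image.mp hx
    rw [Finset.mem_range] at hk
    by_cases h : k + 1 < n + 1
    · exact Finset.mem_image.mpr ⟨k + 1, Finset.mem_range.mpr h, Function.iterate_succ_apply' f k t⟩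
    · have : k = n := by omega
      subst this
      have e : f (f^[k] t) = t := by rw [← Function.iterate_succ_apply' f k t]; exact ht
      simp only [e]
      exact htS
  have hn : ∀ x ∈ S, f^[n + 1] x = x := by
    intro x hx
    obtain ⟨k, _, rfl⟩ := Finset.mem_image.mp hx
    rw [← Function.iterate_add_apply, Nat.add_comm, Function.iterate_add_apply, ht]
  have iso := hf.isometry hS hn
  have hne : S.Nonempty := ⟨t, htS⟩
  obtain ⟨⟨x0, w0⟩, hmem, hmax⟩ := (S ×ˢ S).exists_max_image (fun q => ‖q.1 - q.2‖)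
    (hne.product hne)
  rw [Finset.mem_product] at hmem
  obtain ⟨hx0, hw0⟩ := hmem
  have hmax' : ∀ x ∈ S, ∀ y ∈ S, ‖x - y‖ ≤ ‖x0 - w0‖ := fun x hx y hy =>
    hmax (x, y) (Finset.mem_product.mpr ⟨hx, hy⟩)
  by_cases h0 : x0 = w0
  · have h1 := hmax' (f t) (hS t htS) t htS
    rw [h0, sub_self, norm_zero] at h1
    have h2 : f t = t := sub_eq_zero.mp (norm_eq_zero.mp (le_antisymm h1 (norm_nonneg _)))
    exact Function.iterate_fixed h2 _
  set ρ := ‖x0 - w0‖ with hρ
  have hρ0 : 0 < ρ := norm_pos_iff.mpr (sub_ne_zero.mpr h0)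
  have hfar : ∀ x ∈ S, ∃ w ∈ S, ‖x - w‖ = ρ := by
    intro x hx
    have := norm_sub_le_max' x0 x w0
    rcases le_max_iff.mp this with h | h
    · refine ⟨x0, hx0, le_antisymm (hmax' x hx x0 hx0) ?_⟩
      rw [norm_sub_rev x x0]; exact h
    · exact ⟨w0, hw0, le_antisymm (hmax' x hx w0 hw0) h⟩
  have hερ : 0 ≤ ε * ρ := mul_nonneg hε0 hρ0.le
  -- returning to the class
  have hret : ∀ x ∈ S, ‖f^[Q.factorial] x - x‖ ≤ ε * ρ := by
    intro x hx
    obtain ⟨i, j, hij, h⟩ := hQ (fun i => (f^[(i : ℕ)] x - x0) / (x0 - w0)) (fun i => by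
      rw [norm_div, ← hρ, div_le_one hρ0]
      exact hmax' _ (iter_mem hS _ x hx) _ hx0)
    have hlt : (i : ℕ) < (j : ℕ) := hij
    set k := (j : ℕ) - (i : ℕ) with hk
    have hk1 : 0 < k := by omega
    have hk2 : k ≤ Q := by have := j.2; omega
    have h1 : ‖f^[k] x - x‖ ≤ ε * ρ := by
      have h' : ‖(f^[(i : ℕ)] x - x0) / (x0 - w0) - (f^[(j : ℕ)] x - x0) / (x0 - w0)‖ ≤ ε := h
      have e : (f^[(i : ℕ)] x - x0) / (x0 - w0) - (f^[(j : ℕ)] x - x0) / (x0 - w0) =
          (f^[(i : ℕ)] x - f^[(j : ℕ)] x) / (x0 - w0) := by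
        rw [← sub_div]; congr 1; ring
      rw [e, norm_div, ← hρ, div_le_iff₀ hρ0] at h'
      have e2 : f^[(j : ℕ)] x = f^[(i : ℕ)] (f^[k] x) := by
        rw [← Function.iterate_add_apply]; congr 1; omega
      rw [e2, iter_iso hS iso _ x hx _ (iter_mem hS k x hx), norm_sub_rev] at h'
      exact h'
    obtain ⟨m, hm⟩ := Nat.dvd_factorial hk1 hk2
    rw [hm]
    exact iter_near hS iso hερ hx h1 m
  set F := f^[Q.factorial] with hF
  have hFS : ∀ x ∈ S, F x ∈ S := iter_mem hS _
  have hFiso : ∀ x ∈ S, ∀ y ∈ S, ‖F x - F y‖ = ‖x - y‖ := iter_iso hS iso _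
  have hFnear : ∀ m : ℕ, ∀ x ∈ S, ‖F^[m] x - x‖ ≤ ε * ρ := by
    intro m x hx
    have := iter_near hFS hFiso hερ hx (k := 1) (by simpa using hret x hx) m
    simpa using this
  -- the first linear approximation
  have hlin : ∀ x ∈ S, ∀ y ∈ S, x ≠ y → ‖x - y‖ ≤ ε * ρ → ∀ j : ℕ,
      ‖F^[j] x - F^[j] y - ((F x - F y) / (x - y)) ^ j * (x - y)‖ ≤ ε * ‖x - y‖ := by
    intro x hx y hy hxy hclose j
    have hlam : ‖(F x - F y) / (x - y)‖ = 1 := by
      rw [norm_div, hFiso x hx y hy, div_self]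
      exact norm_ne_zero_iff.mpr (sub_ne_zero.mpr hxy)
    induction j with
    | zero => simp; positivity
    | succ j ih =>
      have hxj := iter_mem hFS j x hx
      have hyj := iter_mem hFS j y hy
      have hisoj := iter_iso hFS hFiso j x hx y hy
      have hne' : F^[j] x ≠ F^[j] y := by
        intro e
        rw [e, sub_self, norm_zero] at hisoj
        exact hxy (sub_eq_zero.mp (norm_eq_zero.mp hisoj.symm))
      obtain ⟨w, hw, hwρ⟩ := hfar x hx
      have hxw : x ≠ w := by
        intro e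
        rw [e, sub_self, norm_zero] at hwρ
        exact hρ0.ne hwρ
      have hq := (hf.iterate Q.factorial).near ε hε0 hε1 x y (F^[j] x) (F^[j] y) w hxy hne' hxw
        (by rw [hwρ]; exact hclose)
        (by rw [hwρ, norm_sub_rev]; exact hFnear j x hx)
        (by
          rw [hwρ]
          refine (norm_sub_le_max' x y _).trans (max_le hclose ?_)
          rw [norm_sub_rev]; exact hFnear j y hy)
        (by
          rw [← hF, hFiso x hx y hy, hFiso x hx w hw, mul_comm])
        (by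
          rw [← hF, hFiso _ hxj _ hyj, hFiso _ hxj w hw, mul_comm])
      rw [← hF, hlam, mul_one] at hq
      rw [Function.iterate_succ_apply', Function.iterate_succ_apply']
      set d := F^[j] x - F^[j] y with hd
      have hd0 : d ≠ 0 := sub_ne_zero.mpr hne'
      set lam := (F x - F y) / (x - y) with hlamdef
      have e1 : F (F^[j] x) - F (F^[j] y) = ((F (F^[j] x) - F (F^[j] y)) / d) * d := by
        field_simp
      set q := (F (F^[j] x) - F (F^[j] y)) / d with hqdef
      have e2 : F (F^[j] x) - F (F^[j] y) - lam ^ (j + 1) * (x - y) =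
          (-(lam - q)) * d + lam * (d - lam ^ j * (x - y)) := by
        rw [e1]; ring
      rw [e2]
      refine (IsUltrametricDist.norm_add_le_max _ _).trans (max_le ?_ ?_)
      · rw [norm_mul, norm_neg, hisoj]
        exact mul_le_mul_of_nonneg_right hq (norm_nonneg _)
      · rw [norm_mul, hlam, one_mul]
        exact ih
  -- second step
  set H := F^[Q.factorial] with hH
  have hHS : ∀ x ∈ S, H x ∈ S := iter_mem hFS _
  have hHiso : ∀ x ∈ S, ∀ y ∈ S, ‖H x - H y‖ = ‖x - y‖ := iter_iso hFS hFiso _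
  have hHlin : ∀ x ∈ S, ∀ y ∈ S, ‖x - y‖ ≤ ε * ρ → ‖H x - H y - (x - y)‖ ≤ ε * ‖x - y‖ := by
    intro x hx y hy hclose
    by_cases hxy : x = y
    · subst hxy; simp
    have hlam : ‖(F x - F y) / (x - y)‖ = 1 := by
      rw [norm_div, hFiso x hx y hy, div_self]
      exact norm_ne_zero_iff.mpr (sub_ne_zero.mpr hxy)
    have h1 := hlin x hx y hy hxy hclose Q.factorial
    have h2 := pow_factorial_near_one hε0 hQ hlam
    set lam := (F x - F y) / (x - y) with hlamdef
    have e : H x - H y - (x - y) =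
        (H x - H y - lam ^ Q.factorial * (x - y)) + (lam ^ Q.factorial - 1) * (x - y) := by ring
    rw [e]
    refine (IsUltrametricDist.norm_add_le_max _ _).trans (max_le h1 ?_)
    rw [norm_mul]
    exact mul_le_mul_of_nonneg_right h2 (norm_nonneg _)
  have hHlin' : ∀ j : ℕ, ∀ x ∈ S, ∀ y ∈ S, ‖x - y‖ ≤ ε * ρ →
      ‖H^[j] x - H^[j] y - (x - y)‖ ≤ ε * ‖x - y‖ := by
    intro j x hx y hy hclose
    induction j with
    | zero => simp; positivity
    | succ j ih =>
      have hxj := iter_mem hHS j x hx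
      have hyj := iter_mem hHS j y hy
      have hisoj := iter_iso hHS hHiso j x hx y hy
      rw [Function.iterate_succ_apply', Function.iterate_succ_apply']
      have e : H (H^[j] x) - H (H^[j] y) - (x - y) =
          (H (H^[j] x) - H (H^[j] y) - (H^[j] x - H^[j] y)) + (H^[j] x - H^[j] y - (x - y)) := by
        ring
      rw [e]
      refine (IsUltrametricDist.norm_add_le_max _ _).trans (max_le ?_ ih)
      rw [← hisoj]
      exact hHlin _ hxj _ hyj (by rw [hisoj]; exact hclose)
  have hHnear : ∀ m : ℕ, ∀ x ∈ S, ‖H^[m] x - x‖ ≤ ε * ρ := by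
    intro m x hx
    have := hFnear (Q.factorial * m) x hx
    rw [Function.iterate_mul] at this
    exact this
  -- conclusion
  have goal : H t = t := by
    by_contra hHt
    have hper : Function.IsPeriodicPt H (n + 1) t := by
      have e : H^[n + 1] t = f^[(n + 1) * (Q.factorial * Q.factorial)] t := by
        rw [hH, hF, ← Function.iterate_mul, ← Function.iterate_mul]
        congr 1
        ring
      rw [Function.IsPeriodicPt, Function.IsFixedPt, e, Function.iterate_mul]
      exact Function.iterate_fixed ht _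
    set P := Function.minimalPeriod H t with hP
    have hPpos : 0 < P := hper.minimalPeriod_pos (Nat.succ_pos n)
    have hP1 : P ≠ 1 := by
      intro h
      have := Function.isPeriodicPt_minimalPeriod H t
      rw [← hP, h] at this
      exact hHt (by simpa [Function.IsPeriodicPt, Function.IsFixedPt] using this)
    set ℓ := P.minFac with hℓ
    have hℓp : ℓ.Prime := Nat.minFac_prime hP1
    obtain ⟨r, hr⟩ := Nat.minFac_dvd P
    rw [← hℓ] at hr
    have hrpos : 0 < r := Nat.pos_of_ne_zero (by rintro rfl; simp at hr; omega)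
    have hrlt : r < P := by
      rw [hr]
      have := hℓp.two_le
      nlinarith
    have hGt : H^[r] t ≠ t := by
      intro h
      have : Function.IsPeriodicPt H r t := h
      have hd := this.minimalPeriod_dvd
      rw [← hP] at hd
      exact absurd (Nat.le_of_dvd hrpos hd) (not_le.mpr hrlt)
    set G := H^[r] with hG
    have hGt' : G t - t ≠ 0 := sub_ne_zero.mpr hGt
    have hclose : ‖G t - t‖ ≤ ε * ρ := hHnear r t htS
    have hGtS : G t ∈ S := iter_mem hHS r t htS
    have hGi : ∀ i : ℕ, ‖(G^[i + 1] t - G^[i] t) - (G t - t)‖ ≤ ε * ‖G t - t‖ := by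
      intro i
      have := hHlin' (r * i) (G t) hGtS t htS hclose
      rw [Function.iterate_mul] at this
      rw [Function.iterate_succ_apply]
      exact this
    have hGl : G^[ℓ] t = t := by
      rw [hG, ← Function.iterate_mul, Nat.mul_comm, ← hr]
      exact Function.isPeriodicPt_minimalPeriod H t
    have hsum : ∑ i ∈ Finset.range ℓ, (G^[i + 1] t - G^[i] t) = 0 := by
      rw [Finset.sum_range_sub (fun i => G^[i] t)]
      simp [hGl]
    have e : (ℓ : K) * (G t - t) =
        ∑ i ∈ Finset.range ℓ, -((G^[i + 1] t - G^[i] t) - (G t - t)) := by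
      rw [Finset.sum_neg_distrib, Finset.sum_sub_distrib, hsum, Finset.sum_const,
        Finset.card_range, nsmul_eq_mul]
      ring
    have h1 : ‖(ℓ : K) * (G t - t)‖ ≤ ε * ‖G t - t‖ := by
      rw [e]
      apply IsUltrametricDist.norm_sum_le_of_forall_le_of_nonneg
      · positivity
      · intro i _
        rw [norm_neg]
        exact hGi i
    rw [norm_mul] at h1
    have h2 : ‖(ℓ : K)‖ ≤ ε := le_of_mul_le_mul_right h1 (norm_pos_iff.mpr hGt')
    exact absurd h2 (not_le.mpr (hp ℓ hℓp))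
  rw [Function.iterate_mul]
  exact goal

/-- For a good map every preperiodic point is periodic, with a period dividing `Q! * Q!`. -/
theorem Good.preperiodic {f : K → K} (hf : Good f) {ε : ℝ} (hε0 : 0 ≤ ε) (hε1 : ε < 1) {Q : ℕ}
    (hQ : FewClasses K ε Q) (hp : ∀ ℓ : ℕ, ℓ.Prime → ε < ‖(ℓ : K)‖) {t : K} {m n : ℕ}
    (hmn : m < n) (ht : f^[n] t = f^[m] t) : f^[Q.factorial * Q.factorial] t = t := by
  obtain ⟨k, rfl⟩ := Nat.exists_eq_add_of_lt hmn
  refine hf.periodic hε0 hε1 hQ hp (n := k) ?_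
  have e : f^[m + k + 1] t = f^[m] (f^[k + 1] t) := by
    rw [← Function.iterate_add_apply]; congr 1
  rw [e] at ht
  exact (hf.inj.iterate m) ht

end Pool.Agent.UBC
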