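import Pool.Agent.UBC.Periodic

set_option autoImplicit false
set_option linter.unusedSectionVars false

/-!
# Counting residue classes in a number field of bounded degree with a `p`-adic norm
-/

namespace Pool.Agent.UBC

section general
variable {K : Type*} [NormedField K] [IsUltrametricDist K]

theorem norm_int_le_one (a : ℤ) : ‖(a : K)‖ ≤ 1 := IsUltrametricDist.norm_intCast_le_one K a

theorem norm_nat_le_one (a : ℕ) : ‖(a : K)‖ ≤ 1 := IsUltrametricDist.norm_natCast_le_one K a

theorem norm_int_le_of_dvd {p : ℕ} {a : ℤ} (h : (p : ℤ) ∣ a) : ‖(a : K)‖ ≤ ‖(p : K)‖ := by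
  obtain ⟨b, rfl⟩ := h
  push_cast
  rw [norm_mul]
  have := norm_int_le_one (K := K) b
  nlinarith [norm_nonneg (p : K)]

theorem norm_int_eq_one {p : ℕ} (hp : p.Prime) (hlt : ‖(p : K)‖ < 1) {a : ℤ} (h : ¬ (p : ℤ) ∣ a) :
    ‖(a : K)‖ = 1 := by
  apply le_antisymm (norm_int_le_one a)
  have hcop : IsCoprime (p : ℤ) a := by
    rw [Int.isCoprime_iff_gcd_eq_one]
    have := (Nat.Prime.coprime_iff_not_dvd hp (n := a.natAbs)).mpr (fun hd => h (by
      rwa [← Int.natCast_dvd] at hd))
    simpa [Int.gcd] using this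
  obtain ⟨u, v, huv⟩ := hcop
  by_contra hlt'
  push Not at hlt'
  have e : (u : K) * (p : K) + (v : K) * (a : K) = 1 := by
    have := congrArg (fun z : ℤ => (z : K)) huv
    push_cast at this
    exact this
  have h1 : ‖(u : K) * (p : K) + (v : K) * (a : K)‖ < 1 := by
    refine lt_of_le_of_lt (IsUltrametricDist.norm_add_le_max _ _) (max_lt ?_ ?_)
    · rw [norm_mul]
      have := norm_int_le_one (K := K) u
      nlinarith [norm_nonneg (p : K), norm_nonneg (u : K)]
    · rw [norm_mul]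
      have := norm_int_le_one (K := K) v
      nlinarith [norm_nonneg (a : K), norm_nonneg (v : K)]
  rw [e, norm_one] at h1
  exact lt_irrefl _ h1

/-- The family `y` is independent modulo `p`. -/
def IndepMod (p : ℕ) {r : ℕ} (y : Fin r → K) : Prop :=
  (∀ i, ‖y i‖ ≤ 1) ∧ ∀ a : Fin r → ℤ, ‖∑ i, (a i : K) * y i‖ ≤ ‖(p : K)‖ → ∀ i, (p : ℤ) ∣ a i

theorem IndepMod.linearIndependent [CharZero K] [Algebra ℚ K] {p : ℕ} (hp : p.Prime) {r : ℕ}
    {y : Fin r → K} (hy : IndepMod p y) : LinearIndependent ℤ y := by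
  rw [Fintype.linearIndependent_iff]
  intro g hg
  by_contra hne
  push Not at hne
  -- minimal counterexample: divide by the largest power of p
  have key : ∀ N : ℕ, ∀ g : Fin r → ℤ, ∑ i, g i • y i = 0 → (∃ i, g i ≠ 0) →
      (∑ i, (g i).natAbs) ≤ N → False := by
    intro N
    induction N with
    | zero =>
      intro g _ hne hN
      obtain ⟨i, hi⟩ := hne
      have : (g i).natAbs ≤ ∑ i, (g i).natAbs :=
        Finset.single_le_sum (f := fun i => (g i).natAbs) (fun _ _ => Nat.zero_le _)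
          (Finset.mem_univ i)
      have : (g i).natAbs = 0 := by omega
      exact hi (Int.natAbs_eq_zero.mp this)
    | succ N ih =>
      intro g hg hne hN
      have hdiv : ∀ i, (p : ℤ) ∣ g i := by
        apply hy.2
        have : ∑ i, (g i : K) * y i = 0 := by
          rw [← hg]
          exact Finset.sum_congr rfl (fun i _ => by rw [zsmul_eq_mul])
        rw [this, norm_zero]
        exact norm_nonneg _
      choose g' hg' using hdiv
      have hp0 : (p : K) ≠ 0 := Nat.cast_ne_zero.mpr hp.ne_zero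
      refine ih g' ?_ ?_ ?_
      · have : (p : K) * ∑ i, g' i • y i = 0 := by
          rw [← hg, Finset.mul_sum]
          refine Finset.sum_congr rfl (fun i _ => ?_)
          rw [hg' i, zsmul_eq_mul, zsmul_eq_mul]
          push_cast
          ring
        rcases mul_eq_zero.mp this with h | h
        · exact absurd h hp0
        · exact h
      · obtain ⟨i, hi⟩ := hne
        refine ⟨i, ?_⟩
        intro h
        rw [hg' i, h, mul_zero] at hi
        exact hi rfl
      · have hlt : ∑ i, (g' i).natAbs < ∑ i, (g i).natAbs := by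
          apply Finset.sum_lt_sum
          · intro i _
            rw [hg' i, Int.natAbs_mul]
            exact Nat.le_mul_of_pos_left _ (by simpa using hp.pos)
          · obtain ⟨i, hi⟩ := hne
            refine ⟨i, Finset.mem_univ i, ?_⟩
            have hgi : g' i ≠ 0 := by
              intro h
              rw [hg' i, h, mul_zero] at hi
              exact hi rfl
            have h1 : 0 < (g' i).natAbs := Int.natAbs_pos.mpr hgi
            rw [hg' i, Int.natAbs_mul, Int.natAbs_natCast]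
            have := hp.two_le
            nlinarith
        omega
  exact key _ g hg hne le_rfl

theorem IndepMod.le_finrank [CharZero K] [Algebra ℚ K] [FiniteDimensional ℚ K] {p : ℕ}
    (hp : p.Prime) {r : ℕ} {y : Fin r → K} (hy : IndepMod p y) : r ≤ Module.finrank ℚ K := by
  have h1 := hy.linearIndependent hp
  have h2 : LinearIndependent ℚ y := by
    rw [LinearIndependent.iff_fractionRing ℤ ℚ] at h1
    exact h1
  simpa using h2.fintype_card_le_finrank

/-- A maximal family independent modulo `p` generates the unit ball modulo `p`. -/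
theorem exists_gen [CharZero K] [Algebra ℚ K] [FiniteDimensional ℚ K] {p : ℕ} (hp : p.Prime)
    (hlt : ‖(p : K)‖ < 1) : ∃ r ≤ Module.finrank ℚ K, ∃ y : Fin r → K, (∀ i, ‖y i‖ ≤ 1) ∧
      ∀ x : K, ‖x‖ ≤ 1 → ∃ a : Fin r → Fin p, ‖x - ∑ i, ((a i : ℕ) : K) * y i‖ ≤ ‖(p : K)‖ := by
  classical
  let P : ℕ → Prop := fun r => ∃ y : Fin r → K, IndepMod p y
  have hP0 : P 0 := ⟨Fin.elim0, fun i => i.elim0, fun _ _ i => i.elim0⟩
  have hPle : ∀ r, P r → r ≤ Module.finrank ℚ K := fun r ⟨y, hy⟩ => hy.le_finrank hp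
  obtain ⟨r, hr, hmax⟩ : ∃ r, P r ∧ ¬ P (r + 1) := by
    by_contra hcon
    push Not at hcon
    have : ∀ r, P r := fun r => by
      induction r with
      | zero => exact hP0
      | succ r ih => exact hcon r ih
    have := hPle _ (this (Module.finrank ℚ K + 1))
    omega
  refine ⟨r, hPle r hr, ?_⟩
  obtain ⟨y, hy⟩ := hr
  refine ⟨y, hy.1, ?_⟩
  intro x hx
  have hnot : ¬ IndepMod p (Fin.cons x y : Fin (r + 1) → K) := fun h => hmax ⟨_, h⟩
  have hbd : ∀ i, ‖(Fin.cons x y : Fin (r + 1) → K) i‖ ≤ 1 := by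
    intro i
    refine Fin.cases ?_ (fun j => ?_) i
    · simpa using hx
    · simpa using hy.1 j
  unfold IndepMod at hnot
  push Not at hnot
  obtain ⟨a, ha, i0, hi0⟩ := hnot hbd
  rw [Fin.sum_univ_succ] at ha
  simp only [Fin.cons_zero, Fin.cons_succ] at ha
  set b := a 0 with hb
  have hbp : ¬ (p : ℤ) ∣ b := by
    intro hdvd
    have h1 : ‖∑ i, (a (Fin.succ i) : K) * y i‖ ≤ ‖(p : K)‖ := by
      have e : ∑ i, (a (Fin.succ i) : K) * y i =
          ((b : K) * x + ∑ i, (a (Fin.succ i) : K) * y i) + (-((b : K) * x)) := by ring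
      rw [e]
      refine (IsUltrametricDist.norm_add_le_max _ _).trans (max_le ha ?_)
      rw [norm_neg, norm_mul]
      have := norm_int_le_of_dvd (K := K) hdvd
      nlinarith [norm_nonneg x, norm_nonneg (b : K)]
    have h2 := hy.2 (fun i => a (Fin.succ i)) h1
    apply hi0
    refine Fin.cases ?_ (fun j => ?_) i0
    · exact hdvd
    · exact h2 j
  have hcop : IsCoprime (p : ℤ) b := by
    rw [Int.isCoprime_iff_gcd_eq_one]
    have := (Nat.Prime.coprime_iff_not_dvd hp (n := b.natAbs)).mpr (fun hd => hbp (by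
      rwa [← Int.natCast_dvd] at hd))
    simpa [Int.gcd] using this
  obtain ⟨u, v, huv⟩ := hcop
  have hp0 : (0 : ℤ) < p := by exact_mod_cast hp.pos
  let a' : Fin r → Fin p := fun i =>
    ⟨((-(v * a (Fin.succ i))) % (p : ℤ)).toNat, by
      have h1 := Int.emod_nonneg (-(v * a (Fin.succ i))) hp0.ne'
      have h2 := Int.emod_lt_of_pos (-(v * a (Fin.succ i))) hp0
      omega⟩
  refine ⟨a', ?_⟩
  have hcong : ∀ i, ‖(((a' i : ℕ) : K)) + ((v : K) * (a (Fin.succ i) : K))‖ ≤ ‖(p : K)‖ := by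
    intro i
    have h1 := Int.emod_nonneg (-(v * a (Fin.succ i))) hp0.ne'
    have e : ((((a' i : ℕ) : ℤ) + v * a (Fin.succ i) : ℤ) : K) =
        (((a' i : ℕ) : K)) + ((v : K) * (a (Fin.succ i) : K)) := by push_cast; ring
    rw [← e]
    apply norm_int_le_of_dvd
    have e2 : ((a' i : ℕ) : ℤ) = (-(v * a (Fin.succ i))) % (p : ℤ) := Int.toNat_of_nonneg h1
    rw [e2]
    have := Int.emod_add_mul_ediv (-(v * a (Fin.succ i))) (p : ℤ)
    refine ⟨-((-(v * a (Fin.succ i))) / (p : ℤ)), ?_⟩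
    linarith
  have e : x - ∑ i, ((a' i : ℕ) : K) * y i =
      ((v : K) * ((b : K) * x + ∑ i, (a (Fin.succ i) : K) * y i) + (u : K) * ((p : K) * x)) +
      (- ∑ i, ((((a' i : ℕ) : K)) + ((v : K) * (a (Fin.succ i) : K))) * y i) := by
    have h1 : (u : K) * (p : K) + (v : K) * (b : K) = 1 := by
      have := congrArg (fun z : ℤ => (z : K)) huv
      push_cast at this
      exact this
    have h2 : ∑ i, ((((a' i : ℕ) : K)) + ((v : K) * (a (Fin.succ i) : K))) * y i =
        ∑ i, ((a' i : ℕ) : K) * y i + (v : K) * ∑ i, (a (Fin.succ i) : K) * y i := by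
      rw [Finset.mul_sum, ← Finset.sum_add_distrib]
      exact Finset.sum_congr rfl (fun i _ => by ring)
    rw [h2]
    have h3 : x = ((u : K) * (p : K) + (v : K) * (b : K)) * x := by rw [h1, one_mul]
    calc x - ∑ i, ((a' i : ℕ) : K) * y i
        = ((u : K) * (p : K) + (v : K) * (b : K)) * x - ∑ i, ((a' i : ℕ) : K) * y i := by
          rw [← h3]
      _ = _ := by ring
  rw [e]
  refine (IsUltrametricDist.norm_add_le_max _ _).trans (max_le ?_ ?_)
  · refine (IsUltrametricDist.norm_add_le_max _ _).trans (max_le ?_ ?_)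
    · rw [norm_mul]
      have := norm_int_le_one (K := K) v
      nlinarith [norm_nonneg ((b : K) * x + ∑ i, (a (Fin.succ i) : K) * y i), norm_nonneg (v : K)]
    · rw [norm_mul, norm_mul]
      have h1 := norm_int_le_one (K := K) u
      have h2 : ‖(p : K)‖ * ‖x‖ ≤ ‖(p : K)‖ := by nlinarith [norm_nonneg (p : K)]
      calc ‖(u : K)‖ * (‖(p : K)‖ * ‖x‖) ≤ 1 * ‖(p : K)‖ :=
            mul_le_mul h1 h2 (by positivity) (by norm_num)
        _ = _ := one_mul _
  · rw [norm_neg]
    apply IsUltrametricDist.norm_sum_le_of_forall_le_of_nonneg (norm_nonneg _)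
    intro i _
    rw [norm_mul]
    calc _ ≤ ‖(p : K)‖ * 1 := mul_le_mul (hcong i) (hy.1 i) (norm_nonneg _) (norm_nonneg _)
      _ = _ := mul_one _

/-- The number of classes modulo `p ^ 2` is at most `p ^ (2 * [K : ℚ])`. -/
theorem fewClasses [CharZero K] [Algebra ℚ K] [FiniteDimensional ℚ K] {p : ℕ} (hp : p.Prime)
    (hlt : ‖(p : K)‖ < 1) {D : ℕ} (hD : Module.finrank ℚ K ≤ D) :
    FewClasses K (‖(p : K)‖ ^ 2) (p ^ (2 * D)) := by
  classical
  obtain ⟨r, hr, y, hy, hgen⟩ := exists_gen (K := K) hp hlt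
  have hp0 : (p : K) ≠ 0 := Nat.cast_ne_zero.mpr hp.ne_zero
  have hpn : 0 < ‖(p : K)‖ := norm_pos_iff.mpr hp0
  have hgen2 : ∀ x : K, ‖x‖ ≤ 1 → ∃ a : (Fin r → Fin p) × (Fin r → Fin p),
      ‖x - ∑ i, (((a.1 i : ℕ) : K) + (p : K) * ((a.2 i : ℕ) : K)) * y i‖ ≤ ‖(p : K)‖ ^ 2 := by
    intro x hx
    obtain ⟨a, ha⟩ := hgen x hx
    set x' := (x - ∑ i, ((a i : ℕ) : K) * y i) / (p : K) with hx'
    have hx'1 : ‖x'‖ ≤ 1 := by
      rw [hx', norm_div, div_le_one hpn]
      exact ha
    obtain ⟨a', ha'⟩ := hgen x' hx'1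
    refine ⟨(a, a'), ?_⟩
    have e : x - ∑ i, (((a i : ℕ) : K) + (p : K) * ((a' i : ℕ) : K)) * y i =
        (p : K) * (x' - ∑ i, ((a' i : ℕ) : K) * y i) := by
      have h1 : ∑ i, (((a i : ℕ) : K) + (p : K) * ((a' i : ℕ) : K)) * y i =
          ∑ i, ((a i : ℕ) : K) * y i + (p : K) * ∑ i, ((a' i : ℕ) : K) * y i := by
        rw [Finset.mul_sum, ← Finset.sum_add_distrib]
        exact Finset.sum_congr rfl (fun i _ => by ring)
      rw [h1, hx', mul_sub, mul_div_cancel₀ _ hp0]
      ring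
    simp only
    rw [e, norm_mul, pow_two]
    exact mul_le_mul_of_nonneg_left ha' (norm_nonneg _)
  intro c hc
  choose A hA using fun i => hgen2 (c i) (hc i)
  have hcard : Fintype.card ((Fin r → Fin p) × (Fin r → Fin p)) <
      Fintype.card (Fin (p ^ (2 * D) + 1)) := by
    rw [Fintype.card_prod, Fintype.card_fun, Fintype.card_fin, Fintype.card_fin, Fintype.card_fin,
      ← pow_add]
    have : p ^ (r + r) ≤ p ^ (2 * D) := Nat.pow_le_pow_right hp.pos (by omega)
    omega
  obtain ⟨i, j, hij, h⟩ := Fintype.exists_ne_map_eq_of_card_lt A hcard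
  have hclose : ∀ i j, A i = A j → ‖c i - c j‖ ≤ ‖(p : K)‖ ^ 2 := by
    intro i j h
    have h1 := hA i
    have h2 := hA j
    rw [← h] at h2
    rw [norm_sub_rev] at h2
    exact (norm_sub_le_max' _ _ _).trans (max_le h1 h2)
  rcases lt_or_gt_of_ne hij with hlt' | hlt'
  · exact ⟨i, j, hlt', hclose i j h⟩
  · exact ⟨j, i, hlt', hclose j i h.symm⟩

/-- All primes are larger than `‖p‖ ^ 2`. -/
theorem prime_gt [CharZero K] {p : ℕ} (hp : p.Prime) (hlt : ‖(p : K)‖ < 1) {ℓ : ℕ}
    (hℓ : ℓ.Prime) : ‖(p : K)‖ ^ 2 < ‖(ℓ : K)‖ := by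
  have hpn : 0 < ‖(p : K)‖ := norm_pos_iff.mpr (Nat.cast_ne_zero.mpr hp.ne_zero)
  by_cases h : ℓ = p
  · subst h; nlinarith
  · have h1 : ‖((ℓ : ℤ) : K)‖ = 1 := by
      apply norm_int_eq_one hp hlt
      intro hd
      have : p ∣ ℓ := by exact_mod_cast hd
      exact h ((Nat.prime_dvd_prime_iff_eq hp hℓ).mp this).symm
    have h2 : ‖(ℓ : K)‖ = 1 := by simpa using h1
    rw [h2]; nlinarith

end general

end Pool.Agent.UBC
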