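import Pool.Agent.UBC.GapBi
import Pool.Agent.UBC.Mobius

/-!
# Gap property for points where five linear forms are squares
-/

set_option autoImplicit false

namespace UBC

open Height NumberField

variable {L : Type*} [Field L] [NumberField L]

/-- U10a. (`s ^ 2 = c 0 * (x - e 0)`, `r j = c 0 * (e j - e 0)`,
`κ = c 1 * c 2 * c 3 / c 0 ^ 3`.) -/
theorem gap_squares_inf (e c : Fin 4 → L) (he : Function.Injective e) (hc : ∀ j, c j ≠ 0) :
    Gap (fun x : L => logHeight₁ x) {x : L | ∀ j, IsSquare (c j * (x - e j))} := by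
  classical
  have hne : ∀ i j : Fin 4, i ≠ j → e i - e j ≠ 0 := fun i j hij h0 =>
    hij (he (sub_eq_zero.1 h0))
  set κ : L := c 1 * c 2 * c 3 / c 0 ^ 3 with hκ
  set r : Fin 3 → L := fun j => c 0 * (e j.succ - e 0) with hr
  have hκ0 : κ ≠ 0 :=
    div_ne_zero (mul_ne_zero (mul_ne_zero (hc 1) (hc 2)) (hc 3)) (pow_ne_zero 3 (hc 0))
  have hrinj : Function.Injective r := by
    intro i j hij
    have h1 : e i.succ - e 0 = e j.succ - e 0 := mul_left_cancel₀ (hc 0) hij
    have h2 : e i.succ = e j.succ := by linear_combination h1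
    exact Fin.succ_injective _ (he h2)
  have hr0 : ∀ j, r j ≠ 0 := fun j =>
    mul_ne_zero (hc 0) (hne _ _ (Fin.succ_ne_zero j))
  have hG := gap_bielliptic κ hκ0 r hrinj hr0
  obtain ⟨C, hC⟩ := height_mobius (c 0) (-(c 0 * e 0)) 0 1 (by simpa using hc 0)
  have hC' : ∀ x : L, |logHeight₁ (c 0 * (x - e 0)) - logHeight₁ x| ≤ C := by
    intro x
    have h1 := hC x (by simp)
    have h2 : (c 0 * x + -(c 0 * e 0)) / (0 * x + 1) = c 0 * (x - e 0) := by ring
    rwa [h2] at h1
  let φ : L → L := fun x => if h : IsSquare (c 0 * (x - e 0)) then h.choose else 0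
  have hφ : ∀ x : L, IsSquare (c 0 * (x - e 0)) → φ x ^ 2 = c 0 * (x - e 0) := by
    intro x hx
    have h1 : φ x = hx.choose := dif_pos hx
    rw [h1, sq]
    exact hx.choose_spec.symm
  have hht : ∀ x : L, IsSquare (c 0 * (x - e 0)) →
      2 * logHeight₁ (φ x) = logHeight₁ (c 0 * (x - e 0)) := by
    intro x hx
    rw [← hφ x hx, logHeight₁_pow]
    push_cast
    ring
  refine Gap.transfer hG φ 1 (1 / 2) (1 / 2) (C / 2) (by norm_num) ?_ ?_ ?_ ?_
  · intro x hx
    have hx' : ∀ j, IsSquare (c j * (x - e j)) := hx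
    have h0 := hφ x (hx' 0)
    obtain ⟨z1, h1⟩ := hx' 1
    obtain ⟨z2, h2⟩ := hx' 2
    obtain ⟨z3, h3⟩ := hx' 3
    refine ⟨z1 * z2 * z3, ?_⟩
    have e1 : φ x ^ 2 - r 0 = c 0 * (x - e 1) := by
      rw [h0]
      simp only [hr]
      change _ - c 0 * (e 1 - e 0) = _
      ring
    have e2 : φ x ^ 2 - r 1 = c 0 * (x - e 2) := by
      rw [h0]
      simp only [hr]
      change _ - c 0 * (e 2 - e 0) = _
      ring
    have e3 : φ x ^ 2 - r 2 = c 0 * (x - e 3) := by
      rw [h0]
      simp only [hr]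
      change _ - c 0 * (e 3 - e 0) = _
      ring
    rw [e1, e2, e3, hκ]
    have hc0 := hc 0
    field_simp
    linear_combination (c 2 * (x - e 2) * (c 3 * (x - e 3))) * h1 +
      (z1 * z1 * (c 3 * (x - e 3))) * h2 + (z1 * z1 * (z2 * z2)) * h3
  · intro x hx
    have h1 := hht x (hx 0)
    have h2 := abs_le.1 (hC' x)
    change 1 / 2 * logHeight₁ x - C / 2 ≤ logHeight₁ (φ x)
    linarith [h2.1]
  · intro x hx
    have h1 := hht x (hx 0)
    have h2 := abs_le.1 (hC' x)
    change logHeight₁ (φ x) ≤ 1 / 2 * logHeight₁ x + C / 2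
    linarith [h2.2]
  · intro A u hA
    rw [Finset.card_le_one]
    intro s hs t ht
    have h1 := hφ s ((hA s hs).1 0)
    have h2 := hφ t ((hA t ht).1 0)
    rw [(hA s hs).2] at h1
    rw [(hA t ht).2] at h2
    have h3 : c 0 * (s - e 0) = c 0 * (t - e 0) := by rw [← h1, ← h2]
    have h4 := mul_left_cancel₀ (hc 0) h3
    linear_combination h4

/-- U10b. (apply U10a to `X = (t - e 1) / (t - e 0)`;
`(t - e j) / (t - e 0) = ((e j - e 0) * X - (e j - e 1)) / (e 1 - e 0)`.) -/
theorem gap_squares (e : Fin 5 → L) (he : Function.Injective e) :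
    Gap (fun t : L => logHeight₁ t)
      {t : L | ∀ j, t ≠ e j ∧ IsSquare ((t - e j) / (t - e 0))} := by
  have hne : ∀ i j : Fin 5, i ≠ j → e i - e j ≠ 0 := fun i j hij h0 =>
    hij (he (sub_eq_zero.1 h0))
  have h10 : e 1 - e 0 ≠ 0 := hne _ _ (by decide)
  set c : Fin 4 → L := fun j => (e j.succ - e 0) / (e 1 - e 0) with hc
  set f : Fin 4 → L := fun j => (e j.succ - e 1) / (e j.succ - e 0) with hf
  have hs0 : ∀ j : Fin 4, e j.succ - e 0 ≠ 0 := fun j => hne _ _ (Fin.succ_ne_zero j)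
  have hc0 : ∀ j, c j ≠ 0 := fun j => div_ne_zero (hs0 j) h10
  have hfinj : Function.Injective f := by
    intro i j hij
    have h1 : (e i.succ - e 1) / (e i.succ - e 0) = (e j.succ - e 1) / (e j.succ - e 0) := hij
    rw [div_eq_div_iff (hs0 i) (hs0 j)] at h1
    have h2 : (e 1 - e 0) * (e i.succ - e j.succ) = 0 := by linear_combination h1
    have h3 := (mul_eq_zero.1 h2).resolve_left h10
    exact Fin.succ_injective _ (he (sub_eq_zero.1 h3))
  have hG := gap_squares_inf f c hfinj hc0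
  obtain ⟨C, hC⟩ := height_mobius (L := L) 1 (-(e 1)) 1 (-(e 0)) (by
    intro h0
    exact h10 (by linear_combination h0))
  have hC' : ∀ t : L, t ≠ e 0 → |logHeight₁ ((t - e 1) / (t - e 0)) - logHeight₁ t| ≤ C := by
    intro t ht
    have h1 := hC t (by
      intro h0
      exact ht (by linear_combination h0))
    have h2 : (1 * t + -(e 1)) / (1 * t + -(e 0)) = (t - e 1) / (t - e 0) := by
      rw [one_mul, ← sub_eq_add_neg, ← sub_eq_add_neg]
    rwa [h2] at h1
  refine Gap.transfer hG (fun t => (t - e 1) / (t - e 0)) 1 1 1 C one_pos ?_ ?_ ?_ ?_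
  · intro t ht j
    have ht' : ∀ j, t ≠ e j ∧ IsSquare ((t - e j) / (t - e 0)) := ht
    have h0 : t - e 0 ≠ 0 := sub_ne_zero.2 (ht' 0).1
    have h1 := (ht' j.succ).2
    have hsj := hs0 j
    have h2 : c j * ((t - e 1) / (t - e 0) - f j) = (t - e j.succ) / (t - e 0) := by
      simp only [hc, hf]
      field_simp
      ring
    rw [h2]
    exact h1
  · intro t ht
    have h2 := abs_le.1 (hC' t (ht 0).1)
    change 1 * logHeight₁ t - C ≤ logHeight₁ ((t - e 1) / (t - e 0))
    linarith [h2.1]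
  · intro t ht
    have h2 := abs_le.1 (hC' t (ht 0).1)
    change logHeight₁ ((t - e 1) / (t - e 0)) ≤ 1 * logHeight₁ t + C
    linarith [h2.2]
  · intro A u hA
    rw [Finset.card_le_one]
    intro s hs t ht
    have hs1 := (hA s hs).1
    have ht1 := (hA t ht).1
    have h0 : s - e 0 ≠ 0 := sub_ne_zero.2 (hs1 0).1
    have h0' : t - e 0 ≠ 0 := sub_ne_zero.2 (ht1 0).1
    have h3 : (s - e 1) / (s - e 0) = (t - e 1) / (t - e 0) :=
      (hA s hs).2.trans (hA t ht).2.symm
    rw [div_eq_div_iff h0 h0'] at h3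
    have h2 : (e 1 - e 0) * (s - t) = 0 := by linear_combination h3
    exact sub_eq_zero.1 ((mul_eq_zero.1 h2).resolve_left h10)

end UBC
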