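import Pool.Agent.UBC.FinalDom

/-!
# Triangular maps in several variables

The variable of index `0` is a parameter, which is fixed by the maps.
-/

set_option autoImplicit false

universe u

namespace UBC

open Height NumberField IsDedekindDomain Polynomial
open LocDomAux (Dom)

/-- the weight of a monomial -/
def wt {n : ℕ} (w : Fin n → ℕ) (s : Fin n →₀ ℕ) : ℕ := ∑ j, w j * s j

/-- `P k` is a polynomial in `x_j`, `j ≤ k`, and `x_(k+1) ^ r`, whose monomials of maximal weight
are `x_(k+1) ^ (r m)` and `D k`, which is a monomial in the `x_j`, `j ≤ k`. -/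
def TriShape {K : Type*} [Field K] {N : ℕ} (r m : ℕ) (w : Fin (N + 1) → ℕ)
    (D : Fin N → Fin (N + 1) →₀ ℕ) (P : Fin N → MvPolynomial (Fin (N + 1)) K) : Prop :=
  ∀ k : Fin N, (∀ j, k.succ ≤ j → D k j = 0) ∧ wt w (D k) = r * m * w k.succ ∧
    (P k).coeff (D k) ≠ 0 ∧ (P k).coeff (Finsupp.single k.succ (r * m)) ≠ 0 ∧
    ∀ s ∈ (P k).support, (∀ j, k.succ < j → s j = 0) ∧ r ∣ s k.succ ∧
      (s = Finsupp.single k.succ (r * m) ∨ s = D k ∨ wt w s < r * m * w k.succ)

namespace TriAux

variable {K : Type*} [Field K] {n : ℕ}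

/-- product of the powers of the coordinates below `k` -/
def low (k : Fin n) (x : Fin n → K) (s : Fin n →₀ ℕ) : K :=
  ∏ j ∈ Finset.univ.filter (· < k), x j ^ s j

/-- `P` as a polynomial in the `r`-th power of the coordinate `k` -/
noncomputable def uni (r : ℕ) (P : MvPolynomial (Fin n) K) (k : Fin n) (x : Fin n → K) : K[X] :=
  ∑ s ∈ P.support, C (P.coeff s * low k x s) * X ^ (s k / r)

lemma prod_split (k : Fin n) (x : Fin n → K) (s : Fin n →₀ ℕ) (hs : ∀ j, k < j → s j = 0) :
    ∏ j, x j ^ s j = low k x s * x k ^ s k := by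
  unfold low
  rw [← Finset.prod_filter_mul_prod_filter_not Finset.univ (· < k)]
  congr 1
  rw [Finset.prod_eq_single k]
  · intro j hj hjk
    rw [Finset.mem_filter] at hj
    have h1 : k < j := lt_of_le_of_ne (not_lt.1 hj.2) (Ne.symm hjk)
    rw [hs j h1, pow_zero]
  · intro h
    exfalso
    apply h
    rw [Finset.mem_filter]
    exact ⟨Finset.mem_univ _, lt_irrefl k⟩

lemma low_congr {k : Fin n} {x x' : Fin n → K} (h : ∀ j, j < k → x j = x' j) (s : Fin n →₀ ℕ) :
    low k x s = low k x' s := by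
  unfold low
  refine Finset.prod_congr rfl fun j hj => ?_
  rw [Finset.mem_filter] at hj
  rw [h j hj.2]

lemma uni_congr {r : ℕ} {P : MvPolynomial (Fin n) K} {k : Fin n} {x x' : Fin n → K}
    (h : ∀ j, j < k → x j = x' j) : uni r P k x = uni r P k x' := by
  unfold uni
  refine Finset.sum_congr rfl fun s _ => ?_
  rw [low_congr h]

lemma eval_uni {r : ℕ} {P : MvPolynomial (Fin n) K} {k : Fin n}
    (hP : ∀ s ∈ P.support, (∀ j, k < j → s j = 0) ∧ r ∣ s k) (x : Fin n → K) :
    (uni r P k x).eval (x k ^ r) = MvPolynomial.eval x P := by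
  unfold uni
  rw [MvPolynomial.eval_eq', eval_finsetSum]
  refine Finset.sum_congr rfl fun s hs => ?_
  rw [prod_split k x s (hP s hs).1, eval_mul, eval_C, eval_pow, eval_X, ← pow_mul,
    Nat.mul_div_cancel' (hP s hs).2, mul_assoc]

lemma eval_congr {P : MvPolynomial (Fin n) K} {k : Fin n}
    (hP : ∀ s ∈ P.support, ∀ j, k < j → s j = 0) {x x' : Fin n → K}
    (h : ∀ j, j ≤ k → x j = x' j) : MvPolynomial.eval x P = MvPolynomial.eval x' P := by
  rw [MvPolynomial.eval_eq', MvPolynomial.eval_eq']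
  refine Finset.sum_congr rfl fun s hs => ?_
  rw [prod_split k x s (hP s hs), prod_split k x' s (hP s hs), h k le_rfl,
    low_congr (fun j hj => h j hj.le)]

lemma coeff_uni (r : ℕ) (P : MvPolynomial (Fin n) K) (k : Fin n) (x : Fin n → K) (q : ℕ) :
    (uni r P k x).coeff q = ∑ s ∈ P.support.filter (fun s => s k / r = q),
      P.coeff s * low k x s := by
  unfold uni
  rw [finsetSum_coeff, Finset.sum_filter]
  refine Finset.sum_congr rfl fun s _ => ?_
  rw [coeff_C_mul, coeff_X_pow]
  by_cases h : s k / r = q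
  · rw [if_pos h, if_pos h.symm, mul_one]
  · rw [if_neg h, if_neg (fun h' => h h'.symm), mul_zero]

lemma low_single (k : Fin n) (x : Fin n → K) (e : ℕ) : low k x (Finsupp.single k e) = 1 := by
  unfold low
  refine Finset.prod_eq_one fun j hj => ?_
  rw [Finset.mem_filter] at hj
  rw [Finsupp.single_eq_of_ne hj.2.ne, pow_zero]

/-- the weight of the part of a monomial below `k` -/
def wlow (w : Fin n → ℕ) (k : Fin n) (s : Fin n →₀ ℕ) : ℕ :=
  ∑ j ∈ Finset.univ.filter (· < k), w j * s j

lemma wt_split (w : Fin n → ℕ) (k : Fin n) (s : Fin n →₀ ℕ) (hs : ∀ j, k < j → s j = 0) :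
    wt w s = wlow w k s + w k * s k := by
  unfold wt wlow
  rw [← Finset.sum_filter_add_sum_filter_not Finset.univ (· < k)]
  congr 1
  rw [Finset.sum_eq_single k]
  · intro j hj hjk
    rw [Finset.mem_filter] at hj
    have h1 : k < j := lt_of_le_of_ne (not_lt.1 hj.2) (Ne.symm hjk)
    rw [hs j h1, mul_zero]
  · intro h
    exfalso
    apply h
    rw [Finset.mem_filter]
    exact ⟨Finset.mem_univ _, lt_irrefl k⟩

lemma val_low (v : Valuation K (WithZero (Multiplicative ℤ))) {w : Fin n → ℕ} {k : Fin n}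
    {x : Fin n → K} {A : WithZero (Multiplicative ℤ)} {w0 : ℕ}
    (h : ∀ j, j < k → v (x j) ^ w0 = A ^ w j) (s : Fin n →₀ ℕ) :
    v (low k x s) ^ w0 = A ^ wlow w k s := by
  unfold low wlow
  rw [map_prod, ← Finset.prod_pow, ← Finset.prod_pow_eq_pow_sum]
  refine Finset.prod_congr rfl fun j hj => ?_
  rw [Finset.mem_filter] at hj
  rw [map_pow, ← pow_mul, mul_comm (s j), pow_mul, h j hj.2, ← pow_mul]

lemma val_low_le (v : Valuation K (WithZero (Multiplicative ℤ))) {k : Fin n}
    {x : Fin n → K} (h : ∀ j, j < k → v (x j) ≤ 1) (s : Fin n →₀ ℕ) :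
    v (low k x s) ≤ 1 := by
  unfold low
  rw [map_prod]
  refine Finset.prod_le_one' fun j hj => ?_
  rw [Finset.mem_filter] at hj
  rw [map_pow]
  exact pow_le_one₀ zero_le (h j hj.2)

end TriAux

open TriAux

namespace TriAux

variable {K : Type*} [Field K] {N : ℕ}

section

variable {r m : ℕ} (hr : 0 < r) (hm : 0 < m) {w : Fin (N + 1) → ℕ}
  {D : Fin N → Fin (N + 1) →₀ ℕ} {P : Fin N → MvPolynomial (Fin (N + 1)) K}
  (hP : TriShape r m w D P) (k : Fin N) (x : Fin (N + 1) → K)

include hr hm hP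

/-- a monomial with the exponent of `x_(k+1)` at least `r m` -/
lemma eq_top {s : Fin (N + 1) →₀ ℕ} (hs : s ∈ (P k).support)
    (h : r * m ≤ s k.succ) : s = Finsupp.single k.succ (r * m) := by
  obtain ⟨h1, h2, -, -, h5⟩ := hP k
  obtain ⟨h6, -, h8⟩ := h5 s hs
  have hrm : 0 < r * m := Nat.mul_pos hr hm
  rcases h8 with h8 | h8 | h8
  · exact h8
  · rw [h8, h1 _ le_rfl] at h
    omega
  · rw [wt_split w k.succ s h6] at h8
    have h9 : w k.succ * (r * m) ≤ w k.succ * s k.succ := Nat.mul_le_mul_left _ h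
    rw [mul_comm (r * m)] at h8
    omega

lemma filter_top :
    (P k).support.filter (fun s => s k.succ / r = m) = {Finsupp.single k.succ (r * m)} := by
  ext s
  rw [Finset.mem_filter, Finset.mem_singleton]
  constructor
  · rintro ⟨hs, hq⟩
    have h4 : s k.succ = r * m := by
      rw [← hq]
      exact (Nat.mul_div_cancel' ((hP k).2.2.2.2 s hs).2.1).symm
    exact eq_top hr hm hP k hs h4.ge
  · rintro rfl
    refine ⟨MvPolynomial.mem_support_iff.2 (hP k).2.2.2.1, ?_⟩
    rw [Finsupp.single_eq_same]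
    exact Nat.mul_div_cancel_left m hr

lemma coeff_uni_top :
    (uni r (P k) k.succ x).coeff m = (P k).coeff (Finsupp.single k.succ (r * m)) := by
  rw [coeff_uni, filter_top hr hm hP k, Finset.sum_singleton, low_single, mul_one]

lemma natDegree_uni : (uni r (P k) k.succ x).natDegree = m := by
  refine natDegree_eq_of_le_of_coeff_ne_zero ?_ ?_
  · rw [natDegree_le_iff_coeff_eq_zero]
    intro q hq
    rw [coeff_uni]
    refine Finset.sum_eq_zero fun s hs => ?_
    exfalso
    rw [Finset.mem_filter] at hs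
    have h4 : s k.succ = r * q := by
      rw [← hs.2]
      exact (Nat.mul_div_cancel' ((hP k).2.2.2.2 s hs.1).2.1).symm
    have h5 : r * m < r * q := Nat.mul_lt_mul_of_pos_left hq hr
    have h6 := eq_top hr hm hP k hs.1 (by omega)
    rw [h6, Finsupp.single_eq_same] at h4
    omega
  · rw [coeff_uni_top hr hm hP k x]
    exact (hP k).2.2.2.1

end

/-- the part without constant term -/
noncomputable def hp (r : ℕ) (P : MvPolynomial (Fin (N + 1)) K) (k : Fin N)
    (x : Fin (N + 1) → K) : K[X] := uni r P k.succ x - C ((uni r P k.succ x).coeff 0)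

/-- the constant term -/
noncomputable def cp (r : ℕ) (P : MvPolynomial (Fin (N + 1)) K) (k : Fin N)
    (x : Fin (N + 1) → K) : K := (uni r P k.succ x).coeff 0

lemma fam_hp (r : ℕ) (P : MvPolynomial (Fin (N + 1)) K) (k : Fin N) (x : Fin (N + 1) → K)
    (z : K) : fam r (hp r P k x) (cp r P k x) z = (uni r P k.succ x).eval (z ^ r) := by
  unfold fam hp cp
  rw [eval_sub, eval_C, sub_add_cancel]

lemma hp_congr {r : ℕ} {P : MvPolynomial (Fin (N + 1)) K} {k : Fin N} {x x' : Fin (N + 1) → K}
    (h : ∀ j, j < k.succ → x j = x' j) : hp r P k x = hp r P k x' := by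
  unfold hp
  rw [uni_congr h]

lemma cp_congr {r : ℕ} {P : MvPolynomial (Fin (N + 1)) K} {k : Fin N} {x x' : Fin (N + 1) → K}
    (h : ∀ j, j < k.succ → x j = x' j) : cp r P k x = cp r P k x' := by
  unfold cp
  rw [uni_congr h]

lemma coeff_hp {r : ℕ} {P : MvPolynomial (Fin (N + 1)) K} {k : Fin N} {x : Fin (N + 1) → K}
    {q : ℕ} (hq : 0 < q) : (hp r P k x).coeff q = (uni r P k.succ x).coeff q := by
  unfold hp
  rw [coeff_sub, coeff_C, if_neg hq.ne', sub_zero]

lemma coeff_hp_zero {r : ℕ} {P : MvPolynomial (Fin (N + 1)) K} {k : Fin N}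
    {x : Fin (N + 1) → K} : (hp r P k x).coeff 0 = 0 := by
  unfold hp
  rw [coeff_sub, coeff_C_zero, sub_self]

lemma lt_of_pow_lt' {a b : WithZero (Multiplicative ℤ)} {n : ℕ} (h : a ^ n < b ^ n) : a < b :=
  lt_of_pow_lt_pow_left₀ n zero_le h

/-- the polynomials are dominated -/
lemma dom_hp (v : Valuation K (WithZero (Multiplicative ℤ))) {r m : ℕ} (hr : 0 < r)
    (hm : 0 < m) {w : Fin (N + 1) → ℕ} {D : Fin N → Fin (N + 1) →₀ ℕ}
    {P : Fin N → MvPolynomial (Fin (N + 1)) K} (hP : TriShape r m w D P) (k : Fin N)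
    (hint : ∀ s, v ((P k).coeff s) ≤ 1)
    (hlead : v ((P k).coeff (Finsupp.single k.succ (r * m))) = 1)
    {g : WithZero (Multiplicative ℤ)} {x : Fin (N + 1) → K}
    (h : (∀ j, j < k.succ → v (x j) ≤ 1) ∨
      ∃ A w0, 1 < A ∧ 0 < w0 ∧ (∀ j, j < k.succ → v (x j) ^ w0 = A ^ w j) ∧
        g ^ w0 = A ^ (r * m * w k.succ)) :
    Dom v m g (hp r (P k) k x) := by
  have hdeg0 := natDegree_uni hr hm hP k x
  have hdeg : (hp r (P k) k x).natDegree = m := by
    unfold hp
    rw [natDegree_sub_C, hdeg0]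
  refine ⟨?_, hdeg, fun q hq => ?_⟩
  · rw [leadingCoeff, hdeg, coeff_hp hm, coeff_uni_top hr hm hP k x, hlead]
  · rcases Nat.eq_zero_or_pos q with rfl | hq0
    · left
      rw [coeff_hp_zero, map_zero]
      exact zero_le
    rw [coeff_hp hq0, coeff_uni]
    rcases h with h | ⟨A, w0, hA, hw0, h1, h2⟩
    · left
      refine Valuation.map_sum_le v fun s _ => ?_
      rw [map_mul]
      exact mul_le_one' (hint s) (val_low_le v h s)
    · right
      have hB : (0 : WithZero (Multiplicative ℤ)) < g ^ (m - q) := by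
        refine pow_pos ?_ _
        rw [zero_lt_iff]
        rintro rfl
        rw [zero_pow hw0.ne'] at h2
        exact (pow_pos (zero_lt_one.trans hA) _).ne h2
      refine Finset.sum_induction _ (fun z => v z ^ m < g ^ (m - q)) ?_ ?_ ?_
      · intro a b ha hb
        rcases le_total (v a) (v b) with h | h
        · exact (pow_le_pow_left' ((Valuation.map_add v a b).trans (max_le h le_rfl)) _).trans_lt hb
        · exact (pow_le_pow_left' ((Valuation.map_add v a b).trans (max_le le_rfl h)) _).trans_lt ha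
      · change v 0 ^ m < g ^ (m - q)
        rw [map_zero, zero_pow hm.ne']
        exact hB
      · intro s hs
        rw [Finset.mem_filter] at hs
        obtain ⟨h4, h5, h6⟩ := (hP k).2.2.2.2 s hs.1
        have h7 : s k.succ = r * q := by
          rw [← hs.2]
          exact (Nat.mul_div_cancel' h5).symm
        have h8 : wt w s < r * m * w k.succ := by
          rcases h6 with h6 | h6 | h6
          · rw [h6, Finsupp.single_eq_same] at h7
            have := Nat.mul_lt_mul_of_pos_left hq hr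
            omega
          · rw [h6, (hP k).1 _ le_rfl] at h7
            have := Nat.mul_pos hr hq0
            omega
          · exact h6
        rw [wt_split w k.succ s h4, h7] at h8
        set E : ℕ := wlow w k.succ s with hE
        have h9 : v (low k.succ x s) ^ w0 = A ^ E := val_low v h1 s
        have h10 : v ((P k).coeff s * low k.succ x s) ≤ v (low k.succ x s) := by
          rw [map_mul]
          calc _ ≤ 1 * v (low k.succ x s) := mul_le_mul_left (hint s) _
            _ = _ := one_mul _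
        refine lt_of_pow_lt' (n := w0) ?_
        calc (v ((P k).coeff s * low k.succ x s) ^ m) ^ w0
            ≤ (v (low k.succ x s) ^ m) ^ w0 := pow_le_pow_left' (pow_le_pow_left' h10 _) _
          _ = A ^ (E * m) := by rw [← pow_mul, mul_comm m, pow_mul, h9, ← pow_mul]
          _ < A ^ (r * m * w k.succ * (m - q)) := by
              refine pow_lt_pow_right₀ hA ?_
              obtain ⟨t, rfl⟩ : ∃ t, m = q + t := ⟨m - q, by omega⟩
              have h11 : E < r * t * w k.succ := by
                have e1 : r * (q + t) * w k.succ = w k.succ * (r * q) + r * t * w k.succ := by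
                  ring
                omega
              have h12 : q + t - q = t := by omega
              rw [h12]
              calc E * (q + t) < r * t * w k.succ * (q + t) :=
                    Nat.mul_lt_mul_of_pos_right h11 hm
                _ = r * (q + t) * w k.succ * t := by ring
          _ = (g ^ (m - q)) ^ w0 := by
              rw [← pow_mul, mul_comm (m - q), pow_mul g, h2, ← pow_mul]

/-- the constant term at good places -/
lemma cp_good (v : Valuation K (WithZero (Multiplicative ℤ))) {r : ℕ}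
    {P : MvPolynomial (Fin (N + 1)) K} (k : Fin N) (hint : ∀ s, v (P.coeff s) ≤ 1)
    {x : Fin (N + 1) → K} (h : ∀ j, j < k.succ → v (x j) ≤ 1) : v (cp r P k x) ≤ 1 := by
  unfold cp
  rw [coeff_uni]
  refine Valuation.map_sum_le v fun s _ => ?_
  rw [map_mul]
  exact mul_le_one' (hint s) (val_low_le v h s)

/-- the constant term at bad places -/
lemma cp_bad (v : Valuation K (WithZero (Multiplicative ℤ))) {r m : ℕ} (hr : 0 < r)
    (hm : 0 < m) {w : Fin (N + 1) → ℕ} {D : Fin N → Fin (N + 1) →₀ ℕ}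
    {P : Fin N → MvPolynomial (Fin (N + 1)) K} (hP : TriShape r m w D P) (k : Fin N)
    (hint : ∀ s, v ((P k).coeff s) ≤ 1) (hD : v ((P k).coeff (D k)) = 1)
    {x : Fin (N + 1) → K} {A : WithZero (Multiplicative ℤ)} {w0 : ℕ} (hA : 1 < A) (hw0 : 0 < w0)
    (h1 : ∀ j, j < k.succ → v (x j) ^ w0 = A ^ w j) :
    v (cp r (P k) k x) ^ w0 = A ^ (r * m * w k.succ) := by
  classical
  unfold cp
  rw [coeff_uni]
  have hDk := (hP k).1 k.succ le_rfl
  have hmem : D k ∈ (P k).support.filter (fun s => s k.succ / r = 0) := by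
    rw [Finset.mem_filter]
    refine ⟨MvPolynomial.mem_support_iff.2 (hP k).2.2.1, ?_⟩
    rw [hDk, Nat.zero_div]
  have hwD : wlow w k.succ (D k) = r * m * w k.succ := by
    have h2 := wt_split w k.succ (D k) (fun j hj => (hP k).1 j hj.le)
    rw [(hP k).2.1, hDk, mul_zero, add_zero] at h2
    exact h2.symm
  have hDv : v ((P k).coeff (D k) * low k.succ x (D k)) ^ w0 = A ^ (r * m * w k.succ) := by
    rw [map_mul, hD, one_mul, val_low v h1, hwD]
  have hpos : (0 : WithZero (Multiplicative ℤ)) <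
      v ((P k).coeff (D k) * low k.succ x (D k)) := by
    rw [zero_lt_iff]
    intro h2
    rw [h2, zero_pow hw0.ne'] at hDv
    exact (pow_pos (zero_lt_one.trans hA) _).ne hDv
  rw [← Finset.add_sum_erase _ _ hmem, Valuation.map_add_eq_of_lt_left, hDv]
  refine Valuation.map_sum_lt v hpos.ne' fun s hs => ?_
  rw [Finset.mem_erase, Finset.mem_filter] at hs
  obtain ⟨hsD, hs1, hs2⟩ := hs
  obtain ⟨h4, h5, h6⟩ := (hP k).2.2.2.2 s hs1
  have h7 : s k.succ = 0 := by
    have := (Nat.mul_div_cancel' h5).symm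
    rw [hs2, mul_zero] at this
    exact this
  have h8 : wt w s < r * m * w k.succ := by
    rcases h6 with h6 | h6 | h6
    · rw [h6, Finsupp.single_eq_same] at h7
      have := Nat.mul_pos hr hm
      omega
    · exact absurd h6 hsD
    · exact h6
  rw [wt_split w k.succ s h4, h7, mul_zero, add_zero] at h8
  refine lt_of_pow_lt' (n := w0) ?_
  rw [hDv]
  calc v ((P k).coeff s * low k.succ x s) ^ w0 ≤ v (low k.succ x s) ^ w0 := by
        refine pow_le_pow_left' ?_ _
        rw [map_mul]
        calc _ ≤ 1 * v (low k.succ x s) := mul_le_mul_left (hint s) _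
          _ = _ := one_mul _
    _ = A ^ wlow w k.succ s := val_low v h1 s
    _ < A ^ (r * m * w k.succ) := pow_lt_pow_right₀ hA h8

/-- recursion of the coordinates -/
lemma coord_rec {r m : ℕ} {w : Fin (N + 1) → ℕ} {D : ℕ → Fin N → Fin (N + 1) →₀ ℕ}
    {PP : ℕ → Fin N → MvPolynomial (Fin (N + 1)) K}
    (hPP : ∀ i, TriShape r m w (D i) (PP i)) {X : ℕ → Fin (N + 1) → K}
    (hX : ∀ i (k : Fin N), X (i + 1) k.succ = MvPolynomial.eval (X i) (PP i k)) (k : Fin N)
    (i : ℕ) : X (i + 1) k.succ =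
      fam r (hp r (PP i k) k (X i)) (cp r (PP i k) k (X i)) (X i k.succ) := by
  rw [hX, fam_hp, eval_uni fun s hs =>
    ⟨((hPP i k).2.2.2.2 s hs).1, ((hPP i k).2.2.2.2 s hs).2.1⟩]

/-- sizes of the coordinates of periodic sequences -/
lemma size (v : Valuation K (WithZero (Multiplicative ℤ))) {r m : ℕ} (hr : 1 ≤ r) (hm : 1 ≤ m)
    (hrm2 : 2 ≤ r * m)
    {w : Fin (N + 1) → ℕ} (hw : ∀ j, 0 < w j) {D : ℕ → Fin N → Fin (N + 1) →₀ ℕ}
    {PP : ℕ → Fin N → MvPolynomial (Fin (N + 1)) K}
    (hPP : ∀ i, TriShape r m w (D i) (PP i))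
    (hint : ∀ i k s, v ((PP i k).coeff s) ≤ 1)
    (hD : ∀ i k, v ((PP i k).coeff (D i k)) = 1)
    (hlead : ∀ i k, v ((PP i k).coeff (Finsupp.single k.succ (r * m))) = 1) {c : K}
    {X : ℕ → Fin (N + 1) → K} (hXc : ∀ i, X i 0 = c)
    (hX : ∀ i (k : Fin N), X (i + 1) k.succ = MvPolynomial.eval (X i) (PP i k)) {L : ℕ}
    (hL : 0 < L) (hXL : ∀ i, X (i + L) = X i) (j : Fin (N + 1)) :
    (v c ≤ 1 → ∀ i, v (X i j) ≤ 1) ∧ (1 < v c → ∀ i, v (X i j) ^ w 0 = v c ^ w j) := by
  induction j using WellFoundedLT.induction with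
  | ind j ih =>
    obtain rfl | ⟨k, rfl⟩ := Fin.eq_zero_or_eq_succ j
    · refine ⟨fun hc i => ?_, fun hc i => ?_⟩
      · rw [hXc]
        exact hc
      · rw [hXc]
    · have ha : ∀ i, X (i + 1) k.succ =
          fam r (hp r (PP i k) k (X i)) (cp r (PP i k) k (X i)) (X i k.succ) :=
        coord_rec hPP hX k
      have haL : ∀ i, X (i + L) k.succ = X i k.succ := fun i => by rw [hXL]
      refine ⟨fun hc => ?_, fun hc => ?_⟩
      · have h1 : ∀ i, ∀ j, j < k.succ → v (X i j) ≤ 1 := fun i j hj => (ih j hj).1 hc i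
        exact LocDomAux.seq_le_one v hr hm hrm2 (g := 1) (a := fun i => X i k.succ)
          (fun i => dom_hp v (by omega) hm (hPP i) k (hint i k) (hlead i k) (Or.inl (h1 i)))
          ha hL haL le_rfl (fun i => cp_good v k (hint i k) (h1 i))
      · have h1 : ∀ i, ∀ j, j < k.succ → v (X i j) ^ w 0 = v c ^ w j :=
          fun i j hj => (ih j hj).2 hc i
        have h2 : ∀ i, v (cp r (PP i k) k (X i)) ^ w 0 = v c ^ (r * m * w k.succ) := fun i =>
          cp_bad v (by omega) hm (hPP i) k (hint i k) (hD i k) hc (hw 0) (h1 i)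
        have hrm : 0 < r * m := Nat.mul_pos (by omega) hm
        have h3 : ∀ i, v (cp r (PP i k) k (X i)) = v (cp r (PP 0 k) k (X 0)) := fun i =>
          (pow_left_inj₀ zero_le zero_le (hw 0).ne').1 ((h2 i).trans (h2 0).symm)
        have h4 : 1 < v (cp r (PP 0 k) k (X 0)) := by
          refine lt_of_pow_lt' (n := w 0) ?_
          rw [one_pow, h2 0]
          exact one_lt_pow₀ hc (Nat.mul_pos hrm (hw _)).ne'
        have h5 := LocDomAux.seq_pow v hr hm hrm2 (a := fun i => X i k.succ)
          (g := v (cp r (PP 0 k) k (X 0)))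
          (fun i => dom_hp v (by omega) hm (hPP i) k (hint i k) (hlead i k)
            (Or.inr ⟨v c, w 0, hc, hw 0, h1 i, h2 0⟩))
          ha hL haL h4 h3
        intro i
        have h6 : (v (X i k.succ) ^ w 0) ^ (r * m) = (v c ^ w k.succ) ^ (r * m) := by
          rw [← pow_mul, mul_comm (w 0), pow_mul, h5 i, h2 0, ← pow_mul, mul_comm (w k.succ)]
        exact (pow_left_inj₀ zero_le zero_le hrm.ne').1 h6

/-- the local condition for the coordinate `k` -/
lemma pure (v : Valuation K (WithZero (Multiplicative ℤ))) {r m : ℕ} (hr : 1 ≤ r) (hm : 1 ≤ m)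
    (hrm2 : 2 ≤ r * m)
    {w : Fin (N + 1) → ℕ} (hw : ∀ j, 0 < w j) {D : ℕ → Fin N → Fin (N + 1) →₀ ℕ}
    {PP : ℕ → Fin N → MvPolynomial (Fin (N + 1)) K}
    (hPP : ∀ i, TriShape r m w (D i) (PP i))
    (hint : ∀ i k s, v ((PP i k).coeff s) ≤ 1)
    (hD : ∀ i k, v ((PP i k).coeff (D i k)) = 1)
    (hlead : ∀ i k, v ((PP i k).coeff (Finsupp.single k.succ (r * m))) = 1) {c : K}
    {X : ℕ → Fin (N + 1) → K} (hXc : ∀ i, X i 0 = c)
    (hX : ∀ i (k : Fin N), X (i + 1) k.succ = MvPolynomial.eval (X i) (PP i k)) {L : ℕ}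
    (hL : 0 < L) (hXL : ∀ i, X (i + L) = X i) (k : Fin N) :
    LocPure v m (fun i => hp r (PP i k) k (X i)) (fun i => cp r (PP i k) k (X i)) := by
  have hs := fun j => size v hr hm hrm2 hw hPP hint hD hlead hXc hX hL hXL j
  rcases le_or_gt (v c) 1 with hc | hc
  · have h1 : ∀ i, ∀ j, j < k.succ → v (X i j) ≤ 1 := fun i j _ => (hs j).1 hc i
    exact ⟨1, fun i => dom_hp v (by omega) hm (hPP i) k (hint i k) (hlead i k) (Or.inl (h1 i)),
      Or.inl ⟨le_rfl, fun i => cp_good v k (hint i k) (h1 i)⟩⟩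
  · have h1 : ∀ i, ∀ j, j < k.succ → v (X i j) ^ w 0 = v c ^ w j :=
      fun i j _ => (hs j).2 hc i
    have h2 : ∀ i, v (cp r (PP i k) k (X i)) ^ w 0 = v c ^ (r * m * w k.succ) := fun i =>
      cp_bad v (by omega) hm (hPP i) k (hint i k) (hD i k) hc (hw 0) (h1 i)
    have hrm : 0 < r * m := Nat.mul_pos (by omega) hm
    have h3 : ∀ i, v (cp r (PP i k) k (X i)) = v (cp r (PP 0 k) k (X 0)) := fun i =>
      (pow_left_inj₀ zero_le zero_le (hw 0).ne').1 ((h2 i).trans (h2 0).symm)
    have h4 : 1 < v (cp r (PP 0 k) k (X 0)) := by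
      refine lt_of_pow_lt' (n := w 0) ?_
      rw [one_pow, h2 0]
      exact one_lt_pow₀ hc (Nat.mul_pos hrm (hw _)).ne'
    exact ⟨v (cp r (PP 0 k) k (X 0)), fun i => dom_hp v (by omega) hm (hPP i) k (hint i k)
      (hlead i k) (Or.inr ⟨v c, w 0, hc, hw 0, h1 i, h2 0⟩), Or.inr ⟨h4, h3⟩⟩

/-- orbits with the same first coordinates -/
lemma agree {r m : ℕ} {w : Fin (N + 1) → ℕ} {D : ℕ → Fin N → Fin (N + 1) →₀ ℕ}
    {PP : ℕ → Fin N → MvPolynomial (Fin (N + 1)) K}
    (hPP : ∀ i, TriShape r m w (D i) (PP i)) {c : K} {X Y : ℕ → Fin (N + 1) → K}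
    (hXc : ∀ i, X i 0 = c) (hYc : ∀ i, Y i 0 = c)
    (hX : ∀ i (k : Fin N), X (i + 1) k.succ = MvPolynomial.eval (X i) (PP i k))
    (hY : ∀ i (k : Fin N), Y (i + 1) k.succ = MvPolynomial.eval (Y i) (PP i k))
    {n : ℕ} (h0 : ∀ j : Fin (N + 1), j.val < n → X 0 j = Y 0 j) (i : ℕ) :
    ∀ j : Fin (N + 1), j.val < n → X i j = Y i j := by
  induction i with
  | zero => exact h0
  | succ i ih =>
    intro j hj
    obtain rfl | ⟨k, rfl⟩ := Fin.eq_zero_or_eq_succ j
    · rw [hXc, hYc]
    · rw [hX, hY, eval_congr (fun s hs => ((hPP i k).2.2.2.2 s hs).1) (x := X i) (x' := Y i)]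
      intro l hl
      exact ih l (lt_of_le_of_lt (Fin.le_def.1 hl) hj)

/-- the first `n` coordinates -/
def pr {n : ℕ} (q : ℕ) (x : Fin n → K) : Fin n → K := fun j => if j.val < q then x j else 0

lemma pr_pr {n : ℕ} (q : ℕ) (x : Fin n → K) : pr q (pr (q + 1) x) = pr q x := by
  funext j
  unfold pr
  by_cases h : j.val < q
  · rw [if_pos h, if_pos (by omega), if_pos h]
  · rw [if_neg h, if_neg h]

lemma pr_eq {n q : ℕ} {x y : Fin n → K} (h : pr q x = pr q y) (j : Fin n) (hj : j.val < q) :
    x j = y j := by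
  have h1 := congrFun h j
  unfold pr at h1
  rwa [if_pos hj, if_pos hj] at h1

end TriAux

/-- triangular maps over a field with the roots of unity -/
theorem tri_root (K : Type u) [Field K] [NumberField K] {r m : ℕ} (hr : 3 ≤ r)
    (hrm : 5 ≤ r * m) {ζ0 : K} (hζ0 : IsPrimitiveRoot ζ0 r)
    (S : Set (HeightOneSpectrum (𝓞 K))) (hS : S.Finite)
    (hrmS : ∀ v : HeightOneSpectrum (𝓞 K), v ∉ S → v.valuation K ((r * m : ℕ) : K) = 1) :
    ∃ B : ℕ, ∀ (N : ℕ) (c : K) (w : Fin (N + 1) → ℕ) (D : ℕ → Fin N → Fin (N + 1) →₀ ℕ)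
      (PP : ℕ → Fin N → MvPolynomial (Fin (N + 1)) K), (∀ j, 0 < w j) →
      (∀ i, TriShape r m w (D i) (PP i)) →
      (∀ v : HeightOneSpectrum (𝓞 K), v ∉ S → (∀ i k s, v.valuation K ((PP i k).coeff s) ≤ 1) ∧
        (∀ i k, v.valuation K ((PP i k).coeff (D i k)) = 1) ∧
        ∀ i k, v.valuation K ((PP i k).coeff (Finsupp.single k.succ (r * m))) = 1) →
      ∀ L : ℕ, 0 < L → ∀ Q : Finset (Fin (N + 1) → K),
      (∀ x ∈ Q, ∃ X : ℕ → Fin (N + 1) → K, X 0 = x ∧ (∀ i, X i 0 = c) ∧
        (∀ i (k : Fin N), X (i + 1) k.succ = MvPolynomial.eval (X i) (PP i k)) ∧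
        ∀ i, X (i + L) = X i) → Q.card ≤ B ^ N := by
  classical
  obtain ⟨B, hB⟩ := seqdom_root K hr hrm hζ0 S hS hrmS
  have hm : 1 ≤ m := by
    rcases Nat.eq_zero_or_pos m with h | h
    · rw [h] at hrm
      omega
    · exact h
  refine ⟨B, fun N c w D PP hw hPP hval L hL Q hQ => ?_⟩
  have main : ∀ n : ℕ, n ≤ N → (Q.image (pr (n + 1))).card ≤ B ^ n := by
    intro n
    induction n with
    | zero =>
      intro _
      rw [pow_zero, Finset.card_le_one]
      intro a ha b hb
      obtain ⟨x, hx, rfl⟩ := Finset.mem_image.1 ha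
      obtain ⟨y, hy, rfl⟩ := Finset.mem_image.1 hb
      obtain ⟨X, hXx, hXc, -, -⟩ := hQ x hx
      obtain ⟨Y, hYy, hYc, -, -⟩ := hQ y hy
      funext j
      unfold pr
      split_ifs with hj
      · have h1 : j = 0 := Fin.ext (by
          rw [Fin.val_zero]
          omega)
        rw [h1, ← hXx, ← hYy, hXc, hYc]
      · rfl
    | succ n ih =>
      intro hn
      have ih' := ih (by omega)
      set k : Fin N := ⟨n, by omega⟩ with hk
      have hkv : k.succ.val = n + 1 := rfl
      have h1 : (Q.image (pr (n + 1 + 1))).card ≤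
          B * ((Q.image (pr (n + 1 + 1))).image (pr (n + 1))).card := by
        refine Finset.card_le_mul_card_image _ _ fun p hpm => ?_
        obtain ⟨z0, hz0, rfl⟩ := Finset.mem_image.1 hpm
        obtain ⟨x0, hx0, rfl⟩ := Finset.mem_image.1 hz0
        obtain ⟨X0, hX00, hX0c, hX0r, hX0L⟩ := hQ x0 hx0
        rw [pr_pr]
        set F := (Q.image (pr (n + 1 + 1))).filter (fun z => pr (n + 1) z = pr (n + 1) x0) with hF
        have hinj : Set.InjOn (fun z : Fin (N + 1) → K => z k.succ)
            (F : Set (Fin (N + 1) → K)) := by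
          intro z hz z' hz' hzz
          rw [Finset.mem_coe, hF, Finset.mem_filter] at hz hz'
          obtain ⟨h2, h3⟩ := hz
          obtain ⟨h2', h3'⟩ := hz'
          obtain ⟨x, hx, rfl⟩ := Finset.mem_image.1 h2
          obtain ⟨x', hx', rfl⟩ := Finset.mem_image.1 h2'
          rw [pr_pr] at h3 h3'
          have h4 : pr (n + 1) x = pr (n + 1) x' := h3.trans h3'.symm
          funext j
          rcases lt_trichotomy j.val (n + 1) with hj | hj | hj
          · have h5 := pr_eq h4 j hj
            unfold pr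
            rw [if_pos (by omega), if_pos (by omega), h5]
          · have h5 : j = k.succ := Fin.ext (hj.trans hkv.symm)
            rw [h5]
            exact hzz
          · unfold pr
            rw [if_neg (by omega), if_neg (by omega)]
        rw [← Finset.card_image_of_injOn hinj]
        refine hB (fun i => cp r (PP i k) k (X0 i)) (fun i => hp r (PP i k) k (X0 i)) ?_ L hL _ ?_
        · intro v hv
          exact TriAux.pure (v.valuation K) (by omega) hm (by omega) hw hPP (hval v hv).1 (hval v hv).2.1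
            (hval v hv).2.2 hX0c hX0r hL hX0L k
        · intro y hy
          obtain ⟨z, hz, rfl⟩ := Finset.mem_image.1 hy
          rw [hF, Finset.mem_filter] at hz
          obtain ⟨h2, h3⟩ := hz
          obtain ⟨x, hx, rfl⟩ := Finset.mem_image.1 h2
          rw [pr_pr] at h3
          obtain ⟨X, hXx, hXc, hXr, hXL⟩ := hQ x hx
          have h4 : ∀ i, ∀ j : Fin (N + 1), j.val < n + 1 → X i j = X0 i j := by
            intro i
            refine agree hPP hXc hX0c hXr hX0r ?_ i
            intro j hj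
            rw [hXx, hX00]
            exact pr_eq h3 j hj
          refine ⟨fun i => X i k.succ, ?_, ?_, ?_⟩
          · change X 0 k.succ = pr (n + 1 + 1) x k.succ
            rw [hXx]
            unfold pr
            rw [if_pos (by omega)]
          · intro i
            change X (i + 1) k.succ = fam r (hp r (PP i k) k (X0 i)) (cp r (PP i k) k (X0 i))
              (X i k.succ)
            have h5 : ∀ j, j < k.succ → X i j = X0 i j := fun j hj =>
              h4 i j (Fin.lt_def.1 hj)
            rw [← hp_congr h5, ← cp_congr h5]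
            exact coord_rec hPP hXr k i
          · intro i
            change X (i + L) k.succ = X i k.succ
            rw [hXL]
      have h2 : (Q.image (pr (n + 1 + 1))).image (pr (n + 1)) = Q.image (pr (n + 1)) := by
        rw [Finset.image_image]
        refine Finset.image_congr fun x _ => ?_
        exact pr_pr (n + 1) x
      rw [h2] at h1
      calc (Q.image (pr (n + 1 + 1))).card ≤ B * (Q.image (pr (n + 1))).card := h1
        _ ≤ B * B ^ n := Nat.mul_le_mul_left _ ih'
        _ = B ^ (n + 1) := by rw [pow_succ, mul_comm]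
  have h3 := main N le_rfl
  have h4 : Q.image (pr (N + 1)) = Q := by
    have h5 : ∀ x ∈ Q, pr (N + 1) x = x := by
      intro x _
      funext j
      unfold pr
      rw [if_pos j.isLt]
    rw [Finset.image_congr (g := id) (fun x hx => h5 x hx), Finset.image_id]
  rwa [h4] at h3

end UBC
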