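import Pool.Agent.UBC.FinalCycA
import Pool.Agent.UBC.FinalTri

/-!
# Periods of periodic points of compositions of triangular maps
-/

set_option autoImplicit false

universe u

namespace UBC

open Height NumberField IsDedekindDomain Polynomial WithZero FinalPerAux FinalPerSAux
open TriAux

/-- forget the condition on the exponents -/
lemma TriShape.one {K : Type*} [Field K] {N r m : ℕ} {w : Fin (N + 1) → ℕ}
    {D : Fin N → Fin (N + 1) →₀ ℕ} {P : Fin N → MvPolynomial (Fin (N + 1)) K}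
    (h : TriShape r m w D P) : TriShape 1 (r * m) w D P := by
  intro k
  obtain ⟨h1, h2, h3, h4, h5⟩ := h k
  rw [one_mul]
  exact ⟨h1, h2, h3, h4, fun s hs => ⟨(h5 s hs).1, one_dvd _, (h5 s hs).2.2⟩⟩

/-- the period as a product of lengths of cycles of one-dimensional maps -/
theorem tri_chain {K : Type u} [Field K] [NumberField K] {d : ℕ} (hd : 2 ≤ d)
    (S : Set (HeightOneSpectrum (𝓞 K))) (Good : ℕ → Prop)
    (hGood : ∀ (H : ℕ → K[X]) (c : ℕ → K),
      (∀ v : HeightOneSpectrum (𝓞 K), v ∉ S → LocPure (v.valuation K) d H c) →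
      ∀ (ℓ : ℕ) (a : ℕ → K) (k : ℕ), IsCyc H c ℓ a k → Good k)
    (R : ℕ → ℕ → Prop) (hR0 : R 0 1) (hRs : ∀ n p k, R n p → Good k → R (n + 1) (p * k))
    {N : ℕ} {c : K} {w : Fin (N + 1) → ℕ} {D : ℕ → Fin N → Fin (N + 1) →₀ ℕ}
    {PP : ℕ → Fin N → MvPolynomial (Fin (N + 1)) K} (hw : ∀ j, 0 < w j)
    (hPP : ∀ i, TriShape 1 d w (D i) (PP i))
    (hval : ∀ v : HeightOneSpectrum (𝓞 K), v ∉ S →
      (∀ i k s, v.valuation K ((PP i k).coeff s) ≤ 1) ∧
        (∀ i k, v.valuation K ((PP i k).coeff (D i k)) = 1) ∧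
        ∀ i k, v.valuation K ((PP i k).coeff (Finsupp.single k.succ (1 * d))) = 1)
    {ℓ : ℕ} (hℓ : 0 < ℓ) (hper : ∀ i, PP (i + ℓ) = PP i) {X : ℕ → Fin (N + 1) → K}
    (hXc : ∀ i, X i 0 = c)
    (hX : ∀ i (k : Fin N), X (i + 1) k.succ = MvPolynomial.eval (X i) (PP i k)) {p : ℕ}
    (hp : 0 < p) (hXp : X (ℓ * p) = X 0) (hmin : ∀ j, 0 < j → j < p → X (ℓ * j) ≠ X 0) :
    R N p := by
  classical
  -- periodicity of the polynomials
  have hPt : ∀ t i, PP (i + ℓ * t) = PP i := by
    intro t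
    induction t with
    | zero => intro i; simp
    | succ t ih =>
      intro i
      have e : i + ℓ * (t + 1) = (i + ℓ * t) + ℓ := by ring
      rw [e, hper, ih]
  -- shifted sequences satisfy the same recursion
  have hshift : ∀ (n t : ℕ), (∀ j : Fin (N + 1), j.val < n → X (ℓ * t) j = X 0 j) →
      ∀ i, ∀ j : Fin (N + 1), j.val < n → X (i + ℓ * t) j = X i j := by
    intro n t h0
    have h1 := agree (X := fun i => X (i + ℓ * t)) (Y := X) hPP (fun i => hXc _) hXc
      (fun i k => by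
        change X (i + 1 + ℓ * t) k.succ = MvPolynomial.eval (X (i + ℓ * t)) (PP i k)
        have e : i + 1 + ℓ * t = (i + ℓ * t) + 1 := by ring
        rw [e, hX, hPt]) hX (n := n) (by
        intro j hj
        change X (0 + ℓ * t) j = X 0 j
        rw [Nat.zero_add]
        exact h0 j hj)
    exact h1
  set A : ℕ → ℕ → Prop := fun n t => ∀ j : Fin (N + 1), j.val < n + 1 → X (ℓ * t) j = X 0 j
    with hA
  have hAadd : ∀ n s t, A n s → A n t → A n (s + t) := by
    intro n s t hs ht j hj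
    have h1 := hshift (n + 1) t ht (ℓ * s) j hj
    have e : ℓ * (s + t) = ℓ * s + ℓ * t := by ring
    rw [e, h1]
    exact hs j hj
  have hAsub : ∀ n s t, A n t → A n (s + t) → A n s := by
    intro n s t ht hst j hj
    have h1 := hshift (n + 1) t ht (ℓ * s) j hj
    have e : ℓ * (s + t) = ℓ * s + ℓ * t := by ring
    rw [← h1, ← e]
    exact hst j hj
  have hAp : ∀ n, A n p := fun n j _ => by rw [hXp]
  have hA0 : ∀ n, A n 0 := fun n j _ => by rw [Nat.mul_zero]
  have hAmul : ∀ n s t, A n s → A n (s * t) := by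
    intro n s t hs
    induction t with
    | zero => rw [Nat.mul_zero]; exact hA0 n
    | succ t ih => rw [Nat.mul_succ]; exact hAadd n _ _ ih hs
  have hex : ∀ n, ∃ j, 0 < j ∧ A n j := fun n => ⟨p, hp, hAp n⟩
  set q : ℕ → ℕ := fun n => Nat.find (hex n) with hq
  have hq1 : ∀ n, 0 < q n ∧ A n (q n) := fun n => Nat.find_spec (hex n)
  have hq2 : ∀ n j, 0 < j → A n j → q n ≤ j := fun n j hj hAj => Nat.find_min' (hex n) ⟨hj, hAj⟩
  have hdvd : ∀ n t, A n t → q n ∣ t := by
    intro n t ht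
    have h1 : A n (t % q n) := by
      refine hAsub n (t % q n) (q n * (t / q n)) (hAmul n _ _ (hq1 n).2) ?_
      rw [Nat.mod_add_div]
      exact ht
    rcases Nat.eq_zero_or_pos (t % q n) with h2 | h2
    · exact Nat.dvd_of_mod_eq_zero h2
    · have h3 := hq2 n _ h2 h1
      have h4 := Nat.mod_lt t (hq1 n).1
      omega
  have hmono : ∀ n t, A (n + 1) t → A n t := fun n t h j hj => h j (by omega)
  have hall : ∀ i, X (i + ℓ * p) = X i := by
    intro i
    funext j
    exact hshift (N + 1) p (fun j _ => by rw [hXp]) i j j.isLt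
  -- the induction
  have main : ∀ n, n ≤ N → R n (q n) := by
    intro n
    induction n with
    | zero =>
      intro _
      have h1 : q 0 = 1 := by
        refine le_antisymm (hq2 0 1 one_pos ?_) (hq1 0).1
        intro j hj
        have h2 : j = 0 := Fin.ext (by
          rw [Fin.val_zero]
          omega)
        rw [h2, hXc, hXc]
      rw [h1]
      exact hR0
    | succ n ih =>
      intro hn
      have ih' := ih (by omega)
      obtain ⟨k', hk'⟩ := hdvd n (q (n + 1)) (hmono n _ (hq1 (n + 1)).2)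
      rw [hk']
      refine hRs n (q n) k' ih' ?_
      set k : Fin N := ⟨n, by omega⟩ with hk
      have hkv : k.succ.val = n + 1 := rfl
      have hk'pos : 0 < k' := by
        rcases Nat.eq_zero_or_pos k' with h | h
        · have h1 := (hq1 (n + 1)).1
          rw [hk', h, Nat.mul_zero] at h1
          exact absurd h1 (lt_irrefl _)
        · exact h
      refine hGood (fun i => TriAux.hp 1 (PP i k) k (X i)) (fun i => cp 1 (PP i k) k (X i)) ?_
        (ℓ * q n) (fun i => X i k.succ) k' ?_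
      · intro v hv
        exact TriAux.pure (v.valuation K) le_rfl (by omega) (by omega) hw hPP (hval v hv).1
          (hval v hv).2.1 (hval v hv).2.2 hXc hX (Nat.mul_pos hℓ hp) hall k
      · have hsh : ∀ i, ∀ j, j < k.succ → X (i + ℓ * q n) j = X i j := fun i j hj =>
          hshift (n + 1) (q n) (hq1 n).2 i j (Fin.lt_def.1 hj)
        refine ⟨Nat.mul_pos hℓ (hq1 n).1, hk'pos, fun i => ?_, fun i => ?_, fun i => ?_,
          fun i => ?_, fun j hj hjk => ?_⟩
        · change TriAux.hp 1 (PP (i + ℓ * q n) k) k (X (i + ℓ * q n)) =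
            TriAux.hp 1 (PP i k) k (X i)
          rw [hPt]
          exact hp_congr (hsh i)
        · change cp 1 (PP (i + ℓ * q n) k) k (X (i + ℓ * q n)) = cp 1 (PP i k) k (X i)
          rw [hPt]
          exact cp_congr (hsh i)
        · exact coord_rec hPP hX k i
        · change X (i + ℓ * q n * k') k.succ = X i k.succ
          have e : ℓ * q n * k' = ℓ * q (n + 1) := by rw [hk']; ring
          rw [e]
          exact hshift (n + 1 + 1) (q (n + 1)) (hq1 (n + 1)).2 i k.succ (by omega)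
        · intro heq
          have heq' : X (ℓ * q n * j) k.succ = X 0 k.succ := heq
          have h1 : A (n + 1) (q n * j) := by
            intro j' hj'
            rcases Nat.lt_or_ge j'.val (n + 1) with h2 | h2
            · exact hAmul n (q n) j (hq1 n).2 j' h2
            · have h3 : j' = k.succ := Fin.ext (by omega)
              rw [h3, ← mul_assoc]
              exact heq'
          have h2 := hq2 (n + 1) (q n * j) (Nat.mul_pos (hq1 n).1 hj) h1
          rw [hk'] at h2
          have h3 := Nat.le_of_mul_le_mul_left h2 (hq1 n).1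
          omega
  have h1 : q N = p := by
    refine le_antisymm (hq2 N p hp (hAp N)) ?_
    by_contra hlt
    push Not at hlt
    refine hmin (q N) (hq1 N).1 hlt ?_
    funext j
    exact (hq1 N).2 j j.isLt
  rw [← h1]
  exact main N le_rfl

/-- a bound for the periods of compositions of triangular maps -/
theorem tri_period (K : Type u) [Field K] [NumberField K] {r m : ℕ} (hd2 : 2 ≤ r * m) (M : ℕ) (hM : M ≠ 0) (Good : ℕ → ℕ → Prop)
    (hGood : ∀ S : Set (HeightOneSpectrum (𝓞 K)), S.Finite →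
      (∀ v : HeightOneSpectrum (𝓞 K), v ∉ S → v.valuation K ((r * m : ℕ) : K) = 1) →
      ∃ B : ℕ, ∀ (H : ℕ → K[X]) (c : ℕ → K),
      (∀ v : HeightOneSpectrum (𝓞 K), v ∉ S → LocPure (v.valuation K) (r * m) H c) →
      ∀ (ℓ : ℕ) (a : ℕ → K) (k : ℕ), IsCyc H c ℓ a k → Good B k)
    (R : ℕ → ℕ → ℕ → Prop) (hR0 : ∀ B, R B 0 1)
    (hRs : ∀ B n p k, R B n p → Good B k → R B (n + 1) (p * k)) :
    ∃ B : ℕ, ∀ (N : ℕ) (w : Fin (N + 1) → ℕ) (c : K)
      (l : List (Fin N → MvPolynomial (Fin (N + 1)) K)), (∀ j, 0 < w j) → l ≠ [] →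
      (∀ P ∈ l, ∀ k, TriGood r m M w k (P k)) → ∀ x : Fin N → K,
      0 < Function.minimalPeriod (fun y : Fin N → K => l.foldl (fun z P => triMap c P z) y) x →
      R B N (Function.minimalPeriod
        (fun y : Fin N → K => l.foldl (fun z P => triMap c P z) y) x) := by
  classical
  set S1 : Set (HeightOneSpectrum (𝓞 K)) := {v | v.valuation K ((r * m * M : ℕ) : K) ≠ 1}
    with hS1
  have hS1f : S1.Finite := finite_nonunit K _ (by
    exact_mod_cast (Nat.mul_ne_zero (by omega) hM))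
  have hsplit : ∀ v : HeightOneSpectrum (𝓞 K), v ∉ S1 →
      v.valuation K ((r * m : ℕ) : K) = 1 ∧ v.valuation K ((M : ℕ) : K) = 1 := by
    intro v hv
    refine split_places K ?_
    by_contra h'
    exact hv h'
  obtain ⟨B, hB⟩ := hGood S1 hS1f fun v hv => (hsplit v hv).1
  refine ⟨B, fun N w c l hw hl hgood x hx => ?_⟩
  have hpos : 0 < l.length := List.length_pos_iff.2 hl
  set F : (Fin N → K) → (Fin N → K) := fun y => l.foldl (fun z P => triMap c P z) y with hF
  set d0 : Fin N → MvPolynomial (Fin (N + 1)) K := fun _ => 0 with hd0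
  have hlet : ∀ i k, TriGood r m M w k (ListSeq.letter d0 l i k) := fun i k =>
    hgood _ (ListSeq.letter_mem d0 hl i) k
  choose h1 h2 h3 D hD1 hD2 hD3 hD4 hD5 using hlet
  have hone : ∀ i, TriShape 1 (r * m) w (D i) (ListSeq.letter d0 l i) := fun i =>
    TriShape.one (r := r) (m := m) fun k => ⟨hD1 i k, hD2 i k, hD3 i k, h2 i k, hD5 i k⟩
  set X : ℕ → Fin (N + 1) → K := fun i =>
    (Fin.cons c (ListSeq.orb (fun z P => triMap c P z) d0 l x i) : Fin (N + 1) → K) with hXdef
  have hit : ∀ t, ListSeq.orb (fun z P => triMap c P z) d0 l x (l.length * t) = F^[t] x := by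
    intro t
    have h4 := ListSeq.orb_add_mul (fun z P => triMap c P z) d0 l t x 0
    rw [Nat.zero_add] at h4
    rw [h4, ListSeq.orb_zero]
  have hinj : ∀ y z : Fin N → K, (Fin.cons c y : Fin (N + 1) → K) = Fin.cons c z → y = z := by
    intro y z h
    funext k
    have := congrFun h k.succ
    simpa using this
  refine tri_chain (K := K) (d := r * m) hd2 S1 (Good B) hB (R B) (hR0 B) (hRs B) (c := c)
    (D := D) (PP := fun i => ListSeq.letter d0 l i) hw hone ?_ hpos ?_ (X := X) ?_ ?_ hx ?_ ?_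
  · intro v hv
    have hM1 := (hsplit v hv).2
    have hid : ∀ a : K, algebraMap K K a = a := fun a => rfl
    refine ⟨fun i k s => val_le_one_of_away v hM1 (h1 i k s), fun i k => ?_, fun i k => ?_⟩
    · have h4 := val_eq_one_of_away (K := K) (L := K) v hM1 (hD3 i k) (h1 i k _) (hD4 i k)
      rwa [hid] at h4
    · have h4 := val_eq_one_of_away (K := K) (L := K) v hM1 (h2 i k) (h1 i k _) (h3 i k)
      rw [hid] at h4
      rw [one_mul]
      exact h4
  · intro i
    unfold ListSeq.letter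
    rw [Nat.add_mod_right]
  · intro i
    rfl
  · intro i k
    rfl
  · change (Fin.cons c (ListSeq.orb (fun z P => triMap c P z) d0 l x _) : Fin (N + 1) → K) =
      Fin.cons c (ListSeq.orb (fun z P => triMap c P z) d0 l x 0)
    rw [hit, Function.iterate_minimalPeriod, ListSeq.orb_zero]
  · intro j hj hjp h
    have h4 : (Fin.cons c (ListSeq.orb (fun z P => triMap c P z) d0 l x (l.length * j)) :
        Fin (N + 1) → K) = Fin.cons c (ListSeq.orb (fun z P => triMap c P z) d0 l x 0) := h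
    have h5 := hinj _ _ h4
    rw [hit, ListSeq.orb_zero] at h5
    exact Function.not_isPeriodicPt_of_pos_of_lt_minimalPeriod hj.ne' hjp h5

/-- uniqueness of the odd part -/
lemma odd_part_unique {e m e' m' : ℕ} (hm : Odd m) (hm' : Odd m') (h : 2 ^ e * m = 2 ^ e' * m') :
    m = m' := by
  have h1 : m ∣ 2 ^ e' * m' := h ▸ Dvd.intro_left _ rfl
  have h2 : m' ∣ 2 ^ e * m := h ▸ Dvd.intro_left _ rfl
  have c1 : Nat.Coprime m (2 ^ e') := (Nat.Coprime.pow_left e' (Nat.coprime_two_left.2 hm)).symm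
  have c2 : Nat.Coprime m' (2 ^ e) := (Nat.Coprime.pow_left e (Nat.coprime_two_left.2 hm')).symm
  exact Nat.dvd_antisymm (c1.dvd_of_dvd_mul_left h1) (c2.dvd_of_dvd_mul_left h2)

/-- The complete theorem for triangular maps. -/
theorem uniform_tri_all (K : Type u) [Field K] [NumberField K] {r m : ℕ} (hrm : 5 ≤ r * m) (M : ℕ) (hM : M ≠ 0) :
    ∃ B : ℕ, ∀ (N : ℕ) (w : Fin (N + 1) → ℕ) (c : K)
      (l : List (Fin N → MvPolynomial (Fin (N + 1)) K)), (∀ j, 0 < w j) → l ≠ [] →
      (∀ P ∈ l, ∀ k, TriGood r m M w k (P k)) →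
      (3 ≤ r → ∀ Q : Finset (Fin N → K), (∀ x ∈ Q, ∃ k : ℕ, 0 < k ∧
        (fun y : Fin N → K => l.foldl (fun z P => triMap c P z) y)^[k] x = x) →
        Q.card ≤ B ^ N) ∧
      (∀ (x : Fin N → K) (e m' : ℕ), Odd m' → Function.minimalPeriod
        (fun y : Fin N → K => l.foldl (fun z P => triMap c P z) y) x = 2 ^ e * m' →
        m' ≤ B ^ N) ∧
      (7 ≤ r * m → Odd (r * m) → ∀ x : Fin N → K, Function.minimalPeriod
        (fun y : Fin N → K => l.foldl (fun z P => triMap c P z) y) x ≤ B ^ N) := by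
  obtain ⟨B1, hB1⟩ : ∃ B : ℕ, ∀ (N : ℕ) (w : Fin (N + 1) → ℕ) (c : K)
      (l : List (Fin N → MvPolynomial (Fin (N + 1)) K)), (∀ j, 0 < w j) → l ≠ [] →
      (∀ P ∈ l, ∀ k, TriGood r m M w k (P k)) → 3 ≤ r →
      ∀ Q : Finset (Fin N → K), (∀ x ∈ Q, ∃ k : ℕ, 0 < k ∧
        (fun y : Fin N → K => l.foldl (fun z P => triMap c P z) y)^[k] x = x) →
        Q.card ≤ B ^ N := by
    by_cases hr3 : 3 ≤ r
    · obtain ⟨B, hB⟩ := uniform_tri K hr3 hrm M hM
      exact ⟨B, fun N w c l hw hl hg _ => hB N w c l hw hl hg⟩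
    · exact ⟨0, fun N w c l hw hl hg h => absurd h hr3⟩
  obtain ⟨B2, hB2⟩ := tri_period K (r := r) (m := m) (by omega) M hM
    (fun B k => 0 < k ∧ ∀ e m : ℕ, Odd m → k = 2 ^ e * m → m ≤ B) (by
      intro S hS hdS
      obtain ⟨B, hB⟩ := cyc_oddpart K hrm S hS hdS
      refine ⟨B, fun H c hp ℓ a k hcyc => ⟨hcyc.kpos, fun e m hm hk => ?_⟩⟩
      rw [hk] at hcyc
      exact hB H c hp ℓ a e m hm hcyc)
    (fun B n p => ∃ e m : ℕ, Odd m ∧ m ≤ B ^ n ∧ p = 2 ^ e * m)
    (fun B => ⟨0, 1, odd_one, by rw [pow_zero], by norm_num⟩) (by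
      rintro B n p k ⟨e, m, hm, hmB, hp⟩ ⟨h0, hk⟩
      obtain ⟨e', m', hm', hk'⟩ := Nat.exists_eq_two_pow_mul_odd h0.ne'
      refine ⟨e + e', m * m', hm.mul hm', ?_, ?_⟩
      · rw [pow_succ]
        exact Nat.mul_le_mul hmB (hk e' m' hm' hk')
      · rw [hp, hk', pow_add]
        ring)
  obtain ⟨B3, hB3⟩ : ∃ B : ℕ, ∀ (N : ℕ) (w : Fin (N + 1) → ℕ) (c : K)
      (l : List (Fin N → MvPolynomial (Fin (N + 1)) K)), (∀ j, 0 < w j) → l ≠ [] →
      (∀ P ∈ l, ∀ k, TriGood r m M w k (P k)) → 7 ≤ r * m → Odd (r * m) →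
      ∀ x : Fin N → K, Function.minimalPeriod
        (fun y : Fin N → K => l.foldl (fun z P => triMap c P z) y) x ≤ B ^ N := by
    by_cases hodd : 7 ≤ r * m ∧ Odd (r * m)
    · obtain ⟨B, hB⟩ := tri_period K (r := r) (m := m) (by omega) M hM
        (fun B k => k ≤ B) (fun S hS hdS => cyc_all K hodd.1 hodd.2 S hS hdS)
        (fun B n p => p ≤ B ^ n) (fun B => by rw [pow_zero]) (by
          intro B n p k hp hk
          rw [pow_succ]
          exact Nat.mul_le_mul hp hk)
      refine ⟨B, fun N w c l hw hl hg _ _ x => ?_⟩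
      rcases Nat.eq_zero_or_pos (Function.minimalPeriod
        (fun y : Fin N → K => l.foldl (fun z P => triMap c P z) y) x) with h | h
      · rw [h]
        exact Nat.zero_le _
      · exact hB N w c l hw hl hg x h
    · exact ⟨0, fun N w c l hw hl hg h7 h => absurd ⟨h7, h⟩ hodd⟩
  have hpow : ∀ {b : ℕ} (N : ℕ), b ≤ B1 + B2 + B3 → b ^ N ≤ (B1 + B2 + B3) ^ N := fun N hb =>
    Nat.pow_le_pow_left hb N
  refine ⟨B1 + B2 + B3, fun N w c l hw hl hg => ⟨fun hr3 Q hQ => ?_, fun x e m' hm' hx => ?_,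
    fun h7 hodd x => ?_⟩⟩
  · exact (hB1 N w c l hw hl hg hr3 Q hQ).trans (hpow N (by omega))
  · obtain ⟨e1, m1, hm1, hm1B, hp1⟩ := hB2 N w c l hw hl hg x (by
      rw [hx]
      exact Nat.mul_pos (pow_pos two_pos e) hm'.pos)
    rw [hx] at hp1
    rw [odd_part_unique hm' hm1 hp1]
    exact hm1B.trans (hpow N (by omega))
  · exact (hB3 N w c l hw hl hg h7 hodd x).trans (hpow N (by omega))

end UBC
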